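import Mathlib.NumberTheory.Real.Irrational
import Pool.Agent.MP_c8dfda_nt.Core2

/-! Polynomial maps of the plane: absolute values at infinity, the Berkovich disc. -/

open Polynomial Filter Real
open scoped Topology

noncomputable section

namespace Pool.Agent.KSP

/-- polynomials in two variables -/
abbrev R (K : Type) [Field K] : Type := MvPolynomial (Fin 2) K
/-- rational functions in two variables -/
abbrev M (K : Type) [Field K] : Type := FractionRing (R K)
/-- absolute values on the field of rational functions -/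
abbrev AV (K : Type) [Field K] : Type := AbsoluteValue (M K) ℝ

/-- nonarchimedean and trivial on the constants -/
def NA (K : Type) [Field K] {A : Type} [CommRing A] [Algebra K A] (v : AbsoluteValue A ℝ) : Prop :=
  IsNonarchimedean v ∧ ∀ c : K, c ≠ 0 → v (algebraMap K A c) = 1

/-- the Gauss extension -/
def gs {A : Type} [CommRing A] {v : AbsoluteValue A ℝ} (hv : IsNonarchimedean v) :
    AbsoluteValue A[X] ℝ where
  toFun P := P.gaussNorm v 1
  map_mul' P Q := gaussNorm_mul hv one_pos P Q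
  nonneg' _ := gaussNorm_nonneg _ _ one_pos.le
  eq_zero' _ := gaussNorm_eq_zero_iff v _ (fun _ hx => (AbsoluteValue.eq_zero v).mp hx) one_pos
  add_le' P Q := (isNonarchimedean_gaussNorm v hv one_pos.le P Q).trans
    (max_le (le_add_of_nonneg_right (gaussNorm_nonneg _ _ one_pos.le))
      (le_add_of_nonneg_left (gaussNorm_nonneg _ _ one_pos.le)))

theorem gs_na {A : Type} [CommRing A] {v : AbsoluteValue A ℝ} (hv : IsNonarchimedean v) :
    IsNonarchimedean (gs hv) := isNonarchimedean_gaussNorm v hv one_pos.le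

section plane

variable {K : Type} [Field K] {ι : Type} [Fintype ι]

/-- polynomials as rational functions -/
abbrev io : R K →+* M K := algebraMap (R K) (M K)
/-- the coordinates -/
abbrev xx (j : Fin 2) : R K := MvPolynomial.X j
/-- constants -/
abbrev cc (c : K) : R K := MvPolynomial.C c
/-- the degree -/
abbrev dg (φ : R K) : ℕ := φ.totalDegree

/-- the logarithm of the absolute value -/
def lg (v : AV K) (φ : R K) : ℝ := log (v (io φ))
/-- its positive part -/
def lp (v : AV K) (φ : R K) : ℝ := max 0 (lg v φ)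
/-- the weight at infinity -/
def zz (v : AV K) : ℝ := max (lp v (xx 0)) (lp v (xx 1))
/-- the degree function of a family -/
def Nn (N : ι → AV K) (φ : R K) : ℝ := ∑ i, lg (N i) φ
/-- the height of a function -/
def hh (N : ι → AV K) (φ : R K) : ℝ := ∑ i, lp (N i) φ
/-- the total weight -/
def ZZ (N : ι → AV K) : ℝ := ∑ i, zz (N i)

/-- composition with an endomorphism -/
def cp (v : AV K) (σ : M K →ₐ[K] M K) : AV K := v.comp (f := (σ : M K →+* M K)) σ.injective

/-- a family with the product inequality -/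
structure Fam0 (N : ι → AV K) : Prop where
  na : ∀ i, NA K (N i)
  pf : ∀ φ : R K, φ ≠ 0 → 0 ≤ Nn N φ

/-- a family at infinity -/
structure Fam (N : ι → AV K) : Prop extends Fam0 N where
  inf : ∀ i, 0 < zz (N i)
  ne : Nonempty ι

/-- functions of small height -/
def Thin (N : ι → AV K) (G : ℕ → R K) : Prop :=
  (∀ n, 1 ≤ dg (G n)) ∧ Tendsto (fun n => hh N (G n) / dg (G n)) atTop (𝓝 0)

/-- `σ` extends `s` -/
def Cmp (s : R K →ₐ[K] R K) (σ : M K →ₐ[K] M K) : Prop := ∀ φ, σ (io φ) = io (s φ)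
/-- the degree of the map -/
def dd (s : R K →ₐ[K] R K) : ℕ := max (dg (s (xx 0))) (dg (s (xx 1)))
/-- the topological degree -/
def qq (σ : M K →ₐ[K] M K) : ℕ := Module.finrank σ.fieldRange (M K)
/-- the Jacobian determinant -/
def jac (φ ψ : R K) : R K :=
  MvPolynomial.pderiv 0 φ * MvPolynomial.pderiv 1 ψ - MvPolynomial.pderiv 1 φ * MvPolynomial.pderiv 0 ψ
/-- the Jacobian determinant of the map -/
def JJ (s : R K →ₐ[K] R K) : R K := jac (s (xx 0)) (s (xx 1))

/-- `δ` is the dynamical degree -/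
structure Lim (s : R K →ₐ[K] R K) (δ : ℝ) : Prop where
  one : 1 < δ
  low : ∀ n, δ ^ n ≤ dd (s ^ n)
  up : ∀ γ : ℝ, δ < γ → ∃ C : ℝ, ∀ n, (dd (s ^ n) : ℝ) ≤ C * γ ^ n

/-- slow growth along the iterates -/
def Slow (N : ι → AV K) (s : R K →ₐ[K] R K) (β : ℝ) : Prop :=
  Fam N ∧ ∃ C : ℝ, ∀ i n j, lg (N i) ((s ^ n) (xx j)) ≤ C * β ^ n

/-- pairwise inequivalent common eigenvectors -/
structure Per (N : ι → AV K) (σ : M K →ₐ[K] M K) (μ : ℝ) : Prop where
  pos : 0 < μ
  ineq : Pairwise fun i j => ¬ (N i).IsEquiv (N j)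
  eig : ∀ i a, N i (σ a) = N i a ^ μ

/-- the eigenfamily -/
structure Eig (N : ι → AV K) (s : R K →ₐ[K] R K) (σ : M K →ₐ[K] M K) (μ : ℝ) : Prop
    extends Fam N, Per N σ μ where
  cmp : Cmp s σ
  thin : ∃ G : ℕ → R K, Thin N fun n => s (G n)

/-- `v` is the only extension of its restriction to the image of `σ` -/
def Uniq (v : AV K) (σ : M K →ₐ[K] M K) : Prop :=
  ∀ η : AV K, NA K η → (∀ b, η (σ b) = v (σ b)) → η = v

/-- `a` is a denominator for the integrality of the coordinates -/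
def Den (s : R K →ₐ[K] R K) (a : R K) : Prop :=
  a ≠ 0 ∧ ∀ j, ∃ p : (R K)[X], p.Monic ∧ p.eval₂ (s : R K →+* R K) (s a * xx j) = 0

/-- `o` is the order of vanishing along `c` -/
structure Od (c : R K) (o : AV K) : Prop where
  na : NA K o
  le : ∀ φ, o (io φ) ≤ 1
  self : o (io c) = exp (-1)
  one : ∀ φ, ¬ c ∣ φ → o (io φ) = 1

/-- algebraic residue field -/
def RA (v : AV K) : Prop := ∀ a : M K, v a ≤ 1 → ∃ p : K[X], p ≠ 0 ∧ v (aeval a p) < 1
/-- rational rank two -/
def T2 (v : AV K) : Prop := ∃ (s : ℝ) (m : ℕ) (ρ : R K → ℤ) (n : R K → ℕ), Irrational s ∧ 0 < m ∧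
  (∀ φ, φ ≠ 0 → lg v φ = zz v * (ρ φ / m + n φ * s)) ∧ ∃ φ, φ ≠ 0 ∧ 0 < n φ
/-- rational values -/
def T3 (v : AV K) : Prop := ∀ φ, φ ≠ 0 → ∃ r : ℚ, lg v φ = zz v * r
/-- discrete values -/
def Dis (v : AV K) : Prop := ∃ m : ℕ, 0 < m ∧ ∀ φ, φ ≠ 0 → ∃ a : ℤ, lg v φ = zz v * (a / m)
/-- the value group -/
def vg (v : AV K) : AddSubgroup ℝ := AddSubgroup.closure {t | ∃ a : M K, a ≠ 0 ∧ t = log (v a)}
/-- `α` is the logarithm of the norm of the area form -/
def Jv (v : AV K) (α : ℝ) : Prop := ∀ a f g : R K, a ≠ 0 → f ≠ 0 → g ≠ 0 → lg v a ≠ 0 →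
  (∀ p : K[X], p ≠ 0 → v (aeval (io f / io g) p) = 1) → g * jac a f - f * jac a g ≠ 0 ∧
    lg v (g * jac a f - f * jac a g) = lg v a + lg v f + lg v g - α

/-- a monomial structure -/
def Unt (s : R K →ₐ[K] R K) : Prop := ∃ (J : Type) (_ : Fintype J) (c : J → R K)
  (A : Matrix J J ℕ) (κ : J → K), (∀ j, c j ≠ 0) ∧ (∀ j, κ j ≠ 0) ∧ (∀ j, s (c j) = cc (κ j) * ∏ l, c l ^ A j l) ∧
    (∀ (m m' : J → ℕ) (k : K), ∏ l, c l ^ m l = cc k * ∏ l, c l ^ m' l → m = m') ∧
    ∀ j, IsAlgebraic (Algebra.adjoin K (Set.range c)) (xx j : R K)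

/-- an invariant pencil -/
def Penc (s : R K →ₐ[K] R K) (δ : ℝ) : Prop := ∃ u : R K, 1 ≤ dg u ∧ δ * dg u ≤ dg (s u) ∧
  ∀ η : AV K, NA K η → lp η u * dg (s u) = lp η (s u) * dg u

/-- the double Gauss norm -/
def G2 {v : AV K} (hv : IsNonarchimedean v) (Φ : (R K)[X][X]) : ℝ :=
  gs (gs_na hv) (Φ.map (mapRingHom io))
/-- pull back and substitute `y - t x` for the outer variable -/
def sub (s : R K →ₐ[K] R K) : (R K)[X][X] →+* (R K)[X] :=
  eval₂RingHom (mapRingHom (s : R K →+* R K)) (C (xx 1) - C (xx 0) * X)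

/-- the field of the two parameters -/
abbrev K2 (K : Type) [Field K] : Type := FractionRing K[X][X]
/-- the slope -/
def t1 (K : Type) [Field K] : K2 K := algebraMap K[X][X] (K2 K) (C X)
/-- the intercept -/
def t2 (K : Type) [Field K] : K2 K := algebraMap K[X][X] (K2 K) X
/-- extension of constants -/
def bc : R K →+* R (K2 K) := MvPolynomial.map (algebraMap K (K2 K))
/-- the two variables become constants -/
def th : (R K)[X][X] →+* R (K2 K) := eval₂RingHom (eval₂RingHom bc (cc (t1 K))) (cc (t2 K))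
/-- restriction to the generic line -/
def ln : R (K2 K) →ₐ[K2 K] (K2 K)[X] := MvPolynomial.aeval ![X, C (t1 K) * X + C (t2 K)]

/-- the map on points -/
def ap (s : R K →ₐ[K] R K) (P : Fin 2 → K) : Fin 2 → K := fun j => MvPolynomial.eval P (s (xx j))
/-- orbits -/
def Orb (s : R K →ₐ[K] R K) (O : ℕ → Fin 2 → K) : Prop := ∀ n, O (n + 1) = ap s (O n)
/-- Zariski density -/
def ZD (O : ℕ → Fin 2 → K) : Prop := ∀ φ : R K, (∀ n, MvPolynomial.eval (O n) φ = 0) → φ = 0
/-- the height of a point -/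
def Ht [NumberField K] (P : Fin 2 → K) : ℝ := Height.logHeight ![P 0, P 1, 1]
/-- exponential growth of the height -/
def Grow [NumberField K] (O : ℕ → Fin 2 → K) (δ : ℝ) : Prop :=
  ∃ c : ℝ, 0 < c ∧ ∀ᶠ n in atTop, c * δ ^ n ≤ Ht (O n)

end plane

open Classical in
/-- sets of density zero -/
def Sparse (B : Set ℕ) : Prop := ∀ ε : ℝ, 0 < ε → ∃ C : ℝ, ∀ n,
  (((Finset.range n).filter fun j => j ∈ B).card : ℝ) ≤ ε * n + C

/-! The Berkovich disc. -/

/-- points of the Berkovich line -/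
structure Pt {E : Type} [Field E] (n : AbsoluteValue E ℝ) where
  /-- the seminorm -/
  f : E[X] →*₀ ℝ
  nn : ∀ p, 0 ≤ f p
  add : ∀ p q, f (p + q) ≤ max (f p) (f q)
  cst : ∀ β, f (C β) = n β

/-- evaluation of the first variable -/
def evA {K A : Type} [Field K] [Field A] [Algebra K A] (ξ : A) : R K →ₐ[K] A[X] :=
  MvPolynomial.aeval ![C ξ, X]

/-- `ζ` is the point attached to `v` -/
def Rel {K E : Type} [Field K] [Field E] [Algebra K E] {n : AbsoluteValue E ℝ} (ξ : E) (v : AV K)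
    (ζ : Pt n) : Prop :=
  ∀ φ : R K, φ ≠ 0 → 0 < ζ.f (evA ξ φ) ∧ lg v φ = zz v * log (ζ.f (evA ξ φ))

/-- the completion `L` of `K(x)` at infinity and its algebraic closure -/
structure Md (K : Type) [Field K] : Type 1 where
  /-- the complete field -/
  L : Type
  /-- its algebraic closure -/
  E : Type
  /-- field structure -/
  [fL : Field L]
  /-- field structure -/
  [fE : Field E]
  /-- algebra structure -/
  [aL : Algebra K L]
  /-- algebra structure -/
  [aE : Algebra L E]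
  /-- algebra structure -/
  [aK : Algebra K E]
  [tw : IsScalarTower K L E]
  [cl : IsAlgClosure L E]
  /-- the absolute value -/
  n : AbsoluteValue E ℝ
  /-- the variable -/
  ξ : L
  na : NA K n
  xi : n (algebraMap L E ξ) = exp 1
  conj : ∀ (σ : E ≃ₐ[L] E) (β : E), n (σ β) = n β
  apx : ∀ a : L, ∃ p : K[X], n (algebraMap L E (a - aeval ξ p)) < 1
  dis : ∀ a : L, a ≠ 0 → ∃ m : ℤ, n (algebraMap L E a) = exp m
  univ : ∀ v : AV K, NA K v → 0 < zz v → lg v (xx 0) = zz v →
    ∃ ζ : Pt n, Rel (algebraMap L E ξ) v ζ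
  der : ∃ D : Derivation K E E, D (algebraMap L E ξ) = algebraMap L E ξ ∧
    ∀ (γ : E) (r : ℚ), n γ = exp r → n (D γ - r * γ) < n γ

namespace Md

variable {K : Type} [Field K] (W : Md K)

instance : Field W.L := W.fL
instance : Field W.E := W.fE
instance : Algebra K W.L := W.aL
instance : Algebra W.L W.E := W.aE
instance : Algebra K W.E := W.aK
instance : IsScalarTower K W.L W.E := W.tw
instance : IsAlgClosure W.L W.E := W.cl
instance : IsAlgClosed W.E := IsAlgClosure.isAlgClosed W.L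
instance [CharZero K] : CharZero W.L := charZero_of_injective_algebraMap (algebraMap K W.L).injective
instance [CharZero K] : CharZero W.E := charZero_of_injective_algebraMap (algebraMap K W.E).injective

/-- the variable in the closure -/
def x : W.E := algebraMap W.L W.E W.ξ
/-- the absolute value on the complete field -/
def nL (a : W.L) : ℝ := W.n (algebraMap W.L W.E a)
/-- extension of the coefficients -/
def up (f : W.L[X]) : W.E[X] := f.map (algebraMap W.L W.E)
/-- evaluation -/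
abbrev ev : R K →ₐ[K] W.E[X] := evA W.x
/-- evaluation over the complete field -/
abbrev evL : R K →ₐ[K] W.L[X] := evA W.ξ
/-- formal combinations of discs -/
abbrev V : Type := (W.E × ℝ) →₀ ℝ
/-- the kernel -/
def kk (a b : W.E × ℝ) : ℝ := max 0 (1 - log (max (W.n (a.1 - b.1)) (max (exp a.2) (exp b.2))))
/-- the bilinear form -/
def B : W.V →ₗ[ℝ] W.V →ₗ[ℝ] ℝ :=
  Finsupp.linearCombination ℝ fun a => Finsupp.linearCombination ℝ (W.kk a)
/-- one disc -/
def sg (a : W.E × ℝ) : W.V := Finsupp.single a 1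
/-- discs around the roots -/
def rt (f : W.E[X]) (s : W.E → ℝ) : W.V := (f.roots.map fun β => W.sg (β, s β)).sum
/-- the average over the conjugates -/
def av (a : W.E × ℝ) : W.V :=
  ((minpoly W.L a.1).natDegree : ℝ)⁻¹ • W.rt (W.up (minpoly W.L a.1)) fun _ => a.2
/-- the norm on a disc -/
def gn (a : W.E × ℝ) : AbsoluteValue W.E[X] ℝ := KSkew.GN W.na.1 a.1 (exp_pos a.2)
/-- discs inside the unit disc -/
def In (a : W.E × ℝ) : Prop := W.n a.1 ≤ exp 1 ∧ a.2 ≤ 1
/-- invariant radii -/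
def Inv (s : W.E → ℝ) : Prop := ∀ (σ : W.E ≃ₐ[W.L] W.E) (β : W.E), s (σ β) = s β

/-- the radii of the pencil of `G` -/
structure Pen (G : R K) (s : W.E → ℝ) : Prop where
  inv : W.Inv s
  ins : ∀ a, W.In a → W.B (W.sg a) (W.rt (W.ev G) s) = dg G - max 0 (log (W.gn a (W.ev G)))
  out : ∀ a : W.E × ℝ, exp 1 < W.n a.1 → W.B (W.sg a) (W.rt (W.ev G) s) = 0
  sq : W.B (W.rt (W.ev G) s) (W.rt (W.ev G) s) ≤ (dg G : ℝ) ^ 2

/-- the point is a disc -/
def IsD (ζ : Pt W.n) (a : W.E × ℝ) : Prop := ∀ f, ζ.f f = W.gn a f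
/-- the point is immediate -/
def Imm (ζ : Pt W.n) : Prop := ∀ f, 0 < ζ.f f → ∃ γ, ζ.f (f - C γ) < ζ.f f

/-- a product of curvettes -/
structure Cv {ι : Type} (a : ι → W.E × ℝ) (U : W.L[X]) : Prop where
  mon : U.Monic
  sep : U.Separable
  pos : 1 ≤ U.natDegree
  one : ∀ l, W.gn (a l) (W.up U) = 1
  lag : ∀ θ ∈ (W.up U).roots, ∀ l,
    1 ≤ W.n ((derivative (W.up U)).eval θ) * max (exp (a l).2) (W.n ((a l).1 - θ))
  big : ((W.up U).roots.map fun θ => W.n ((derivative (W.up U)).eval θ)).prod ≤ exp U.natDegree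

/-- discs as points -/
def dp (a : W.E × ℝ) : Pt W.n where
  f := (W.gn a).toMonoidWithZeroHom
  nn p := (W.gn a).nonneg p
  add := KSkew.GN_na W.na.1 (exp_pos a.2)
  cst := KSkew.GN_C W.na.1 (exp_pos a.2)

/-- elements as points -/
def ep (β : W.E) : Pt W.n where
  f := W.n.toMonoidWithZeroHom.comp (evalRingHom β).toMonoidWithZeroHom
  nn p := W.n.nonneg _
  add p q := by
    show W.n (eval β (p + q)) ≤ max (W.n (eval β p)) (W.n (eval β q))
    rw [eval_add]
    exact W.na.1 _ _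
  cst γ := by
    show W.n (eval β (C γ)) = W.n γ
    rw [eval_C]

end Md

/-- a completion of `K(ξ)` at infinity -/
structure Cm (K : Type) {L : Type} [Field K] [NormedField L] [Algebra K L] (ξ : L) : Prop where
  xi : ‖ξ‖ = exp 1
  triv : ∀ c : K, c ≠ 0 → ‖algebraMap K L c‖ = 1
  dense : ∀ (a : L) (ε : ℝ), 0 < ε → ∃ p r : K[X], r ≠ 0 ∧ ‖a - aeval ξ p / aeval ξ r‖ < ε

end Pool.Agent.KSP

end
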