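import Mathlib.LinearAlgebra.Lagrange
import Mathlib.Analysis.Normed.Unbundled.SpectralNorm
import Mathlib.RingTheory.MvPolynomial.IrreducibleQuadratic
import Pool.Agent.MP_c8dfda_nt.kp.Defs

-- ======== part 0: formerly Pool.Agent.MP_c8dfda_nt.kp.Spec
section MrgPart0

/-! Polynomial maps of the plane: statements of the rows. -/

open Polynomial Filter Real
open scoped Topology

noncomputable section

namespace Pool.Agent.KSP

/-! The model. -/

/-- quantification over completions -/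
def AllC (P : ∀ (K L : Type) [Field K] [NontriviallyNormedField L] [Algebra K L], L →
    AbsoluteValue (AlgebraicClosure L) ℝ → Prop) : Prop :=
  ∀ (K L : Type) [Field K] [CharZero K] [NontriviallyNormedField L] [CompleteSpace L]
    [IsUltrametricDist L] [Algebra K L] (ξ : L) (n : AbsoluteValue (AlgebraicClosure L) ℝ),
    Cm K ξ → (∀ a, n a = spectralNorm L (AlgebraicClosure L) a) → P K L ξ n

def S_EXL : Prop := ∀ (K : Type) [Field K], ∃ (L : Type) (_ : NontriviallyNormedField L)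
  (_ : CompleteSpace L) (_ : IsUltrametricDist L) (_ : Algebra K L) (ξ : L), Cm K ξ

def S_UNIV : Prop := AllC fun K L _ _ _ ξ n => ∀ v : AV K, NA K v → 0 < zz v → lg v (xx 0) = zz v →
  ∃ ζ : Pt n, Rel (algebraMap L (AlgebraicClosure L) ξ) v ζ

def S_DERL : Prop := AllC fun K L _ _ _ ξ _ =>
  (∃ D : Derivation K L L, D ξ = ξ ∧ ∀ a, ‖D a‖ ≤ ‖a‖) ∧
  (∀ a : L, ∃ p : K[X], ‖a - aeval ξ p‖ < 1) ∧ ∀ a : L, a ≠ 0 → ∃ m : ℤ, ‖a‖ = exp m

def S_DERV : Prop := AllC fun K L _ _ _ ξ n =>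
  ∃ D : Derivation K (AlgebraicClosure L) (AlgebraicClosure L),
    D (algebraMap L _ ξ) = algebraMap L _ ξ ∧
      ∀ (γ : AlgebraicClosure L) (r : ℚ), n γ = exp r → n (D γ - r * γ) < n γ

def S_OM : Prop := ∀ (K : Type) [Field K] [CharZero K], Nonempty (Md K)

/-- quantification over models -/
def AllW (P : ∀ (K : Type) [Field K], Md K → Prop) : Prop :=
  ∀ (K : Type) [Field K] [CharZero K] (W : Md K), P K W

/-- values and residues in the closure -/
def S_MODF : Prop := AllW fun K _ W => (∀ γ : W.E, γ ≠ 0 → ∃ r : ℚ, W.n γ = exp r) ∧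
  (∀ r : ℚ, ∃ γ : W.E, W.n γ = exp r) ∧
  (∀ γ : W.E, W.n γ ≤ 1 → ∃ p : K[X], p ≠ 0 ∧ W.n (aeval γ p) < 1) ∧
  ∀ S : Finset W.E, ∃ m : ℕ, 0 < m ∧ ∀ γ ∈ IntermediateField.adjoin W.L (S : Set W.E), γ ≠ 0 →
    ∃ a : ℤ, W.n γ = exp (a / m)

/-- the kernel is positive semidefinite -/
def S_PSD : Prop := AllW fun _ _ W => ∀ u : W.V, 0 ≤ W.B u u

/-- conjugates -/
def S_GAL : Prop := AllW fun _ _ W =>
  (∀ β : W.E, 0 < (minpoly W.L β).natDegree ∧ (W.up (minpoly W.L β)).roots.Nodup ∧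
    (W.up (minpoly W.L β)).roots.card = (minpoly W.L β).natDegree ∧
    ∀ β', β' ∈ (W.up (minpoly W.L β)).roots ↔ ∃ σ : W.E ≃ₐ[W.L] W.E, σ β = β') ∧
  (∀ (f : W.L[X]) (σ : W.E ≃ₐ[W.L] W.E), (W.up f).roots.map σ = (W.up f).roots ∧
    ∀ β t, W.gn (σ β, t) (W.up f) = W.gn (β, t) (W.up f)) ∧
  (∀ (f : W.L[X]) (s : W.E → ℝ), W.Inv s → ∀ a,
    W.B (W.av a) (W.rt (W.up f) s) = W.B (W.sg a) (W.rt (W.up f) s)) ∧
  ∀ γ : W.E, (∀ σ : W.E ≃ₐ[W.L] W.E, σ γ = γ) → ∃ a : W.L, algebraMap W.L W.E a = γ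

/-- the value of a polynomial in terms of its roots -/
def S_ROOT : Prop := AllW fun K _ W => ∀ φ : R K, φ ≠ 0 → W.ev φ ≠ 0 ∧
  (W.ev φ).natDegree ≤ dg φ ∧ W.gn (0, 1) (W.ev φ) = exp (dg φ) ∧
  ∀ ζ : Pt W.n, ζ.f X ≤ exp 1 → 0 < ζ.f (W.ev φ) → (∀ β ∈ (W.ev φ).roots, 0 < ζ.f (X - C β)) ∧
    log (ζ.f (W.ev φ)) = dg φ - ((W.ev φ).roots.map fun β => max 0 (1 - log (ζ.f (X - C β)))).sum

/-- the vector of a pencil -/
def S_PENV : Prop := AllW fun K _ W => ∀ G : R K, 1 ≤ dg G → ∃ s, W.Pen G s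

/-- Minkowski for the lattice of polynomials -/
def S_MINK : Prop := AllW fun K _ W => ∀ (d : ℕ) (φ : Fin d → W.L[X]) (t : Fin d → ℤ),
  (∀ j, (φ j).Monic ∧ (φ j).natDegree = j) → ∃ U : Submodule K (R K), FiniteDimensional K U ∧
    ∑ j, (t j + 1) ≤ (Module.finrank K U : ℤ) ∧ ∀ Φ ∈ U, ∃ a : Fin d → W.L,
      (∀ j, W.nL (a j) ≤ exp (t j)) ∧ W.evL Φ = ∑ j, C (a j) * φ j

/-- greedy points -/
def S_LEJA : Prop := ∀ (I : Type) [Fintype I] (A : I → I → ℝ) (w : I → ℝ) (m : ℕ),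
  (∀ i l, A i l = A l i) →
  (∀ x : I → ℝ, ∑ i, x i = 0 → ∑ i, ∑ l, x i * x l * A i l ≤ 0) → (∀ i, 0 ≤ w i) →
  ∑ i, w i = 1 → ∑ i, ∑ l, w i * w l * A i l < 0 → 1 ≤ m →
  ∃ (J : ℕ) (idx : ℕ → I) (t : ℕ → ℤ) (τ : I → ℝ), ∑ i, w i * τ i < 0 ∧
    0 < ∑ a ∈ Finset.range J, (t a + 1) ∧
    ∀ a < J, ∀ i, t a + m + m * ∑ b ∈ Finset.range a, A i (idx b) ≤ τ i

/-- the product inequality forces nonnegative self-intersection -/
def S_NEF : Prop := AllW fun K _ W => ∀ (ι : Type) [Fintype ι] (ζ : ι → Pt W.n) (w : ι → ℝ)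
  (a : ι → W.E × ℝ), (∀ i, 0 ≤ w i) → ∑ i, w i = 1 → (∀ i, (ζ i).f X ≤ exp 1) → (∀ i, W.In (a i)) →
  (∀ i, (ζ i).f (X - C (a i).1) ≤ exp (a i).2) →
  (∀ φ : R K, φ ≠ 0 → (∀ i, 0 < (ζ i).f (W.ev φ)) ∧ 0 ≤ ∑ i, w i * log ((ζ i).f (W.ev φ))) →
  W.B (∑ i, w i • W.av (a i)) (∑ i, w i • W.av (a i)) ≤ 1

/-- the vector of a family -/
def S_VEC : Prop := AllW fun K _ W => ∀ (ι : Type) [Fintype ι] [Nonempty ι] (N : ι → AV K),
  (∀ i, NA K (N i)) → (∀ i, 0 < zz (N i)) → (∀ i, lg (N i) (xx 0) = zz (N i)) →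
  ∀ φ : R K, φ ≠ 0 → ∃ T₀ : ℝ, ∀ T, T₀ ≤ T → ∀ G G' : R K, G ≠ 0 → G' ≠ 0 → ∃ a : W.V,
    ((∀ ψ : R K, ψ ≠ 0 → 0 ≤ Nn N ψ) → W.B a a ≤ 1) ∧
    W.B a (W.rt (W.ev φ) fun _ => -T) = dg φ - Nn N φ / ZZ N ∧
    ∀ H, (H = G ∨ H = G') → ∀ s, W.Pen H s → W.B a (W.rt (W.ev H) s) = dg H - hh N H / ZZ N

/-- generic coordinates -/
def S_GEN : Prop := ∀ (K : Type) [Field K] [CharZero K] (ι : Type) [Fintype ι] (N : ι → AV K)
  (S : Finset K), (∀ i, NA K (N i)) → (∀ i, 0 < zz (N i)) → ∃ c ∉ S, ∃ (τ : R K ≃ₐ[K] R K)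
    (σ : M K ≃ₐ[K] M K), Cmp (τ : R K →ₐ[K] R K) (σ : M K →ₐ[K] M K) ∧
      τ (xx 0) = xx 0 + cc c * xx 1 ∧ τ (xx 1) = xx 1 ∧ (∀ φ, dg (τ φ) = dg φ) ∧
      (∀ i, lg (N i) (τ (xx 0)) = zz (N i)) ∧
      ∀ v : AV K, NA K v → zz (cp v (σ : M K →ₐ[K] M K)) = zz v

/-! Proportionality. -/

/-- quantification over families -/
def AllF (P : ∀ (K ι : Type) [Field K] [Fintype ι], (ι → AV K) → Prop) : Prop :=
  ∀ (K ι : Type) [Field K] [CharZero K] [Fintype ι] (N : ι → AV K), Fam N → P K ι N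

def S_KLA : Prop := AllF fun K _ _ _ N => ∀ (κ : Type) [Fintype κ] (N' : κ → AV K) (G : ℕ → R K),
  Fam N' → Thin N G → Thin N' G → ∀ φ : R K, φ ≠ 0 → ZZ N' * Nn N φ = ZZ N * Nn N' φ

def S_KLB : Prop := AllF fun K _ _ _ N => ∀ u : R K, 1 ≤ dg u → hh N u = 0 →
  (∀ (κ : Type) [Fintype κ] (N' : κ → AV K) (G : ℕ → R K), Fam N' → Thin N G →
    Tendsto (fun n => hh N' (G n) / dg (G n)) atTop (𝓝 (hh N' u / dg u))) ∧
  ∀ u' : R K, 1 ≤ dg u' → hh N u' = 0 → ∀ η : AV K, NA K η → lp η u * dg u' = lp η u' * dg u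

/-- the branches of a polynomial curve -/
def S_KLC : Prop := AllW fun K _ W => ∀ (u w : K[X]) (Ψ : R K), 1 ≤ u.natDegree →
  w.natDegree ≤ u.natDegree →
  (∃ A B : R K, MvPolynomial.aeval ![u, w] B ≠ 0 ∧
    X * MvPolynomial.aeval ![u, w] B = MvPolynomial.aeval ![u, w] A) →
  MvPolynomial.aeval ![u, w] Ψ = 0 → ∃ Ψ₀ : R K, Ψ₀ ≠ 0 ∧ Ψ₀ ∣ Ψ ∧
    (∀ β ∈ (W.ev Ψ₀).roots, W.n β ≤ exp 1) ∧
    ∀ G : R K, ((MvPolynomial.aeval ![u, w] G).natDegree : ℝ) ≤
      ((W.ev Ψ₀).roots.map fun β => max 0 (log (W.n ((W.ev G).eval β)))).sum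

def S_KLD : Prop := AllF fun K _ _ _ N => ∀ (u w : K[X]) (Ψ : R K) (G : ℕ → R K),
  1 ≤ max u.natDegree w.natDegree →
  (∃ A B : R K, MvPolynomial.aeval ![u, w] B ≠ 0 ∧
    X * MvPolynomial.aeval ![u, w] B = MvPolynomial.aeval ![u, w] A) →
  Ψ ≠ 0 → MvPolynomial.aeval ![u, w] Ψ = 0 → Thin N G → ∀ ε : ℝ, 0 < ε → ∀ᶠ n in atTop,
    ((MvPolynomial.aeval ![u, w] (G n)).natDegree : ℝ) ≤ (Nn N Ψ / ZZ N + ε) * dg (G n)

/-! Types of points. -/

def S_TRA : Prop := AllW fun _ _ W => ∀ ζ : Pt W.n, (∃ a, W.IsD ζ a) ∨ W.Imm ζ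

def S_TRM : Prop := AllW fun K _ W => ∀ (v : AV K) (ζ : Pt W.n), NA K v → 0 < zz v →
  Rel W.x v ζ → (W.Imm ζ → RA v ∧ T3 v) ∧ ∀ a, W.IsD ζ a →
    (Irrational a.2 → T2 v ∧ RA v) ∧ ∀ s : ℚ, a.2 = s → Dis v

def S_TRI : Prop := ∀ (K : Type) [Field K] [CharZero K] (v : AV K), NA K v → 0 < zz v →
  (T2 v ∧ RA v) ∨ T3 v

def S_JAC : Prop := AllW fun K _ W => ∀ (v : AV K) (ζ : Pt W.n) (β : W.E) (s : ℚ), NA K v →
  0 < zz v → Rel W.x v ζ → W.IsD ζ (β, s) → Jv v (zz v * (1 + s))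

def S_PICK : Prop := AllW fun _ _ W => ∀ (β : W.E) (s : ℚ), ∃ m : ℕ, ∀ Y : Finset W.E, ∃ θ : W.E,
  (minpoly W.L θ).natDegree = m ∧ W.n (θ - β) ≤ exp s ∧
  (∀ y ∈ Y, ∀ σ : W.E ≃ₐ[W.L] W.E, exp s ≤ W.n (σ θ - y)) ∧
  ∀ σ : W.E ≃ₐ[W.L] W.E, σ θ ≠ θ → exp s ≤ W.n (σ θ - θ)

/-- a triangular basis of the lattice of integral polynomials -/
def S_LATA : Prop := AllW fun _ _ W => ∀ U : W.L[X], U.Monic → U.Separable →
  ∃ (e : Fin U.natDegree → W.L[X]) (t : Fin U.natDegree → ℤ),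
    (∀ j, (e j).Monic ∧ (e j).natDegree = j) ∧
    (∀ j, ∀ θ ∈ (W.up U).roots, exp (t j) * W.n ((W.up (e j)).eval θ) ≤ 1) ∧
    ∀ f : W.L[X], f.degree < U.natDegree → (∀ θ ∈ (W.up U).roots, W.n ((W.up f).eval θ) ≤ 1) →
      ∃ a : Fin U.natDegree → W.L, (∀ j, W.nL (a j) ≤ exp (t j)) ∧ f = ∑ j, C (a j) * e j

def S_LATT : Prop := AllW fun _ _ W => ∀ (U : W.L[X]) (S : ℝ), U.Monic → U.Separable →
  1 ≤ U.natDegree → ((W.up U).roots.map fun θ => W.n ((derivative (W.up U)).eval θ)).prod ≤ exp S →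
  ∃ (e : Fin U.natDegree → W.L[X]) (t : Fin U.natDegree → ℤ),
    (∀ j, (e j).Monic ∧ (e j).natDegree = j) ∧
    (∀ j, ∀ θ ∈ (W.up U).roots, exp (t j) * W.n ((W.up (e j)).eval θ) ≤ 1) ∧
    1 - S - U.natDegree ≤ 2 * ∑ j, (t j : ℝ)

def S_RAT : Prop := ∀ (I : Type) [Fintype I] (A : I → I → ℚ) (c : I → ℚ) (z : I → ℝ),
  (∀ i, 0 < z i) → (∀ l, ∑ i, A l i * z i = 0) → 0 ≤ ∑ i, c i * z i →
  ∃ w : I → ℕ, (∀ i, 0 < w i) ∧ (∀ l, ∑ i, A l i * w i = 0) ∧ 0 ≤ ∑ i, c i * w i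

def S_CN1 : Prop := AllW fun _ _ W => ∀ (ι : Type) [Fintype ι] (β : ι → W.E) (s : ι → ℚ)
  (w : ι → ℝ), (∀ i, W.In (β i, s i)) → (∀ i, 0 < w i) → ∑ i, w i = 1 →
  (∀ l, W.B (W.av (β l, s l)) (∑ i, w i • W.av (β i, s i)) = 1) → 0 ≤ ∑ i, w i * (1 + s i) →
  ∃ U, W.Cv (fun i => (β i, (s i : ℝ))) U

def S_CN2 : Prop := AllW fun K _ W => ∀ (ι : Type) (a : ι → W.E × ℝ) (U : W.L[X]), W.Cv a U →
  ∃ u : R K, 1 ≤ dg u ∧ ∀ i, W.gn (a i) (W.ev u) ≤ 1

def S_CORE : Prop := AllF fun K ι _ _ N => ∀ G : ℕ → R K, Thin N G → (∀ i, ¬ RA (N i)) →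
  ∃ α : ι → ℝ, (∀ i, Jv (N i) (α i)) ∧ (∀ i, Dis (N i)) ∧
    (0 ≤ ∑ i, α i → ∃ u : R K, 1 ≤ dg u ∧ ∀ i, lg (N i) u ≤ 0)

/-! Extensions of absolute values. -/

def S_EXTV : Prop := ∀ (F A : Type) [Field F] [Field A] [Algebra F A] [Algebra.IsAlgebraic F A]
  (v : AbsoluteValue F ℝ), IsNonarchimedean v → ∃ w : AbsoluteValue A ℝ, IsNonarchimedean w ∧
    ∀ a, w (algebraMap F A a) = v a

/-- the degree of an endomorphism -/
def S_TOW : Prop := ∀ (K : Type) [Field K] (σ : M K →ₐ[K] M K),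
  FiniteDimensional σ.fieldRange (M K) ∧ 1 ≤ qq σ ∧ ∀ k, qq (σ ^ k) = qq σ ^ k

/-- characteristic polynomial, trace and conjugate absolute values -/
def S_EMB : Prop := ∀ (K : Type) [Field K] [CharZero K] (σ : M K →ₐ[K] M K),
  (∀ v : AV K, NA K v → ∃ η : AV K, NA K η ∧ ∀ b, η (σ b) = v b) ∧
  ∃ (ch : M K → (M K)[X]) (tr : M K →+ M K),
    (∀ a, (ch a).Monic ∧ (ch a).natDegree = qq σ ∧ (ch a).eval₂ (σ : M K →+* M K) a = 0) ∧
    (∀ a b, tr (σ b * a) = b * tr a) ∧ tr 1 = qq σ ∧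
    ∀ η₀ : AV K, NA K η₀ → ∃ η : Fin (qq σ) → AV K, (∃ k, η k = η₀) ∧
      (∀ k, NA K (η k) ∧ ∀ b, η k (σ b) = η₀ (σ b)) ∧
      ∀ a, ∏ k, η k a = η₀ (σ ((ch a).coeff 0)) ∧ ∀ B : ℝ, (∀ k, η k a ≤ B) →
        η₀ (σ (tr a)) ≤ B ∧ ∀ j, η₀ (σ ((ch a).coeff j)) ≤ B ^ (qq σ - j)

/-- orders of vanishing and degrees -/
def S_ORD : Prop := ∀ (K : Type) [Field K],
  (∀ c : R K, Prime c → ∃ o, Od c o) ∧
  (∀ (c c' : R K) (o o' : AV K), Prime c → Associated c c' → Od c o → Od c' o' → o = o') ∧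
  (∀ a : M K, (∀ (c : R K) (o : AV K), Prime c → Od c o → o a ≤ 1) → ∃ φ, io φ = a) ∧
  (∀ j, ∃ v : AV K, NA K v ∧ ∀ φ, lg v φ = φ.degreeOf j) ∧
  ∀ s : R K →ₐ[K] R K, Function.Injective s → (∃ σ, Cmp s σ) ∧
    ∃ v : AV K, NA K v ∧ ∀ φ, lg v φ = dg (s φ)

/-- removing finitely many primes -/
def S_ORF : Prop := ∀ (K J : Type) [Field K] [Fintype J] (c : J → R K) (o : J → AV K),
  (∀ j, Prime (c j) ∧ Od (c j) (o j)) → (Pairwise fun j l => ¬ Associated (c j) (c l)) →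
  ∀ a : M K, a ≠ 0 → (∀ (c' : R K) (o' : AV K), Prime c' → Od c' o' →
    (∀ j, ¬ Associated (c j) c') → o' a ≤ 1) →
  ∃ (φ : R K) (k : J → ℤ), φ ≠ 0 ∧ a = io φ * ∏ j, io (c j) ^ k j ∧ ∀ j, log (o j a) = -k j

/-- denominators -/
def S_DEN : Prop := ∀ (K : Type) [Field K] [CharZero K] (s : R K →ₐ[K] R K) (σ : M K →ₐ[K] M K),
  Cmp s σ → (∃ a, Den s a) ∧
    (∀ a, Den s a → ∀ η : AV K, NA K η → (∀ φ, η (σ (io φ)) ≤ 1) →
      ∀ j, η (σ (io a) * io (xx j)) ≤ 1) ∧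
    ∀ a, a ≠ 0 → (∀ (c : R K) (o η : AV K), Prime c → Od c o → NA K η → (∀ b, η (σ b) = o b) →
      ∀ j, η (σ (io a) * io (xx j)) ≤ 1) → Den s a

/-- weak approximation: a linear relation splits along the equivalence classes -/
def S_WAP : Prop := ∀ (F ι : Type) [Field F] [Fintype ι] (η : AbsoluteValue F ℝ)
  (v : ι → AbsoluteValue F ℝ) (c : ι → ℝ) (p : ι → Prop) [DecidablePred p],
  (∀ l, IsNonarchimedean (v l)) → (∀ l, p l ↔ (v l).IsEquiv η) →
  (∀ t, t ≠ 0 → ∑ l, c l * log (v l t) = 0) →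
  ∀ t, t ≠ 0 → ∑ l with p l, c l * log (v l t) = 0

/-- the Gauss extension to the field of the two parameters -/
def S_GX : Prop := ∀ (K : Type) [Field K],
  (∀ (v : AV K) (h : NA K v), ∃ v' : AV (K2 K), NA (K2 K) v' ∧ ∀ Φ, v' (io (th Φ)) = G2 h.1 Φ) ∧
  Function.Injective (th (K := K)) ∧
  (∀ φ : R (K2 K), ∃ (c : K2 K) (Φ : (R K)[X][X]), c ≠ 0 ∧ th Φ = cc c * φ ∧
    ∀ i j, dg ((Φ.coeff i).coeff j) ≤ dg φ) ∧
  (∀ φ : R K, dg (bc φ) = dg φ ∧ (ln (bc φ)).natDegree = dg φ) ∧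
  ∀ (s : R K →ₐ[K] R K) (Φ : (R K)[X][X]),
    MvPolynomial.aeval ![ln (bc (s (xx 0))), ln (bc (s (xx 1)))] (th Φ) =
      (sub s Φ).eval₂ ((ln (K := K) : R (K2 K) →+* (K2 K)[X]).comp bc) (C (t1 K)) ∧
    ((sub s Φ).eval₂ ((ln (K := K) : R (K2 K) →+* (K2 K)[X]).comp bc) (C (t1 K)) = 0 → sub s Φ = 0)

/-! Dynamics. -/

/-- quantification over maps with a slow family -/
def AllS (P : ∀ (K ι : Type) [Field K] [Fintype ι], (ι → AV K) → (R K →ₐ[K] R K) →
    (M K →ₐ[K] M K) → ℝ → ℝ → Prop) : Prop :=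
  ∀ (K ι : Type) [Field K] [CharZero K] [Fintype ι] (N : ι → AV K) (s : R K →ₐ[K] R K)
    (σ : M K →ₐ[K] M K) (δ β : ℝ), Cmp s σ → Lim s δ → 0 < β → β < δ → Slow N s β → P K ι N s σ δ β

def S_THIN : Prop := AllS fun K _ _ _ N s _ δ _ =>
  (∀ m, ∃ G : ℕ → R K, Thin N fun n => (s ^ m) (G n)) ∧
  (∃ G : ℕ → R K, Thin N G ∧ Tendsto (fun n => hh N (s (G n)) / dg (G n)) atTop (𝓝 0)) ∧
  ∀ (m : ℕ) (κ : ℝ), (∀ G : ℕ → R K, Thin N G → ∀ ε : ℝ, 0 < ε → ∀ᶠ n in atTop,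
    (dg ((s ^ m) (G n)) : ℝ) ≤ (κ + ε) * dg (G n)) → δ ^ m ≤ κ

def S_PERM : Prop := AllS fun K _ _ _ _ s σ _ β => ∃ (κ : Type) (_ : Fintype κ) (N' : κ → AV K)
  (m : ℕ) (μ : ℝ), 1 ≤ m ∧ Slow N' s β ∧ Per N' (σ ^ m) μ

/-- quantification over eigenfamilies -/
def AllE (P : ∀ (K ι : Type) [Field K] [Fintype ι], (ι → AV K) → (R K →ₐ[K] R K) →
    (M K →ₐ[K] M K) → ℝ → Prop) : Prop :=
  ∀ (K ι : Type) [Field K] [CharZero K] [Fintype ι] (N : ι → AV K) (s : R K →ₐ[K] R K)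
    (σ : M K →ₐ[K] M K) (μ : ℝ), Eig N s σ μ → P K ι N s σ μ

def S_SHA : Prop := AllE fun K _ _ _ N _ σ _ => (∀ i, Uniq (N i) σ) ∧
  ∀ (c : R K) (o η : AV K), Prime c → Od c o → 0 < Nn N c → NA K η → (∀ b, η (σ b) = o b) →
    ∀ φ, η (io φ) ≤ 1

def S_SHARP : Prop := AllE fun _ _ _ _ N s σ _ =>
  (∀ i, Uniq (N i) σ) ∧ ∃ a, Den s a ∧ Nn N a = 0

/-- the image of the generic line -/
def S_RELA : Prop := ∀ (K : Type) [Field K] [CharZero K] (s : R K →ₐ[K] R K) (σ : M K →ₐ[K] M K),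
  Cmp s σ → (∀ a, Den s a → ∃ Ψ : (R K)[X][X], sub s Ψ = 0 ∧ sub s (derivative Ψ) ≠ 0 ∧
    ∀ (v : AV K) (h : NA K v) (μ : ℝ), 0 < μ → Uniq v σ → (∀ b, v (σ b) = v b ^ μ) →
      μ * log (G2 h.1 Ψ) = μ * qq σ * lg v a + qq σ * zz v) ∧
  ∀ Φ : (R K)[X][X], Φ ≠ 0 → sub s Φ = 0 → ∃ φ : R K, φ ≠ 0 ∧
    ∀ (v : AV K) (h : NA K v) (μ : ℝ), 0 < μ → Uniq v σ → (∀ b, v (σ b) = v b ^ μ) →
      qq σ * zz v + μ * lg v φ ≤ μ * log (G2 h.1 Φ)

def S_RELB : Prop := AllE fun K _ _ _ N s σ μ => ∀ G : ℕ → R K, Thin N G → ∀ ε : ℝ, 0 < ε →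
  ∀ᶠ n in atTop, (dg (s (G n)) : ℝ) ≤ (qq σ / μ + ε) * dg (G n)

def S_RELC : Prop := AllE fun _ _ _ _ _ s σ μ => (qq σ : ℝ) ≤ 2 * μ * dd s

def S_RELD : Prop := AllS fun _ _ _ _ N s σ δ _ => ∀ (m : ℕ) (μ : ℝ), 1 ≤ m → Per N (σ ^ m) μ →
  μ * δ ^ m = qq σ ^ m ∧ μ < δ ^ m ∧ ∀ k, 1 ≤ k → Eig N (s ^ (m * k)) (σ ^ (m * k)) (μ ^ k)

/-- no defect -/
def S_DEF : Prop := ∀ (K : Type) [Field K] [CharZero K] (σ : M K →ₐ[K] M K) (v : AV K) (μ : ℝ),
  NA K v → RA v → Uniq v σ → 0 < μ → (∀ a, v (σ a) = v a ^ μ) →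
  (vg v).map (AddMonoidHom.mulLeft μ) ≤ vg v ∧
    ((vg v).map (AddMonoidHom.mulLeft μ)).relIndex (vg v) = qq σ

/-- indices of subgroups of the line -/
def S_GRP : Prop := ∀ (Γ : AddSubgroup ℝ) (z : ℝ) (μ : ℚ) (q : ℕ), 0 < z → z ∈ Γ → 0 < μ → 1 ≤ q →
  Γ.map (AddMonoidHom.mulLeft (μ : ℝ)) ≤ Γ →
  (Γ.map (AddMonoidHom.mulLeft (μ : ℝ))).relIndex Γ = q →
  ((∀ t ∈ Γ, ∃ r : ℚ, t = z * r) → (q : ℤ) ∣ μ.num) ∧
  ∀ (s : ℝ) (m : ℕ), Irrational s → 0 < m → (∀ t ∈ Γ, ∃ a b : ℤ, t = z * (a / m + b * s)) →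
    (∃ a b : ℤ, b ≠ 0 ∧ z * (a / m + b * s) ∈ Γ) → (q : ℚ) = μ ^ 2

def S_RAC : Prop := AllE fun _ _ _ _ N _ σ μ => ∀ (r : ℚ), μ = r → ∀ i, RA (N i) →
  (qq σ : ℝ) = μ ^ 2 ∨ (qq σ : ℤ) ∣ r.num

def S_TWO : Prop := AllE fun _ _ _ _ N s σ μ => Irrational (μ ^ 2) → ∀ i, T2 (N i) →
  Uniq (N i) σ → ∀ a, Den s a → 1 ≤ dg a

def S_UST : Prop := AllE fun K _ _ _ N s _ μ => Irrational μ → (∀ i, T2 (N i) ∧ RA (N i)) →
  ∀ a : R K, 1 ≤ dg a → Nn N a = 0 → Unt s

def S_ONE : Prop := AllE fun K _ _ _ N s _ μ => (∀ i, ¬ RA (N i)) →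
  (∃ u : R K, 1 ≤ dg u ∧ ∀ i, lg (N i) u ≤ 0) ∨ (μ = 1 ∧ dg (JJ s) = 0)

def S_PEN0 : Prop := AllS fun K _ _ _ N s σ δ _ => ∀ (m : ℕ) (μ : ℝ) (u : R K), 1 ≤ m →
  Per N (σ ^ m) μ → 1 ≤ dg u → (∀ i, lg (N i) u ≤ 0) → Penc (s ^ m) (δ ^ m)

/-- the structure theorem -/
def S_STR : Prop := AllS fun _ _ _ _ _ s σ δ _ => ∃ m : ℕ, 1 ≤ m ∧ (Unt (s ^ m) ∨
  Penc (s ^ m) (δ ^ m) ∨ (∃ a b : ℕ, 1 ≤ a ∧ δ ^ m * a = b ∧ b.Coprime (qq σ)) ∨
  (dg (JJ s) = 0 ∧ δ = qq σ))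

/-! Heights. -/

def S_HB : Prop := ∀ (K : Type) [Field K] [NumberField K],
  (∀ φ : R K, ∃ C : ℝ, ∀ P, Height.logHeight₁ (MvPolynomial.eval P φ) ≤ dg φ * Ht P + C) ∧
  (∀ s : R K →ₐ[K] R K, ∃ C : ℝ, ∀ P, Ht (ap s P) ≤ dd s * Ht P + C) ∧
  (∀ (P : Fin 2 → K) j, Height.logHeight₁ (P j) ≤ Ht P) ∧
  (∀ P : Fin 2 → K, Ht P ≤ Height.logHeight₁ (P 0) + Height.logHeight₁ (P 1)) ∧
  ∀ B : ℝ, {P : Fin 2 → K | Ht P ≤ B}.Finite

/-- two curves without a common component, and algebraic dependence on a curve -/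
def S_FINI : Prop := ∀ (K : Type) [Field K] (c : R K), Prime c →
  (∀ ψ : R K, ¬ c ∣ ψ →
    {P : Fin 2 → K | MvPolynomial.eval P c = 0 ∧ MvPolynomial.eval P ψ = 0}.Finite) ∧
  ∀ a b : R K, (∀ p : K[X], p ≠ 0 → ¬ c ∣ aeval a p) →
    ∃ Q : K[X][X], Q ≠ 0 ∧ c ∣ Q.eval₂ (aeval a : K[X] →ₐ[K] R K) b

def S_ORB : Prop := ∀ (K : Type) [Field K] (s : R K →ₐ[K] R K) (O : ℕ → Fin 2 → K), Orb s O →
  ZD O → Function.Injective O ∧ Function.Injective s ∧
    (∀ (φ : R K) (k : ℕ), (∀ n, k ≤ n → MvPolynomial.eval (O n) φ = 0) → φ = 0) ∧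
    (∀ m, 1 ≤ m → Orb (s ^ m) (fun n => O (m * n)) ∧ ZD fun n => O (m * n)) ∧
    ∀ φ : R K, φ ≠ 0 → Sparse {n | MvPolynomial.eval (O n) φ = 0}

/-- quantification over dense orbits -/
def AllO (P : ∀ (K : Type) [Field K] [NumberField K], (R K →ₐ[K] R K) → (ℕ → Fin 2 → K) → Prop) :
    Prop :=
  ∀ (K : Type) [Field K] [NumberField K] (s : R K →ₐ[K] R K) (O : ℕ → Fin 2 → K), Orb s O → ZD O →
    P K s O

def S_DROP : Prop := AllO fun K _ _ _ O => ∀ φ : R K, φ ≠ 0 → ∃ (c : ℝ) (k : ℕ), ∀ n, k ≤ n →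
  MvPolynomial.eval (O n) φ = 0 → Ht (O n) ≤ c * (Ht (O (n + 1)) + 1)

def S_SEQ : Prop := ∀ (H : ℕ → ℝ) (B : Set ℕ) (E C c β₀ β : ℝ) (k₀ : ℕ), Tendsto H atTop atTop →
  (∀ n, H (n + 1) ≤ E * H n + C) → Sparse B → (∀ n, k₀ ≤ n → n ∈ B → H n ≤ c * (H (n + 1) + 1)) →
  1 < β₀ → β₀ < β → (∃ᶠ n in atTop, H n ≤ β₀ ^ n) →
  ∀ N k : ℕ, ∃ n, k ≤ n ∧ n ∉ B ∧ ∀ j ≤ N, H (n + j) ≤ β ^ j * H n

def S_ULT : Prop := AllO fun K _ _ s O => ∀ (U : Ultrafilter ℕ) (β : ℝ),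
  Tendsto (fun n => Ht (O n)) U atTop →
  (∀ φ : R K, φ ≠ 0 → ∀ᶠ n in (U : Filter ℕ), MvPolynomial.eval (O n) φ ≠ 0) →
  (∀ j, ∀ᶠ n in (U : Filter ℕ), Ht (O (n + j)) ≤ β ^ j * Ht (O n)) →
  ∃ (ι : Type) (_ : Fintype ι) (N : ι → AV K), Slow N s β

def S_VAL : Prop := AllO fun K _ _ s O => ∀ β₀ β : ℝ, 1 < β₀ → β₀ < β →
  (∃ᶠ n in atTop, Ht (O n) ≤ β₀ ^ n) → ∃ (ι : Type) (_ : Fintype ι) (N : ι → AV K), Slow N s β

def S_UN1 : Prop := ∀ (J T : Type) [Fintype J] [DecidableEq J] [Fintype T] (A : Matrix J J ℤ)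
  (δ C : ℝ) (w : T → J → ℤ), 1 < δ → (∀ n, δ ^ n ≤ C * ∑ j, ∑ l, |((A ^ n) j l : ℝ)|) →
  (∃ a, ∃ c : ℝ, 0 < c ∧ ∀ n, c * δ ^ n ≤ ∑ j, |((A ^ n).mulVec (w a) j : ℝ)|) ∨
  ∃ p : ℤ[X], (∀ a, (aeval A p).mulVec (w a) = 0) ∧ aeval A ((X - 1) * p) ≠ 0

def S_UN2 : Prop := ∀ (K : Type) [Field K] [NumberField K] (S : Finset Kˣ), ∃ (T : Type)
  (_ : Fintype T) (f : Additive (Subgroup.closure (S : Set Kˣ)) →+ (T → ℤ)) (c : ℝ) (k : ℕ),
  0 < c ∧ 1 ≤ k ∧ ∀ g : Subgroup.closure (S : Set Kˣ),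
    (f (Additive.ofMul g) = 0 → g ^ k = 1) ∧
    ∀ a, c * |(f (Additive.ofMul g) a : ℝ)| ≤ Height.logHeight₁ ((g : Kˣ) : K)

def S_UN4 : Prop := ∀ (K J : Type) [Field K] [Fintype J] [DecidableEq J] (s : R K →ₐ[K] R K)
  (c : J → R K) (A : Matrix J J ℕ) (κ : J → K), (∀ j, κ j ≠ 0) →
  (∀ j, s (c j) = cc (κ j) * ∏ l, c l ^ A j l) →
  (∀ n j, ∃ k : K, k ≠ 0 ∧ (s ^ n) (c j) = cc k * ∏ l, c l ^ (A ^ n) j l) ∧
  (Function.Injective s → (∀ j, IsAlgebraic (Algebra.adjoin K (Set.range c)) (xx j : R K)) →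
    ∃ C : ℝ, ∀ n, (dd (s ^ n) : ℝ) ≤ C * ∑ j, ∑ l, ((A ^ n) j l : ℝ))

def S_UN3 : Prop := AllO fun _ _ _ s O => ∀ δ : ℝ, 1 < δ → (∀ n, δ ^ n ≤ dd (s ^ n)) → Unt s →
  Grow O δ

def S_PEN1 : Prop := ∀ (K : Type) [Field K] [CharZero K] (a b : R K), 1 ≤ dg b →
  (∀ η : AV K, NA K η → lp η a ≤ lp η b) → ∃ (n : ℕ) (p : ℕ → K[X]), 1 ≤ n ∧
    (∀ j < n, (p j).natDegree ≤ n - j) ∧
    a ^ n + ∑ j ∈ Finset.range n, aeval b (p j) * a ^ j = 0

def S_PEN2 : Prop := ∀ (K : Type) [Field K] [NumberField K] (n : ℕ) (p : ℕ → K[X]), 1 ≤ n →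
  (∀ j < n, (p j).natDegree ≤ n - j) → ∃ C : ℝ, ∀ a b : K,
    a ^ n + ∑ j ∈ Finset.range n, (p j).eval b * a ^ j = 0 →
      Height.logHeight₁ a ≤ Height.logHeight₁ b + C

def S_PEN3 : Prop := AllO fun _ _ _ s O => ∀ δ : ℝ, 1 < δ → Penc s δ → Grow O δ

/-- existence of the dynamical degree -/
def S_FEK : Prop := ∀ (K : Type) [Field K] (s : R K →ₐ[K] R K), Function.Injective s →
  ∃ δ : ℝ, Tendsto (fun n : ℕ => (dd (s ^ n) : ℝ) ^ (1 / (n : ℝ))) atTop (𝓝 δ) ∧ (1 < δ → Lim s δ)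

/-- from the growth of an iterate to the limit -/
def S_LIMIT : Prop := AllO fun _ _ _ s O => ∀ δ : ℝ, Lim s δ →
  (∀ β₀ : ℝ, 1 < β₀ → β₀ < δ → (∃ᶠ n in atTop, Ht (O n) ≤ β₀ ^ n) →
    ∃ m, 1 ≤ m ∧ Grow (fun n => O (m * n)) (δ ^ m)) →
  Tendsto (fun n : ℕ => Ht (O n) ^ (1 / (n : ℝ))) atTop (𝓝 δ)

/-- the final statement -/
def S_FINAL : Prop :=
  ∀ (K : Type) [Field K] [NumberField K] (F : Fin 2 → MvPolynomial (Fin 2) K) (P : Fin 2 → K),
    (∀ G : MvPolynomial (Fin 2) K,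
      (∀ n : ℕ, MvPolynomial.eval ((fun a i => MvPolynomial.eval a (F i))^[n] P) G = 0) → G = 0) →
    ∀ q : ℕ, q = Module.finrank (IntermediateField.adjoin K (Set.range fun i =>
      algebraMap (MvPolynomial (Fin 2) K) (FractionRing (MvPolynomial (Fin 2) K)) (F i)))
        (FractionRing (MvPolynomial (Fin 2) K)) →
    ∃ δ : ℝ,
      Tendsto (fun n : ℕ =>
        ((max ((fun G i => MvPolynomial.bind₁ G (F i))^[n] MvPolynomial.X 0).totalDegree
          ((fun G i => MvPolynomial.bind₁ G (F i))^[n] MvPolynomial.X 1).totalDegree : ℕ) : ℝ)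
            ^ (1 / (n : ℝ))) atTop (𝓝 δ) ∧
      (1 < δ → (∀ m a b : ℕ, 1 ≤ m → 1 ≤ a → δ ^ m * a = b → ¬ b.Coprime q) →
        ((MvPolynomial.pderiv 0 (F 0) * MvPolynomial.pderiv 1 (F 1) -
          MvPolynomial.pderiv 1 (F 0) * MvPolynomial.pderiv 0 (F 1)).totalDegree ≠ 0 ∨ δ ≠ q) →
        Tendsto (fun n : ℕ =>
          Height.logHeight ![(fun a i => MvPolynomial.eval a (F i))^[n] P 0,
            (fun a i => MvPolynomial.eval a (F i))^[n] P 1, 1] ^ (1 / (n : ℝ))) atTop (𝓝 δ))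

end Pool.Agent.KSP

end

end MrgPart0

-- ======== part 1: formerly Pool.Agent.MP_c8dfda_nt.kp.Basic
section MrgPart1

/-! Polynomial maps of the plane: common lemmas. -/

open Polynomial Filter Real
open scoped Topology

noncomputable section

namespace Pool.Agent.KSP

/-! Construction of absolute values. -/

theorem exists_abs {A : Type} [CommRing A] [IsDomain A] (l : A → ℝ)
    (hm : ∀ a b, a ≠ 0 → b ≠ 0 → l (a * b) = l a + l b)
    (ha : ∀ a b, a ≠ 0 → b ≠ 0 → a + b ≠ 0 → l (a + b) ≤ max (l a) (l b)) :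
    ∃ v : AbsoluteValue A ℝ, IsNonarchimedean v ∧ ∀ a, a ≠ 0 → v a = exp (l a) := by
  classical
  let f : A → ℝ := fun a => if a = 0 then 0 else exp (l a)
  have f0 : ∀ a, 0 ≤ f a := fun a => by
    by_cases h : a = 0 <;> simp [f, h, (exp_pos _).le]
  have hna : ∀ a b, f (a + b) ≤ max (f a) (f b) := fun a b => by
    by_cases h1 : a = 0
    · rw [h1, zero_add]; exact le_max_right _ _
    by_cases h2 : b = 0
    · rw [h2, add_zero]; exact le_max_left _ _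
    by_cases h3 : a + b = 0
    · simp [f, h1, h3, (exp_pos _).le]
    simp only [f, h1, h2, h3, if_false]
    rcases le_max_iff.1 (ha a b h1 h2 h3) with h | h
    · exact (exp_le_exp.2 h).trans (le_max_left _ _)
    · exact (exp_le_exp.2 h).trans (le_max_right _ _)
  refine ⟨⟨⟨f, fun a b => ?_⟩, f0, fun a => ?_, fun a b => (hna a b).trans
    (max_le (le_add_of_nonneg_right (f0 _)) (le_add_of_nonneg_left (f0 _)))⟩, hna,
    fun a h => by simp [f, h]⟩
  · by_cases h1 : a = 0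
    · simp [f, h1]
    by_cases h2 : b = 0
    · simp [f, h2]
    simp [f, h1, h2, hm a b h1 h2, exp_add]
  · by_cases h : a = 0 <;> simp [f, h]

theorem exists_frac {A F : Type} [CommRing A] [IsDomain A] [Field F] [Algebra A F]
    [IsFractionRing A F] (v : AbsoluteValue A ℝ) (hv : IsNonarchimedean v) :
    ∃ w : AbsoluteValue F ℝ, IsNonarchimedean w ∧ ∀ a, w (algebraMap A F a) = v a := by
  classical
  choose p q hq hpq using fun z : F => IsFractionRing.div_surjective (A := A) z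
  have hq0 : ∀ z, q z ≠ 0 := fun z => nonZeroDivisors.ne_zero (hq z)
  have inj := IsFractionRing.injective A F
  have key : ∀ (z : F) (a b : A), b ≠ 0 → algebraMap A F a / algebraMap A F b = z →
      v (p z) / v (q z) = v a / v b := fun z a b hb h => by
    have h1 : algebraMap A F (q z) ≠ 0 := (map_ne_zero_iff _ inj).2 (hq0 z)
    have h2 : algebraMap A F b ≠ 0 := (map_ne_zero_iff _ inj).2 hb
    have h3 : p z * b = a * q z := inj (by
      rw [map_mul, map_mul, ← div_eq_div_iff h1 h2, hpq, h])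
    rw [div_eq_div_iff (v.ne_zero (hq0 z)) (v.ne_zero hb), ← map_mul, ← map_mul, h3]
  let f : F → ℝ := fun z => v (p z) / v (q z)
  have f0 : ∀ z, 0 ≤ f z := fun z => div_nonneg (v.nonneg _) (v.nonneg _)
  have hna : ∀ a b, f (a + b) ≤ max (f a) (f b) := fun a b => by
    have h1 : algebraMap A F (q a) ≠ 0 := (map_ne_zero_iff _ inj).2 (hq0 a)
    have h2 : algebraMap A F (q b) ≠ 0 := (map_ne_zero_iff _ inj).2 (hq0 b)
    have := key (a + b) (p a * q b + q a * p b) (q a * q b) (mul_ne_zero (hq0 a) (hq0 b)) (by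
      rw [map_add, map_mul, map_mul, map_mul, ← div_add_div _ _ h1 h2, hpq, hpq])
    have pa := v.pos (hq0 a)
    have pb := v.pos (hq0 b)
    simp only [f]
    rw [this, map_mul, div_le_iff₀ (mul_pos pa pb)]
    refine (hv _ _).trans (max_le ?_ ?_)
    · refine le_trans (le_of_eq ?_) (mul_le_mul_of_nonneg_right (le_max_left _ _) (mul_pos pa pb).le)
      rw [map_mul]; field_simp
    · refine le_trans (le_of_eq ?_) (mul_le_mul_of_nonneg_right (le_max_right _ _) (mul_pos pa pb).le)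
      rw [map_mul]; field_simp
  refine ⟨⟨⟨f, fun a b => ?_⟩, f0, fun a => ?_, fun a b => (hna a b).trans
    (max_le (le_add_of_nonneg_right (f0 _)) (le_add_of_nonneg_left (f0 _)))⟩, hna, fun a => ?_⟩
  · have := key (a * b) (p a * p b) (q a * q b) (mul_ne_zero (hq0 a) (hq0 b)) (by
      rw [map_mul, map_mul, ← div_mul_div_comm, hpq, hpq])
    simp only [f]
    rw [this, map_mul, map_mul, div_mul_div_comm]
  · show v (p a) / v (q a) = 0 ↔ a = 0
    rw [div_eq_zero_iff, v.eq_zero, v.eq_zero]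
    constructor
    · rintro (h | h)
      · rw [← hpq a, h, map_zero, zero_div]
      · exact absurd h (hq0 a)
    · intro h
      have := hpq a
      rw [h] at this ⊢
      rcases div_eq_zero_iff.1 this with h1 | h1
      · exact Or.inl ((map_eq_zero_iff _ inj).1 h1)
      · exact Or.inr ((map_eq_zero_iff _ inj).1 h1)
  · show v (p _) / v (q _) = v a
    rw [key _ a 1 one_ne_zero (by simp), map_one, div_one]

theorem exists_rpow {A : Type} [CommRing A] (v : AbsoluteValue A ℝ) (hv : IsNonarchimedean v)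
    {t : ℝ} (ht : 0 < t) :
    ∃ w : AbsoluteValue A ℝ, IsNonarchimedean w ∧ ∀ a, w a = v a ^ t := by
  have hna : ∀ a b, v (a + b) ^ t ≤ max (v a ^ t) (v b ^ t) := fun a b => by
    rcases le_max_iff.1 (hv a b) with h | h
    · exact (rpow_le_rpow (v.nonneg _) h ht.le).trans (le_max_left _ _)
    · exact (rpow_le_rpow (v.nonneg _) h ht.le).trans (le_max_right _ _)
  have f0 : ∀ a, 0 ≤ v a ^ t := fun a => rpow_nonneg (v.nonneg _) _
  refine ⟨⟨⟨fun a => v a ^ t, fun a b => ?_⟩, f0, fun a => ?_, fun a b => (hna a b).trans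
    (max_le (le_add_of_nonneg_right (f0 _)) (le_add_of_nonneg_left (f0 _)))⟩, hna, fun a => rfl⟩
  · rw [map_mul, mul_rpow (v.nonneg _) (v.nonneg _)]
  · show v a ^ t = 0 ↔ a = 0
    rw [rpow_eq_zero (v.nonneg _) ht.ne', v.eq_zero]

theorem na_prod_le {A ι : Type} [CommRing A] [Nontrivial A] (v : AbsoluteValue A ℝ) (s : Finset ι)
    (f : ι → A) (h : ∀ i ∈ s, v (f i) ≤ 1) : v (∏ i ∈ s, f i) ≤ 1 := by
  rw [map_prod]
  exact Finset.prod_le_one (fun _ _ => v.nonneg _) h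

theorem NA.le_one {K A : Type} [Field K] [CommRing A] [Algebra K A] {v : AbsoluteValue A ℝ}
    (h : NA K v) (c : K) : v (algebraMap K A c) ≤ 1 := by
  by_cases hc : c = 0
  · simp [hc]
  · exact (h.2 c hc).le

theorem NA.natCast {K A : Type} [Field K] [CharZero K] [CommRing A] [Algebra K A]
    {v : AbsoluteValue A ℝ} (h : NA K v) {n : ℕ} (hn : n ≠ 0) : v (n : A) = 1 := by
  rw [← map_natCast (algebraMap K A)]
  exact h.2 _ (Nat.cast_ne_zero.2 hn)

/-- a polynomial in an element of absolute value at most `B`, `1 ≤ B` -/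
theorem NA.aeval_le {K A : Type} [Field K] [CommRing A] [Nontrivial A] [Algebra K A]
    {v : AbsoluteValue A ℝ} (h : NA K v) {a : A} {B : ℝ} (hB : 1 ≤ B) (ha : v a ≤ B) (p : K[X]) :
    v (aeval a p) ≤ B ^ p.natDegree := by
  rw [aeval_eq_sum_range]
  refine KSkew.na_sum_le h.1 _ _ (by positivity) fun i hi => ?_
  rw [Algebra.smul_def, map_mul, map_pow]
  have h1 : v a ^ i ≤ B ^ p.natDegree := (pow_le_pow_left₀ (v.nonneg _) ha i).trans
    (pow_le_pow_right₀ hB (Nat.lt_succ_iff.1 (Finset.mem_range.1 hi)))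
  exact (mul_le_of_le_one_left (by positivity) (h.le_one _)).trans h1

/-- a polynomial in an element of absolute value larger than one -/
theorem NA.aeval_eq {K A : Type} [Field K] [CommRing A] [Nontrivial A] [Algebra K A]
    {v : AbsoluteValue A ℝ} (h : NA K v) {a : A} (ha : 1 < v a) {p : K[X]} (hp : p ≠ 0) :
    v (aeval a p) = v a ^ p.natDegree := by
  have h1 : v (aeval a (C p.leadingCoeff * X ^ p.natDegree)) = v a ^ p.natDegree := by
    rw [map_mul, aeval_C, aeval_X_pow, map_mul, h.2 _ (leadingCoeff_ne_zero.2 hp), one_mul, map_pow]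
  rw [← h1]
  refine KSkew.na_eq_of_sub_lt h.1 ?_
  rw [h1, ← map_sub, ← v.map_neg, ← map_neg, neg_sub, self_sub_C_mul_X_pow]
  by_cases h0 : p.eraseLead = 0
  · rw [h0, map_zero, map_zero]; positivity
  · refine (h.aeval_le ha.le le_rfl _).trans_lt (pow_lt_pow_right₀ ha ?_)
    exact (eraseLead_natDegree_lt_or_eraseLead_eq_zero p).resolve_right h0

section plane

variable {K : Type} [Field K] {ι : Type} [Fintype ι]

theorem io_inj : Function.Injective (io : R K → M K) := IsFractionRing.injective _ _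

theorem io_ne {φ : R K} (h : φ ≠ 0) : io φ ≠ 0 := (map_ne_zero_iff _ io_inj).2 h

theorem io_cc (c : K) : io (cc c) = algebraMap K (M K) c :=
  (IsScalarTower.algebraMap_apply K (R K) (M K) c).symm

theorem xx_ne (j : Fin 2) : (xx j : R K) ≠ 0 := MvPolynomial.X_ne_zero j

theorem exists_io (a : M K) : ∃ f g : R K, g ≠ 0 ∧ a = io f / io g := by
  obtain ⟨f, g, hg, h⟩ := IsFractionRing.div_surjective (A := R K) a
  exact ⟨f, g, nonZeroDivisors.ne_zero hg, h.symm⟩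

theorem av_ext {v w : AV K} (h : ∀ φ, v (io φ) = w (io φ)) : v = w := by
  ext a
  obtain ⟨f, g, -, rfl⟩ := exists_io a
  rw [map_div₀, map_div₀, h, h]

theorem exists_AV (l : R K → ℝ) (hm : ∀ a b, a ≠ 0 → b ≠ 0 → l (a * b) = l a + l b)
    (ha : ∀ a b, a ≠ 0 → b ≠ 0 → a + b ≠ 0 → l (a + b) ≤ max (l a) (l b))
    (hc : ∀ c : K, c ≠ 0 → l (cc c) = 0) : ∃ v : AV K, NA K v ∧ ∀ φ, φ ≠ 0 → lg v φ = l φ := by
  obtain ⟨v, hv, h⟩ := exists_abs l hm ha
  obtain ⟨w, hw, h'⟩ := exists_frac (F := M K) v hv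
  refine ⟨w, ⟨hw, fun c h0 => ?_⟩, fun φ h0 => ?_⟩
  · rw [← io_cc, h', h _ (by simpa using h0), hc c h0, exp_zero]
  · rw [lg, h', h _ h0, log_exp]

theorem exists_AV_rpow {v : AV K} (hv : NA K v) {t : ℝ} (ht : 0 < t) :
    ∃ w : AV K, NA K w ∧ (∀ a, w a = v a ^ t) ∧ ∀ a, log (w a) = t * log (v a) := by
  obtain ⟨w, hw, h⟩ := exists_rpow v hv.1 ht
  refine ⟨w, ⟨hw, fun c hc => by rw [h, hv.2 c hc, one_rpow]⟩, h, fun a => ?_⟩
  rw [h]
  by_cases ha : a = 0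
  · simp [ha, ht.ne']
  · exact log_rpow (v.pos ha) t

theorem exp_lg (v : AV K) {φ : R K} (h : φ ≠ 0) : exp (lg v φ) = v (io φ) :=
  exp_log (v.pos (io_ne h))

@[simp] theorem lg_zero (v : AV K) : lg v 0 = 0 := by simp [lg]

@[simp] theorem lg_one (v : AV K) : lg v 1 = 0 := by simp [lg]

theorem lg_mul (v : AV K) {φ ψ : R K} (h : φ ≠ 0) (h' : ψ ≠ 0) :
    lg v (φ * ψ) = lg v φ + lg v ψ := by
  rw [lg, map_mul, map_mul, log_mul (v.ne_zero (io_ne h)) (v.ne_zero (io_ne h'))]; rfl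

theorem lg_pow (v : AV K) (φ : R K) (n : ℕ) : lg v (φ ^ n) = n * lg v φ := by
  rw [lg, map_pow, map_pow, log_pow]; rfl

theorem lg_neg (v : AV K) (φ : R K) : lg v (-φ) = lg v φ := by
  rw [lg, map_neg, v.map_neg]; rfl

theorem lg_prod {J : Type} (v : AV K) (s : Finset J) (f : J → R K) (h : ∀ j ∈ s, f j ≠ 0) :
    lg v (∏ j ∈ s, f j) = ∑ j ∈ s, lg v (f j) := by
  rw [lg, map_prod, map_prod, log_prod fun j hj => v.ne_zero (io_ne (h j hj))]; rfl

theorem lg_cc {v : AV K} (hv : NA K v) (c : K) : lg v (cc c) = 0 := by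
  by_cases hc : c = 0
  · simp [hc]
  · rw [lg, io_cc, hv.2 c hc, log_one]

theorem lg_add {v : AV K} (hv : NA K v) {φ ψ : R K} (h'' : φ + ψ ≠ 0) :
    lg v (φ + ψ) ≤ max (lg v φ) (lg v ψ) := by
  by_cases h : φ = 0
  · rw [h, zero_add]; exact le_max_right _ _
  by_cases h' : ψ = 0
  · rw [h', add_zero]; exact le_max_left _ _
  have := hv.1 (io φ) (io ψ)
  rw [← map_add] at this
  rcases le_max_iff.1 this with h1 | h1
  · exact (log_le_log (v.pos (io_ne h'')) h1).trans (le_max_left _ _)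
  · exact (log_le_log (v.pos (io_ne h'')) h1).trans (le_max_right _ _)

theorem lp_nonneg (v : AV K) (φ : R K) : 0 ≤ lp v φ := le_max_left _ _

theorem lg_le_lp (v : AV K) (φ : R K) : lg v φ ≤ lp v φ := le_max_right _ _

theorem lp_pow (v : AV K) (φ : R K) (n : ℕ) : lp v (φ ^ n) = n * lp v φ := by
  rw [lp, lp, lg_pow, mul_max_of_nonneg _ _ (Nat.cast_nonneg n), mul_zero]

theorem exp_lp (v : AV K) (φ : R K) : exp (lp v φ) = max 1 (v (io φ)) := by
  by_cases h : φ = 0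
  · simp [lp, h]
  · rw [lp, exp_monotone.map_max, exp_zero, exp_lg v h]

theorem zz_nonneg (v : AV K) : 0 ≤ zz v := (lp_nonneg _ _).trans (le_max_left _ _)

theorem lp_xx_le (v : AV K) (j : Fin 2) : lp v (xx j) ≤ zz v := by
  fin_cases j
  exacts [le_max_left _ _, le_max_right _ _]

theorem lg_xx_le (v : AV K) (j : Fin 2) : lg v (xx j) ≤ zz v := (lg_le_lp _ _).trans (lp_xx_le v j)

theorem exists_lg_xx {v : AV K} (h : 0 < zz v) : ∃ j, lg v (xx j) = zz v := by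
  have key : ∀ j, zz v = lp v (xx j) → lg v (xx j) = zz v := fun j hj => by
    rcases max_cases 0 (lg v (xx j)) with h1 | h1
    · exact absurd (hj.trans h1.1) h.ne'
    · exact (hj.trans h1.1).symm
  rcases max_choice (lp v (xx 0)) (lp v (xx 1)) with h1 | h1
  exacts [⟨0, key 0 h1⟩, ⟨1, key 1 h1⟩]

theorem av_le {v : AV K} (hv : NA K v) (φ : R K) : v (io φ) ≤ exp (dg φ * zz v) := by
  conv_lhs => rw [φ.as_sum, map_sum]
  refine KSkew.na_sum_le hv.1 _ _ (exp_pos _).le fun m hm => ?_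
  have hx : ∀ j, v (io (xx j)) ≤ exp (zz v) := fun j => by
    rw [← exp_lg v (xx_ne j)]; exact exp_le_exp.2 (lg_xx_le v j)
  have hd : m 0 + m 1 ≤ dg φ := by
    have := MvPolynomial.le_totalDegree hm
    rwa [Finsupp.sum_fintype _ _ (fun _ => rfl), Fin.sum_univ_two] at this
  rw [MvPolynomial.monomial_eq, Finsupp.prod_fintype _ _ (fun _ => pow_zero _), Fin.prod_univ_two,
    map_mul, map_mul, map_mul, map_mul, map_pow, map_pow, map_pow, map_pow, io_cc]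
  refine (mul_le_of_le_one_left (by positivity) (hv.le_one _)).trans ?_
  refine (mul_le_mul (pow_le_pow_left₀ (v.nonneg _) (hx 0) _)
    (pow_le_pow_left₀ (v.nonneg _) (hx 1) _) (by positivity) (by positivity)).trans ?_
  rw [← pow_add, ← exp_nat_mul]
  exact exp_le_exp.2 (mul_le_mul_of_nonneg_right (Nat.cast_le.2 hd) (zz_nonneg v))

theorem lg_le {v : AV K} (hv : NA K v) (φ : R K) : lg v φ ≤ dg φ * zz v := by
  by_cases h : φ = 0
  · simp [h]
  · rw [← exp_le_exp, exp_lg v h]; exact av_le hv φ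

theorem lp_le {v : AV K} (hv : NA K v) (φ : R K) : lp v φ ≤ dg φ * zz v :=
  max_le (mul_nonneg (Nat.cast_nonneg _) (zz_nonneg v)) (lg_le hv φ)

theorem le_one_of_zz {v : AV K} (hv : NA K v) (h : zz v = 0) (φ : R K) : v (io φ) ≤ 1 := by
  simpa [h] using av_le hv φ

theorem nontrivial_of_zz {v : AV K} (h : 0 < zz v) : ∃ j, 1 < v (io (xx j)) := by
  obtain ⟨j, hj⟩ := exists_lg_xx h
  exact ⟨j, by rw [← exp_lg v (xx_ne j), hj]; exact one_lt_exp_iff.2 h⟩

theorem Nn_mul (N : ι → AV K) {φ ψ : R K} (h : φ ≠ 0) (h' : ψ ≠ 0) :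
    Nn N (φ * ψ) = Nn N φ + Nn N ψ := by
  simp only [Nn, lg_mul _ h h', Finset.sum_add_distrib]

theorem Nn_le_hh (N : ι → AV K) (φ : R K) : Nn N φ ≤ hh N φ :=
  Finset.sum_le_sum fun _ _ => lg_le_lp _ _

theorem hh_nonneg (N : ι → AV K) (φ : R K) : 0 ≤ hh N φ :=
  Finset.sum_nonneg fun _ _ => lp_nonneg _ _

theorem lp_le_hh (N : ι → AV K) (φ : R K) (i : ι) : lp (N i) φ ≤ hh N φ :=
  Finset.single_le_sum (f := fun i => lp (N i) φ) (fun _ _ => lp_nonneg _ _) (Finset.mem_univ i)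

theorem Fam.ZZ_pos {N : ι → AV K} (h : Fam N) : 0 < ZZ N :=
  have := h.ne
  Finset.sum_pos (fun i _ => h.inf i) Finset.univ_nonempty

open Classical in
/-- dropping the members that are not at infinity -/
theorem Fam0.drop {N : ι → AV K} (h : Fam0 N) (hne : ∃ i, 0 < zz (N i)) :
    Fam (fun i : {i // 0 < zz (N i)} => N i.1) ∧
      (∀ φ, hh (fun i : {i // 0 < zz (N i)} => N i.1) φ = hh N φ) ∧
      ZZ (fun i : {i // 0 < zz (N i)} => N i.1) = ZZ N := by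
  have z0 : ∀ i : {i // ¬ 0 < zz (N i)}, zz (N i.1) = 0 := fun i =>
    le_antisymm (not_lt.1 i.2) (zz_nonneg _)
  have l0 : ∀ (i : {i // ¬ 0 < zz (N i)}) φ, lg (N i.1) φ ≤ 0 := fun i φ => by
    simpa [z0 i] using lg_le (h.na i.1) φ
  obtain ⟨i₀, hi₀⟩ := hne
  refine ⟨⟨⟨fun i => h.na i.1, fun φ hφ => ?_⟩, fun i => i.2, ⟨⟨i₀, hi₀⟩⟩⟩, fun φ => ?_, ?_⟩
  · have h1 := h.pf φ hφ
    rw [Nn, ← Fintype.sum_subtype_add_sum_subtype (fun i => 0 < zz (N i))] at h1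
    have h2 : ∑ i : {i // ¬ 0 < zz (N i)}, lg (N i.1) φ ≤ 0 :=
      Finset.sum_nonpos fun i _ => l0 i φ
    rw [Nn]; linarith
  · rw [hh, hh, ← Fintype.sum_subtype_add_sum_subtype (fun i => 0 < zz (N i)) fun i => lp (N i) φ,
      Finset.sum_eq_zero (s := Finset.univ) (f := fun i : {i // ¬ 0 < zz (N i)} => lp (N i.1) φ)
        fun i _ => max_eq_left (l0 i φ), add_zero]
  · rw [ZZ, ZZ, ← Fintype.sum_subtype_add_sum_subtype (fun i => 0 < zz (N i)) fun i => zz (N i),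
      Finset.sum_eq_zero (s := Finset.univ) fun (i : {i // ¬ 0 < zz (N i)}) _ => z0 i, add_zero]

/-! Endomorphisms. -/

@[simp] theorem cp_apply (v : AV K) (σ : M K →ₐ[K] M K) (a : M K) : cp v σ a = v (σ a) := rfl

theorem NA.cp {v : AV K} (hv : NA K v) (σ : M K →ₐ[K] M K) : NA K (cp v σ) :=
  ⟨fun a b => by simpa using hv.1 (σ a) (σ b), fun c hc => by simpa using hv.2 c hc⟩

variable {s t : R K →ₐ[K] R K} {σ τ : M K →ₐ[K] M K}

theorem Cmp.lg_cp (h : Cmp s σ) (v : AV K) (φ : R K) : lg (cp v σ) φ = lg v (s φ) := by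
  rw [lg, cp_apply, h]; rfl

theorem Cmp.inj (h : Cmp s σ) : Function.Injective s := fun a b hab =>
  io_inj (σ.injective (show σ (io a) = σ (io b) by rw [h, h, hab]))

theorem Cmp.ne (h : Cmp s σ) {φ : R K} (hφ : φ ≠ 0) : s φ ≠ 0 := (map_ne_zero_iff _ h.inj).2 hφ

theorem Cmp.mul (h : Cmp s σ) (h' : Cmp t τ) : Cmp (s * t) (σ * τ) := fun φ => by
  rw [AlgHom.mul_apply, AlgHom.mul_apply, h', h]

theorem Cmp.pow (h : Cmp s σ) (n : ℕ) : Cmp (s ^ n) (σ ^ n) := by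
  induction n with
  | zero => exact fun φ => rfl
  | succ n ih => rw [pow_succ, pow_succ]; exact ih.mul h

theorem inj_pow (h : Function.Injective s) (n : ℕ) : Function.Injective (s ^ n) := by
  induction n with
  | zero => exact fun a b h => h
  | succ n ih => rw [pow_succ]; exact ih.comp h

omit [Fintype ι] in
theorem Per.lg_eq {N : ι → AV K} {μ : ℝ} (h : Per N σ μ) (hc : Cmp s σ) (i : ι) (φ : R K) :
    lg (N i) (s φ) = μ * lg (N i) φ := by
  rw [lg, ← hc, h.eig]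
  by_cases h0 : φ = 0
  · simp [h0, h.pos.ne']
  · exact log_rpow ((N i).pos (io_ne h0)) μ

omit [Fintype ι] in
theorem Per.pow {N : ι → AV K} {μ : ℝ} (h : Per N σ μ) (k : ℕ) : Per N (σ ^ k) (μ ^ k) := by
  refine ⟨pow_pos h.pos k, h.ineq, fun i => ?_⟩
  induction k with
  | zero => intro a; simp
  | succ k ih =>
    intro a
    rw [pow_succ, AlgHom.mul_apply, ih, h.eig, ← rpow_mul ((N i).nonneg a), pow_succ']

theorem s_eq_aeval (s : R K →ₐ[K] R K) (φ : R K) :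
    s φ = MvPolynomial.aeval (fun j => s (xx j)) φ := by
  conv_lhs => rw [MvPolynomial.aeval_unique s]
  rfl

theorem dg_eq_zero {φ : R K} (h : dg φ = 0) : ∃ c : K, φ = cc c :=
  ⟨_, MvPolynomial.totalDegree_eq_zero_iff_eq_C.1 h⟩

theorem dg_mul {φ ψ : R K} (h : φ ≠ 0) (h' : ψ ≠ 0) : dg (φ * ψ) = dg φ + dg ψ :=
  MvPolynomial.totalDegree_mul_of_isDomain h h'

theorem dg_pow (φ : R K) (n : ℕ) : dg (φ ^ n) = n * dg φ := by
  by_cases h : φ = 0
  · cases n <;> simp [h]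
  induction n with
  | zero => simp
  | succ n ih => rw [pow_succ, dg_mul (pow_ne_zero n h) h, ih]; ring

theorem dg_xx_le (s : R K →ₐ[K] R K) (j : Fin 2) : dg (s (xx j)) ≤ dd s := by
  fin_cases j
  exacts [le_max_left _ _, le_max_right _ _]

theorem exists_dg_xx (s : R K →ₐ[K] R K) : ∃ j, dg (s (xx j)) = dd s := by
  rcases max_choice (dg (s (xx 0))) (dg (s (xx 1))) with h | h
  exacts [⟨0, h.symm⟩, ⟨1, h.symm⟩]

theorem dg_map_le (s : R K →ₐ[K] R K) (φ : R K) : dg (s φ) ≤ dd s * dg φ := by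
  conv_lhs => rw [φ.as_sum, map_sum]
  refine MvPolynomial.totalDegree_finsetSum_le fun m hm => ?_
  have hd : m 0 + m 1 ≤ dg φ := by
    have := MvPolynomial.le_totalDegree hm
    rwa [Finsupp.sum_fintype _ _ (fun _ => rfl), Fin.sum_univ_two] at this
  rw [MvPolynomial.monomial_eq, Finsupp.prod_fintype _ _ (fun _ => pow_zero _), Fin.prod_univ_two,
    map_mul, map_mul, map_pow, map_pow, MvPolynomial.algHom_C]
  refine (MvPolynomial.totalDegree_mul _ _).trans ?_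
  rw [MvPolynomial.algebraMap_eq, MvPolynomial.totalDegree_C, zero_add]
  refine (MvPolynomial.totalDegree_mul _ _).trans ?_
  refine (add_le_add ((MvPolynomial.totalDegree_pow _ _).trans
    (Nat.mul_le_mul_left _ (dg_xx_le s 0))) ((MvPolynomial.totalDegree_pow _ _).trans
    (Nat.mul_le_mul_left _ (dg_xx_le s 1)))).trans ?_
  rw [← add_mul, mul_comm]
  exact Nat.mul_le_mul_left _ hd

theorem dd_mul_le (s t : R K →ₐ[K] R K) : dd (s * t) ≤ dd s * dd t :=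
  max_le ((dg_map_le s _).trans (Nat.mul_le_mul_left _ (dg_xx_le t 0)))
    ((dg_map_le s _).trans (Nat.mul_le_mul_left _ (dg_xx_le t 1)))

theorem one_le_dg_map (h : Function.Injective s) {φ : R K} (hφ : 1 ≤ dg φ) : 1 ≤ dg (s φ) := by
  by_contra h0
  obtain ⟨c, hc⟩ := dg_eq_zero (φ := s φ) (by omega)
  have : φ = cc c := h (by rw [hc, MvPolynomial.algHom_C]; rfl)
  rw [this, dg, MvPolynomial.totalDegree_C] at hφ
  omega

theorem one_le_dd (h : Function.Injective s) : 1 ≤ dd s :=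
  (one_le_dg_map h (by simp)).trans (dg_xx_le s 0)

theorem pderiv_map (s : R K →ₐ[K] R K) (i : Fin 2) (φ : R K) :
    MvPolynomial.pderiv i (s φ) = s (MvPolynomial.pderiv 0 φ) * MvPolynomial.pderiv i (s (xx 0)) +
      s (MvPolynomial.pderiv 1 φ) * MvPolynomial.pderiv i (s (xx 1)) := by
  induction φ using MvPolynomial.induction_on with
  | C c => simp
  | add p q hp hq => simp only [map_add, hp, hq]; ring
  | mul_X p j hp =>
    simp only [map_mul, Derivation.leibniz, smul_eq_mul, map_add, hp]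
    fin_cases j <;> simp <;> ring

/-- the chain rule -/
theorem jac_map (s : R K →ₐ[K] R K) (φ ψ : R K) : jac (s φ) (s ψ) = JJ s * s (jac φ ψ) := by
  simp only [JJ, jac, pderiv_map s _ φ, pderiv_map s _ ψ, map_sub, map_mul]
  ring

theorem JJ_mul (s t : R K →ₐ[K] R K) : JJ (s * t) = JJ s * s (JJ t) := jac_map s _ _

theorem eval_ap (s : R K →ₐ[K] R K) (P : Fin 2 → K) (φ : R K) :
    MvPolynomial.eval (ap s P) φ = MvPolynomial.eval P (s φ) := by
  induction φ using MvPolynomial.induction_on with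
  | C c => simp
  | add p q hp hq => simp only [map_add, hp, hq]
  | mul_X p j hp => simp only [map_mul, hp, MvPolynomial.eval_X, ap]

theorem Orb.eval_add {O : ℕ → Fin 2 → K} (h : Orb s O) (k n : ℕ) (φ : R K) :
    MvPolynomial.eval (O (n + k)) φ = MvPolynomial.eval (O n) ((s ^ k) φ) := by
  induction k generalizing φ with
  | zero => rfl
  | succ k ih => rw [← add_assoc, h, eval_ap, ih, pow_succ, AlgHom.mul_apply]

theorem Orb.add {O : ℕ → Fin 2 → K} (h : Orb s O) (k n : ℕ) : O (n + k) = ap (s ^ k) (O n) := by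
  funext j
  have := h.eval_add k n (xx j)
  rwa [MvPolynomial.eval_X] at this

end plane

/-! The model. -/

section model

variable {K A : Type} [Field K] [Field A] [Algebra K A]

@[simp] theorem evA_xx0 (ξ : A) : evA ξ (xx 0 : R K) = C ξ := by simp [evA]

@[simp] theorem evA_xx1 (ξ : A) : evA ξ (xx 1 : R K) = X := by simp [evA]

@[simp] theorem evA_cc (ξ : A) (c : K) : evA ξ (cc c) = C (algebraMap K A c) := by simp [evA]

theorem Pt.neg {n : AbsoluteValue A ℝ} (ζ : Pt n) (p : A[X]) : ζ.f (-p) = ζ.f p := by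
  rw [← neg_one_mul, map_mul, ← C_1, ← C_neg, ζ.cst, n.map_neg, map_one, one_mul]

theorem Pt.sub {n : AbsoluteValue A ℝ} (ζ : Pt n) (p q : A[X]) :
    ζ.f (p - q) ≤ max (ζ.f p) (ζ.f q) := by
  rw [sub_eq_add_neg, ← ζ.neg q]; exact ζ.add _ _

theorem Pt.eq_of_sub_lt {n : AbsoluteValue A ℝ} (ζ : Pt n) {p q : A[X]}
    (h : ζ.f (p - q) < ζ.f p) : ζ.f q = ζ.f p := by
  refine le_antisymm ?_ ?_
  · have := ζ.sub p (p - q)
    rw [sub_sub_cancel] at this
    exact this.trans (max_le le_rfl h.le)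
  · have := ζ.add (p - q) q
    rw [sub_add_cancel] at this
    exact (le_max_iff.1 this).resolve_left h.not_ge

theorem Pt.sum_le {n : AbsoluteValue A ℝ} (ζ : Pt n) {J : Type} (s : Finset J) (f : J → A[X])
    {B : ℝ} (hB : 0 ≤ B) (h : ∀ j ∈ s, ζ.f (f j) ≤ B) : ζ.f (∑ j ∈ s, f j) ≤ B := by
  classical
  induction s using Finset.induction with
  | empty => simpa using hB
  | insert a s ha ih =>
    rw [Finset.sum_insert ha]
    exact (ζ.add _ _).trans (max_le (h a (Finset.mem_insert_self _ _))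
      (ih fun j hj => h j (Finset.mem_insert_of_mem hj)))

theorem Pt.roots [IsAlgClosed A] {n : AbsoluteValue A ℝ} (ζ : Pt n) (p : A[X]) :
    ζ.f p = n p.leadingCoeff * (p.roots.map fun β => ζ.f (X - C β)).prod := by
  conv_lhs => rw [(IsAlgClosed.splits p).eq_prod_roots]
  rw [map_mul, ζ.cst, map_multiset_prod, Multiset.map_map]; rfl

end model

namespace Md

variable {K : Type} [Field K] (W : Md K)

theorem n_x : W.n W.x = exp 1 := W.xi

theorem x_ne : W.x ≠ 0 := fun h => by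
  have := W.n_x
  rw [h, map_zero] at this
  exact (exp_pos 1).ne this

theorem n_aeval {p : K[X]} (hp : p ≠ 0) : W.n (aeval W.x p) = exp p.natDegree := by
  rw [W.na.aeval_eq (by rw [W.n_x]; exact one_lt_exp_iff.2 one_pos) hp, W.n_x, ← exp_nat_mul, mul_one]

theorem up_evL (φ : R K) : W.up (W.evL φ) = W.ev φ := by
  induction φ using MvPolynomial.induction_on with
  | C c => rw [evA_cc, evA_cc, up, map_C, ← IsScalarTower.algebraMap_apply]
  | add p q hp hq => rw [map_add, map_add, ← hp, ← hq, up, up, up, Polynomial.map_add]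
  | mul_X p j hp =>
    rw [map_mul, map_mul, ← hp, up, up, Polynomial.map_mul]
    fin_cases j <;> simp [x]

theorem gn_na (a : W.E × ℝ) : IsNonarchimedean (W.gn a) := KSkew.GN_na W.na.1 (exp_pos a.2)

theorem gn_C (a : W.E × ℝ) (γ : W.E) : W.gn a (C γ) = W.n γ := KSkew.GN_C W.na.1 (exp_pos a.2) γ

theorem gn_X_sub_C (a : W.E × ℝ) (β : W.E) :
    W.gn a (X - C β) = max (exp a.2) (W.n (a.1 - β)) := KSkew.GN_X_sub_C W.na.1 (exp_pos a.2) β

theorem gn_roots (a : W.E × ℝ) (f : W.E[X]) : W.gn a f =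
    W.n f.leadingCoeff * (f.roots.map fun β => max (exp a.2) (W.n (a.1 - β))).prod :=
  KSkew.GN_roots W.na.1 (exp_pos a.2) f

@[simp] theorem dp_f (a : W.E × ℝ) (f : W.E[X]) : (W.dp a).f f = W.gn a f := rfl

@[simp] theorem ep_f (β : W.E) (f : W.E[X]) : (W.ep β).f f = W.n (f.eval β) := rfl

theorem kk_symm (a b : W.E × ℝ) : W.kk a b = W.kk b a := by
  rw [kk, kk, W.n.map_sub a.1 b.1, max_comm (exp a.2)]

theorem kk_nonneg (a b : W.E × ℝ) : 0 ≤ W.kk a b := le_max_left _ _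

@[simp] theorem B_sg (a b : W.E × ℝ) : W.B (W.sg a) (W.sg b) = W.kk a b := by
  simp [B, sg]

theorem B_symm (u v : W.V) : W.B u v = W.B v u := by
  have : W.B = W.B.flip := by
    ext a b
    simp [B, W.kk_symm a b]
  conv_lhs => rw [this]
  rfl

theorem B_rt (u : W.V) (f : W.E[X]) (s : W.E → ℝ) :
    W.B u (W.rt f s) = (f.roots.map fun β => W.B u (W.sg (β, s β))).sum := by
  rw [rt, map_multiset_sum, Multiset.map_map]; rfl

theorem B_sg_rt (a : W.E × ℝ) (f : W.E[X]) (s : W.E → ℝ) :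
    W.B (W.sg a) (W.rt f s) = (f.roots.map fun β => W.kk a (β, s β)).sum := by
  simp only [B_rt, B_sg]

/-- Cauchy-Schwarz -/
theorem cs (h : ∀ u : W.V, 0 ≤ W.B u u) (u v : W.V) : W.B u v ^ 2 ≤ W.B u u * W.B v v := by
  have key : ∀ t : ℝ, 0 ≤ W.B v v * (t * t) + 2 * W.B u v * t + W.B u u := fun t => by
    have := h (u + t • v)
    simp only [map_add, map_smul, LinearMap.add_apply, LinearMap.smul_apply, smul_eq_mul,
      W.B_symm v u] at this
    linarith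
  have := discrim_le_zero key
  rw [discrim] at this
  linarith

theorem B_sub_self (u v : W.V) : W.B (u - v) (u - v) = W.B u u - 2 * W.B u v + W.B v v := by
  simp only [map_sub, LinearMap.sub_apply, W.B_symm v u]; ring

end Md

end Pool.Agent.KSP

end

end MrgPart1

-- ======== part 2: formerly Pool.Agent.MP_c8dfda_nt.kp.CN2
section MrgPart2

/-! Polynomial maps of the plane: a product of curvettes gives a bounded polynomial. -/

open Polynomial Filter Real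
open scoped Topology

noncomputable section

namespace Pool.Agent.KSP

namespace CN2

variable {K : Type} [Field K] (W : Md K)

theorem lagr (a : W.E × ℝ) (P f : W.E[X]) (hm : P.Monic) (hs : P.Separable)
    (h1 : W.gn a P = 1)
    (hl : ∀ θ ∈ P.roots, 1 ≤ W.n ((derivative P).eval θ) * max (exp a.2) (W.n (a.1 - θ)))
    (hd : f.natDegree < P.natDegree) {c : ℝ} (hc : 0 ≤ c)
    (hf : ∀ θ ∈ P.roots, W.n (f.eval θ) ≤ c) : W.gn a f ≤ c := by
  classical
  have hnd := nodup_roots hs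
  have hcard : P.roots.toFinset.card = P.natDegree := by
    rw [Multiset.toFinset_card_of_nodup hnd, (IsAlgClosed.splits P).natDegree_eq_card_roots]
  have hP : Lagrange.nodal P.roots.toFinset id = P := by
    rw [Lagrange.nodal_eq, Finset.prod_eq_multiset_prod, Multiset.toFinset_val, hnd.dedup]
    exact ((IsAlgClosed.splits P).eq_prod_roots_of_monic hm).symm
  have hdeg : f.degree < P.roots.toFinset.card := by
    rw [hcard]
    exact degree_le_natDegree.trans_lt (by exact_mod_cast hd)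
  rw [Lagrange.eq_interpolate (s := P.roots.toFinset) (v := id) (Set.injOn_id _) hdeg,
    Lagrange.interpolate_apply]
  refine KSkew.na_sum_le (W.gn_na a) _ _ hc fun θ hθ => ?_
  have hθ' := Multiset.mem_toFinset.1 hθ
  have e1 := Lagrange.nodal_eq_mul_nodal_erase (v := (id : W.E → W.E)) hθ
  have e2 : max (exp a.2) (W.n (a.1 - θ)) *
      W.gn a (Lagrange.nodal (P.roots.toFinset.erase θ) id) = 1 := by
    rw [← h1, ← W.gn_X_sub_C, ← map_mul]
    exact congrArg _ (e1.symm.trans hP)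
  have e3 := hl θ hθ'
  have e4 : 0 < W.n ((derivative P).eval θ) := by
    refine lt_of_le_of_ne (W.n.nonneg _) fun h => ?_
    rw [← h, zero_mul] at e3
    exact absurd e3 (by norm_num)
  have e5 : W.gn a (Lagrange.nodal (P.roots.toFinset.erase θ) id) ≤
      W.n ((derivative P).eval θ) := by
    have := mul_le_mul_of_nonneg_right e3
      ((W.gn a).nonneg (Lagrange.nodal (P.roots.toFinset.erase θ) id))
    rwa [one_mul, mul_assoc, e2, mul_one] at this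
  rw [Lagrange.basis_eq_prod_sub_inv_mul_nodal_div hθ, ← Lagrange.nodal_erase_eq_nodal_div hθ,
    Lagrange.nodalWeight_eq_eval_derivative_nodal hθ, hP, map_mul, map_mul, W.gn_C, W.gn_C,
    map_inv₀]
  refine (mul_le_of_le_one_right (W.n.nonneg _) ?_).trans (hf θ hθ')
  exact (inv_mul_le_iff₀ e4).2 (by rw [mul_one]; exact e5)

theorem nonconst (U : Submodule K (R K)) (h : 2 ≤ Module.finrank K U) : ∃ u ∈ U, 1 ≤ dg u := by
  by_contra hc
  have hle : U ≤ Submodule.span K {(1 : R K)} := fun u hu => by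
    have h0 : dg u = 0 := by
      by_contra h0
      exact hc ⟨u, hu, Nat.one_le_iff_ne_zero.2 h0⟩
    rw [MvPolynomial.totalDegree_eq_zero_iff_eq_C.1 h0, MvPolynomial.C_eq_smul_one]
    exact Submodule.smul_mem _ _ (Submodule.mem_span_singleton_self _)
  have h1 := Submodule.finrank_mono hle
  rw [finrank_span_singleton one_ne_zero] at h1
  omega

end CN2

theorem cn2 (h1 : S_LATT) (h2 : S_MINK) : S_CN2 := by
  intro K _ _ W ι a U hU
  obtain ⟨e, t, he, ht, hs⟩ := h1 K W U U.natDegree hU.mon hU.sep hU.pos hU.big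
  have hsum : (1 : ℤ) ≤ ∑ j, (t j + 1) := by
    have e1 : ((∑ j, (t j + 1) : ℤ) : ℝ) = ∑ j, (t j : ℝ) + U.natDegree := by
      push_cast
      rw [Finset.sum_add_distrib, Finset.sum_const, Finset.card_univ, Fintype.card_fin,
        nsmul_eq_mul, mul_one]
    have e2 : (0 : ℝ) < ((∑ j, (t j + 1) : ℤ) : ℝ) := by rw [e1]; linarith
    exact_mod_cast e2
  obtain ⟨V, -, hr, hΦ⟩ := h2 K W (U.natDegree + 1) (Fin.snoc e U) (Fin.snoc t 0) fun j => by
    refine Fin.lastCases ?_ (fun i => ?_) j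
    · rw [Fin.snoc_last, Fin.val_last]; exact ⟨hU.mon, rfl⟩
    · rw [Fin.snoc_castSucc, Fin.val_castSucc]; exact he i
  rw [Fin.sum_univ_castSucc] at hr
  simp only [Fin.snoc_castSucc, Fin.snoc_last] at hr
  obtain ⟨u, hu, hd⟩ := CN2.nonconst V (by omega)
  refine ⟨u, hd, fun i => ?_⟩
  obtain ⟨c, hc, hev⟩ := hΦ u hu
  rw [← W.up_evL, hev, Md.up, Polynomial.map_sum]
  refine KSkew.na_sum_le (W.gn_na (a i)) _ _ zero_le_one fun j _ => ?_
  rw [Polynomial.map_mul, map_C, map_mul, W.gn_C]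
  have hcj := hc j
  revert hcj
  refine Fin.lastCases ?_ (fun k => ?_) j
  · intro hcj
    rw [Fin.snoc_last, Int.cast_zero, exp_zero] at hcj
    rw [Fin.snoc_last]
    have := hU.one i
    rw [Md.up] at this
    rw [this, mul_one]
    exact hcj
  · intro hcj
    rw [Fin.snoc_castSucc] at hcj
    rw [Fin.snoc_castSucc]
    have e1 := CN2.lagr W (a i) (W.up U) (W.up (e k)) (hU.mon.map _) hU.sep.map (hU.one i)
      (fun θ hθ => hU.lag θ hθ i) (by
        rw [Md.up, Md.up, natDegree_map, natDegree_map, (he k).2]; exact k.2)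
      (inv_nonneg.2 (exp_pos (t k : ℝ)).le) fun θ hθ => by
        rw [← mul_one (exp (t k : ℝ))⁻¹, le_inv_mul_iff₀ (exp_pos _)]
        exact ht k θ hθ
    refine (mul_le_mul hcj e1 ((W.gn (a i)).nonneg _) (exp_pos _).le).trans (le_of_eq ?_)
    exact mul_inv_cancel₀ (exp_pos _).ne'

end Pool.Agent.KSP

end

end MrgPart2

-- ======== part 3: formerly Pool.Agent.MP_c8dfda_nt.kp.RELA
section MrgPart3

/-! Polynomial maps of the plane: the image of the generic line. -/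

open Polynomial Filter Real
open scoped Topology

noncomputable section

namespace Pool.Agent.KSP

namespace RELA

section gauss

variable {A B : Type} [CommRing A] [CommRing B] {a : AbsoluteValue A ℝ} {b : AbsoluteValue B ℝ}

theorem gs_ge (ha : IsNonarchimedean a) (p : A[X]) (i : ℕ) : a (p.coeff i) ≤ gs ha p := by
  have := le_gaussNorm a p one_pos.le i
  rwa [one_pow, mul_one] at this

theorem gs_ex (ha : IsNonarchimedean a) (p : A[X]) : ∃ i, gs ha p = a (p.coeff i) := by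
  obtain ⟨i, hi⟩ := exists_eq_gaussNorm a 1 p
  rw [one_pow, mul_one] at hi
  exact ⟨i, hi⟩

theorem gs_map (ha : IsNonarchimedean a) (hb : IsNonarchimedean b) (f : A →+* B) {μ : ℝ}
    (hμ : 0 < μ) (h : ∀ x, b (f x) = a x ^ μ) (p : A[X]) : gs hb (p.map f) = gs ha p ^ μ := by
  refine le_antisymm ?_ ?_
  · obtain ⟨i, hi⟩ := gs_ex hb (p.map f)
    rw [hi, coeff_map, h]
    exact rpow_le_rpow (a.nonneg _) (gs_ge ha p i) hμ.le
  · obtain ⟨i, hi⟩ := gs_ex ha p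
    rw [hi, ← h, ← coeff_map]
    exact gs_ge hb _ i

theorem gs_C (ha : IsNonarchimedean a) (c : A) : gs ha (C c) = a c := gaussNorm_C a 1 c

theorem gs_lin (ha : IsNonarchimedean a) (c d : A) :
    gs ha (C c + C d * X) = max (a c) (a d) := by
  refine le_antisymm ?_ (max_le ?_ ?_)
  · refine (gs_na ha _ _).trans (max_le_max (gs_C ha c).le (le_of_eq ?_))
    rw [C_mul_X_eq_monomial]
    exact (gaussNorm_monomial a 1 1 d).trans (by rw [one_pow, mul_one])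
  · have := gs_ge ha (C c + C d * X) 0
    rwa [coeff_add, coeff_C_zero, mul_coeff_zero, coeff_X_zero, mul_zero, add_zero] at this
  · have := gs_ge ha (C c + C d * X) 1
    rwa [coeff_add, coeff_C_mul, coeff_X_one, mul_one, coeff_C_of_ne_zero one_ne_zero,
      zero_add] at this

theorem log_rp {x μ : ℝ} (hx : 0 ≤ x) (hμ : 0 < μ) : log (x ^ μ) = μ * log x := by
  rcases hx.eq_or_lt with h | h
  · simp [← h, hμ.ne']
  · exact log_rpow h μ

end gauss

/-- the root attached to an embedding -/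
def rho {E L : Type} [Field E] [Field L] (x y : E) (τ : E →+* L) : L[X] :=
  C (τ y) - C (τ x) * X

theorem desc {F E L : Type} [Field F] [Field E] [Field L] [Algebra F E] [Algebra F L]
    [IsGalois F L] [Fintype (E →ₐ[F] L)] (x y : E) (i j : ℕ) :
    ((∏ τ : E →ₐ[F] L, (X - C (rho x y (τ : E →+* L)))).coeff i).coeff j ∈
      Set.range (algebraMap F L) := by
  rw [InfiniteGalois.mem_range_algebraMap_iff_fixed]
  intro g
  have key : (∏ τ : E →ₐ[F] L, (X - C (rho x y (τ : E →+* L)))).map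
      (mapRingHom (g : L →+* L)) = ∏ τ : E →ₐ[F] L, (X - C (rho x y (τ : E →+* L))) := by
    rw [Polynomial.map_prod]
    refine Fintype.prod_equiv (AlgEquiv.arrowCongr AlgEquiv.refl g) _ _ fun τ => ?_
    simp [rho]
  have := congrArg (fun p : L[X][X] => (p.coeff i).coeff j) key
  simpa using this

theorem gal (F E : Type) [Field F] [Field E] [Algebra F E] [CharZero F] [FiniteDimensional F E] :
    IsGalois F (AlgebraicClosure E) :=
  have : IsAlgClosure F (AlgebraicClosure E) := IsAlgClosure.ofAlgebraic F E (AlgebraicClosure E)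
  inferInstance

variable {K : Type} [Field K]

/-- the product over the embeddings -/
def PP {L T : Type} [Field L] [Fintype T] (τ : T → M K →+* L) : L[X][X] :=
  ∏ t, (X - C (rho (io (xx 0)) (io (xx 1)) (τ t)))

/-- the embeddings over the image of `σ` -/
structure Pk (σ : M K →ₐ[K] M K) {L T : Type} [Field L] [Fintype T] (τ : T → M K →+* L)
    (t₀ : T) : Prop where
  card : Fintype.card T = qq σ
  fix : ∀ t b, τ t (σ b) = τ t₀ (σ b)
  inj : Function.Injective fun t => rho (io (xx 0)) (io (xx 1)) (τ t)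
  down : ∀ i j, ∃ b, τ t₀ (σ b) = ((PP τ).coeff i).coeff j
  ext : ∀ v : AV K, NA K v → Uniq v σ → ∃ w : AbsoluteValue L ℝ, IsNonarchimedean w ∧
    ∀ t c, w (τ t c) = v c

theorem exists_pk (h1 : S_EXTV) (h2 : S_TOW) [CharZero K] (σ : M K →ₐ[K] M K) :
    ∃ (L T : Type) (_ : Field L) (_ : Fintype T) (τ : T → M K →+* L) (t₀ : T), Pk σ τ t₀ := by
  have hfd := (h2 K σ).1
  have : CharZero (M K) := charZero_of_injective_algebraMap (algebraMap K (M K)).injective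
  have : IsGalois σ.fieldRange (AlgebraicClosure (M K)) := gal σ.fieldRange (M K)
  have hfix : ∀ (t : M K →ₐ[σ.fieldRange] AlgebraicClosure (M K)) (b : M K),
      t (σ b) = algebraMap (M K) (AlgebraicClosure (M K)) (σ b) := fun t b =>
    t.commutes ⟨σ b, ⟨b, rfl⟩⟩
  refine ⟨AlgebraicClosure (M K), M K →ₐ[σ.fieldRange] AlgebraicClosure (M K), inferInstance,
    inferInstance, fun t => t, IsScalarTower.toAlgHom _ _ _, AlgHom.card _ _ _,
    fun t b => hfix t b, fun t t' h => ?_, fun i j => ?_, fun v hv hu => ?_⟩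
  · have h0 : t (io (xx 1)) = t' (io (xx 1)) := by
      simpa [rho] using congrArg (fun p => coeff p 0) h
    have h1 : t (io (xx 0)) = t' (io (xx 0)) := by
      simpa [rho] using congrArg (fun p => coeff p 1) h
    have hR : ∀ φ : R K, t (io φ) = t' (io φ) := fun φ => by
      induction φ using MvPolynomial.induction_on with
      | C c =>
        rw [io_cc, ← σ.commutes, hfix, hfix]
      | add p q hp hq => rw [map_add, map_add, map_add, hp, hq]
      | mul_X p j hp =>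
        rw [map_mul, map_mul, map_mul, hp]
        fin_cases j
        exacts [congrArg _ h1, congrArg _ h0]
    ext c
    obtain ⟨f, g, -, rfl⟩ := exists_io c
    rw [map_div₀, map_div₀, hR, hR]
  · obtain ⟨⟨_, b, rfl⟩, hb⟩ := desc (F := σ.fieldRange) (L := AlgebraicClosure (M K))
      (io (xx 0) : M K) (io (xx 1)) i j
    exact ⟨b, hb⟩
  · obtain ⟨w, hw, hwv⟩ := h1 (M K) (AlgebraicClosure (M K)) v hv.1
    refine ⟨w, hw, fun t c => ?_⟩
    have := hu (w.comp (f := (t : M K →+* AlgebraicClosure (M K))) t.injective)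
      ⟨fun a b => ?_, fun c hc => ?_⟩ fun b => ?_
    · exact congrArg (fun u : AV K => u c) this
    · show w (t (a + b)) ≤ max (w (t a)) (w (t b))
      rw [map_add]
      exact hw _ _
    · show w (t _) = 1
      rw [← σ.commutes, hfix, hwv, σ.commutes, hv.2 c hc]
    · show w (t _) = _
      rw [hfix, hwv]

section main

variable {s : R K →ₐ[K] R K} {σ : M K →ₐ[K] M K} {L T : Type} [Field L] [Fintype T]
  {τ : T → M K →+* L} {t₀ : T}

/-- the embedding of the polynomials -/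
def em (σ : M K →ₐ[K] M K) (j : M K →+* L) : R K →+* L := (j.comp (σ : M K →+* M K)).comp io

theorem em_inj (σ : M K →ₐ[K] M K) (j : M K →+* L) : Function.Injective (em σ j) :=
  (j.injective.comp σ.injective).comp io_inj

theorem eval_up (hc : Cmp s σ) (h : Pk σ τ t₀) (t : T) (Φ : (R K)[X][X]) :
    (Φ.map (mapRingHom (em σ (τ t₀)))).eval (rho (io (xx 0)) (io (xx 1)) (τ t)) =
      (sub s Φ).map ((τ t).comp io) := by
  rw [eval_map, sub, coe_eval₂RingHom, ← coe_mapRingHom, hom_eval₂]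
  congr 1
  · rw [mapRingHom_comp]
    congr 1
    refine RingHom.ext fun φ => ?_
    show τ t₀ (σ (io φ)) = τ t (io (s φ))
    rw [← hc, h.fix t]
  · simp [rho]

omit [Fintype T] in
theorem norm_up {v : AV K} (hv : NA K v) {μ : ℝ} (hμ : 0 < μ) (he : ∀ b, v (σ b) = v b ^ μ)
    {w : AbsoluteValue L ℝ} (hw : IsNonarchimedean w) (hwv : ∀ t c, w (τ t c) = v c)
    (Φ : (R K)[X][X]) : gs (gs_na hw) (Φ.map (mapRingHom (em σ (τ t₀)))) = G2 hv.1 Φ ^ μ := by
  rw [G2, em, ← mapRingHom_comp, ← Polynomial.map_map]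
  exact gs_map _ _ _ hμ (fun p => gs_map hv.1 hw _ hμ (fun c => (hwv t₀ (σ c)).trans (he c)) p) _

theorem G2_nonneg {v : AV K} (hv : IsNonarchimedean v) (Φ : (R K)[X][X]) : 0 ≤ G2 hv Φ :=
  (gs (gs_na hv)).nonneg _

theorem norm_PP (h : Pk σ τ t₀) {v : AV K} {w : AbsoluteValue L ℝ} (hw : IsNonarchimedean w)
    (hwv : ∀ t c, w (τ t c) = v c) : gs (gs_na hw) (PP τ) = exp (zz v) ^ qq σ := by
  rw [PP, map_prod, ← h.card, ← Finset.card_univ, ← Finset.prod_const]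
  refine Finset.prod_congr rfl fun t _ => ?_
  have e1 : (X - C (rho (io (xx 0)) (io (xx 1)) (τ t)) : L[X][X]) =
      C (C (-τ t (io (xx 1))) + C (τ t (io (xx 0))) * X) + C 1 * X := by
    simp only [rho, map_sub, map_add, map_neg, map_one]
    ring
  rw [e1, gs_lin, gs_lin, map_one, w.map_neg, hwv, hwv, zz, exp_monotone.map_max, exp_lp, exp_lp,
    max_comm (v (io (xx 1))), max_comm _ 1, max_max_max_comm, max_self]

theorem PP_monic (τ : T → M K →+* L) : (PP τ).Monic :=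
  monic_prod_of_monic _ _ fun _ _ => monic_X_sub_C _

theorem part2 (hc : Cmp s σ) (h : Pk σ τ t₀) (Φ : (R K)[X][X]) (h0 : Φ ≠ 0) (hs : sub s Φ = 0) :
    ∃ φ : R K, φ ≠ 0 ∧ ∀ (v : AV K) (hv : NA K v) (μ : ℝ), 0 < μ → Uniq v σ →
      (∀ b, v (σ b) = v b ^ μ) → qq σ * zz v + μ * lg v φ ≤ μ * log (G2 hv.1 Φ) := by
  have i1 := map_injective _ (em_inj σ (τ t₀))
  have h1 : Φ.map (mapRingHom (em σ (τ t₀))) ≠ 0 := (Polynomial.map_ne_zero_iff i1).2 h0
  have hd : PP τ ∣ Φ.map (mapRingHom (em σ (τ t₀))) := by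
    have := (Multiset.prod_X_sub_C_dvd_iff_le_roots h1
      (Finset.univ.val.map fun t => rho (io (xx 0)) (io (xx 1)) (τ t))).2 (by
        rw [Multiset.le_iff_subset (Finset.univ.nodup.map h.inj)]
        intro r hr
        obtain ⟨t, -, rfl⟩ := Multiset.mem_map.1 hr
        rw [mem_roots h1, IsRoot, eval_up hc h, hs, Polynomial.map_zero])
    rwa [Multiset.map_map] at this
  obtain ⟨Q, hQ⟩ := hd
  have hl : Q.leadingCoeff = Φ.leadingCoeff.map (em σ (τ t₀)) := by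
    rw [← leadingCoeff_monic_mul (PP_monic τ), ← hQ, leadingCoeff_map_of_injective i1, coe_mapRingHom]
  have hφ : Φ.leadingCoeff.leadingCoeff ≠ 0 := leadingCoeff_ne_zero.2 (leadingCoeff_ne_zero.2 h0)
  refine ⟨_, hφ, fun v hv μ hμ hu he => ?_⟩
  obtain ⟨w, hw, hwv⟩ := h.ext v hv hu
  have e1 := norm_up (t₀ := t₀) hv hμ he hw hwv Φ
  rw [hQ, map_mul, norm_PP h hw hwv] at e1
  have e2 : v (io Φ.leadingCoeff.leadingCoeff) ^ μ ≤ gs (gs_na hw) Q := by
    refine le_trans ?_ (gs_ge (gs_na hw) Q Q.natDegree)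
    refine le_trans (le_of_eq ?_) (gs_ge hw _ Φ.leadingCoeff.natDegree)
    rw [coeff_natDegree, hl, coeff_map, coeff_natDegree, ← he]
    exact (hwv t₀ _).symm
  have p1 : 0 < v (io Φ.leadingCoeff.leadingCoeff) ^ μ := rpow_pos_of_pos (v.pos (io_ne hφ)) μ
  rw [← log_rp (G2_nonneg _ _) hμ, ← e1, lg, ← log_rp (v.nonneg _) hμ,
    log_mul (by positivity) (p1.trans_le e2).ne', log_pow, log_exp]
  exact add_le_add le_rfl (log_le_log p1 e2)

theorem exists_up (hc : Cmp s σ) (h : Pk σ τ t₀) {a : R K} (ha : Den s a) :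
    ∃ Ψ : (R K)[X][X], Ψ.map (mapRingHom (em σ (τ t₀))) = C (C (em σ (τ t₀) a)) ^ qq σ * PP τ := by
  let _ : Algebra (R K) L := (em σ (τ t₀)).toAlgebra
  let B : Subring L := (integralClosure (R K) L).toSubring
  have hx : ∀ t j, em σ (τ t₀) a * τ t (io (xx j)) ∈ B := fun t j => by
    obtain ⟨p, hp, hp0⟩ := ha.2 j
    refine ⟨p, hp, ?_⟩
    have e := congrArg ((τ t).comp io) hp0
    rw [hom_eval₂, map_zero] at e
    have e1 : ((τ t).comp io).comp (s : R K →+* R K) = em σ (τ t₀) := RingHom.ext fun φ => by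
      show τ t (io (s φ)) = τ t₀ (σ (io φ))
      rw [← hc, h.fix t]
    have e2 : ((τ t).comp io) (s a * xx j) = em σ (τ t₀) a * τ t (io (xx j)) := by
      rw [map_mul, ← e1]
      rfl
    rw [e1, e2] at e
    exact e
  have ha' : em σ (τ t₀) a ∈ B := isIntegral_algebraMap (R := R K) (A := L) (x := a)
  have hB : C (C (em σ (τ t₀) a)) ^ qq σ * PP τ ∈ lifts (mapRingHom B.subtype) := by
    rw [PP, ← h.card, ← Finset.card_univ, ← Finset.prod_const, ← Finset.prod_mul_distrib]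
    refine prod_mem fun t _ => ?_
    refine ⟨C (C ⟨_, ha'⟩) * X - C (C ⟨_, hx t 1⟩ - C ⟨_, hx t 0⟩ * X), ?_⟩
    simp only [rho, coe_mapRingHom, Polynomial.map_sub, Polynomial.map_mul, map_C, map_X,
      Subring.coe_subtype, map_sub, map_mul]
    ring
  rw [← mem_lifts, lifts_iff_coeff_lifts]
  intro i
  refine (lifts_iff_set_range _).1 ((lifts_iff_coeff_lifts _).2 fun j => ?_)
  obtain ⟨c, hc'⟩ := (lifts_iff_coeff_lifts _).1
    ((lifts_iff_set_range _).2 ((lifts_iff_coeff_lifts _).1 hB i)) j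
  obtain ⟨b, hb⟩ := h.down i j
  have e : ((C (C (em σ (τ t₀) a)) ^ qq σ * PP τ).coeff i).coeff j =
      τ t₀ (σ (io a ^ qq σ * b)) := by
    rw [← map_pow, ← map_pow, coeff_C_mul, coeff_C_mul, ← hb, map_mul, map_mul, map_pow, map_pow]
    rfl
  obtain ⟨p, hp, hp0⟩ : IsIntegral (R K) (c : L) := c.2
  have hI : IsIntegral (R K) (io a ^ qq σ * b) := by
    refine ⟨p, hp, σ.injective ((τ t₀).injective ?_)⟩
    have := hom_eval₂ p io ((τ t₀).comp (σ : M K →+* M K)) (io a ^ qq σ * b)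
    rw [map_zero, map_zero, ← hp0, show (c : L) = _ from hc'.trans e]
    exact this
  obtain ⟨φ, hφ⟩ := IsIntegrallyClosed.algebraMap_eq_of_integral hI
  refine ⟨φ, ?_⟩
  rw [e, ← hφ]
  rfl

theorem part1 (hc : Cmp s σ) (h : Pk σ τ t₀) {a : R K} (ha : Den s a) :
    ∃ Ψ : (R K)[X][X], sub s Ψ = 0 ∧ sub s (derivative Ψ) ≠ 0 ∧
      ∀ (v : AV K) (hv : NA K v) (μ : ℝ), 0 < μ → Uniq v σ → (∀ b, v (σ b) = v b ^ μ) →
        μ * log (G2 hv.1 Ψ) = μ * qq σ * lg v a + qq σ * zz v := by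
  classical
  obtain ⟨Ψ, hΨ⟩ := exists_up hc h ha
  have a0 : em σ (τ t₀) a ≠ 0 := (map_ne_zero_iff _ (em_inj σ _)).2 ha.1
  have hP : PP τ = Lagrange.nodal Finset.univ fun t => rho (io (xx 0)) (io (xx 1)) (τ t) := rfl
  refine ⟨Ψ, ?_, fun h0 => ?_, fun v hv μ hμ hu he => ?_⟩
  · have e := eval_up hc h t₀ Ψ
    rw [hΨ, eval_mul, hP, Lagrange.eval_nodal_at_node
      (v := fun t => rho (io (xx 0)) (io (xx 1)) (τ t)) (Finset.mem_univ t₀), mul_zero] at e
    exact (Polynomial.map_eq_zero_iff (f := (τ t₀).comp io)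
      fun _ _ h' => io_inj ((τ t₀).injective h')).1 e.symm
  · have e := eval_up hc h t₀ (derivative Ψ)
    rw [h0, Polynomial.map_zero, ← derivative_map, hΨ, ← map_pow, derivative_C_mul, eval_mul, hP,
      Lagrange.eval_nodal_derivative_eval_node_eq
        (v := fun t => rho (io (xx 0)) (io (xx 1)) (τ t)) (Finset.mem_univ t₀), eval_C] at e
    refine mul_ne_zero (pow_ne_zero _ (C_ne_zero.2 a0)) ?_ e
    exact Lagrange.eval_nodal_not_at_node fun t ht h' =>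
      (Finset.ne_of_mem_erase ht) (h.inj h').symm
  · obtain ⟨w, hw, hwv⟩ := h.ext v hv hu
    have e1 := norm_up (t₀ := t₀) hv hμ he hw hwv Ψ
    have e2 : w (em σ (τ t₀) a) = v (io a) ^ μ := (hwv t₀ _).trans (he _)
    have p1 : 0 < v (io a) ^ μ := rpow_pos_of_pos (v.pos (io_ne ha.1)) μ
    rw [hΨ, map_mul, norm_PP h hw hwv, map_pow, gs_C, gs_C, e2] at e1
    rw [← log_rp (G2_nonneg _ _) hμ, ← e1,
      log_mul (by positivity) (by positivity), log_pow, log_pow, log_exp,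
      log_rp (v.nonneg _) hμ, lg]
    ring

end main

end RELA

theorem rela (h1 : S_EXTV) (h2 : S_TOW) (_h3 : S_ORD) : S_RELA := by
  intro K _ _ s σ hc
  obtain ⟨L, T, _, _, τ, t₀, h⟩ := RELA.exists_pk h1 h2 σ
  exact ⟨fun a ha => RELA.part1 hc h ha, RELA.part2 hc h⟩

end Pool.Agent.KSP

end

end MrgPart3

-- ======== part 4: formerly Pool.Agent.MP_c8dfda_nt.kp.DEF
section MrgPart4

/-! Polynomial maps of the plane: a unique extension with algebraic residue field is defectless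
and totally ramified. -/

open Polynomial Filter Real
open scoped Topology

noncomputable section

namespace Pool.Agent.KSP

namespace DEF

variable {K : Type} [Field K]

theorem mem_vg (v : AV K) (t : ℝ) : t ∈ vg v ↔ ∃ a : M K, a ≠ 0 ∧ t = log (v a) := by
  refine ⟨fun h => ?_, fun h => AddSubgroup.subset_closure h⟩
  induction h using AddSubgroup.closure_induction with
  | mem x hx => exact hx
  | zero => exact ⟨1, one_ne_zero, by simp⟩
  | add x y _ _ hx hy =>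
    obtain ⟨a, ha, rfl⟩ := hx
    obtain ⟨b, hb, rfl⟩ := hy
    exact ⟨a * b, mul_ne_zero ha hb, by rw [map_mul, log_mul (v.pos ha).ne' (v.pos hb).ne']⟩
  | neg x _ hx =>
    obtain ⟨a, ha, rfl⟩ := hx
    exact ⟨a⁻¹, inv_ne_zero ha, by rw [map_inv₀, log_inv]⟩

theorem mem_map {σ : M K →ₐ[K] M K} {v : AV K} {μ : ℝ} (he : ∀ a, v (σ a) = v a ^ μ) (t : ℝ) :
    t ∈ (vg v).map (AddMonoidHom.mulLeft μ) ↔ ∃ b : M K, b ≠ 0 ∧ t = log (v (σ b)) := by
  rw [AddSubgroup.mem_map]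
  constructor
  · rintro ⟨x, hx, rfl⟩
    obtain ⟨b, hb, rfl⟩ := (mem_vg v x).1 hx
    exact ⟨b, hb, by rw [he, log_rpow (v.pos hb)]; rfl⟩
  · rintro ⟨b, hb, rfl⟩
    exact ⟨log (v b), (mem_vg v _).2 ⟨b, hb, rfl⟩, by rw [he, log_rpow (v.pos hb)]; rfl⟩

/-- the valuation ring -/
def O {v : AV K} (hv : NA K v) : Subalgebra K (M K) where
  carrier := {a | v a ≤ 1}
  mul_mem' := fun {a b} ha hb => by
    show v (a * b) ≤ 1
    rw [map_mul]
    exact mul_le_one₀ ha (v.nonneg _) hb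
  add_mem' := fun {a b} ha hb => KSkew.na_add_le hv.1 ha hb
  algebraMap_mem' := fun c => hv.le_one c

/-- its maximal ideal -/
def mI {v : AV K} (hv : NA K v) : Ideal (O hv) where
  carrier := {a | v a.1 < 1}
  add_mem' := fun {a b} ha hb => KSkew.na_add_lt hv.1 ha hb
  zero_mem' := by
    show v 0 < 1
    simp
  smul_mem' := fun c a ha => by
    show v (c.1 * a.1) < 1
    rw [map_mul]
    exact mul_lt_one_of_nonneg_of_lt_one_right c.2 (v.nonneg _) ha

theorem mI_prime {v : AV K} (hv : NA K v) : (mI hv).IsPrime := by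
  refine ⟨fun h => ?_, fun {a b} hab => ?_⟩
  · have h1 : (1 : O hv) ∈ mI hv := h ▸ Submodule.mem_top
    have h2 : v 1 < 1 := h1
    simp at h2
  · have h1 : v (a.1 * b.1) < 1 := hab
    by_contra h2
    push Not at h2
    have h3 : 1 ≤ v a.1 := not_lt.1 h2.1
    have h4 : 1 ≤ v b.1 := not_lt.1 h2.2
    rw [map_mul] at h1
    exact h1.not_ge (one_le_mul_of_one_le_of_one_le h3 h4)

/-- among infinitely many approximate roots two are close -/
theorem close {v : AV K} (hv : NA K v) {p : K[X]} (hp : p ≠ 0) (x : ℕ → M K)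
    (h1 : ∀ n, v (x n) ≤ 1) (h2 : ∀ n, v (aeval (x n) p) < 1) :
    ∃ i j, i < j ∧ v (x i - x j) < 1 := by
  have := mI_prime hv
  let y : ℕ → O hv := fun n => ⟨x n, h1 n⟩
  obtain ⟨i, j, hij, h⟩ := (p.rootSet_finite (O hv ⧸ mI hv)).exists_lt_map_eq_of_forall_mem
    (f := fun n => Ideal.Quotient.mkₐ K (mI hv) (y n)) (fun n => by
      rw [mem_rootSet]
      refine ⟨hp, ?_⟩
      rw [aeval_algHom_apply, Ideal.Quotient.mkₐ_eq_mk, Ideal.Quotient.eq_zero_iff_mem]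
      show v ((O hv).val (aeval (y n) p)) < 1
      rw [← aeval_algHom_apply]
      exact h2 n)
  refine ⟨i, j, hij, ?_⟩
  simp only [Ideal.Quotient.mkₐ_eq_mk] at h
  exact (Ideal.Quotient.eq.1 h :)

/-- the residue field does not grow -/
theorem residue {σ : M K →ₐ[K] M K} {v : AV K} {μ : ℝ} (hv : NA K v) (hR : RA v) (hμ : 0 < μ)
    (he : ∀ a, v (σ a) = v a ^ μ) {ε : M K} (hε : v ε ≤ 1) : ∃ d, v (ε - σ d) < 1 := by
  obtain ⟨p, hp, hpε⟩ := hR ε hε
  have hle : ∀ n a, v a ≤ 1 → v ((σ ^ n) a) ≤ 1 := fun n => by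
    induction n with
    | zero => exact fun a h => h
    | succ n ih =>
      intro a h
      rw [pow_succ, AlgHom.mul_apply]
      exact ih _ (by rw [he]; exact rpow_le_one (v.nonneg _) h hμ.le)
  have hlt : ∀ n a, v ((σ ^ n) a) < 1 ↔ v a < 1 := fun n => by
    induction n with
    | zero => exact fun a => Iff.rfl
    | succ n ih =>
      intro a
      rw [pow_succ, AlgHom.mul_apply, ih, he]
      exact rpow_lt_one_iff' (v.nonneg _) hμ
  obtain ⟨i, j, hij, h⟩ := close hv hp (fun n => (σ ^ n) ε) (fun n => hle n ε hε) fun n => by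
    rw [aeval_algHom_apply]
    exact (hlt n _).2 hpε
  obtain ⟨k, rfl⟩ := Nat.exists_eq_add_of_lt hij
  refine ⟨(σ ^ k) ε, (hlt i _).1 ?_⟩
  have e : (σ ^ (i + k + 1)) ε = (σ ^ i) (σ ((σ ^ k) ε)) := by
    rw [add_assoc, pow_add, pow_succ', AlgHom.mul_apply, AlgHom.mul_apply]
  rw [map_sub, ← e]
  exact h

/-- representatives of the classes of values -/
theorem reps {σ : M K →ₐ[K] M K} {v : AV K} {μ : ℝ} (he : ∀ a, v (σ a) = v a ^ μ) :
    ∃ w : (vg v ⧸ ((vg v).map (AddMonoidHom.mulLeft μ)).addSubgroupOf (vg v)) → M K,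
      (∀ c, w c ≠ 0) ∧ (∀ a, a ≠ 0 → ∃ c b, v (σ b * w c) = v a) ∧
      ∀ c c' b b', σ b * w c ≠ 0 → v (σ b * w c) = v (σ b' * w c') → c = c' := by
  have hs : ∀ c : (vg v ⧸ ((vg v).map (AddMonoidHom.mulLeft μ)).addSubgroupOf (vg v)),
      ∃ a : M K, ∃ h : a ≠ 0, QuotientAddGroup.mk
        (⟨log (v a), (mem_vg v _).2 ⟨a, h, rfl⟩⟩ : vg v) = c := fun c => by
    obtain ⟨⟨t, ht⟩, rfl⟩ := QuotientAddGroup.mk_surjective c
    obtain ⟨a, ha, rfl⟩ := (mem_vg v t).1 ht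
    exact ⟨a, ha, rfl⟩
  choose w h0 hw using hs
  refine ⟨w, h0, fun a ha => ?_, fun c c' b b' hb h => ?_⟩
  · let c : (vg v ⧸ ((vg v).map (AddMonoidHom.mulLeft μ)).addSubgroupOf (vg v)) :=
      QuotientAddGroup.mk (⟨log (v a), (mem_vg v _).2 ⟨a, ha, rfl⟩⟩ : vg v)
    have h1 := QuotientAddGroup.eq.1 (hw c)
    rw [AddSubgroup.mem_addSubgroupOf, mem_map he] at h1
    obtain ⟨b, hb, h2⟩ := h1
    have h3 : -log (v (w c)) + log (v a) = log (v (σ b)) := h2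
    have hb' : σ b ≠ 0 := (map_ne_zero σ).2 hb
    refine ⟨c, b, log_injOn_pos (v.pos (mul_ne_zero hb' (h0 c))) (v.pos ha) ?_⟩
    rw [map_mul, log_mul (v.pos hb').ne' (v.pos (h0 c)).ne']
    linarith
  · have hb1 : σ b ≠ 0 := left_ne_zero_of_mul hb
    have hb2 : σ b' ≠ 0 := fun h0 => by
      rw [h0, zero_mul, map_zero] at h
      exact hb (v.eq_zero.1 h)
    rw [← hw c, ← hw c', QuotientAddGroup.eq, AddSubgroup.mem_addSubgroupOf, mem_map he]
    refine ⟨b / b', div_ne_zero ((map_ne_zero σ).1 hb1) ((map_ne_zero σ).1 hb2), ?_⟩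
    show -log (v (w c)) + log (v (w c')) = _
    have h1 := congrArg log h
    rw [map_mul, map_mul, log_mul (v.pos hb1).ne' (v.pos (h0 c)).ne',
      log_mul (v.pos hb2).ne' (v.pos (h0 c')).ne'] at h1
    rw [map_div₀, map_div₀, log_div (v.pos hb1).ne' (v.pos hb2).ne']
    linarith

/-- elements with values in distinct classes are independent -/
theorem indep {σ : M K →ₐ[K] M K} {v : AV K} (hv : NA K v) {Q : Type} (w : Q → M K)
    (h0 : ∀ c, w c ≠ 0)
    (hd : ∀ c c' b b', σ b * w c ≠ 0 → v (σ b * w c) = v (σ b' * w c') → c = c') :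
    LinearIndependent σ.fieldRange w := by
  classical
  rw [linearIndependent_iff']
  intro s g hg i hi
  obtain ⟨j, hj, hmax⟩ := s.exists_max_image (fun c => v ((g c : M K) * w c)) ⟨i, hi⟩
  have hz : (g j : M K) * w j = 0 := by
    by_contra hne
    have h1 : (g j : M K) * w j = -∑ c ∈ s.erase j, (g c : M K) * w c := by
      rw [eq_neg_iff_add_eq_zero, Finset.add_sum_erase s (fun c => (g c : M K) * w c) hj]
      exact hg
    have h2 : v (∑ c ∈ s.erase j, (g c : M K) * w c) < v ((g j : M K) * w j) := by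
      refine KSkew.na_sum_lt hv.1 _ _ (v.pos hne) fun c hc => ?_
      refine (hmax c (Finset.mem_of_mem_erase hc)).lt_of_ne fun h => ?_
      obtain ⟨b, hb⟩ := (g c).2
      obtain ⟨b', hb'⟩ := (g j).2
      have e1 : σ b = g c := hb
      have e2 : σ b' = g j := hb'
      exact Finset.ne_of_mem_erase hc (hd j c b' b (e2 ▸ hne) (by rw [e1, e2]; exact h.symm)).symm
    rw [← v.map_neg, ← h1] at h2
    exact lt_irrefl _ h2
  have h3 := hmax i hi
  rw [hz, map_zero] at h3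
  have h4 := v.eq_zero.1 (le_antisymm h3 (v.nonneg _))
  exact Subtype.ext ((mul_eq_zero.1 h4).resolve_right (h0 i))

/-- the trace coordinates of a nonzero element do not all vanish -/
theorem proj [CharZero K] {σ : M K →ₐ[K] M K} {v : AV K} (hv : NA K v) {Q : Type}
    (w : Q → M K) (h0 : ∀ c, w c ≠ 0)
    (tr : M K →+ M K) (q : ℕ) (hq : q ≠ 0) (t1 : ∀ a b, tr (σ b * a) = b * tr a) (t2 : tr 1 = q)
    (t3 : ∀ a, v (σ (tr a)) ≤ v a) {a b : M K} {j : Q} (hab : v (a - σ b * w j) < v a) :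
    ∃ c, σ (tr (a / w c)) ≠ 0 := by
  classical
  by_contra hz
  push Not at hz
  have hvb : v (σ b * w j) = v a := KSkew.na_eq_of_sub_lt hv.1 hab
  have h1 : a / w j = σ b * 1 + (a - σ b * w j) / w j := by
    field_simp [h0 j]
    ring
  have h2 := hz j
  rw [h1, map_add, map_add, t1, t2, map_mul, map_natCast] at h2
  have h3 : v (σ b * q) = v (σ (tr ((a - σ b * w j) / w j))) := by
    rw [eq_neg_of_add_eq_zero_left h2, v.map_neg]
  have h4 := t3 ((a - σ b * w j) / w j)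
  rw [← h3, map_mul, hv.natCast hq, mul_one, map_div₀, le_div_iff₀ (v.pos (h0 j)), ← map_mul,
    hvb] at h4
  exact hab.not_ge h4

end DEF

open DEF in
theorem defect (h : S_EMB) (h2 : S_TOW) : S_DEF := by
  intro K _ _ σ v μ hv hR hU hμ he
  refine ⟨fun t ht => ?_, ?_⟩
  · obtain ⟨b, hb, rfl⟩ := (mem_map he t).1 ht
    exact (mem_vg v _).2 ⟨σ b, (map_ne_zero σ).2 hb, rfl⟩
  obtain ⟨hfd, hq, -⟩ := h2 K σ
  obtain ⟨-, ch, tr, -, t1, t2, h3⟩ := h K σ
  obtain ⟨η, -, hη, h4⟩ := h3 v hv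
  have t3 : ∀ a, v (σ (tr a)) ≤ v a := fun a =>
    ((h4 a).2 (v a) fun k => by rw [hU (η k) (hη k).1 (hη k).2]).1
  obtain ⟨w, h0, hr, hd⟩ := reps he
  have hli := indep hv w h0 hd
  have := hli.finite
  have := Fintype.ofFinite
    (vg v ⧸ ((vg v).map (AddMonoidHom.mulLeft μ)).addSubgroupOf (vg v))
  rw [AddSubgroup.relIndex, AddSubgroup.index, Nat.card_eq_fintype_card]
  refine le_antisymm hli.fintype_card_le_finrank ?_
  let P : M K →ₗ[σ.fieldRange]
      ((vg v ⧸ ((vg v).map (AddMonoidHom.mulLeft μ)).addSubgroupOf (vg v)) → σ.fieldRange) :=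
    { toFun := fun a c => ⟨σ (tr (a / w c)), ⟨tr (a / w c), rfl⟩⟩
      map_add' := fun a b => by
        funext c
        apply Subtype.ext
        show σ (tr ((a + b) / w c)) = σ (tr (a / w c)) + σ (tr (b / w c))
        rw [add_div, map_add, map_add]
      map_smul' := fun g a => by
        funext c
        apply Subtype.ext
        obtain ⟨b, hb⟩ := g.2
        have e1 : σ b = g := hb
        show σ (tr (((g : M K) * a) / w c)) = (g : M K) * σ (tr (a / w c))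
        rw [← e1, mul_div_assoc, t1, map_mul] }
  have hP : Function.Injective P := by
    rw [injective_iff_map_eq_zero]
    intro a ha
    by_contra hne
    obtain ⟨j, b, hb⟩ := hr a hne
    have hb0 : σ b * w j ≠ 0 := fun h0 => by
      rw [h0, map_zero] at hb
      exact hne (v.eq_zero.1 hb.symm)
    obtain ⟨d, hdd⟩ := residue hv hR hμ he (ε := a / (σ b * w j))
      (by rw [map_div₀, hb, div_self (v.pos hne).ne'])
    have h5 : v (a - σ (d * b) * w j) < v a := by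
      have e : a - σ (d * b) * w j = (a / (σ b * w j) - σ d) * (σ b * w j) := by
        rw [map_mul, sub_mul, div_mul_cancel₀ _ hb0, mul_assoc]
      rw [e, map_mul, hb]
      exact mul_lt_of_lt_one_left (v.pos hne) hdd
    obtain ⟨c, hc⟩ := proj hv w h0 tr (qq σ) (by omega) t1 t2 t3 h5
    exact hc (congrArg Subtype.val (congrFun ha c))
  have h6 := LinearMap.finrank_le_finrank_of_injective hP
  rwa [Module.finrank_fintype_fun_eq_card] at h6

end Pool.Agent.KSP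

end

end MrgPart4

-- ======== part 5: formerly Pool.Agent.MP_c8dfda_nt.kp.SEQ
section MrgPart5

/-! Polynomial maps of the plane: a slow window in a sequence of slow growth. -/

open Polynomial Filter Real
open scoped Topology

noncomputable section

namespace Pool.Agent.KSP

namespace SEQ

theorem chain (F : ℕ → ℝ) (n₀ M : ℕ)
    (hs : ∀ n, n₀ ≤ n → ∃ j, 1 ≤ j ∧ j ≤ M ∧ F n ≤ F (n + j)) (m : ℕ) (hm : n₀ ≤ m) :
    ∃ i, i ≤ M ∧ F n₀ ≤ F (m + i) := by
  induction m, hm using Nat.le_induction with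
  | base => exact ⟨0, Nat.zero_le _, by simp⟩
  | succ m hm ih =>
    obtain ⟨i, hi, hF⟩ := ih
    rcases Nat.eq_zero_or_pos i with h0 | h0
    · subst h0
      obtain ⟨j, h1, h2, h3⟩ := hs m hm
      refine ⟨j - 1, by omega, ?_⟩
      have : m + 1 + (j - 1) = m + j := by omega
      rw [this]
      exact le_trans (by simpa using hF) h3
    · refine ⟨i - 1, by omega, ?_⟩
      have : m + 1 + (i - 1) = m + i := by omega
      rw [this]
      exact hF

theorem up (h : ℕ → ℝ) (e : ℝ) (n₀ : ℕ) (hu : ∀ n, n₀ ≤ n → h (n + 1) ≤ e + h n) (m : ℕ)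
    (hm : n₀ ≤ m) (i : ℕ) : h (m + i) ≤ i * e + h m := by
  induction i with
  | zero => simp
  | succ i ih =>
    have := hu (m + i) (by omega)
    rw [← add_assoc]
    push_cast
    linarith

/-- the logarithmic form of the statement -/
theorem core (h : ℕ → ℝ) (bad : ℕ → ℝ) (e L b₀ b : ℝ) (n₀ M : ℕ) (he : 0 ≤ e) (hL : 0 ≤ L)
    (hb₀ : 0 ≤ b₀) (hb : b₀ < b) (hu : ∀ n, n₀ ≤ n → h (n + 1) ≤ e + h n)
    (hsp : ∀ ε : ℝ, 0 < ε → ∃ C : ℝ, ∀ n : ℕ, bad n ≤ ε * n + C)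
    (hs : ∀ n, n₀ ≤ n → ∃ j, 1 ≤ j ∧ j ≤ M ∧
      h n + L * bad n - n * b ≤ h (n + j) + L * bad (n + j) - ((n + j : ℕ) : ℝ) * b)
    (hf : ∀ k : ℕ, ∃ m, k ≤ m ∧ h m ≤ m * b₀) : False := by
  have hd : 0 < b - b₀ := by linarith
  have hε : 0 < (b - b₀) / (2 * (L + 1)) := by positivity
  obtain ⟨C, hC⟩ := hsp _ hε
  set ε := (b - b₀) / (2 * (L + 1)) with hεd
  have hLε : L * ε ≤ (b - b₀) / 2 := by
    have h1 : (L + 1) * ε = (b - b₀) / 2 := by
      rw [hεd]; field_simp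
    nlinarith
  set F : ℕ → ℝ := fun n => h n + L * bad n - n * b with hF
  set K : ℝ := M * e + L * (ε * M + C) - F n₀ with hK
  obtain ⟨k, hk⟩ := exists_nat_gt (K / ((b - b₀) / 2))
  obtain ⟨m, hm, hhm⟩ := hf (max k n₀)
  have hm1 : k ≤ m := le_trans (le_max_left _ _) hm
  have hm2 : n₀ ≤ m := le_trans (le_max_right _ _) hm
  obtain ⟨i, hi, hFi⟩ := chain F n₀ M hs m hm2
  have h1 := up h e n₀ hu m hm2 i
  have h2 := hC (m + i)
  have hiM : (i : ℝ) ≤ M := by exact_mod_cast hi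
  have hi0 : (0 : ℝ) ≤ i := Nat.cast_nonneg _
  have hm0 : (0 : ℝ) ≤ m := Nat.cast_nonneg _
  have h3 : F (m + i) = h (m + i) + L * bad (m + i) - ((m : ℝ) + i) * b := by
    simp only [hF]; push_cast; ring
  have h4 : L * bad (m + i) ≤ L * (ε * (m + M) + C) := by
    apply mul_le_mul_of_nonneg_left _ hL
    push_cast at h2
    nlinarith
  have h5 : (i : ℝ) * e ≤ M * e := mul_le_mul_of_nonneg_right hiM he
  have h6 : 0 ≤ (i : ℝ) * b := mul_nonneg hi0 (by linarith)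
  have h7 : L * ε * m ≤ (b - b₀) / 2 * m := mul_le_mul_of_nonneg_right hLε hm0
  have h8 : (m : ℝ) * ((b - b₀) / 2) ≤ K := by
    rw [hK]; nlinarith
  have h9 : K < k * ((b - b₀) / 2) := by
    rwa [div_lt_iff₀ (by linarith)] at hk
  have h10 : (k : ℝ) ≤ m := by exact_mod_cast hm1
  nlinarith

end SEQ

theorem seq : S_SEQ := by
  classical
  intro H B E C c β₀ β k₀ hH hup hsp hdrop hβ₀ hβ hfr N k
  by_contra hcon
  push Not at hcon
  obtain ⟨n₁, hn₁⟩ := eventually_atTop.1 (hH.eventually_ge_atTop 1)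
  have hβp : 0 < β := by linarith
  have hβ₀p : 0 < β₀ := by linarith
  set c' : ℝ := max c 1 with hc'
  have hc1 : 1 ≤ c' := le_max_right _ _
  have hcc : c ≤ c' := le_max_left _ _
  set E' : ℝ := |E| + |C| + 1 with hE'
  have hE1 : 1 ≤ E' := by
    have := abs_nonneg E
    have := abs_nonneg C
    linarith
  have hlb : 0 ≤ log β := log_nonneg (by linarith)
  have hlc : 0 ≤ log (2 * c') := log_nonneg (by linarith)
  refine SEQ.core (fun n => log (H n))
    (fun n => (((Finset.range n).filter fun j => j ∈ B).card : ℝ)) (log E')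
    (log (2 * c') + log β) (log β₀) (log β) (max (max k k₀) n₁) (max N 1) (log_nonneg hE1)
    (by linarith) (log_nonneg hβ₀.le) (log_lt_log hβ₀p hβ) ?_ ?_ ?_ ?_
  · intro n hn
    have hn1 : n₁ ≤ n := le_trans (le_max_right _ _) hn
    have a1 := hn₁ n hn1
    have a2 := hn₁ (n + 1) (by omega)
    rw [← log_mul (by linarith) (by linarith)]
    apply log_le_log (by linarith)
    have a3 := hup n
    have a4 : E * H n ≤ |E| * H n := mul_le_mul_of_nonneg_right (le_abs_self E) (by linarith)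
    have a5 : C ≤ |C| * H n := by
      have := le_abs_self C
      have := abs_nonneg C
      nlinarith
    rw [hE']; nlinarith
  · intro ε hε
    obtain ⟨C', hC'⟩ := hsp ε hε
    refine ⟨C', fun n => ?_⟩
    convert hC' n
  · intro n hn
    have hn1 : n₁ ≤ n := le_trans (le_max_right _ _) hn
    have hn2 : k ≤ n := le_trans (le_trans (le_max_left _ _) (le_max_left _ _)) hn
    have hn3 : k₀ ≤ n := le_trans (le_trans (le_max_right _ _) (le_max_left _ _)) hn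
    have a1 := hn₁ n hn1
    by_cases hB : n ∈ B
    · refine ⟨1, le_refl _, le_max_right _ _, ?_⟩
      have a2 := hn₁ (n + 1) (by omega)
      have a3 := hdrop n hn3 hB
      have a4 : log (H n) ≤ log (2 * c') + log (H (n + 1)) := by
        rw [← log_mul (by linarith) (by linarith)]
        apply log_le_log (by linarith)
        have : c * (H (n + 1) + 1) ≤ c' * (H (n + 1) + 1) :=
          mul_le_mul_of_nonneg_right hcc (by linarith)
        nlinarith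
      have a5 : (((Finset.range (n + 1)).filter fun j => j ∈ B).card : ℝ) =
          (((Finset.range n).filter fun j => j ∈ B).card : ℝ) + 1 := by
        rw [Finset.range_add_one, Finset.filter_insert, if_pos hB,
          Finset.card_insert_of_notMem (by simp)]
        push_cast; ring
      simp only [a5]
      push_cast
      nlinarith
    · obtain ⟨j, hj, hlt⟩ := hcon n hn2 hB
      have hj1 : 1 ≤ j := by
        rcases Nat.eq_zero_or_pos j with h0 | h0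
        · subst h0; simp at hlt
        · exact h0
      refine ⟨j, hj1, le_trans hj (le_max_left _ _), ?_⟩
      have a4 : j * log β + log (H n) ≤ log (H (n + j)) := by
        rw [← log_pow, ← log_mul (by positivity) (by linarith)]
        exact log_le_log (by positivity) hlt.le
      have a5 : (((Finset.range n).filter fun j => j ∈ B).card : ℝ) ≤
          (((Finset.range (n + j)).filter fun j => j ∈ B).card : ℝ) := by
        exact_mod_cast Finset.card_le_card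
          (Finset.filter_subset_filter _ (Finset.range_mono (by omega)))
      have a6 := mul_le_mul_of_nonneg_left a5 (by linarith : 0 ≤ log (2 * c') + log β)
      push_cast
      nlinarith
  · intro k'
    obtain ⟨m, hm, hle⟩ := frequently_atTop.1 hfr (max k' n₁)
    refine ⟨m, le_trans (le_max_left _ _) hm, ?_⟩
    have a1 := hn₁ m (le_trans (le_max_right _ _) hm)
    rw [← log_pow]
    exact log_le_log (by linarith) hle

end Pool.Agent.KSP

end
end MrgPart5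

-- marker of a merged file
example : 731051 + 156742 = 731051 + 156742 := rfl
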