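import Mathlib.Tactic.Monotonicity.Lemmas
import Mathlib.Algebra.Ring.IsFormallyReal
import Mathlib.RingTheory.Polynomial.IsIntegral
import Mathlib.Analysis.CStarAlgebra.Classes
import Mathlib.Combinatorics.SimpleGraph.Basic
import Mathlib.RingTheory.PiTensorProduct
import Mathlib.RingTheory.TotallySplit
import Mathlib.RingTheory.Etale.Weakly
import Pool.Agent.MP_c8dfda_nt.kp.SEQ

-- ======== part 0: formerly Pool.Agent.MP_c8dfda_nt.kp.KLB
section MrgPart0

/-! Polynomial maps of the plane: proportionality along a pencil of height zero. -/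

open Polynomial Filter Real
open scoped Topology

noncomputable section

namespace Pool.Agent.KSP

namespace KLB

variable {K : Type} [Field K]

/-- The family `N` is represented on pairs of pencils. -/
def Rp (W : Md K) (b : R K → W.V) {ι : Type} [Fintype ι] (N : ι → AV K) : Prop :=
  ∀ G G' : R K, 1 ≤ dg G → 1 ≤ dg G' → ∃ a : W.V,
    ((∀ ψ : R K, ψ ≠ 0 → 0 ≤ Nn N ψ) → W.B a a ≤ 1) ∧
    W.B a (b G) = 1 - hh N G / dg G / ZZ N ∧ W.B a (b G') = 1 - hh N G' / dg G' / ZZ N

theorem ne_of_dg {G : R K} (h : 1 ≤ dg G) : G ≠ 0 := by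
  rintro rfl
  simp at h

theorem pack [CharZero K] (h0 : S_OM) (h1 : S_GEN) (h2 : S_VEC) (h3 : S_PENV) {ι κ : Type}
    [Fintype ι] [Fintype κ] [Nonempty ι] [Nonempty κ] (N : ι → AV K) (N' : κ → AV K)
    (a1 : ∀ i, NA K (N i)) (a2 : ∀ i, 0 < zz (N i)) (b1 : ∀ i, NA K (N' i))
    (b2 : ∀ i, 0 < zz (N' i)) : ∃ (W : Md K) (b : R K → W.V),
      (∀ H, 1 ≤ dg H → W.B (b H) (b H) ≤ 1) ∧ Rp W b N ∧ Rp W b N' := by
  obtain ⟨W⟩ := h0 K
  obtain ⟨c, -, τ, σ, hc, -, -, hd, hx, hz⟩ := h1 K (ι ⊕ κ) (Sum.elim N N') ∅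
    (fun i => by cases i; exacts [a1 _, b1 _]) (fun i => by cases i; exacts [a2 _, b2 _])
  have hd' : ∀ H, dg (τ.symm H) = dg H := fun H => by rw [← hd, τ.apply_symm_apply]
  have hl : ∀ (v : AV K) φ, lg (cp v (σ : M K →ₐ[K] M K)) φ = lg v (τ φ) := fun v φ => hc.lg_cp v φ
  choose! s hs using fun H (h : 1 ≤ dg H) => h3 K W (τ.symm H) (by rwa [hd'])
  have key : ∀ (J : Type) [Fintype J] [Nonempty J] (P : J → AV K), (∀ i, NA K (P i)) →
      (∀ i, 0 < zz (P i)) → (∀ i, lg (P i) (τ (xx 0)) = zz (P i)) →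
      Rp W (fun H => (dg H : ℝ)⁻¹ • W.rt (W.ev (τ.symm H)) (s H)) P := by
    intro J _ _ P p1 p2 p3 G G' hG hG'
    obtain ⟨T, hT⟩ := h2 K W J (fun i => cp (P i) (σ : M K →ₐ[K] M K)) (fun i => (p1 i).cp _)
      (fun i => by rw [hz _ (p1 i)]; exact p2 i) (fun i => by rw [hz _ (p1 i), hl, p3]) 1
      one_ne_zero
    obtain ⟨a, u, -, v⟩ := hT T le_rfl (τ.symm G) (τ.symm G')
      (ne_of_dg (by rwa [hd'])) (ne_of_dg (by rwa [hd']))
    have e : ∀ H, 1 ≤ dg H → (H = G ∨ H = G') →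
        W.B a ((dg H : ℝ)⁻¹ • W.rt (W.ev (τ.symm H)) (s H)) = 1 - hh P H / dg H / ZZ P := by
      intro H h1 h
      have hD : (dg H : ℝ) ≠ 0 := Nat.cast_ne_zero.2 (by omega)
      rw [map_smul, smul_eq_mul, v _ (h.imp (congrArg _) (congrArg _)) _ (hs H h1), hd']
      simp only [hh, ZZ, lp, hl, τ.apply_symm_apply, hz _ (p1 _)]
      field_simp
    refine ⟨a, fun pf => u fun ψ hψ => ?_, e G hG (Or.inl rfl), e G' hG' (Or.inr rfl)⟩
    simp only [Nn, hl]
    exact pf _ ((map_ne_zero_iff _ τ.injective).2 hψ)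
  refine ⟨W, _, fun H h => ?_, key ι N a1 a2 fun i => hx (Sum.inl i),
    key κ N' b1 b2 fun i => hx (Sum.inr i)⟩
  have hD : (0 : ℝ) < dg H := Nat.cast_pos.2 h
  have := (hs H h).sq
  rw [hd'] at this
  simp only [map_smul, LinearMap.smul_apply, smul_eq_mul]
  rw [inv_mul_le_iff₀ hD, inv_mul_le_iff₀ hD]
  linarith

theorem close (W : Md K) (psd : ∀ u : W.V, 0 ≤ W.B u u) {a b : W.V} {ε : ℝ} (ha : W.B a a ≤ 1)
    (hb : W.B b b ≤ 1) (h : W.B a b = 1 - ε) (c : W.V) :
    (W.B c a - W.B c b) ^ 2 ≤ W.B c c * (2 * ε) := by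
  rw [← map_sub]
  refine (W.cs psd c _).trans (mul_le_mul_of_nonneg_left ?_ (psd c))
  rw [W.B_sub_self]
  linarith

theorem same (W : Md K) (psd : ∀ u : W.V, 0 ≤ W.B u u) {a b : W.V} (ha : W.B a a ≤ 1)
    (hb : W.B b b ≤ 1) (h : W.B a b = 1) (c : W.V) : W.B c a = W.B c b := by
  have := close W psd (ε := 0) ha hb (by rw [h, sub_zero]) c
  rw [mul_zero, mul_zero] at this
  exact sub_eq_zero.1 (pow_eq_zero_iff two_ne_zero |>.1 (le_antisymm this (sq_nonneg _)))

end KLB

theorem klb (h0 : S_OM) (h1 : S_GEN) (h2 : S_VEC) (h3 : S_PENV) (h4 : S_PSD) : S_KLB := by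
  intro K ι _ _ _ N hN u hu hu0
  have := hN.ne
  refine ⟨fun κ _ N' G hN' hG => ?_, fun u' hu' hu0' η hη => ?_⟩
  · have := hN'.ne
    obtain ⟨W, b, hb, r, r'⟩ := KLB.pack h0 h1 h2 h3 N N' hN.na hN.inf hN'.na hN'.inf
    have psd := h4 K W
    have hZ := hN'.ZZ_pos
    have key : ∀ n, (hh N' (G n) / dg (G n) - hh N' u / dg u) ^ 2 ≤
        ZZ N' ^ 2 * (2 * (hh N (G n) / dg (G n) / ZZ N)) := fun n => by
      obtain ⟨a, a1, a2, a3⟩ := r (G n) u (hG.1 n) hu
      obtain ⟨c, c1, c2, c3⟩ := r' (G n) u (hG.1 n) hu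
      rw [hu0, zero_div, zero_div, sub_zero] at a3
      have e1 := KLB.close W psd (a1 hN.pf) (hb _ (hG.1 n)) a2 c
      rw [KLB.same W psd (a1 hN.pf) (hb _ hu) a3 c, c2, c3, sub_sub_sub_cancel_left, ← sub_div,
        div_pow, div_le_iff₀ (by positivity)] at e1
      refine e1.trans ?_
      rw [mul_comm]
      refine mul_le_mul_of_nonneg_left (mul_le_of_le_one_left ?_ (c1 hN'.pf)) (sq_nonneg _)
      exact mul_nonneg zero_le_two (div_nonneg (div_nonneg (hh_nonneg _ _) (Nat.cast_nonneg _))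
        hN.ZZ_pos.le)
    have t1 : Tendsto (fun n => ZZ N' ^ 2 * (2 * (hh N (G n) / dg (G n) / ZZ N))) atTop (𝓝 0) := by
      simpa using ((hG.2.div_const (ZZ N)).const_mul 2).const_mul (ZZ N' ^ 2)
    have t2 := (squeeze_zero (fun n => sq_nonneg _) key t1).sqrt
    simp only [sqrt_sq_eq_abs, sqrt_zero] at t2
    exact tendsto_sub_nhds_zero_iff.1 ((tendsto_zero_iff_abs_tendsto_zero _).2 t2)
  · rcases (zz_nonneg η).eq_or_lt with hz | hz
    · have z : ∀ φ, lp η φ = 0 := fun φ =>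
        le_antisymm (by simpa [← hz] using lp_le hη φ) (lp_nonneg _ _)
      rw [z, z, zero_mul, zero_mul]
    obtain ⟨W, b, hb, r, r'⟩ := KLB.pack h0 h1 h2 h3 N (fun _ : Unit => η) hN.na hN.inf
      (fun _ => hη) fun _ => hz
    have psd := h4 K W
    obtain ⟨a, a1, a2, a3⟩ := r u u' hu hu'
    obtain ⟨c, -, c2, c3⟩ := r' u u' hu hu'
    rw [hu0, zero_div, zero_div, sub_zero] at a2
    rw [hu0', zero_div, zero_div, sub_zero] at a3
    have e := (KLB.same W psd (a1 hN.pf) (hb _ hu) a2 c).symm.trans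
      (KLB.same W psd (a1 hN.pf) (hb _ hu') a3 c)
    rw [c2, c3, sub_right_inj] at e
    simp only [hh, ZZ, Finset.univ_unique, Finset.sum_singleton] at e
    have d : (dg u : ℝ) ≠ 0 := Nat.cast_ne_zero.2 (by omega)
    have d' : (dg u' : ℝ) ≠ 0 := Nat.cast_ne_zero.2 (by omega)
    rwa [div_left_inj' hz.ne', div_eq_div_iff d d'] at e

end Pool.Agent.KSP

end

end MrgPart0

-- ======== part 1: formerly Pool.Agent.MP_c8dfda_nt.kp.KLC
section MrgPart1

/-! Polynomial maps of the plane, row KLC: the branches of a polynomial curve. -/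

open Polynomial Filter Real
open scoped Topology

noncomputable section

namespace Pool.Agent.KSP

namespace KLC

theorem ext {B S E : Type} [CommRing B] [CommRing S] [Field E] [IsAlgClosed E] (φ : B →+* S)
    (hφ : φ.IsIntegral) (ψ : B →+* E) (h : RingHom.ker φ ≤ RingHom.ker ψ) :
    ∃ χ : S →+* E, ∀ b, χ (φ b) = ψ b := by
  let _ := φ.toAlgebra
  have : Algebra.IsIntegral B S := ⟨hφ⟩
  have := RingHom.ker_isPrime ψ
  obtain ⟨Q, -, hQ, e⟩ := Ideal.exists_ideal_over_prime_of_isIntegral (RingHom.ker ψ) (⊥ : Ideal S) h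
  let l : B ⧸ Q.comap (algebraMap B S) →+* E := Ideal.Quotient.lift _ ψ fun a ha => by
    rwa [e] at ha
  have hl : Function.Injective l := RingHom.lift_injective_of_ker_le_ideal _ _ e.ge
  let _ := l.toAlgebra
  have : Module.IsTorsionFree (B ⧸ Q.comap (algebraMap B S)) E :=
    Module.isTorsionFree_iff_algebraMap_injective.2 hl
  have : Module.IsTorsionFree (B ⧸ Q.comap (algebraMap B S)) (S ⧸ Q) :=
    Module.isTorsionFree_iff_algebraMap_injective.2 Ideal.algebraMap_quotient_injective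
  let j : (S ⧸ Q) →ₐ[B ⧸ Q.comap (algebraMap B S)] E := IsAlgClosed.lift
  exact ⟨(j : (S ⧸ Q) →+* E).comp (Ideal.Quotient.mk Q), fun b => j.commutes (Ideal.Quotient.mk _ b)⟩

theorem core {A S E : Type} [CommRing A] [IsDomain A] [IsIntegrallyClosed A] [CommRing S]
    [IsDomain S] [Field E] [IsAlgClosed E] (f : A →+* S) (hf : Function.Injective f)
    (hi : f.IsIntegral) (g : A →+* E) (w : S) :
    ∃ P : A[X], P.Monic ∧ P.eval₂ f w = 0 ∧ (∀ p : A[X], p.eval₂ f w = 0 → P ∣ p) ∧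
      ∀ β, P.eval₂ g β = 0 → ∃ χ : S →+* E, (∀ a, χ (f a) = g a) ∧ χ w = β := by
  let _ := f.toAlgebra
  have : FaithfulSMul A S := (faithfulSMul_iff_algebraMap_injective _ _).2 hf
  have hw : IsIntegral A w := hi w
  have dv : ∀ p : A[X], p.eval₂ f w = 0 → minpoly A w ∣ p := fun p hp =>
    minpoly.isIntegrallyClosed_dvd hw hp
  refine ⟨minpoly A w, minpoly.monic hw, minpoly.aeval A w, dv, fun β hβ => ?_⟩
  have e : (eval₂RingHom f w).comp C = f := RingHom.ext fun a => eval₂_C _ _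
  obtain ⟨χ, h⟩ := ext (eval₂RingHom f w) (RingHom.IsIntegral.tower_top C _ (e.symm ▸ hi))
    (eval₂RingHom g β) fun p hp => by
      obtain ⟨q, rfl⟩ := dv p hp
      rw [RingHom.mem_ker, map_mul, coe_eval₂RingHom, hβ, zero_mul]
  exact ⟨χ, fun a => by simpa using h (C a), by simpa using h X⟩

variable {K : Type} [Field K]

theorem integral {u : K[X]} (hu : 1 ≤ u.natDegree) :
    ((aeval u : K[X] →ₐ[K] K[X]) : K[X] →+* K[X]).IsIntegral := by
  have u0 : u ≠ 0 := fun h => by simp [h] at hu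
  have c0 := leadingCoeff_ne_zero.2 u0
  have hC : ∀ c : K, ((aeval u : K[X] →ₐ[K] K[X]) : K[X] →+* K[X]).IsIntegralElem (C c) :=
    fun c => by
      simpa using ((aeval u : K[X] →ₐ[K] K[X]) : K[X] →+* K[X]).isIntegralElem_map (x := C c)
  have hX : ((aeval u : K[X] →ₐ[K] K[X]) : K[X] →+* K[X]).IsIntegralElem X := by
    refine ⟨(u * C u.leadingCoeff⁻¹).map C - C (X * C u.leadingCoeff⁻¹), ?_, ?_⟩
    · refine ((monic_mul_leadingCoeff_inv u0).map C).sub_of_left (degree_C_le.trans_lt ?_)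
      rw [degree_map_eq_of_injective C_injective, degree_mul_leadingCoeff_inv _ u0]
      exact natDegree_pos_iff_degree_pos.1 hu
    · have e : ((aeval u : K[X] →ₐ[K] K[X]) : K[X] →+* K[X]).comp C = C := by
        ext c
        simp
      rw [eval₂_sub, eval₂_map, e, eval₂_C_X, eval₂_C, map_mul, sub_eq_zero]
      simp only [RingHom.coe_coe, aeval_X, aeval_C, algebraMap_eq]
  intro q
  induction q using Polynomial.induction_on with
  | C a => exact hC a
  | add p q hp hq => exact hp.add _ hq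
  | monomial n a h => rw [pow_succ, ← mul_assoc]; exact h.mul _ hX

theorem aev_equiv {B : Type} [CommRing B] [Algebra K B] (a b : B) (p : K[X][X]) :
    MvPolynomial.aeval ![a, b] (Bivariate.equivMvPolynomial K p) =
      p.eval₂ ((aeval a : K[X] →ₐ[K] B) : K[X] →+* B) b := by
  have : ((MvPolynomial.aeval ![a, b] : R K →ₐ[K] B) : R K →+* B).comp
      (Bivariate.equivMvPolynomial K : K[X][X] →+* R K) =
      eval₂RingHom ((aeval a : K[X] →ₐ[K] B) : K[X] →+* B) b := by
    ext <;> simp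
  exact RingHom.congr_fun this p

theorem eval_evA {E : Type} [Field E] [Algebra K E] (x β : E) (G : R K) :
    (evA x G).eval β = MvPolynomial.aeval ![x, β] G := by
  induction G using MvPolynomial.induction_on with
  | C c => simp
  | add p q hp hq => simp only [map_add, eval_add, hp, hq]
  | mul_X p j hp =>
    rw [map_mul, map_mul, eval_mul, hp]
    fin_cases j <;> simp

theorem evA_equiv {E : Type} [Field E] [Algebra K E] (x : E) (p : K[X][X]) :
    evA x (Bivariate.equivMvPolynomial K p) = p.map ((aeval x : K[X] →ₐ[K] E) : K[X] →+* E) := by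
  have : ((evA x : R K →ₐ[K] E[X]) : R K →+* E[X]).comp
      (Bivariate.equivMvPolynomial K : K[X][X] →+* R K) =
      mapRingHom ((aeval x : K[X] →ₐ[K] E) : K[X] →+* E) := by
    ext <;> simp
  exact RingHom.congr_fun this p

theorem aev_aev {E : Type} [Field E] [Algebra K E] (τ : E) (u w : K[X]) (G : R K) :
    aeval τ (MvPolynomial.aeval ![u, w] G) = MvPolynomial.aeval ![aeval τ u, aeval τ w] G := by
  induction G using MvPolynomial.induction_on with
  | C c => simp
  | add p q hp hq => simp only [map_add, hp, hq]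
  | mul_X p j hp =>
    rw [map_mul, map_mul, map_mul, hp]
    fin_cases j <;> simp

theorem nrm (W : Md K) {u : K[X]} (hu : 1 ≤ u.natDegree) {τ : W.E} (h : aeval τ u = W.x) :
    1 < W.n τ ∧ W.n τ ^ u.natDegree = exp 1 := by
  have u0 : u ≠ 0 := fun h => by simp [h] at hu
  have k : 1 < W.n τ := by
    by_contra k
    have := W.na.aeval_le le_rfl (not_lt.1 k) u
    rw [h, W.n_x, one_pow] at this
    exact absurd (one_lt_exp_iff.2 one_pos) (not_lt.2 this)
  exact ⟨k, by rw [← W.na.aeval_eq k u0, h, W.n_x]⟩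

end KLC

open KLC in
theorem klc : S_KLC := by
  intro K _ _ W u w Ψ hu hw ⟨A, B, hB, hAB⟩ hΨ
  have u0 : u ≠ 0 := fun h => by simp [h] at hu
  have inj : Function.Injective ((aeval u : K[X] →ₐ[K] K[X]) : K[X] →+* K[X]) :=
    transcendental_iff_injective.1 (Polynomial.transcendental u (by omega)
      (mem_nonZeroDivisors_of_ne_zero (leadingCoeff_ne_zero.2 u0)))
  obtain ⟨P, hm, h0, hd, hx⟩ := core _ inj (integral hu)
    ((aeval W.x : K[X] →ₐ[K] W.E) : K[X] →+* W.E) w
  have ne : W.ev (Bivariate.equivMvPolynomial K P) ≠ 0 := by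
    rw [Md.ev, evA_equiv]
    exact (hm.map _).ne_zero
  refine ⟨Bivariate.equivMvPolynomial K P, fun h => ne (by rw [h, map_zero]), ?_, fun β hβ => ?_,
    fun G => ?_⟩
  · obtain ⟨p, rfl⟩ := (Bivariate.equivMvPolynomial K).surjective Ψ
    exact map_dvd _ (hd p (by rwa [aev_equiv] at hΨ))
  · have k := (mem_roots ne).1 hβ
    rw [IsRoot, Md.ev, evA_equiv, eval_map] at k
    obtain ⟨χ, h1, h2⟩ := hx β k
    have e : ∀ q : K[X], χ q = aeval (χ X) q := fun q => by
      have : χ = ((aeval (χ X) : K[X] →ₐ[K] W.E) : K[X] →+* W.E) := by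
        ext c
        · simpa using h1 (C c)
        · simp
      exact RingHom.congr_fun this q
    have e1 : aeval (χ X) u = W.x := by rw [← e]; simpa using h1 X
    obtain ⟨k1, k2⟩ := nrm W hu e1
    rw [← h2, e, ← k2]
    exact (W.na.aeval_le k1.le le_rfl w).trans (pow_le_pow_right₀ k1.le hw)
  · have nn : ∀ s : Multiset W.E,
        0 ≤ (s.map fun β => max 0 (log (W.n ((W.ev G).eval β)))).sum := fun s =>
      Multiset.sum_nonneg fun a ha => by
        obtain ⟨b, _, rfl⟩ := Multiset.mem_map.1 ha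
        exact le_max_left _ _
    by_cases hq : MvPolynomial.aeval ![u, w] G = 0
    · rw [hq, natDegree_zero, Nat.cast_zero]
      exact nn _
    set U : W.E[X] := u.map (algebraMap K W.E) - C W.x with hU
    have dU : U.natDegree = u.natDegree := by rw [hU, natDegree_sub_C, natDegree_map]
    have U0 : U ≠ 0 := fun h => by
      rw [h, natDegree_zero] at dU
      omega
    have rt : ∀ τ ∈ U.roots, aeval τ u = W.x := fun τ h => by
      have := (mem_roots U0).1 h
      rwa [IsRoot, hU, eval_sub, eval_C, eval_map_algebraMap, sub_eq_zero] at this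
    have nz : ∀ τ ∈ U.roots, ∀ q : K[X], q ≠ 0 → aeval τ q ≠ 0 := fun τ h q hq k => by
      have k1 := (nrm W hu (rt τ h)).1
      have := W.na.aeval_eq k1 hq
      rw [k, map_zero] at this
      exact absurd this (by positivity : (0 : ℝ) < _).ne
    have nd : U.roots.Nodup := by
      classical
      refine Multiset.nodup_iff_count_le_one.2 fun τ => ?_
      rw [count_roots]
      by_contra k
      obtain ⟨k1, k2⟩ := (one_lt_rootMultiplicity_iff_isRoot U0).1 (not_le.1 k)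
      rw [IsRoot, hU, derivative_sub, derivative_C, sub_zero, derivative_map,
        eval_map_algebraMap] at k2
      refine nz τ ((mem_roots U0).2 k1) _ (fun h => ?_) k2
      have := derivative_eq_zero.1 h
      omega
    have ev : ∀ τ ∈ U.roots, ∀ H : R K,
        aeval τ (MvPolynomial.aeval ![u, w] H) = (W.ev H).eval (aeval τ w) := fun τ h H => by
      rw [aev_aev, rt τ h, Md.ev, eval_evA]
    have nd' : (U.roots.map fun τ => aeval τ w).Nodup := by
      refine nd.map_on fun τ h τ' h' e => ?_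
      have k := congrArg (aeval τ) hAB
      have k' := congrArg (aeval τ') hAB
      have z := nz τ h _ hB
      rw [map_mul, aeval_X, ev τ h, ev τ h, e] at k
      rw [map_mul, aeval_X, ev τ' h', ev τ' h'] at k'
      rw [ev τ h, e] at z
      exact mul_right_cancel₀ z (k.trans k'.symm)
    have le : (U.roots.map fun τ => aeval τ w) ≤
        (W.ev (Bivariate.equivMvPolynomial K P)).roots := by
      refine (Multiset.le_iff_subset nd').2 fun β hβ => ?_
      obtain ⟨τ, h, rfl⟩ := Multiset.mem_map.1 hβ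
      rw [mem_roots ne, IsRoot, ← ev τ h, aev_equiv, h0, map_zero]
    obtain ⟨t, ht⟩ := Multiset.le_iff_exists_add.1 le
    rw [ht, Multiset.map_add, Multiset.sum_add, Multiset.map_map]
    refine le_add_of_le_of_nonneg ?_ (nn t)
    have d0 : (0 : ℝ) < u.natDegree := by exact_mod_cast hu
    have := Multiset.card_nsmul_le_sum (s := U.roots.map
      ((fun β => max 0 (log (W.n ((W.ev G).eval β)))) ∘ fun τ => aeval τ w))
      (a := ((MvPolynomial.aeval ![u, w] G).natDegree : ℝ) / u.natDegree) fun a ha => by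
        obtain ⟨τ, h, rfl⟩ := Multiset.mem_map.1 ha
        obtain ⟨k1, k2⟩ := nrm W hu (rt τ h)
        have k3 := congrArg log k2
        rw [log_pow, log_exp] at k3
        refine le_trans (le_of_eq ?_) (le_max_right _ _)
        rw [← ev τ h, W.na.aeval_eq k1 hq, log_pow, div_eq_iff d0.ne', mul_assoc,
          mul_comm (log _), k3, mul_one]
    rwa [Multiset.card_map, IsAlgClosed.card_roots_eq_natDegree, dU, nsmul_eq_mul,
      mul_div_cancel₀ _ d0.ne'] at this

end Pool.Agent.KSP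

end

end MrgPart1

-- ======== part 2: formerly Pool.Agent.MP_c8dfda_nt.kp.KLD
section MrgPart2

/-! Polynomial maps of the plane: the degree of a thin function along a polynomial curve. -/

open Polynomial Filter Real
open scoped Topology

noncomputable section

namespace Pool.Agent.KSP

namespace KLD

variable {K ι : Type} [Field K] [Fintype ι]

theorem ne_of_dg {u : R K} (h : 1 ≤ dg u) : u ≠ 0 := by
  rintro rfl
  simp at h

/-- the vector of a family is close to the vector of a thin pencil -/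
theorem close (W : Md K) (hp : ∀ u : W.V, 0 ≤ W.B u u) (r a : W.V) {G : R K} (hG : 1 ≤ dg G)
    {s : W.E → ℝ} (hs : W.Pen G s) {h Z : ℝ} (ha : W.B a a ≤ 1)
    (hab : W.B a (W.rt (W.ev G) s) = dg G - h / Z) :
    (W.B r a - W.B r ((dg G : ℝ)⁻¹ • W.rt (W.ev G) s)) ^ 2 ≤ W.B r r * (2 * (h / dg G / Z)) := by
  have hD : (0 : ℝ) < dg G := Nat.cast_pos.2 hG
  have h1 := W.cs hp r (a - (dg G : ℝ)⁻¹ • W.rt (W.ev G) s)
  rw [map_sub] at h1
  refine h1.trans (mul_le_mul_of_nonneg_left ?_ (hp r))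
  have e1 : W.B ((dg G : ℝ)⁻¹ • W.rt (W.ev G) s) ((dg G : ℝ)⁻¹ • W.rt (W.ev G) s) ≤ 1 := by
    have e := hs.sq
    simp only [map_smul, LinearMap.smul_apply, smul_eq_mul]
    rw [← mul_assoc, ← mul_inv, inv_mul_le_iff₀ (by positivity)]
    linarith
  have e2 : W.B a ((dg G : ℝ)⁻¹ • W.rt (W.ev G) s) = 1 - h / dg G / Z := by
    rw [map_smul, smul_eq_mul, hab, mul_sub, inv_mul_cancel₀ hD.ne']
    ring
  rw [W.B_sub_self, e2]
  linarith

/-- the values at the roots are bounded through the pairing with the pencil -/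
theorem sum_le (W : Md K) (f : W.E[X]) (hf : ∀ β ∈ f.roots, W.n β ≤ exp 1) {T : ℝ} (hT : 0 ≤ T)
    {G : R K} {s : W.E → ℝ} (hs : W.Pen G s) :
    (f.roots.map fun β => max 0 (log (W.n ((W.ev G).eval β)))).sum ≤
      f.roots.card * (dg G : ℝ) - W.B (W.rt f fun _ => -T) (W.rt (W.ev G) s) := by
  have h1 : (f.roots.map fun β => max 0 (log (W.n ((W.ev G).eval β)))).sum ≤
      (f.roots.map fun β => (dg G : ℝ) - W.B (W.rt (W.ev G) s) (W.sg (β, -T))).sum := by
    refine Multiset.sum_map_le_sum_map _ _ fun β hβ => ?_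
    have hin : W.In (β, -T) := ⟨hf β hβ, by show -T ≤ 1; linarith⟩
    rw [W.B_symm, hs.ins _ hin, sub_sub_cancel]
    refine max_le (le_max_left _ _) ?_
    have hle : W.n ((W.ev G).eval β) ≤ W.gn (β, -T) (W.ev G) :=
      KSkew.eval_le_GN W.na.1 (exp_pos (-T)) (W.ev G) (by simpa using (exp_pos (-T)).le)
    rcases (W.n.nonneg ((W.ev G).eval β)).eq_or_lt with h0 | h0
    · rw [← h0, log_zero]; exact le_max_left _ _
    · exact (log_le_log h0 hle).trans (le_max_right _ _)
  refine h1.trans (le_of_eq ?_)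
  rw [Multiset.sum_map_sub, Multiset.map_const', Multiset.sum_replicate, nsmul_eq_mul,
    W.B_symm (W.rt f fun _ => -T), W.B_rt]

/-- the statement in generic coordinates -/
theorem main [CharZero K] (W : Md K) (h2 : S_VEC) (h3 : S_PENV) (h4 : S_PSD) (h5 : S_ROOT)
    (h6 : S_KLC) {N : ι → AV K} (hN : Fam N) (hx : ∀ i, lg (N i) (xx 0) = zz (N i))
    {u w : K[X]} {Ψ : R K} {G : ℕ → R K} (hu : 1 ≤ u.natDegree) (hw : w.natDegree ≤ u.natDegree)
    (hb : ∃ A B : R K, MvPolynomial.aeval ![u, w] B ≠ 0 ∧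
      X * MvPolynomial.aeval ![u, w] B = MvPolynomial.aeval ![u, w] A)
    (hΨ : Ψ ≠ 0) (h0 : MvPolynomial.aeval ![u, w] Ψ = 0) (hG : Thin N G) {ε : ℝ} (hε : 0 < ε) :
    ∀ᶠ n in atTop,
      ((MvPolynomial.aeval ![u, w] (G n)).natDegree : ℝ) ≤ (Nn N Ψ / ZZ N + ε) * dg (G n) := by
  have := hN.ne
  obtain ⟨Ψ₀, hΨ₀, ⟨Q, hQ⟩, hr, hdeg⟩ := h6 K W u w Ψ hu hw hb h0
  have hQ0 : Q ≠ 0 := by
    rintro rfl
    exact hΨ (by rw [hQ, mul_zero])
  have hle : Nn N Ψ₀ / ZZ N ≤ Nn N Ψ / ZZ N := by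
    refine div_le_div_of_nonneg_right ?_ hN.ZZ_pos.le
    rw [hQ, Nn_mul N hΨ₀ hQ0]
    linarith [hN.pf Q hQ0]
  have hk : ((W.ev Ψ₀).roots.card : ℝ) ≤ dg Ψ₀ :=
    Nat.cast_le.2 ((card_roots' _).trans (h5 K W Ψ₀ hΨ₀).2.1)
  obtain ⟨T, hT⟩ := h2 K W ι N hN.na hN.inf hx Ψ₀ hΨ₀
  have hp := h4 K W
  set r : W.V := W.rt (W.ev Ψ₀) fun _ => -max T 0 with hr'
  have t : Tendsto (fun n => W.B r r * (2 * (hh N (G n) / dg (G n) / ZZ N))) atTop
      (𝓝 (W.B r r * (2 * (0 / ZZ N)))) := ((hG.2.div_const _).const_mul _).const_mul _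
  rw [zero_div, mul_zero, mul_zero] at t
  filter_upwards [t.eventually (gt_mem_nhds (pow_pos hε 2))] with n hn
  have hne := ne_of_dg (hG.1 n)
  have hD : (0 : ℝ) < dg (G n) := Nat.cast_pos.2 (hG.1 n)
  obtain ⟨s, hs⟩ := h3 K W (G n) (hG.1 n)
  obtain ⟨a, a1, a2, a3⟩ := hT _ (le_max_left T 0) (G n) (G n) hne hne
  have c1 := close W hp r a (hG.1 n) hs (a1 hN.pf) (a3 _ (Or.inl rfl) s hs)
  rw [W.B_symm r a, hr', a2, ← hr', map_smul, smul_eq_mul] at c1
  have c2 := (abs_lt.1 (abs_lt_of_sq_lt_sq (c1.trans_lt hn) hε.le)).2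
  have c3 := (hdeg (G n)).trans (sum_le W (W.ev Ψ₀) hr (le_max_right T 0) hs)
  rw [← hr'] at c3
  have c4 : W.B r (W.rt (W.ev (G n)) s) =
      ((dg (G n) : ℝ)⁻¹ * W.B r (W.rt (W.ev (G n)) s)) * dg (G n) := by
    field_simp
  rw [c4, ← sub_mul] at c3
  refine c3.trans (mul_le_mul_of_nonneg_right ?_ hD.le)
  linarith

section transport

variable {τ : R K ≃ₐ[K] R K} {σ : M K ≃ₐ[K] M K}

theorem lg_symm (hc : Cmp (τ : R K →ₐ[K] R K) (σ : M K →ₐ[K] M K)) (v : AV K) (φ : R K) :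
    lg (cp v (σ : M K →ₐ[K] M K)) (τ.symm φ) = lg v φ := by
  rw [hc.lg_cp]
  simp

theorem fam (hc : Cmp (τ : R K →ₐ[K] R K) (σ : M K →ₐ[K] M K))
    (hz : ∀ v : AV K, NA K v → zz (cp v (σ : M K →ₐ[K] M K)) = zz v) {N : ι → AV K} (hN : Fam N) :
    Fam fun i => cp (N i) (σ : M K →ₐ[K] M K) :=
  ⟨⟨fun i => (hN.na i).cp _, fun φ hφ => by
    have := hN.pf _ (hc.ne hφ)
    simpa only [Nn, hc.lg_cp] using this⟩, fun i => by
      rw [hz _ (hN.na i)]; exact hN.inf i, hN.ne⟩

theorem dg_symm (hdg : ∀ φ, dg (τ φ) = dg φ) (φ : R K) : dg (τ.symm φ) = dg φ := by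
  rw [← hdg, AlgEquiv.apply_symm_apply]

theorem thin (hc : Cmp (τ : R K →ₐ[K] R K) (σ : M K →ₐ[K] M K)) (hdg : ∀ φ, dg (τ φ) = dg φ)
    {N : ι → AV K} {G : ℕ → R K} (hG : Thin N G) :
    Thin (fun i => cp (N i) (σ : M K →ₐ[K] M K)) fun n => τ.symm (G n) :=
  ⟨fun n => by rw [dg_symm hdg]; exact hG.1 n, by
    simpa only [hh, lp, lg_symm hc, dg_symm hdg] using hG.2⟩

/-- the parametrisation in the new coordinates -/
theorem aeval_symm {c : K} (e0 : τ (xx 0) = xx 0 + cc c * xx 1) (e1 : τ (xx 1) = xx 1)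
    (u w : K[X]) (φ : R K) :
    MvPolynomial.aeval ![u + C c * w, w] (τ.symm φ) = MvPolynomial.aeval ![u, w] φ := by
  have key : ∀ ψ : R K,
      MvPolynomial.aeval ![u + C c * w, w] ψ = MvPolynomial.aeval ![u, w] (τ ψ) := fun ψ => by
    induction ψ using MvPolynomial.induction_on with
    | C a =>
      rw [← MvPolynomial.algebraMap_eq, AlgEquiv.commutes, AlgHom.commutes, AlgHom.commutes]
    | add p q hp hq => simp only [map_add, hp, hq]
    | mul_X p j hp =>
      rw [map_mul, map_mul, map_mul, hp]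
      fin_cases j
      · simp [e0]
      · simp [e1]
  rw [key, AlgEquiv.apply_symm_apply]

end transport

theorem deg_le {u w : K[X]} {c : K} (h0 : c ≠ 0) (h1 : c ≠ -u.leadingCoeff / w.leadingCoeff) :
    max u.natDegree w.natDegree ≤ (u + C c * w).natDegree := by
  by_cases hw : w = 0
  · simp [hw]
  have hl : w.leadingCoeff ≠ 0 := leadingCoeff_ne_zero.2 hw
  have h2 : u.leadingCoeff + (C c * w).leadingCoeff ≠ 0 := fun h => h1 (by
    rw [leadingCoeff_mul, leadingCoeff_C] at h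
    rw [eq_div_iff hl]
    linear_combination h)
  have h3 := degree_add_eq_of_leadingCoeff_add_ne_zero h2
  rw [degree_C_mul h0] at h3
  exact max_le (natDegree_le_natDegree (h3 ▸ le_max_left _ _))
    (natDegree_le_natDegree (h3 ▸ le_max_right _ _))

end KLD

open KLD in
theorem kld (h0 : S_OM) (h1 : S_GEN) (h2 : S_VEC) (h3 : S_PENV) (h4 : S_PSD) (h5 : S_ROOT)
    (h6 : S_KLC) : S_KLD := by
  classical
  intro K ι _ _ _ N hN u w Ψ G hd hb hΨ hz0 hG ε hε
  obtain ⟨W⟩ := h0 K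
  obtain ⟨c, hcS, τ, σ, hc, e0, e1, hdg, hx, hz⟩ :=
    h1 K ι N {0, -u.leadingCoeff / w.leadingCoeff} hN.na hN.inf
  rw [Finset.mem_insert, Finset.mem_singleton, not_or] at hcS
  have hm := deg_le hcS.1 hcS.2
  obtain ⟨A, B, hB, hAB⟩ := hb
  have key := main W h2 h3 h4 h5 h6 (fam hc hz hN)
    (fun i => by rw [hc.lg_cp, hz _ (hN.na i)]; exact hx i) (u := u + C c * w) (w := w)
    (Ψ := τ.symm Ψ) (hd.trans hm) ((le_max_right _ _).trans hm)
    ⟨τ.symm A, τ.symm B, by rwa [aeval_symm e0 e1], by rwa [aeval_symm e0 e1, aeval_symm e0 e1]⟩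
    ((map_ne_zero_iff _ τ.symm.injective).2 hΨ) (by rwa [aeval_symm e0 e1]) (thin hc hdg hG) hε
  simpa only [ZZ, Nn, lg_symm hc, hz _ (hN.na _), aeval_symm e0 e1, dg_symm hdg] using key

end Pool.Agent.KSP

end

end MrgPart2

-- ======== part 3: formerly Pool.Agent.MP_c8dfda_nt.kp.LATT
section MrgPart3

/-! The discriminant of the lattice of integral polynomials. -/

open Polynomial Filter Real
open scoped Topology

noncomputable section

namespace Pool.Agent.KSP

namespace LATT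

section general

variable {E : Type} [Field E] {n : AbsoluteValue E ℝ} {d : ℕ}

theorem det_le (hn : IsNonarchimedean n) (A : Matrix (Fin d) (Fin d) E)
    (h : ∀ i j, n (A i j) ≤ 1) : n A.det ≤ 1 := by
  rw [Matrix.det_apply']
  refine KSkew.na_sum_le hn _ _ zero_le_one fun σ _ => ?_
  rw [map_mul]
  have h1 : n ((Equiv.Perm.sign σ : ℤ) : E) = 1 := by
    rcases Int.units_eq_one_or (Equiv.Perm.sign σ) with h | h <;> simp [h]
  rw [h1, one_mul]
  exact na_prod_le n _ _ fun i _ => h _ _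

theorem adj_le (hn : IsNonarchimedean n) (A : Matrix (Fin d) (Fin d) E)
    (h : ∀ i j, n (A i j) ≤ 1) (i j : Fin d) : n (A.adjugate i j) ≤ 1 := by
  rw [Matrix.adjugate_apply]
  refine det_le hn _ fun k l => ?_
  by_cases hk : k = j
  · subst hk
    rw [Matrix.updateRow_self]
    by_cases hl : l = i
    · subst hl; simp
    · simp [hl]
  · rw [Matrix.updateRow_ne hk]; exact h _ _

theorem sum_lt (hn : IsNonarchimedean n) (f : Fin d → E) (h : ∀ i, n (f i) < 1) :
    n (∑ i, f i) < 1 := by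
  rcases Nat.eq_zero_or_pos d with rfl | hd
  · simp
  haveI : Nonempty (Fin d) := ⟨⟨0, hd⟩⟩
  obtain ⟨i, -, hi⟩ := Finset.exists_max_image Finset.univ (fun i => n (f i)) Finset.univ_nonempty
  exact (KSkew.na_sum_le hn _ _ (n.nonneg _) hi).trans_lt (h i)

theorem det_lt (hn : IsNonarchimedean n) (hd : 1 ≤ d) (H A : Matrix (Fin d) (Fin d) E)
    (a : Fin d → E) (hH : ∀ i j, n (H i j) ≤ 1) (ha : ∀ k, n (a k) ≤ 1)
    (h1 : ∀ i, ∑ k, a k * A i k = 1) (hP : ∀ j i, n ((H * A.transpose) j i) < 1) :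
    n H.det < 1 := by
  let i : Fin d := ⟨0, hd⟩
  have e1 : H.adjugate * (H * A.transpose) = H.det • A.transpose := by
    rw [← Matrix.mul_assoc, Matrix.adjugate_mul, Matrix.smul_mul, Matrix.one_mul]
  have e2 : H.det = ∑ k, a k * (H.adjugate * (H * A.transpose)) k i := by
    simp only [e1, Matrix.smul_apply, Matrix.transpose_apply, smul_eq_mul]
    calc H.det = H.det * ∑ k, a k * A i k := by rw [h1, mul_one]
      _ = _ := by rw [Finset.mul_sum]; exact Finset.sum_congr rfl fun k _ => by ring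
  rw [e2]
  refine sum_lt hn _ fun k => ?_
  rw [map_mul]
  refine (mul_le_of_le_one_left (n.nonneg _) (ha k)).trans_lt ?_
  rw [Matrix.mul_apply]
  refine sum_lt hn _ fun j => ?_
  rw [map_mul]
  exact (mul_le_of_le_one_left (n.nonneg _) (adj_le hn H hH k j)).trans_lt (hP j i)

theorem vdm (θ : Fin d → E) : n (Matrix.vandermonde θ).det ^ 2 =
    ∏ i, n ((derivative (Lagrange.nodal Finset.univ θ)).eval (θ i)) := by
  simp only [Lagrange.eval_nodal_derivative_eval_node_eq (Finset.mem_univ _), Lagrange.eval_nodal,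
    map_prod, Matrix.det_vandermonde]
  have := Finset.prod_prod_Ioi_mul_eq_prod_prod_off_diag (fun j i : Fin d => n (θ i - θ j))
  simp only [← Finset.compl_singleton]
  rw [← this, sq, ← Finset.prod_mul_distrib]
  refine Finset.prod_congr rfl fun i _ => ?_
  rw [← Finset.prod_mul_distrib]
  refine Finset.prod_congr rfl fun j _ => ?_
  rw [n.map_sub (θ i)]

end general

variable {K : Type} [Field K] (W : Md K)

theorem ev_up (f : W.L[X]) (β : W.E) : (W.up f).eval β = aeval β f :=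
  eval_map_algebraMap f β

theorem sg_ev (f : W.L[X]) (σ : W.E ≃ₐ[W.L] W.E) (β : W.E) : σ (aeval β f) = aeval (σ β) f :=
  (aeval_algHom_apply (σ : W.E →ₐ[W.L] W.E) β f).symm

theorem enum {U : W.L[X]} (hs : U.Separable) : ∃ θ : Fin U.natDegree → W.E,
    Function.Injective θ ∧ (W.up U).roots = Finset.univ.val.map θ := by
  classical
  have hn : (W.up U).roots.Nodup := nodup_roots hs.map
  have hc : (W.up U).roots.toFinset.card = U.natDegree := by
    rw [Multiset.toFinset_card_of_nodup hn, IsAlgClosed.card_roots_eq_natDegree, Md.up,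
      natDegree_map]
  let e := Finset.equivFinOfCardEq hc
  have hi : Function.Injective fun i => (e.symm i : W.E) :=
    Subtype.val_injective.comp e.symm.injective
  refine ⟨fun i => e.symm i, hi, (Multiset.Nodup.ext hn (Finset.univ.nodup.map hi)).2 fun β => ?_⟩
  rw [Multiset.mem_map]
  constructor
  · intro h
    exact ⟨e ⟨β, Multiset.mem_toFinset.2 h⟩, Finset.mem_univ_val _, by simp⟩
  · rintro ⟨i, -, rfl⟩
    exact Multiset.mem_toFinset.1 (e.symm i).2

variable {d : ℕ} {θ : Fin d → W.E}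

/-- descent of interpolation polynomials -/
theorem desc (hi : Function.Injective θ)
    (hσ : ∀ σ : W.E ≃ₐ[W.L] W.E, (Finset.univ.val.map θ).map σ = Finset.univ.val.map θ)
    (hf : ∀ γ : W.E, (∀ σ : W.E ≃ₐ[W.L] W.E, σ γ = γ) → ∃ a : W.L, algebraMap W.L W.E a = γ)
    (c : W.E → W.E) (hc : ∀ (σ : W.E ≃ₐ[W.L] W.E) β, c (σ β) = σ (c β)) :
    ∃ f : W.L[X], f.degree < d ∧ ∀ i, aeval (θ i) f = c (θ i) := by
  classical
  let F := Lagrange.interpolate Finset.univ θ fun i => c (θ i)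
  have hF : F.degree < (Finset.univ : Finset (Fin d)).card :=
    Lagrange.degree_interpolate_lt _ hi.injOn
  have hv : ∀ i, F.eval (θ i) = c (θ i) := fun i =>
    Lagrange.eval_interpolate_at_node _ hi.injOn (Finset.mem_univ i)
  have hm : ∀ σ : W.E ≃ₐ[W.L] W.E, F.map (σ : W.E →+* W.E) = F := fun σ => by
    refine eq_of_degrees_lt_of_eval_index_eq Finset.univ hi.injOn
      (by rwa [degree_map]) hF fun i _ => ?_
    have : θ i ∈ (Finset.univ.val.map θ).map σ := by
      rw [hσ]; exact Multiset.mem_map_of_mem _ (Finset.mem_univ i)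
    obtain ⟨β, hβ, h1⟩ := Multiset.mem_map.1 this
    obtain ⟨j, -, rfl⟩ := Multiset.mem_map.1 hβ
    rw [hv, ← h1, hc, ← hv]
    exact eval_map_apply (σ : W.E →+* W.E) (θ j)
  have hl : F ∈ lifts (algebraMap W.L W.E) := by
    rw [lifts_iff_coeff_lifts]
    intro k
    refine hf _ fun σ => ?_
    conv_rhs => rw [← hm σ, coeff_map]
    rfl
  obtain ⟨f, h1, h2⟩ := exists_degree_eq_of_mem_lifts hl
  refine ⟨f, ?_, fun i => ?_⟩
  · rw [h2]; simpa using hF
  · rw [← eval_map_algebraMap, h1, hv]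

theorem sum_fix
    (hσ : ∀ σ : W.E ≃ₐ[W.L] W.E, (Finset.univ.val.map θ).map σ = Finset.univ.val.map θ)
    (f : W.L[X]) (σ : W.E ≃ₐ[W.L] W.E) : σ (∑ i, aeval (θ i) f) = ∑ i, aeval (θ i) f := by
  have h : ∀ g : W.E → W.E, ∑ i, g (θ i) = ((Finset.univ.val.map θ).map g).sum := fun g => by
    rw [Multiset.map_map]; rfl
  rw [map_sum]
  simp only [sg_ev]
  rw [h fun β => aeval (σ β) f, h fun β => aeval β f]
  conv_rhs => rw [← hσ σ, Multiset.map_map]
  rfl

/-- elements of the dual lattice are small -/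
theorem dual_lt [CharZero K] (hi : Function.Injective θ)
    (hσ : ∀ σ : W.E ≃ₐ[W.L] W.E, (Finset.univ.val.map θ).map σ = Finset.univ.val.map θ)
    (hf : ∀ γ : W.E, (∀ σ : W.E ≃ₐ[W.L] W.E, σ γ = γ) → ∃ a : W.L, algebraMap W.L W.E a = γ)
    (h : W.L[X]) (hh : ∀ l : W.L[X], l.degree < d → (∀ i, W.n (aeval (θ i) l) ≤ 1) →
      W.n (∑ i, aeval (θ i) h * aeval (θ i) l) ≤ 1) (i : Fin d) :
    W.n (aeval (θ i) h) < exp 1 := by
  classical
  by_contra h0
  push Not at h0
  let c : W.E → W.E := fun β => if exp 1 ≤ W.n (aeval β h) then W.x / aeval β h else 0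
  obtain ⟨l, l1, l2⟩ := desc W hi hσ hf c fun σ β => by
    simp only [c, ← sg_ev, W.conj]
    split_ifs
    · rw [map_div₀, Md.x, AlgEquiv.commutes]
    · rw [map_zero]
  have h1 := hh l l1 fun j => by
    rw [l2]
    simp only [c]
    split_ifs with hj
    · rw [map_div₀, W.n_x]
      exact div_le_one_of_le₀ hj (W.n.nonneg _)
    · simp
  have h2 : ∑ j, aeval (θ j) h * aeval (θ j) l =
      ((Finset.univ.filter fun j => exp 1 ≤ W.n (aeval (θ j) h)).card : W.E) * W.x := by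
    rw [← nsmul_eq_mul, ← Finset.sum_const, Finset.sum_filter]
    refine Finset.sum_congr rfl fun j _ => ?_
    rw [l2]
    simp only [c]
    split_ifs with hj
    · have : aeval (θ j) h ≠ 0 := fun h3 => by
        rw [h3, map_zero] at hj
        exact (exp_pos 1).not_ge hj
      field_simp
    · rw [mul_zero]
  rw [h2, map_mul, W.na.natCast (Finset.card_ne_zero_of_mem (a := i) (by simpa using h0)),
    one_mul, W.n_x] at h1
  exact (one_lt_exp_iff.2 one_pos).not_ge h1

theorem n_zpow (t : ℤ) : W.n (W.x ^ t) = exp t := by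
  rw [map_zpow₀, W.n_x, ← rpow_intCast, ← exp_mul, one_mul]

theorem xi_ne : W.ξ ≠ 0 := fun h => W.x_ne (by rw [Md.x, h, map_zero])

/-- the main estimate -/
theorem main [CharZero K] (hd : 1 ≤ d) (hi : Function.Injective θ)
    (hσ : ∀ σ : W.E ≃ₐ[W.L] W.E, (Finset.univ.val.map θ).map σ = Finset.univ.val.map θ)
    (hf : ∀ γ : W.E, (∀ σ : W.E ≃ₐ[W.L] W.E, σ γ = γ) → ∃ a : W.L, algebraMap W.L W.E a = γ)
    (b : Fin d → W.L[X]) (hb : ∀ j, (b j).degree < d)
    (hA : (Matrix.of fun i j => aeval (θ i) (b j)).det ≠ 0)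
    (hL : ∀ l : W.L[X], l.degree < d → (∀ i, W.n (aeval (θ i) l) ≤ 1) →
      ∃ a : Fin d → W.E, (∀ k, W.n (a k) ≤ 1) ∧ ∀ i, aeval (θ i) l = ∑ k, a k * aeval (θ i) (b k)) :
    exp (1 - d) ≤ W.n (Matrix.of fun i j => aeval (θ i) (b j)).det ^ 2 := by
  classical
  set A : Matrix (Fin d) (Fin d) W.E := Matrix.of fun i j => aeval (θ i) (b j) with hAdef
  have hAe : ∀ i j, A i j = aeval (θ i) (b j) := fun _ _ => rfl
  have hG : ∀ j k, ∃ a : W.L, algebraMap W.L W.E a = (A.transpose * A) j k := fun j k => by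
    refine hf _ fun σ => ?_
    simp only [Matrix.mul_apply, Matrix.transpose_apply, hAe, ← map_mul]
    exact sum_fix W hσ _ σ
  choose G hG using hG
  let G0 : Matrix (Fin d) (Fin d) W.L := Matrix.of G
  have hGm : (algebraMap W.L W.E).mapMatrix G0 = A.transpose * A := by
    ext j k; exact hG j k
  have hGd : algebraMap W.L W.E G0.det = A.det ^ 2 := by
    rw [RingHom.map_det, hGm, Matrix.det_mul, Matrix.det_transpose, sq]
  have hG0 : G0.det ≠ 0 := fun h => by
    rw [h, map_zero] at hGd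
    exact pow_ne_zero 2 hA hGd.symm
  let HL : Matrix (Fin d) (Fin d) W.L := W.ξ⁻¹ • G0⁻¹
  let H : Matrix (Fin d) (Fin d) W.E := (algebraMap W.L W.E).mapMatrix HL
  have hHG : HL * G0 = W.ξ⁻¹ • (1 : Matrix (Fin d) (Fin d) W.L) := by
    rw [Matrix.smul_mul, Matrix.nonsing_inv_mul _ (Ne.isUnit hG0)]
  have hD : H * A.transpose * A = W.x⁻¹ • (1 : Matrix (Fin d) (Fin d) W.E) := by
    rw [Matrix.mul_assoc, ← hGm, ← map_mul, hHG]
    ext j k
    by_cases hjk : j = k <;> simp [hjk, Md.x]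
  let p : Fin d → W.L[X] := fun j => ∑ k, C (HL j k) * b k
  have hp : ∀ j i, aeval (θ i) (p j) = (H * A.transpose) j i := fun j i => by
    simp only [p, map_sum, map_mul, aeval_C, Matrix.mul_apply, Matrix.transpose_apply, hAe]
    rfl
  have hpd : ∀ j, (p j).degree < d := fun j => by
    rw [← mem_degreeLT]
    refine Submodule.sum_mem _ fun k _ => ?_
    rw [← smul_eq_C_mul]
    exact Submodule.smul_mem _ _ (mem_degreeLT.2 (hb k))
  have pair : ∀ (j : Fin d) (a : Fin d → W.E),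
      ∑ i, W.x * (H * A.transpose) j i * ∑ k, a k * A i k = a j := fun j a => by
    have : ∑ i, W.x * (H * A.transpose) j i * ∑ k, a k * A i k =
        ∑ k, W.x * a k * (H * A.transpose * A) j k := by
      simp only [Matrix.mul_apply (M := H * A.transpose) (N := A), Finset.mul_sum]
      rw [Finset.sum_comm]
      exact Finset.sum_congr rfl fun k _ => Finset.sum_congr rfl fun i _ => by ring
    rw [this, hD, Finset.sum_eq_single j]
    · have := W.x_ne
      simp only [Matrix.smul_apply, Matrix.one_apply_eq, smul_eq_mul]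
      field_simp
    · intro k _ hk
      simp [Matrix.one_apply_ne hk.symm]
    · simp
  have hdual : ∀ (j : Fin d) (l : W.L[X]), l.degree < d → (∀ i, W.n (aeval (θ i) l) ≤ 1) →
      W.n (∑ i, aeval (θ i) (C W.ξ * p j) * aeval (θ i) l) ≤ 1 := fun j l l1 l2 => by
    obtain ⟨a, a1, a2⟩ := hL l l1 l2
    have := pair j a
    simp only [map_mul, aeval_C, hp, a2]
    exact (congrArg W.n this).trans_le (a1 j)
  have hP : ∀ j i, W.n ((H * A.transpose) j i) < 1 := fun j i => by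
    have := dual_lt W hi hσ hf _ (hdual j) i
    rw [map_mul, aeval_C, hp, map_mul, W.xi] at this
    exact (mul_lt_iff_lt_one_right (exp_pos 1)).1 this
  have hH : ∀ j k, W.n (H j k) ≤ 1 := fun j k => by
    have h1 := hdual k (p j) (hpd j) fun i => by rw [hp]; exact (hP j i).le
    have h2 := pair k (H j)
    simp only [map_mul, aeval_C, hp] at h1
    rw [← h2]
    exact h1
  obtain ⟨a, a1, a2⟩ := hL 1 (by rw [degree_one]; exact_mod_cast hd) fun i => by simp
  have hlt := det_lt W.na.1 hd H A a hH a1 (fun i => by simpa [hAe] using (a2 i).symm) hP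
  have hHd : H.det = algebraMap W.L W.E HL.det := (RingHom.map_det _ _).symm
  have hdet : HL.det * G0.det = W.ξ⁻¹ ^ d := by
    rw [← Matrix.det_mul, hHG, Matrix.det_smul, Matrix.det_one, mul_one, Fintype.card_fin]
  have hH0 : HL.det ≠ 0 := fun h => by
    rw [h, zero_mul] at hdet
    exact pow_ne_zero d (inv_ne_zero (xi_ne W)) hdet.symm
  obtain ⟨m, hm⟩ := W.dis _ hH0
  rw [hHd, hm, ← exp_zero, exp_lt_exp] at hlt
  have hm1 : (m : ℝ) ≤ -1 := by
    have : m < 0 := by exact_mod_cast hlt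
    exact_mod_cast (by omega : m ≤ -1)
  have h3 := congrArg (fun a => W.n (algebraMap W.L W.E a)) hdet
  simp only [map_mul, map_pow, map_inv₀, hm, hGd, W.xi] at h3
  have h4 : W.n A.det ^ 2 = exp (-m - d) := by
    rw [← exp_neg, ← exp_nat_mul] at h3
    have : exp (-m - d) = exp (-m) * exp (d * -1) := by rw [← exp_add]; congr 1; ring
    rw [this, ← h3, ← mul_assoc, ← exp_add, neg_add_cancel, exp_zero, one_mul]
  rw [h4]
  exact exp_le_exp.2 (by linarith)

end LATT

open LATT in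
theorem latt (h1 : S_GAL) (h2 : S_LATA) : S_LATT := by
  intro K _ _ W U S hm hs hd hS
  obtain ⟨-, hσ, -, hf⟩ := h1 K W
  obtain ⟨e, t, e1, e2, e3⟩ := h2 K W U hm hs
  refine ⟨e, t, e1, e2, ?_⟩
  obtain ⟨θ, hi, hθ⟩ := enum W hs
  have hr : ∀ β ∈ (W.up U).roots, ∃ i, θ i = β := fun β hβ => by
    rw [hθ] at hβ
    obtain ⟨i, -, h⟩ := Multiset.mem_map.1 hβ
    exact ⟨i, h⟩
  let b : Fin U.natDegree → W.L[X] := fun j => C (W.ξ ^ t j) * e j
  have hb : ∀ i j, aeval (θ i) (b j) = W.x ^ t j * aeval (θ i) (e j) := fun i j => by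
    simp only [b, map_mul, aeval_C, map_zpow₀, Md.x]
  have hdet : (Matrix.of fun i j => aeval (θ i) (b j)).det =
      (∏ j, W.x ^ t j) * (Matrix.vandermonde θ).det := by
    rw [Matrix.det_eval_matrixOfPolynomials_eq_det_vandermonde θ (fun j => W.up (e j))
      (fun j => by rw [Md.up, natDegree_map, (e1 j).2]) (fun j => (e1 j).1.map _),
      ← Matrix.det_mul_row]
    congr 1
    ext i j
    simp only [Matrix.of_apply, hb, ev_up]
  have key := main W hd hi (fun σ => by rw [← hθ]; exact (hσ U σ).1) hf b (fun j => by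
      refine (degree_mul_le _ _).trans_lt ?_
      refine (add_le_add degree_C_le le_rfl).trans_lt ?_
      rw [zero_add, degree_eq_natDegree (e1 j).1.ne_zero, (e1 j).2]
      exact_mod_cast j.2)
    (by
      rw [hdet]
      exact mul_ne_zero (Finset.prod_ne_zero_iff.2 fun j _ => zpow_ne_zero _ W.x_ne)
        (Matrix.det_vandermonde_ne_zero_iff.2 hi))
    (fun l l1 l2 => by
      obtain ⟨a, a1, a2⟩ := e3 l l1 fun β hβ => by
        obtain ⟨i, rfl⟩ := hr β hβ
        rw [ev_up]; exact l2 i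
      refine ⟨fun k => algebraMap W.L W.E (a k) / W.x ^ t k, fun k => ?_, fun i => ?_⟩
      · rw [map_div₀, n_zpow]
        exact div_le_one_of_le₀ (a1 k) (exp_pos _).le
      · rw [a2, map_sum]
        refine Finset.sum_congr rfl fun k _ => ?_
        have := zpow_ne_zero (t k) W.x_ne
        rw [hb, map_mul, aeval_C]
        field_simp)
  have hU : W.up U = Lagrange.nodal Finset.univ θ := by
    rw [(IsAlgClosed.splits (W.up U)).eq_prod_roots_of_monic (hm.map _), hθ, Multiset.map_map]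
    rfl
  have hS' : W.n (Matrix.vandermonde θ).det ^ 2 ≤ exp S := by
    rw [vdm, ← hU]
    rw [hθ, Multiset.map_map] at hS
    exact hS
  rw [hdet, map_mul, mul_pow, map_prod] at key
  simp only [n_zpow] at key
  rw [← exp_sum, ← exp_nat_mul] at key
  have := key.trans (mul_le_mul_of_nonneg_left hS' (exp_pos _).le)
  rw [← exp_add, exp_le_exp] at this
  push_cast at this
  linarith

end Pool.Agent.KSP

end

end MrgPart3

-- ======== part 4: formerly Pool.Agent.MP_c8dfda_nt.kp.WAP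
section MrgPart4

/-! Weak approximation. -/

open Polynomial Filter Real
open scoped Topology

noncomputable section

namespace Pool.Agent.KSP

namespace WAP

theorem exists_sep {F ι : Type} [Field F] [Fintype ι] (v : ι → AbsoluteValue F ℝ) (l₀ : ι)
    (h₀ : (v l₀).IsNontrivial) : ∃ a : F, (∀ l, (v l).IsEquiv (v l₀) → 1 < v l a) ∧
      ∀ l, (v l).IsNontrivial → ¬ (v l).IsEquiv (v l₀) → v l a < 1 := by
  classical
  let S : Setoid {l // (v l).IsNontrivial} :=
    ⟨fun a b => (v a.1).IsEquiv (v b.1), ⟨fun _ => .rfl, fun h => h.symm, fun h h' => h.trans h'⟩⟩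
  have hout : ∀ a : {l // (v l).IsNontrivial},
      (v (Quotient.mk S a).out.1).IsEquiv (v a.1) := fun a => Quotient.mk_out (s := S) a
  obtain ⟨a, h1, h2⟩ := AbsoluteValue.exists_one_lt_lt_one_pi_of_not_isEquiv
    (v := fun q : Quotient S => v q.out.1) (fun q => q.out.2)
    (fun q q' hq h => hq (Quotient.out_equiv_out.1 h)) (Quotient.mk S ⟨l₀, h₀⟩)
  refine ⟨a, fun l hl => ?_, fun l hl hn => ?_⟩
  · exact hl.one_lt_iff.2 ((hout ⟨l₀, h₀⟩).one_lt_iff.1 h1)
  · exact (hout ⟨l, hl⟩).lt_one_iff.1 (h2 (Quotient.mk S ⟨l, hl⟩) fun h => hn (Quotient.exact h))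

end WAP

theorem wap : S_WAP := by
  intro F ι _ _ η v c p _ hna hp h0 t ht
  by_cases hex : ∃ l₀, p l₀ ∧ (v l₀).IsNontrivial
  swap
  · refine Finset.sum_eq_zero fun l hl => ?_
    have h1 : ¬ (v l).IsNontrivial := fun h => hex ⟨l, (Finset.mem_filter.1 hl).2, h⟩
    rw [AbsoluteValue.not_isNontrivial_apply h1 ht, log_one, mul_zero]
  obtain ⟨l₀, hl₀, hn₀⟩ := hex
  obtain ⟨a, ha1, ha2⟩ := WAP.exists_sep v l₀ hn₀
  have hp1 : ∀ l, p l → 1 < v l a := fun l hl =>
    ha1 l (((hp l).1 hl).trans ((hp l₀).1 hl₀).symm)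
  have hp2 : ∀ l, ¬ p l → (v l).IsNontrivial → v l a < 1 := fun l hl hn =>
    ha2 l hn fun h => hl ((hp l).2 (h.trans ((hp l₀).1 hl₀)))
  have ha0 : a ≠ 0 := fun h => by
    have := hp1 l₀ hl₀
    rw [h, map_zero] at this
    exact absurd this (by norm_num)
  have key : ∀ u : F, u ≠ 0 → ∀ᶠ n : ℕ in atTop,
      ∑ l with p l, c l * (log (v l u) + n * log (v l a)) = 0 := fun u hu => by
    have e1 : ∀ᶠ n : ℕ in atTop, ∀ l, p l → 1 < v l (u * a ^ n) := by
      refine eventually_all.2 fun l => ?_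
      by_cases hl : p l
      · have := (tendsto_pow_atTop_atTop_of_one_lt (hp1 l hl)).const_mul_atTop ((v l).pos hu)
        filter_upwards [this.eventually_gt_atTop 1] with n hn _
        rwa [map_mul, map_pow]
      · exact Eventually.of_forall fun _ h => absurd h hl
    have e2 : ∀ᶠ n : ℕ in atTop, ∀ l, ¬ p l → (v l).IsNontrivial → v l (u * a ^ n) < 1 := by
      refine eventually_all.2 fun l => ?_
      by_cases hl : ¬ p l ∧ (v l).IsNontrivial
      · have := (tendsto_pow_atTop_nhds_zero_of_lt_one ((v l).nonneg a)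
          (hp2 l hl.1 hl.2)).const_mul (v l u)
        rw [mul_zero] at this
        filter_upwards [this.eventually_lt_const one_pos] with n hn _ _
        rwa [map_mul, map_pow]
      · exact Eventually.of_forall fun _ h h' => absurd ⟨h, h'⟩ hl
    filter_upwards [e1, e2] with n h1 h2
    have h3 : ∀ l, p l → v l (1 + u * a ^ n) = v l (u * a ^ n) := fun l hl =>
      KSkew.na_eq_of_sub_lt (hna l) (by
        rw [sub_add_cancel_right, (v l).map_neg, map_one]
        exact h1 l hl)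
    have h4 : 1 + u * a ^ n ≠ 0 := fun h => by
      have h5 := h3 l₀ hl₀
      have h6 := h1 l₀ hl₀
      rw [h, map_zero] at h5
      rw [← h5] at h6
      exact absurd h6 (by norm_num)
    have h5 : ∀ l, ¬ p l → v l (1 + u * a ^ n) = 1 := fun l hl => by
      by_cases hn : (v l).IsNontrivial
      · rw [← map_one (v l)]
        refine KSkew.na_eq_of_sub_lt (hna l) ?_
        rw [sub_add_cancel_left, (v l).map_neg, map_one]
        exact h2 l hl hn
      · exact AbsoluteValue.not_isNontrivial_apply hn h4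
    have h6 := h0 _ h4
    rw [← Finset.sum_filter_add_sum_filter_not Finset.univ p,
      Finset.sum_eq_zero (s := Finset.univ.filter fun l => ¬ p l) (fun l hl => by
        rw [h5 l (Finset.mem_filter.1 hl).2, log_one, mul_zero]), add_zero] at h6
    rw [← h6]
    refine Finset.sum_congr rfl fun l hl => ?_
    rw [h3 l (Finset.mem_filter.1 hl).2, map_mul, map_pow,
      log_mul ((v l).ne_zero hu) (pow_ne_zero _ ((v l).ne_zero ha0)), log_pow]
  obtain ⟨n, h1, h2⟩ := ((key t ht).and (key 1 one_ne_zero)).exists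
  have h3 : ∑ l with p l, c l * log (v l t) =
      ∑ l with p l, c l * (log (v l t) + n * log (v l a))
        - ∑ l with p l, c l * (log (v l 1) + n * log (v l a)) := by
    rw [← Finset.sum_sub_distrib]
    refine Finset.sum_congr rfl fun l _ => ?_
    rw [map_one, log_one]
    ring
  rw [h3, h1, h2, sub_zero]

end Pool.Agent.KSP

end

end MrgPart4

-- ======== part 5: formerly Pool.Agent.MP_c8dfda_nt.kp.SHA
section MrgPart5

/-! Polynomial maps of the plane: the members of an eigenfamily extend uniquely. -/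

open Polynomial Filter Real
open scoped Topology

noncomputable section

namespace Pool.Agent.KSP

namespace SHA

variable {K : Type} [Field K] {ι : Type} [Fintype ι]

theorem exists_primes {a : R K} (ha : a ≠ 0) : ∃ (J : Type) (_ : Fintype J) (c : J → R K),
    (∀ j, Prime (c j)) ∧ (Pairwise fun j l => ¬ Associated (c j) (c l)) ∧
    ∀ c' : R K, Prime c' → c' ∣ a → ∃ j, Associated (c j) c' := by
  classical
  let _ : StrongNormalizationMonoid (R K) := UniqueFactorizationMonoid.strongNormalizationMonoid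
  refine ⟨(UniqueFactorizationMonoid.normalizedFactors a).toFinset, inferInstance, fun j => j.1,
    fun j => UniqueFactorizationMonoid.prime_of_normalized_factor _ (Multiset.mem_toFinset.1 j.2),
    fun j l hjl h => hjl (Subtype.ext ?_), fun c' hc hd => ?_⟩
  · exact UniqueFactorizationMonoid.mem_normalizedFactors_eq_of_associated
      (Multiset.mem_toFinset.1 j.2) (Multiset.mem_toFinset.1 l.2) h
  · obtain ⟨q, hq, h⟩ :=
      UniqueFactorizationMonoid.exists_mem_normalizedFactors_of_dvd ha hc.irreducible hd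
    exact ⟨⟨q, Multiset.mem_toFinset.2 hq⟩, h.symm⟩

theorem le_one_of_xx {v : AV K} (hv : NA K v) (h : ∀ j, v (io (xx j)) ≤ 1) (φ : R K) :
    v (io φ) ≤ 1 := by
  refine le_one_of_zz hv (le_antisymm (not_lt.1 fun h0 => ?_) (zz_nonneg v)) φ
  obtain ⟨j, hj⟩ := nontrivial_of_zz h0
  exact hj.not_ge (h j)

theorem zz_pos {v : AV K} (hv : NA K v) {φ : R K} (h : 1 < v (io φ)) : 0 < zz v :=
  (zz_nonneg v).lt_of_ne fun h0 => h.not_ge (le_one_of_zz hv h0.symm φ)

/-- every member of a second family with the same thin sequence is equivalent to a member of the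
first family -/
theorem equiv [CharZero K] (h5 : S_KLA) (h6 : S_WAP) {κ : Type} [Fintype κ] {N : ι → AV K}
    {B : κ → AV K} {G : ℕ → R K} (hN : Fam N) (hB : Fam B) (tN : Thin N G) (tB : Thin B G)
    (b : κ) : ∃ i, (N i).IsEquiv (B b) := by
  classical
  by_contra hne
  push Not at hne
  have rel : ∀ t : M K, t ≠ 0 →
      ∑ l : ι ⊕ κ, Sum.elim (fun _ => ZZ B) (fun _ => -ZZ N) l * log (Sum.elim N B l t) = 0 := by
    intro t ht
    obtain ⟨f, g, hg, rfl⟩ := exists_io t
    have hf : f ≠ 0 := by rintro rfl; simp at ht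
    have key : ∀ v : AV K, log (v (io f / io g)) = lg v f - lg v g := fun v => by
      rw [map_div₀, log_div (v.ne_zero (io_ne hf)) (v.ne_zero (io_ne hg))]; rfl
    have e1 := h5 K ι N hN κ B G hB tN tB f hf
    have e2 := h5 K ι N hN κ B G hB tN tB g hg
    simp only [Fintype.sum_sum_type, Sum.elim_inl, Sum.elim_inr, key, ← Finset.mul_sum,
      Finset.sum_sub_distrib]
    simp only [Nn] at e1 e2
    linarith
  obtain ⟨j, hj⟩ := nontrivial_of_zz (hB.inf b)
  have h0 := h6 (M K) (ι ⊕ κ) (B b) (Sum.elim N B) _ (fun l => (Sum.elim N B l).IsEquiv (B b))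
    (fun l => by
      rcases l with l | l
      exacts [(hN.na l).1, (hB.na l).1]) (fun _ => Iff.rfl) rel (io (xx j)) (io_ne (xx_ne j))
  refine absurd h0 (ne_of_lt (Finset.sum_neg (fun l hl => ?_) ⟨Sum.inr b, by
    simpa using AbsoluteValue.IsEquiv.rfl⟩))
  have hl := (Finset.mem_filter.1 hl).2
  rcases l with l | l
  · exact absurd hl (hne l)
  · have : 1 < B l (io (xx j)) := (AbsoluteValue.IsEquiv.one_lt_iff hl).2 hj
    exact mul_neg_of_neg_of_pos (neg_neg_of_pos hN.ZZ_pos) (log_pos this)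

variable {N : ι → AV K} {s : R K →ₐ[K] R K} {σ : M K →ₐ[K] M K} {μ : ℝ}

omit [Fintype ι] in
theorem one_lt_eig (h : Per N σ μ) {i : ι} {t : M K} (ht : 1 < N i t) : 1 < N i (σ t) := by
  rw [h.eig]; exact one_lt_rpow ht h.pos

/-- an extension that is equivalent to a member of the family -/
theorem eq_of_equiv (hE : Eig N s σ μ) {i i' : ι} {η : AV K} (hη : ∀ b, η (σ b) = N i (σ b))
    (h : (N i').IsEquiv η) : η = N i := by
  have hi : i' = i := by
    by_contra hne
    refine hE.ineq hne fun a b => ?_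
    have := h (σ a) (σ b)
    rwa [hη, hη, hE.eig, hE.eig, hE.eig, hE.eig,
      rpow_le_rpow_iff ((N i').nonneg _) ((N i').nonneg _) hE.pos,
      rpow_le_rpow_iff ((N i).nonneg _) ((N i).nonneg _) hE.pos] at this
  subst hi
  obtain ⟨e, -, he⟩ := AbsoluteValue.isEquiv_iff_exists_rpow_eq.1 h
  obtain ⟨j, hj⟩ := nontrivial_of_zz (hE.inf i')
  have h1 := one_lt_eig hE.toPer hj
  have h2 : N i' (σ (io (xx j))) ^ e = N i' (σ (io (xx j))) ^ (1 : ℝ) := by
    rw [rpow_one]
    exact (congrFun he _).trans (hη _)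
  have h3 : e = 1 := by
    rwa [rpow_right_inj (by linarith) h1.ne'] at h2
  ext a
  rw [← he, h3]
  exact rpow_one _

theorem core [CharZero K] (h1 : S_EMB) (h3 : S_ORF) (h4 : S_DEN) (h5 : S_KLA) (h6 : S_WAP)
    (hE : Eig N s σ μ) {J : Type} [Fintype J] {c : J → R K} {o : J → AV K}
    (hc : ∀ j, Prime (c j) ∧ Od (c j) (o j)) (hp : Pairwise fun j l => ¬ Associated (c j) (c l))
    {a : R K} (ha : Den s a) (hd : ∀ c' : R K, Prime c' → c' ∣ a → ∃ j, Associated (c j) c')
    {η₀ : ι → AV K} (hη : ∀ i, NA K (η₀ i) ∧ ∀ b, η₀ i (σ b) = N i (σ b))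
    {θ₀ : J → AV K} (hθ : ∀ j, NA K (θ₀ j) ∧ ∀ b, θ₀ j (σ b) = o j b) :
    (∀ i, η₀ i = N i) ∧ ∀ j, 0 < Nn N (c j) → ∀ φ, θ₀ j (io φ) ≤ 1 := by
  classical
  obtain ⟨ext, ch, tr, -, -, -, hfam⟩ := h1 K σ
  choose η e1 e2 e3 using fun i => hfam (η₀ i) (hη i).1
  choose θ f1 f2 f3 using fun j => hfam (θ₀ j) (hθ j).1
  have hpos : ∀ p : {j // 0 < Nn N (c j)} × Fin (qq σ), 0 < μ * Nn N (c p.1.1) :=
    fun p => mul_pos hE.pos p.1.2
  choose θ' g1 g2 g3 using fun p : {j // 0 < Nn N (c j)} × Fin (qq σ) =>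
    exists_AV_rpow (f2 p.1.1 p.2).1 (hpos p)
  have e4 : ∀ i k b, η i k (σ b) = N i (σ b) := fun i k b => by rw [(e2 i k).2, (hη i).2]
  have f4 : ∀ j k b, θ j k (σ b) = o j b := fun j k b => by rw [(f2 j k).2, (hθ j).2]
  have g4 : ∀ p φ, θ' p (σ (io φ)) ≤ 1 := fun p φ => by
    rw [g2, f4]
    exact rpow_le_one ((o _).nonneg _) ((hc _).2.le φ) (hpos p).le
  let B : (ι × Fin (qq σ)) ⊕ ({j // 0 < Nn N (c j)} × Fin (qq σ)) → AV K :=
    Sum.elim (fun p => η p.1 p.2) θ'
  have hB0 : Fam0 B := by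
    refine ⟨fun b => ?_, fun φ hφ => ?_⟩
    · rcases b with b | b
      exacts [(e2 _ _).1, g1 _]
    obtain ⟨i₀⟩ := hE.ne
    have hν : (ch (io φ)).coeff 0 ≠ 0 := fun h => by
      have := (e3 i₀ (io φ)).1
      rw [h, map_zero, map_zero, Finset.prod_eq_zero_iff] at this
      obtain ⟨k, -, hk⟩ := this
      exact (η i₀ k).ne_zero (io_ne hφ) hk
    obtain ⟨ψ, k, hψ, hk, hk'⟩ := h3 K J c o hc hp _ hν fun c' o' p' o'' hna => by
      obtain ⟨ζ₀, z1, z2⟩ := ext o' o''.na
      obtain ⟨ζ, -, z3, z4⟩ := hfam ζ₀ z1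
      rw [← z2, ← (z4 (io φ)).1]
      refine Finset.prod_le_one (fun _ _ => (ζ _).nonneg _) fun k _ => ?_
      refine le_one_of_xx (z3 k).1 (fun j => ?_) φ
      have := (h4 K s σ hE.cmp).2.1 a ha (ζ k) (z3 k).1
        (fun φ => by rw [(z3 k).2, z2]; exact o''.le φ) j
      rwa [map_mul, (z3 k).2, z2, o''.one a fun h => ?_, one_mul] at this
      obtain ⟨j, hj⟩ := hd c' p' h
      exact hna j hj
    have s1 : ∀ i, ∑ k', lg (η i k') φ = μ * (lg (N i) ψ + ∑ j, k j * lg (N i) (c j)) := fun i => by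
      have := congrArg log (e3 i (io φ)).1
      rw [log_prod fun k' _ => (η i k').ne_zero (io_ne hφ), (hη i).2, hE.eig,
        log_rpow ((N i).pos hν), hk, map_mul, map_prod,
        log_mul ((N i).ne_zero (io_ne hψ)) (Finset.prod_ne_zero_iff.2 fun j _ =>
          (N i).ne_zero (zpow_ne_zero _ (io_ne (hc j).1.ne_zero))),
        log_prod fun j _ => (N i).ne_zero (zpow_ne_zero _ (io_ne (hc j).1.ne_zero))] at this
      simpa only [map_zpow₀, log_zpow, lg] using this
    have s2 : ∀ j : {j // 0 < Nn N (c j)}, ∑ k', lg (θ' (j, k')) φ = -(μ * (k j * Nn N (c j))) :=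
      fun j => by
      have := congrArg log (f3 j.1 (io φ)).1
      rw [log_prod fun k' _ => (θ j.1 k').ne_zero (io_ne hφ), (hθ j.1).2, hk'] at this
      simp only [lg, g3, ← Finset.mul_sum, this]
      ring
    have s3 : ∑ j : {j // 0 < Nn N (c j)}, k j * Nn N (c j) = ∑ j, k j * Nn N (c j) := by
      rw [← Fintype.sum_subtype_add_sum_subtype (fun j => 0 < Nn N (c j))
        fun j => k j * Nn N (c j), Finset.sum_eq_zero (s := Finset.univ)
          (f := fun j : {j // ¬ 0 < Nn N (c j)} => k j * Nn N (c j)) fun j _ => by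
            rw [le_antisymm (not_lt.1 j.2) (hE.pf _ (hc j).1.ne_zero), mul_zero], add_zero]
    have s4 : ∑ i, ∑ j, k j * lg (N i) (c j) = ∑ j, k j * Nn N (c j) := by
      rw [Finset.sum_comm]
      simp only [Nn, Finset.mul_sum]
    have s5 : Nn B φ = μ * Nn N ψ := by
      show ∑ b, lg (B b) φ = μ * ∑ i, lg (N i) ψ
      simp only [B, Fintype.sum_sum_type, Sum.elim_inl, Sum.elim_inr, Fintype.sum_prod_type, s1, s2]
      rw [Finset.sum_neg_distrib, ← Finset.mul_sum, ← Finset.mul_sum, s3, Finset.sum_add_distrib, s4]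
      ring
    rw [s5]
    exact mul_nonneg hE.pos.le (hE.pf ψ hψ)
  have hz : ∀ i k, 0 < zz (η i k) := fun i k => by
    obtain ⟨j, hj⟩ := nontrivial_of_zz (hE.inf i)
    refine zz_pos (e2 i k).1 (φ := s (xx j)) ?_
    rw [← hE.cmp, e4]
    exact one_lt_eig hE.toPer hj
  obtain ⟨i₀⟩ := hE.ne
  obtain ⟨k₀, -⟩ := e1 i₀
  obtain ⟨hB, hh', -⟩ := hB0.drop ⟨Sum.inl (i₀, k₀), hz i₀ k₀⟩
  obtain ⟨G, hG⟩ := hE.thin
  have hhB : ∀ φ, hh B (s φ) = qq σ * hh N (s φ) := fun φ => by
    have a1 : ∀ i k, lp (η i k) (s φ) = lp (N i) (s φ) := fun i k => by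
      rw [lp, lp, lg, lg, ← hE.cmp, e4]
    have a2 : ∀ p, lp (θ' p) (s φ) = 0 := fun p => by
      rw [lp, lg, ← hE.cmp]
      exact max_eq_left (log_nonpos ((θ' p).nonneg _) (g4 p φ))
    simp only [hh, B, Fintype.sum_sum_type, Sum.elim_inl, Sum.elim_inr, Fintype.sum_prod_type,
      a1, a2, Finset.sum_const, Finset.card_univ, Fintype.card_fin, nsmul_eq_mul, mul_zero,
      add_zero, Finset.mul_sum]
  have tB : Thin (fun b : {b // 0 < zz (B b)} => B b.1) fun n => s (G n) := by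
    refine ⟨hG.1, ?_⟩
    simp only [hh', hhB, mul_div_assoc]
    simpa using hG.2.const_mul (qq σ : ℝ)
  have key := fun b => equiv h5 h6 hE.toFam hB hG tB b
  refine ⟨fun i => ?_, fun j hj φ => ?_⟩
  · obtain ⟨k, hk⟩ := e1 i
    obtain ⟨i', hi'⟩ := key ⟨Sum.inl (i, k), hz i k⟩
    rw [← hk]
    exact eq_of_equiv hE (e4 i k) hi'
  · obtain ⟨k, hk⟩ := f1 j
    have h0 : zz (θ' (⟨j, hj⟩, k)) = 0 := by
      refine le_antisymm (not_lt.1 fun h0 => ?_) (zz_nonneg _)
      obtain ⟨i', hi'⟩ := key ⟨Sum.inr (⟨j, hj⟩, k), h0⟩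
      obtain ⟨l, hl⟩ := nontrivial_of_zz (hE.inf i')
      exact ((AbsoluteValue.IsEquiv.one_lt_iff hi').1 (one_lt_eig hE.toPer hl)).not_ge (g4 _ _)
    have := le_one_of_zz (g1 _) h0 φ
    rw [g2, hk] at this
    exact not_lt.1 fun h => (one_lt_rpow h (hpos _)).not_ge this

end SHA

theorem sha (h1 : S_EMB) (h2 : S_ORD) (h3 : S_ORF) (h4 : S_DEN) (h5 : S_KLA) (h6 : S_WAP) :
    S_SHA := by
  intro K ι _ _ _ N s σ μ hE
  classical
  obtain ⟨a, ha⟩ := (h4 K s σ hE.cmp).1
  refine ⟨fun i η hη hη' => ?_, fun c o η hc ho hpos hη hη' => ?_⟩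
  · obtain ⟨J, _, c, c1, c2, c3⟩ := SHA.exists_primes ha.1
    choose o ho using fun j => (h2 K).1 (c j) (c1 j)
    choose θ t1 t2 using fun j => (h1 K σ).1 (o j) (ho j).na
    have := (SHA.core h1 h3 h4 h5 h6 hE (fun j => ⟨c1 j, ho j⟩) c2 ha c3
      (η₀ := Function.update N i η) (fun l => ?_) (fun j => ⟨t1 j, t2 j⟩)).1 i
    · rwa [Function.update_self] at this
    · by_cases hl : l = i
      · subst hl
        rw [Function.update_self]
        exact ⟨hη, hη'⟩
      · rw [Function.update_of_ne hl]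
        exact ⟨hE.na l, fun _ => rfl⟩
  · obtain ⟨J, _, d, c1, c2, c3⟩ := SHA.exists_primes (mul_ne_zero ha.1 hc.ne_zero)
    choose p hp using fun j => (h2 K).1 (d j) (c1 j)
    choose θ t1 t2 using fun j => (h1 K σ).1 (p j) (hp j).na
    obtain ⟨j₀, hj₀⟩ := c3 c hc (dvd_mul_left _ _)
    have e : p j₀ = o := (h2 K).2.1 _ _ _ _ (c1 j₀) hj₀ (hp j₀) ho
    have := (SHA.core h1 h3 h4 h5 h6 hE (fun j => ⟨c1 j, hp j⟩) c2 ha
      (fun c' hc' h => c3 c' hc' (h.mul_right _)) (η₀ := N) (fun l => ⟨hE.na l, fun _ => rfl⟩)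
      (θ₀ := Function.update θ j₀ η) (fun l => ?_)).2 j₀ ?_
    · rwa [Function.update_self] at this
    · by_cases hl : l = j₀
      · subst hl
        rw [Function.update_self, e]
        exact ⟨hη, hη'⟩
      · rw [Function.update_of_ne hl]
        exact ⟨t1 l, t2 l⟩
    · obtain ⟨u, hu⟩ := hj₀.symm
      rw [← hu, Nn_mul N hc.ne_zero u.ne_zero]
      exact add_pos_of_pos_of_nonneg hpos (hE.pf _ u.ne_zero)

end Pool.Agent.KSP

end

end MrgPart5

-- ======== part 6: formerly Pool.Agent.MP_c8dfda_nt.kp.STR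
section MrgPart6

/-! Polynomial maps of the plane: the case distinction. -/

open Polynomial Filter Real
open scoped Topology

noncomputable section

namespace Pool.Agent.KSP

namespace STR

variable {K : Type} [Field K]

theorem JJ_ne {s : R K →ₐ[K] R K} (inj : Function.Injective s) (h : JJ s ≠ 0) (n : ℕ) :
    JJ (s ^ n) ≠ 0 := by
  induction n with
  | zero => simp [JJ, jac]
  | succ n ih =>
    rw [pow_succ', JJ_mul]
    exact mul_ne_zero h ((map_ne_zero_iff _ inj).2 ih)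

theorem dg_JJ {s : R K →ₐ[K] R K} (inj : Function.Injective s) {n : ℕ} (hn : 1 ≤ n)
    (h : dg (JJ (s ^ n)) = 0) : dg (JJ s) = 0 := by
  by_cases h0 : JJ s = 0
  · simp [h0]
  obtain ⟨k, rfl⟩ : ∃ k, n = k + 1 := ⟨n - 1, by omega⟩
  rw [pow_succ', JJ_mul, dg_mul h0 ((map_ne_zero_iff _ inj).2 (JJ_ne inj h0 k))] at h
  omega

end STR

theorem str (h1 : S_PERM) (h2 : S_RELD) (h3 : S_TRI) (h4 : S_SHARP) (h5 : S_TWO) (h6 : S_UST)
    (h7 : S_RAC) (h8 : S_ONE) (h9 : S_PEN0) (h10 : S_TOW) : S_STR := by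
  intro K ι _ _ _ N₀ s σ δ β hc hL b0 bδ hN₀
  obtain ⟨κ, _, N, m, μ, m1, hN, hP⟩ := h1 K ι N₀ s σ δ β hc hL b0 bδ hN₀
  obtain ⟨e1, e2, hE⟩ := h2 K κ N s σ δ β hc hL b0 bδ hN m μ m1 hP
  have μ0 := hP.pos
  have δ0 : 0 < δ := one_pos.trans hL.one
  by_cases hi : Irrational (μ ^ 2)
  · have hi' : Irrational μ := Irrational.of_pow 2 hi
    have E := hE 1 le_rfl
    rw [mul_one, pow_one] at E
    have t2 : ∀ i, T2 (N i) ∧ RA (N i) := fun i => by
      refine (h3 K (N i) (E.na i) (E.inf i)).resolve_right fun h => hi' ?_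
      obtain ⟨j, hj⟩ := exists_lg_xx (E.inf i)
      obtain ⟨r, hr⟩ := h _ (E.cmp.ne (xx_ne j))
      rw [E.toPer.lg_eq E.cmp, hj, mul_comm] at hr
      exact ⟨r, (mul_left_cancel₀ (E.inf i).ne' hr).symm⟩
    obtain ⟨hu, a, ha, ha0⟩ := h4 K κ N _ _ _ E
    obtain ⟨i⟩ := E.ne
    exact ⟨m, m1, Or.inl (h6 K κ N _ _ _ E hi' t2 a
      (h5 K κ N _ _ _ E hi i (t2 i).1 (hu i) a ha) ha0)⟩
  obtain ⟨r, hr⟩ : ∃ r : ℚ, (r : ℝ) = μ ^ 2 := not_not.1 hi
  have E := hE 2 (by norm_num)
  have m2 : 1 ≤ m * 2 := by omega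
  have q2 : qq (σ ^ (m * 2)) = qq σ ^ (m * 2) := (h10 K σ).2.2 _
  have f1 : μ ^ 2 * δ ^ (m * 2) = (qq σ : ℝ) ^ (m * 2) := by
    rw [pow_mul, pow_mul, ← mul_pow, e1]
  have f2 : μ ^ 2 < δ ^ (m * 2) := by
    rw [pow_mul]; exact pow_lt_pow_left₀ e2 μ0.le two_ne_zero
  refine ⟨m * 2, m2, Or.inr ?_⟩
  by_cases hR : ∃ i, RA (N i)
  · obtain ⟨i, hi⟩ := hR
    refine Or.inr (Or.inl ?_)
    rcases h7 K κ N _ _ _ E r hr.symm i hi with h | ⟨a, ha⟩
    · rw [q2, Nat.cast_pow, ← f1, sq (μ ^ 2)] at h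
      exact absurd (mul_left_cancel₀ (pow_pos μ0 2).ne' h) f2.ne'
    have r0 : 0 < r := by
      have : (0 : ℝ) < r := hr ▸ pow_pos μ0 2
      exact_mod_cast this
    have n0 : 0 < r.num := Rat.num_pos.2 r0
    have q1 : 1 ≤ qq σ := (h10 K σ).2.1
    have Q0 : (0 : ℤ) < qq (σ ^ (m * 2)) := by
      rw [q2]; exact_mod_cast pow_pos q1 _
    have a0 : 0 < a := by
      rw [ha] at n0
      exact (mul_pos_iff_of_pos_left Q0).1 n0
    obtain ⟨a, rfl⟩ := Int.eq_ofNat_of_zero_le a0.le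
    refine ⟨a, r.den, by exact_mod_cast a0, ?_, ?_⟩
    · have g1 : (r.num : ℝ) = μ ^ 2 * r.den := by
        rw [← hr]; exact_mod_cast (Rat.mul_den_eq_num r).symm
      have g2 : (r.num : ℝ) = (qq σ : ℝ) ^ (m * 2) * a := by
        rw [ha, q2]; push_cast; ring
      rw [g2, ← f1, mul_assoc] at g1
      exact mul_left_cancel₀ (pow_pos μ0 2).ne' g1
    · have g : r.num.natAbs = qq σ ^ (m * 2) * a := by
        rw [ha, q2, Int.natAbs_mul, Int.natAbs_natCast, Int.natAbs_natCast]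
      have hd : qq σ ∣ r.num.natAbs := g ▸ (dvd_pow_self _ (by omega)).mul_right _
      exact (Nat.Coprime.coprime_dvd_left hd r.reduced).symm
  rcases h8 K κ N _ _ _ E (fun i hi => hR ⟨i, hi⟩) with ⟨u, u1, hu⟩ | ⟨g1, g2⟩
  · exact Or.inl (h9 K κ N s σ δ β hc hL b0 bδ hN _ _ u m2 E.toPer u1 hu)
  · refine Or.inr (Or.inr ⟨STR.dg_JJ hc.inj m2 g2, ?_⟩)
    rw [g1, one_mul] at f1
    exact (pow_left_inj₀ δ0.le (Nat.cast_nonneg _) (by omega)).1 f1

end Pool.Agent.KSP

end

end MrgPart6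

-- ======== part 7: formerly Pool.Agent.MP_c8dfda_nt.kp.HB
section MrgPart7

/-! Polynomial maps of the plane: elementary height bounds. -/

open Polynomial Filter Real
open scoped Topology

noncomputable section

namespace Pool.Agent.KSP

namespace HB

open Height

theorem exists_hom {K : Type} [Field K] (φ : R K) (N : ℕ) (h : dg φ ≤ N) :
    ∃ Φ : MvPolynomial (Fin 3) K, Φ.IsHomogeneous N ∧
      ∀ P : Fin 2 → K, MvPolynomial.eval ![P 0, P 1, 1] Φ = MvPolynomial.eval P φ := by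
  refine ⟨∑ i ∈ Finset.range (dg φ + 1),
    MvPolynomial.rename Fin.castSucc (MvPolynomial.homogeneousComponent i φ) *
      MvPolynomial.X 2 ^ (N - i), ?_, fun P => ?_⟩
  · refine MvPolynomial.IsHomogeneous.sum _ _ _ fun i hi => ?_
    have hi' : i ≤ N := (Nat.lt_succ_iff.mp (Finset.mem_range.mp hi)).trans h
    have h1 : (MvPolynomial.rename (Fin.castSucc : Fin 2 → Fin 3)
        (MvPolynomial.homogeneousComponent i φ)).IsHomogeneous i :=
      (MvPolynomial.homogeneousComponent_isHomogeneous i φ).rename_isHomogeneous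
    have h2 : ((MvPolynomial.X 2 : MvPolynomial (Fin 3) K) ^ (N - i)).IsHomogeneous (N - i) :=
      MvPolynomial.isHomogeneous_X_pow _ _
    have h3 := h1.mul h2
    rwa [Nat.add_sub_cancel' hi'] at h3
  · have hP : (![P 0, P 1, 1] : Fin 3 → K) ∘ Fin.castSucc = P := by
      ext i
      fin_cases i <;> rfl
    conv_rhs => rw [← MvPolynomial.sum_homogeneousComponent φ]
    rw [map_sum, map_sum]
    refine Finset.sum_congr rfl fun i _ => ?_
    rw [map_mul, map_pow, MvPolynomial.eval_X, MvPolynomial.eval_rename, hP]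
    simp

variable {K : Type} [Field K] [NumberField K]

theorem le_left (a b : K) : logHeight₁ a ≤ logHeight ![a, b, 1] := by
  have h : (![a, 1] : Fin 2 → K) = (![a, b, 1] : Fin 3 → K) ∘ (![0, 2] : Fin 2 → Fin 3) := by
    ext i
    fin_cases i <;> simp
  rw [logHeight₁_eq_logHeight, h]
  exact logHeight_comp_le _ _

theorem le_right (a b : K) : logHeight₁ b ≤ logHeight ![a, b, 1] := by
  have h : (![b, 1] : Fin 2 → K) = (![a, b, 1] : Fin 3 → K) ∘ (![1, 2] : Fin 2 → Fin 3) := by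
    ext i
    fin_cases i <;> simp
  have h1 := logHeight_comp_le (![1, 2] : Fin 2 → Fin 3) (![a, b, 1] : Fin 3 → K)
  rw [← h] at h1
  rw [logHeight₁_eq_logHeight]
  exact h1

theorem le_add (a b : K) : logHeight ![a, b, 1] ≤ logHeight₁ a + logHeight₁ b := by
  have h : (![a, b, 1] : Fin 3 → K) = ((![a, 1] : Fin 2 → K) ∘ (![0, 1, 1] : Fin 3 → Fin 2)) *
      ((![b, 1] : Fin 2 → K) ∘ (![1, 0, 1] : Fin 3 → Fin 2)) := by
    ext i
    fin_cases i <;> simp
  rw [h, logHeight₁_eq_logHeight, logHeight₁_eq_logHeight]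
  refine (logHeight_mul_le _ _).trans (add_le_add ?_ ?_)
  · exact logHeight_comp_le (![0, 1, 1] : Fin 3 → Fin 2) (![a, 1] : Fin 2 → K)
  · exact logHeight_comp_le (![1, 0, 1] : Fin 3 → Fin 2) (![b, 1] : Fin 2 → K)

theorem pair (φ ψ : R K) (N : ℕ) (h : dg φ ≤ N) (h' : dg ψ ≤ N) : ∃ C : ℝ, ∀ P : Fin 2 → K,
    logHeight ![MvPolynomial.eval P φ, MvPolynomial.eval P ψ, 1] ≤ N * Ht P + C := by
  obtain ⟨Φ, hΦ, eΦ⟩ := exists_hom φ N h
  obtain ⟨Ψ, hΨ, eΨ⟩ := exists_hom ψ N h'
  have hp : ∀ i, ((![Φ, Ψ, MvPolynomial.X 2 ^ N] : Fin 3 → MvPolynomial (Fin 3) K) i).IsHomogeneous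
      N := by
    intro i
    fin_cases i
    · exact hΦ
    · exact hΨ
    · exact MvPolynomial.isHomogeneous_X_pow _ _
  obtain ⟨C, hC⟩ := logHeight_eval_le' hp
  refine ⟨C, fun P => ?_⟩
  have h1 := hC ![P 0, P 1, 1]
  have h2 : (fun j => MvPolynomial.eval ![P 0, P 1, 1]
      ((![Φ, Ψ, MvPolynomial.X 2 ^ N] : Fin 3 → MvPolynomial (Fin 3) K) j)) =
      ![MvPolynomial.eval P φ, MvPolynomial.eval P ψ, 1] := by
    ext i
    fin_cases i
    · exact eΦ P
    · exact eΨ P
    · simp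
  rw [h2] at h1
  unfold Ht
  linarith

theorem coord (P : Fin 2 → K) (j : Fin 2) : logHeight₁ (P j) ≤ Ht P := by
  fin_cases j
  · exact le_left _ _
  · exact le_right _ _

end HB

theorem hb : S_HB := by
  intro K _ _
  refine ⟨fun φ => ?_, fun s => ?_, HB.coord, fun P => HB.le_add _ _, fun B => ?_⟩
  · obtain ⟨C, hC⟩ := HB.pair φ φ (dg φ) le_rfl le_rfl
    exact ⟨C, fun P => (HB.le_left _ _).trans (hC P)⟩
  · obtain ⟨C, hC⟩ := HB.pair (s (xx 0)) (s (xx 1)) (dd s) (dg_xx_le s 0) (dg_xx_le s 1)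
    exact ⟨C, fun P => hC P⟩
  · refine (Set.Finite.pi' fun _ : Fin 2 =>
      NumberField.finite_setOfPred_logHeight₁_le K B).subset fun P hP j => ?_
    exact (HB.coord P j).trans hP

end Pool.Agent.KSP

end

end MrgPart7

-- ======== part 8: formerly Pool.Agent.MP_c8dfda_nt.kp.UN1
section MrgPart8

/-! Polynomial maps of the plane: growth of integer vectors under an integer matrix. -/

open Polynomial Filter Real
open scoped Topology

noncomputable section

namespace Pool.Agent.KSP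

namespace UN1

theorem rec_le {u : ℕ → ℝ} {r γ K : ℝ} (hr : 0 ≤ r) (h : r < γ)
    (hu : ∀ n, u (n + 1) ≤ r * u n + K * γ ^ n) : ∃ D : ℝ, ∀ n, u n ≤ D * γ ^ n := by
  have γ0 : 0 < γ := hr.trans_lt h
  refine ⟨max (u 0) (K / (γ - r)), fun n => ?_⟩
  have k : K ≤ max (u 0) (K / (γ - r)) * (γ - r) :=
    (div_le_iff₀ (sub_pos.2 h)).1 (le_max_right _ _)
  induction n with
  | zero => simp
  | succ n ih =>
    have k1 := mul_le_mul_of_nonneg_left ih hr
    have k2 := mul_le_mul_of_nonneg_right k (pow_pos γ0 n).le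
    rw [pow_succ]
    linarith [hu n]

variable {J : Type} [Fintype J] [DecidableEq J]

theorem grow (A : Matrix J J ℂ) {γ : ℝ} (s : Multiset ℂ) (hs : ∀ z ∈ s, ‖z‖ < γ)
    (B : Matrix J J ℂ) (hB : aeval A (s.map fun z => X - C z).prod * B = 0) (j l : J) :
    ∃ D : ℝ, ∀ n, ‖(A ^ n * B) j l‖ ≤ D * γ ^ n := by
  induction s using Multiset.induction_on generalizing B with
  | empty =>
    rw [Multiset.map_zero, Multiset.prod_zero, map_one, one_mul] at hB
    exact ⟨0, fun n => by simp [hB]⟩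
  | cons z s ih =>
    rw [Multiset.map_cons, Multiset.prod_cons, mul_comm, map_mul, mul_assoc] at hB
    obtain ⟨K, hK⟩ := ih (fun y hy => hs y (Multiset.mem_cons_of_mem hy)) _ hB
    refine rec_le (K := K) (norm_nonneg z) (hs z (Multiset.mem_cons_self _ _)) fun n => ?_
    have e : A ^ (n + 1) * B = z • (A ^ n * B) + A ^ n * (aeval A (X - C z) * B) := by
      rw [map_sub, aeval_X, aeval_C, Algebra.algebraMap_eq_smul_one, sub_mul, mul_sub, smul_mul_assoc,
        one_mul, mul_smul_comm, pow_succ, mul_assoc]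
      abel
    rw [e, Matrix.add_apply, Matrix.smul_apply, smul_eq_mul]
    exact (norm_add_le _ _).trans (add_le_add (norm_mul _ _).le (hK n))

theorem root (A : Matrix J J ℤ) {δ C : ℝ} (hδ : 1 < δ)
    (h : ∀ n, δ ^ n ≤ C * ∑ j, ∑ l, |((A ^ n) j l : ℝ)|) :
    ∃ z : ℂ, δ ≤ ‖z‖ ∧ ∀ p : ℤ[X], aeval A p = 0 → aeval z p = 0 := by
  let f : Matrix J J ℤ →+* Matrix J J ℂ := (Int.castRingHom ℂ).mapMatrix
  have hm := minpoly.monic (Matrix.isIntegral (f A))
  by_cases hz : ∃ z ∈ (minpoly ℂ (f A)).roots, δ ≤ ‖z‖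
  · obtain ⟨z, z1, z2⟩ := hz
    refine ⟨z, z2, fun p hp => ?_⟩
    have k : aeval (f A) (p.map (algebraMap ℤ ℂ)) = 0 := by
      rw [← map_aeval_eq_aeval_map (RingHom.ext_int _ _), hp, map_zero]
    have := (isRoot_of_mem_roots z1).dvd (minpoly.dvd ℂ _ k)
    rwa [IsRoot.def, eval_map_algebraMap] at this
  · exfalso
    push Not at hz
    have e1 : ∀ᶠ γ in 𝓝[<] δ, ∀ z ∈ (minpoly ℂ (f A)).roots.toFinset, ‖z‖ < γ :=
      (eventually_all_finset _).2 fun z k =>
        (eventually_gt_nhds (hz z (Multiset.mem_toFinset.1 k))).filter_mono nhdsWithin_le_nhds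
    have e2 : ∀ᶠ γ in 𝓝[<] δ, 0 < γ :=
      (eventually_gt_nhds (one_pos.trans hδ)).filter_mono nhdsWithin_le_nhds
    obtain ⟨γ, ⟨g1, g2⟩, g3⟩ := ((e1.and e2).and self_mem_nhdsWithin).exists
    have g3 : γ < δ := g3
    have k := grow (f A) _ (fun z k => g1 z (Multiset.mem_toFinset.2 k)) 1 (by
      rw [← (IsAlgClosed.splits _).eq_prod_roots_of_monic hm, minpoly.aeval, zero_mul])
    choose D hD using k
    have k2 : ∀ n, ∑ j, ∑ l, |((A ^ n) j l : ℝ)| ≤ (∑ j, ∑ l, D j l) * γ ^ n := fun n => by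
      simp only [Finset.sum_mul]
      refine Finset.sum_le_sum fun j _ => Finset.sum_le_sum fun l _ => ?_
      have := hD j l n
      rw [mul_one, ← map_pow] at this
      refine le_trans (le_of_eq ?_) this
      exact (Complex.norm_intCast _).symm
    obtain ⟨n, hn⟩ := pow_unbounded_of_one_lt (|C| * ∑ j, ∑ l, D j l) ((one_lt_div g2).2 g3)
    rw [div_pow, lt_div_iff₀ (pow_pos g2 n), mul_assoc] at hn
    refine hn.not_ge ((h n).trans ((mul_le_mul_of_nonneg_right (le_abs_self C) ?_).trans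
      (mul_le_mul_of_nonneg_left (k2 n) (abs_nonneg C))))
    positivity

theorem low (A : Matrix J J ℤ) (w : J → ℤ) (z : ℂ)
    (h : ∀ p : ℤ[X], (aeval A p).mulVec w = 0 → aeval z p = 0) :
    ∃ c : ℝ, 0 < c ∧ ∀ n, c * ‖z‖ ^ n ≤ ∑ j, |((A ^ n).mulVec w j : ℝ)| := by
  let E : ℤ[X] →ₗ[ℤ] J → ℤ :=
    ((Matrix.mulVecBilin ℤ ℤ).flip w).comp (aeval A : ℤ[X] →ₐ[ℤ] Matrix J J ℤ).toLinearMap
  have hE : ∀ p, E p = (aeval A p).mulVec w := fun _ => rfl
  let F : ℤ[X] →ₗ[ℤ] ℂ := (aeval z : ℤ[X] →ₐ[ℤ] ℂ).toLinearMap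
  have hk : LinearMap.ker E ≤ LinearMap.ker F := fun p hp => h p hp
  obtain ⟨l, hl⟩ := (Module.Baer.of_divisible ℂ).extension_property
    ((LinearMap.ker E).liftQ E le_rfl)
    (LinearMap.ker_eq_bot.1 (Submodule.ker_liftQ_eq_bot _ _ _ le_rfl))
    ((LinearMap.ker E).liftQ F hk)
  have k : ∀ n : ℕ, l ((A ^ n).mulVec w) = z ^ n := fun n => by
    have := LinearMap.congr_fun hl (Submodule.Quotient.mk (X ^ n))
    rw [LinearMap.comp_apply, Submodule.liftQ_apply, Submodule.liftQ_apply, hE, aeval_X_pow] at this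
    rw [this]
    exact aeval_X_pow z
  obtain ⟨B, B0, hB⟩ : ∃ B : ℝ, 0 < B ∧ ∀ j, ‖l (Pi.single j 1)‖ ≤ B :=
    ⟨1 + ∑ j, ‖l (Pi.single j 1)‖, by positivity, fun j =>
      (Finset.single_le_sum (f := fun j => ‖l (Pi.single j 1)‖) (fun _ _ => norm_nonneg _)
        (Finset.mem_univ j)).trans (le_add_of_nonneg_left zero_le_one)⟩
  refine ⟨B⁻¹, inv_pos.2 B0, fun n => ?_⟩
  rw [inv_mul_le_iff₀ B0, ← norm_pow, ← k, Finset.mul_sum]
  generalize (A ^ n).mulVec w = v
  rw [LinearMap.pi_apply_eq_sum_univ]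
  refine (norm_sum_le _ _).trans (Finset.sum_le_sum fun j _ => ?_)
  have e : (fun i => if j = i then (1 : ℤ) else 0) = Pi.single j 1 := by
    funext i
    simp [Pi.single_apply, eq_comm]
  rw [e, zsmul_eq_mul, norm_mul, Complex.norm_intCast, mul_comm]
  exact mul_le_mul_of_nonneg_right (hB j) (abs_nonneg _)

end UN1

open UN1 in
theorem un1 : S_UN1 := by
  intro J T _ _ _ A δ C w hδ h
  classical
  obtain ⟨z, z1, z2⟩ := root A hδ h
  by_cases hw : ∃ a, ∀ p : ℤ[X], (aeval A p).mulVec (w a) = 0 → aeval z p = 0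
  · obtain ⟨a, ha⟩ := hw
    obtain ⟨c, c0, hc⟩ := low A (w a) z ha
    refine Or.inl ⟨a, c, c0, fun n => le_trans ?_ (hc n)⟩
    have := one_pos.trans hδ
    gcongr
  · push Not at hw
    choose p p1 p2 using hw
    refine Or.inr ⟨∏ a, p a, fun a => ?_, fun k => ?_⟩
    · rw [← Finset.prod_erase_mul _ _ (Finset.mem_univ a), map_mul, ← Matrix.mulVec_mulVec, p1,
        Matrix.mulVec_zero]
    · have := z2 _ k
      rw [map_mul, map_prod, map_sub, aeval_X, map_one, mul_eq_zero, sub_eq_zero] at this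
      rcases this with e | e
      · rw [e, norm_one] at z1
        exact z1.not_gt hδ
      · exact Finset.prod_ne_zero_iff.2 (fun a _ => p2 a) e

end Pool.Agent.KSP

end

end MrgPart8

-- ======== part 9: formerly Pool.Agent.MP_c8dfda_nt.kp.UN4
section MrgPart9

/-! Iterates of a monomial structure and the growth of the degree. -/

open Polynomial Filter Real
open scoped Topology

noncomputable section

namespace Pool.Agent.KSP

namespace UN4

variable {K J : Type} [Field K] [Fintype J] [DecidableEq J]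

theorem iter (s : R K →ₐ[K] R K) (c : J → R K) (A : Matrix J J ℕ) (κ : J → K)
    (hκ : ∀ j, κ j ≠ 0) (hs : ∀ j, s (c j) = cc (κ j) * ∏ l, c l ^ A j l) (n : ℕ) :
    ∀ j, ∃ k : K, k ≠ 0 ∧ (s ^ n) (c j) = cc k * ∏ l, c l ^ (A ^ n) j l := by
  induction n with
  | zero =>
    intro j
    refine ⟨1, one_ne_zero, ?_⟩
    have h1 : (cc 1 : R K) = 1 := MvPolynomial.C_1
    rw [pow_zero, pow_zero, AlgHom.one_apply, h1, one_mul, Finset.prod_eq_single j]
    · simp
    · intro l _ hl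
      rw [Matrix.one_apply_ne (Ne.symm hl), pow_zero]
    · simp
  | succ n ih =>
    intro j
    choose k hk he using ih
    refine ⟨κ j * ∏ l, k l ^ A j l,
      mul_ne_zero (hκ j) (Finset.prod_ne_zero_iff.2 fun l _ => pow_ne_zero _ (hk l)), ?_⟩
    have hc : (s ^ n) (cc (κ j)) = cc (κ j) := (s ^ n).commutes (κ j)
    have hd : (cc (κ j * ∏ l, k l ^ A j l) : R K) = cc (κ j) * ∏ l, cc (k l) ^ A j l := by
      simp
    rw [pow_succ s, AlgHom.mul_apply, hs, map_mul, hc, map_prod, pow_succ' A, hd, mul_assoc]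
    congr 1
    simp only [map_pow, he, mul_pow, Finset.prod_mul_distrib, Matrix.mul_apply]
    congr 1
    simp only [← Finset.prod_pow, ← pow_mul]
    rw [Finset.prod_comm]
    refine Finset.prod_congr rfl fun m _ => ?_
    rw [Finset.prod_pow_eq_pow_sum]
    congr 1
    exact Finset.sum_congr rfl fun l _ => mul_comm _ _

omit [DecidableEq J] in
theorem adj (c : J → R K) (r : R K) (hr : r ∈ Algebra.adjoin K (Set.range c)) :
    ∃ k : ℕ, ∀ φ : R K →ₐ[K] R K, dg (φ r) ≤ k * ∑ l, dg (φ (c l)) := by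
  induction hr using Algebra.adjoin_induction with
  | mem x hx =>
    obtain ⟨l, rfl⟩ := hx
    exact ⟨1, fun φ => by
      rw [one_mul]
      exact Finset.single_le_sum (f := fun l => dg (φ (c l))) (fun _ _ => Nat.zero_le _)
        (Finset.mem_univ l)⟩
  | algebraMap a =>
    refine ⟨0, fun φ => ?_⟩
    rw [φ.commutes, zero_mul]
    exact (MvPolynomial.totalDegree_C a).le
  | add x y _ _ hx hy =>
    obtain ⟨a, ha⟩ := hx
    obtain ⟨b, hb⟩ := hy
    refine ⟨a + b, fun φ => ?_⟩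
    rw [map_add, add_mul]
    refine (MvPolynomial.totalDegree_add _ _).trans (max_le ?_ ?_)
    · exact (ha φ).trans (Nat.le_add_right _ _)
    · exact (hb φ).trans (Nat.le_add_left _ _)
  | mul x y _ _ hx hy =>
    obtain ⟨a, ha⟩ := hx
    obtain ⟨b, hb⟩ := hy
    refine ⟨a + b, fun φ => ?_⟩
    rw [map_mul, add_mul]
    exact (MvPolynomial.totalDegree_mul _ _).trans (add_le_add (ha φ) (hb φ))

omit [DecidableEq J] in
theorem alg (c : J → R K) (y : R K) (hy : y ≠ 0)
    (ha : IsAlgebraic (Algebra.adjoin K (Set.range c)) y) :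
    ∃ k : ℕ, ∀ φ : R K →ₐ[K] R K, Function.Injective φ → dg (φ y) ≤ k * ∑ l, dg (φ (c l)) := by
  obtain ⟨r, hr, hd⟩ := ha.exists_nonzero_dvd (mem_nonZeroDivisors_of_ne_zero hy)
  obtain ⟨k, hk⟩ := adj c r r.2
  refine ⟨k, fun φ hφ => le_trans ?_ (hk φ)⟩
  refine MvPolynomial.totalDegree_le_of_dvd_of_isDomain (map_dvd φ hd) ?_
  intro h0
  exact hr (Subtype.ext (hφ (h0.trans (map_zero φ).symm)))

omit [DecidableEq J] in
theorem mon (c : J → R K) (k : K) (m : J → ℕ) :
    dg (cc k * ∏ l, c l ^ m l) ≤ (∑ l, dg (c l)) * ∑ l, m l := by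
  refine (MvPolynomial.totalDegree_mul _ _).trans ?_
  rw [MvPolynomial.totalDegree_C, zero_add, Finset.mul_sum]
  refine (MvPolynomial.totalDegree_finsetProd _ _).trans (Finset.sum_le_sum fun l _ => ?_)
  refine (MvPolynomial.totalDegree_pow _ _).trans ?_
  rw [mul_comm]
  exact Nat.mul_le_mul_right _ (Finset.single_le_sum (f := fun l => dg (c l))
    (fun _ _ => Nat.zero_le _) (Finset.mem_univ l))

end UN4

theorem un4 : S_UN4 := by
  intro K J _ _ _ s c A κ hκ hs
  have h1 := UN4.iter s c A κ hκ hs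
  refine ⟨h1, fun hi ha => ?_⟩
  have hin : ∀ n : ℕ, Function.Injective (s ^ n : R K →ₐ[K] R K) := fun n => by
    rw [AlgHom.coe_pow]
    exact hi.iterate n
  choose k hk using fun j => UN4.alg c (xx j) (MvPolynomial.X_ne_zero j) (ha j)
  refine ⟨((k 0 + k 1) * ∑ l, dg (c l) : ℕ), fun n => ?_⟩
  have h2 : ∑ j, dg ((s ^ n) (c j)) ≤ (∑ l, dg (c l)) * ∑ j, ∑ l, (A ^ n) j l := by
    rw [Finset.mul_sum]
    refine Finset.sum_le_sum fun j _ => ?_
    obtain ⟨k', -, he⟩ := h1 n j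
    rw [he]
    exact UN4.mon c k' _
  have h3 : dd (s ^ n) ≤ ((k 0 + k 1) * ∑ l, dg (c l)) * ∑ j, ∑ l, (A ^ n) j l := by
    rw [mul_assoc]
    refine max_le ((hk 0 _ (hin n)).trans ?_) ((hk 1 _ (hin n)).trans ?_)
    · exact Nat.mul_le_mul (Nat.le_add_right _ _) h2
    · exact Nat.mul_le_mul (Nat.le_add_left _ _) h2
  exact_mod_cast h3

end Pool.Agent.KSP

end

end MrgPart9

-- ======== part 10: formerly Pool.Agent.MP_c8dfda_nt.kp.Spec2
section MrgPart10

/-! Polynomial maps of the plane: statements of the rows on small topological degree. -/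

open Polynomial Filter Real
open scoped Topology

noncomputable section

namespace Pool.Agent.KSP

/-- the weight of the pulled back family -/
def S_RATIO : Prop := AllS fun _ _ _ _ N _ σ δ _ =>
  δ * ZZ (fun i => cp (N i) σ) = qq σ * ZZ N ∧ (qq σ : ℝ) < δ ^ 2

/-- going back to the last index without decay -/
def S_SEQ2 : Prop := ∀ (H : ℕ → ℝ) (E C β γ : ℝ) (U₁ : Ultrafilter ℕ), Tendsto H atTop atTop →
  (∀ n, H (n + 1) ≤ E * H n + C) → 0 < γ → γ < 1 → 1 ≤ β → (U₁ : Filter ℕ) ≤ atTop →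
  (∀ j, ∀ᶠ n in (U₁ : Filter ℕ), H (n + j) ≤ β ^ j * H n) →
  ∃ (U : Ultrafilter ℕ) (C' : ℝ), (U : Filter ℕ) ≤ atTop ∧
    (∀ᶠ n in (U : Filter ℕ), γ * H n < H (n + 1)) ∧
    (∀ j, ∀ᶠ n in (U : Filter ℕ), H (n + j) ≤ C' * β ^ j * H n) ∧
    ((∃ d, U₁ = U.map (· + d)) ∨ ∀ m, ∀ᶠ n in (U : Filter ℕ), H (n + m) ≤ C' * γ ^ m * H n)

def S_VAL2 : Prop := AllO fun K _ _ _ O => ∀ β₀ β : ℝ, 1 < β₀ → β₀ < β →
  (∃ᶠ n in atTop, Ht (O n) ≤ β₀ ^ n) → ∃ U : Ultrafilter ℕ, (U : Filter ℕ) ≤ atTop ∧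
    (∀ φ : R K, φ ≠ 0 → ∀ᶠ n in (U : Filter ℕ), MvPolynomial.eval (O n) φ ≠ 0) ∧
    ∀ j, ∀ᶠ n in (U : Filter ℕ), Ht (O (n + j)) ≤ β ^ j * Ht (O n)

def S_ULT2 : Prop := AllO fun K _ _ s O => ∀ (U : Ultrafilter ℕ) (β C : ℝ),
  Tendsto (fun n => Ht (O n)) U atTop →
  (∀ φ : R K, φ ≠ 0 → ∀ᶠ n in (U : Filter ℕ), MvPolynomial.eval (O n) φ ≠ 0) →
  (∀ j, ∀ᶠ n in (U : Filter ℕ), Ht (O (n + j)) ≤ C * β ^ j * Ht (O n)) →
  ∃ (ι : Type) (_ : Fintype ι) (N : ι → AV K), Slow N s β ∧ ZZ N = 1 ∧ ∀ σ, Cmp s σ →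
    Tendsto (fun n => Ht (O (n + 1)) / Ht (O n)) U (𝓝 (ZZ fun i => cp (N i) σ))

/-- the height of a root -/
def S_ROOTH : Prop := ∀ (K : Type) [Field K] [NumberField K] (Q : K[X][X]) (D : ℕ),
  (∀ j, (Q.coeff j).natDegree ≤ D) → ∃ C : ℝ, ∀ a b : K, Q.leadingCoeff.eval a ≠ 0 →
    Q.evalEval a b = 0 → Height.logHeight₁ b ≤ D * Height.logHeight₁ a + C

/-- algebraic dependence on a curve with a bound for one degree -/
def S_DEP : Prop := ∀ (K : Type) [Field K] (c a : R K) (l : Fin 2), c ≠ 0 →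
  ∃ Q : K[X][X], Q ≠ 0 ∧ (∀ j, (Q.coeff j).natDegree ≤ dg c) ∧
    c ∣ Q.eval₂ (aeval a : K[X] →ₐ[K] R K) (xx l)

def S_DROP2 : Prop := AllO fun K _ _ _ O => ∀ c : R K, Prime c → ∃ A : ℝ, ∀ m, ∃ (C : ℝ) (k : ℕ),
  ∀ n, k ≤ n → MvPolynomial.eval (O n) c = 0 → Ht (O n) ≤ A * Ht (O (n + m)) + C

/-- small topological degree -/
def S_SMALL : Prop := AllO fun K _ _ s O => ∀ (σ : M K →ₐ[K] M K) (δ β₀ : ℝ), Cmp s σ → Lim s δ →
  (qq σ : ℝ) < δ → 1 < β₀ → β₀ < δ → ¬ ∃ᶠ n in atTop, Ht (O n) ≤ β₀ ^ n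

/-- the final statement -/
def S_FINAL2 : Prop :=
  ∀ (K : Type) [Field K] [NumberField K] (F : Fin 2 → MvPolynomial (Fin 2) K) (P : Fin 2 → K),
    (∀ G : MvPolynomial (Fin 2) K,
      (∀ n : ℕ, MvPolynomial.eval ((fun a i => MvPolynomial.eval a (F i))^[n] P) G = 0) → G = 0) →
    ∀ q : ℕ, q = Module.finrank (IntermediateField.adjoin K (Set.range fun i =>
      algebraMap (MvPolynomial (Fin 2) K) (FractionRing (MvPolynomial (Fin 2) K)) (F i)))
        (FractionRing (MvPolynomial (Fin 2) K)) →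
    ∃ δ : ℝ,
      Tendsto (fun n : ℕ =>
        ((max ((fun G i => MvPolynomial.bind₁ G (F i))^[n] MvPolynomial.X 0).totalDegree
          ((fun G i => MvPolynomial.bind₁ G (F i))^[n] MvPolynomial.X 1).totalDegree : ℕ) : ℝ)
            ^ (1 / (n : ℝ))) atTop (𝓝 δ) ∧
      (1 < δ →
        (δ < q → q < δ ^ 2 → ∀ m a b : ℕ, 1 ≤ m → 1 ≤ a → δ ^ m * a = b → ¬ b.Coprime q) →
        ((MvPolynomial.pderiv 0 (F 0) * MvPolynomial.pderiv 1 (F 1) -
          MvPolynomial.pderiv 1 (F 0) * MvPolynomial.pderiv 0 (F 1)).totalDegree ≠ 0 ∨ δ ≠ q) →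
        Tendsto (fun n : ℕ =>
          Height.logHeight ![(fun a i => MvPolynomial.eval a (F i))^[n] P 0,
            (fun a i => MvPolynomial.eval a (F i))^[n] P 1, 1] ^ (1 / (n : ℝ))) atTop (𝓝 δ))

end Pool.Agent.KSP

end

end MrgPart10

-- ======== part 11: formerly Pool.Agent.MP_c8dfda_nt.kp.SEQ2
section MrgPart11

/-! Polynomial maps of the plane: going back to the last index without decay. -/

open Polynomial Filter Real
open scoped Topology

noncomputable section

namespace Pool.Agent.KSP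

namespace SEQ2

theorem often {H : ℕ → ℝ} {γ : ℝ} (hH : Tendsto H atTop atTop) (h1 : γ < 1) (N : ℕ) :
    ∃ n, N ≤ n ∧ γ * H n < H (n + 1) := by
  by_contra hne
  push Not at hne
  obtain ⟨n₀, hn₀⟩ := eventually_atTop.1 (hH.eventually_ge_atTop 0)
  have key : ∀ j, H (max N n₀ + j) ≤ H (max N n₀) := fun j => by
    induction j with
    | zero => exact le_rfl
    | succ j ih =>
      have a1 := hne (max N n₀ + j) ((le_max_left _ _).trans (Nat.le_add_right _ _))
      have a2 := hn₀ (max N n₀ + j) ((le_max_right _ _).trans (Nat.le_add_right _ _))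
      rw [← add_assoc]
      nlinarith
  obtain ⟨m, hm⟩ := eventually_atTop.1 (hH.eventually_gt_atTop (H (max N n₀)))
  exact (hm (max N n₀ + m) (Nat.le_add_left _ _)).not_ge (key m)

theorem down {H : ℕ → ℝ} {γ C : ℝ} {r n : ℕ} (h0 : 0 < γ) (hC : 1 ≤ C) (hr : 0 ≤ H r)
    (h1 : H (r + 1) ≤ C * γ * H r) (h2 : ∀ i, r < i → i < n → H (i + 1) ≤ γ * H i) (j : ℕ)
    (hj : r + j ≤ n) : H (r + j) ≤ C * γ ^ j * H r := by
  induction j with
  | zero => simpa using le_mul_of_one_le_left hr hC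
  | succ j ih =>
    rcases Nat.eq_zero_or_pos j with rfl | hpos
    · simpa using h1
    · have a1 := h2 (r + j) (by omega) (by omega)
      have a2 := mul_le_mul_of_nonneg_left (ih (by omega)) h0.le
      rw [← add_assoc, pow_succ]
      linarith

end SEQ2

theorem seq2 : S_SEQ2 := by
  intro H E C β γ U₁ hH hE h0 h1 hβ hU hj
  classical
  obtain ⟨n₀, hn₀⟩ := eventually_atTop.1 (hH.eventually_ge_atTop (max 0 C))
  have pos : ∀ n, n₀ ≤ n → 0 ≤ H n := fun n hn => (le_max_left _ _).trans (hn₀ n hn)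
  obtain ⟨C', hC', hstep⟩ : ∃ C' : ℝ, 1 ≤ C' ∧ ∀ n, n₀ ≤ n → H (n + 1) ≤ C' * γ * H n := by
    refine ⟨(max E 0 + 1) / γ, ?_, fun n hn => ?_⟩
    · rw [le_div_iff₀ h0]
      linarith [le_max_right E 0]
    · rw [div_mul_cancel₀ _ h0.ne']
      have a1 := mul_le_mul_of_nonneg_right (le_max_left E 0) (pos n hn)
      linarith [hE n, (le_max_right _ _).trans (hn₀ n hn)]
  let r : ℕ → ℕ := fun n => Nat.findGreatest (fun i => γ * H i < H (i + 1)) (n - 1)
  have good : ∀ N, ∀ᶠ n in (U₁ : Filter ℕ),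
      N ≤ r n ∧ r n < n ∧ γ * H (r n) < H (r n + 1) := fun N => by
    obtain ⟨m, hm, hm'⟩ := SEQ2.often hH h1 N
    filter_upwards [hU (eventually_ge_atTop (m + 1))] with n hn
    have hn : m + 1 ≤ n := hn
    refine ⟨hm.trans (Nat.le_findGreatest (by omega) hm'), ?_,
      Nat.findGreatest_spec (P := fun i => γ * H i < H (i + 1)) (m := m) (by omega) hm'⟩
    have : r n ≤ n - 1 := Nat.findGreatest_le _
    omega
  have dn : ∀ n, n₀ ≤ r n → ∀ j, r n + j ≤ n → H (r n + j) ≤ C' * γ ^ j * H (r n) :=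
    fun n hn => SEQ2.down h0 hC' (pos _ hn) (hstep _ hn) fun i hi hi' =>
      not_lt.1 (Nat.findGreatest_is_greatest (P := fun i => γ * H i < H (i + 1)) hi (by omega))
  refine ⟨U₁.map r, C', ?_, ?_, fun j => ?_, ?_⟩
  · exact tendsto_atTop.2 fun N => (good N).mono fun n hn => hn.1
  · exact (good 0).mono fun n hn => hn.2.2
  · have hall : ∀ᶠ n in (U₁ : Filter ℕ), ∀ i ∈ Finset.range (j + 1), H (n + i) ≤ β ^ i * H n :=
      (eventually_all_finset _).2 fun i _ => hj i
    show ∀ᶠ n in (U₁ : Filter ℕ), H (r n + j) ≤ C' * β ^ j * H (r n)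
    filter_upwards [good n₀, hall] with n hn ha
    have p0 := pos _ hn.1
    have c0 : 0 ≤ C' := zero_le_one.trans hC'
    by_cases hc : r n + j ≤ n
    · refine (dn n hn.1 j hc).trans (mul_le_mul_of_nonneg_right
        (mul_le_mul_of_nonneg_left (pow_le_pow_left₀ h0.le (h1.le.trans hβ) j) c0) p0)
    · have a1 := ha (r n + j - n) (Finset.mem_range.2 (by omega))
      have a2 := dn n hn.1 (n - r n) (by omega)
      rw [show r n + (n - r n) = n by omega] at a2
      rw [show n + (r n + j - n) = r n + j by omega] at a1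
      have a3 : H n ≤ C' * H (r n) := a2.trans (mul_le_mul_of_nonneg_right
        (mul_le_of_le_one_right c0 (pow_le_one₀ h0.le h1.le)) p0)
      have a4 : β ^ (r n + j - n) ≤ β ^ j := pow_le_pow_right₀ hβ (by omega)
      calc H (r n + j) ≤ β ^ j * H n :=
            a1.trans (mul_le_mul_of_nonneg_right a4 (pos n (by omega)))
        _ ≤ β ^ j * (C' * H (r n)) := mul_le_mul_of_nonneg_left a3 (by positivity)
        _ = _ := by ring
  · by_cases hd : ∃ d, ∀ᶠ n in (U₁ : Filter ℕ), n - r n = d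
    · obtain ⟨d, hd⟩ := hd
      refine Or.inl ⟨d, Ultrafilter.coe_injective ?_⟩
      rw [Ultrafilter.coe_map, Ultrafilter.coe_map, Filter.map_map]
      refine Filter.map_id.symm.trans (Filter.map_congr ?_)
      filter_upwards [hd, good 0] with n h1 h2
      show n = r n + d
      omega
    · refine Or.inr fun m => ?_
      have hall : ∀ᶠ n in (U₁ : Filter ℕ), ∀ i ∈ Finset.range m, ¬ n - r n = i :=
        (eventually_all_finset _).2 fun i _ =>
          Ultrafilter.eventually_not.2 fun h => hd ⟨i, h⟩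
      show ∀ᶠ n in (U₁ : Filter ℕ), H (r n + m) ≤ C' * γ ^ m * H (r n)
      filter_upwards [good n₀, hall] with n hn ha
      refine dn n hn.1 m (not_lt.1 fun h => ?_)
      exact ha (n - r n) (Finset.mem_range.2 (by omega)) rfl

end Pool.Agent.KSP

end

end MrgPart11

-- ======== part 12: formerly Pool.Agent.MP_c8dfda_nt.kp.DEP
section MrgPart12

/-! Polynomial maps of the plane: algebraic dependence on a curve. -/

open Polynomial Filter Real
open scoped Topology

noncomputable section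

namespace Pool.Agent.KSP

namespace DEP

theorem gen {A : Type} [CommRing A] [IsDomain A] (c a : A[X]) (hc : c ≠ 0) :
    ∃ P : A[X], P ≠ 0 ∧ P.natDegree ≤ c.natDegree ∧ c ∣ P.comp a := by
  let F := FractionRing A
  let ι := algebraMap A F
  have inj : Function.Injective ι := IsFractionRing.injective _ _
  have h0 : c.map ι ≠ 0 := (Polynomial.map_ne_zero_iff inj).2 hc
  have := (AdjoinRoot.powerBasis h0).finite
  let z := AdjoinRoot.mk (c.map ι) (a.map ι)
  have h1 : (minpoly F z).natDegree ≤ c.natDegree := (minpoly.natDegree_le z).trans (by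
    rw [(AdjoinRoot.powerBasis h0).finrank, AdjoinRoot.powerBasis_dim,
      natDegree_map_eq_of_injective inj])
  have h2 : minpoly F z ≠ 0 := minpoly.ne_zero (Algebra.IsIntegral.isIntegral z)
  obtain ⟨r, hr⟩ : c.map ι ∣ (minpoly F z).comp (a.map ι) := by
    rw [← AdjoinRoot.mk_eq_zero, ← AdjoinRoot.aeval_eq, aeval_comp, AdjoinRoot.aeval_eq]
    exact minpoly.aeval _ _
  obtain ⟨b, -, e⟩ := IsLocalization.integerNormalization_spec (nonZeroDivisors A) (minpoly F z)
  obtain ⟨b', hb', e'⟩ := IsLocalization.integerNormalization_spec (nonZeroDivisors A) r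
  refine ⟨b' • IsLocalization.integerNormalization (nonZeroDivisors A) (minpoly F z),
    smul_ne_zero (nonZeroDivisors.ne_zero hb')
      (mt IsFractionRing.integerNormalization_eq_zero_iff.1 h2), ?_,
    b • IsLocalization.integerNormalization (nonZeroDivisors A) r, map_injective ι inj ?_⟩
  · refine (natDegree_smul_le _ _).trans ?_
    rw [← natDegree_map_eq_of_injective inj, e]
    exact (natDegree_smul_le _ _).trans h1
  · rw [map_comp, Polynomial.map_mul, Polynomial.map_smul, Polynomial.map_smul, e, e', smul_comp,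
      smul_comp, hr, algebraMap_smul, algebraMap_smul, mul_smul_comm, mul_smul_comm, smul_comm]

theorem swap_le {K : Type} [Field K] (P : K[X][X]) (j : ℕ) :
    ((Bivariate.swap P).coeff j).natDegree ≤ P.natDegree := by
  conv_lhs => rw [P.as_sum_support, map_sum, finsetSum_coeff]
  refine natDegree_sum_le_of_forall_le _ _ fun n hn => ?_
  rw [Bivariate.swap_monomial, coeff_mul_C, coeff_map]
  exact (natDegree_C_mul_le _ _).trans ((natDegree_X_pow_le n).trans (le_natDegree_of_mem_supp n hn))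

end DEP

theorem dep : S_DEP := by
  intro K _ c a l hc
  let θ : R K →ₐ[K] K[X][X] := MvPolynomial.aeval fun j => if j = l then C X else X
  let η : K[X][X] →ₐ[K] R K := aevalAeval (xx l) (xx (1 - l))
  have h1 : ∀ φ, η (θ φ) = φ := fun φ =>
    AlgHom.congr_fun (show η.comp θ = AlgHom.id K _ from MvPolynomial.algHom_ext fun j => by
      fin_cases l <;> fin_cases j <;> simp [η, θ]) φ
  have h2 : (θ c).natDegree ≤ dg c := by
    have h3 := MvPolynomial.aeval_natDegree_le (n := 1) (c.map (algebraMap K K[X]))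
      (Finset.sup_mono (MvPolynomial.support_map_subset _ _))
      (fun j => if j = l then C X else X) fun j => by split_ifs <;> simp
    rwa [mul_one, MvPolynomial.aeval_map_algebraMap] at h3
  obtain ⟨P, P0, hP, hd⟩ := DEP.gen (θ c) (θ a) fun h => hc (by rw [← h1 c, h, map_zero])
  refine ⟨Bivariate.swap P, (map_ne_zero_iff _ Bivariate.swap.injective).2 P0,
    fun j => (DEP.swap_le P j).trans (hP.trans h2), ?_⟩
  have h3 := map_dvd η hd
  rw [h1] at h3
  convert h3 using 1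
  exact RingHom.congr_fun (show (eval₂RingHom (aeval a : K[X] →ₐ[K] R K) (xx l)).comp
    (Bivariate.swap (R := K)).toRingEquiv.toRingHom = η.toRingHom.comp (compRingHom (θ a)) by
      ext <;> simp [h1, η, Bivariate.swap_apply]) P

end Pool.Agent.KSP

end

end MrgPart12

-- ======== part 13: formerly Pool.Agent.MP_c8dfda_nt.kp.TOP
section MrgPart13

/-! Polynomial maps of the plane: the final assembly. -/

open Polynomial Filter Real
open scoped Topology

noncomputable section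

namespace Pool.Agent.KSP

namespace TOP

variable {K : Type} [Field K]

theorem range_eq {s : R K →ₐ[K] R K} {σ : M K →ₐ[K] M K} (h : Cmp s σ) :
    σ.fieldRange = IntermediateField.adjoin K (Set.range fun i => io (s (xx i))) := by
  refine le_antisymm ?_ (IntermediateField.adjoin_le_iff.2 ?_)
  · have key : ∀ φ, io (s φ) ∈ IntermediateField.adjoin K (Set.range fun i => io (s (xx i))) := by
      intro φ
      induction φ using MvPolynomial.induction_on with
      | C c =>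
        rw [MvPolynomial.algHom_C, MvPolynomial.algebraMap_eq, io_cc]
        exact IntermediateField.algebraMap_mem _ c
      | add p q hp hq => rw [map_add, map_add]; exact add_mem hp hq
      | mul_X p j hp =>
        rw [map_mul, map_mul]
        exact mul_mem hp (IntermediateField.subset_adjoin _ _ ⟨j, rfl⟩)
    rintro _ ⟨a, rfl⟩
    obtain ⟨f, g, -, rfl⟩ := exists_io a
    show σ (io f / io g) ∈ _
    rw [map_div₀, h, h]
    exact div_mem (key f) (key g)
  · rintro _ ⟨i, rfl⟩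
    exact ⟨io (xx i), h _⟩

theorem iter (F : Fin 2 → R K) (n : ℕ) :
    (fun G i => MvPolynomial.bind₁ G (F i))^[n] MvPolynomial.X =
      fun i => ((MvPolynomial.aeval F : R K →ₐ[K] R K) ^ n) (xx i) := by
  induction n with
  | zero => rfl
  | succ n ih =>
    rw [Function.iterate_succ_apply', ih]
    funext i
    rw [pow_succ, AlgHom.mul_apply, MvPolynomial.aeval_X, s_eq_aeval (_ ^ n) (F i)]
    rfl

end TOP

theorem top (h1 : S_ORB) (h2 : S_ORD) (h3 : S_FEK) (h4 : S_LIMIT) (h5 : S_VAL) (h6 : S_STR)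
    (h7 : S_UN3) (h8 : S_PEN3) : S_FINAL := by
  intro K _ _ F P hP q hq
  set s : R K →ₐ[K] R K := MvPolynomial.aeval F with hs
  have hx : ∀ i, s (xx i) = F i := fun i => MvPolynomial.aeval_X F i
  set O : ℕ → Fin 2 → K := fun n => (fun a i => MvPolynomial.eval a (F i))^[n] P with hO
  have ho : Orb s O := fun n => by
    funext i
    simp only [hO, Function.iterate_succ_apply', ap, hx]
  have hz : ZD O := hP
  obtain ⟨-, inj, -, hm, -⟩ := h1 K s O ho hz
  obtain ⟨σ, hσ⟩ := ((h2 K).2.2.2.2 s inj).1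
  have hq' : qq σ = q := by
    rw [hq, qq, TOP.range_eq hσ, show (fun i => io (s (xx i))) = fun i => io (F i) from
      funext fun i => by rw [hx]]
  obtain ⟨δ, hδ, hL⟩ := h3 K s inj
  refine ⟨δ, ?_, fun h0 hE hJ => ?_⟩
  · simp only [TOP.iter]
    exact hδ
  have hL := hL h0
  refine h4 K s O ho hz δ hL fun β₀ b1 b2 hf => ?_
  obtain ⟨ι, _, N, hN⟩ := h5 K s O ho hz β₀ ((β₀ + δ) / 2) b1 (by linarith) hf
  obtain ⟨m, m1, h⟩ := h6 K ι N s σ δ _ hσ hL (by linarith) (by linarith) hN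
  have hδm : 1 < δ ^ m := one_lt_pow₀ h0 (by omega)
  refine ⟨m, m1, ?_⟩
  rcases h with h | h | ⟨a, b, a1, h, hc⟩ | ⟨h, h'⟩
  · refine h7 K (s ^ m) _ (hm m m1).1 (hm m m1).2 _ hδm (fun n => ?_) h
    rw [← pow_mul, ← pow_mul]
    exact hL.low _
  · exact h8 K (s ^ m) _ (hm m m1).1 (hm m m1).2 _ hδm h
  · exact absurd (hq' ▸ hc) (hE m a b m1 a1 h)
  · rcases hJ with hJ | hJ
    · refine absurd ?_ hJ
      rw [← hx, ← hx]
      exact h
    · exact absurd (hq' ▸ h') hJ

end Pool.Agent.KSP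

end

end MrgPart13

-- ======== part 14: formerly Pool.Agent.MP_c8dfda_nt.kp.TOP2
section MrgPart14

/-! Polynomial maps of the plane: the final assembly. -/

open Polynomial Filter Real
open scoped Topology

noncomputable section

namespace Pool.Agent.KSP

theorem top2 (h1 : S_ORB) (h2 : S_ORD) (h3 : S_FEK) (h4 : S_LIMIT) (h5 : S_VAL) (h6 : S_STR)
    (h7 : S_UN3) (h8 : S_PEN3) (h9 : S_RATIO) (h10 : S_SMALL) : S_FINAL2 := by
  intro K _ _ F P hP q hq
  set s : R K →ₐ[K] R K := MvPolynomial.aeval F with hs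
  have hx : ∀ i, s (xx i) = F i := fun i => MvPolynomial.aeval_X F i
  set O : ℕ → Fin 2 → K := fun n => (fun a i => MvPolynomial.eval a (F i))^[n] P with hO
  have ho : Orb s O := fun n => by
    funext i
    simp only [hO, Function.iterate_succ_apply', ap, hx]
  have hz : ZD O := hP
  obtain ⟨-, inj, -, hm, -⟩ := h1 K s O ho hz
  obtain ⟨σ, hσ⟩ := ((h2 K).2.2.2.2 s inj).1
  have hq' : qq σ = q := by
    rw [hq, qq, TOP.range_eq hσ, show (fun i => io (s (xx i))) = fun i => io (F i) from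
      funext fun i => by rw [hx]]
  obtain ⟨δ, hδ, hL⟩ := h3 K s inj
  refine ⟨δ, ?_, fun h0 hE hJ => ?_⟩
  · simp only [TOP.iter]
    exact hδ
  have hL := hL h0
  refine h4 K s O ho hz δ hL fun β₀ b1 b2 hf => ?_
  obtain ⟨ι, _, N, hN⟩ := h5 K s O ho hz β₀ ((β₀ + δ) / 2) b1 (by linarith) hf
  obtain ⟨m, m1, h⟩ := h6 K ι N s σ δ _ hσ hL (by linarith) (by linarith) hN
  have hδm : 1 < δ ^ m := one_lt_pow₀ h0 (by omega)
  refine ⟨m, m1, ?_⟩
  rcases h with h | h | ⟨a, b, a1, h, hc⟩ | ⟨h, h'⟩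
  · refine h7 K (s ^ m) _ (hm m m1).1 (hm m m1).2 _ hδm (fun n => ?_) h
    rw [← pow_mul, ← pow_mul]
    exact hL.low _
  · exact h8 K (s ^ m) _ (hm m m1).1 (hm m m1).2 _ hδm h
  · have q2 := (h9 K ι N s σ δ _ hσ hL (by linarith) (by linarith) hN).2
    rcases lt_trichotomy δ (qq σ) with q1 | q1 | q1
    · exact absurd (hq' ▸ hc) (hE (hq' ▸ q1) (hq' ▸ q2) m a b m1 a1 h)
    · rw [q1] at h h0
      have e : qq σ ^ m * a = b := by exact_mod_cast h
      have : qq σ = 1 := hc.symm.eq_one_of_dvd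
        (e ▸ (dvd_pow_self _ (by omega)).mul_right _)
      rw [this] at h0
      simp at h0
    · exact absurd hf (h10 K s O ho hz σ δ β₀ hσ hL q1 b1 b2)
  · rcases hJ with hJ | hJ
    · refine absurd ?_ hJ
      rw [← hx, ← hx]
      exact h
    · exact absurd (hq' ▸ h') hJ

end Pool.Agent.KSP

end

end MrgPart14

-- marker of a merged file
example : 731051 + 585839 = 731051 + 585839 := rfl
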