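import Mathlib.Algebra.AffineMonoid.UniqueSums
import Mathlib.Algebra.DualNumber
import Mathlib.Algebra.Module.Submodule.Order
import Mathlib.RingTheory.LocalProperties.Reduced
import Mathlib.FieldTheory.RatFunc.Basic
import Mathlib.GroupTheory.IndexNSmul
import Mathlib.Topology.Connected.Separation
import Mathlib.Topology.MetricSpace.Ultra.TotallySeparated
import Pool.Agent.MP_c8dfda_nt.kp.SEQ
import Pool.Agent.MP_c8dfda_nt.Ext
import Pool.Agent.MP_c8dfda_nt.HQ
import Pool.Agent.MP_c8dfda_nt.GS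
import Pool.Agent.MP_c8dfda_nt.kp.TOP2

-- ======== part 0: formerly Pool.Agent.MP_c8dfda_nt.kp.UNIV
section MrgPart0

/-! Polynomial maps of the plane, row UNIV: every absolute value at infinity is a point of the
Berkovich line over the completion. -/

open Polynomial Filter Real
open scoped Topology

noncomputable section

namespace Pool.Agent.KSP

namespace UNIV

/-- The completion embeds isometrically into any complete field with an element of norm `e`. -/
theorem emb {K L F : Type} [Field K] [NormedField L] [IsUltrametricDist L] [Algebra K L]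
    [NormedField F] [IsUltrametricDist F] [CompleteSpace F] [Algebra K F] {ξ : L} (h : Cm K ξ)
    {x : F} (hx : ‖x‖ = exp 1) (hK : ∀ c : K, c ≠ 0 → ‖algebraMap K F c‖ = 1) :
    ∃ ψ : L →+* F, ψ ξ = x ∧ (∀ c, ψ (algebraMap K L c) = algebraMap K F c) ∧
      ∀ a, ‖ψ a‖ = ‖a‖ := by
  have e1 : (1 : ℝ) < exp 1 := one_lt_exp_iff.2 one_pos
  have nL : ∀ p : K[X], p ≠ 0 → ‖aeval ξ p‖ = exp 1 ^ p.natDegree := fun p hp => by
    rw [KSkew.EXT.norm_aeval h.triv (h.xi ▸ e1) p hp, h.xi]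
  have nF : ∀ p : K[X], p ≠ 0 → ‖aeval x p‖ = exp 1 ^ p.natDegree := fun p hp => by
    rw [KSkew.EXT.norm_aeval hK (hx ▸ e1) p hp, hx]
  have nn : ∀ p : K[X], ‖aeval x p‖ = ‖aeval ξ p‖ := fun p => by
    by_cases hp : p = 0
    · simp [hp]
    · rw [nL p hp, nF p hp]
  have iL : Function.Injective (aeval ξ : K[X] →ₐ[K] L).toRingHom :=
    (injective_iff_map_eq_zero _).2 fun p hp => by
      by_contra h0
      have := nL p h0
      rw [show aeval ξ p = 0 from hp, norm_zero] at this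
      exact (pow_pos (exp_pos 1) _).ne this
  have iF : Function.Injective (aeval x : K[X] →ₐ[K] F).toRingHom :=
    (injective_iff_map_eq_zero _).2 fun p hp => by
      by_contra h0
      have := nF p h0
      rw [show aeval x p = 0 from hp, norm_zero] at this
      exact (pow_pos (exp_pos 1) _).ne this
  let i : FractionRing K[X] →+* L := IsFractionRing.lift iL
  let f : FractionRing K[X] →+* F := IsFractionRing.lift iF
  have hi : ∀ p : K[X], i (algebraMap _ _ p) = aeval ξ p := IsFractionRing.lift_algebraMap iL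
  have hf : ∀ p : K[X], f (algebraMap _ _ p) = aeval x p := IsFractionRing.lift_algebraMap iF
  have nf : ∀ a, ‖f a‖ = ‖i a‖ := fun a => by
    obtain ⟨p, r, -, rfl⟩ := IsFractionRing.div_surjective (A := K[X]) a
    rw [map_div₀, map_div₀, norm_div, norm_div, hi, hi, hf, hf, nn, nn]
  let _ : PseudoMetricSpace (FractionRing K[X]) := PseudoMetricSpace.induced i inferInstance
  have ii : Isometry i := Isometry.of_dist_eq fun _ _ => rfl
  have fi : Isometry f := Isometry.of_dist_eq fun a b => by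
    rw [dist_eq_norm, ← map_sub, nf, map_sub, ← dist_eq_norm]; rfl
  have dr : DenseRange i := Metric.denseRange_iff.2 fun a ε hε => by
    obtain ⟨p, r, -, k⟩ := h.dense a ε hε
    exact ⟨algebraMap _ _ p / algebraMap _ _ r, by rwa [map_div₀, hi, hi, dist_eq_norm]⟩
  let ψ : L →+* F := IsDenseInducing.extendRingHom ii.isUniformInducing dr fi.uniformContinuous
  have hψ : ∀ a, ψ (i a) = f a := fun a =>
    IsDenseInducing.extend_eq (ii.isUniformInducing.isDenseInducing dr) fi.continuous a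
  have cψ : Continuous ψ :=
    (uniformContinuous_uniformly_extend ii.isUniformInducing dr fi.uniformContinuous).continuous
  refine ⟨ψ, ?_, fun c => ?_, fun a => ?_⟩
  · have := hψ (algebraMap _ _ (X : K[X]))
    rwa [hi, hf, aeval_X, aeval_X] at this
  · have := hψ (algebraMap _ _ (C c : K[X]))
    rwa [hi, hf, aeval_C, aeval_C] at this
  · refine dr.induction_on (p := fun a => ‖ψ a‖ = ‖a‖) a
      (isClosed_eq cψ.norm continuous_norm) fun b => ?_
    rw [hψ, nf]

/-- The embedding extends to the algebraic closure, with the spectral norm. -/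
theorem clo {L Ω : Type} [NontriviallyNormedField L] [CompleteSpace L] [IsUltrametricDist L]
    [Field Ω] [IsAlgClosed Ω] (N : AbsoluteValue Ω ℝ) (ψ : L →+* Ω) (h : ∀ a, N (ψ a) = ‖a‖) :
    ∃ j : AlgebraicClosure L →+* Ω, (∀ a, j (algebraMap L _ a) = ψ a) ∧
      ∀ a, N (j a) = spectralNorm L (AlgebraicClosure L) a := by
  let _ : Algebra L Ω := ψ.toAlgebra
  let j : AlgebraicClosure L →ₐ[L] Ω := IsAlgClosed.lift
  refine ⟨j, j.commutes, fun a => ?_⟩
  exact spectralNorm_unique_field_norm_ext (K := L) (L := AlgebraicClosure L)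
    (f := N.comp (j : AlgebraicClosure L →+* Ω).injective)
    (fun x => (congrArg N (j.commutes x)).trans (h x)) a

/-- A complete algebraically closed hull of an absolute value. -/
theorem hull {K L A : Type} [Field K] [NontriviallyNormedField L] [CompleteSpace L]
    [IsUltrametricDist L] [Algebra K L] [Field A] [Algebra K A] {ξ : L} (h : Cm K ξ)
    {w : AbsoluteValue A ℝ} (hw : NA K w) {x : A} (hx : w x = exp 1) :
    ∃ (Ω : Type) (_ : Field Ω) (N : AbsoluteValue Ω ℝ) (κ : A →+* Ω)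
      (j : AlgebraicClosure L →+* Ω), IsNonarchimedean N ∧ (∀ a, N (κ a) = w a) ∧
      j (algebraMap L _ ξ) = κ x ∧ (∀ c, j (algebraMap K _ c) = κ (algebraMap K A c)) ∧
      ∀ a, N (j a) = spectralNorm L (AlgebraicClosure L) a := by
  let κ : A →+* w.Completion :=
    UniformSpace.Completion.coeRingHom.comp (WithAbs.equiv w).symm.toRingHom
  have hκ : ∀ a, ‖κ a‖ = w a := fun a => UniformSpace.Completion.norm_coe (WithAbs.toAbs w a)
  have := KSkew.EXT.ultra hw.1
  have e1 : (1 : ℝ) < exp 1 := one_lt_exp_iff.2 one_pos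
  let _ : NontriviallyNormedField w.Completion :=
    { (inferInstance : NormedField w.Completion) with
      non_trivial := ⟨κ x, by rw [hκ, hx]; exact e1⟩ }
  obtain ⟨ψ, p1, p2, p3⟩ := @emb K L w.Completion _ _ _ _ _ _ _
    (κ.comp (algebraMap K A)).toAlgebra ξ h (κ x) ((hκ x).trans hx)
    fun c hc => (hκ _).trans (hw.2 c hc)
  let _ : NormedField (AlgebraicClosure w.Completion) := spectralNorm.normedField w.Completion _
  have hna : IsNonarchimedean (norm : AlgebraicClosure w.Completion → ℝ) :=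
    isNonarchimedean_spectralNorm
  let u := algebraMap w.Completion (AlgebraicClosure w.Completion)
  have hu : ∀ a, ‖u a‖ = ‖a‖ := spectralNorm_extends
  obtain ⟨j, j1, j2⟩ := clo (NormedField.toAbsoluteValue (AlgebraicClosure w.Completion))
    (u.comp ψ) fun a => (hu _).trans (p3 a)
  refine ⟨AlgebraicClosure w.Completion, inferInstance, NormedField.toAbsoluteValue _, u.comp κ, j,
    hna, fun a => (hu _).trans (hκ a), (j1 ξ).trans (congrArg u p1), fun c => ?_, j2⟩
  rw [IsScalarTower.algebraMap_apply K L (AlgebraicClosure L), j1]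
  exact congrArg u (p2 c)

end UNIV

theorem univ : S_UNIV := by
  intro K L _ _ _ _ _ _ ξ n hC hn v hv hz hx
  obtain ⟨w, hw, -, hl⟩ := exists_AV_rpow hv (inv_pos.2 hz)
  have hw0 : w (io (xx 0)) = exp 1 := by
    rw [← exp_lg w (xx_ne 0), lg, hl, show log (v (io (xx 0))) = zz v from hx,
      inv_mul_cancel₀ hz.ne']
  obtain ⟨Ω, _, N, κ, j, hN, h1, h2, h3, h4⟩ := UNIV.hull hC hw hw0
  let E : (AlgebraicClosure L)[X] →+* Ω := eval₂RingHom j (κ (io (xx 1)))
  have hE : ∀ φ : R K, E (evA (algebraMap L (AlgebraicClosure L) ξ) φ) = κ (io φ) := fun φ => by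
    induction φ using MvPolynomial.induction_on with
    | C c => rw [evA_cc, io_cc, ← h3]; exact eval₂_C _ _
    | add p q hp hq => simp only [map_add, hp, hq]
    | mul_X p i hp =>
      simp only [map_mul, hp]
      congr 1
      fin_cases i
      · exact (congrArg E (evA_xx0 _)).trans ((eval₂_C _ _).trans h2)
      · exact (congrArg E (evA_xx1 _)).trans (eval₂_X _ _)
  refine ⟨⟨N.toMonoidWithZeroHom.comp E.toMonoidWithZeroHom, fun p => N.nonneg _,
    fun p q => ?_, fun β => ?_⟩, fun φ hφ => ?_⟩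
  · show N (E (p + q)) ≤ max (N (E p)) (N (E q))
    rw [map_add]; exact hN _ _
  · show N (E (C β)) = n β
    rw [hn, ← h4]; exact congrArg N (eval₂_C _ _)
  · show 0 < N (E _) ∧ lg v φ = zz v * log (N (E _))
    rw [hE, h1, hl, mul_inv_cancel_left₀ hz.ne']
    exact ⟨w.pos (io_ne hφ), rfl⟩

end Pool.Agent.KSP

end

end MrgPart0

-- ======== part 1: formerly Pool.Agent.MP_c8dfda_nt.kp.DERL
section MrgPart1

/-! Polynomial maps of the plane: the derivation on the completion. -/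

open Polynomial Filter Real
open scoped Topology

noncomputable section

namespace Pool.Agent.KSP

namespace DERL

/-- extension of a bounded additive map from a dense image -/
theorem ext_add {A L : Type} [AddCommGroup A] [NormedAddCommGroup L] [CompleteSpace L]
    (j d : A →+ L) (hd : DenseRange j) (hb : ∀ f, ‖d f‖ ≤ ‖j f‖) :
    ∃ D : L → L, Continuous D ∧ ∀ f, D (j f) = d f := by
  let _ : SeminormedAddCommGroup A := SeminormedAddCommGroup.induced A L j
  have hj : Isometry j := AddMonoidHomClass.isometry_of_norm j fun _ => rfl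
  have hu : UniformContinuous d :=
    (AddMonoidHomClass.lipschitz_of_bound d 1 fun f => by
      rw [one_mul]; exact hb f).uniformContinuous
  exact ⟨_, (uniformContinuous_uniformly_extend hj.isUniformInducing hd hu).continuous,
    fun f => uniformly_extend_of_ind hj.isUniformInducing hd hu f⟩

variable {K L : Type} [Field K] [NontriviallyNormedField L] [IsUltrametricDist L] [Algebra K L]
  {ξ : L}

theorem norm_aeval (h : Cm K ξ) {p : K[X]} (hp : p ≠ 0) : ‖aeval ξ p‖ = exp p.natDegree := by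
  have hv : NA K (NormedField.toAbsoluteValue L) :=
    ⟨fun a b => IsUltrametricDist.norm_add_le_max a b, h.triv⟩
  have h1 : NormedField.toAbsoluteValue L ξ = exp 1 := h.xi
  have := hv.aeval_eq (a := ξ) (by rw [h1]; exact one_lt_exp_iff.2 one_pos) hp
  rw [h1, ← exp_nat_mul, mul_one] at this
  exact this

theorem aeval_ne (h : Cm K ξ) {p : K[X]} (hp : p ≠ 0) : aeval ξ p ≠ 0 :=
  norm_pos_iff.1 (by rw [norm_aeval h hp]; exact exp_pos _)

theorem norm_der (h : Cm K ξ) (p : K[X]) : ‖ξ * aeval ξ (derivative p)‖ ≤ ‖aeval ξ p‖ := by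
  by_cases h0 : derivative p = 0
  · simp [h0]
  have hp : p ≠ 0 := fun e => h0 (by simp [e])
  have hn : p.natDegree ≠ 0 := fun e => h0 (by rw [eq_C_of_natDegree_eq_zero e]; simp)
  rw [norm_mul, h.xi, norm_aeval h h0, norm_aeval h hp, ← exp_add, exp_le_exp]
  have : ((derivative p).natDegree + 1 : ℝ) ≤ p.natDegree := by
    exact_mod_cast natDegree_derivative_lt hn
  linarith

theorem apx (h : Cm K ξ) (a : L) : ∃ p : K[X], ‖a - aeval ξ p‖ < 1 := by
  obtain ⟨p, r, hr, hp⟩ := h.dense a 1 one_pos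
  refine ⟨p / r, ?_⟩
  have r0 := aeval_ne h hr
  have e : a - aeval ξ (p / r) = (a - aeval ξ p / aeval ξ r) + aeval ξ (p % r) / aeval ξ r := by
    have : aeval ξ p = aeval ξ r * aeval ξ (p / r) + aeval ξ (p % r) := by
      rw [← map_mul, ← map_add, EuclideanDomain.div_add_mod]
    rw [this]; field_simp; ring
  rw [e]
  refine (IsUltrametricDist.norm_add_le_max _ _).trans_lt (max_lt hp ?_)
  by_cases h0 : p % r = 0
  · simp [h0]
  rw [norm_div, norm_aeval h h0, norm_aeval h hr, div_lt_one (exp_pos _), exp_lt_exp, Nat.cast_lt]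
  exact natDegree_lt_natDegree h0 (EuclideanDomain.mod_lt p hr)

theorem dis (h : Cm K ξ) {a : L} (ha : a ≠ 0) : ∃ m : ℤ, ‖a‖ = exp m := by
  obtain ⟨p, r, hr, hp⟩ := h.dense a ‖a‖ (norm_pos_iff.2 ha)
  have e : ‖a‖ = ‖aeval ξ p / aeval ξ r‖ := by
    have := IsUltrametricDist.norm_add_eq_max_of_norm_ne_norm (x := a)
      (y := -(a - aeval ξ p / aeval ξ r)) (by rw [norm_neg]; exact hp.ne')
    rw [norm_neg, max_eq_left hp.le] at this
    rw [← this]; congr 1; ring
  have hp0 : p ≠ 0 := fun e0 => by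
    rw [e0, map_zero, zero_div, norm_zero] at e
    exact ha (norm_eq_zero.1 e)
  refine ⟨(p.natDegree : ℤ) - r.natDegree, ?_⟩
  rw [e, norm_div, norm_aeval h hp0, norm_aeval h hr, ← exp_sub]
  push_cast; rfl

/-- the derivation on the rational functions -/
theorem exd (h : Cm K ξ) : ∃ (j : RatFunc K →ₐ[K] L) (d : RatFunc K →ₗ[K] L),
    (∀ p : K[X], j (algebraMap _ _ p) = aeval ξ p) ∧ d (algebraMap K[X] _ X) = ξ ∧
    (∀ f g, d (f * g) = j f * d g + j g * d f) ∧ ∀ f, ‖d f‖ ≤ ‖j f‖ := by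
  let φ : K[X] →ₐ[K] TrivSqZeroExt L L := aeval (TrivSqZeroExt.inl ξ + TrivSqZeroExt.inr ξ)
  have h1 : ∀ p, (φ p).fst = aeval ξ p := fun p => by
    have := aeval_algHom_apply (TrivSqZeroExt.fstHom K L L)
      (TrivSqZeroExt.inl ξ + TrivSqZeroExt.inr ξ) p
    simpa [φ] using this.symm
  have h2 : ∀ p, (φ p).snd = ξ * aeval ξ (derivative p) := fun p => by
    induction p using Polynomial.induction_on with
    | C c => simp [φ, TrivSqZeroExt.algebraMap_eq_inl']
    | add p q hp hq => simp only [map_add, TrivSqZeroExt.snd_add, hp, hq]; ring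
    | monomial n c hp =>
      rw [pow_succ, ← mul_assoc, map_mul, TrivSqZeroExt.snd_mul, hp, h1, h1, derivative_mul]
      simp [φ]; ring
  have hu : ∀ y : nonZeroDivisors K[X], IsUnit (φ y) := fun y =>
    TrivSqZeroExt.isUnit_iff_isUnit_fst.2 (by
      rw [h1]; exact (aeval_ne h (nonZeroDivisors.ne_zero y.2)).isUnit)
  let ψ : RatFunc K →ₐ[K] TrivSqZeroExt L L := IsLocalization.liftAlgHom (M := nonZeroDivisors K[X]) hu
  have h3 : ∀ p : K[X], ψ (algebraMap _ _ p) = φ p := fun p => IsLocalization.lift_eq hu p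
  refine ⟨(TrivSqZeroExt.fstHom K L L).comp ψ,
    ((TrivSqZeroExt.sndHom L L).restrictScalars K).comp ψ.toLinearMap, fun p => ?_, ?_,
    fun f g => ?_, fun f => ?_⟩
  · show (ψ _).fst = _
    rw [h3, h1]
  · show (ψ _).snd = _
    rw [h3, h2]; simp
  · show (ψ _).snd = (ψ f).fst * (ψ g).snd + (ψ g).fst * (ψ f).snd
    rw [map_mul, TrivSqZeroExt.snd_mul]; simp [mul_comm]
  · show ‖(ψ f).snd‖ ≤ ‖(ψ f).fst‖
    have r0 := aeval_ne h f.denom_ne_zero
    have e : ψ f * φ f.denom = φ f.num := by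
      rw [← h3, ← h3, ← map_mul]
      congr 1
      conv_lhs => rw [← RatFunc.num_div_denom f]
      simp only [RatFunc.num_div_denom]
      exact (eq_div_iff (RatFunc.algebraMap_ne_zero f.denom_ne_zero)).1
        (RatFunc.num_div_denom f).symm
    have e1 := congrArg TrivSqZeroExt.fst e
    have e2 := congrArg TrivSqZeroExt.snd e
    rw [TrivSqZeroExt.fst_mul, h1, h1] at e1
    rw [TrivSqZeroExt.snd_mul, h1, h2, h2] at e2
    have e3 : (ψ f).snd * aeval ξ f.denom = ξ * aeval ξ (derivative f.num) +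
        -((ψ f).fst * (ξ * aeval ξ (derivative f.denom))) := by
      rw [← e2]; simp [mul_comm]
    have e4 : ‖(ψ f).snd‖ * ‖aeval ξ f.denom‖ ≤ ‖(ψ f).fst‖ * ‖aeval ξ f.denom‖ := by
      rw [← norm_mul, e3]
      refine (IsUltrametricDist.norm_add_le_max _ _).trans (max_le ?_ ?_)
      · rw [← norm_mul, e1]; exact norm_der h _
      · rw [norm_neg, norm_mul]
        exact mul_le_mul_of_nonneg_left (norm_der h _) (norm_nonneg _)
    exact le_of_mul_le_mul_right e4 (norm_pos_iff.2 r0)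

theorem der [CompleteSpace L] (h : Cm K ξ) :
    ∃ D : Derivation K L L, D ξ = ξ ∧ ∀ a, ‖D a‖ ≤ ‖a‖ := by
  obtain ⟨j, d, h1, h2, h3, h4⟩ := exd h
  have hd : DenseRange j := fun a => Metric.mem_closure_range_iff.2 fun ε hε => by
    obtain ⟨p, r, _, hp⟩ := h.dense a ε hε
    refine ⟨algebraMap K[X] _ p / algebraMap K[X] _ r, ?_⟩
    rw [map_div₀, h1, h1, dist_eq_norm]; exact hp
  obtain ⟨D, hc, hD⟩ := ext_add (j : RatFunc K →+ L) (d : RatFunc K →+ L) hd h4
  have hD' : ∀ f, D (j f) = d f := hD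
  have hadd : ∀ a b, D (a + b) = D a + D b := fun a b =>
    hd.induction_on₂ (p := fun a b => D (a + b) = D a + D b)
      (isClosed_eq (by fun_prop) (by fun_prop))
      (fun f g => by rw [← map_add, hD', hD', hD', map_add]) a b
  have hmul : ∀ a b, D (a * b) = a * D b + b * D a := fun a b =>
    hd.induction_on₂ (p := fun a b => D (a * b) = a * D b + b * D a)
      (isClosed_eq (by fun_prop) (by fun_prop))
      (fun f g => by rw [← map_mul, hD', hD', hD', h3]) a b
  have hs : ∀ (c : K) a, D (c • a) = c • D a := fun c a => by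
    simp only [Algebra.smul_def]
    exact hd.induction_on (p := fun a => D (algebraMap K L c * a) = algebraMap K L c * D a) a
      (isClosed_eq (by fun_prop) (by fun_prop)) fun f => by
        rw [← Algebra.smul_def, ← Algebra.smul_def, ← map_smul, hD', hD', map_smul]
  refine ⟨Derivation.mk' ⟨⟨D, hadd⟩, hs⟩ fun a b => hmul a b, ?_, fun a => ?_⟩
  · show D ξ = ξ
    have := hD' (algebraMap K[X] _ X)
    rwa [h1, h2, aeval_X] at this
  · exact hd.induction_on (p := fun a => ‖D a‖ ≤ ‖a‖) a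
      (isClosed_le (by fun_prop) (by fun_prop)) fun f => by rw [hD']; exact h4 f

end DERL

theorem derl : S_DERL := fun _ _ _ _ _ _ _ _ _ _ h _ =>
  ⟨DERL.der h, DERL.apx h, fun _ ha => DERL.dis h ha⟩

end Pool.Agent.KSP

end

end MrgPart1

-- ======== part 2: formerly Pool.Agent.MP_c8dfda_nt.kp.TRI
section MrgPart2

/-! Polynomial maps of the plane, row TRI: the trichotomy. -/

open Polynomial Filter Real
open scoped Topology

noncomputable section

namespace Pool.Agent.KSP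

theorem tri (h0 : S_OM) (h1 : S_GEN) (h2 : S_TRA) (h3 : S_TRM) : S_TRI := by
  intro K _ _ v hv hz
  obtain ⟨W⟩ := h0 K
  obtain ⟨c, -, τ, σ, hc, -, -, -, hx, hzz⟩ :=
    h1 K Unit (fun _ => v) ∅ (fun _ => hv) fun _ => hz
  have hw := hv.cp (σ : M K →ₐ[K] M K)
  have ez := hzz v hv
  have hl : ∀ φ, lg (cp v (σ : M K →ₐ[K] M K)) (τ.symm φ) = lg v φ := fun φ => by
    rw [hc.lg_cp]
    simp
  have ne : ∀ φ : R K, φ ≠ 0 → τ.symm φ ≠ 0 := fun φ h => (map_ne_zero_iff _ τ.symm.injective).2 h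
  obtain ⟨ζ, hζ⟩ := W.univ _ hw (ez ▸ hz) (by rw [hc.lg_cp, ez]; exact hx ())
  obtain ⟨k1, k2⟩ := h3 K W _ ζ hw (ez ▸ hz) hζ
  have t3 : T3 (cp v (σ : M K →ₐ[K] M K)) → T3 v := fun h φ hφ => by
    obtain ⟨r, hr⟩ := h _ (ne φ hφ)
    exact ⟨r, by rw [← hl, hr, ez]⟩
  rcases h2 K W ζ with ⟨a, ha⟩ | hi
  · by_cases e : Irrational a.2
    · obtain ⟨⟨s, m, ρ, n, a1, a2, a3, φ, a4, a5⟩, ra⟩ := (k2 a ha).1 e
      refine Or.inl ⟨⟨s, m, fun ψ => ρ (τ.symm ψ), fun ψ => n (τ.symm ψ), a1, a2, fun ψ hψ => ?_,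
        τ φ, (map_ne_zero_iff _ τ.injective).2 a4, by simpa using a5⟩, fun b hb => ?_⟩
      · rw [← hl, a3 _ (ne ψ hψ), ez]
      · obtain ⟨p, p0, hp⟩ := ra (σ.symm b) (by simpa using hb)
        refine ⟨p, p0, ?_⟩
        rw [cp_apply, ← aeval_algHom_apply] at hp
        simpa using hp
    · obtain ⟨s, hs⟩ := not_not.1 e
      obtain ⟨m, -, hm⟩ := (k2 a ha).2 s hs.symm
      refine Or.inr (t3 fun φ hφ => ?_)
      obtain ⟨b, hb⟩ := hm φ hφ
      exact ⟨b / m, by rw [hb]; simp⟩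
  · exact Or.inr (t3 (k1 hi).2)

end Pool.Agent.KSP

end

end MrgPart2

-- ======== part 3: formerly Pool.Agent.MP_c8dfda_nt.kp.CORE
section MrgPart3

/-! Polynomial maps of the plane: the core of the structure theorem. -/

open Polynomial Filter Real
open scoped Topology

noncomputable section

namespace Pool.Agent.KSP

namespace CORE

variable {K ι : Type} [Field K] [Fintype ι]

theorem ne_of_dg {u : R K} (h : 1 ≤ dg u) : u ≠ 0 := by
  rintro rfl
  simp at h

theorem lp_eq {W : Md K} {v : AV K} {ζ : Pt W.n} (hz : 0 < zz v) (h : Rel W.x v ζ) {φ : R K}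
    (hφ : φ ≠ 0) : max 0 (log (ζ.f (W.ev φ))) = lp v φ / zz v := by
  rw [lp, (h φ hφ).2, eq_div_iff hz.ne', max_mul_of_nonneg _ _ hz.le, zero_mul, mul_comm]

theorem X_le {W : Md K} {v : AV K} {ζ : Pt W.n} (hz : 0 < zz v) (h : Rel W.x v ζ) :
    ζ.f X ≤ exp 1 := by
  obtain ⟨h1, h2⟩ := h (xx 1) (xx_ne 1)
  rw [evA_xx1] at h1 h2
  have h3 := lg_xx_le v 1
  rw [h2] at h3
  have h4 : log (ζ.f X) ≤ 1 := le_of_mul_le_mul_left (by simpa using h3) hz
  rw [← exp_log h1]
  exact exp_le_exp.2 h4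

theorem in_of {W : Md K} {ζ : Pt W.n} {a : W.E × ℝ} (hD : W.IsD ζ a) (h : ζ.f X ≤ exp 1) :
    W.In a := by
  have h1 := W.gn_X_sub_C a 0
  rw [C_0, sub_zero, sub_zero, ← hD] at h1
  rw [h1] at h
  exact ⟨(le_max_right _ _).trans h, exp_le_exp.1 ((le_max_left _ _).trans h)⟩

/-- the pairing with the limit vector -/
theorem pair_eq (W : Md K) (hp : ∀ u : W.V, 0 ≤ W.B u u) (r a : W.V) (b : ℕ → W.V)
    (ε η : ℕ → ℝ) (hε : Tendsto ε atTop (𝓝 0)) (hη : Tendsto η atTop (𝓝 0)) (ha : W.B a a ≤ 1)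
    (hb : ∀ n, W.B (b n) (b n) ≤ 1) (hab : ∀ n, W.B a (b n) = 1 - η n)
    (hr : ∀ n, W.B r (b n) = 1 - ε n) : W.B r a = 1 := by
  have key : ∀ n, (W.B r a - 1 + ε n) ^ 2 ≤ W.B r r * (2 * η n) := fun n => by
    have h1 := W.cs hp r (a - b n)
    have h2 : W.B (a - b n) (a - b n) ≤ 2 * η n := by
      rw [W.B_sub_self, hab]; linarith [hb n]
    rw [map_sub, hr] at h1
    calc (W.B r a - 1 + ε n) ^ 2 = (W.B r a - (1 - ε n)) ^ 2 := by ring
      _ ≤ _ := h1
      _ ≤ _ := mul_le_mul_of_nonneg_left h2 (hp r)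
  have t1 : Tendsto (fun n => (W.B r a - 1 + ε n) ^ 2) atTop (𝓝 ((W.B r a - 1 + 0) ^ 2)) :=
    (hε.const_add _).pow 2
  have t2 : Tendsto (fun n => W.B r r * (2 * η n)) atTop (𝓝 (W.B r r * (2 * 0))) :=
    (hη.const_mul _).const_mul _
  have h3 := le_of_tendsto_of_tendsto' t1 t2 key
  rw [mul_zero, mul_zero, add_zero] at h3
  have h4 : W.B r a - 1 = 0 := pow_eq_zero_iff (two_ne_zero) |>.1 (le_antisymm h3 (sq_nonneg _))
  linarith

/-- the statement in generic coordinates -/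
theorem main [CharZero K] (W : Md K) (h2 : S_TRA) (h3 : S_TRM) (h4 : S_JAC) (h5 : S_NEF)
    (h6 : S_PENV) (h7 : S_PSD) (h8 : S_GAL) (h9 : S_CN1) (h10 : S_CN2) {N : ι → AV K}
    (hN : Fam N) (hx : ∀ i, lg (N i) (xx 0) = zz (N i)) {G : ℕ → R K} (hG : Thin N G)
    (hRA : ∀ i, ¬ RA (N i)) : ∃ α : ι → ℝ, (∀ i, Jv (N i) (α i)) ∧ (∀ i, Dis (N i)) ∧
      (0 ≤ ∑ i, α i → ∃ u : R K, 1 ≤ dg u ∧ ∀ i, lg (N i) u ≤ 0) := by
  choose ζ hζ using fun i => W.univ (N i) (hN.na i) (hN.inf i) (hx i)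
  replace hζ : ∀ i, Rel W.x (N i) (ζ i) := hζ
  have hD : ∀ i, ∃ (β : W.E) (s : ℚ), W.IsD (ζ i) (β, s) := fun i => by
    obtain ⟨t1, t2⟩ := h3 K W (N i) (ζ i) (hN.na i) (hN.inf i) (hζ i)
    rcases h2 K W (ζ i) with ⟨a, ha⟩ | h
    · have h' : ¬ Irrational a.2 := fun h => hRA i ((t2 a ha).1 h).2
      obtain ⟨s, hs⟩ := not_not.1 h'
      exact ⟨a.1, s, by rw [hs]; exact ha⟩
    · exact absurd (t1 h).1 (hRA i)
  choose β s hD using hD
  have hZ := hN.ZZ_pos
  refine ⟨fun i => zz (N i) * (1 + s i),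
    fun i => h4 K W (N i) (ζ i) (β i) (s i) (hN.na i) (hN.inf i) (hζ i) (hD i),
    fun i => ((h3 K W (N i) (ζ i) (hN.na i) (hN.inf i) (hζ i)).2 _ (hD i)).2 (s i) rfl,
    fun hα => ?_⟩
  have hX : ∀ i, (ζ i).f X ≤ exp 1 := fun i => X_le (hN.inf i) (hζ i)
  have hIn : ∀ i, W.In (β i, s i) := fun i => in_of (hD i) (hX i)
  let w : ι → ℝ := fun i => zz (N i) / ZZ N
  have hw : ∀ i, 0 < w i := fun i => div_pos (hN.inf i) hZ
  have hw1 : ∑ i, w i = 1 := by
    rw [← Finset.sum_div]; exact div_self hZ.ne'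
  have ha := h5 K W ι ζ w (fun i => (β i, s i)) (fun i => (hw i).le) hw1 hX hIn
    (fun i => by
      rw [hD i, W.gn_X_sub_C, sub_self, map_zero]
      exact max_le le_rfl (exp_pos _).le)
    (fun φ hφ => ⟨fun i => (hζ i φ hφ).1, by
      have : ∑ i, w i * log ((ζ i).f (W.ev φ)) = Nn N φ / ZZ N := by
        rw [Nn, Finset.sum_div]
        refine Finset.sum_congr rfl fun i _ => ?_
        rw [(hζ i φ hφ).2]
        simp only [w]
        ring
      rw [this]
      exact div_nonneg (hN.pf φ hφ) hZ.le⟩)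
  choose p hp using fun n => h6 K W (G n) (hG.1 n)
  have hDpos : ∀ n, (0 : ℝ) < dg (G n) := fun n => Nat.cast_pos.2 (hG.1 n)
  let b : ℕ → W.V := fun n => ((dg (G n) : ℝ))⁻¹ • W.rt (W.ev (G n)) (p n)
  have hav : ∀ l n, W.B (W.av (β l, s l)) (b n) =
      1 - lp (N l) (G n) / dg (G n) / zz (N l) := fun l n => by
    have e1 := (h8 K W).2.2.1 (W.evL (G n)) (p n) (hp n).inv (β l, s l)
    rw [W.up_evL] at e1
    have e2 := (hp n).ins _ (hIn l)
    rw [← hD l, lp_eq (hN.inf l) (hζ l) (ne_of_dg (hG.1 n))] at e2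
    have := (hDpos n).ne'
    have := (hN.inf l).ne'
    simp only [b, map_smul, smul_eq_mul]
    rw [e1, e2]
    field_simp
  have hB : ∀ l, W.B (W.av (β l, s l)) (∑ i, w i • W.av (β i, s i)) = 1 := fun l => by
    refine pair_eq W (h7 K W) _ _ b (fun n => lp (N l) (G n) / dg (G n) / zz (N l))
      (fun n => hh N (G n) / dg (G n) / ZZ N) ?_ ?_ ha (fun n => ?_) (fun n => ?_) (hav l)
    · have t : Tendsto (fun n => lp (N l) (G n) / dg (G n)) atTop (𝓝 0) :=
        squeeze_zero (fun n => div_nonneg (lp_nonneg _ _) (hDpos n).le)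
          (fun n => div_le_div_of_nonneg_right (lp_le_hh N (G n) l) (hDpos n).le) hG.2
      simpa using t.div_const (zz (N l))
    · simpa using hG.2.div_const (ZZ N)
    · have e := (hp n).sq
      have := hDpos n
      simp only [b, map_smul, LinearMap.smul_apply, smul_eq_mul]
      rw [← mul_assoc, ← mul_inv, inv_mul_le_iff₀ (by positivity)]
      linarith
    · rw [map_sum, LinearMap.sum_apply]
      simp only [map_smul, LinearMap.smul_apply, smul_eq_mul, hav]
      have e : ∀ i, w i * (1 - lp (N i) (G n) / dg (G n) / zz (N i)) =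
          w i - lp (N i) (G n) / dg (G n) / ZZ N := fun i => by
        have := (hN.inf i).ne'
        simp only [w]
        field_simp
      simp only [e]
      rw [Finset.sum_sub_distrib, hw1, hh, Finset.sum_div, Finset.sum_div]
  obtain ⟨U, hU⟩ := h9 K W ι β s w hIn hw hw1 hB (by
    have : ∑ i, w i * (1 + (s i : ℝ)) = (∑ i, zz (N i) * (1 + (s i : ℝ))) / ZZ N := by
      rw [Finset.sum_div]
      refine Finset.sum_congr rfl fun i _ => ?_
      simp only [w]
      ring
    rw [this]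
    exact div_nonneg hα hZ.le)
  obtain ⟨u, hu, hu'⟩ := h10 K W ι _ U hU
  refine ⟨u, hu, fun i => ?_⟩
  obtain ⟨e1, e2⟩ := hζ i u (ne_of_dg hu)
  rw [e2]
  refine mul_nonpos_of_nonneg_of_nonpos (hN.inf i).le (log_nonpos e1.le ?_)
  rw [hD i]
  exact hu' i

section transport

variable {τ : R K ≃ₐ[K] R K} {σ : M K ≃ₐ[K] M K}

theorem lg_symm (hc : Cmp (τ : R K →ₐ[K] R K) (σ : M K →ₐ[K] M K)) (v : AV K) (φ : R K) :
    lg (cp v (σ : M K →ₐ[K] M K)) (τ.symm φ) = lg v φ := by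
  rw [hc.lg_cp]
  simp

theorem symm_ne {φ : R K} (h : φ ≠ 0) : τ.symm φ ≠ 0 := (map_ne_zero_iff _ τ.symm.injective).2 h

theorem cp_aeval (v : AV K) (a : M K) (p : K[X]) :
    cp v (σ : M K →ₐ[K] M K) (aeval a p) = v (aeval (σ a) p) := by
  rw [cp_apply, ← aeval_algHom_apply]
  rfl

theorem ra_of (v : AV K) (h : RA (cp v (σ : M K →ₐ[K] M K))) : RA v := fun a ha => by
  obtain ⟨p, hp, h'⟩ := h (σ.symm a) (by simpa using ha)
  refine ⟨p, hp, ?_⟩
  rwa [cp_aeval, AlgEquiv.apply_symm_apply] at h'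

theorem jv_of (hc : Cmp (τ : R K →ₐ[K] R K) (σ : M K →ₐ[K] M K))
    (hJ : JJ (τ : R K →ₐ[K] R K) = 1) (v : AV K) (α : ℝ)
    (h : Jv (cp v (σ : M K →ₐ[K] M K)) α) : Jv v α := fun a f g ha hf hg hla hp => by
  have hio : ∀ φ, σ (io (τ.symm φ)) = io φ := fun φ => by
    have := hc (τ.symm φ)
    simpa using this
  obtain ⟨e1, e2⟩ := h (τ.symm a) (τ.symm f) (τ.symm g) (symm_ne ha) (symm_ne hf) (symm_ne hg)
    (by rwa [lg_symm hc]) (fun p hp0 => by
      rw [cp_aeval, map_div₀, hio, hio]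
      exact hp p hp0)
  have hj : ∀ φ ψ : R K, jac (τ.symm φ) (τ.symm ψ) = τ.symm (jac φ ψ) := fun φ ψ => by
    have := jac_map (τ : R K →ₐ[K] R K) (τ.symm φ) (τ.symm ψ)
    rw [hJ, one_mul] at this
    apply τ.injective
    simpa using this.symm
  rw [hj, hj, ← map_mul, ← map_mul, ← map_sub] at e1 e2
  rw [lg_symm hc, lg_symm hc, lg_symm hc, lg_symm hc] at e2
  exact ⟨fun h0 => e1 (by rw [h0, map_zero]), e2⟩

end transport

end CORE

open CORE in
theorem core (h0 : S_OM) (h1 : S_GEN) (h2 : S_TRA) (h3 : S_TRM) (h4 : S_JAC) (h5 : S_NEF)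
    (h6 : S_PENV) (h7 : S_PSD) (h8 : S_GAL) (h9 : S_CN1) (h10 : S_CN2) : S_CORE := by
  intro K ι _ _ _ N hN G hG hRA
  obtain ⟨W⟩ := h0 K
  obtain ⟨c, -, τ, σ, hc, hx0, hx1, hdg, hx, hz⟩ := h1 K ι N ∅ hN.na hN.inf
  have hz' : ∀ i, zz (cp (N i) (σ : M K →ₐ[K] M K)) = zz (N i) := fun i => hz _ (hN.na i)
  have hJ : JJ (τ : R K →ₐ[K] R K) = 1 := by
    have e0 : (τ : R K →ₐ[K] R K) (xx 0) = xx 0 + cc c * xx 1 := hx0
    have e1 : (τ : R K →ₐ[K] R K) (xx 1) = xx 1 := hx1
    rw [JJ, e0, e1, jac]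
    simp
  have hds : ∀ φ, dg (τ.symm φ) = dg φ := fun φ => by
    rw [← hdg, AlgEquiv.apply_symm_apply]
  have hN' : Fam fun i => cp (N i) (σ : M K →ₐ[K] M K) :=
    ⟨⟨fun i => (hN.na i).cp _, fun φ hφ => by
      have := hN.pf _ (hc.ne hφ)
      simpa only [Nn, hc.lg_cp] using this⟩, fun i => by rw [hz']; exact hN.inf i, hN.ne⟩
  obtain ⟨α, a1, a2, a3⟩ := main W h2 h3 h4 h5 h6 h7 h8 h9 h10 hN'
    (fun i => by rw [hc.lg_cp, hz']; exact hx i) (G := fun n => τ.symm (G n))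
    ⟨fun n => by rw [hds]; exact hG.1 n, by
      simpa only [hh, lp, lg_symm hc, hds] using hG.2⟩
    (fun i h => hRA i (ra_of _ h))
  refine ⟨α, fun i => jv_of hc hJ _ _ (a1 i), fun i => ?_, fun h => ?_⟩
  · obtain ⟨m, hm, h⟩ := a2 i
    refine ⟨m, hm, fun φ hφ => ?_⟩
    obtain ⟨a, ha⟩ := h (τ.symm φ) (symm_ne hφ)
    exact ⟨a, by rwa [lg_symm hc, hz'] at ha⟩
  · obtain ⟨u, hu, hu'⟩ := a3 h
    refine ⟨τ u, by rwa [hdg], fun i => ?_⟩
    have := hu' i
    rwa [hc.lg_cp] at this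

end Pool.Agent.KSP

end

end MrgPart3

-- ======== part 4: formerly Pool.Agent.MP_c8dfda_nt.kp.RELB
section MrgPart4

/-! Polynomial maps of the plane: the degree of the image of a thin sequence. -/

open Polynomial Filter Real
open scoped Topology

noncomputable section

namespace Pool.Agent.KSP

namespace RELB

variable {K : Type} [Field K]

theorem th_CC (φ : R K) : th (C (C φ)) = bc φ := by
  simp [th]

theorem bc_xx (j : Fin 2) : bc (xx j : R K) = xx j := by
  simp [bc]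

theorem sub_CC (s : R K →ₐ[K] R K) (φ : R K) : sub s (C (C φ)) = C (s φ) := by
  simp [sub]

theorem gs_C {A : Type} [CommRing A] {v : AbsoluteValue A ℝ} (hv : IsNonarchimedean v) (a : A) :
    gs hv (C a) = v a := gaussNorm_C v 1 a

theorem coeff_le_gs {A : Type} [CommRing A] {v : AbsoluteValue A ℝ} (hv : IsNonarchimedean v)
    (P : A[X]) (i : ℕ) : v (P.coeff i) ≤ gs hv P := by
  have := le_gaussNorm v P one_pos.le i
  rwa [one_pow, mul_one] at this

theorem G2_CC {v : AV K} (hv : IsNonarchimedean v) (φ : R K) : G2 hv (C (C φ)) = v (io φ) := by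
  rw [G2, map_C, gs_C, coe_mapRingHom, map_C, gs_C]

theorem coeff_le_G2 {v : AV K} (hv : IsNonarchimedean v) (Φ : (R K)[X][X]) (i j : ℕ) :
    v (io ((Φ.coeff i).coeff j)) ≤ G2 hv Φ := by
  refine le_trans ?_ (coeff_le_gs (gs_na hv) (Φ.map (mapRingHom io)) i)
  rw [coeff_map, coe_mapRingHom, ← coeff_map]
  exact coeff_le_gs hv _ j

/-- the chain rule for the substitution -/
theorem der_sub (s : R K →ₐ[K] R K) (Ψ : (R K)[X][X]) : ∃ Φ : (R K)[X][X],
    derivative (sub s Ψ) = sub s Φ - C (xx 0) * sub s (derivative Ψ) := by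
  induction Ψ using Polynomial.induction_on' with
  | add p q hp hq =>
    obtain ⟨a, ha⟩ := hp
    obtain ⟨b, hb⟩ := hq
    exact ⟨a + b, by rw [map_add, map_add, map_add, map_add, map_add, ha, hb]; ring⟩
  | monomial n p =>
    refine ⟨monomial n (derivative p), ?_⟩
    simp only [sub, derivative_monomial, coe_eval₂RingHom, eval₂_monomial, coe_mapRingHom,
      derivative_mul, derivative_pow, derivative_map, derivative_sub, derivative_C, derivative_X,
      Polynomial.map_mul, Polynomial.map_natCast, map_natCast]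
    ring

section family

variable {ι : Type} [Fintype ι] {N : ι → AV K} {N' : ι → AV (K2 K)}
  (hN : ∀ i, NA K (N i)) (h : ∀ i Φ, N' i (io (th Φ)) = G2 (hN i).1 Φ)
include h

omit [Fintype ι] in
theorem lg_bc (i : ι) (φ : R K) : lg (N' i) (bc φ) = lg (N i) φ := by
  rw [lg, lg, ← th_CC, h, G2_CC]

omit [Fintype ι] in
theorem lp_bc (i : ι) (φ : R K) : lp (N' i) (bc φ) = lp (N i) φ := by
  rw [lp, lp, lg_bc hN h]

omit [Fintype ι] in
theorem zz_bc (i : ι) : zz (N' i) = zz (N i) := by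
  rw [zz, zz, ← lp_bc hN h, ← lp_bc hN h, bc_xx, bc_xx]

theorem hh_bc (φ : R K) : hh N' (bc φ) = hh N φ := by
  simp only [hh, lp_bc hN h]

theorem ZZ_bc : ZZ N' = ZZ N := by
  simp only [ZZ, zz_bc hN h]

theorem fam_bc (hF : Fam N) (hN' : ∀ i, NA (K2 K) (N' i))
    (h3 : ∀ φ : R (K2 K), ∃ (c : K2 K) (Φ : (R K)[X][X]), c ≠ 0 ∧ th Φ = cc c * φ) : Fam N' := by
  refine ⟨⟨hN', fun φ hφ => ?_⟩, fun i => by rw [zz_bc hN h]; exact hF.inf i, hF.ne⟩
  obtain ⟨c, Φ, hc, e⟩ := h3 φ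
  have hc' : (cc c : R (K2 K)) ≠ 0 := by simpa using hc
  have h0 : Φ ≠ 0 := fun k => mul_ne_zero hc' hφ (by rw [← e, k, map_zero])
  have h1 : (Φ.coeff Φ.natDegree).coeff (Φ.coeff Φ.natDegree).natDegree ≠ 0 :=
    leadingCoeff_ne_zero.2 (leadingCoeff_ne_zero.2 h0)
  refine (hF.pf _ h1).trans (Finset.sum_le_sum fun i _ => ?_)
  have h2 : lg (N' i) φ = log (G2 (hN i).1 Φ) := by
    rw [← h, e]
    show _ = lg (N' i) (cc c * φ)
    rw [lg_mul _ hc' hφ, lg_cc (hN' i), zero_add]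
  rw [h2]
  exact log_le_log ((N i).pos (io_ne h1)) (coeff_le_G2 _ _ _ _)

end family

end RELB

theorem relb (h1 : S_SHARP) (h2 : S_RELA) (h3 : S_GX) (h4 : S_KLD) : S_RELB := by
  intro K ι _ _ _ N s σ μ E G hG ε hε
  obtain ⟨hu, a, ha, ha0⟩ := h1 K ι N s σ μ E
  obtain ⟨Ψ, hΨ, hΨ', hv⟩ := (h2 K s σ E.cmp).1 a ha
  obtain ⟨g1, g2, g3, g4, g5⟩ := h3 K
  choose N' hN' h using fun i => g1 (N i) (E.na i)
  have : CharZero (K2 K) := charZero_of_injective_algebraMap (algebraMap K (K2 K)).injective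
  have hF : Fam N' := RELB.fam_bc E.na h E.toFam hN' fun φ => by
    obtain ⟨c, Φ, k1, k2, -⟩ := g3 φ
    exact ⟨c, Φ, k1, k2⟩
  have hΨ0 : Ψ ≠ 0 := fun k => hΨ' (by rw [k, derivative_zero, map_zero])
  obtain ⟨Φ, hΦ⟩ := RELB.der_sub s Ψ
  rw [hΨ, derivative_zero, eq_comm, sub_eq_zero] at hΦ
  have key := h4 (K2 K) ι N' hF (ln (bc (s (xx 0)))) (ln (bc (s (xx 1)))) (th Ψ)
    (fun n => bc (G n)) ?_ ⟨th Φ, th (derivative Ψ), ?_, ?_⟩ ((map_ne_zero_iff _ g2).2 hΨ0) ?_
    ⟨fun n => by rw [(g4 _).1]; exact hG.1 n, ?_⟩ ε hε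
  · have hZ := E.toFam.ZZ_pos
    have hμ := E.pos
    have hn : μ * Nn N' (th Ψ) = qq σ * ZZ N := by
      have : ∀ i, μ * lg (N' i) (th Ψ) = μ * qq σ * lg (N i) a + qq σ * zz (N i) := fun i => by
        rw [lg, h]
        exact hv (N i) (E.na i) μ hμ (hu i) (E.eig i)
      rw [Nn, Finset.mul_sum, Finset.sum_congr rfl fun i _ => this i, Finset.sum_add_distrib,
        ← Finset.mul_sum, ← Finset.mul_sum]
      show μ * qq σ * Nn N a + qq σ * ZZ N = _
      rw [ha0, mul_zero, zero_add]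
    have hq : Nn N' (th Ψ) / ZZ N' = qq σ / μ := by
      rw [RELB.ZZ_bc E.na h, div_eq_div_iff hZ.ne' hμ.ne', mul_comm, hn]
    refine key.mono fun n hn => ?_
    rw [hq, (g4 _).1, ← RELB.th_CC (G n), (g5 s _).1, RELB.sub_CC, eval₂_C] at hn
    rw [← (g4 (s (G n))).2]
    exact hn
  · rw [(g4 _).2]
    exact (one_le_dg_map E.cmp.inj (by simp)).trans (le_max_left _ _)
  · rw [(g5 s _).1]
    exact fun k => hΨ' ((g5 s _).2 k)
  · rw [(g5 s _).1, (g5 s _).1, hΦ, eval₂_mul, eval₂_C]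
    congr 1
    simp [RELB.bc_xx, ln]
  · rw [(g5 s _).1, hΨ, eval₂_zero]
  · simp only [RELB.hh_bc E.na h, (g4 _).1]
    exact hG.2

end Pool.Agent.KSP

end

end MrgPart4

-- ======== part 5: formerly Pool.Agent.MP_c8dfda_nt.kp.RELC
section MrgPart5

/-! Polynomial maps of the plane: the topological degree is at most `2 μ` times the degree. -/

open Polynomial Filter Real
open scoped Topology

noncomputable section

namespace Pool.Agent.KSP

namespace RELC

theorem sum_succ (n : ℕ) : (∑ k ∈ Finset.range n, (k + 1)) * 2 = n * (n + 1) := by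
  induction n with
  | zero => rfl
  | succ n ih => rw [Finset.sum_range_succ, add_mul, ih]; ring

/-- the exponent attached to an index -/
def ex (t : (_ : ℕ) × ℕ) : Fin 2 →₀ ℕ := Finsupp.single 0 t.2 + Finsupp.single 1 (t.1 - t.2)

theorem ex_zero (t : (_ : ℕ) × ℕ) : ex t 0 = t.2 := by simp [ex]

theorem ex_one (t : (_ : ℕ) × ℕ) : ex t 1 = t.1 - t.2 := by simp [ex]

/-- two polynomials of degree at most `D` satisfy a relation of degree at most `2 D` -/
theorem exists_rel {F : Type} [Field F] (u w : F[X]) {D : ℕ} (hD : 1 ≤ D) (hu : u.natDegree ≤ D)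
    (hw : w.natDegree ≤ D) :
    ∃ φ : R F, φ ≠ 0 ∧ dg φ ≤ 2 * D ∧ MvPolynomial.aeval ![u, w] φ = 0 := by
  classical
  let T : Finset ((_ : ℕ) × ℕ) := (Finset.range (2 * D + 1)).sigma fun k => Finset.range (k + 1)
  have hT : ∀ t : T, t.1.1 ≤ 2 * D ∧ t.1.2 ≤ t.1.1 := fun t => by
    have := t.2
    simp only [T, Finset.mem_sigma, Finset.mem_range] at this
    omega
  have hc : T.card * 2 = (2 * D + 1) * (2 * D + 1 + 1) := by
    simp only [T, Finset.card_sigma, Finset.card_range]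
    exact sum_succ _
  have hm : ∀ t : T, u ^ t.1.2 * w ^ (t.1.1 - t.1.2) ∈ degreeLT F (2 * D * D + 1) := fun t => by
    rw [mem_degreeLT]
    refine (degree_le_natDegree).trans_lt (Nat.cast_lt.2 (Nat.lt_succ_of_le ?_))
    refine natDegree_mul_le.trans ((add_le_add (natDegree_pow_le.trans
      (Nat.mul_le_mul_left _ hu)) (natDegree_pow_le.trans (Nat.mul_le_mul_left _ hw))).trans ?_)
    rw [← add_mul]
    exact Nat.mul_le_mul_right _ (by have := hT t; omega)
  let f : T → degreeLT F (2 * D * D + 1) := fun t => ⟨_, hm t⟩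
  have hf : ¬ LinearIndependent F f := fun h => by
    have h1 := h.fintype_card_le_finrank
    rw [Fintype.card_coe, (degreeLTEquiv F _).finrank_eq, Module.finrank_fin_fun] at h1
    nlinarith
  obtain ⟨g, h1, t0, h2⟩ := Fintype.not_linearIndependent_iff.1 hf
  refine ⟨∑ t : T, MvPolynomial.monomial (ex t.1) (g t), fun h0 => h2 ?_, ?_, ?_⟩
  · have := congrArg (MvPolynomial.coeff (ex t0.1)) h0
    rw [MvPolynomial.coeff_sum, MvPolynomial.coeff_zero, Finset.sum_eq_single t0] at this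
    · rwa [MvPolynomial.coeff_monomial, if_pos rfl] at this
    · intro t _ ht
      rw [MvPolynomial.coeff_monomial, if_neg]
      intro e
      have e0 := congrArg (fun m => m 0) e
      have e1 := congrArg (fun m => m 1) e
      simp only [ex_zero, ex_one] at e0 e1
      have k1 := hT t
      have k2 := hT t0
      exact ht (Subtype.ext (Sigma.ext (by omega) (heq_of_eq e0)))
    · exact fun h => absurd (Finset.mem_univ _) h
  · refine MvPolynomial.totalDegree_finsetSum_le fun t _ => ?_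
    refine (MvPolynomial.totalDegree_monomial_le _ _).trans ?_
    rw [Finsupp.sum_fintype _ _ (fun _ => rfl), Fin.sum_univ_two]
    have := hT t
    simp only [id, ex_zero, ex_one]
    omega
  · have := congrArg (Subtype.val) h1
    rw [Submodule.coe_sum, Submodule.coe_zero] at this
    rw [map_sum, ← this]
    refine Finset.sum_congr rfl fun t _ => ?_
    rw [MvPolynomial.aeval_monomial, Finsupp.prod_fintype _ _ (fun _ => pow_zero _),
      Fin.prod_univ_two, ex_zero, ex_one, Submodule.coe_smul, Algebra.smul_def]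
    rfl

theorem exists_gs {A : Type} [CommRing A] {v : AbsoluteValue A ℝ} (hv : IsNonarchimedean v)
    (P : A[X]) : ∃ i, gs hv P = v (P.coeff i) := by
  obtain ⟨i, hi⟩ := exists_eq_gaussNorm v 1 P
  exact ⟨i, by rwa [one_pow, mul_one] at hi⟩

theorem exists_G2 {K : Type} [Field K] {v : AV K} (hv : IsNonarchimedean v) (Φ : (R K)[X][X]) :
    ∃ i j, G2 hv Φ = v (io ((Φ.coeff i).coeff j)) := by
  obtain ⟨i, hi⟩ := exists_gs (gs_na hv) (Φ.map (mapRingHom io))
  obtain ⟨j, hj⟩ := exists_gs hv ((Φ.map (mapRingHom io)).coeff i)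
  refine ⟨i, j, hi.trans (hj.trans ?_)⟩
  rw [coeff_map, coe_mapRingHom, coeff_map]

end RELC

theorem relc (h1 : S_SHARP) (h2 : S_RELA) (h3 : S_GX) : S_RELC := by
  intro K ι _ _ _ N s σ μ E
  obtain ⟨hu, -⟩ := h1 K ι N s σ μ E
  obtain ⟨-, -, g3, g4, g5⟩ := h3 K
  obtain ⟨φ0, k0, k1, k2⟩ := RELC.exists_rel (ln (bc (s (xx 0)))) (ln (bc (s (xx 1))))
    (one_le_dd E.cmp.inj) (by rw [(g4 _).2]; exact dg_xx_le s 0)
    (by rw [(g4 _).2]; exact dg_xx_le s 1)
  obtain ⟨c, Φ, hc, e, hd⟩ := g3 φ0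
  have hc' : (cc c : R (K2 K)) ≠ 0 := by simpa using hc
  have h0 : Φ ≠ 0 := fun k => mul_ne_zero hc' k0 (by rw [← e, k, map_zero])
  have hs : sub s Φ = 0 := (g5 s Φ).2 (by rw [← (g5 s Φ).1, e, map_mul, k2, mul_zero])
  obtain ⟨φ, hφ, hv⟩ := (h2 K s σ E.cmp).2 Φ h0 hs
  have hμ := E.pos
  have key : ∀ i, qq σ * zz (N i) + μ * lg (N i) φ ≤ 2 * μ * dd s * zz (N i) := fun i => by
    refine (hv (N i) (E.na i) μ hμ (hu i) (E.eig i)).trans ?_
    obtain ⟨a, b, hab⟩ := RELC.exists_G2 (E.na i).1 Φ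
    have h4 := lg_le (E.na i) ((Φ.coeff a).coeff b)
    have h5 : (dg ((Φ.coeff a).coeff b) : ℝ) ≤ 2 * dd s := by exact_mod_cast (hd a b).trans k1
    have h6 := h4.trans (mul_le_mul_of_nonneg_right h5 (zz_nonneg _))
    rw [hab]
    calc μ * lg (N i) ((Φ.coeff a).coeff b) ≤ μ * (2 * dd s * zz (N i)) :=
          mul_le_mul_of_nonneg_left h6 hμ.le
      _ = _ := by ring
  have hsum := Finset.sum_le_sum fun i (_ : i ∈ Finset.univ) => key i
  rw [Finset.sum_add_distrib, ← Finset.mul_sum, ← Finset.mul_sum, ← Finset.mul_sum] at hsum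
  have h7 : 0 ≤ μ * ∑ i, lg (N i) φ := mul_nonneg hμ.le (E.pf φ hφ)
  exact le_of_mul_le_mul_right (a := ZZ N) ((le_add_of_nonneg_right h7).trans hsum) E.toFam.ZZ_pos

end Pool.Agent.KSP

end

end MrgPart5

-- ======== part 6: formerly Pool.Agent.MP_c8dfda_nt.kp.RELD
section MrgPart6

/-! Polynomial maps of the plane: the relation between the eigenvalue and the degrees. -/

open Polynomial Filter Real
open scoped Topology

noncomputable section

namespace Pool.Agent.KSP

namespace RELD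

theorem le_of_pow {a b C : ℝ} (hb : 0 < b) (h : ∀ k, 1 ≤ k → a ^ k ≤ C * b ^ k) : a ≤ b := by
  by_contra hab
  have h1 : 1 < a / b := (one_lt_div hb).2 (not_le.1 hab)
  obtain ⟨k, hk, k1⟩ := (((tendsto_pow_atTop_atTop_of_one_lt h1).eventually_gt_atTop C).and
    (eventually_ge_atTop 1)).exists
  rw [div_pow, lt_div_iff₀ (pow_pos hb k)] at hk
  exact hk.not_ge (h k k1)

end RELD

theorem reld (h1 : S_THIN) (h2 : S_RELB) (h3 : S_RELC) (h4 : S_TOW) : S_RELD := by
  intro K ι _ _ _ N s σ δ β hc hL b0 bδ hN m μ m1 hP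
  obtain ⟨t1, -, t3⟩ := h1 K ι N s σ δ β hc hL b0 bδ hN
  have μ0 := hP.pos
  have δ0 : 0 < δ := one_pos.trans hL.one
  have hE : ∀ k, Eig N (s ^ (m * k)) (σ ^ (m * k)) (μ ^ k) := fun k =>
    { toFam := hN.1
      toPer := by rw [pow_mul]; exact hP.pow k
      cmp := hc.pow _
      thin := t1 _ }
  have hq : ∀ k, (qq (σ ^ k) : ℝ) = (qq σ : ℝ) ^ k := fun k => by
    rw [(h4 K σ).2.2, Nat.cast_pow]
  refine ⟨le_antisymm ?_ ?_, ?_, fun k _ => hE k⟩
  · have E := hE 1
    rw [mul_one, pow_one] at E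
    have := t3 m _ (h2 K ι N _ _ _ E)
    rwa [hq, le_div_iff₀ μ0, mul_comm] at this
  · have key : ∀ γ, δ < γ → (qq σ : ℝ) ^ m ≤ μ * γ ^ m := fun γ hγ => by
      obtain ⟨C, hC⟩ := hL.up γ hγ
      refine RELD.le_of_pow (C := 2 * C) (mul_pos μ0 (pow_pos (δ0.trans hγ) m)) fun k _ => ?_
      have := h3 K ι N _ _ _ (hE k)
      dsimp only at this
      rw [hq, pow_mul] at this
      refine this.trans ((mul_le_mul_of_nonneg_left (hC _) (by positivity)).trans (le_of_eq ?_))
      rw [mul_pow, pow_mul]; ring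
    have hc : ContinuousWithinAt (fun γ : ℝ => μ * γ ^ m) (Set.Ioi δ) δ :=
      Continuous.continuousWithinAt (by fun_prop)
    exact ge_of_tendsto hc (eventually_nhdsWithin_of_forall key)
  · obtain ⟨i⟩ := hN.1.ne
    obtain ⟨j, hj⟩ := exists_lg_xx (hN.1.inf i)
    obtain ⟨C, hC⟩ := hN.2
    have z0 := hN.1.inf i
    refine lt_of_le_of_lt (RELD.le_of_pow (C := C / zz (N i)) (pow_pos b0 m) fun k _ => ?_)
      (pow_lt_pow_left₀ bδ b0.le (by omega))
    have := hC i (m * k) j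
    rw [(hE k).toPer.lg_eq (hE k).cmp, hj, pow_mul] at this
    rw [div_mul_eq_mul_div, le_div_iff₀ z0]
    exact this

end Pool.Agent.KSP

end

end MrgPart6

-- ======== part 7: formerly Pool.Agent.MP_c8dfda_nt.kp.GRP
section MrgPart7

/-! Polynomial maps of the plane: indices of subgroups of the line. -/

open Polynomial Filter Real
open scoped Topology

noncomputable section

namespace Pool.Agent.KSP

namespace GRP

theorem two {Γ : AddSubgroup ℝ} {z : ℝ} (h : ∀ t ∈ Γ, ∃ r : ℚ, t = z * r) {x y : ℝ} (hx : x ∈ Γ)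
    (hy : y ∈ Γ) : ∃ t ∈ Γ, (∃ k : ℤ, x = k • t) ∧ ∃ k : ℤ, y = k • t := by
  obtain ⟨r, rfl⟩ := h x hx
  obtain ⟨r', rfl⟩ := h y hy
  have d1 : (r.den : ℝ) ≠ 0 := Nat.cast_ne_zero.2 r.den_nz
  have d2 : (r'.den : ℝ) ≠ 0 := Nat.cast_ne_zero.2 r'.den_nz
  set u : ℝ := z / (r.den * r'.den) with hu
  set A : ℤ := r.num * r'.den with hA
  set B : ℤ := r'.num * r.den with hB
  have e1 : z * r = A * u := by
    rw [hA, hu, Rat.cast_def]
    push_cast
    field_simp
  have e2 : z * r' = B * u := by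
    rw [hB, hu, Rat.cast_def]
    push_cast
    field_simp
  obtain ⟨a, ha⟩ := Int.gcd_dvd_left (a := A) (b := B)
  obtain ⟨b, hb⟩ := Int.gcd_dvd_right (a := A) (b := B)
  refine ⟨((Int.gcd A B : ℤ) : ℝ) * u, ?_, ⟨a, ?_⟩, b, ?_⟩
  · have k := Γ.add_mem (Γ.zsmul_mem hx (Int.gcdA A B)) (Γ.zsmul_mem hy (Int.gcdB A B))
    convert k using 1
    rw [Int.gcd_eq_gcd_ab, e1, e2, zsmul_eq_mul, zsmul_eq_mul]
    push_cast
    ring
  · rw [e1, zsmul_eq_mul]
    conv_lhs => rw [ha]
    push_cast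
    ring
  · rw [e2, zsmul_eq_mul]
    conv_lhs => rw [hb]
    push_cast
    ring

theorem many {Γ : AddSubgroup ℝ} {z : ℝ} (h : ∀ t ∈ Γ, ∃ r : ℚ, t = z * r) (S : Finset Γ) :
    ∃ t : Γ, ∀ x ∈ S, ∃ k : ℤ, x = k • t := by
  classical
  induction S using Finset.induction with
  | empty => exact ⟨0, by simp⟩
  | insert y S _ ih =>
    obtain ⟨t, ht⟩ := ih
    obtain ⟨u, hu, ⟨k, hk⟩, l, hl⟩ := two h y.2 t.2
    refine ⟨⟨u, hu⟩, fun x hx => ?_⟩
    rcases Finset.mem_insert.1 hx with rfl | hx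
    · exact ⟨k, Subtype.ext hk⟩
    · obtain ⟨j, rfl⟩ := ht x hx
      refine ⟨j * l, Subtype.ext ?_⟩
      rw [mul_smul]
      exact congrArg (j • ·) hl

theorem rank {Γ : AddSubgroup ℝ} {z s : ℝ} {m : ℕ} (z0 : 0 < z) (hz : z ∈ Γ) (hs : Irrational s)
    (h : ∀ t ∈ Γ, ∃ a b : ℤ, t = z * (a / m + b * s))
    (h' : ∃ a b : ℤ, b ≠ 0 ∧ z * (a / m + b * s) ∈ Γ) (n : ℕ) :
    (Γ.map (nsmulAddMonoidHom (α := ℝ) n)).relIndex Γ = n ^ 2 := by
  classical
  have le : Γ.toIntSubmodule ≤ Submodule.span ℤ (({z / m, z * s} : Finset ℝ) : Set ℝ) :=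
    fun t ht => by
      obtain ⟨a, b, rfl⟩ := h t ht
      rw [Finset.coe_pair, Submodule.mem_span_pair]
      exact ⟨a, b, by rw [zsmul_eq_mul, zsmul_eq_mul]; ring⟩
  have f1 : Module.Finite ℤ (Submodule.span ℤ (({z / m, z * s} : Finset ℝ) : Set ℝ)) :=
    Module.Finite.span_of_finite ℤ (Finset.finite_toSet _)
  have f2 : Module.Finite ℤ Γ.toIntSubmodule :=
    Module.Finite.of_injective _ (Submodule.inclusion_injective le)
  have up : Module.finrank ℤ Γ.toIntSubmodule ≤ 2 :=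
    (Submodule.finrank_mono le).trans ((finrank_span_finset_le_card _).trans Finset.card_le_two)
  obtain ⟨a, b, b0, hb⟩ := h'
  have li : LinearIndependent ℤ ![(⟨z, hz⟩ : Γ.toIntSubmodule), ⟨_, hb⟩] := by
    rw [LinearIndependent.pair_iff]
    intro c d e
    have e1 : (c : ℝ) * z + d * (z * (a / m + b * s)) = 0 := by
      have e0 : c • z + d • (z * (a / m + b * s)) = 0 := congrArg Subtype.val e
      simpa only [zsmul_eq_mul] using e0
    have e2 : (c : ℝ) + d * (a / m + b * s) = 0 :=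
      mul_left_cancel₀ z0.ne' (by linear_combination e1)
    have d0 : d = 0 := by
      by_contra d0
      refine hs ⟨-(c + d * (a / m)) / (d * b), ?_⟩
      have : (d : ℝ) ≠ 0 := Int.cast_ne_zero.2 d0
      have : (b : ℝ) ≠ 0 := Int.cast_ne_zero.2 b0
      push_cast
      rw [div_eq_iff (by positivity)]
      linear_combination -e2
    refine ⟨?_, d0⟩
    rw [d0] at e2
    simpa using e2
  have low := li.fintype_card_le_finrank
  rw [Fintype.card_fin] at low
  rw [AddSubgroup.relIndex_map_nsmul]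
  exact congrArg (n ^ ·) (le_antisymm up low)

end GRP

open GRP in
theorem grp : S_GRP := by
  intro Γ z μ q z0 hz μ0 q1 hle hq
  have μ1 : (μ : ℝ) ≠ 0 := by exact_mod_cast μ0.ne'
  have e : (μ.num : ℝ) = μ * μ.den := by exact_mod_cast (Rat.mul_den_eq_num μ).symm
  refine ⟨fun h => ?_, fun s m hs _ h h' => ?_⟩
  · set H := (Γ.map (AddMonoidHom.mulLeft (μ : ℝ))).addSubgroupOf Γ with hH
    have hc : Nat.card (Γ ⧸ H) = q := hq
    have : Finite (Γ ⧸ H) := Nat.finite_of_card_ne_zero (by omega)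
    have := Fintype.ofFinite (Γ ⧸ H)
    classical
    obtain ⟨t, ht⟩ := many h (Finset.univ.image (Quotient.out : Γ ⧸ H → Γ))
    have top : AddSubgroup.zmultiples (t : Γ ⧸ H) = ⊤ := by
      refine eq_top_iff.2 fun x _ => ?_
      obtain ⟨k, hk⟩ := ht x.out (Finset.mem_image_of_mem _ (Finset.mem_univ x))
      refine ⟨k, ?_⟩
      show k • (t : Γ ⧸ H) = x
      rw [← QuotientAddGroup.mk_zsmul, ← hk, QuotientAddGroup.out_eq']
    rw [← hc, ← AddSubgroup.card_top, ← top, Nat.card_zmultiples, addOrderOf_dvd_iff_zsmul_eq_zero,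
      ← QuotientAddGroup.mk_zsmul, QuotientAddGroup.eq_zero_iff, hH, AddSubgroup.mem_addSubgroupOf]
    refine ⟨μ.den • (t : ℝ), Γ.nsmul_mem t.2 _, ?_⟩
    show (μ : ℝ) * (μ.den • (t : ℝ)) = μ.num • (t : ℝ)
    rw [zsmul_eq_mul, nsmul_eq_mul, e, mul_assoc]
  · obtain ⟨b, hb⟩ := Int.eq_ofNat_of_zero_le (Rat.num_pos.2 μ0).le
    have e' : (b : ℝ) = μ * μ.den := by rw [← e, hb, Int.cast_natCast]
    have k : (Γ.map (nsmulAddMonoidHom (α := ℝ) μ.den)).map (AddMonoidHom.mulLeft (μ : ℝ)) =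
        Γ.map (nsmulAddMonoidHom (α := ℝ) b) := by
      rw [AddSubgroup.map_map]
      congr 1
      ext x
      simp [e', mul_assoc]
    have k1 := AddSubgroup.relIndex_map_map_of_injective
      (Γ.map (nsmulAddMonoidHom (α := ℝ) μ.den)) Γ (f := AddMonoidHom.mulLeft (μ : ℝ))
      (mul_right_injective₀ μ1)
    have k2 := AddSubgroup.relIndex_mul_relIndex _ _ _ (AddSubgroup.map_mono
      (f := AddMonoidHom.mulLeft (μ : ℝ)) (K := Γ.map (nsmulAddMonoidHom (α := ℝ) μ.den)) (K' := Γ)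
      (by
        rintro _ ⟨x, hx, rfl⟩
        exact Γ.nsmul_mem hx _)) hle
    rw [k1, k, hq, rank z0 hz hs h h', rank z0 hz hs h h'] at k2
    have k3 : (μ.den : ℚ) ^ 2 * q = (b : ℚ) ^ 2 := by exact_mod_cast k2
    have e2 : (b : ℚ) = μ * μ.den := by exact_mod_cast e'
    have d0 : (μ.den : ℚ) ≠ 0 := Nat.cast_ne_zero.2 μ.den_nz
    refine mul_left_cancel₀ (pow_ne_zero 2 d0) ?_
    rw [k3, e2]
    ring

end Pool.Agent.KSP

end

end MrgPart7

-- ======== part 8: formerly Pool.Agent.MP_c8dfda_nt.kp.UST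
section MrgPart8

/-! Polynomial maps of the plane, row UST: the monomial structure. -/

open Polynomial Filter Real
open scoped Topology

noncomputable section

namespace Pool.Agent.KSP

namespace UST

variable {K : Type} [Field K] {ι : Type} [Fintype ι] {N : ι → AV K}

theorem unit_cc {u : R K} (h : IsUnit u) : ∃ k : K, k ≠ 0 ∧ u = cc k := by
  obtain ⟨w, hw⟩ := h.exists_right_inv
  have h1 := dg_mul (left_ne_zero_of_mul_eq_one hw) (right_ne_zero_of_mul_eq_one hw)
  rw [hw] at h1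
  have h2 : dg (1 : R K) = 0 := MvPolynomial.totalDegree_one
  obtain ⟨k, hk⟩ := dg_eq_zero (φ := u) (by omega)
  exact ⟨k, fun e => h.ne_zero (by rw [hk, e, cc, map_zero]), hk⟩

theorem factor (h : Fam0 N) {p q : R K} (h0 : p * q ≠ 0) (h1 : Nn N (p * q) = 0) :
    Nn N p = 0 ∧ Nn N q = 0 := by
  have hp := left_ne_zero_of_mul h0
  have hq := right_ne_zero_of_mul h0
  rw [Nn_mul N hp hq] at h1
  have := h.pf p hp
  have := h.pf q hq
  constructor <;> linarith

theorem homog (f : R K) {g : R K} (hg : g ≠ 0) (p : K[X]) :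
    ∃ φ : R K, io φ = io g ^ p.natDegree * aeval (io f / io g) p := by
  refine ⟨∑ i ∈ Finset.range (p.natDegree + 1), cc (p.coeff i) * f ^ i * g ^ (p.natDegree - i), ?_⟩
  rw [aeval_eq_sum_range, Finset.mul_sum, map_sum]
  refine Finset.sum_congr rfl fun i hi => ?_
  have h1 : i ≤ p.natDegree := Nat.lt_succ_iff.1 (Finset.mem_range.1 hi)
  have h2 := io_ne hg
  rw [map_mul, map_mul, map_pow, map_pow, io_cc, Algebra.smul_def, div_pow, pow_sub₀ _ h2 h1]
  field_simp

/-- two functions of degree zero with the same absolute values divide each other -/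
theorem key (h : Fam N) (ra : ∀ i, RA (N i)) {f g : R K} (hf : f ≠ 0) (hg : g ≠ 0)
    (h0 : Nn N g = 0) (e : ∀ i, lg (N i) f = lg (N i) g) : g ∣ f := by
  classical
  have h1 : ∀ i, N i (io f / io g) = 1 := fun i => by
    rw [map_div₀, ← exp_lg _ hf, ← exp_lg _ hg, e i, div_self (exp_pos _).ne']
  choose p p0 hp using fun i => ra i _ (h1 i).le
  have q0 : ∏ i, p i ≠ 0 := Finset.prod_ne_zero_iff.2 fun i _ => p0 i
  have h2 : ∀ i, N i (aeval (io f / io g) (∏ j, p j)) < 1 := fun i => by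
    rw [← Finset.mul_prod_erase _ _ (Finset.mem_univ i), map_mul, map_mul]
    refine mul_lt_one_of_nonneg_of_lt_one_left ((N i).nonneg _) (hp i) ?_
    simpa using (h.na i).aeval_le le_rfl (h1 i).le (∏ j ∈ Finset.univ.erase i, p j)
  have h3 : aeval (io f / io g) (∏ j, p j) = 0 := by
    by_contra h3
    obtain ⟨φ, hφ⟩ := homog f hg (∏ j, p j)
    have φ0 : φ ≠ 0 := fun k =>
      mul_ne_zero (pow_ne_zero _ (io_ne hg)) h3 (by rw [← hφ, k, map_zero])
    have h4 : ∀ i, lg (N i) φ < (∏ j, p j).natDegree * lg (N i) g := fun i => by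
      rw [lg, hφ, map_mul, log_mul ((N i).ne_zero (pow_ne_zero _ (io_ne hg))) ((N i).ne_zero h3),
        map_pow, log_pow]
      have := log_neg ((N i).pos h3) (h2 i)
      unfold lg
      linarith
    have := h.ne
    have h5 : Nn N φ < ∑ i, ((∏ j, p j).natDegree : ℝ) * lg (N i) g :=
      Finset.sum_lt_sum_of_nonempty Finset.univ_nonempty fun i _ => h4 i
    rw [← Finset.mul_sum] at h5
    have h6 := h.pf φ φ0
    rw [show ∑ i, lg (N i) g = 0 from h0, mul_zero] at h5
    linarith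
  have h4 : IsIntegral K (io f / io g) := IsAlgebraic.isIntegral ⟨_, q0, h3⟩
  obtain ⟨y, hy⟩ := IsIntegrallyClosed.isIntegral_iff.1 (h4.tower_top (A := R K))
  refine ⟨y, io_inj ?_⟩
  rw [map_mul, hy, mul_div_cancel₀ _ (io_ne hg)]

theorem indep {J : Type} {c : J → R K} (hc : ∀ j, Prime (c j))
    (hn : ∀ j l, Associated (c j) (c l) → j = l) (S : Finset J) (m m' : J → ℕ)
    (h : Associated (∏ l ∈ S, c l ^ m l) (∏ l ∈ S, c l ^ m' l)) : ∀ j ∈ S, m j = m' j := by
  intro j hj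
  have k : ∀ n : J → ℕ, emultiplicity (c j) (∏ l ∈ S, c l ^ n l) = n j := fun n => by
    rw [Finset.emultiplicity_prod (hc j), Finset.sum_eq_single_of_mem j hj,
      emultiplicity_pow_self_of_prime (hc j)]
    intro l _ e
    rw [emultiplicity_pow (hc j), emultiplicity_eq_zero.2 fun d =>
      e (hn j l ((hc j).associated_of_dvd (hc l) d)).symm, mul_zero]
  have := emultiplicity_eq_of_associated_right (a := c j) h
  rw [k, k] at this
  exact_mod_cast this

theorem lg_mono (v : AV K) {J : Type} {c : J → R K} (hc : ∀ j, c j ≠ 0) (S : Finset J)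
    (m : J → ℕ) : lg v (∏ l ∈ S, c l ^ m l) = ∑ l ∈ S, (m l : ℝ) * lg v (c l) := by
  rw [lg_prod _ _ _ fun j _ => pow_ne_zero _ (hc j)]
  simp only [lg_pow]

theorem Nn_mono {J : Type} {c : J → R K} (hc : ∀ j, c j ≠ 0) (h0 : ∀ j, Nn N (c j) = 0)
    (S : Finset J) (m : J → ℕ) : Nn N (∏ l ∈ S, c l ^ m l) = 0 := by
  simp only [Nn, lg_mono _ hc]
  rw [Finset.sum_comm]
  refine Finset.sum_eq_zero fun l _ => ?_
  rw [← Finset.mul_sum, show ∑ i, lg (N i) (c l) = 0 from h0 l, mul_zero]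

theorem finite (h : Fam N) (ra : ∀ i, RA (N i)) (t2 : ∀ i, T2 (N i)) {J : Type} {c : J → R K}
    (hc : ∀ j, Prime (c j)) (hn : ∀ j l, Associated (c j) (c l) → j = l)
    (h0 : ∀ j, Nn N (c j) = 0) : Finite J := by
  choose s m ρ n _ _ hv _ using t2
  have c0 : ∀ j, c j ≠ 0 := fun j => (hc j).ne_zero
  refine LinearIndependent.finite_of_isNoetherian (R := ℤ)
    (v := fun j i => ((ρ i (c j), n i (c j)) : ℤ × ℤ)) (linearIndependent_iff'.2 fun S g hg => ?_)
  have e : ∀ i, lg (N i) (∏ l ∈ S, c l ^ (g l).toNat) =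
      lg (N i) (∏ l ∈ S, c l ^ (-g l).toNat) := fun i => by
    have a := congrFun hg i
    rw [Finset.sum_apply] at a
    have a1 : ∑ l ∈ S, (g l : ℝ) * ρ i (c l) = 0 := by
      have := congrArg Prod.fst a
      rw [Prod.fst_sum] at this
      exact_mod_cast this
    have a2 : ∑ l ∈ S, (g l : ℝ) * n i (c l) = 0 := by
      have := congrArg Prod.snd a
      rw [Prod.snd_sum] at this
      exact_mod_cast this
    rw [lg_mono _ c0, lg_mono _ c0, ← sub_eq_zero, ← Finset.sum_sub_distrib]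
    have : ∀ l ∈ S, ((g l).toNat : ℝ) * lg (N i) (c l) - ((-g l).toNat : ℝ) * lg (N i) (c l) =
        zz (N i) / m i * ((g l : ℝ) * ρ i (c l)) + zz (N i) * s i * ((g l : ℝ) * n i (c l)) := by
      intro l _
      have : ((g l).toNat : ℝ) - ((-g l).toNat : ℝ) = g l := by
        exact_mod_cast Int.toNat_sub_toNat_neg (g l)
      rw [← sub_mul, this, hv i _ (c0 l)]
      ring
    rw [Finset.sum_congr rfl this, Finset.sum_add_distrib, ← Finset.mul_sum, ← Finset.mul_sum,
      a1, a2]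
    simp
  have p0 : ∀ k : J → ℕ, ∏ l ∈ S, c l ^ k l ≠ 0 := fun k =>
    Finset.prod_ne_zero_iff.2 fun l _ => pow_ne_zero _ (c0 l)
  have := indep hc hn S _ _ (associated_of_dvd_dvd
    (key h ra (p0 _) (p0 _) (Nn_mono c0 h0 S _) fun i => (e i).symm)
    (key h ra (p0 _) (p0 _) (Nn_mono c0 h0 S _) e))
  intro j hj
  have := this j hj
  omega

theorem decomp (h : Fam0 N) {J : Type} [Fintype J] {c : J → R K}
    (hc : ∀ p, Prime p → Nn N p = 0 → ∃ j, Associated (c j) p) (φ : R K) :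
    φ ≠ 0 → Nn N φ = 0 → ∃ (k : K) (A : J → ℕ), k ≠ 0 ∧ φ = cc k * ∏ l, c l ^ A l := by
  classical
  induction φ using UniqueFactorizationMonoid.induction_on_prime with
  | h₁ => exact fun e => absurd rfl e
  | h₂ u hu =>
    obtain ⟨k, k0, rfl⟩ := unit_cc hu
    exact fun _ _ => ⟨k, 0, k0, by simp⟩
  | h₃ a p a0 hp ih =>
    intro h1 h2
    obtain ⟨h3, h4⟩ := factor h h1 h2
    obtain ⟨k, A, k0, rfl⟩ := ih a0 h4
    obtain ⟨j, u, rfl⟩ := hc p hp h3
    obtain ⟨k', k0', e⟩ := unit_cc u.isUnit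
    refine ⟨k' * k, A + Pi.single j 1, mul_ne_zero k0' k0, ?_⟩
    have : ∏ l, c l ^ (Pi.single j 1 : J → ℕ) l = c j := by
      rw [Finset.prod_eq_single j (fun l _ e => by simp [e]) (by simp)]
      simp
    simp only [Pi.add_apply, pow_add, Finset.prod_mul_distrib, this, e, map_mul]
    ring

theorem alg_indep {v : AV K} (hv : NA K v) {f g : R K} (hf : f ≠ 0) (hg : g ≠ 0) {μ : ℝ}
    (hμ : Irrational μ) (h1 : lg v f ≠ 0) (h2 : lg v g = μ * lg v f) :
    AlgebraicIndependent K ![f, g] := by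
  classical
  rw [algebraicIndependent_iff]
  intro P hP
  by_contra P0
  let T : (Fin 2 →₀ ℕ) → R K := fun m => cc (P.coeff m) * (f ^ m 0 * g ^ m 1)
  have hT : ∀ m ∈ P.support, T m ≠ 0 ∧ lg v (T m) = (m 0 + μ * m 1) * lg v f := fun m hm => by
    have a : (cc (P.coeff m) : R K) ≠ 0 := by simpa using hm
    have b := pow_ne_zero (m 0) hf
    have c := pow_ne_zero (m 1) hg
    refine ⟨mul_ne_zero a (mul_ne_zero b c), ?_⟩
    rw [lg_mul _ a (mul_ne_zero b c), lg_mul _ b c, lg_cc hv, lg_pow, lg_pow, h2]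
    ring
  have hs : ∑ m ∈ P.support, T m = 0 := by
    rw [← hP, MvPolynomial.aeval_def, MvPolynomial.eval₂_eq']
    refine Finset.sum_congr rfl fun m _ => ?_
    simp [T, Fin.prod_univ_two]
  obtain ⟨m, hm, hmax⟩ := Finset.exists_max_image P.support (fun m => lg v (T m))
    (MvPolynomial.support_nonempty.2 P0)
  have hlt : v (∑ k ∈ P.support.erase m, io (T k)) < v (io (T m)) := by
    refine KSkew.na_sum_lt hv.1 _ _ (v.pos (io_ne (hT m hm).1)) fun k hk => ?_
    obtain ⟨k1, k2⟩ := Finset.mem_erase.1 hk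
    rw [← exp_lg _ (hT k k2).1, ← exp_lg _ (hT m hm).1, exp_lt_exp]
    refine lt_of_le_of_ne (hmax k k2) fun e => k1 ?_
    rw [(hT k k2).2, (hT m hm).2] at e
    have e1 := mul_right_cancel₀ h1 e
    have e2 : k 1 = m 1 := by
      by_contra e2
      have : ((k 1 : ℤ) - m 1 : ℤ) ≠ 0 := sub_ne_zero.2 (by exact_mod_cast e2)
      refine (hμ.mul_intCast this).ne_int ((m 0 : ℤ) - k 0) ?_
      push_cast
      linarith
    have e3 : k 0 = m 0 := by
      rw [e2] at e1
      exact_mod_cast add_right_cancel e1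
    ext j
    fin_cases j
    exacts [e3, e2]
  rw [← Finset.add_sum_erase _ _ hm] at hs
  rw [← map_sum, eq_neg_of_add_eq_zero_right hs, map_neg, v.map_neg] at hlt
  exact lt_irrefl _ hlt

end UST

theorem ust : S_UST := by
  intro K ι _ _ _ N s σ μ E hμ hT a ha h0
  classical
  have ra := fun i => (hT i).2
  choose c c1 c2 c3 using fun j : {q : Associates (R K) //
    ∃ p, Prime p ∧ Nn N p = 0 ∧ Associates.mk p = q} => j.2
  have hn : ∀ j l, Associated (c j) (c l) → j = l := fun j l e =>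
    Subtype.ext (by rw [← c3, ← c3]; exact Associates.mk_eq_mk_iff_associated.2 e)
  have hc : ∀ p, Prime p → Nn N p = 0 → ∃ j, Associated (c j) p := fun p h1 h2 =>
    ⟨⟨_, p, h1, h2, rfl⟩, Associates.mk_eq_mk_iff_associated.1 (c3 _)⟩
  have fin := UST.finite E.toFam ra (fun i => (hT i).1) c1 hn c2
  let _ := Fintype.ofFinite {q : Associates (R K) //
    ∃ p, Prime p ∧ Nn N p = 0 ∧ Associates.mk p = q}
  have c0 : ∀ j, c j ≠ 0 := fun j => (c1 j).ne_zero
  have hs : ∀ j, Nn N (s (c j)) = 0 := fun j => by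
    simp only [Nn, E.toPer.lg_eq E.cmp]
    rw [← Finset.mul_sum, show ∑ i, lg (N i) (c j) = 0 from c2 j, mul_zero]
  choose κ A κ0 hA using fun j => UST.decomp E.toFam0 hc (s (c j)) (E.cmp.ne (c0 j)) (hs j)
  refine ⟨_, inferInstance, c, A, κ, c0, κ0, hA, fun m m' k e => ?_, fun j => ?_⟩
  · have k0 : k ≠ 0 := by
      rintro rfl
      rw [cc, map_zero, zero_mul] at e
      exact Finset.prod_ne_zero_iff.2 (fun l _ => pow_ne_zero _ (c0 l)) e
    refine funext fun j => UST.indep c1 hn Finset.univ m m' ?_ j (Finset.mem_univ j)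
    rw [e]
    exact (associated_unit_mul_left _ _ ((Ne.isUnit k0).map _))
  · have a0 : a ≠ 0 := by
      rintro rfl
      simp at ha
    have au : ¬IsUnit a := fun u => by
      obtain ⟨k, -, rfl⟩ := UST.unit_cc u
      simp at ha
    obtain ⟨p, hp, q, rfl⟩ := WfDvdMonoid.exists_irreducible_factor au a0
    obtain ⟨l, -⟩ := hc p hp.prime (UST.factor E.toFam0 a0 h0).1
    obtain ⟨i, hi⟩ : ∃ i, lg (N i) (c l) ≠ 0 := by
      by_contra k
      push Not at k
      exact (c1 l).not_dvd_one (UST.key E.toFam ra one_ne_zero (c0 l) (c2 l) fun i => by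
        rw [k i]; simp [lg])
    have ai := UST.alg_indep (E.na i) (c0 l) (E.cmp.ne (c0 l)) hμ hi (E.toPer.lg_eq E.cmp i _)
    have tb := ai.isTranscendenceBasis_of_trdeg_le_of_finite
      (by rw [MvPolynomial.trdeg_of_isDomain]; simp)
    refine (tb.isAlgebraic.isAlgebraic (xx j)).tower_top_of_subalgebra_le (Algebra.adjoin_le ?_)
    have hm : ∀ l, c l ∈ Algebra.adjoin K (Set.range c) := fun l => Algebra.subset_adjoin ⟨l, rfl⟩
    rintro _ ⟨t, rfl⟩
    fin_cases t
    · exact hm l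
    · show s (c l) ∈ Algebra.adjoin K (Set.range c)
      rw [hA]
      exact mul_mem (Subalgebra.algebraMap_mem _ (κ l)) (prod_mem fun l _ => pow_mem (hm l) _)

end Pool.Agent.KSP

end

end MrgPart8

-- ======== part 9: formerly Pool.Agent.MP_c8dfda_nt.kp.ONE
section MrgPart9

/-! Polynomial maps of the plane: the divisorial case. -/

open Polynomial Filter Real
open scoped Topology

noncomputable section

namespace Pool.Agent.KSP

namespace ONE

variable {K ι : Type} [Field K] [Fintype ι] {N : ι → AV K} {s : R K →ₐ[K] R K}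
  {σ : M K →ₐ[K] M K} {μ : ℝ}

theorem lg_JJ (E : Eig N s σ μ) (i : ι) (h : ¬RA (N i)) {α : ℝ} (hJ : Jv (N i) α) :
    JJ s ≠ 0 ∧ lg (N i) (JJ s) = (μ - 1) * α := by
  unfold RA at h
  push Not at h
  obtain ⟨a, ha, h⟩ := h
  have h1 : ∀ p : K[X], p ≠ 0 → N i (aeval a p) = 1 := fun p hp =>
    le_antisymm (by simpa using (E.na i).aeval_le le_rfl ha p) (h p hp)
  obtain ⟨f, g, hg, rfl⟩ := exists_io a
  have hf : f ≠ 0 := fun e => by simpa [e] using h1 X X_ne_zero
  obtain ⟨j, hj⟩ := exists_lg_xx (E.inf i)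
  have hz : lg (N i) (xx j) ≠ 0 := hj ▸ (E.inf i).ne'
  obtain ⟨k1, k2⟩ := hJ (xx j) f g (xx_ne j) hf hg hz h1
  obtain ⟨k3, k4⟩ := hJ (s (xx j)) (s f) (s g) (E.cmp.ne (xx_ne j)) (E.cmp.ne hf) (E.cmp.ne hg)
    (by rw [E.toPer.lg_eq E.cmp]; exact mul_ne_zero E.pos.ne' hz)
    (fun p hp => by
      rw [← E.cmp, ← E.cmp, ← map_div₀, aeval_algHom_apply, E.eig, h1 p hp, one_rpow])
  have e : s g * jac (s (xx j)) (s f) - s f * jac (s (xx j)) (s g) =
      JJ s * s (g * jac (xx j) f - f * jac (xx j) g) := by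
    rw [jac_map, jac_map, map_sub, map_mul, map_mul]
    ring
  rw [e] at k3 k4
  refine ⟨left_ne_zero_of_mul k3, ?_⟩
  rw [lg_mul _ (left_ne_zero_of_mul k3) (right_ne_zero_of_mul k3)] at k4
  simp only [E.toPer.lg_eq E.cmp] at k4
  rw [k2] at k4
  linarith

theorem one_le (E : Eig N s σ μ) (i : ι) (h : Dis (N i)) : 1 ≤ μ := by
  obtain ⟨m, hm, h⟩ := h
  obtain ⟨j, hj⟩ := exists_lg_xx (E.inf i)
  by_contra hμ
  have m0 : (0 : ℝ) < m := Nat.cast_pos.2 hm
  obtain ⟨k, hk⟩ := exists_pow_lt_of_lt_one (one_div_pos.2 m0) (not_le.1 hμ)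
  obtain ⟨a, ha⟩ := h ((s ^ k) (xx j)) ((E.cmp.pow k).ne (xx_ne j))
  rw [(E.toPer.pow k).lg_eq (E.cmp.pow k), hj, mul_comm] at ha
  have e : μ ^ k = a / m := mul_left_cancel₀ (E.inf i).ne' ha
  have p : (0 : ℝ) < a := (div_pos_iff_of_pos_right m0).1 (e ▸ pow_pos E.pos k)
  have p1 : (1 : ℝ) ≤ a := by exact_mod_cast (show (0 : ℤ) < a by exact_mod_cast p)
  rw [e, div_lt_div_iff_of_pos_right m0] at hk
  linarith

end ONE

theorem one (h : S_CORE) : S_ONE := by
  intro K ι _ _ _ N s σ μ E hR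
  obtain ⟨G, hG⟩ := E.thin
  obtain ⟨α, h1, h2, h3⟩ := h K ι N E.toFam _ hG hR
  obtain ⟨i₀⟩ := E.ne
  have hJ := fun i => ONE.lg_JJ E i (hR i) (h1 i)
  rcases (ONE.one_le E i₀ (h2 i₀)).eq_or_lt with e | e
  · by_cases d : dg (JJ s) = 0
    · exact Or.inr ⟨e.symm, d⟩
    · exact Or.inl ⟨JJ s, Nat.pos_of_ne_zero d, fun i => by rw [(hJ i).2, ← e, sub_self, zero_mul]⟩
  · refine Or.inl (h3 ?_)
    have k := E.pf _ (hJ i₀).1
    simp only [Nn, (hJ _).2, ← Finset.mul_sum] at k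
    exact nonneg_of_mul_nonneg_right (mul_comm _ (μ - 1) ▸ k) (sub_pos.2 e)

end Pool.Agent.KSP

end

end MrgPart9

-- ======== part 10: formerly Pool.Agent.MP_c8dfda_nt.kp.DROP
section MrgPart10

/-! Polynomial maps of the plane: the height does not drop much on a curve. -/

open Polynomial Filter Real
open scoped Topology

noncomputable section

namespace Pool.Agent.KSP

namespace DROP

variable {K : Type} [Field K]

theorem late {O : ℕ → Fin 2 → K} (hO : Function.Injective O) {F : Set (Fin 2 → K)}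
    (hF : F.Finite) : ∃ k, ∀ n, k ≤ n → O n ∉ F := by
  obtain ⟨k, hk⟩ := (hF.preimage hO.injOn).bddAbove
  exact ⟨k + 1, fun n hn h => by have := hk (show n ∈ O ⁻¹' F from h); omega⟩

theorem comp_eq (P : Fin 2 → K) (a : R K) :
    (MvPolynomial.eval P).comp ((aeval a : K[X] →ₐ[K] R K) : K[X] →+* R K) =
      evalRingHom (MvPolynomial.eval P a) := by
  ext c
  · simp
  · simp

theorem eval_aeval (P : Fin 2 → K) (a : R K) (p : K[X]) :
    MvPolynomial.eval P (aeval a p) = p.eval (MvPolynomial.eval P a) :=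
  RingHom.congr_fun (comp_eq P a) p

theorem eval_two (P : Fin 2 → K) (a b : R K) (Q : K[X][X]) :
    MvPolynomial.eval P (Q.eval₂ ((aeval a : K[X] →ₐ[K] R K) : K[X] →+* R K) b) =
      Q.evalEval (MvPolynomial.eval P a) (MvPolynomial.eval P b) := by
  rw [hom_eval₂, comp_eq, eval₂_evalRingHom]

theorem eval_dvd {P : Fin 2 → K} {c ψ : R K} (h : c ∣ ψ) (hc : MvPolynomial.eval P c = 0) :
    MvPolynomial.eval P ψ = 0 := by
  obtain ⟨u, rfl⟩ := h
  rw [map_mul, hc, zero_mul]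

variable [NumberField K]

/-- the conclusion with a nonnegative constant -/
def Good (O : ℕ → Fin 2 → K) (φ : R K) : Prop := ∃ (c : ℝ) (k : ℕ), 0 ≤ c ∧ ∀ n, k ≤ n →
  MvPolynomial.eval (O n) φ = 0 → Ht (O n) ≤ c * (Ht (O (n + 1)) + 1)

theorem coord (h1 : S_FINI) {O : ℕ → Fin 2 → K} (hO : Function.Injective O) {c a : R K}
    (hc : Prime c) (ha : ∀ p : K[X], p ≠ 0 → ¬ c ∣ aeval a p) (l : Fin 2) :
    ∃ (C : ℝ) (k : ℕ), 0 ≤ C ∧ ∀ n, k ≤ n → MvPolynomial.eval (O n) c = 0 →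
      Height.logHeight₁ (O n l) ≤ C * (Height.logHeight₁ (MvPolynomial.eval (O n) a) + 1) := by
  obtain ⟨hf, hq⟩ := h1 K c hc
  obtain ⟨Q, hQ, hd⟩ := hq a (xx l) ha
  have hl : Q.leadingCoeff ≠ 0 := leadingCoeff_ne_zero.2 hQ
  obtain ⟨k, hk⟩ := late hO (hf _ (ha _ hl))
  have hdeg : 1 ≤ Q.natDegree := by
    by_contra h0
    have h0' : Q.natDegree = 0 := by omega
    have hC : Q = C Q.leadingCoeff := by
      rw [leadingCoeff, h0']; exact eq_C_of_natDegree_eq_zero h0'
    rw [hC, eval₂_C] at hd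
    exact ha _ hl hd
  obtain ⟨C, hC0, hC⟩ := KSkew.hq K Q
  refine ⟨C, k, hC0, fun n hn h0 => ?_⟩
  have hne : Q.leadingCoeff.eval (MvPolynomial.eval (O n) a) ≠ 0 := fun h =>
    hk n hn ⟨h0, by rw [eval_aeval]; exact h⟩
  have hz : Q.evalEval (MvPolynomial.eval (O n) a) (O n l) = 0 := by
    have := eval_dvd hd h0
    rwa [eval_two, MvPolynomial.eval_X] at this
  have h2 := (hC (MvPolynomial.eval (O n) a) (O n l)).2 hne
  rw [hz, Height.logHeight₁_zero, zero_add] at h2
  have h3 : (1 : ℝ) ≤ Q.natDegree := by exact_mod_cast hdeg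
  have h4 := Height.zero_le_logHeight₁ (O n l)
  nlinarith

theorem prime (h1 : S_FINI) (h3 : S_HB) {s : R K →ₐ[K] R K} {O : ℕ → Fin 2 → K} (ho : Orb s O)
    (hO : Function.Injective O) {c : R K} (hc : Prime c) : Good O c := by
  obtain ⟨-, -, hb1, hb2, -⟩ := h3 K
  by_cases h : ∃ j, ∀ p : K[X], p ≠ 0 → ¬ c ∣ aeval (s (xx j)) p
  · obtain ⟨j, hj⟩ := h
    obtain ⟨C0, k0, hC0, h0⟩ := coord h1 hO hc hj 0
    obtain ⟨C1, k1, hC1, h1'⟩ := coord h1 hO hc hj 1
    refine ⟨C0 + C1, max k0 k1, add_nonneg hC0 hC1, fun n hn hz => ?_⟩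
    have e : MvPolynomial.eval (O n) (s (xx j)) = O (n + 1) j := by rw [ho n]; rfl
    have a0 := h0 n ((le_max_left _ _).trans hn) hz
    have a1 := h1' n ((le_max_right _ _).trans hn) hz
    rw [e] at a0 a1
    have a2 := hb1 (O (n + 1)) j
    have a3 := hb2 (O n)
    nlinarith
  · push Not at h
    choose p hp hd using h
    have hF : (Set.pi Set.univ fun j : Fin 2 => {t : K | IsRoot (p j) t}).Finite :=
      Set.Finite.pi fun j => finite_setOf_isRoot (hp j)
    obtain ⟨k, hk⟩ := late hO hF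
    refine ⟨0, k, le_rfl, fun n hn hz => absurd ?_ (hk (n + 1) (by omega))⟩
    intro j _
    have := eval_dvd (hd j) hz
    rw [eval_aeval] at this
    rw [ho n]
    exact this

end DROP

theorem drop (h1 : S_FINI) (h2 : S_ORB) (h3 : S_HB) : S_DROP := by
  intro K _ _ s O ho hz
  have hO := (h2 K s O ho hz).1
  have hp : ∀ P : Fin 2 → K, 0 ≤ Ht P := fun P =>
    (Height.zero_le_logHeight₁ _).trans ((h3 K).2.2.1 P 0)
  have key : ∀ φ : R K, φ ≠ 0 → DROP.Good O φ := by
    intro φ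
    induction φ using UniqueFactorizationMonoid.induction_on_prime with
    | h₁ => exact fun h => absurd rfl h
    | h₂ u hu =>
      exact fun _ => ⟨0, 0, le_rfl, fun n _ h => absurd h (hu.map (MvPolynomial.eval (O n))).ne_zero⟩
    | h₃ a c ha hc ih =>
      intro _
      obtain ⟨C0, k0, hC0, h0⟩ := ih ha
      obtain ⟨C1, k1, hC1, h1'⟩ := DROP.prime h1 h3 ho hO hc
      refine ⟨C0 + C1, max k0 k1, add_nonneg hC0 hC1, fun n hn h => ?_⟩
      have a2 := hp (O (n + 1))
      rw [map_mul] at h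
      rcases mul_eq_zero.1 h with h | h
      · have := h1' n ((le_max_right _ _).trans hn) h
        nlinarith
      · have := h0 n ((le_max_left _ _).trans hn) h
        nlinarith
  intro φ hφ
  obtain ⟨c, k, -, h⟩ := key φ hφ
  exact ⟨c, k, h⟩

end Pool.Agent.KSP

end

end MrgPart10

-- ======== part 11: formerly Pool.Agent.MP_c8dfda_nt.kp.ULT
section MrgPart11

/-! Polynomial maps of the plane: the limit family along an ultrafilter. -/

open Polynomial Filter Real
open scoped Topology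

noncomputable section

namespace Pool.Agent.KSP

namespace ULT

theorem exists_lim (U : Ultrafilter ℕ) (f : ℕ → ℝ) (c : ℝ)
    (h : ∀ᶠ n in (U : Filter ℕ), |f n| ≤ c) : ∃ L, Tendsto f U (𝓝 L) := by
  obtain ⟨L, -, hL⟩ := (isCompact_Icc (a := -c) (b := c)).ultrafilter_le_nhds (U.map f) (by
    rw [le_principal_iff]
    change ∀ᶠ n in (U : Filter ℕ), -c ≤ f n ∧ f n ≤ c
    exact h.mono fun n hn => abs_le.1 hn)
  exact ⟨L, hL⟩

variable {K : Type} [Field K]

/-- the limit absolute value attached to one place -/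
theorem exists_N (U : Ultrafilter ℕ) (H : ℕ → ℝ) (O : ℕ → Fin 2 → K) (v : AbsoluteValue K ℝ)
    (hT : Tendsto H U atTop)
    (hne : ∀ φ : R K, φ ≠ 0 → ∀ᶠ n in (U : Filter ℕ), MvPolynomial.eval (O n) φ ≠ 0)
    (hb : ∀ φ : R K, ∃ d C : ℝ, ∀ n, |log (v (MvPolynomial.eval (O n) φ))| ≤ d * H n + C) :
    ∃ N : AV K, NA K N ∧ ∀ φ : R K,
      Tendsto (fun n => log (v (MvPolynomial.eval (O n) φ)) / H n) U (𝓝 (lg N φ)) := by
  have h1 : ∀ᶠ n in (U : Filter ℕ), 1 ≤ H n := hT.eventually_ge_atTop 1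
  have hl : ∀ φ : R K, ∃ L,
      Tendsto (fun n => log (v (MvPolynomial.eval (O n) φ)) / H n) U (𝓝 L) := fun φ => by
    obtain ⟨d, C, h⟩ := hb φ
    refine exists_lim U _ (d + |C|) (h1.mono fun n hn => ?_)
    have hp : 0 < H n := zero_lt_one.trans_le hn
    rw [abs_div, abs_of_pos hp, div_le_iff₀ hp]
    have h2 : |C| ≤ |C| * H n := le_mul_of_one_le_right (abs_nonneg C) hn
    have h3 := le_abs_self C
    have h4 := h n
    linarith
  choose l hl using hl
  refine (exists_AV l (fun a b ha hb => ?_) (fun a b ha hb hab => ?_) fun c _ => ?_).imp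
    fun N h => ⟨h.1, fun φ => ?_⟩
  rotate_right
  · by_cases h0 : φ = 0
    · simp [h0]
    · rw [h.2 φ h0]; exact hl φ
  · refine tendsto_nhds_unique (hl (a * b)) (((hl a).add (hl b)).congr' ?_)
    filter_upwards [hne a ha, hne b hb] with n k1 k2
    rw [map_mul, map_mul, log_mul (v.pos k1).ne' (v.pos k2).ne', add_div]
  · have h0 : Tendsto (fun n => log 2 / H n) U (𝓝 0) := hT.const_div_atTop _
    have h2 := h0.add ((hl a).max (hl b))
    rw [zero_add] at h2
    refine le_of_tendsto_of_tendsto (hl (a + b)) h2 ?_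
    filter_upwards [hne a ha, hne b hb, hne _ hab, h1] with n k1 k2 k3 hn
    have hp : 0 < H n := zero_lt_one.trans_le hn
    rw [max_div_div_right hp.le, ← add_div]
    refine div_le_div_of_nonneg_right ?_ hp.le
    rw [map_add] at k3 ⊢
    have h4 := v.add_le (MvPolynomial.eval (O n) a) (MvPolynomial.eval (O n) b)
    rcases le_total (v (MvPolynomial.eval (O n) a)) (v (MvPolynomial.eval (O n) b)) with h5 | h5
    · refine le_trans ?_ (add_le_add_right (le_max_right _ _) _)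
      rw [← log_mul two_ne_zero (v.pos k2).ne']
      exact log_le_log (v.pos k3) (by linarith)
    · refine le_trans ?_ (add_le_add_right (le_max_left _ _) _)
      rw [← log_mul two_ne_zero (v.pos k1).ne']
      exact log_le_log (v.pos k3) (by linarith)
  · refine tendsto_nhds_unique (hl (cc c)) ?_
    simpa only [MvPolynomial.eval_C] using hT.const_div_atTop (log (v c))

variable [NumberField K]

/-- the orbit is integral outside a finite set of places -/
theorem exists_int {s : R K →ₐ[K] R K} {O : ℕ → Fin 2 → K} (ho : Orb s O) :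
    ∃ S : Finset (KSkew.GS.NA K), ∀ v, v ∉ S → ∀ n j, v.1 (O n j) ≤ 1 := by
  classical
  obtain ⟨S, hS⟩ := KSkew.GS.exists_S (K := K)
    (Set.range (O 0) ∪ ⋃ j, ((s (xx j)).coeffs : Set K))
    ((Set.finite_range _).union (Set.finite_iUnion fun j => Finset.finite_toSet _))
  refine ⟨S, fun v hv n => ?_⟩
  have h1 : ∀ a ∈ Set.range (O 0) ∪ ⋃ j, ((s (xx j)).coeffs : Set K), a ∈ KSkew.GS.vr v := by
    intro a ha
    by_cases h0 : a = 0
    · rw [h0]; exact zero_mem _
    · exact (hS v hv a ha h0).le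
  induction n with
  | zero => exact fun j => h1 _ (Or.inl ⟨j, rfl⟩)
  | succ n ih =>
    intro j
    rw [ho]
    exact MvPolynomial.eval_mem (s := KSkew.GS.vr v) (fun m hm => h1 _ (Or.inr
      (Set.mem_iUnion.2 ⟨j, MvPolynomial.coeff_mem_coeffs m (MvPolynomial.mem_support_iff.1 hm)⟩)))
      ih

theorem bdd_eval (S : Finset (KSkew.GS.NA K)) {O : ℕ → Fin 2 → K}
    (h : ∀ v, v ∉ S → ∀ n j, v.1 (O n j) ≤ 1) (φ : R K) :
    (fun n => MvPolynomial.eval (O n) φ) ∈ KSkew.GS.bdd S := by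
  induction φ using MvPolynomial.induction_on with
  | C c => simp only [MvPolynomial.eval_C]; exact (KSkew.GS.bdd S).algebraMap_mem c
  | add p q hp hq => simp only [map_add]; exact (KSkew.GS.bdd S).add_mem hp hq
  | mul_X p j hp =>
    simp only [map_mul, MvPolynomial.eval_X]
    exact (KSkew.GS.bdd S).mul_mem hp
      ⟨fun _ => 1, by simp, fun _ => le_rfl, fun n v hv => h v hv n j⟩

end ULT

open ULT in
theorem ult (h1 : S_HB) : S_ULT := by
  intro K _ _ s O ho _ U β hT hne hβ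
  obtain ⟨b1, -, b3, b4, -⟩ := h1 K
  obtain ⟨S, hS⟩ := exists_int ho
  have hp : ∀ᶠ n in (U : Filter ℕ), 0 < Ht (O n) := hT.eventually_gt_atTop 0
  choose N hN hl using fun i : KSkew.GS.Ix S =>
    exists_N U (fun n => Ht (O n)) O (KSkew.GS.pl S i) hT hne fun φ => by
      obtain ⟨C, hC⟩ := b1 φ
      exact ⟨dg φ, C, fun n => (KSkew.GS.abs_log_le S i _).trans (hC _)⟩
  have F : Fam0 N := by
    refine ⟨hN, fun φ h0 => ?_⟩
    obtain ⟨B, k1, k2, k3⟩ := bdd_eval S hS φ
    obtain ⟨C, hC⟩ := KSkew.GS.pf_loc S B k1 k2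
    have h2 := (tendsto_finsetSum Finset.univ fun i _ => hl i φ).add (hT.const_div_atTop C)
    rw [add_zero] at h2
    refine ge_of_tendsto h2 ?_
    filter_upwards [hne φ h0, hp] with n hn hn'
    rw [← Finset.sum_div, ← add_div]
    exact div_nonneg (hC _ hn (k3 n)) hn'.le
  have Z : ∃ i, 0 < zz (N i) := by
    by_contra hz
    have h2 : ∀ j i, Tendsto (fun n => max (log (KSkew.GS.pl S i (O n j))) 0 / Ht (O n)) U
        (𝓝 0) := fun j i => by
      have h3 := (hl i (xx j)).max (tendsto_const_nhds (x := (0 : ℝ)))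
      rw [max_eq_right ((lg_xx_le _ j).trans (not_lt.1 (not_exists.1 hz i)))] at h3
      refine h3.congr' (hp.mono fun n hn => ?_)
      simp only [MvPolynomial.eval_X]
      rw [← max_div_div_right hn.le, zero_div]
    have h4 := (tendsto_finsetSum Finset.univ fun i _ => h2 0 i).add
      (tendsto_finsetSum Finset.univ fun i _ => h2 1 i)
    rw [Finset.sum_const_zero, add_zero] at h4
    refine absurd (ge_of_tendsto h4 (b := 1) (hp.mono fun n hn => ?_)) (by norm_num)
    rw [← Finset.sum_div, ← Finset.sum_div, ← add_div, le_div_iff₀ hn, one_mul]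
    exact (b4 _).trans (add_le_add (KSkew.GS.height_le S _ fun v hv => hS v hv n 0)
      (KSkew.GS.height_le S _ fun v hv => hS v hv n 1))
  classical
  refine ⟨{i // 0 < zz (N i)}, inferInstance, fun i => N i.1, ?_, 1, fun i k j => ?_⟩
  · convert (F.drop Z).1
  · rw [one_mul]
    refine le_of_tendsto (hl i.1 ((s ^ k) (xx j))) ?_
    filter_upwards [hβ k, hp] with n k1 k2
    rw [← ho.eval_add, MvPolynomial.eval_X, div_le_iff₀ k2]
    exact ((KSkew.GS.log_le S i.1 _).trans (b3 _ j)).trans k1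

end Pool.Agent.KSP

end

end MrgPart11

-- ======== part 12: formerly Pool.Agent.MP_c8dfda_nt.kp.UN3
section MrgPart12

/-! Polynomial maps of the plane: growth of the height for monomial structures. -/

open Polynomial Filter Real
open scoped Topology

noncomputable section

namespace Pool.Agent.KSP

namespace UN3

theorem diff_eq {J : Type} [Fintype J] [DecidableEq J] (A : Matrix J J ℤ) (b : J → ℤ)
    (e : ℕ → J → ℤ) (h : ∀ n, e (n + 1) = b + A.mulVec (e n)) (n : ℕ) :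
    (A ^ n).mulVec (e 1 - e 0) = e (n + 1) - e n := by
  induction n with
  | zero => simp
  | succ n ih =>
    rw [pow_succ', ← Matrix.mulVec_mulVec, ih, Matrix.mulVec_sub, h (n + 1)]
    conv_rhs => rw [h n]
    rw [← h n, h n]
    abel

theorem rel_eq {J : Type} [Fintype J] [DecidableEq J] (A : Matrix J J ℤ) (b : J → ℤ)
    (e : ℕ → J → ℤ) (h : ∀ n, e (n + 1) = b + A.mulVec (e n)) (p : ℤ[X])
    (hp : (aeval A p).mulVec (e 1 - e 0) = 0) (n : ℕ) :
    ∑ k ∈ Finset.range (((X - 1) * p).natDegree + 1), ((X - 1) * p).coeff k • e (n + k) = 0 := by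
  let L : ℤ[X] →ₗ[ℤ] (J → ℤ) :=
    Polynomial.lsum fun k => (LinearMap.id : ℤ →ₗ[ℤ] ℤ).smulRight (e (n + k))
  have hL : ∀ q : ℤ[X], L q = ∑ k ∈ Finset.range (q.natDegree + 1), q.coeff k • e (n + k) :=
    fun q => by
      simp only [L, Polynomial.lsum_apply]
      rw [Polynomial.sum_over_range _ (fun k => by simp)]
      rfl
  have hm : ∀ (k : ℕ) (c : ℤ), L (monomial k c) = c • e (n + k) := fun k c => by
    simp only [L, Polynomial.lsum_apply]
    rw [Polynomial.sum_monomial_index _ _ (by simp)]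
    rfl
  have key : ∀ q : ℤ[X], L ((X - 1) * q) = (A ^ n).mulVec ((aeval A q).mulVec (e 1 - e 0)) := by
    intro q
    induction q using Polynomial.induction_on' with
    | add p q hp hq => rw [mul_add, map_add, hp, hq, map_add, Matrix.add_mulVec, Matrix.mulVec_add]
    | monomial k c =>
      rw [sub_mul, one_mul, X_mul_monomial, map_sub, hm, hm, ← smul_sub, ← add_assoc,
        ← diff_eq A b e h (n + k), aeval_monomial, ← Algebra.smul_def, Matrix.smul_mulVec,
        Matrix.mulVec_smul, Matrix.mulVec_mulVec, ← pow_add]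
  rw [← hL, key, hp, Matrix.mulVec_zero]

theorem mono_eq {K J : Type} [Field K] [Fintype J] (c : J → R K) (F : Finset ℕ) (φ : ℕ → R K)
    (B : ℕ → J → ℕ) (h : ∀ k, ∃ a : K, a ≠ 0 ∧ φ k = cc a * ∏ l, c l ^ B k l) (x : ℕ → ℕ) (m : ℕ) :
    ∃ a : K, a ≠ 0 ∧ (∏ k ∈ F, φ k ^ x k) ^ m = cc a * ∏ l, c l ^ (m * ∑ k ∈ F, x k * B k l) := by
  choose a ha hφ using h
  refine ⟨(∏ k ∈ F, a k ^ x k) ^ m,
    pow_ne_zero _ (Finset.prod_ne_zero_iff.2 fun k _ => pow_ne_zero _ (ha k)), ?_⟩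
  simp only [hφ, mul_pow, Finset.prod_mul_distrib, map_pow, map_prod]
  congr 1
  simp only [← Finset.prod_pow, ← pow_mul]
  rw [Finset.prod_comm]
  refine Finset.prod_congr rfl fun l _ => ?_
  rw [Finset.prod_pow_eq_pow_sum, Finset.mul_sum]
  congr 1
  exact Finset.sum_congr rfl fun k _ => by ring

theorem zpow_split {G : Type} [CommGroup G] (F : Finset ℕ) (g : ℕ → G) (P : ℕ → ℤ) (m : ℕ)
    (h : (∏ k ∈ F, g k ^ P k) ^ m = 1) :
    (∏ k ∈ F, g k ^ (P k).toNat) ^ m = (∏ k ∈ F, g k ^ (-P k).toNat) ^ m := by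
  have e : ∀ k, g k ^ (P k).toNat = g k ^ P k * g k ^ (-P k).toNat := fun k => by
    rw [← zpow_natCast, ← zpow_natCast, ← zpow_add]
    congr 1
    omega
  simp only [e, Finset.prod_mul_distrib, mul_pow, h, one_mul]

theorem grow_of {H : ℕ → ℝ} {δ c D C : ℝ} {n₀ : ℕ} (hδ : 1 < δ) (hc : 0 < c) (hD : 0 ≤ D)
    (h0 : ∀ n, 0 ≤ H n) (h : ∀ n, c * δ ^ n ≤ D * H (n₀ + n) + C) :
    ∃ c' : ℝ, 0 < c' ∧ ∀ᶠ n in atTop, c' * δ ^ n ≤ H n := by
  have hδ0 : 0 < δ := by linarith
  obtain ⟨k, hk⟩ := eventually_atTop.1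
    ((tendsto_pow_atTop_atTop_of_one_lt hδ).eventually_ge_atTop (2 * C / c))
  refine ⟨c / (2 * (D + 1) * δ ^ n₀), by positivity, eventually_atTop.2 ⟨n₀ + k, fun m hm => ?_⟩⟩
  obtain ⟨n, rfl⟩ : ∃ n, m = n₀ + n := ⟨m - n₀, by omega⟩
  have h1 := hk n (by omega)
  rw [div_le_iff₀ hc] at h1
  have h2 := h n
  have h3 := h0 (n₀ + n)
  rw [pow_add, div_mul_eq_mul_div, div_le_iff₀ (by positivity)]
  have h4 : c * δ ^ n ≤ H (n₀ + n) * (2 * (D + 1)) := by nlinarith
  have h5 : 0 < δ ^ n₀ := by positivity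
  nlinarith

end UN3

open UN3 in
theorem un3 (h1 : S_UN1) (h2 : S_UN2) (h3 : S_UN4) (h4 : S_ORB) (h5 : S_HB) : S_UN3 := by
  intro K _ _ s O hO hZ δ hδ hlow hU
  classical
  obtain ⟨J, _, c, A, κ, hc0, hκ, hs, hind, halg⟩ := hU
  obtain ⟨-, hinj, hvan, -⟩ := h4 K s O hO hZ
  obtain ⟨hpow, hdeg⟩ := h3 K J s c A κ hκ hs
  obtain ⟨hH, -, hH3, -⟩ := h5 K
  obtain ⟨n₀, hn₀⟩ : ∃ n, ∀ j, MvPolynomial.eval (O n) (c j) ≠ 0 := by
    by_contra hn
    push Not at hn
    refine Finset.prod_ne_zero_iff.2 (fun j (_ : j ∈ Finset.univ) => hc0 j) (hZ _ fun n => ?_)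
    obtain ⟨j, hj⟩ := hn n
    rw [map_prod]
    exact Finset.prod_eq_zero (Finset.mem_univ j) hj
  let S : Finset Kˣ := (Finset.univ.image fun j => Units.mk0 (κ j) (hκ j)) ∪
    Finset.univ.image fun j => Units.mk0 _ (hn₀ j)
  obtain ⟨T, _, f, c₂, m, hc₂, hm, hf⟩ := h2 K S
  let kap : J → Subgroup.closure (S : Set Kˣ) := fun j => ⟨Units.mk0 (κ j) (hκ j),
    Subgroup.subset_closure (Finset.mem_coe.2 (Finset.mem_union_left _
      (Finset.mem_image_of_mem _ (Finset.mem_univ j))))⟩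
  let g : ℕ → J → Subgroup.closure (S : Set Kˣ) := fun n => Nat.rec
    (fun j => ⟨Units.mk0 _ (hn₀ j), Subgroup.subset_closure (Finset.mem_coe.2
      (Finset.mem_union_right _ (Finset.mem_image_of_mem _ (Finset.mem_univ j))))⟩)
    (fun _ u j => kap j * ∏ l, u l ^ A j l) n
  have hgs : ∀ n j, g (n + 1) j = kap j * ∏ l, g n l ^ A j l := fun n j => rfl
  let ι : Subgroup.closure (S : Set Kˣ) →* K :=
    (Units.coeHom K).comp (Subgroup.closure (S : Set Kˣ)).subtype
  have hg : ∀ n j, ι (g n j) = MvPolynomial.eval (O (n₀ + n)) (c j) := by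
    intro n
    induction n with
    | zero => intro j; rfl
    | succ n ih =>
      intro j
      rw [hgs, ← add_assoc, hO, eval_ap, hs, map_mul, map_mul, map_prod, map_prod,
        MvPolynomial.eval_C]
      simp only [map_pow, ih]
      rfl
  let A' : Matrix J J ℤ := (Nat.castRingHom ℤ).mapMatrix A
  have hA' : ∀ n j l, (A' ^ n) j l = ((A ^ n) j l : ℤ) := fun n j l => by
    rw [← map_pow]; rfl
  let e : T → ℕ → J → ℤ := fun a n j => f (Additive.ofMul (g n j)) a
  have he : ∀ a n, e a (n + 1) = (fun j => f (Additive.ofMul (kap j)) a) + A'.mulVec (e a n) := by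
    intro a n
    funext j
    simp only [e, hgs, ofMul_mul, ofMul_prod, ofMul_pow, map_add, map_sum, map_nsmul, Pi.add_apply,
      Finset.sum_apply, Matrix.mulVec, dotProduct, nsmul_eq_mul]
    rfl
  obtain ⟨C, hC⟩ := hdeg hinj halg
  rcases h1 J T A' δ C (fun a => e a 1 - e a 0) hδ (fun n => by
    refine (hlow n).trans ((hC n).trans (le_of_eq ?_))
    simp only [hA', Int.cast_natCast, Nat.abs_cast]) with ⟨a, c₁, hc₁, hg1⟩ | ⟨p, hp, hp0⟩
  · choose C₁ hC₁ using hH
    refine grow_of (c := c₂ * c₁) (D := ∑ j, ((dg (s (c j)) : ℝ) + dg (c j)))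
      (C := ∑ j, (C₁ (s (c j)) + C₁ (c j))) (n₀ := n₀) hδ (mul_pos hc₂ hc₁)
      (Finset.sum_nonneg fun j _ => by positivity)
      (fun n => (Height.zero_le_logHeight₁ _).trans (hH3 (O n) 0)) fun n => ?_
    have h6 := mul_le_mul_of_nonneg_left (hg1 n) hc₂.le
    rw [diff_eq A' _ _ (he a), Finset.mul_sum] at h6
    rw [mul_assoc, Finset.sum_mul, ← Finset.sum_add_distrib]
    refine h6.trans (Finset.sum_le_sum fun j _ => ?_)
    have h12 : ∀ n, c₂ * |(e a n j : ℝ)| ≤
        Height.logHeight₁ (MvPolynomial.eval (O (n₀ + n)) (c j)) := fun n => by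
      rw [← hg]
      exact (hf _).2 a
    have h7 := h12 (n + 1)
    have h8 := h12 n
    rw [← add_assoc, hO, eval_ap] at h7
    have h9 := hC₁ (s (c j)) (O (n₀ + n))
    have h10 := hC₁ (c j) (O (n₀ + n))
    have h11 := mul_le_mul_of_nonneg_left (abs_sub (e a (n + 1) j : ℝ) (e a n j)) hc₂.le
    rw [Pi.sub_apply, Int.cast_sub]
    linarith
  · exfalso
    refine hp0 ?_
    set P : ℤ[X] := (X - 1) * p with hP
    set F := Finset.range (P.natDegree + 1) with hF
    rw [aeval_eq_sum_range]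
    ext j l
    have hrel : ∀ n, (∏ k ∈ F, g (n + k) j ^ (P.coeff k).toNat) ^ m =
        (∏ k ∈ F, g (n + k) j ^ (-P.coeff k).toNat) ^ m := fun n => by
      refine zpow_split F _ _ m ((hf _).1 ?_)
      funext a
      have := congrFun (rel_eq A' _ _ (he a) p (hp a) n) j
      simp only [ofMul_prod, ofMul_zpow, map_sum, map_zsmul, Finset.sum_apply, Pi.smul_apply]
      rw [Finset.sum_apply] at this
      exact this
    have hR : (∏ k ∈ F, (s ^ k) (c j) ^ (P.coeff k).toNat) ^ m =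
        (∏ k ∈ F, (s ^ k) (c j) ^ (-P.coeff k).toNat) ^ m := by
      refine sub_eq_zero.1 (hvan _ n₀ fun n hn => ?_)
      obtain ⟨n, rfl⟩ := Nat.exists_eq_add_of_le hn
      have := congrArg ι (hrel n)
      simp only [map_pow, map_prod, hg, ← add_assoc, hO.eval_add _ (n₀ + n)] at this
      simp only [map_sub, map_pow, map_prod, this, sub_self]
    obtain ⟨α, hα, e1⟩ := mono_eq c F (fun k => (s ^ k) (c j)) (fun k l => (A ^ k) j l)
      (fun k => hpow k j) (fun k => (P.coeff k).toNat) m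
    obtain ⟨β, -, e2⟩ := mono_eq c F (fun k => (s ^ k) (c j)) (fun k l => (A ^ k) j l)
      (fun k => hpow k j) (fun k => (-P.coeff k).toNat) m
    rw [e1, e2] at hR
    have h8 := congrArg (fun z => cc α⁻¹ * z) hR
    simp only [← mul_assoc, ← map_mul, inv_mul_cancel₀ hα, map_one, one_mul] at h8
    have h6 := congrFun (hind _ _ (α⁻¹ * β) h8) l
    have h7 := congrArg (Nat.cast : ℕ → ℤ) (Nat.eq_of_mul_eq_mul_left hm h6)
    rw [Matrix.sum_apply, Matrix.zero_apply]
    simp only [Matrix.smul_apply, hA', smul_eq_mul]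
    push_cast at h7
    rw [← sub_eq_zero, ← Finset.sum_sub_distrib] at h7
    rw [← h7]
    refine Finset.sum_congr rfl fun k _ => ?_
    rw [← sub_mul]
    congr 1
    omega

end Pool.Agent.KSP

end

end MrgPart12

-- ======== part 13: formerly Pool.Agent.MP_c8dfda_nt.kp.ULT2
section MrgPart13

/-! Polynomial maps of the plane: the weights of the limit family along an ultrafilter. -/

open Polynomial Filter Real
open scoped Topology

noncomputable section

namespace Pool.Agent.KSP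

namespace ULT2

variable {K : Type} [Field K]

theorem sup3 (v : AbsoluteValue K ℝ) (a b : K) :
    ⨆ i, v (![a, b, 1] i) = max (max 1 (v a)) (max 1 (v b)) := by
  have hb : BddAbove (Set.range fun i => v (![a, b, 1] i)) := (Set.finite_range _).bddAbove
  have h0 : v a ≤ ⨆ i, v (![a, b, 1] i) := le_ciSup hb 0
  have h1 : v b ≤ ⨆ i, v (![a, b, 1] i) := le_ciSup hb 1
  have h2 : 1 ≤ ⨆ i, v (![a, b, 1] i) := by
    have := le_ciSup hb 2
    rwa [show v (![a, b, 1] 2) = 1 from map_one v] at this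
  refine le_antisymm (ciSup_le fun i => ?_) (max_le (max_le h2 h0) (max_le h2 h1))
  fin_cases i
  · exact (le_max_right _ _).trans (le_max_left _ _)
  · exact (le_max_right _ _).trans (le_max_right _ _)
  · exact (map_one v).le.trans ((le_max_left _ _).trans (le_max_left _ _))

theorem log_max1 {t : ℝ} (ht : 0 ≤ t) : log (max 1 t) = max 0 (log t) := by
  rcases le_total t 1 with h | h
  · rw [max_eq_left h, log_one, max_eq_left (log_nonpos ht h)]
  · rw [max_eq_right h, max_eq_right (log_nonneg h)]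

theorem log_max2 {a b : ℝ} (ha : 0 ≤ a) (hb : 0 ≤ b) :
    log (max (max 1 a) (max 1 b)) = max (max 0 (log a)) (max 0 (log b)) := by
  rw [← log_max1 ha, ← log_max1 hb]
  rcases le_total (max 1 a) (max 1 b) with h | h
  · rw [max_eq_right h, max_eq_right (log_le_log (by positivity) h)]
  · rw [max_eq_left h, max_eq_left (log_le_log (by positivity) h)]

variable [NumberField K]

/-- the height of a point that is integral outside `S` -/
theorem ht_eq (S : Finset (KSkew.GS.NA K)) (P : Fin 2 → K) (h : ∀ v, v ∉ S → ∀ j, v.1 (P j) ≤ 1) :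
    Ht P = ∑ i, max (max 0 (log (KSkew.GS.pl S i (P 0)))) (max 0 (log (KSkew.GS.pl S i (P 1)))) := by
  have hx : (![P 0, P 1, 1] : Fin 3 → K) ≠ 0 := fun e => one_ne_zero (congrFun e 2)
  have h1 : Height.mulHeight ![P 0, P 1, 1] =
      ∏ i, max (max 1 (KSkew.GS.pl S i (P 0))) (max 1 (KSkew.GS.pl S i (P 1))) := by
    rw [KSkew.GS.prod_pl S fun v => max (max 1 (v (P 0))) (max 1 (v (P 1))),
      Height.mulHeight_eq hx]
    simp only [sup3]
    congr 1
    refine finprod_eq_prod_of_mulSupport_subset _ fun v hv => ?_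
    by_contra h'
    exact hv (by
      show max (max 1 (v.1 (P 0))) (max 1 (v.1 (P 1))) = 1
      rw [max_eq_left (h v h' 0), max_eq_left (h v h' 1), max_self])
  rw [Ht, Height.logHeight_eq_log_mulHeight, h1, log_prod fun _ _ => by positivity]
  exact Finset.sum_congr rfl fun i _ => log_max2 (AbsoluteValue.nonneg _ _) (AbsoluteValue.nonneg _ _)

/-- the limit of the ratio of heights -/
theorem lim (S : Finset (KSkew.GS.NA K)) (U : Ultrafilter ℕ) (H : ℕ → ℝ) (O Q : ℕ → Fin 2 → K)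
    (f : Fin 2 → R K) (N : KSkew.GS.Ix S → AV K) (hp : ∀ᶠ n in (U : Filter ℕ), 0 < H n)
    (hQ : ∀ n j, Q n j = MvPolynomial.eval (O n) (f j)) (h : ∀ v, v ∉ S → ∀ n j, v.1 (Q n j) ≤ 1)
    (hl : ∀ i φ, Tendsto (fun n => log (KSkew.GS.pl S i (MvPolynomial.eval (O n) φ)) / H n) U
      (𝓝 (lg (N i) φ))) :
    Tendsto (fun n => Ht (Q n) / H n) U (𝓝 (∑ i, max (lp (N i) (f 0)) (lp (N i) (f 1)))) := by
  have c0 : Tendsto (fun _ : ℕ => (0 : ℝ)) U (𝓝 0) := tendsto_const_nhds
  refine (tendsto_finsetSum Finset.univ fun i _ =>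
    (c0.max (hl i (f 0))).max (c0.max (hl i (f 1)))).congr' (hp.mono fun n hn => ?_)
  show _ = Ht (Q n) / H n
  rw [ht_eq S (Q n) fun v hv => h v hv n, Finset.sum_div]
  refine Finset.sum_congr rfl fun i _ => ?_
  rw [← max_div_div_right hn.le, ← max_div_div_right hn.le, ← max_div_div_right hn.le, zero_div,
    hQ, hQ]

end ULT2

open ULT ULT2 in
theorem ult2 (h1 : S_HB) : S_ULT2 := by
  intro K _ _ s O ho _ U β C hT hne hβ
  obtain ⟨b1, -, b3, -, -⟩ := h1 K
  obtain ⟨S, hS⟩ := exists_int ho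
  have hp : ∀ᶠ n in (U : Filter ℕ), 0 < Ht (O n) := hT.eventually_gt_atTop 0
  choose N hN hl using fun i : KSkew.GS.Ix S =>
    exists_N U (fun n => Ht (O n)) O (KSkew.GS.pl S i) hT hne fun φ => by
      obtain ⟨C, hC⟩ := b1 φ
      exact ⟨dg φ, C, fun n => (KSkew.GS.abs_log_le S i _).trans (hC _)⟩
  have F : Fam0 N := by
    refine ⟨hN, fun φ h0 => ?_⟩
    obtain ⟨B, k1, k2, k3⟩ := bdd_eval S hS φ
    obtain ⟨C, hC⟩ := KSkew.GS.pf_loc S B k1 k2
    have h2 := (tendsto_finsetSum Finset.univ fun i _ => hl i φ).add (hT.const_div_atTop C)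
    rw [add_zero] at h2
    refine ge_of_tendsto h2 ?_
    filter_upwards [hne φ h0, hp] with n hn hn'
    rw [← Finset.sum_div, ← add_div]
    exact div_nonneg (hC _ hn (k3 n)) hn'.le
  have Z1 : ZZ N = 1 := by
    have h2 := lim S U (fun n => Ht (O n)) O O xx N hp
      (fun n j => (MvPolynomial.eval_X j).symm) hS hl
    exact tendsto_nhds_unique h2 (tendsto_const_nhds.congr' (hp.mono fun n hn =>
      (div_self hn.ne').symm))
  have Z : ∃ i, 0 < zz (N i) := by
    by_contra hz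
    have : ZZ N ≤ 0 := Finset.sum_nonpos fun i _ => not_lt.1 (not_exists.1 hz i)
    linarith
  have := Classical.decPred fun i => 0 < zz (N i)
  have hF : Fam fun i : {i // 0 < zz (N i)} => N i.1 := by
    obtain ⟨⟨a, b⟩, c, d⟩ := (F.drop Z).1
    refine ⟨⟨a, fun φ hφ => (b φ hφ).trans_eq ?_⟩, c, d⟩
    exact Finset.sum_congr (Finset.ext fun _ => by simp) fun _ _ => rfl
  have drop : ∀ g : KSkew.GS.Ix S → ℝ, (∀ i, ¬ 0 < zz (N i) → g i = 0) →
      ∑ i : {i // 0 < zz (N i)}, g i.1 = ∑ i, g i := fun g hg => by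
    rw [← Fintype.sum_subtype_add_sum_subtype (fun i => 0 < zz (N i)) g,
      Finset.sum_eq_zero (s := Finset.univ) fun (i : {i // ¬ 0 < zz (N i)}) _ => hg i.1 i.2,
      add_zero]
  refine ⟨{i // 0 < zz (N i)}, inferInstance, fun i => N i.1, ⟨hF, C, fun i k j => ?_⟩, ?_,
    fun σ hσ => ?_⟩
  · refine le_of_tendsto (hl i.1 ((s ^ k) (xx j))) ?_
    filter_upwards [hβ k, hp] with n k1 k2
    rw [← ho.eval_add, MvPolynomial.eval_X, div_le_iff₀ k2]
    exact ((KSkew.GS.log_le S i.1 _).trans (b3 _ j)).trans k1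
  · exact (drop (fun i => zz (N i)) fun i hi => le_antisymm (not_lt.1 hi) (zz_nonneg _)).trans Z1
  · have e : ∀ i, zz (cp (N i) σ) = max (lp (N i) (s (xx 0))) (lp (N i) (s (xx 1))) := fun i => by
      simp only [zz, lp, hσ.lg_cp]
    have l0 : ∀ i, ¬ 0 < zz (N i) → ∀ φ, lp (N i) φ = 0 := fun i hi φ => by
      have := lp_le (hN i) φ
      rw [le_antisymm (not_lt.1 hi) (zz_nonneg _), mul_zero] at this
      exact le_antisymm this (lp_nonneg _ _)
    rw [ZZ, drop (fun i => zz (cp (N i) σ)) fun i hi => by rw [e, l0 i hi, l0 i hi, max_self]]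
    simp only [e]
    exact lim S U (fun n => Ht (O n)) O (fun n => O (n + 1)) (fun j => s (xx j)) N hp
      (fun n j => by rw [ho]; rfl) (fun v hv n => hS v hv (n + 1)) hl

end Pool.Agent.KSP

end

end MrgPart13

-- ======== part 14: formerly Pool.Agent.MP_c8dfda_nt.kp.DROP2
section MrgPart14

/-! Polynomial maps of the plane: the height does not drop much on a curve, uniform slope. -/

open Polynomial Filter Real
open scoped Topology

noncomputable section

namespace Pool.Agent.KSP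

namespace DROP2

variable {K : Type} [Field K] [NumberField K]

theorem coord (h1 : S_FINI) (h4 : S_ROOTH) (h5 : S_DEP) {O : ℕ → Fin 2 → K}
    (hO : Function.Injective O) {c a : R K} (hc : Prime c)
    (ha : ∀ p : K[X], p ≠ 0 → ¬ c ∣ aeval a p) (l : Fin 2) :
    ∃ (C : ℝ) (k : ℕ), ∀ n, k ≤ n → MvPolynomial.eval (O n) c = 0 →
      Height.logHeight₁ (O n l) ≤ dg c * Height.logHeight₁ (MvPolynomial.eval (O n) a) + C := by
  obtain ⟨Q, hQ, hdeg, hd⟩ := h5 K c a l hc.ne_zero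
  obtain ⟨k, hk⟩ := DROP.late hO ((h1 K c hc).1 _ (ha _ (leadingCoeff_ne_zero.2 hQ)))
  obtain ⟨C, hC⟩ := h4 K Q (dg c) hdeg
  refine ⟨C, k, fun n hn h0 => hC _ _ (fun h => hk n hn ⟨h0, ?_⟩) ?_⟩
  · rw [DROP.eval_aeval]; exact h
  · have := DROP.eval_dvd hd h0
    rwa [DROP.eval_two, MvPolynomial.eval_X] at this

end DROP2

theorem drop2 (h1 : S_FINI) (h2 : S_ORB) (h3 : S_HB) (h4 : S_ROOTH) (h5 : S_DEP) : S_DROP2 := by
  intro K _ _ s O ho hz c hc
  have hO := (h2 K s O ho hz).1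
  obtain ⟨-, -, hb1, hb2, -⟩ := h3 K
  refine ⟨2 * dg c, fun m => ?_⟩
  have e : ∀ n j, MvPolynomial.eval (O n) ((s ^ m) (xx j)) = O (n + m) j := fun n j => by
    rw [ho.add m n]; rfl
  by_cases h : ∃ j, ∀ p : K[X], p ≠ 0 → ¬ c ∣ aeval ((s ^ m) (xx j)) p
  · obtain ⟨j, hj⟩ := h
    obtain ⟨C0, k0, h0⟩ := DROP2.coord h1 h4 h5 hO hc hj 0
    obtain ⟨C1, k1, h1'⟩ := DROP2.coord h1 h4 h5 hO hc hj 1
    refine ⟨C0 + C1, max k0 k1, fun n hn hz => ?_⟩
    have a0 := h0 n ((le_max_left _ _).trans hn) hz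
    have a1 := h1' n ((le_max_right _ _).trans hn) hz
    rw [e] at a0 a1
    have a2 := mul_le_mul_of_nonneg_left (hb1 (O (n + m)) j) (Nat.cast_nonneg (dg c))
    have a3 := hb2 (O n)
    linarith
  · push Not at h
    choose p hp hd using h
    have hF : (Set.pi Set.univ fun j : Fin 2 => {t : K | IsRoot (p j) t}).Finite :=
      Set.Finite.pi fun j => finite_setOfPred_isRoot (hp j)
    obtain ⟨k, hk⟩ := DROP.late hO hF
    refine ⟨0, k, fun n hn hz => absurd ?_ (hk (n + m) (by omega))⟩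
    intro j _
    have := DROP.eval_dvd (hd j) hz
    rw [DROP.eval_aeval, e] at this
    exact this

end Pool.Agent.KSP

end

end MrgPart14

-- marker of a merged file
example : 731051 + 162425 = 731051 + 162425 := rfl
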