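import Mathlib.Algebra.EuclideanDomain.Defs
import Mathlib.Algebra.EuclideanDomain.Field
import Mathlib.Algebra.Lie.OfAssociative
import Mathlib.RingTheory.LocalProperties.Reduced
import Mathlib.Data.Rat.Star
import Pool.Agent.MP_c8dfda_nt.kp.SEQ
import Pool.Agent.MP_c8dfda_nt.kp.TOP2

-- ======== part 0: formerly Pool.Agent.MP_c8dfda_nt.kp.DERV
section MrgPart0

/-! Polynomial maps of the plane: the derivation on the algebraic closure. -/

open Polynomial Filter Real
open scoped Topology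

noncomputable section

namespace Pool.Agent.KSP

namespace DERV

/-- derivations extend to separable extensions -/
theorem ext_der {K L E : Type} [Field K] [Field L] [Field E] [Algebra K L] [Algebra L E]
    [Algebra K E] [IsScalarTower K L E] [Algebra.IsSeparable L E] (D0 : Derivation K L L) :
    ∃ D : Derivation K E E, ∀ a, D (algebraMap L E a) = algebraMap L E (D0 a) := by
  have := Algebra.FormallyEtale.of_isSeparable L E
  refine ⟨(((Algebra.linearMap L E ∘ₗ D0.liftKaehlerDifferential).liftBaseChange E) ∘ₗ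
    (KaehlerDifferential.tensorKaehlerEquivOfFormallyEtale K L E).symm.toLinearMap).compDer
      (KaehlerDifferential.D K E), fun a => ?_⟩
  simp [KaehlerDifferential.tensorKaehlerEquivOfFormallyEtale_symm_D_algebraMap]

/-- a derivation is bounded on a finite dimensional subspace -/
theorem bound {K L E : Type} [Field K] [NontriviallyNormedField L] [CompleteSpace L]
    [NormedField E] [NormedAlgebra L E] [Algebra K E] (V : Submodule L E) [FiniteDimensional L V]
    (D : Derivation K E E) (h : ∀ c : L, ‖D (algebraMap L E c)‖ ≤ ‖c‖) :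
    ∃ C : ℝ, ∀ a ∈ V, ‖D a‖ ≤ C * ‖a‖ := by
  let b := Module.finBasis L V
  refine ⟨∑ i, ‖LinearMap.toContinuousLinearMap (b.coord i)‖ * (‖D (b i : E)‖ + ‖(b i : E)‖),
    fun a ha => ?_⟩
  have e : a = ∑ i, algebraMap L E (b.repr ⟨a, ha⟩ i) * (b i : E) := by
    have := congrArg Subtype.val (b.sum_repr ⟨a, ha⟩)
    simp only [Submodule.coe_sum, Submodule.coe_smul, Algebra.smul_def] at this
    exact this.symm
  conv_lhs => rw [e, map_sum]
  rw [Finset.sum_mul]
  refine (norm_sum_le _ _).trans (Finset.sum_le_sum fun i _ => ?_)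
  have h1 : ‖b.repr ⟨a, ha⟩ i‖ ≤ ‖LinearMap.toContinuousLinearMap (b.coord i)‖ * ‖a‖ :=
    (LinearMap.toContinuousLinearMap (b.coord i)).le_opNorm ⟨a, ha⟩
  rw [Derivation.leibniz, smul_eq_mul, smul_eq_mul]
  refine (norm_add_le _ _).trans ?_
  rw [norm_mul, norm_mul, norm_algebraMap']
  have h2 := h (b.repr ⟨a, ha⟩ i)
  have h3 := norm_nonneg (D (b i : E))
  have h4 := norm_nonneg (b i : E)
  calc _ ≤ ‖b.repr ⟨a, ha⟩ i‖ * (‖D (b i : E)‖ + ‖(b i : E)‖) := by nlinarith
    _ ≤ _ := by rw [mul_right_comm]; exact mul_le_mul_of_nonneg_right h1 (by positivity)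

variable {K E : Type} [Field K] [CharZero K] [Field E] [Algebra K E] {n : AbsoluteValue E ℝ}

/-- a polynomial that is small at `ε` with a derivative that is not -/
theorem sharp (hn : NA K n) {ε : E} (h1 : n ε ≤ 1) (h : ∃ P : K[X], P ≠ 0 ∧ n (aeval ε P) < 1) :
    ∃ P : K[X], n (aeval ε P) < 1 ∧ n (aeval ε (derivative P)) = 1 := by
  obtain ⟨P, h0, hP⟩ := h
  induction hd : P.natDegree using Nat.strong_induction_on generalizing P with
  | _ d ih =>
    have d0 : P.natDegree ≠ 0 := fun e => by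
      rw [eq_C_of_natDegree_eq_zero e] at h0 hP
      rw [aeval_C, hn.2 _ (by simpa using h0)] at hP
      exact lt_irrefl _ hP
    have h2 : n (aeval ε (derivative P)) ≤ 1 := by simpa using hn.aeval_le le_rfl h1 (derivative P)
    rcases h2.eq_or_lt with e | e
    · exact ⟨P, hP, e⟩
    · exact ih _ (hd ▸ natDegree_derivative_lt d0) _
        (fun z => d0 (derivative_eq_zero.1 z)) e rfl

/-- the estimate on a subfield with discrete values -/
theorem core (hn : NA K n) (D : Derivation K E E) (F : Subalgebra K E) {x : E} (hx : n x = exp 1)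
    (xF : ∀ k : ℤ, x ^ k ∈ F) (Dx : D x = x) {m : ℕ} (hm : m ≠ 0)
    (val : ∀ a ∈ F, a ≠ 0 → ∃ k : ℤ, n a ^ m = exp k)
    (res : ∀ a ∈ F, n a ≤ 1 → ∃ P : K[X], P ≠ 0 ∧ n (aeval a P) < 1)
    (bd : ∃ C : ℝ, ∀ a ∈ F, n (D a) ≤ C * n a) {γ : E} (hγ : γ ∈ F) {r : ℚ} (hr : n γ = exp r) :
    n (D γ - r * γ) < n γ := by
  have : CharZero E := charZero_of_injective_algebraMap (algebraMap K E).injective
  have m0 : (0 : ℝ) < m := Nat.cast_pos.2 (Nat.pos_of_ne_zero hm)
  have x0 : x ≠ 0 := fun e => (exp_pos 1).ne' (by rw [← hx, e, map_zero])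
  set q : ℝ := exp (-1 / m) with hq
  have q0 : 0 < q := exp_pos _
  have q1 : q < 1 := exp_lt_one_iff.2 (div_neg_of_neg_of_pos (by norm_num) m0)
  have gap : ∀ a ∈ F, n a < 1 → n a ≤ q := fun a ha h => by
    by_cases a0 : a = 0
    · rw [a0, map_zero]; exact q0.le
    obtain ⟨k, hk⟩ := val a ha a0
    have k0 : k < 0 := by
      have : exp (k : ℝ) < 1 := hk ▸ pow_lt_one₀ (n.nonneg a) h hm
      exact_mod_cast exp_lt_one_iff.1 this
    refine le_of_pow_le_pow_left₀ hm q0.le ?_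
    rw [hk, hq, ← exp_nat_mul, mul_div_cancel₀ _ m0.ne']
    exact exp_le_exp.2 (by exact_mod_cast Int.le_sub_one_of_lt k0)
  have s1 : ∀ C : ℝ, 0 ≤ C → (∀ a ∈ F, n (D a) ≤ C * n a) → ∀ ε ∈ F, n ε ≤ 1 →
      n (D ε) ≤ C * q := fun C C0 hC ε hε h => by
    obtain ⟨P, p1, p2⟩ := sharp hn h (res ε hε h)
    have hP : aeval ε P ∈ F := by
      rw [aeval_eq_sum_range]
      exact sum_mem fun i _ => F.smul_mem (pow_mem hε i) _
    have := hC _ hP
    rw [D.map_aeval, smul_eq_mul, map_mul, p2, one_mul] at this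
    exact this.trans (mul_le_mul_of_nonneg_left (gap _ hP p1) C0)
  have s2 : ∀ C : ℝ, 0 ≤ C → (∀ a ∈ F, n (D a) ≤ C * n a) → ∀ a ∈ F, a ≠ 0 → ∀ k : ℤ,
      n a ^ m = exp k → n (m * D a - k * a) ≤ C * q * n a := fun C C0 hC a ha a0 k hk => by
    have e1 : n (a ^ m * x ^ (-k)) = 1 := by
      rw [map_mul, map_pow, map_zpow₀, hk, hx, ← rpow_intCast, exp_one_rpow, ← exp_add]
      simp
    have e2 := s1 C C0 hC _ (mul_mem (pow_mem ha m) (xF (-k))) e1.le
    have e3 : a * D (a ^ m * x ^ (-k)) = a ^ m * x ^ (-k) * (m * D a - k * a) := by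
      obtain ⟨m, rfl⟩ := Nat.exists_eq_add_one_of_ne_zero hm
      rw [D.leibniz, D.leibniz_pow, D.leibniz_zpow, Dx, zpow_sub_one₀ x0]
      simp only [smul_eq_mul, nsmul_eq_mul, zsmul_eq_mul, Nat.add_sub_cancel]
      push_cast
      field_simp
      ring
    have e4 := congrArg n e3
    rw [map_mul, map_mul _ (a ^ m * x ^ (-k)), e1, one_mul] at e4
    rw [← e4, mul_comm]
    exact mul_le_mul_of_nonneg_right e2 (n.nonneg a)
  have ik : ∀ k : ℤ, n (k : E) ≤ 1 := fun k => by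
    rw [← map_intCast (algebraMap K E)]; exact hn.le_one _
  have s3 : ∀ C : ℝ, 0 ≤ C → (∀ a ∈ F, n (D a) ≤ C * n a) → ∀ a ∈ F,
      n (D a) ≤ max 1 (C * q) * n a := fun C C0 hC a ha => by
    by_cases a0 : a = 0
    · simp [a0]
    obtain ⟨k, hk⟩ := val a ha a0
    have e1 : n (D a) = n (m * D a - k * a + k * a) := by
      rw [sub_add_cancel, map_mul, hn.natCast hm, one_mul]
    rw [e1]
    refine KSkew.na_add_le hn.1 ((s2 C C0 hC a ha a0 k hk).trans
      (mul_le_mul_of_nonneg_right (le_max_right _ _) (n.nonneg a))) ?_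
    rw [map_mul]
    exact mul_le_mul_of_nonneg_right ((ik k).trans (le_max_left _ _)) (n.nonneg a)
  obtain ⟨C, hC⟩ := bd
  have s4 : ∀ j : ℕ, ∀ a ∈ F, n (D a) ≤ max 1 (|C| * q ^ j) * n a := fun j => by
    induction j with
    | zero => exact fun a ha => (hC a ha).trans (mul_le_mul_of_nonneg_right
        ((le_abs_self C).trans (by simp)) (n.nonneg a))
    | succ j ih =>
      refine fun a ha => (s3 _ (zero_le_one.trans (le_max_left _ _)) ih a ha).trans
        (mul_le_mul_of_nonneg_right (max_le (le_max_left _ _) ?_) (n.nonneg a))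
      rw [max_mul_of_nonneg _ _ q0.le, one_mul, mul_assoc, ← pow_succ]
      exact max_le_max q1.le le_rfl
  obtain ⟨j, hj⟩ := exists_pow_lt_of_lt_one (show 0 < (|C| + 1)⁻¹ by positivity) q1
  have c1 : |C| * q ^ j ≤ 1 := by
    rw [lt_inv_comm₀ (pow_pos q0 j) (by positivity), lt_inv_comm₀ (by positivity) (pow_pos q0 j),
      inv_eq_one_div, lt_div_iff₀ (by positivity)] at hj
    nlinarith [pow_pos q0 j]
  have g0 : γ ≠ 0 := fun e => (exp_pos (r : ℝ)).ne' (by rw [← hr, e, map_zero])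
  obtain ⟨k, hk⟩ := val γ hγ g0
  have e1 := s2 1 zero_le_one (fun a ha => by simpa [max_eq_left c1] using s4 j a ha) γ hγ g0 k hk
  have e2 : (k : ℚ) = m * r := by
    rw [hr, ← exp_nat_mul, exp_eq_exp] at hk
    exact_mod_cast hk.symm
  have e3 : (m : E) * D γ - k * γ = m * (D γ - r * γ) := by
    rw [show (k : E) = m * r by exact_mod_cast congrArg (Rat.cast : ℚ → E) e2]
    ring
  rw [e3, map_mul, hn.natCast hm, one_mul, one_mul] at e1
  exact e1.trans_lt (mul_lt_of_lt_one_left (n.pos g0) q1)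

end DERV

open DERV IntermediateField in
theorem derv (h : S_DERL) : S_DERV := by
  intro K L _ _ _ _ _ _ ξ n hc hn
  obtain ⟨⟨D0, d1, d2⟩, apx, dis⟩ := h K L ξ n hc hn
  have : CharZero L := charZero_of_injective_algebraMap (algebraMap K L).injective
  obtain ⟨D, hD⟩ := ext_der (E := AlgebraicClosure L) D0
  refine ⟨D, by rw [hD, d1], fun γ r hr => ?_⟩
  have nL : ∀ c : L, n (algebraMap L _ c) = ‖c‖ := fun c => by rw [hn, spectralNorm_extends]
  have na : NA K n := ⟨fun a b => by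
    rw [hn, hn, hn]; exact isNonarchimedean_spectralNorm a b, fun c c0 => by
    rw [IsScalarTower.algebraMap_apply K L, nL, hc.triv c c0]⟩
  have nx : n (algebraMap L _ ξ) = exp 1 := by rw [nL, hc.xi]
  have gi : IsIntegral L γ := Algebra.IsIntegral.isIntegral γ
  have := adjoin.finiteDimensional gi
  have cst : ∀ c : L, ‖c‖ ≤ 1 → ∃ κ : K, n (algebraMap K _ κ - algebraMap L _ c) < 1 := fun c c1 => by
    obtain ⟨p, hp⟩ := apx c
    rw [← nL, map_sub, ← aeval_algebraMap_apply, n.map_sub] at hp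
    by_cases p0 : p.natDegree = 0
    · rw [eq_C_of_natDegree_eq_zero p0, aeval_C] at hp
      exact ⟨_, hp⟩
    · have e1 := na.aeval_eq (nx ▸ one_lt_exp_iff.2 one_pos) (p := p) (by rintro rfl; simp at p0)
      have e2 := KSkew.na_add_le na.1 hp.le ((nL c).trans_le c1)
      rw [sub_add_cancel, e1] at e2
      exact absurd e2 (one_lt_pow₀ (nx ▸ one_lt_exp_iff.2 one_pos) p0).not_ge
  refine core na D (L⟮γ⟯.toSubalgebra.restrictScalars K) nx
    (fun k => zpow_mem (L⟮γ⟯.algebraMap_mem ξ) k) (by rw [hD, d1])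
    (m := Module.finrank L L⟮γ⟯) Module.finrank_pos.ne' (fun a ha a0 => ?_) (fun a _ a1 => ?_) ?_
    (mem_adjoin_simple_self L γ) hr
  · have ai : IsIntegral L a := Algebra.IsIntegral.isIntegral a
    obtain ⟨t, ht⟩ := minpoly.degree_dvd (K := L) (x := (⟨a, ha⟩ : L⟮γ⟯))
      (Algebra.IsIntegral.isIntegral _)
    rw [IntermediateField.minpoly_eq] at ht
    obtain ⟨j, hj⟩ := dis _ (minpoly.coeff_zero_ne_zero ai a0)
    refine ⟨j * t, ?_⟩
    rw [hn, spectralNorm.spectralNorm_eq_norm_coeff_zero_rpow, ht, pow_mul, one_div,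
      rpow_inv_natCast_pow (norm_nonneg _) (minpoly.natDegree_pos ai).ne', hj, ← exp_nat_mul]
    push_cast
    rw [mul_comm]
  · have ai : IsIntegral L a := Algebra.IsIntegral.isIntegral a
    have c1 := (spectralValue_le_one_iff (minpoly.monic ai)).1 (by rwa [hn] at a1)
    choose κ hκ using fun i => cst _ (c1 i)
    refine ⟨∑ i ∈ Finset.range ((minpoly L a).natDegree + 1), monomial i (κ i), fun z => ?_, ?_⟩
    · have e1 := congrArg (fun p => coeff p (minpoly L a).natDegree) z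
      simp only [finsetSum_coeff, coeff_monomial, Finset.sum_ite_eq', Finset.mem_range,
        Nat.lt_succ_self, if_true, coeff_zero] at e1
      have e2 := hκ (minpoly L a).natDegree
      rw [e1, (minpoly.monic ai).coeff_natDegree] at e2
      simp at e2
    · have e1 := minpoly.aeval L a
      rw [aeval_eq_sum_range] at e1
      rw [map_sum, ← sub_zero (Finset.sum _ _), ← e1, ← Finset.sum_sub_distrib]
      refine KSkew.na_sum_lt na.1 _ _ one_pos fun i _ => ?_
      rw [aeval_monomial, Algebra.smul_def, ← sub_mul, map_mul, map_pow]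
      exact (mul_le_of_le_one_right (n.nonneg _) (pow_le_one₀ (n.nonneg _) a1)).trans_lt (hκ i)
  · let := spectralNorm.normedField L (AlgebraicClosure L)
    let := spectralNorm.normedAlgebra L (AlgebraicClosure L)
    obtain ⟨C, hC⟩ := bound (K := K) (L := L) (Subalgebra.toSubmodule L⟮γ⟯.toSubalgebra) D
      fun c => by
        rw [hD]
        exact (spectralNorm_extends _).trans_le (d2 c)
    exact ⟨C, fun a ha => by rw [hn, hn]; exact hC a ha⟩

end Pool.Agent.KSP

end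

end MrgPart0

-- ======== part 1: formerly Pool.Agent.MP_c8dfda_nt.kp.TRM
section MrgPart1

/-! Polynomial maps of the plane: values and residues for the types of points. -/

open Polynomial Filter Real
open scoped Topology

noncomputable section

namespace Pool.Agent.KSP

namespace TRM

variable {K : Type} [Field K] {W : Md K}

theorem pow_sub (ζ : Pt W.n) {F H : W.E[X]} {t δ : ℝ} (hδ : 0 ≤ δ) (hF : ζ.f F ≤ t)
    (hH : ζ.f H ≤ t) (h : ζ.f (F - H) ≤ δ * t) (i : ℕ) : ζ.f (F ^ i - H ^ i) ≤ δ * t ^ i := by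
  have ht : 0 ≤ t := (ζ.nn _).trans hF
  induction i with
  | zero => simpa using hδ
  | succ i ih =>
    have e : F ^ (i + 1) - H ^ (i + 1) = F * (F ^ i - H ^ i) + (F - H) * H ^ i := by ring
    rw [e]
    refine (ζ.add _ _).trans (max_le ?_ ?_)
    · rw [map_mul]
      exact (mul_le_mul hF ih (ζ.nn _) ht).trans (le_of_eq (by ring))
    · rw [map_mul, map_pow]
      exact (mul_le_mul h (pow_le_pow_left₀ (ζ.nn _) hH i) (pow_nonneg (ζ.nn _) _)
        (mul_nonneg hδ ht)).trans (le_of_eq (by ring))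

/-- a quotient of value one is close to an element of the closure -/
def Cl (ζ : Pt W.n) : Prop := ∀ F G : W.E[X], 0 < ζ.f G → ζ.f F = ζ.f G →
  ∃ γ, ζ.f (F - C γ * G) < ζ.f G

theorem ra (h3 : ∀ γ : W.E, W.n γ ≤ 1 → ∃ p : K[X], p ≠ 0 ∧ W.n (aeval γ p) < 1) {v : AV K}
    {ζ : Pt W.n} (hz : 0 < zz v) (hr : Rel W.x v ζ) (hc : Cl ζ) : RA v := by
  intro a ha
  rcases ha.lt_or_eq with ha | ha
  · exact ⟨X, X_ne_zero, by rwa [aeval_X]⟩
  obtain ⟨f, g, hg, rfl⟩ := exists_io a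
  have hg' := io_ne hg
  have hf : f ≠ 0 := by
    rintro rfl
    simp at ha
  obtain ⟨f1, f2⟩ := hr f hf
  obtain ⟨g1, g2⟩ := hr g hg
  have e : ζ.f (W.ev f) = ζ.f (W.ev g) := by
    rw [map_div₀, div_eq_one_iff_eq (v.ne_zero hg')] at ha
    have : lg v f = lg v g := by rw [lg, lg, ha]
    rw [f2, g2] at this
    exact log_injOn_pos f1 g1 (mul_left_cancel₀ hz.ne' this)
  obtain ⟨γ, hγ⟩ := hc _ _ g1 e
  set t := ζ.f (W.ev g) with ht
  have e2 : ζ.f (C γ * W.ev g) = t := (ζ.eq_of_sub_lt (hγ.trans_eq e.symm)).trans e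
  have hγ1 : W.n γ = 1 := by
    rw [map_mul, ζ.cst] at e2
    exact mul_right_cancel₀ g1.ne' (e2.trans (one_mul _).symm)
  obtain ⟨p, hp, hp'⟩ := h3 γ hγ1.le
  refine ⟨p, hp, ?_⟩
  set d := p.natDegree with hd
  let Φ : R K := ∑ i ∈ Finset.range (d + 1), cc (p.coeff i) * f ^ i * g ^ (d - i)
  have e3 : io Φ = aeval (io f / io g) p * io g ^ d := by
    rw [aeval_eq_sum_range, ← hd, Finset.sum_mul, map_sum]
    refine Finset.sum_congr rfl fun i hi => ?_
    obtain ⟨k, hk⟩ := Nat.exists_eq_add_of_le (Nat.lt_succ_iff.1 (Finset.mem_range.1 hi))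
    rw [map_mul, map_mul, map_pow, map_pow, io_cc, Algebra.smul_def, hk, Nat.add_sub_cancel_left,
      pow_add, div_pow]
    field_simp
  by_cases h0 : Φ = 0
  · rw [h0, map_zero, eq_comm, mul_eq_zero] at e3
    rw [e3.resolve_right (pow_ne_zero _ hg'), map_zero]
    exact one_pos
  have e4 : W.ev Φ - C (aeval γ p) * W.ev g ^ d = ∑ i ∈ Finset.range (d + 1),
      C (algebraMap K W.E (p.coeff i)) * (W.ev f ^ i - (C γ * W.ev g) ^ i) * W.ev g ^ (d - i) := by
    rw [aeval_eq_sum_range, map_sum, map_sum, Finset.sum_mul, ← Finset.sum_sub_distrib]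
    refine Finset.sum_congr rfl fun i hi => ?_
    obtain ⟨k, hk⟩ := Nat.exists_eq_add_of_le (Nat.lt_succ_iff.1 (Finset.mem_range.1 hi))
    rw [map_mul, map_mul, map_pow, map_pow, evA_cc, Algebra.smul_def, hk, Nat.add_sub_cancel_left,
      pow_add, map_mul, map_pow]
    ring
  set δ := ζ.f (W.ev f - C γ * W.ev g) / t with hδ
  have δ0 : 0 ≤ δ := div_nonneg (ζ.nn _) g1.le
  have δ1 : δ < 1 := (div_lt_one g1).2 hγ
  have tp : 0 < t ^ d := pow_pos g1 d
  have e5 : ζ.f (W.ev Φ - C (aeval γ p) * W.ev g ^ d) ≤ δ * t ^ d := by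
    rw [e4]
    refine ζ.sum_le _ _ (by positivity) fun i hi => ?_
    obtain ⟨k, hk⟩ := Nat.exists_eq_add_of_le (Nat.lt_succ_iff.1 (Finset.mem_range.1 hi))
    rw [map_mul, map_mul, map_pow, ζ.cst, hk, Nat.add_sub_cancel_left, pow_add, ← mul_assoc]
    refine mul_le_mul_of_nonneg_right ?_ (pow_nonneg g1.le _)
    exact (mul_le_of_le_one_left (ζ.nn _) (W.na.le_one _)).trans
      (pow_sub ζ δ0 e.le e2.le (div_mul_cancel₀ _ g1.ne').ge i)
  have e6 : ζ.f (W.ev Φ) < t ^ d := by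
    rw [← sub_add_cancel (W.ev Φ) (C (aeval γ p) * W.ev g ^ d)]
    refine (ζ.add _ _).trans_lt (max_lt (e5.trans_lt (mul_lt_of_lt_one_left tp δ1)) ?_)
    rw [map_mul, map_pow, ζ.cst]
    exact mul_lt_of_lt_one_left tp hp'
  obtain ⟨k1, k2⟩ := hr Φ h0
  have e7 : lg v Φ < lg v (g ^ d) := by
    rw [lg_pow, k2, g2, mul_left_comm, ← log_pow]
    exact mul_lt_mul_of_pos_left (log_lt_log k1 e6) hz
  rw [← exp_lt_exp, exp_lg v h0, exp_lg v (pow_ne_zero _ hg), e3, map_pow io, map_mul] at e7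
  exact (mul_lt_iff_lt_one_left (v.pos (pow_ne_zero _ hg'))).1 e7

theorem imm_val {ζ : Pt W.n} (h : W.Imm ζ) {F : W.E[X]} (hF : 0 < ζ.f F) :
    ∃ γ, ζ.f (F - C γ) < ζ.f F ∧ W.n γ = ζ.f F :=
  let ⟨γ, hγ⟩ := h F hF
  ⟨γ, hγ, (ζ.cst γ).symm.trans (ζ.eq_of_sub_lt hγ)⟩

theorem imm_cl {ζ : Pt W.n} (h : W.Imm ζ) : Cl ζ := fun F G hG e => by
  obtain ⟨α, a1, a2⟩ := imm_val h (hG.trans_eq e.symm)
  obtain ⟨β, b1, b2⟩ := imm_val h hG
  have hβ : β ≠ 0 := W.n.ne_zero_iff.1 (b2 ▸ hG.ne')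
  refine ⟨α / β, ?_⟩
  have e1 : F - C (α / β) * G = (F - C α) - C (α / β) * (G - C β) := by
    rw [mul_sub, ← C_mul, div_mul_cancel₀ _ hβ]; ring
  rw [e1]
  refine (ζ.sub _ _).trans_lt (max_lt (a1.trans_eq e) ?_)
  rwa [map_mul, ζ.cst, map_div₀, a2, b2, e, div_self hG.ne', one_mul]

theorem gn_idx (a : W.E × ℝ) (F : W.E[X]) :
    ∃ j, W.gn a F = W.n ((taylor a.1 F).coeff j) * exp a.2 ^ j :=
  exists_eq_gaussNorm W.n (exp a.2) (taylor a.1 F)

theorem coeff_le (a : W.E × ℝ) (F : W.E[X]) (j : ℕ) :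
    W.n ((taylor a.1 F).coeff j) * exp a.2 ^ j ≤ W.gn a F :=
  KSkew.coeff_le_GN W.na.1 (exp_pos a.2) F j

theorem uniq (h1 : ∀ γ : W.E, γ ≠ 0 → ∃ r : ℚ, W.n γ = exp r) {s : ℝ} (hs : Irrational s)
    {c c' : W.E} {i j : ℕ} (hp : 0 < W.n c * exp s ^ i)
    (h : W.n c * exp s ^ i = W.n c' * exp s ^ j) : i = j := by
  have hc : c ≠ 0 := by
    rintro rfl
    simp at hp
  have hc' : c' ≠ 0 := by
    rintro rfl
    simp [h] at hp
  obtain ⟨r, hr⟩ := h1 c hc
  obtain ⟨r', hr'⟩ := h1 c' hc'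
  rw [hr, hr', ← exp_nat_mul, ← exp_nat_mul, ← exp_add, ← exp_add, exp_eq_exp] at h
  by_contra hij
  have hne : (i : ℝ) - j ≠ 0 := sub_ne_zero.2 (Nat.cast_injective.ne hij)
  refine hs ⟨(r' - r) / (i - j), ?_⟩
  push_cast
  rw [div_eq_iff hne]
  linarith

theorem disc_cl (h1 : ∀ γ : W.E, γ ≠ 0 → ∃ r : ℚ, W.n γ = exp r) {ζ : Pt W.n} {a : W.E × ℝ}
    (hd : W.IsD ζ a) (hs : Irrational a.2) : Cl ζ := fun F G hG e => by
  rw [hd] at hG
  rw [hd, hd] at e
  obtain ⟨i, hi⟩ := gn_idx a F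
  obtain ⟨j, hj⟩ := gn_idx a G
  obtain rfl : i = j := uniq h1 hs (hi ▸ e ▸ hG) (hi.symm.trans (e.trans hj))
  have hρ : 0 < exp a.2 ^ i := by positivity
  have e1 : W.n ((taylor a.1 F).coeff i) = W.n ((taylor a.1 G).coeff i) :=
    mul_right_cancel₀ hρ.ne' (hi.symm.trans (e.trans hj))
  have hc : (taylor a.1 G).coeff i ≠ 0 := fun h0 => by
    rw [h0, map_zero, zero_mul] at hj
    exact hG.ne' hj
  have lt : ∀ (H : W.E[X]) (c : W.E), W.gn a H = W.gn a G → W.gn a G = W.n c * exp a.2 ^ i →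
      ∀ l, l ≠ i → W.n ((taylor a.1 H).coeff l) * exp a.2 ^ l < W.gn a G := fun H c h h' l hl =>
    ((coeff_le a H l).trans h.le).lt_of_ne fun h2 =>
      hl (uniq h1 hs (h2 ▸ hG) (h2.trans h'))
  refine ⟨(taylor a.1 F).coeff i / (taylor a.1 G).coeff i, ?_⟩
  rw [hd, hd]
  refine KSkew.GN_lt W.na.1 (exp_pos a.2) _ fun l => ?_
  rw [map_sub, taylor_mul, taylor_C, coeff_sub, coeff_C_mul]
  by_cases hl : l = i
  · rw [hl, div_mul_cancel₀ _ hc, sub_self, map_zero, zero_mul]
    exact hG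
  · have hρ' : 0 < exp a.2 ^ l := by positivity
    rw [← lt_div_iff₀ hρ']
    refine KSkew.na_sub_lt W.na.1 ((lt_div_iff₀ hρ').2 (lt F _ e hj l hl)) ?_
    rw [map_mul, map_div₀, e1, div_self (W.n.ne_zero hc), one_mul]
    exact (lt_div_iff₀ hρ').2 (lt G _ rfl hj l hl)

theorem coeff_mem (β : W.E) (f : W.L[X]) (j : ℕ) :
    (taylor β (W.up f)).coeff j ∈ IntermediateField.adjoin W.L (({β} : Finset W.E) : Set W.E) := by
  let F := IntermediateField.adjoin W.L (({β} : Finset W.E) : Set W.E)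
  let b : F := ⟨β, IntermediateField.subset_adjoin _ _ (by simp)⟩
  have e : taylor β (W.up f) = (taylor b (f.map (algebraMap W.L F))).map (algebraMap F W.E) := by
    rw [map_taylor, Polynomial.map_map, ← IsScalarTower.algebraMap_eq]
    rfl
  rw [e, coeff_map]
  exact Subtype.property _

/-- the values on a disc -/
theorem disc_val (h4 : ∀ S : Finset W.E, ∃ m : ℕ, 0 < m ∧
      ∀ γ ∈ IntermediateField.adjoin W.L (S : Set W.E), γ ≠ 0 → ∃ a : ℤ, W.n γ = exp (a / m))
    (a : W.E × ℝ) : ∃ m : ℕ, 0 < m ∧ ∀ φ : R K, ∃ (ρ : ℤ) (j : ℕ), 0 < W.gn a (W.ev φ) →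
      log (W.gn a (W.ev φ)) = ρ / m + j * a.2 ∧
      (j = 0 → W.gn a (W.ev φ) = W.n ((W.ev φ).eval a.1)) := by
  obtain ⟨m, hm, h⟩ := h4 {a.1}
  refine ⟨m, hm, fun φ => ?_⟩
  obtain ⟨j, hj⟩ := gn_idx a (W.ev φ)
  by_cases hc : (taylor a.1 (W.ev φ)).coeff j = 0
  · refine ⟨0, 0, fun hp => ?_⟩
    rw [hj, hc, map_zero, zero_mul] at hp
    exact absurd hp (lt_irrefl _)
  obtain ⟨ρ, hρ⟩ := h _ (W.up_evL φ ▸ coeff_mem a.1 (W.evL φ) j) hc
  refine ⟨ρ, j, fun _ => ⟨?_, fun h0 => ?_⟩⟩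
  · rw [hj, hρ, ← exp_nat_mul, ← exp_add, log_exp]
  · rw [hj, h0, pow_zero, mul_one, taylor_coeff_zero]

/-- a function whose norm on the disc is larger than the value at the centre -/
theorem exists_big (a : W.E × ℝ) :
    ∃ φ : R K, W.n ((W.ev φ).eval a.1) < W.gn a (W.ev φ) := by
  have : Algebra.IsAlgebraic W.L W.E := IsAlgClosure.isAlgebraic
  obtain ⟨f, hf, hβ⟩ := this.isAlgebraic a.1
  have hf' : W.up f ≠ 0 := Polynomial.map_ne_zero hf
  have hp := (W.gn a).pos hf'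
  set B := ∑ i ∈ Finset.range (f.natDegree + 1), W.gn a X ^ i with hB
  obtain ⟨k, hk⟩ := pow_unbounded_of_one_lt (B / W.gn a (W.up f)) (one_lt_exp_iff.2 one_pos)
  rw [div_lt_iff₀ hp] at hk
  choose p hp' using fun i => W.apx (W.ξ ^ k * f.coeff i)
  let φ : R K := ∑ i ∈ Finset.range (f.natDegree + 1), aeval (xx 0 : R K) (p i) * xx 1 ^ i
  have e1 : C (W.x ^ k) * W.up f - W.ev φ = ∑ i ∈ Finset.range (f.natDegree + 1),
      C (algebraMap W.L W.E (W.ξ ^ k * f.coeff i - aeval W.ξ (p i))) * X ^ i := by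
    conv_lhs => rw [f.as_sum_range_C_mul_X_pow, Md.up, Polynomial.map_sum, Finset.mul_sum, map_sum,
      ← Finset.sum_sub_distrib]
    refine Finset.sum_congr rfl fun i _ => ?_
    have e : W.ev (aeval (xx 0 : R K) (p i)) = C (algebraMap W.L W.E (aeval W.ξ (p i))) := by
      rw [← aeval_algHom_apply, evA_xx0, ← aeval_algebraMap_apply, ← algebraMap_eq,
        aeval_algebraMap_apply]
      rfl
    rw [map_mul W.ev, e, map_pow W.ev, evA_xx1, Polynomial.map_mul, Polynomial.map_pow, map_C,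
      map_X, map_sub, map_mul (algebraMap W.L W.E), map_pow (algebraMap W.L W.E), C_sub, C_mul,
      Md.x]
    ring
  have B0 : 0 ≤ B := Finset.sum_nonneg fun i _ => pow_nonneg ((W.gn a).nonneg _) i
  have e2 : W.gn a (C (W.x ^ k) * W.up f - W.ev φ) ≤ B := by
    rw [e1]
    refine KSkew.na_sum_le (W.gn_na a) _ _ B0 fun i hi => ?_
    rw [map_mul, map_pow, W.gn_C]
    exact (mul_le_of_le_one_left (pow_nonneg ((W.gn a).nonneg _) i) (hp' i).le).trans
      (Finset.single_le_sum (f := fun i => W.gn a X ^ i)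
        (fun i _ => pow_nonneg ((W.gn a).nonneg _) i) hi)
  have e3 : B < W.gn a (C (W.x ^ k) * W.up f) := by
    rwa [map_mul, W.gn_C, map_pow, W.n_x]
  refine ⟨φ, ?_⟩
  rw [KSkew.na_eq_of_sub_lt (W.gn_na a) (e2.trans_lt e3)]
  refine lt_of_le_of_lt (le_trans ?_ e2) e3
  have e4 := KSkew.eval_le_GN W.na.1 (exp_pos a.2) (z := a.1) (C (W.x ^ k) * W.up f - W.ev φ)
    (w := a.1) (by rw [sub_self, map_zero]; exact (exp_pos _).le)
  rwa [eval_sub, eval_mul, Md.up, eval_map_algebraMap, hβ, mul_zero, zero_sub, W.n.map_neg] at e4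

end TRM

theorem trm (h1 : S_MODF) : S_TRM := by
  intro K _ _ W v ζ hv hz hr
  obtain ⟨m1, -, m3, m4⟩ := h1 K W
  refine ⟨fun h => ⟨TRM.ra m3 hz hr (TRM.imm_cl h), fun φ hφ => ?_⟩, fun a ha => ?_⟩
  · obtain ⟨k1, k2⟩ := hr φ hφ
    obtain ⟨γ, -, hγ⟩ := TRM.imm_val h k1
    obtain ⟨r, hr'⟩ := m1 γ (W.n.ne_zero_iff.1 (hγ ▸ k1.ne'))
    exact ⟨r, by rw [k2, ← hγ, hr', log_exp]⟩
  obtain ⟨m, hm, hval⟩ := TRM.disc_val m4 a
  choose ρ j hj using hval
  have key : ∀ φ : R K, φ ≠ 0 → lg v φ = zz v * (ρ φ / m + j φ * a.2) := fun φ hφ => by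
    obtain ⟨k1, k2⟩ := hr φ hφ
    rw [ha] at k1 k2
    rw [k2, (hj φ k1).1]
  refine ⟨fun hs => ⟨⟨a.2, m, ρ, j, hs, hm, key, ?_⟩, TRM.ra m3 hz hr (TRM.disc_cl m1 ha hs)⟩,
    fun s hs => ⟨m * s.den, Nat.mul_pos hm s.den_pos, fun φ hφ =>
      ⟨ρ φ * s.den + j φ * s.num * m, ?_⟩⟩⟩
  · obtain ⟨φ, hφ⟩ := TRM.exists_big a
    have hp := (W.n.nonneg _).trans_lt hφ
    refine ⟨φ, fun h0 => ?_, Nat.pos_of_ne_zero fun h0 => hφ.ne' ((hj φ hp).2 h0)⟩
    rw [h0, map_zero, map_zero] at hp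
    exact lt_irrefl _ hp
  · rw [key φ hφ, hs, Rat.cast_def]
    have : (m : ℝ) ≠ 0 := Nat.cast_ne_zero.2 hm.ne'
    have : (s.den : ℝ) ≠ 0 := Nat.cast_ne_zero.2 s.den_ne_zero
    congr 1
    push_cast
    field_simp

end Pool.Agent.KSP

end

end MrgPart1

-- ======== part 2: formerly Pool.Agent.MP_c8dfda_nt.kp.JAC
section MrgPart2

/-! Polynomial maps of the plane: the norm of the area form at a disc of rational radius. -/

open Polynomial Filter Real
open scoped Topology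

noncomputable section

namespace Pool.Agent.KSP

namespace JAC

section gauss

variable {E : Type} [Field E] {n : AbsoluteValue E ℝ} (hn : IsNonarchimedean n)

theorem co_le (F : E[X]) (i : ℕ) : n (F.coeff i) ≤ gs hn F := by
  have := le_gaussNorm n F one_pos.le i
  rwa [one_pow, mul_one] at this

theorem ex_co (F : E[X]) : ∃ i, gs hn F = n (F.coeff i) ∧ ∀ j < i, n (F.coeff j) < gs hn F := by
  obtain ⟨i, h1, h2⟩ := exists_min_eq_gaussNorm n F one_pos.le
  simp only [one_pow, mul_one] at h1 h2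
  exact ⟨i, h1, h2⟩

theorem gs_le {F : E[X]} {B : ℝ} (h : ∀ i, n (F.coeff i) ≤ B) : gs hn F ≤ B := by
  obtain ⟨i, hi, -⟩ := ex_co hn F
  rw [hi]; exact h i

theorem gs_lt {F : E[X]} {B : ℝ} (h : ∀ i, n (F.coeff i) < B) : gs hn F < B := by
  obtain ⟨i, hi, -⟩ := ex_co hn F
  rw [hi]; exact h i

theorem gs_C (a : E) : gs hn (C a) = n a := gaussNorm_C n 1 a

theorem gs_X : gs hn (X : E[X]) = 1 := by
  refine le_antisymm (gs_le hn fun i => ?_) (by simpa using co_le hn X 1)
  rw [coeff_X]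
  split_ifs <;> simp

theorem gs_comp {γ : E} {ρ : ℝ} (hρ : 0 < ρ) (h : n γ = ρ) (β : E) (f : E[X]) :
    gs hn (f.comp (C γ * X + C β)) = KSkew.GN hn β hρ f := by
  have e : ∀ i, n ((f.comp (C γ * X + C β)).coeff i) = n ((taylor β f).coeff i) * ρ ^ i := fun i => by
    have : f.comp (C γ * X + C β) = (taylor β f).comp (C γ * X) := by
      rw [taylor_apply, comp_assoc]; simp
    rw [this, comp_C_mul_X_coeff, map_mul, map_pow, h]
  refine le_antisymm (gs_le hn fun i => ?_) (KSkew.GN_le hn hρ f fun i => ?_)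
  · rw [e]; exact KSkew.coeff_le_GN hn hρ f i
  · rw [← e]; exact co_le hn _ i

theorem co_th (F : E[X]) (i : ℕ) : (X * derivative F).coeff i = i * F.coeff i := by
  rcases i with _ | i
  · simp
  · rw [coeff_X_mul, coeff_derivative]; push_cast; ring

theorem pow_sub_lt {F H : E[X]} {B : ℝ} (hF : gs hn F ≤ B) (hH : gs hn H ≤ B)
    (h : gs hn (F - H) < B) (i : ℕ) : gs hn (F ^ i - H ^ i) < B ^ i := by
  have hB : 0 < B := ((gs hn).nonneg _).trans_lt h
  induction i with
  | zero => simp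
  | succ i ih =>
    rw [show F ^ (i + 1) - H ^ (i + 1) = (F ^ i - H ^ i) * F + H ^ i * (F - H) by ring, pow_succ]
    refine KSkew.na_add_lt (gs_na hn) ?_ ?_
    · rw [map_mul]
      exact mul_lt_mul_of_lt_of_le_of_nonneg_of_pos ih hF ((gs hn).nonneg _) hB
    · rw [map_mul, map_pow]
      exact mul_lt_mul_of_le_of_lt_of_nonneg_of_pos (pow_le_pow_left₀ ((gs hn).nonneg _) hH i) h
        ((gs hn).nonneg _) (pow_pos hB i)

variable [CharZero E] (hq : ∀ r : ℚ, r ≠ 0 → n r = 1)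

include hq

omit [CharZero E] in
theorem rat_le (r : ℚ) : n r ≤ 1 := by
  by_cases h : r = 0
  · simp [h]
  · exact (hq r h).le

omit [CharZero E] in
theorem nat_le (i : ℕ) : n i ≤ 1 := by simpa using rat_le hq i

omit [CharZero E] in
theorem gs_der (F : E[X]) : gs hn (derivative F) ≤ gs hn F := gs_le hn fun i => by
  rw [coeff_derivative, map_mul, ← Nat.cast_succ]
  exact (mul_le_of_le_one_right (n.nonneg _) (nat_le hq _)).trans (co_le hn F _)

/-- the Wronskian of two polynomials with different first dominant indices -/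
theorem wr_ne {F G : E[X]} {m k : ℕ} (hF : F ≠ 0) (hG : G ≠ 0) (hm : gs hn F = n (F.coeff m))
    (hm' : ∀ j < m, n (F.coeff j) < gs hn F) (hk : gs hn G = n (G.coeff k))
    (hk' : ∀ j < k, n (G.coeff j) < gs hn G) (hmk : m ≠ k) :
    gs hn (G * derivative F - F * derivative G) = gs hn F * gs hn G := by
  have pF := (gs hn).pos hF
  have pG := (gs hn).pos hG
  refine le_antisymm (KSkew.na_sub_le (gs_na hn) ?_ ?_) ?_
  · rw [map_mul, mul_comm]
    exact mul_le_mul_of_nonneg_right (gs_der hn hq F) pG.le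
  · rw [map_mul]
    exact mul_le_mul_of_nonneg_left (gs_der hn hq G) pF.le
  have e1 : gs hn (G * derivative F - F * derivative G) =
      gs hn (G * (X * derivative F) - (X * derivative G) * F) := by
    rw [show G * (X * derivative F) - (X * derivative G) * F =
      X * (G * derivative F - F * derivative G) by ring, map_mul, gs_X, one_mul]
  rw [e1]
  refine le_trans (le_of_eq ?_) (co_le hn _ (k + m))
  have e2 : (G * (X * derivative F) - (X * derivative G) * F).coeff (k + m) =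
      ∑ p ∈ Finset.HasAntidiagonal.antidiagonal (k + m),
        (((p.2 : ℚ) - p.1 : ℚ) : E) * (G.coeff p.1 * F.coeff p.2) := by
    rw [coeff_sub, coeff_mul, coeff_mul, ← Finset.sum_sub_distrib]
    refine Finset.sum_congr rfl fun p _ => ?_
    rw [co_th, co_th]; push_cast; ring
  have hmem : (k, m) ∈ Finset.HasAntidiagonal.antidiagonal (k + m) := Finset.HasAntidiagonal.mem_antidiagonal.2 rfl
  have e3 : n ((((m : ℚ) - k : ℚ) : E) * (G.coeff k * F.coeff m)) = gs hn F * gs hn G := by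
    rw [map_mul, map_mul, hq _ (sub_ne_zero.2 (Nat.cast_injective.ne hmk)), ← hm, ← hk]; ring
  rw [e2, ← Finset.add_sum_erase _ _ hmem, ← e3]
  refine (KSkew.na_eq_of_sub_lt hn ?_).symm
  rw [sub_add_cancel_left, n.map_neg, e3]
  refine KSkew.na_sum_lt hn _ _ (mul_pos pF pG) fun p hp => ?_
  obtain ⟨hp1, hp2⟩ := Finset.mem_erase.1 hp
  have hp3 : p.1 + p.2 = k + m := Finset.HasAntidiagonal.mem_antidiagonal.1 hp2
  rw [map_mul, map_mul]
  refine (mul_le_of_le_one_left (by positivity) (rat_le hq _)).trans_lt ?_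
  rw [mul_comm]
  by_cases h : p.1 < k
  · exact mul_lt_mul_of_le_of_lt_of_nonneg_of_pos (co_le hn F _) (hk' _ h) (n.nonneg _) pF
  · have h' : p.2 < m := by
      by_contra h'
      exact hp1 (Prod.ext (by simp only; omega) (by simp only; omega))
    exact mul_lt_mul_of_lt_of_le_of_nonneg_of_pos (hm' _ h') (co_le hn G _) (n.nonneg _) pG

/-- the Wronskian of two polynomials with independent reductions -/
theorem wr {F G : E[X]} (hG : G ≠ 0) (h : gs hn F = gs hn G)
    (H : ∀ c : E, n c ≤ 1 → ¬ gs hn (F - C c * G) < gs hn G) :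
    gs hn (G * derivative F - F * derivative G) = gs hn F * gs hn G := by
  have pG := (gs hn).pos hG
  obtain ⟨k, hk, hk'⟩ := ex_co hn G
  have hk0 : G.coeff k ≠ 0 := fun h0 => by rw [hk, h0, map_zero] at pG; exact pG.false
  have hc : n (F.coeff k / G.coeff k) ≤ 1 := by
    rw [map_div₀, ← hk, div_le_one pG, ← h]; exact co_le hn F k
  set c := F.coeff k / G.coeff k with hcd
  have h2 : gs hn (F - C c * G) = gs hn G := by
    refine le_antisymm (KSkew.na_sub_le (gs_na hn) h.le ?_) (not_lt.1 (H c hc))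
    rw [map_mul, gs_C]
    exact mul_le_of_le_one_left pG.le hc
  obtain ⟨m, hm, hm'⟩ := ex_co hn (F - C c * G)
  have hmk : m ≠ k := fun e => by
    rw [h2, e, coeff_sub, coeff_C_mul, hcd, div_mul_cancel₀ _ hk0, sub_self, map_zero] at hm
    exact pG.ne' hm
  have h0 : F - C c * G ≠ 0 := fun e => by rw [e, map_zero] at h2; exact pG.ne h2
  have := wr_ne hn hq h0 hG hm hm' hk hk' hmk
  rw [h2, derivative_sub, derivative_C_mul] at this
  rw [h, ← this]
  congr 1; ring

end gauss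

section der

variable {K E : Type} [Field K] [Field E] [Algebra K E]

/-- the derivation of the coefficients -/
def d1 (D : Derivation K E E) : Derivation K E[X] E[X] :=
  PolynomialModule.equivPolynomialSelf.compDer D.mapCoeffs

theorem co_d1 (D : Derivation K E E) (F : E[X]) (i : ℕ) : (d1 D F).coeff i = D (F.coeff i) := rfl

theorem d1_C (D : Derivation K E E) (a : E) : d1 D (C a) = C (D a) := by
  ext i
  rw [co_d1, coeff_C, coeff_C]
  split_ifs <;> simp

theorem d1_X (D : Derivation K E E) : d1 D X = 0 := by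
  ext i
  rw [co_d1, coeff_X]
  split_ifs <;> simp

/-- evaluation in the coordinate of the disc -/
def T (x γ β : E) : R K →ₐ[K] E[X] := MvPolynomial.aeval ![C x, C γ * X + C β]

variable (x γ β : E)

theorem T_cc (c : K) : T x γ β (cc c) = C (algebraMap K E c) := by simp [T]

theorem T_xx0 : T x γ β (xx 0 : R K) = C x := by simp [T]

theorem T_xx1 : T x γ β (xx 1 : R K) = C γ * X + C β := by simp [T]

theorem T_eq (φ : R K) : T x γ β φ = (evA x φ).comp (C γ * X + C β) := by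
  induction φ using MvPolynomial.induction_on with
  | C c => rw [T_cc, evA_cc, C_comp]
  | add p q hp hq => rw [map_add, map_add, add_comp, hp, hq]
  | mul_X p j hp =>
    rw [map_mul, map_mul, mul_comp, hp]
    fin_cases j
    · exact congrArg _ (by simp [T])
    · exact congrArg _ (by simp [T])

theorem der_T (φ : R K) :
    derivative (T x γ β φ) = C γ * T x γ β (MvPolynomial.pderiv 1 φ) := by
  induction φ using MvPolynomial.induction_on with
  | C c => rw [T_cc, derivative_C, MvPolynomial.pderiv_C, map_zero, mul_zero]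
  | add p q hp hq => simp only [map_add, hp, hq]; ring
  | mul_X p j hp =>
    simp only [map_mul, Derivation.leibniz, smul_eq_mul, map_add, derivative_mul, hp]
    fin_cases j
    · simp [T_xx0]; ring
    · simp [T_xx1]; ring

theorem d1_T (D : Derivation K E E) (φ : R K) :
    d1 D (T x γ β φ) = C (D x) * T x γ β (MvPolynomial.pderiv 0 φ) +
      (C (D γ) * X + C (D β)) * T x γ β (MvPolynomial.pderiv 1 φ) := by
  induction φ using MvPolynomial.induction_on with
  | C c => rw [T_cc, d1_C]; simp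
  | add p q hp hq => simp only [map_add, hp, hq]; ring
  | mul_X p j hp =>
    simp only [map_mul, Derivation.leibniz, smul_eq_mul, map_add, hp]
    fin_cases j
    · simp [T_xx0, d1_C]; ring
    · simp [T_xx1, d1_C, d1_X]; ring

theorem T_jac (D : Derivation K E E) (a f : R K) :
    C (D x * γ) * T x γ β (jac a f) = d1 D (T x γ β a) * derivative (T x γ β f) -
      derivative (T x γ β a) * d1 D (T x γ β f) := by
  simp only [d1_T, der_T, jac, map_sub, map_mul]; ring

variable {n : AbsoluteValue E ℝ} (hn : IsNonarchimedean n)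

/-- the logarithmic derivative -/
theorem lgd [CharZero E] (hq : ∀ r : ℚ, r ≠ 0 → n r = 1) {D : Derivation K E E}
    (hD : ∀ (γ : E) (r : ℚ), n γ = exp r → n (D γ - r * γ) < n γ)
    (hv : ∀ γ : E, γ ≠ 0 → ∃ r : ℚ, n γ = exp r) {F : E[X]} (hF : F ≠ 0) :
    ∃ r : ℚ, gs hn F = exp r ∧ gs hn (d1 D F - C (r : E) * F) < gs hn F := by
  have pF := (gs hn).pos hF
  obtain ⟨k, hk, -⟩ := ex_co hn F
  obtain ⟨r, hr⟩ := hv (F.coeff k) fun h0 => by rw [hk, h0, map_zero] at pF; exact pF.false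
  refine ⟨r, hk.trans hr, gs_lt hn fun i => ?_⟩
  rw [coeff_sub, co_d1, coeff_C_mul]
  by_cases h0 : F.coeff i = 0
  · simpa [h0] using pF
  obtain ⟨t, ht⟩ := hv _ h0
  have h1 := (hD _ t ht).trans_le (co_le hn F i)
  by_cases e : t = r
  · rwa [← e]
  rw [show D (F.coeff i) - r * F.coeff i =
    (D (F.coeff i) - t * F.coeff i) + ((t - r : ℚ) : E) * F.coeff i by push_cast; ring]
  refine KSkew.na_add_lt hn h1 ?_
  rw [map_mul, hq _ (sub_ne_zero.2 e), one_mul]
  refine lt_of_le_of_ne (co_le hn F i) fun e' => e ?_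
  rw [hk, hr, ht] at e'
  exact_mod_cast exp_injective e'

/-- the homogeneous polynomial attached to `p` -/
theorem hom_lt (hK : NA K n) {F G : E[X]} (h : gs hK.1 F = gs hK.1 G) {c : E} (hc : n c ≤ 1)
    (H : gs hK.1 (F - C c * G) < gs hK.1 G) {p : K[X]} (hp : n (aeval c p) < 1) :
    gs hK.1 (∑ i ∈ Finset.range (p.natDegree + 1),
      C (algebraMap K E (p.coeff i)) * F ^ i * G ^ (p.natDegree - i)) < gs hK.1 G ^ p.natDegree := by
  have pG : 0 < gs hK.1 G := ((gs hK.1).nonneg _).trans_lt H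
  have e : ∑ i ∈ Finset.range (p.natDegree + 1),
      C (algebraMap K E (p.coeff i)) * F ^ i * G ^ (p.natDegree - i) =
      C (aeval c p) * G ^ p.natDegree + ∑ i ∈ Finset.range (p.natDegree + 1),
        C (algebraMap K E (p.coeff i)) * (F ^ i - (C c * G) ^ i) * G ^ (p.natDegree - i) := by
    rw [aeval_eq_sum_range, map_sum, Finset.sum_mul, ← Finset.sum_add_distrib]
    refine Finset.sum_congr rfl fun i hi => ?_
    obtain ⟨j, hj⟩ := Nat.exists_eq_add_of_le (Nat.lt_succ_iff.1 (Finset.mem_range.1 hi))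
    rw [Algebra.smul_def, map_mul, map_pow, hj, Nat.add_sub_cancel_left]; ring
  rw [e]
  refine KSkew.na_add_lt (gs_na _) ?_ (KSkew.na_sum_lt (gs_na _) _ _ (pow_pos pG _) fun i hi => ?_)
  · rw [map_mul, gs_C, map_pow]
    exact mul_lt_of_lt_one_left (pow_pos pG _) hp
  · obtain ⟨j, hj⟩ := Nat.exists_eq_add_of_le (Nat.lt_succ_iff.1 (Finset.mem_range.1 hi))
    have h1 := pow_sub_lt hK.1 h.le (H := C c * G)
      (by rw [map_mul, gs_C]; exact mul_le_of_le_one_left pG.le hc) H i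
    rw [map_mul, map_mul, gs_C, map_pow, hj, Nat.add_sub_cancel_left, pow_add]
    exact mul_lt_mul_of_pos_right
      ((mul_le_of_le_one_left ((gs hK.1).nonneg _) (hK.le_one _)).trans_lt h1) (pow_pos pG _)

theorem io_hom (f : R K) {g : R K} (hg : g ≠ 0) (p : K[X]) :
    io (∑ i ∈ Finset.range (p.natDegree + 1), cc (p.coeff i) * f ^ i * g ^ (p.natDegree - i)) =
      aeval (io f / io g) p * io g ^ p.natDegree := by
  rw [aeval_eq_sum_range, map_sum, Finset.sum_mul]
  refine Finset.sum_congr rfl fun i hi => ?_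
  obtain ⟨j, hj⟩ := Nat.exists_eq_add_of_le (Nat.lt_succ_iff.1 (Finset.mem_range.1 hi))
  have := io_ne hg
  rw [Algebra.smul_def, map_mul, map_mul, map_pow, map_pow, io_cc, hj, Nat.add_sub_cancel_left,
    div_pow, pow_add]
  field_simp

end der

end JAC

open JAC in
theorem jacv (h1 : S_MODF) : S_JAC := by
  intro K _ _ W v ζ β s _ hz hrel hD a f g ha hf hg hla hp
  obtain ⟨hv, hex, hres, -⟩ := h1 K W
  obtain ⟨D, hDx, hDer⟩ := W.der
  obtain ⟨γ, hγ⟩ := hex s
  have hn := W.na.1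
  have hq : ∀ r : ℚ, r ≠ 0 → W.n r = 1 := fun r hr => by
    rw [← map_ratCast (algebraMap K W.E)]
    exact W.na.2 _ (Rat.cast_ne_zero.2 hr)
  have hT : ∀ φ : R K, φ ≠ 0 → 0 < gs W.na.1 (T W.x γ β φ) ∧
      lg v φ = zz v * log (gs W.na.1 (T W.x γ β φ)) := fun φ hφ => by
    have := hrel φ hφ
    rwa [hD, Md.gn, ← gs_comp W.na.1 _ hγ, ← T_eq] at this
  have hinj : ∀ φ ψ : R K, φ ≠ 0 → ψ ≠ 0 → v (io φ) = v (io ψ) →
      gs W.na.1 (T W.x γ β φ) = gs W.na.1 (T W.x γ β ψ) := fun φ ψ hφ hψ e => by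
    have e' : lg v φ = lg v ψ := congrArg log e
    rw [(hT φ hφ).2, (hT ψ hψ).2] at e'
    exact log_injOn_pos (hT φ hφ).1 (hT ψ hψ).1 (mul_left_cancel₀ hz.ne' e')
  have vg := v.ne_zero (io_ne hg)
  have hfg : gs W.na.1 (T W.x γ β f) = gs W.na.1 (T W.x γ β g) := hinj f g hf hg (by
    have := hp X X_ne_zero
    rwa [aeval_X, map_div₀, div_eq_one_iff_eq vg] at this)
  have H : ∀ c : W.E, W.n c ≤ 1 →
      ¬ gs W.na.1 (T W.x γ β f - C c * T W.x γ β g) < gs W.na.1 (T W.x γ β g) := fun c hc H => by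
    obtain ⟨p, hp0, hp1⟩ := hres c hc
    have e : v (io (∑ i ∈ Finset.range (p.natDegree + 1),
        cc (p.coeff i) * f ^ i * g ^ (p.natDegree - i))) = v (io (g ^ p.natDegree)) := by
      rw [io_hom f hg, map_mul, hp p hp0, one_mul, map_pow io]
    have e' := hinj _ _ (fun h0 => by
      rw [h0, map_zero, map_zero] at e
      exact v.ne_zero (io_ne (pow_ne_zero _ hg)) e.symm) (pow_ne_zero _ hg) e
    simp only [map_sum, map_mul, map_pow, T_cc] at e'
    exact (hom_lt W.na hfg hc H hp1).ne e'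
  obtain ⟨pA, lA⟩ := hT a ha
  obtain ⟨pF, lF⟩ := hT f hf
  obtain ⟨pG, lG⟩ := hT g hg
  have key : C (W.x * γ) * T W.x γ β (g * jac a f - f * jac a g) =
      d1 D (T W.x γ β a) * (T W.x γ β g * derivative (T W.x γ β f) -
        T W.x γ β f * derivative (T W.x γ β g)) - derivative (T W.x γ β a) *
        (T W.x γ β g * d1 D (T W.x γ β f) - T W.x γ β f * d1 D (T W.x γ β g)) := by
    have e1 := T_jac W.x γ β D a f
    have e2 := T_jac W.x γ β D a g
    rw [show D W.x = W.x from hDx] at e1 e2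
    rw [map_sub (T W.x γ β), map_mul (T W.x γ β), map_mul (T W.x γ β)]
    linear_combination T W.x γ β g * e1 - T W.x γ β f * e2
  generalize T W.x γ β a = A at *
  generalize T W.x γ β f = F at *
  generalize T W.x γ β g = G at *
  obtain ⟨ra, hra, dA⟩ := lgd W.na.1 hq hDer hv ((gs W.na.1).pos_iff.1 pA)
  obtain ⟨rf, hrf, dF⟩ := lgd W.na.1 hq hDer hv ((gs W.na.1).pos_iff.1 pF)
  obtain ⟨rg, hrg, dG⟩ := lgd W.na.1 hq hDer hv ((gs W.na.1).pos_iff.1 pG)
  obtain rfl : rf = rg := by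
    rw [hrf, hrg] at hfg
    exact_mod_cast exp_injective hfg
  have hra0 : ra ≠ 0 := fun e => hla (by rw [lA, hra, e]; simp)
  have n1 : gs W.na.1 (d1 D A) = gs W.na.1 A := by
    have e : gs W.na.1 (C (ra : W.E) * A) = gs W.na.1 A := by
      rw [map_mul, gs_C, hq _ hra0, one_mul]
    rw [← e]
    refine KSkew.na_eq_of_sub_lt (gs_na _) ?_
    rwa [(gs W.na.1).map_sub, e]
  have n2 : gs W.na.1 (G * d1 D F - F * d1 D G) < gs W.na.1 F * gs W.na.1 G := by
    rw [show G * d1 D F - F * d1 D G =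
      (d1 D F - C (rf : W.E) * F) * G - F * (d1 D G - C (rf : W.E) * G) by ring]
    refine KSkew.na_sub_lt (gs_na _) ?_ ?_ <;> rw [map_mul]
    exacts [mul_lt_mul_of_pos_right dF pG, mul_lt_mul_of_pos_left dG pF]
  have n3 := wr W.na.1 hq ((gs W.na.1).pos_iff.1 pG) hfg H
  have n4 : gs W.na.1 (C (W.x * γ) * T W.x γ β (g * jac a f - f * jac a g)) =
      gs W.na.1 A * (gs W.na.1 F * gs W.na.1 G) := by
    have e : gs W.na.1 (d1 D A * (G * derivative F - F * derivative G)) =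
        gs W.na.1 A * (gs W.na.1 F * gs W.na.1 G) := by rw [map_mul, n1, n3]
    rw [key, ← e]
    refine KSkew.na_eq_of_sub_lt (gs_na _) ?_
    rw [sub_sub_cancel, e, map_mul]
    exact mul_lt_mul_of_le_of_lt_of_nonneg_of_pos (gs_der W.na.1 hq A) n2 ((gs W.na.1).nonneg _) pA
  have h0 : g * jac a f - f * jac a g ≠ 0 := fun e => by
    rw [e, map_zero, mul_zero, map_zero] at n4
    exact (mul_pos pA (mul_pos pF pG)).ne n4
  obtain ⟨pO, lO⟩ := hT _ h0
  refine ⟨h0, ?_⟩
  have n5 := congrArg log n4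
  rw [map_mul, gs_C, map_mul, W.n_x, hγ, ← exp_add, log_mul (exp_pos _).ne' pO.ne', log_exp,
    log_mul pA.ne' (mul_pos pF pG).ne', log_mul pF.ne' pG.ne'] at n5
  rw [lO, lA, lF, lG]
  linear_combination zz v * n5

end Pool.Agent.KSP

end

end MrgPart2

-- ======== part 3: formerly Pool.Agent.MP_c8dfda_nt.kp.GX
section MrgPart3

/-! Polynomial maps of the plane: the generic line and the double Gauss extension. -/

open Polynomial Filter Real
open scoped Topology

noncomputable section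

namespace Pool.Agent.KSP

namespace GX

variable {K : Type} [Field K]

/-- the parameters as constants -/
abbrev al (K : Type) [Field K] : K[X][X] →+* K2 K := algebraMap K[X][X] (K2 K)

theorem al_inj : Function.Injective (al K) := IsFractionRing.injective _ _

theorem al_CC (c : K) : al K (C (C c)) = algebraMap K (K2 K) c :=
  (IsScalarTower.algebraMap_apply K K[X][X] (K2 K) c).symm

/-- exchange of the variables -/
def T : (R K)[X][X] →+* MvPolynomial (Fin 2) K[X][X] :=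
  eval₂RingHom (eval₂RingHom (MvPolynomial.map (C.comp C)) (MvPolynomial.C (C X)))
    (MvPolynomial.C X)

/-- the parameters as polynomials -/
def pa : K[X][X] →+* (R K)[X][X] := mapRingHom (mapRingHom (MvPolynomial.C : K →+* R K))

/-- the inverse exchange -/
def U : MvPolynomial (Fin 2) K[X][X] →+* (R K)[X][X] :=
  MvPolynomial.eval₂Hom pa fun j => C (C (xx j))

theorem U_T : (U (K := K)).comp T = RingHom.id _ := by
  refine Polynomial.ringHom_ext' (Polynomial.ringHom_ext' (MvPolynomial.ringHom_ext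
    (fun c => ?_) fun j => ?_) ?_) ?_ <;> simp [T, U, pa]

theorem T_U : (T (K := K)).comp U = RingHom.id _ := by
  refine MvPolynomial.ringHom_ext' (Polynomial.ringHom_ext' (Polynomial.ringHom_ext'
    (RingHom.ext fun c => ?_) ?_) ?_) fun j => ?_ <;> simp [T, U, pa]

theorem th_eq : th (K := K) = (MvPolynomial.map (al K)).comp T := by
  refine Polynomial.ringHom_ext' (Polynomial.ringHom_ext' (MvPolynomial.ringHom_ext
    (fun c => ?_) fun j => ?_) ?_) ?_ <;> simp [T, th, bc, t1, t2, al_CC]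

theorem th_inj : Function.Injective (th (K := K)) := by
  rw [th_eq, RingHom.coe_comp]
  exact (MvPolynomial.map_injective _ al_inj).comp
    (Function.LeftInverse.injective (g := U) fun Φ => RingHom.congr_fun U_T Φ)

theorem th_U (ψ : MvPolynomial (Fin 2) K[X][X]) : th (U ψ) = MvPolynomial.map (al K) ψ := by
  rw [th_eq, RingHom.comp_apply, ← RingHom.comp_apply T, T_U, RingHom.id_apply]

theorem th_pa (a : K[X][X]) : th (pa a) = cc (al K a) := by
  have := th_U (MvPolynomial.C a)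
  rwa [MvPolynomial.map_C, U, MvPolynomial.eval₂Hom_C] at this

theorem U_monomial (m : Fin 2 →₀ ℕ) (a : K[X][X]) :
    U (MvPolynomial.monomial m a) = pa a * C (C (MvPolynomial.monomial m 1)) := by
  rw [U, MvPolynomial.eval₂Hom_monomial, MvPolynomial.monomial_eq, map_one, one_mul,
    map_finsuppProd, map_finsuppProd]
  simp only [map_pow]

theorem dg_U (ψ : MvPolynomial (Fin 2) K[X][X]) (i j : ℕ) :
    dg (((U ψ).coeff i).coeff j) ≤ ψ.totalDegree := by
  conv_lhs => rw [ψ.as_sum, map_sum, finsetSum_coeff, finsetSum_coeff]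
  refine MvPolynomial.totalDegree_finsetSum_le fun m hm => ?_
  rw [U_monomial, coeff_mul_C, coeff_mul_C, pa, coe_mapRingHom, coeff_map, coe_mapRingHom,
    coeff_map, MvPolynomial.C_mul_monomial]
  exact (MvPolynomial.totalDegree_monomial_le _ _).trans (MvPolynomial.le_totalDegree hm)

theorem deg_map {A B : Type} [CommRing A] [CommRing B] {f : A →+* B} (h : Function.Injective f)
    (ψ : MvPolynomial (Fin 2) A) : (MvPolynomial.map f ψ).totalDegree = ψ.totalDegree := by
  rw [MvPolynomial.totalDegree, MvPolynomial.support_map_of_injective _ h]; rfl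

theorem clear (φ : R (K2 K)) : ∃ (b : K[X][X]) (ψ : MvPolynomial (Fin 2) K[X][X]), b ≠ 0 ∧
    MvPolynomial.map (al K) ψ = cc (al K b) * φ := by
  obtain ⟨b, hb⟩ := IsLocalization.exist_integer_multiples (nonZeroDivisors K[X][X]) φ.support
    fun m => φ.coeff m
  choose! a ha using hb
  refine ⟨b, ∑ m ∈ φ.support, MvPolynomial.monomial m (a m), nonZeroDivisors.ne_zero b.2, ?_⟩
  conv_rhs => rw [φ.as_sum, Finset.mul_sum]
  rw [map_sum]
  refine Finset.sum_congr rfl fun m hm => ?_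
  rw [MvPolynomial.map_monomial, MvPolynomial.C_mul_monomial, ha m hm, Algebra.smul_def]

theorem three (φ : R (K2 K)) : ∃ (c : K2 K) (Φ : (R K)[X][X]), c ≠ 0 ∧ th Φ = cc c * φ ∧
    ∀ i j, dg ((Φ.coeff i).coeff j) ≤ dg φ := by
  obtain ⟨b, ψ, hb, h⟩ := clear φ
  refine ⟨al K b, U ψ, (map_ne_zero_iff _ al_inj).2 hb, by rw [th_U, h], fun i j =>
    (dg_U ψ i j).trans ?_⟩
  rw [← deg_map al_inj, h]
  exact (MvPolynomial.totalDegree_mul _ _).trans (by simp)

theorem gs_one {A : Type} [CommRing A] {v : AbsoluteValue A ℝ} (hv : IsNonarchimedean v)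
    {p : A[X]} (hp : p ≠ 0) (h : ∀ i, p.coeff i ≠ 0 → v (p.coeff i) = 1) : gs hv p = 1 := by
  obtain ⟨i, hi⟩ := exists_eq_gaussNorm v 1 p
  have h0 : gs hv p ≠ 0 := (gs hv).ne_zero hp
  change gs hv p = _ at hi
  rw [one_pow, mul_one] at hi
  rw [hi] at h0 ⊢
  exact h i ((AbsoluteValue.ne_zero_iff v).1 h0)

theorem mp_inj : Function.Injective (mapRingHom (mapRingHom (io (K := K)))) :=
  Polynomial.map_injective _ (Polynomial.map_injective _ io_inj)

theorem G2_pa {v : AV K} (h : NA K v) {a : K[X][X]} (ha : a ≠ 0) : G2 h.1 (pa a) = 1 := by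
  have hp : Function.Injective (pa (K := K)) :=
    Polynomial.map_injective _ (Polynomial.map_injective _ (MvPolynomial.C_injective _ _))
  refine gs_one _ ((map_ne_zero_iff _ mp_inj).2 ((map_ne_zero_iff _ hp).2 ha)) fun i hi =>
    gs_one _ hi fun j hj => ?_
  simp only [pa, coe_mapRingHom, coeff_map] at hj ⊢
  rw [io_cc] at hj ⊢
  exact h.2 _ fun e => hj (by rw [e, map_zero])

theorem ext_frac {A F : Type} [CommRing A] [IsDomain A] [Field F] (f : A →+* F)
    (hf : Function.Injective f) (hs : ∀ z, ∃ x y, z = f x / f y) (v : AbsoluteValue A ℝ)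
    (hv : IsNonarchimedean v) :
    ∃ w : AbsoluteValue F ℝ, IsNonarchimedean w ∧ ∀ a, w (f a) = v a := by
  let _ : Algebra A F := f.toAlgebra
  have : FaithfulSMul A F := (faithfulSMul_iff_algebraMap_injective _ _).2 hf
  have : IsFractionRing A F := IsFractionRing.of_field _ _ hs
  exact exists_frac v hv

theorem surj (z : M (K2 K)) : ∃ x y : (R K)[X][X], z = io (th x) / io (th y) := by
  obtain ⟨f, g, hg, rfl⟩ := exists_io z
  obtain ⟨b, ψ, hb, e⟩ := clear f
  obtain ⟨b', ψ', hb', e'⟩ := clear g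
  have n1 : io (cc (al K b)) ≠ 0 := io_ne (by simpa using hb)
  have n2 : io (cc (al K b')) ≠ 0 := io_ne (by simpa using hb')
  have n3 := io_ne hg
  refine ⟨U ψ * pa b', U ψ' * pa b, ?_⟩
  simp only [map_mul, th_U, th_pa, e, e']
  field_simp

theorem one (v : AV K) (h : NA K v) :
    ∃ v' : AV (K2 K), NA (K2 K) v' ∧ ∀ Φ, v' (io (th Φ)) = G2 h.1 Φ := by
  obtain ⟨w, hw, e⟩ := ext_frac (A := (R K)[X][X]) (F := M (K2 K)) (io.comp th)
    (by rw [RingHom.coe_comp]; exact io_inj.comp th_inj)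
    (by simpa only [RingHom.comp_apply] using surj) ((gs (gs_na h.1)).comp mp_inj) fun a b => by
      have := gs_na (gs_na h.1) (mapRingHom (mapRingHom io) a) (mapRingHom (mapRingHom io) b)
      rwa [← map_add] at this
  have e' : ∀ Φ, w (io (th Φ)) = G2 h.1 Φ := fun Φ => by
    rw [← RingHom.comp_apply, e]; rfl
  refine ⟨w, ⟨hw, fun c hc => ?_⟩, e'⟩
  obtain ⟨a, b, hb, rfl⟩ := IsFractionRing.div_surjective (A := K[X][X]) c
  have ha : a ≠ 0 := fun e => hc (by rw [e, map_zero, zero_div])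
  rw [map_div₀, map_div₀, ← io_cc, ← io_cc, ← th_pa, ← th_pa, e', e', G2_pa h ha,
    G2_pa h (nonZeroDivisors.ne_zero hb), div_one]

theorem lin_le : (C (t1 K) * X + C (t2 K)).natDegree ≤ 1 := natDegree_linear_le

theorem ln_monomial (m : Fin 2 →₀ ℕ) (c : K2 K) : ln (MvPolynomial.monomial m c) =
    C c * (X ^ m 0 * (C (t1 K) * X + C (t2 K)) ^ m 1) := by
  rw [ln, MvPolynomial.aeval_monomial, Finsupp.prod_fintype _ _ (fun _ => pow_zero _),
    Fin.prod_univ_two]
  rfl

theorem mon_le (m : Fin 2 →₀ ℕ) (c : K2 K) :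
    (ln (MvPolynomial.monomial m c)).natDegree ≤ m 0 + m 1 := by
  rw [ln_monomial]
  refine (natDegree_C_mul_le _ _).trans (natDegree_mul_le.trans (add_le_add
    (natDegree_X_pow_le _) ((natDegree_pow_le_of_le _ lin_le).trans (by omega))))

theorem mon_coeff (m : Fin 2 →₀ ℕ) (c : K2 K) :
    (ln (MvPolynomial.monomial m c)).coeff (m 0 + m 1) = c * t1 K ^ m 1 := by
  have := coeff_pow_of_natDegree_le (m := m 1) (lin_le (K := K))
  rw [mul_one] at this
  rw [ln_monomial, coeff_C_mul, add_comm (m 0), coeff_X_pow_mul, this]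
  simp

theorem sum_two (m : Fin 2 →₀ ℕ) : (m.sum fun _ e => e) = m 0 + m 1 := by
  rw [Finsupp.sum_fintype _ _ (fun _ => rfl), Fin.sum_univ_two]

theorem four (φ : R K) : (ln (bc φ)).natDegree = dg φ := by
  classical
  by_cases h0 : φ = 0
  · simp [h0]
  have hd : ∀ m ∈ φ.support, m 0 + m 1 ≤ dg φ := fun m hm =>
    sum_two m ▸ MvPolynomial.le_totalDegree hm
  have e : ln (bc φ) = ∑ m ∈ φ.support,
      ln (MvPolynomial.monomial m (algebraMap K (K2 K) (φ.coeff m))) := by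
    conv_lhs => rw [φ.as_sum, map_sum, map_sum]
    simp only [bc, MvPolynomial.map_monomial]
  refine natDegree_eq_of_le_of_coeff_ne_zero ?_ ?_
  · rw [e]
    exact natDegree_sum_le_of_forall_le _ _ fun m hm => (mon_le _ _).trans (hd m hm)
  · obtain ⟨m0, h1, h2⟩ := Finset.exists_mem_eq_sup φ.support
      (MvPolynomial.support_nonempty.2 h0) fun m => m.sum fun _ e => e
    have h3 : dg φ = m0 0 + m0 1 := h2.trans (sum_two m0)
    have e2 : (ln (bc φ)).coeff (dg φ) = al K (C (∑ m ∈ φ.support,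
        if m 0 + m 1 = dg φ then monomial (m 1) (φ.coeff m) else 0)) := by
      rw [e, finsetSum_coeff, map_sum, map_sum]
      refine Finset.sum_congr rfl fun m hm => ?_
      split_ifs with h
      · rw [← h, mon_coeff, ← C_mul_X_pow_eq_monomial, map_mul, map_mul, al_CC, map_pow, map_pow]
        rfl
      · rw [map_zero, map_zero]
        exact coeff_eq_zero_of_natDegree_lt ((mon_le _ _).trans_lt (lt_of_le_of_ne (hd m hm) h))
    rw [e2, map_ne_zero_iff _ al_inj, C_ne_zero]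
    intro e3
    have e4 := congrArg (fun p => coeff p (m0 1)) e3
    simp only [finsetSum_coeff, coeff_zero] at e4
    rw [Finset.sum_eq_single m0, if_pos h3.symm, coeff_monomial_same] at e4
    · exact MvPolynomial.mem_support_iff.1 h1 e4
    · intro m _ hm
      split_ifs with h
      · refine coeff_monomial_of_ne _ fun k => hm ?_
        ext j
        fin_cases j
        · show m 0 = m0 0
          omega
        · exact k.symm
      · rfl
    · exact fun k => absurd h1 k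

/-- restriction to the generic line, with the slope as a variable -/
def E : (R K)[X] →+* (K2 K)[X] :=
  eval₂RingHom ((ln (K := K) : R (K2 K) →+* (K2 K)[X]).comp bc) (C (t1 K))

/-- the same over the ring of the parameters -/
def E0 : (R K)[X] →+* K[X][X][X] :=
  eval₂RingHom (MvPolynomial.eval₂Hom (R := K) (S₁ := K[X][X][X]) (C.comp (C.comp C))
    ![X, C (C X) * X + C X]) (C (C X))

/-- its inverse -/
def E1 : K[X][X][X] →+* (R K)[X] :=
  eval₂RingHom (eval₂RingHom (mapRingHom MvPolynomial.C) (C (xx 1) - X * C (xx 0))) (C (xx 0))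

theorem E1_E0 : (E1 (K := K)).comp E0 = RingHom.id _ := by
  refine Polynomial.ringHom_ext' (MvPolynomial.ringHom_ext (fun c => ?_) fun j => ?_) ?_
  · simp [E0, E1]
  · fin_cases j <;> simp [E0, E1]
  · simp [E0, E1]

theorem E_eq : E (K := K) = (mapRingHom (al K)).comp E0 := by
  refine Polynomial.ringHom_ext' (MvPolynomial.ringHom_ext (fun c => ?_) fun j => ?_) ?_
  · simp [E, E0, ln, bc, al_CC]
  · fin_cases j <;> simp [E, E0, ln, bc, t1, t2]
  · simp [E, E0, t1]

theorem E_inj : Function.Injective (E (K := K)) := by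
  rw [E_eq, RingHom.coe_comp]
  exact (Polynomial.map_injective _ al_inj).comp
    (Function.LeftInverse.injective (g := E1) fun Φ => RingHom.congr_fun E1_E0 Φ)

theorem five (s : R K →ₐ[K] R K) :
    ((MvPolynomial.aeval ![ln (bc (s (xx 0))), ln (bc (s (xx 1)))] :
      R (K2 K) →ₐ[K2 K] (K2 K)[X]) : R (K2 K) →+* (K2 K)[X]).comp th = E.comp (sub s) := by
  refine Polynomial.ringHom_ext' (Polynomial.ringHom_ext' (MvPolynomial.ringHom_ext
    (fun c => ?_) fun j => ?_) ?_) ?_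
  · simp [E, th, sub, bc]
  · fin_cases j <;> simp [E, th, sub, bc]
  · simp [E, th, sub]
  · simp [E, th, sub, bc, ln]

end GX

theorem gx : S_GX := fun K _ =>
  ⟨GX.one, GX.th_inj, GX.three,
    fun φ => ⟨GX.deg_map (algebraMap K (K2 K)).injective φ, GX.four φ⟩,
    fun s Φ => ⟨RingHom.congr_fun (GX.five s) Φ, fun h => (map_eq_zero_iff _ GX.E_inj).1 h⟩⟩

end Pool.Agent.KSP

end

end MrgPart3

-- ======== part 4: formerly Pool.Agent.MP_c8dfda_nt.kp.PERM
section MrgPart4

/-! Polynomial maps of the plane: a slow family is permuted by the map. -/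

open Polynomial Filter Real
open scoped Topology

noncomputable section

namespace Pool.Agent.KSP

namespace PERM

variable {K : Type} [Field K] {ι : Type} [Fintype ι] {N : ι → AV K}
  {s : R K →ₐ[K] R K} {σ : M K →ₐ[K] M K} {β : ℝ}

theorem exists_log {v w : AV K} (h : v.IsEquiv w) :
    ∃ t : ℝ, 0 < t ∧ ∀ a, log (w a) = t * log (v a) := by
  obtain ⟨t, ht, h⟩ := AbsoluteValue.isEquiv_iff_exists_rpow_eq.1 h
  refine ⟨t, ht, fun a => ?_⟩
  rw [← congrFun h a]
  by_cases ha : a = 0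
  · simp [ha, ht.ne']
  · exact log_rpow (v.pos ha) t

/-- merging the equivalent members -/
theorem merge (hβ : 0 < β) (h : Slow N s β) : ∃ (κ : Type) (_ : Fintype κ) (N' : κ → AV K),
    Slow N' s β ∧ Pairwise fun i j => ¬ (N' i).IsEquiv (N' j) := by
  classical
  obtain ⟨hF, C, hC⟩ := h
  let S : Setoid ι := ⟨fun i j => (N i).IsEquiv (N j),
    fun _ => AbsoluteValue.IsEquiv.refl _, AbsoluteValue.IsEquiv.symm, AbsoluteValue.IsEquiv.trans⟩
  let cl : ι → Quotient S := Quotient.mk S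
  have h1 : ∀ i, (N (cl i).out).IsEquiv (N i) := fun i => Quotient.mk_out (s := S) i
  choose t ht hl using fun i => exists_log (h1 i)
  let T : Quotient S → ℝ := fun c => ∑ i with cl i = c, t i
  have hT : ∀ c, 0 < T c := fun c =>
    Finset.sum_pos (fun i _ => ht i) ⟨c.out, by simp [cl]⟩
  choose N' hna hp hN' using fun c : Quotient S => exists_AV_rpow (hF.na c.out) (hT c)
  have he : ∀ c, (N c.out).IsEquiv (N' c) := fun c =>
    AbsoluteValue.isEquiv_iff_exists_rpow_eq.2 ⟨T c, hT c, funext fun a => (hp c a).symm⟩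
  refine ⟨Quotient S, inferInstance, N', ⟨⟨⟨hna, fun φ hφ => ?_⟩, fun c => ?_, ?_⟩,
    (∑ c, T c) * |C|, fun c n j => ?_⟩, fun c d hcd h => hcd ?_⟩
  · refine (hF.pf φ hφ).trans_eq ?_
    rw [Nn, Nn, ← Finset.sum_fiberwise Finset.univ cl]
    refine Finset.sum_congr rfl fun c _ => ?_
    rw [lg, hN', Finset.sum_mul]
    refine Finset.sum_congr rfl fun i hi => ?_
    rw [lg, hl, (Finset.mem_filter.1 hi).2]
  · obtain ⟨j, hj⟩ := exists_lg_xx (hF.inf c.out)
    refine lt_of_lt_of_le ?_ (lg_xx_le _ j)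
    rw [lg, hN']
    exact mul_pos (hT c) (lt_of_lt_of_eq (hF.inf c.out) hj.symm)
  · exact hF.ne.map cl
  · rw [lg, hN', mul_assoc]
    have h2 : T c ≤ ∑ c, T c :=
      Finset.single_le_sum (f := T) (fun c _ => (hT c).le) (Finset.mem_univ c)
    have h3 : C * β ^ n ≤ |C| * β ^ n := mul_le_mul_of_nonneg_right (le_abs_self C) (by positivity)
    exact (mul_le_mul_of_nonneg_left ((hC c.out n j).trans h3) (hT c).le).trans
      (mul_le_mul_of_nonneg_right h2 (by positivity))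
  · exact Quotient.out_equiv_out.1 (((he c).trans h).trans (he d).symm)

/-- roots of monic polynomials with small coefficients -/
theorem root_le {F : Type} [Field F] {v : AbsoluteValue F ℝ} (hv : IsNonarchimedean v)
    (f : F →+* F) (hf : ∀ a, v (f a) ≤ 1) {p : F[X]} (hp : p.Monic) {a : F}
    (h : p.eval₂ f a = 0) : v a ≤ 1 := by
  by_contra hc
  rw [not_le] at hc
  rw [eval₂_eq_sum_range, Finset.sum_range_succ, hp.coeff_natDegree, map_one, one_mul,
    add_eq_zero_iff_neg_eq] at h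
  have := KSkew.na_sum_lt hv (Finset.range p.natDegree) (fun i => f (p.coeff i) * a ^ i)
    (B := v a ^ p.natDegree) (by positivity) fun i hi => by
      rw [map_mul, map_pow]
      exact (mul_le_of_le_one_left (by positivity) (hf _)).trans_lt
        (pow_lt_pow_right₀ hc (Finset.mem_range.1 hi))
  rw [← v.map_neg, h, map_pow] at this
  exact this.false

theorem fam0 (hc : Cmp s σ) (h : Fam N) : Fam0 fun j => cp (N j) σ :=
  ⟨fun j => (h.na j).cp σ, fun φ hφ => by
    simpa only [Nn, hc.lg_cp] using h.pf _ (hc.ne hφ)⟩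

theorem exists_zz [CharZero K] (h4 : S_EMB) (hc : Cmp s σ) (h : Fam N) :
    ∃ j, 0 < zz (cp (N j) σ) := by
  by_contra hn
  have hB := fam0 hc h
  have z0 : ∀ j φ, lg (cp (N j) σ) φ ≤ 0 := fun j φ => by
    simpa [le_antisymm (not_lt.1 fun h => hn ⟨j, h⟩) (zz_nonneg _)] using lg_le (hB.na j) φ
  obtain ⟨i⟩ := h.ne
  have z1 : ∀ φ, φ ≠ 0 → cp (N i) σ (io φ) = 1 := fun φ hφ => by
    have := (Finset.sum_eq_zero_iff_of_nonpos fun j _ => z0 j φ).1
      (le_antisymm (Finset.sum_nonpos fun j _ => z0 j φ) (hB.pf φ hφ)) i (Finset.mem_univ i)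
    rw [← exp_lg _ hφ, this, exp_zero]
  have z2 : ∀ a, N i (σ a) ≤ 1 := fun a => by
    obtain ⟨f, g, hg, rfl⟩ := exists_io a
    rw [← cp_apply, map_div₀, z1 g hg, div_one]
    by_cases hf : f = 0
    · simp [hf]
    · exact (z1 f hf).le
  obtain ⟨-, ch, -, h5, -⟩ := h4 K σ
  obtain ⟨j, hj⟩ := nontrivial_of_zz (h.inf i)
  exact hj.not_ge (root_le (h.na i).1 _ z2 (h5 _).1 (h5 _).2.2)

theorem rel [CharZero K] {δ : ℝ} (h1 : S_THIN) (h2 : S_KLA) (h4 : S_EMB) (hc : Cmp s σ)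
    (hl : Lim s δ) (hβ : 0 < β) (hδ : β < δ) (h : Slow N s β) :
    ∃ (A B : ℝ) (d : ι → ℝ), 0 < A ∧ 0 < B ∧ (∀ j, d j = A ∨ d j = 0) ∧ ∀ a, a ≠ 0 →
      B * ∑ i, log (N i a) = ∑ j, d j * log (N j (σ a)) := by
  classical
  obtain ⟨k1, k2, -⟩ := (fam0 hc h.1).drop (exists_zz h4 hc h.1)
  obtain ⟨-, ⟨G, g1, g2⟩, -⟩ := h1 K ι N s σ δ β hc hl hβ hδ h
  have g3 : Thin (fun i : {i // 0 < zz (cp (N i) σ)} => cp (N i.1) σ) G := by
    refine ⟨g1.1, g2.congr fun n => ?_⟩
    rw [k2]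
    simp only [hh, lp, hc.lg_cp]
  have key := h2 K ι N h.1 _ _ G k1 g1 g3
  refine ⟨ZZ N, _, fun j => if 0 < zz (cp (N j) σ) then ZZ N else 0, h.1.ZZ_pos, k1.ZZ_pos,
    fun j => (ite_eq_or_eq _ _ _), ?_⟩
  generalize ZZ (fun i : {i // 0 < zz (cp (N i) σ)} => cp (N i.1) σ) = B at key
  replace key : ∀ φ, φ ≠ 0 → B * ∑ i, log (N i (io φ)) =
      ∑ j, (if 0 < zz (cp (N j) σ) then ZZ N else 0) * log (N j (σ (io φ))) := fun φ hφ => by
    refine (key φ hφ).trans ?_
    rw [Nn, Finset.mul_sum]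
    simp only [ite_mul, zero_mul]
    rw [← Finset.sum_filter]
    exact (Finset.sum_subtype (p := fun i => 0 < zz (cp (N i) σ)) _ (by simp)
      fun j => ZZ N * log (N j (σ (io φ)))).symm
  intro a ha
  obtain ⟨f, g, hg, rfl⟩ := exists_io a
  have hf : f ≠ 0 := by
    rintro rfl
    simp at ha
  have e1 : ∀ i, log (N i (io f / io g)) = log (N i (io f)) - log (N i (io g)) := fun i => by
    rw [map_div₀, log_div ((N i).ne_zero (io_ne hf)) ((N i).ne_zero (io_ne hg))]
  have e2 : ∀ i, log (N i (σ (io f / io g))) = log (N i (σ (io f))) - log (N i (σ (io g))) :=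
    fun i => by
      rw [map_div₀, map_div₀, log_div ((N i).ne_zero ((map_ne_zero σ).2 (io_ne hf)))
        ((N i).ne_zero ((map_ne_zero σ).2 (io_ne hg)))]
  simp only [e1, e2, mul_sub, Finset.sum_sub_distrib, key f hf, key g hg]

theorem step (h3 : S_WAP) (h : Fam N) (hi : Pairwise fun i j => ¬ (N i).IsEquiv (N j))
    {A B : ℝ} {d : ι → ℝ} (hA : 0 < A) (hB : 0 < B) (hd : ∀ j, d j = A ∨ d j = 0)
    (hr : ∀ a, a ≠ 0 → B * ∑ i, log (N i a) = ∑ j, d j * log (N j (σ a))) :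
    ∃ (e : Equiv.Perm ι) (c : ℝ), 0 < c ∧ ∀ i a, N (e i) (σ a) = N i a ^ c := by
  classical
  have key : ∀ i t, t ≠ 0 →
      B * log (N i t) = ∑ j with (cp (N j) σ).IsEquiv (N i), d j * log (N j (σ t)) := by
    intro i t ht
    have := h3 (M K) (ι ⊕ ι) (N i) (Sum.elim N fun j => cp (N j) σ) (Sum.elim (fun _ => B) (-d))
      (fun l => (Sum.elim N (fun j => cp (N j) σ) l).IsEquiv (N i))
      (by rintro (l | l); exacts [(h.na l).1, ((h.na l).cp σ).1]) (fun _ => Iff.rfl)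
      (fun t ht => by
        have := hr t ht
        rw [Finset.mul_sum] at this
        simp [Fintype.sum_sum_type, this]) t ht
    rw [Finset.sum_filter, Fintype.sum_sum_type] at this
    replace this : ((∑ j, if (N j).IsEquiv (N i) then B * log (N j t) else 0) +
      ∑ j, if (cp (N j) σ).IsEquiv (N i) then -d j * log (N j (σ t)) else 0) = 0 := this
    rw [Finset.sum_eq_single i (fun j _ hj => if_neg (hi hj))
      (fun h => absurd (Finset.mem_univ i) h), if_pos (AbsoluteValue.IsEquiv.refl _)] at this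
    rw [Finset.sum_filter, eq_neg_of_add_eq_zero_left this, ← Finset.sum_neg_distrib]
    refine Finset.sum_congr rfl fun j _ => ?_
    split_ifs <;> simp
  have ex : ∀ i, ∃ j, (cp (N j) σ).IsEquiv (N i) ∧ d j = A := fun i => by
    obtain ⟨l, hl⟩ := nontrivial_of_zz (h.inf i)
    have h0 := mul_pos hB (log_pos hl)
    rw [key i _ (io_ne (xx_ne l))] at h0
    obtain ⟨j, hj, h1⟩ := Finset.exists_ne_zero_of_sum_ne_zero h0.ne'
    exact ⟨j, (Finset.mem_filter.1 hj).2, (hd j).resolve_right (left_ne_zero_of_mul h1)⟩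
  choose g g1 g2 using ex
  have inj : Function.Injective g := fun i i' e => by
    by_contra hc
    exact hi hc ((g1 i).symm.trans (e ▸ g1 i'))
  have bij := Finite.injective_iff_bijective.1 inj
  refine ⟨Equiv.ofBijective g bij, B / A, div_pos hB hA, fun i a => ?_⟩
  rw [Equiv.ofBijective_apply]
  by_cases ha : a = 0
  · simp [ha, hA.ne', hB.ne']
  have := key i a ha
  rw [Finset.sum_eq_single (g i) (fun j hj hne => ?_) (fun hj => absurd (by simp [g1 i]) hj),
    g2] at this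
  · rw [rpow_def_of_pos ((N i).pos ha), ← exp_log ((N (g i)).pos ((map_ne_zero σ).2 ha))]
    refine congrArg _ ?_
    field_simp
    linarith
  · obtain ⟨i', rfl⟩ := bij.2 j
    by_contra
    exact hi (fun e => hne (congrArg g e)) ((g1 i').symm.trans (Finset.mem_filter.1 hj).2)

end PERM

open PERM in
theorem perm (h1 : S_THIN) (h2 : S_KLA) (h3 : S_WAP) (h4 : S_EMB) : S_PERM := by
  intro K ι _ _ _ N s σ δ β hc hl hβ hδ h
  obtain ⟨κ, _, N', hs, hi⟩ := merge hβ h
  obtain ⟨A, B, d, hA, hB, hd, hr⟩ := rel h1 h2 h4 hc hl hβ hδ hs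
  obtain ⟨e, c, h0, he⟩ := PERM.step h3 hs.1 hi hA hB hd hr
  have it : ∀ (m : ℕ) i a, N' ((e ^ m) i) ((σ ^ m) a) = N' i a ^ c ^ m := fun m i a => by
    induction m with
    | zero => simp
    | succ m ih =>
      rw [pow_succ', pow_succ', AlgHom.mul_apply, Equiv.Perm.mul_apply, he, ih,
        ← rpow_mul ((N' i).nonneg a), pow_succ]
  refine ⟨κ, inferInstance, N', orderOf e, c ^ orderOf e, orderOf_pos e, hs, pow_pos h0 _, hi,
    fun i a => ?_⟩
  rw [← it, pow_orderOf_eq_one, Equiv.Perm.one_apply]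

end Pool.Agent.KSP

end

end MrgPart4

-- ======== part 5: formerly Pool.Agent.MP_c8dfda_nt.kp.TWO
section MrgPart5

/-! Polynomial maps of the plane: an irrational eigenvalue forces a nonconstant denominator. -/

open Polynomial Filter Real
open scoped Topology

noncomputable section

namespace Pool.Agent.KSP

namespace TWO

theorem coef {μ : ℝ} (hμ : Irrational μ) {a b : ℚ} (h : (a : ℝ) + b * μ = 0) : b = 0 := by
  by_contra hb
  refine hμ ⟨-a / b, ?_⟩
  have : (b : ℝ) ≠ 0 := by exact_mod_cast hb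
  push_cast
  field_simp
  linarith

theorem arith {μ s q : ℝ} {Q : ℕ} (hQ : q = Q) (q1 : 1 ≤ Q) (hμ : Irrational (μ ^ 2)) (μ0 : 0 < μ)
    (h1 : ∃ (r : ℚ) (n : ℕ), μ = r + n * s) (h2 : ∃ (r : ℚ) (n : ℕ), μ * μ = r + n * s)
    (h3 : ∃ (r : ℚ) (n : ℕ), q / μ = r + n * s)
    (h4 : ∃ (r : ℚ) (n : ℕ), q / μ * (q / μ) = r + n * s) : False := by
  have hμ' : Irrational μ := Irrational.of_pow 2 hμ
  obtain ⟨r1, n1, h1⟩ := h1
  obtain ⟨r2, n2, h2⟩ := h2
  obtain ⟨r3, n3, h3⟩ := h3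
  obtain ⟨r4, n4, h4⟩ := h4
  have n0 : (0 : ℚ) < n1 := by
    rcases Nat.eq_zero_or_pos n1 with h | h
    · exact absurd ⟨r1, by rw [h1, h]; simp⟩ hμ'
    · exact_mod_cast h
  have n0' : (n1 : ℝ) ≠ 0 := by exact_mod_cast n0.ne'
  have lin : ∀ (r : ℚ) (n : ℕ), ∃ a t : ℚ, 0 ≤ t ∧ (r : ℝ) + n * s = a + t * μ := fun r n =>
    ⟨r - n / n1 * r1, n / n1, by positivity, by rw [h1]; push_cast; field_simp; ring⟩
  obtain ⟨a, t, t0, e2⟩ := lin r2 n2
  obtain ⟨b, u, u0, e3⟩ := lin r3 n3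
  obtain ⟨c, w, w0, e4⟩ := lin r4 n4
  rw [e2] at h2
  rw [e3] at h3
  rw [e4, h3] at h4
  have t1 : t ≠ 0 := fun h => hμ ⟨a, by rw [sq, h2, h]; simp⟩
  have u1 : u ≠ 0 := fun h => hμ' ⟨Q / b, by
    rw [h, div_eq_iff μ0.ne', hQ] at h3
    have hb : (b : ℝ) ≠ 0 := fun hb => by
      rw [hb] at h3
      have : (Q : ℝ) = 0 := by simpa using h3
      have : Q = 0 := by exact_mod_cast this
      omega
    push_cast
    rw [h3]; field_simp; simp⟩
  have g3 : b + u * t = 0 := coef hμ' (a := u * a - Q) (by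
    rw [div_eq_iff μ0.ne', hQ] at h3
    push_cast
    linear_combination -h3 - u * h2)
  have g4 : 2 * b * u + u ^ 2 * t - w = 0 := coef hμ' (a := b ^ 2 + u ^ 2 * a - c) (by
    push_cast
    linear_combination h4 - u ^ 2 * h2)
  have : w = -(u ^ 2 * t) := by linear_combination -g4 + 2 * u * g3
  have h5 : 0 < u ^ 2 * t := mul_pos (by positivity) (lt_of_le_of_ne t0 (Ne.symm t1))
  linarith

end TWO

theorem two (h1 : S_EMB) (h2 : S_ORD) (h3 : S_DEN) : S_TWO := by
  intro K ι _ _ _ N s σ μ E hμ i hT hU a ha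
  by_contra h0
  obtain ⟨c, rfl⟩ := dg_eq_zero (φ := a) (by omega)
  have c0 : c ≠ 0 := fun h => ha.1 (by simp [h])
  obtain ⟨ext, ch, tr, hch, -, -, hf⟩ := h1 K σ
  have z0 := E.inf i
  have μ0 := E.pos
  have nrm : ∀ φ : R K, φ ≠ 0 → ∃ ν : R K, ν ≠ 0 ∧ lg (N i) ν = qq σ / μ * lg (N i) φ := by
    intro φ hφ
    obtain ⟨ν, hν⟩ := (h2 K).2.2.1 ((ch (io φ)).coeff 0) fun p o _ ho => by
      obtain ⟨η₀, n0, e0⟩ := ext o ho.na
      obtain ⟨η, -, hη, hp⟩ := hf η₀ n0
      rw [← e0, ← (hp _).1]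
      refine Finset.prod_le_one (fun k _ => (η k).nonneg _) fun k _ => ?_
      have hx : ∀ j, η k (io (xx j)) ≤ 1 := fun j => by
        have := (h3 K s σ E.cmp).2.1 _ ha (η k) (hη k).1
          (fun ψ => by rw [(hη k).2, e0]; exact ho.le ψ) j
        rwa [io_cc, σ.commutes, map_mul, (hη k).1.2 c c0, one_mul] at this
      refine le_one_of_zz (hη k).1 ?_ φ
      have hl : ∀ j, lp (η k) (xx j) = 0 := fun j =>
        max_eq_left (log_nonpos ((η k).nonneg _) (hx j))
      rw [zz, hl, hl, max_self]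
    obtain ⟨η, -, hη, hp⟩ := hf (N i) (E.na i)
    have e1 := (hp (io φ)).1
    rw [Finset.prod_congr rfl fun k _ => by rw [hU (η k) (hη k).1 (hη k).2], Finset.prod_const,
      Finset.card_univ, Fintype.card_fin, ← hν, E.eig] at e1
    have p1 : 0 < N i (io φ) := (N i).pos (io_ne hφ)
    have ν0 : ν ≠ 0 := fun h => by
      rw [h, map_zero, map_zero, zero_rpow μ0.ne'] at e1
      exact (pow_pos p1 _).ne' e1
    refine ⟨ν, ν0, ?_⟩
    have e2 := congrArg log e1
    rw [log_pow, log_rpow ((N i).pos (io_ne ν0))] at e2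
    rw [div_mul_eq_mul_div, eq_div_iff μ0.ne', lg, lg, e2, mul_comm]
  obtain ⟨t, m, ρ, n, -, -, hT, -⟩ := hT
  have val : ∀ (φ : R K) (y : ℝ), φ ≠ 0 → lg (N i) φ = y * zz (N i) →
      ∃ (r : ℚ) (k : ℕ), y = r + k * t := fun φ y hφ hy => by
    refine ⟨ρ φ / m, n φ, ?_⟩
    rw [hT φ hφ, mul_comm] at hy
    push_cast
    exact (mul_right_cancel₀ z0.ne' hy).symm
  obtain ⟨j, hj⟩ := exists_lg_xx z0
  have s1 := E.cmp.ne (xx_ne j)
  have l1 : lg (N i) (s (xx j)) = μ * zz (N i) := by rw [E.toPer.lg_eq E.cmp, hj]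
  obtain ⟨ν, ν0, hν⟩ := nrm _ (xx_ne j)
  obtain ⟨ν', ν0', hν'⟩ := nrm _ ν0
  have q1 : 1 ≤ qq σ := by
    obtain ⟨η, ⟨k, -⟩, -⟩ := hf (N i) (E.na i)
    exact k.pos
  exact TWO.arith rfl q1 hμ μ0 (val _ _ s1 l1)
    (val _ _ (E.cmp.ne s1) (by rw [E.toPer.lg_eq E.cmp, l1, mul_assoc]))
    (val _ _ ν0 (by rw [hν, hj])) (val _ _ ν0' (by rw [hν', hν, hj, mul_assoc]))

end Pool.Agent.KSP

end

end MrgPart5

-- ======== part 6: formerly Pool.Agent.MP_c8dfda_nt.kp.RATIO
section MrgPart6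

/-! Polynomial maps of the plane: the weight of the pulled back family. -/

open Polynomial Filter Real
open scoped Topology

noncomputable section

namespace Pool.Agent.KSP

namespace RATIO

variable {K : Type} [Field K] {ι : Type} [Fintype ι] {N : ι → AV K}
  {s : R K →ₐ[K] R K} {β : ℝ}

theorem zz_scale {v w : AV K} {t : ℝ} (ht : 0 ≤ t) (h : ∀ a, log (w a) = t * log (v a)) :
    zz w = t * zz v := by
  simp only [zz, lp, lg, h, mul_max_of_nonneg _ _ ht, mul_zero]

/-- merging the equivalent members keeps the weights -/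
theorem merge (hβ : 0 < β) (h : Slow N s β) : ∃ (κ : Type) (_ : Fintype κ) (N' : κ → AV K),
    Slow N' s β ∧ (Pairwise fun i j => ¬ (N' i).IsEquiv (N' j)) ∧ ZZ N' = ZZ N ∧
      ∀ τ : M K →ₐ[K] M K, ZZ (fun c => cp (N' c) τ) = ZZ fun i => cp (N i) τ := by
  classical
  obtain ⟨hF, C, hC⟩ := h
  let S : Setoid ι := ⟨fun i j => (N i).IsEquiv (N j),
    fun _ => AbsoluteValue.IsEquiv.refl _, AbsoluteValue.IsEquiv.symm, AbsoluteValue.IsEquiv.trans⟩
  let cl : ι → Quotient S := Quotient.mk S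
  have h1 : ∀ i, (N (cl i).out).IsEquiv (N i) := fun i => Quotient.mk_out (s := S) i
  choose t ht hl using fun i => PERM.exists_log (h1 i)
  let T : Quotient S → ℝ := fun c => ∑ i with cl i = c, t i
  have hT : ∀ c, 0 < T c := fun c =>
    Finset.sum_pos (fun i _ => ht i) ⟨c.out, by simp [cl]⟩
  choose N' hna hp hN' using fun c : Quotient S => exists_AV_rpow (hF.na c.out) (hT c)
  have he : ∀ c, (N c.out).IsEquiv (N' c) := fun c =>
    AbsoluteValue.isEquiv_iff_exists_rpow_eq.2 ⟨T c, hT c, funext fun a => (hp c a).symm⟩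
  have hZ : ∀ τ : M K →ₐ[K] M K, ZZ (fun c => cp (N' c) τ) = ZZ fun i => cp (N i) τ := fun τ => by
    rw [ZZ, ZZ, ← Finset.sum_fiberwise Finset.univ cl]
    refine Finset.sum_congr rfl fun c _ => ?_
    rw [zz_scale (v := cp (N c.out) τ) (hT c).le fun a => hN' c (τ a), Finset.sum_mul]
    refine Finset.sum_congr rfl fun i hi => ?_
    rw [zz_scale (v := cp (N (cl i).out) τ) (w := cp (N i) τ) (ht i).le fun a => hl i (τ a),
      (Finset.mem_filter.1 hi).2]
  refine ⟨Quotient S, inferInstance, N', ⟨⟨⟨hna, fun φ hφ => ?_⟩, fun c => ?_, ?_⟩,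
    (∑ c, T c) * |C|, fun c n j => ?_⟩, fun c d hcd h => hcd ?_, hZ (AlgHom.id K _), hZ⟩
  · refine (hF.pf φ hφ).trans_eq ?_
    rw [Nn, Nn, ← Finset.sum_fiberwise Finset.univ cl]
    refine Finset.sum_congr rfl fun c _ => ?_
    rw [lg, hN', Finset.sum_mul]
    refine Finset.sum_congr rfl fun i hi => ?_
    rw [lg, hl, (Finset.mem_filter.1 hi).2]
  · obtain ⟨j, hj⟩ := exists_lg_xx (hF.inf c.out)
    refine lt_of_lt_of_le ?_ (lg_xx_le _ j)
    rw [lg, hN']
    exact mul_pos (hT c) (lt_of_lt_of_eq (hF.inf c.out) hj.symm)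
  · exact hF.ne.map cl
  · rw [lg, hN', mul_assoc]
    have h2 : T c ≤ ∑ c, T c :=
      Finset.single_le_sum (f := T) (fun c _ => (hT c).le) (Finset.mem_univ c)
    have h3 : C * β ^ n ≤ |C| * β ^ n := mul_le_mul_of_nonneg_right (le_abs_self C) (by positivity)
    exact (mul_le_mul_of_nonneg_left ((hC c.out n j).trans h3) (hT c).le).trans
      (mul_le_mul_of_nonneg_right h2 (by positivity))
  · exact Quotient.out_equiv_out.1 (((he c).trans h).trans (he d).symm)

end RATIO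

theorem ratio (h1 : S_THIN) (h2 : S_KLA) (h3 : S_WAP) (h4 : S_EMB) (h5 : S_RELD) : S_RATIO := by
  intro K ι _ _ _ N s σ δ β hc hl hβ hδ h
  obtain ⟨κ, _, N', hs, hi, z1, z2⟩ := RATIO.merge hβ h
  obtain ⟨A, B, d, hA, hB, hd, hr⟩ := PERM.rel h1 h2 h4 hc hl hβ hδ hs
  obtain ⟨e, c, h0, he⟩ := PERM.step h3 hs.1 hi hA hB hd hr
  have it : ∀ (m : ℕ) i a, N' ((e ^ m) i) ((σ ^ m) a) = N' i a ^ c ^ m := fun m i a => by
    induction m with
    | zero => simp
    | succ m ih =>
      rw [pow_succ', pow_succ', AlgHom.mul_apply, Equiv.Perm.mul_apply, he, ih,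
        ← rpow_mul ((N' i).nonneg a), pow_succ]
  have hp : Per N' (σ ^ orderOf e) (c ^ orderOf e) := ⟨pow_pos h0 _, hi, fun i a => by
    rw [← it, pow_orderOf_eq_one, Equiv.Perm.one_apply]⟩
  have hm := orderOf_pos e
  obtain ⟨r1, r2, -⟩ := h5 K κ N' s σ δ β hc hl hβ hδ hs _ _ hm hp
  have δ0 : 0 < δ := hβ.trans hδ
  have e1 : c * δ = qq σ := by
    rw [← mul_pow] at r1
    exact (pow_left_inj₀ (by positivity) (Nat.cast_nonneg _) hm.ne').1 r1
  have e2 : c < δ := lt_of_pow_lt_pow_left₀ _ δ0.le r2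
  have e3 : ZZ (fun i => cp (N' i) σ) = c * ZZ N' := by
    rw [ZZ, ZZ, Finset.mul_sum, ← Equiv.sum_comp e]
    refine Finset.sum_congr rfl fun i _ => RATIO.zz_scale h0.le fun a => ?_
    rw [cp_apply, he]
    by_cases ha : a = 0
    · simp [ha, h0.ne']
    · exact log_rpow ((N' i).pos ha) c
  refine ⟨?_, ?_⟩
  · rw [← z2, e3, z1, ← e1]; ring
  · rw [← e1, sq]; exact mul_lt_mul_of_pos_right e2 δ0

end Pool.Agent.KSP

end

end MrgPart6

-- marker of a merged file
example : 731051 + 459412 = 731051 + 459412 := rfl
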