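import Mathlib.Algebra.AffineMonoid.UniqueSums
import Mathlib.Analysis.Subadditive
import Pool.Agent.MP_c8dfda_nt.kp.SEQ
import Pool.Agent.MP_c8dfda_nt.Ext
import Pool.Agent.MP_c8dfda_nt.Top
import Pool.Agent.MP_c8dfda_nt.HQ
import Pool.Agent.MP_c8dfda_nt.kp.TOP2

-- ======== part 0: formerly Pool.Agent.MP_c8dfda_nt.kp.EXTV
section MrgPart0

/-! Polynomial maps of the plane, row EXTV: extension of an absolute value. -/

open Polynomial Filter Real
open scoped Topology

noncomputable section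

namespace Pool.Agent.KSP

namespace EXTV

theorem step (F A L : Type) [Field F] [Field A] [Algebra F A] [Algebra.IsAlgebraic F A]
    [NontriviallyNormedField L] [CompleteSpace L] [IsUltrametricDist L] (v : AbsoluteValue F ℝ)
    (κ : F →+* L) (hκ : ∀ a, ‖κ a‖ = v a) :
    ∃ w : AbsoluteValue A ℝ, IsNonarchimedean w ∧ ∀ a, w (algebraMap F A a) = v a := by
  let _ : NormedField (AlgebraicClosure L) := spectralNorm.normedField L _
  have hna : IsNonarchimedean (norm : AlgebraicClosure L → ℝ) := isNonarchimedean_spectralNorm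
  let ψ := algebraMap L (AlgebraicClosure L)
  have hψ : ∀ a, ‖ψ a‖ = ‖a‖ := spectralNorm_extends
  let _ : Algebra F (AlgebraicClosure L) := (ψ.comp κ).toAlgebra
  let j : A →ₐ[F] AlgebraicClosure L := IsAlgClosed.lift
  refine ⟨(NormedField.toAbsoluteValue _).comp (j : A →+* AlgebraicClosure L).injective,
    fun a b => ?_, fun a => ?_⟩
  · show ‖j (a + b)‖ ≤ max ‖j a‖ ‖j b‖
    rw [map_add]
    exact hna _ _
  · show ‖j (algebraMap F A a)‖ = v a
    rw [j.commutes]
    exact (hψ _).trans (hκ a)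

end EXTV

theorem extv : S_EXTV := by
  intro F A _ _ _ _ v hv
  by_cases h : ∃ ξ, 1 < v ξ
  · obtain ⟨ξ, hξ⟩ := h
    let κ : F →+* v.Completion :=
      UniformSpace.Completion.coeRingHom.comp (WithAbs.equiv v).symm.toRingHom
    have hκ : ∀ a, ‖κ a‖ = v a := fun a => UniformSpace.Completion.norm_coe (WithAbs.toAbs v a)
    have := KSkew.EXT.ultra hv
    let _ : NontriviallyNormedField v.Completion :=
      { (inferInstance : NormedField v.Completion) with non_trivial := ⟨κ ξ, hκ ξ ▸ hξ⟩ }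
    exact EXTV.step F A v.Completion v κ hκ
  · simp only [not_exists, not_lt] at h
    obtain ⟨w, h1, h2⟩ := exists_abs (A := A) (fun _ => 0) (fun _ _ _ _ => by simp)
      fun _ _ _ _ _ => by simp
    refine ⟨w, h1, fun a => ?_⟩
    by_cases ha : a = 0
    · simp [ha]
    · rw [h2 _ ((_root_.map_ne_zero _).2 ha), exp_zero]
      refine le_antisymm ?_ (h a)
      have k := h a⁻¹
      rwa [map_inv₀, inv_le_one₀ (v.pos ha)] at k

end Pool.Agent.KSP

end

end MrgPart0

-- ======== part 1: formerly Pool.Agent.MP_c8dfda_nt.kp.MODF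
section MrgPart1

/-! Values and residues in the algebraic closure. -/

open Polynomial Filter Real
open scoped Topology

noncomputable section

namespace Pool.Agent.KSP

namespace MODF

theorem coeff_le {E : Type} [Field E] {n : AbsoluteValue E ℝ} (hn : IsNonarchimedean n)
    (s : Multiset E) (h : ∀ β ∈ s, n β ≤ 1) (i : ℕ) :
    n ((s.map fun β => X - C β).prod.coeff i) ≤ 1 := by
  induction s using Multiset.induction_on generalizing i with
  | empty =>
    simp only [Multiset.map_zero, Multiset.prod_zero, coeff_one]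
    split_ifs <;> simp
  | cons a s ih =>
    have ih' := ih fun β hβ => h β (Multiset.mem_cons_of_mem hβ)
    have ha := h a (Multiset.mem_cons_self a s)
    rw [Multiset.map_cons, Multiset.prod_cons, sub_mul, coeff_sub, coeff_C_mul, sub_eq_add_neg]
    refine (hn _ _).trans (max_le ?_ ?_)
    · cases i with
      | zero => simp
      | succ i => rw [coeff_X_mul]; exact ih' i
    · rw [n.map_neg, map_mul]
      exact mul_le_one₀ ha (n.nonneg _) (ih' i)

theorem sum_lt {E ι : Type} [Field E] {n : AbsoluteValue E ℝ} (hn : IsNonarchimedean n)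
    (s : Finset ι) (f : ι → E) (h : ∀ i ∈ s, n (f i) < 1) : n (∑ i ∈ s, f i) < 1 := by
  classical
  induction s using Finset.induction_on with
  | empty => simp
  | insert a s ha ih =>
    rw [Finset.sum_insert ha]
    exact (hn _ _).trans_lt (max_lt (h a (Finset.mem_insert_self a s))
      (ih fun i hi => h i (Finset.mem_insert_of_mem hi)))

variable {K : Type} [Field K] (W : Md K)

theorem alg (γ : W.E) : IsAlgebraic W.L γ :=
  (IsAlgClosure.isAlgebraic (R := W.L) (K := W.E)).isAlgebraic γ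

theorem up_eq (γ : W.E) : W.up (minpoly W.L γ) =
    ((W.up (minpoly W.L γ)).roots.map fun β => X - C β).prod :=
  (IsAlgClosed.splits _).eq_prod_roots_of_monic ((minpoly.monic (alg W γ).isIntegral).map _)

theorem n_root (γ β : W.E) (h : β ∈ (W.up (minpoly W.L γ)).roots) : W.n β = W.n γ := by
  have h1 : aeval β (minpoly W.L γ) = 0 := by
    have := (mem_roots'.1 h).2
    rwa [Md.up, IsRoot.def, eval_map_algebraMap] at this
  obtain ⟨σ, hσ⟩ := minpoly.exists_algEquiv_of_root (alg W γ) h1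
  rw [← hσ, W.conj]

theorem n_pow {γ : W.E} (h : γ ≠ 0) : ∃ a : ℤ, W.n γ ^ (minpoly W.L γ).natDegree = exp a := by
  have hi := (alg W γ).isIntegral
  obtain ⟨a, ha⟩ := W.dis _ (minpoly.coeff_zero_ne_zero hi h)
  refine ⟨a, ?_⟩
  have hc : (W.up (minpoly W.L γ)).roots.card = (minpoly W.L γ).natDegree := by
    rw [← (IsAlgClosed.splits _).natDegree_eq_card_roots, Md.up, natDegree_map]
  rw [← ha, ← coeff_map, ← hc]
  change _ = W.n ((W.up (minpoly W.L γ)).coeff 0)
  conv_rhs => rw [up_eq W γ]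
  rw [coeff_zero_eq_eval_zero, eval_multiset_prod, map_multiset_prod, Multiset.map_map,
    Multiset.map_map, Multiset.map_congr rfl (g := fun _ => W.n γ), Multiset.map_const',
    Multiset.prod_replicate]
  intro β hβ
  simp [n_root W γ β hβ]

theorem n_div {γ : W.E} (h : γ ≠ 0) {m : ℕ} (hm : 0 < m) (hd : (minpoly W.L γ).natDegree ∣ m) :
    ∃ a : ℤ, W.n γ = exp (a / m) := by
  obtain ⟨a, ha⟩ := n_pow W h
  obtain ⟨k, rfl⟩ := hd
  have hp := W.n.pos h
  have h1 : ((minpoly W.L γ).natDegree : ℝ) * log (W.n γ) = a := by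
    rw [← log_pow, ha, log_exp]
  have h2 : (((minpoly W.L γ).natDegree * k : ℕ) : ℝ) ≠ 0 := by exact_mod_cast hm.ne'
  refine ⟨a * k, ?_⟩
  rw [← exp_log hp]
  congr 1
  rw [eq_div_iff h2]
  push_cast
  rw [← h1]; ring

theorem cst (a : W.L) (h : W.n (algebraMap W.L W.E a) ≤ 1) :
    ∃ c : K, W.n (algebraMap K W.E c - algebraMap W.L W.E a) < 1 := by
  obtain ⟨p, hp⟩ := W.apx a
  have e : algebraMap W.L W.E (aeval W.ξ p) = aeval W.x p := (aeval_algebraMap_apply _ _ _).symm
  rw [map_sub, e] at hp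
  have h1 : W.n (aeval W.x p) ≤ 1 := by
    have := W.na.1 (algebraMap W.L W.E a) (-(algebraMap W.L W.E a - aeval W.x p))
    rw [W.n.map_neg, show algebraMap W.L W.E a + -(algebraMap W.L W.E a - aeval W.x p) =
      aeval W.x p by ring] at this
    exact this.trans (max_le h hp.le)
  have h2 : p.natDegree = 0 := by
    by_cases h0 : p = 0
    · simp [h0]
    rw [W.n_aeval h0, exp_le_one_iff] at h1
    exact_mod_cast le_antisymm h1 (Nat.cast_nonneg _)
  refine ⟨p.coeff 0, ?_⟩
  rw [eq_C_of_natDegree_eq_zero h2, aeval_C] at hp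
  rwa [← W.n.map_neg, neg_sub]

theorem res (γ : W.E) (h : W.n γ ≤ 1) : ∃ p : K[X], p ≠ 0 ∧ W.n (aeval γ p) < 1 := by
  have hi := (alg W γ).isIntegral
  have hc : ∀ i, W.n (algebraMap W.L W.E ((minpoly W.L γ).coeff i)) ≤ 1 := fun i => by
    rw [← coeff_map]
    change W.n ((W.up (minpoly W.L γ)).coeff i) ≤ 1
    rw [up_eq W γ]
    exact coeff_le W.na.1 _ (fun β hβ => (n_root W γ β hβ).trans_le h) i
  choose c hc' using fun i => cst W _ (hc i)
  refine ⟨∑ i ∈ Finset.range ((minpoly W.L γ).natDegree + 1), monomial i (c i), fun h0 => ?_, ?_⟩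
  · have h1 := congrArg (fun q => coeff q (minpoly W.L γ).natDegree) h0
    simp only [finsetSum_coeff, coeff_monomial, Finset.sum_ite_eq', Finset.mem_range,
      Nat.lt_succ_self, if_true, coeff_zero] at h1
    have h2 := hc' (minpoly W.L γ).natDegree
    rw [h1, (minpoly.monic hi).coeff_natDegree] at h2
    simp at h2
  · have h1 : aeval γ (minpoly W.L γ) = 0 := minpoly.aeval _ _
    rw [aeval_eq_sum_range] at h1
    rw [map_sum, ← sub_zero (∑ _ ∈ _, _), ← h1, ← Finset.sum_sub_distrib]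
    refine sum_lt W.na.1 _ _ fun i _ => ?_
    rw [aeval_monomial, Algebra.smul_def, ← sub_mul, map_mul, map_pow]
    exact (mul_le_of_le_one_right (W.n.nonneg _) (pow_le_one₀ (W.n.nonneg _) h)).trans_lt (hc' i)

theorem surj (r : ℚ) : ∃ γ : W.E, W.n γ = exp r := by
  obtain ⟨γ, hγ⟩ := IsAlgClosed.exists_pow_nat_eq (W.x ^ r.num) r.den_pos
  refine ⟨γ, ?_⟩
  have h1 : W.n γ ^ r.den = exp r ^ r.den := by
    rw [← map_pow, hγ, map_zpow₀, W.n_x, ← exp_nat_mul, ← rpow_intCast, ← exp_mul, one_mul]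
    congr 1
    exact_mod_cast (Rat.den_mul_eq_num r).symm
  exact (pow_left_inj₀ (W.n.nonneg _) (exp_pos _).le r.den_ne_zero).1 h1

end MODF

theorem modf : S_MODF := by
  intro K _ _ W
  refine ⟨fun γ h => ?_, MODF.surj W, MODF.res W, fun S => ?_⟩
  · obtain ⟨a, ha⟩ := MODF.n_div W h (minpoly.natDegree_pos (MODF.alg W γ).isIntegral) dvd_rfl
    exact ⟨a / (minpoly W.L γ).natDegree, by rw [ha]; push_cast; rfl⟩
  · have : FiniteDimensional W.L (IntermediateField.adjoin W.L (S : Set W.E)) :=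
      IntermediateField.finiteDimensional_adjoin fun x _ => (MODF.alg W x).isIntegral
    refine ⟨Module.finrank W.L (IntermediateField.adjoin W.L (S : Set W.E)), Module.finrank_pos,
      fun γ hγ h => MODF.n_div W h Module.finrank_pos ?_⟩
    rw [← IntermediateField.adjoin.finrank (MODF.alg W γ).isIntegral]
    exact IntermediateField.finrank_dvd_of_le_right
      (IntermediateField.adjoin_simple_le_iff.2 hγ)

end Pool.Agent.KSP

end

end MrgPart1

-- ======== part 2: formerly Pool.Agent.MP_c8dfda_nt.kp.PSD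
section MrgPart2

/-! Polynomial maps of the plane: the kernel is positive semidefinite. -/

open Polynomial Filter Real
open scoped Topology

noncomputable section

namespace Pool.Agent.KSP

namespace PSD

open MeasureTheory

variable {α : Type}

open Classical in
theorem per (S : Finset α) (u : α → ℝ) (r : α → α → Prop) (hs : ∀ a b, r a b → r b a)
    (ht : ∀ a b c, r a b → r b c → r a c) :
    0 ≤ ∑ a ∈ S, ∑ b ∈ S, u a * u b * if r a b then 1 else 0 := by
  have key : ∀ a ∈ S, ∀ b, (if r a b then (1 : ℝ) else 0) = ∑ c ∈ S,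
      (if r a c then 1 else 0) * (if r b c then 1 else 0) * (((S.filter (r c)).card : ℝ))⁻¹ := by
    intro a ha b
    by_cases h : r a b
    · have e : ∀ c ∈ S, (if r a c then (1 : ℝ) else 0) * (if r b c then 1 else 0) *
          (((S.filter (r c)).card : ℝ))⁻¹ =
          if r a c then (((S.filter (r a)).card : ℝ))⁻¹ else 0 := fun c _ => by
        by_cases k : r a c
        · rw [if_pos k, if_pos k, if_pos (ht _ _ _ (hs _ _ h) k), one_mul, one_mul,
            Finset.filter_congr fun d _ => Iff.intro (ht a c d k) (ht c a d (hs _ _ k)) |>.symm]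
        · rw [if_neg k, if_neg k, zero_mul, zero_mul]
      rw [if_pos h, Finset.sum_congr rfl e, ← Finset.sum_filter, Finset.sum_const, nsmul_eq_mul,
        mul_inv_cancel₀]
      exact Nat.cast_ne_zero.2 (Finset.card_ne_zero.2
        ⟨a, Finset.mem_filter.2 ⟨ha, ht _ _ _ h (hs _ _ h)⟩⟩)
    · rw [if_neg h]
      refine (Finset.sum_eq_zero fun c _ => ?_).symm
      by_cases k : r a c
      · rw [if_neg fun k' : r b c => h (ht _ _ _ k (hs _ _ k')), mul_zero, zero_mul]
      · rw [if_neg k, zero_mul, zero_mul]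
  have e : ∑ a ∈ S, ∑ b ∈ S, (u a * u b * if r a b then (1 : ℝ) else 0) = ∑ c ∈ S,
      (∑ a ∈ S, u a * if r a c then 1 else 0) ^ 2 * (((S.filter (r c)).card : ℝ))⁻¹ := by
    simp only [sq, Finset.sum_mul_sum]
    simp only [Finset.sum_mul]
    rw [Finset.sum_comm (s := S) (t := S)
      (f := fun c a => ∑ b ∈ S, (u a * if r a c then 1 else 0) * (u b * if r b c then 1 else 0) *
        (((S.filter (r c)).card : ℝ))⁻¹)]
    refine Finset.sum_congr rfl fun a ha => ?_
    rw [Finset.sum_comm]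
    refine Finset.sum_congr rfl fun b _ => ?_
    rw [key a ha b, Finset.mul_sum]
    exact Finset.sum_congr rfl fun c _ => by ring
  rw [e]
  positivity

theorem ultra (S : Finset α) (u : α → ℝ) (k : α → α → ℝ) (h0 : ∀ a b, 0 ≤ k a b)
    (hs : ∀ a b, k a b = k b a) (ht : ∀ a b c, min (k a b) (k b c) ≤ k a c) :
    0 ≤ ∑ a ∈ S, ∑ b ∈ S, u a * u b * k a b := by
  classical
  have i : ∀ a b, Integrable (fun t : ℝ =>
      u a * u b * (Set.Ioo 0 (k a b)).indicator (fun _ => (1 : ℝ)) t) volume := fun a b =>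
    ((integrable_indicator_iff measurableSet_Ioo).2
      (integrableOn_const measure_Ioo_lt_top.ne)).const_mul _
  have e : ∀ a b, u a * u b * k a b =
      ∫ t : ℝ, u a * u b * (Set.Ioo 0 (k a b)).indicator (fun _ => (1 : ℝ)) t := fun a b => by
    rw [integral_const_mul, integral_indicator_const _ measurableSet_Ioo,
      Real.volume_real_Ioo_of_le (h0 a b), sub_zero, smul_eq_mul, mul_one]
  simp only [e, ← integral_finsetSum _ fun b _ => i _ b]
  rw [← integral_finsetSum _ fun a _ => integrable_finsetSum _ fun b _ => i a b]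
  refine integral_nonneg fun t => ?_
  have := per S u (fun a b => t ∈ Set.Ioo 0 (k a b)) (fun a b h => hs a b ▸ h)
    fun a b c h h' => ⟨h.1, (lt_min h.2 h'.2).trans_le (ht a b c)⟩
  refine this.trans_eq (Finset.sum_congr rfl fun a _ => Finset.sum_congr rfl fun b _ => ?_)
  rw [Set.indicator_apply]
  by_cases h : t ∈ Set.Ioo 0 (k a b)
  · rw [if_pos h, if_pos h]
  · rw [if_neg h, if_neg h]

end PSD

theorem psd : S_PSD := by
  intro K _ _ W u
  have e : W.B u u = ∑ a ∈ u.support, ∑ b ∈ u.support, u a * u b * W.kk a b := by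
    rw [Md.B, Finsupp.linearCombination_apply, Finsupp.sum, LinearMap.sum_apply]
    refine Finset.sum_congr rfl fun a _ => ?_
    rw [LinearMap.smul_apply, Finsupp.linearCombination_apply, Finsupp.sum, smul_eq_mul,
      Finset.mul_sum]
    exact Finset.sum_congr rfl fun b _ => by rw [smul_eq_mul, mul_assoc]
  rw [e]
  refine PSD.ultra _ _ _ W.kk_nonneg W.kk_symm fun a b c => ?_
  have p : ∀ a b : W.E × ℝ, 0 < max (W.n (a.1 - b.1)) (max (exp a.2) (exp b.2)) := fun a b =>
    lt_max_of_lt_right (lt_max_of_lt_left (exp_pos _))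
  have t := W.na.1 (a.1 - b.1) (b.1 - c.1)
  rw [sub_add_sub_cancel] at t
  have k : max (W.n (a.1 - c.1)) (max (exp a.2) (exp c.2)) ≤
      max (max (W.n (a.1 - b.1)) (max (exp a.2) (exp b.2)))
        (max (W.n (b.1 - c.1)) (max (exp b.2) (exp c.2))) :=
    max_le (t.trans (max_le_max (le_max_left _ _) (le_max_left _ _)))
      (max_le_max (le_max_of_le_right (le_max_left _ _)) (le_max_of_le_right (le_max_right _ _)))
  rcases le_max_iff.1 k with k | k
  · exact (min_le_left _ _).trans (max_le_max le_rfl (sub_le_sub_left (log_le_log (p a c) k) 1))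
  · exact (min_le_right _ _).trans (max_le_max le_rfl (sub_le_sub_left (log_le_log (p a c) k) 1))

end Pool.Agent.KSP

end

end MrgPart2

-- ======== part 3: formerly Pool.Agent.MP_c8dfda_nt.kp.GAL
section MrgPart3

/-! Polynomial maps of the plane: conjugates. -/

open Polynomial Filter Real
open scoped Topology

noncomputable section

namespace Pool.Agent.KSP

namespace GAL

variable {K : Type} [Field K] (W : Md K)

theorem int (β : W.E) : IsIntegral W.L β :=
  (IsAlgClosure.isAlgebraic (R := W.L) (K := W.E)).isIntegral.isIntegral β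

theorem one [CharZero K] (β : W.E) : 0 < (minpoly W.L β).natDegree ∧
    (W.up (minpoly W.L β)).roots.Nodup ∧
    (W.up (minpoly W.L β)).roots.card = (minpoly W.L β).natDegree ∧
    ∀ β', β' ∈ (W.up (minpoly W.L β)).roots ↔ ∃ σ : W.E ≃ₐ[W.L] W.E, σ β = β' := by
  have h := int W β
  refine ⟨minpoly.natDegree_pos h, nodup_roots (minpoly.irreducible h).separable.map, ?_,
    fun β' => ?_⟩
  · rw [← (IsAlgClosed.splits _).natDegree_eq_card_roots, Md.up, natDegree_map]
  · rw [Md.up, mem_roots (map_ne_zero (minpoly.ne_zero h)), IsRoot.def, eval_map_algebraMap]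
    refine ⟨fun k => minpoly.exists_algEquiv_of_root' h.isAlgebraic k, ?_⟩
    rintro ⟨σ, rfl⟩
    rw [aeval_algHom_apply, minpoly.aeval, map_zero]

theorem roots (f : W.L[X]) (σ : W.E ≃ₐ[W.L] W.E) : (W.up f).roots.map σ = (W.up f).roots := by
  have e : (W.up f).map (σ : W.E →+* W.E) = W.up f := by
    rw [Md.up, Polynomial.map_map]
    congr 1
    ext a
    simp
  conv_rhs => rw [← e]
  exact ((IsAlgClosed.splits (W.up f)).roots_map (σ : W.E →+* W.E)).symm

theorem sub (σ : W.E ≃ₐ[W.L] W.E) (β γ : W.E) : W.n (σ β - σ γ) = W.n (β - γ) := by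
  rw [← map_sub, W.conj]

theorem pair (f : W.L[X]) {s : W.E → ℝ} (hs : W.Inv s) (σ : W.E ≃ₐ[W.L] W.E) (β : W.E) (t : ℝ) :
    W.B (W.sg (σ β, t)) (W.rt (W.up f) s) = W.B (W.sg (β, t)) (W.rt (W.up f) s) := by
  rw [W.B_sg_rt, W.B_sg_rt]
  conv_lhs => rw [← roots W f σ, Multiset.map_map]
  refine congrArg _ (Multiset.map_congr rfl fun γ _ => ?_)
  simp only [Function.comp, Md.kk, sub, hs σ γ]

end GAL

theorem gal : S_GAL := by
  intro K _ _ W
  refine ⟨GAL.one W, fun f σ => ⟨GAL.roots W f σ, fun β t => ?_⟩, fun f s hs a => ?_,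
    fun γ hγ => ?_⟩
  · rw [W.gn_roots, W.gn_roots]
    conv_lhs => rw [← GAL.roots W f σ, Multiset.map_map]
    simp only [Function.comp, GAL.sub]
  · obtain ⟨h1, -, h3, h4⟩ := GAL.one W a.1
    rw [Md.av, map_smul, LinearMap.smul_apply, W.B_symm, W.B_rt,
      Multiset.map_congr rfl (g := fun _ => W.B (W.sg a) (W.rt (W.up f) s)) fun β hβ => by
        obtain ⟨σ, rfl⟩ := (h4 β).1 hβ
        rw [W.B_symm, GAL.pair W f hs],
      Multiset.map_const', Multiset.sum_replicate, h3, nsmul_eq_mul, smul_eq_mul,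
      inv_mul_cancel_left₀ (Nat.cast_ne_zero.2 h1.ne')]
  · obtain ⟨h1, h2, h3, h4⟩ := GAL.one W γ
    have k : (W.up (minpoly W.L γ)).roots ≤ {γ} := (Multiset.le_iff_subset h2).2 fun β hβ => by
      obtain ⟨σ, rfl⟩ := (h4 β).1 hβ
      rw [hγ, Multiset.mem_singleton]
    have k1 := Multiset.card_le_card k
    rw [h3, Multiset.card_singleton] at k1
    exact minpoly.natDegree_eq_one_iff.1 (le_antisymm k1 h1)

end Pool.Agent.KSP

end

end MrgPart3

-- ======== part 4: formerly Pool.Agent.MP_c8dfda_nt.kp.PENV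
section MrgPart4

/-! Polynomial maps of the plane: the vector of a pencil. -/

open Polynomial Filter Real
open scoped Topology

noncomputable section

namespace Pool.Agent.KSP

namespace PENV

variable {K : Type} [Field K] (W : Md K)

theorem mono (c : W.E) {t t' : ℝ} (h : t ≤ t') (f : W.E[X]) : W.gn (c, t) f ≤ W.gn (c, t') f :=
  KSkew.GN_mono W.na.1 (exp_pos t) (exp_pos t') (exp_le_exp.2 h) f

theorem center {c c' : W.E} {t : ℝ} (h : W.n (c - c') ≤ exp t) (f : W.E[X]) :
    W.gn (c, t) f = W.gn (c', t) f := KSkew.GN_center W.na.1 (exp_pos t) h f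

theorem cont (c : W.E) (f : W.E[X]) : Continuous fun t : ℝ => W.gn (c, t) f := by
  simp only [W.gn_roots]
  exact continuous_const.mul
    (continuous_multiset_prod _ fun β _ => continuous_exp.max continuous_const)

theorem decay {b : W.E} {f : W.E[X]} (hb : b ∈ f.roots) {t t' : ℝ} (h : t ≤ t') :
    W.gn (b, t) f ≤ exp (t - t') * W.gn (b, t') f := by
  obtain ⟨g, hg⟩ := dvd_iff_isRoot.2 (isRoot_of_mem_roots hb)
  rw [hg, map_mul, map_mul, W.gn_X_sub_C, W.gn_X_sub_C]
  simp only [sub_self, map_zero, max_eq_left (exp_pos _).le]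
  rw [← mul_assoc, ← exp_add, sub_add_cancel]
  exact mul_le_mul_of_nonneg_left (mono W b h g) (exp_pos t).le

theorem strict {b : W.E} {f : W.E[X]} (hb : b ∈ f.roots) {t t' : ℝ} (h : t < t') :
    W.gn (b, t) f < W.gn (b, t') f :=
  (decay W hb h.le).trans_lt (mul_lt_of_lt_one_left ((W.gn _).pos (ne_zero_of_mem_roots hb))
    (exp_lt_one_iff.2 (sub_neg.2 h)))

theorem top {f : W.E[X]} {D : ℕ} (h : W.gn (0, 1) f = exp D) {c : W.E} (hc : W.n c ≤ exp 1) :
    W.gn (c, 1) f = exp D := by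
  rw [← h]
  exact center W (by rwa [sub_zero]) f

open Classical in
/-- the radii -/
def rad (f : W.E[X]) (b : W.E) : ℝ :=
  if b ∈ f.roots ∧ W.n b ≤ exp 1 then sInf {t | 1 ≤ W.gn (b, t) f} else 1

theorem rad_in {f : W.E[X]} {D : ℕ} (h : W.gn (0, 1) f = exp D) {b : W.E} (hb : b ∈ f.roots)
    (hn : W.n b ≤ exp 1) : rad W f b ≤ 1 ∧ W.gn (b, rad W f b) f = 1 := by
  have h1 := top W h hn
  have D0 : (0 : ℝ) ≤ D := Nat.cast_nonneg D
  have h2 : W.gn (b, 1 - D) f ≤ 1 := by
    refine (decay W hb (t' := 1) (by linarith)).trans_eq ?_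
    rw [h1, ← exp_add, show (1 : ℝ) - D - 1 + D = 0 by ring, exp_zero]
  obtain ⟨t, ht, e⟩ := intermediate_value_Icc (show (1 : ℝ) - D ≤ 1 by linarith)
    (cont W b f).continuousOn (show (1 : ℝ) ∈ Set.Icc _ _ from
      ⟨h2, by show _ ≤ W.gn (b, 1) f; rw [h1]; exact one_le_exp D0⟩)
  have e : W.gn (b, t) f = 1 := e
  have k : {t' | 1 ≤ W.gn (b, t') f} = Set.Ici t := by
    ext t'
    refine ⟨fun k => Set.mem_Ici.2 (le_of_not_gt fun k' => ?_), fun k => e.ge.trans (mono W b k f)⟩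
    exact absurd ((strict W hb k').trans_eq e) (not_lt.2 k)
  rw [rad, if_pos ⟨hb, hn⟩, k, csInf_Ici]
  exact ⟨ht.2, e⟩

theorem rad_out {f : W.E[X]} {b : W.E} (hn : exp 1 < W.n b) : rad W f b = 1 := by
  rw [rad, if_neg fun h => hn.not_ge h.2]

theorem cut {x : ℝ} (h : exp 1 ≤ x) : max 0 (1 - log x) = 0 :=
  max_eq_left (sub_nonpos.2 ((le_log_iff_exp_le ((exp_pos 1).trans_le h)).2 h))

theorem far {c b : W.E} (hc : W.n c ≤ exp 1) (hb : exp 1 < W.n b) : exp 1 ≤ W.n (c - b) := by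
  by_contra k
  have := KSkew.na_sub_le W.na.1 hc (le_of_not_ge k)
  rw [sub_sub_cancel] at this
  exact hb.not_ge this

theorem out {f : W.E[X]} (a : W.E × ℝ) (ha : exp 1 < W.n a.1) :
    W.B (W.sg a) (W.rt f (rad W f)) = 0 := by
  rw [W.B_sg_rt]
  refine Multiset.sum_eq_zero fun x hx => ?_
  obtain ⟨β, _, rfl⟩ := Multiset.mem_map.1 hx
  refine cut ?_
  rcases le_or_gt (W.n β) (exp 1) with k | k
  · refine le_trans ?_ (le_max_left _ _)
    rw [W.n.map_sub]
    exact far W k ha
  · simp only [rad_out W k]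
    exact (le_max_right _ _).trans (le_max_right _ _)

theorem same {f : W.E[X]} {D : ℕ} (h : W.gn (0, 1) f = exp D) {c β : W.E} {t u : ℝ}
    (hc : W.n c ≤ exp 1) (hβ : β ∈ f.roots) (tu : t ≤ u) (h1 : 1 ≤ W.gn (c, u) f)
    (h2 : u = t ∨ W.gn (c, u) f = 1) :
    W.kk (c, t) (β, rad W f β) = max 0 (1 - log (max (exp u) (W.n (c - β)))) := by
  rcases le_or_gt (W.n β) (exp 1) with k | k
  · obtain ⟨_, e⟩ := rad_in W h hβ k
    have p : 0 < max (exp u) (W.n (c - β)) := (exp_pos u).trans_le (le_max_left _ _)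
    have r1 : u ≤ log (max (exp u) (W.n (c - β))) := (le_log_iff_exp_le p).2 (le_max_left _ _)
    have r2 : rad W f β ≤ log (max (exp u) (W.n (c - β))) := by
      refine le_of_not_gt fun k' => ?_
      have k1 := strict W hβ k'
      rw [e, ← center W (c := c) (by rw [exp_log p]; exact le_max_right _ _)] at k1
      exact k1.not_ge (h1.trans (mono W c r1 f))
    have : max (W.n (c - β)) (max (exp t) (exp (rad W f β))) = max (exp u) (W.n (c - β)) := by
      refine le_antisymm (max_le (le_max_right _ _) (max_le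
        ((exp_le_exp.2 tu).trans (le_max_left _ _)) ((le_log_iff_exp_le p).1 r2)))
        (max_le ?_ (le_max_left _ _))
      rcases h2 with h2 | h2
      · rw [h2]
        exact (le_max_left _ _).trans (le_max_right _ _)
      rcases le_total (exp u) (W.n (c - β)) with k1 | k1
      · exact k1.trans (le_max_left _ _)
      · refine le_trans (exp_le_exp.2 (le_of_not_gt fun k' => ?_))
          ((le_max_right _ _).trans (le_max_right _ _))
        have k2 := strict W hβ k'
        rw [e, ← center W k1, h2] at k2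
        exact lt_irrefl _ k2
    rw [Md.kk, this]
  · rw [Md.kk, cut ((far W hc k).trans (le_max_left _ _)),
      cut ((far W hc k).trans (le_max_right _ _))]

theorem ins {f : W.E[X]} {D : ℕ} (h : W.gn (0, 1) f = exp D)
    (hr : ∀ a, W.In a → log (W.gn a f) =
      D - (f.roots.map fun β => max 0 (1 - log (max (exp a.2) (W.n (a.1 - β))))).sum)
    (a : W.E × ℝ) (ha : W.In a) :
    W.B (W.sg a) (W.rt f (rad W f)) = D - max 0 (log (W.gn a f)) := by
  obtain ⟨c, t⟩ := a
  have hc : W.n c ≤ exp 1 := ha.1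
  have ht : t ≤ 1 := ha.2
  obtain ⟨u, tu, u1, h1, h2, h3⟩ : ∃ u, t ≤ u ∧ u ≤ 1 ∧ 1 ≤ W.gn (c, u) f ∧
      (u = t ∨ W.gn (c, u) f = 1) ∧ log (W.gn (c, u) f) = max 0 (log (W.gn (c, t) f)) := by
    rcases le_total 1 (W.gn (c, t) f) with k | k
    · exact ⟨t, le_rfl, ht, k, Or.inl rfl, (max_eq_right (log_nonneg k)).symm⟩
    · obtain ⟨u, hu, e⟩ := intermediate_value_Icc ht (cont W c f).continuousOn
        (show (1 : ℝ) ∈ Set.Icc _ _ from ⟨k, by
          show _ ≤ W.gn (c, 1) f
          rw [top W h hc]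
          exact one_le_exp (Nat.cast_nonneg D)⟩)
      have e : W.gn (c, u) f = 1 := e
      refine ⟨u, hu.1, hu.2, e.ge, Or.inr e, ?_⟩
      rw [e, log_one, max_eq_left (log_nonpos ((W.gn _).nonneg f) k)]
  rw [W.B_sg_rt, ← h3, hr (c, u) ⟨hc, u1⟩, sub_sub_cancel]
  exact congrArg _ (Multiset.map_congr rfl fun β hβ => same W h hc hβ tu h1 h2)

end PENV

theorem penv (h1 : S_GAL) (h2 : S_ROOT) : S_PENV := by
  intro K _ _ W G hG
  have G0 : G ≠ 0 := fun h => by simp [h] at hG
  obtain ⟨f0, hd, ht, hr⟩ := h2 K W G G0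
  obtain ⟨-, hg, -⟩ := h1 K W
  have hi := PENV.ins W ht fun a ha => by
    have k := (hr (W.dp a) (by
      have := W.gn_X_sub_C a 0
      rw [map_zero, sub_zero, sub_zero] at this
      rw [W.dp_f, this]
      exact max_le (exp_le_exp.2 ha.2) ha.1) ((W.gn a).pos f0)).2
    simpa only [W.dp_f, W.gn_X_sub_C] using k
  refine ⟨PENV.rad W (W.ev G), fun σ β => ?_, hi, PENV.out W, ?_⟩
  · obtain ⟨k1, k2⟩ := hg (W.evL G) σ
    rw [W.up_evL] at k1 k2
    have k3 : σ β ∈ (W.ev G).roots ↔ β ∈ (W.ev G).roots := by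
      conv_lhs => rw [← k1]
      exact Multiset.mem_map_of_injective σ.injective
    simp only [PENV.rad, k2]
    by_cases k : β ∈ (W.ev G).roots ∧ W.n β ≤ exp 1
    · rw [if_pos k, if_pos (by rwa [k3, W.conj])]
    · rw [if_neg k, if_neg (by rwa [k3, W.conj])]
  · rw [W.B_rt]
    have D0 : (0 : ℝ) ≤ dg G := Nat.cast_nonneg _
    refine (Multiset.sum_le_card_nsmul _ (dg G : ℝ) fun x hx => ?_).trans ?_
    · obtain ⟨β, hβ, rfl⟩ := Multiset.mem_map.1 hx
      rw [W.B_symm]
      rcases le_or_gt (W.n β) (exp 1) with k | k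
      · rw [hi _ ⟨k, (PENV.rad_in W ht hβ k).1⟩]
        exact sub_le_self _ (le_max_left _ _)
      · rw [PENV.out W _ k]
        exact D0
    · rw [Multiset.card_map, nsmul_eq_mul, sq]
      exact mul_le_mul_of_nonneg_right (Nat.cast_le.2 ((card_roots' _).trans hd)) D0

end Pool.Agent.KSP

end

end MrgPart4

-- ======== part 5: formerly Pool.Agent.MP_c8dfda_nt.kp.LEJA
section MrgPart5

/-! Polynomial maps of the plane, row LEJA: a greedy choice of points. -/

open Polynomial Filter Real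
open scoped Topology

noncomputable section

namespace Pool.Agent.KSP

namespace LEJA

open Finset

variable {I : Type}

theorem tri (A : I → I → ℝ) (hA : ∀ i l, A i l = A l i) (x : ℕ → I) (J : ℕ) :
    ∑ a ∈ range J, ∑ b ∈ range J, A (x a) (x b) =
      2 * ∑ a ∈ range J, ∑ b ∈ range a, A (x a) (x b) + ∑ a ∈ range J, A (x a) (x a) := by
  induction J with
  | zero => simp
  | succ J ih =>
    have e : ∑ a ∈ range J, A (x a) (x J) = ∑ a ∈ range J, A (x J) (x a) :=
      sum_congr rfl fun a _ => hA _ _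
    simp only [sum_range_succ, sum_add_distrib, ih, e]
    ring

theorem neg [Fintype I] (A : I → I → ℝ) (w : I → ℝ) (hA : ∀ i l, A i l = A l i)
    (hn : ∀ x : I → ℝ, ∑ i, x i = 0 → ∑ i, ∑ l, x i * x l * A i l ≤ 0) (h1 : ∑ i, w i = 1)
    (x : ℕ → I) (J : ℕ) :
    ∑ a ∈ range J, ∑ b ∈ range J, A (x a) (x b) -
      2 * J * ∑ a ∈ range J, ∑ l, w l * A (x a) l +
        J ^ 2 * ∑ i, ∑ l, w i * w l * A i l ≤ 0 := by
  classical
  obtain ⟨n, hx⟩ : ∃ n : I → ℝ, ∀ f : I → ℝ, ∑ i, n i * f i = ∑ a ∈ range J, f (x a) := by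
    refine ⟨fun i => ∑ a ∈ range J, if i = x a then 1 else 0, fun f => ?_⟩
    simp only [sum_mul]
    rw [sum_comm]
    simp
  have e0 : ∑ i, n i = J := by simpa using hx fun _ => 1
  have e1 : ∑ i, ∑ l, n i * n l * A i l = ∑ a ∈ range J, ∑ b ∈ range J, A (x a) (x b) := by
    rw [← hx fun i => ∑ b ∈ range J, A i (x b)]
    refine sum_congr rfl fun i _ => ?_
    rw [← hx fun l => A i l, mul_sum]
    exact sum_congr rfl fun l _ => by ring
  have e2 : ∑ i, ∑ l, n i * w l * A i l = ∑ a ∈ range J, ∑ l, w l * A (x a) l := by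
    rw [← hx fun i => ∑ l, w l * A i l]
    refine sum_congr rfl fun i _ => ?_
    rw [mul_sum]
    exact sum_congr rfl fun l _ => by ring
  have e3 : ∑ i, ∑ l, w i * n l * A i l = ∑ a ∈ range J, ∑ l, w l * A (x a) l := by
    rw [← e2, sum_comm]
    exact sum_congr rfl fun i _ => sum_congr rfl fun l _ => by rw [hA]; ring
  have k := hn (fun i => n i - J * w i) (by rw [sum_sub_distrib, ← mul_sum, e0, h1]; ring)
  have e4 : ∑ i, ∑ l, (n i - J * w i) * (n l - J * w l) * A i l =
      ∑ i, ∑ l, n i * n l * A i l - J * ∑ i, ∑ l, n i * w l * A i l -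
        J * ∑ i, ∑ l, w i * n l * A i l + J ^ 2 * ∑ i, ∑ l, w i * w l * A i l := by
    simp only [mul_sum, ← sum_sub_distrib, ← sum_add_distrib]
    exact sum_congr rfl fun i _ => sum_congr rfl fun l _ => by ring
  rw [e4, e1, e2, e3] at k
  linarith

/-- The greedy sequence. -/
theorem greedy [Fintype I] [Nonempty I] (A : I → I → ℝ) (τ : I → ℝ) (m : ℝ) :
    ∃ x : ℕ → I, ∀ a i, τ (x a) - m * ∑ b ∈ range a, A (x a) (x b) ≤
      τ i - m * ∑ b ∈ range a, A i (x b) := by
  have h : ∀ σ : I → ℝ, ∃ j, ∀ i, τ j - m * σ j ≤ τ i - m * σ i := fun σ =>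
    Finite.exists_min fun i => τ i - m * σ i
  choose f hf using h
  let σ : ℕ → I → ℝ := fun a => Nat.rec (fun _ => 0) (fun _ s i => s i + A i (f s)) a
  have e : ∀ a i, σ a i = ∑ b ∈ range a, A i (f (σ b)) := fun a i => by
    induction a with
    | zero => simp [σ]
    | succ a ih =>
      rw [sum_range_succ, ← ih]
  refine ⟨fun a => f (σ a), fun a i => ?_⟩
  rw [← e, ← e]
  exact hf _ i

end LEJA

open Finset in
theorem leja : S_LEJA := by
  intro I _ A w m hA hn _ h1 hQ hm
  have hI : Nonempty I := by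
    by_contra h
    rw [not_nonempty_iff] at h
    simp at h1
  set Q := ∑ i, ∑ l, w i * w l * A i l with hQ'
  obtain ⟨c, hc⟩ : ∃ c : ℝ, ∀ i, -c ≤ A i i := by
    obtain ⟨j, hj⟩ := Finite.exists_min fun i => A i i
    exact ⟨-A j j, fun i => by simpa using hj i⟩
  obtain ⟨J, hJ⟩ := exists_nat_gt (max 0 ((4 + c) / -Q))
  have J0 : (0 : ℝ) < J := (le_max_left _ _).trans_lt hJ
  have J1 : 4 + c < J * -Q := (div_lt_iff₀ (by linarith)).1 ((le_max_right _ _).trans_lt hJ)
  have m1 : (1 : ℝ) ≤ m := by exact_mod_cast hm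
  let τ : I → ℝ := fun i => m * J * ∑ l, w l * A i l - m * J * Q - 1
  obtain ⟨x, hx⟩ := LEJA.greedy A τ m
  let g : ℕ → ℝ := fun a => τ (x a) - m * ∑ b ∈ range a, A (x a) (x b)
  refine ⟨J, x, fun a => ⌊g a - m⌋, τ, ?_, ?_, fun a _ i => ?_⟩
  · have e' : ∑ i, w i * ∑ l, w l * A i l = Q :=
      sum_congr rfl fun i _ => by
        rw [mul_sum]
        exact sum_congr rfl fun l _ => by ring
    have e : ∑ i, w i * τ i = m * J * Q - m * J * Q * ∑ i, w i - ∑ i, w i := by
      calc ∑ i, w i * τ i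
          = ∑ i, (m * J * (w i * ∑ l, w l * A i l) - m * J * Q * w i - w i) :=
            sum_congr rfl fun i _ => by simp only [τ]; ring
        _ = _ := by rw [sum_sub_distrib, sum_sub_distrib, ← mul_sum, ← mul_sum, e']
    rw [e, h1]
    linarith
  · have k1 : ∑ a ∈ range J, (g a - m) ≤ ∑ a ∈ range J, ((⌊g a - m⌋ + 1 : ℤ) : ℝ) :=
      sum_le_sum fun a _ => by
        push_cast
        exact (Int.lt_floor_add_one _).le
    have k2 : ∑ a ∈ range J, (g a - m) = m * J * ∑ a ∈ range J, ∑ l, w l * A (x a) l -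
        J * (m * J * Q) - J - m * ∑ a ∈ range J, ∑ b ∈ range a, A (x a) (x b) - J * m := by
      simp only [g, τ, sum_sub_distrib, ← mul_sum, sum_const, card_range, nsmul_eq_mul, mul_one]
      ring
    have k3 := LEJA.neg A w hA hn h1 x J
    rw [LEJA.tri A hA x J, ← hQ'] at k3
    have k4 : J * -c ≤ ∑ a ∈ range J, A (x a) (x a) := by
      simpa using sum_le_sum (s := range J) fun a _ => hc (x a)
    have k5 : (0 : ℝ) < ∑ a ∈ range J, ((⌊g a - m⌋ + 1 : ℤ) : ℝ) := by
      refine lt_of_lt_of_le ?_ k1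
      rw [k2]
      generalize ∑ a ∈ range J, ∑ l, w l * A (x a) l = P at k3 ⊢
      generalize ∑ a ∈ range J, ∑ b ∈ range a, A (x a) (x b) = S at k3 ⊢
      have k6 : J * 2 < J * P - J * (J * Q) - S := by nlinarith [mul_lt_mul_of_pos_left J1 J0]
      have k7 := mul_lt_mul_of_pos_left k6 (by linarith : (0 : ℝ) < m)
      nlinarith [mul_le_mul_of_nonneg_left m1 J0.le]
    exact_mod_cast k5
  · have k1 := Int.floor_le (g a - m)
    have k2 := hx a i
    simp only [g] at k1 ⊢
    linarith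

end Pool.Agent.KSP

end

end MrgPart5

-- ======== part 6: formerly Pool.Agent.MP_c8dfda_nt.kp.NEF
section MrgPart6

/-! Polynomial maps of the plane: the product inequality bounds the self-intersection. -/

open Polynomial Filter Real
open scoped Topology

noncomputable section

namespace Pool.Agent.KSP

namespace NEF

theorem sum_div (g : ℕ → ℤ) {m : ℕ} (hm : 0 < m) (J : ℕ) :
    ∑ j ∈ Finset.range (m * J), g (j / m) = m * ∑ a ∈ Finset.range J, g a := by
  induction J with
  | zero => simp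
  | succ J ih =>
    rw [Nat.mul_succ, Finset.sum_range_add, ih, Finset.sum_range_succ, mul_add]
    congr 1
    have : ∀ x ∈ Finset.range m, g ((m * J + x) / m) = g J := fun x hx => by
      rw [Nat.mul_add_div hm, Nat.div_eq_of_lt (Finset.mem_range.1 hx), add_zero]
    rw [Finset.sum_congr rfl this, Finset.sum_const, Finset.card_range, nsmul_eq_mul]

theorem prod_le_exp {α : Type} (s : Multiset α) (f g : α → ℝ) (h0 : ∀ x, 0 ≤ f x)
    (h : ∀ x ∈ s, f x ≤ exp (1 - g x)) :
    (s.map f).prod ≤ exp (s.card - (s.map g).sum) := by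
  induction s using Multiset.induction_on with
  | empty => simp
  | cons a s ih =>
    rw [Multiset.map_cons, Multiset.map_cons, Multiset.prod_cons, Multiset.sum_cons,
      Multiset.card_cons]
    have h1 := h a (Multiset.mem_cons_self _ _)
    have h2 := ih fun x hx => h x (Multiset.mem_cons_of_mem hx)
    have h3 : ((s.card + 1 : ℕ) : ℝ) - (g a + (s.map g).sum) =
        (1 - g a) + (s.card - (s.map g).sum) := by push_cast; ring
    rw [h3, exp_add]
    refine mul_le_mul h1 h2 ?_ (exp_pos _).le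
    exact Multiset.prod_nonneg fun y hy => by
      obtain ⟨x, -, rfl⟩ := Multiset.mem_map.1 hy
      exact h0 x

variable {K : Type} [Field K] (W : Md K)

theorem lin_le (ζ : Pt W.n) (a : W.E × ℝ) (h1 : ζ.f X ≤ exp 1) (h2 : ζ.f (X - C a.1) ≤ exp a.2)
    (β : W.E) (s : ℝ) (hβ : W.n β ≤ exp 1) : ζ.f (X - C β) ≤ exp (1 - W.kk a (β, s)) := by
  have e1 : ζ.f (X - C β) ≤ exp 1 := (ζ.sub X (C β)).trans (max_le h1 (by rw [ζ.cst]; exact hβ))
  have e2 : ζ.f (X - C β) ≤ max (W.n (a.1 - β)) (max (exp a.2) (exp s)) := by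
    have : X - C β = (X - C a.1) + C (a.1 - β) := by rw [C_sub]; ring
    rw [this]
    refine (ζ.add _ _).trans (max_le (h2.trans ?_) ?_)
    · exact (le_max_left _ _).trans (le_max_right _ _)
    · rw [ζ.cst]; exact le_max_left _ _
  have e3 : 0 < max (W.n (a.1 - β)) (max (exp a.2) (exp s)) :=
    (exp_pos s).trans_le ((le_max_right _ _).trans (le_max_right _ _))
  show _ ≤ exp (1 - max 0 (1 - log (max (W.n (a.1 - β)) (max (exp a.2) (exp s)))))
  rcases le_total 0 (1 - log (max (W.n (a.1 - β)) (max (exp a.2) (exp s)))) with h | h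
  · rw [max_eq_right h, sub_sub_cancel, exp_log e3]; exact e2
  · rw [max_eq_left h, sub_zero]; exact e1

theorem B_sum {ι : Type} [Fintype ι] (v : ι → W.V) (x : ι → ℝ) :
    W.B (∑ i, x i • v i) (∑ i, x i • v i) = ∑ i, ∑ l, x i * x l * W.B (v i) (v l) := by
  rw [map_sum W.B, LinearMap.sum_apply]
  refine Finset.sum_congr rfl fun i _ => ?_
  rw [map_smul, LinearMap.smul_apply, map_sum, smul_eq_mul, Finset.mul_sum]
  refine Finset.sum_congr rfl fun l _ => ?_
  rw [map_smul, smul_eq_mul, mul_assoc]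

theorem A_sum {ι : Type} [Fintype ι] (v : ι → W.V) (x : ι → ℝ) :
    ∑ i, ∑ l, x i * x l * (1 - W.B (v i) (v l)) =
      (∑ i, x i) * (∑ i, x i) - W.B (∑ i, x i • v i) (∑ i, x i • v i) := by
  rw [B_sum, Finset.sum_mul_sum, ← Finset.sum_sub_distrib]
  refine Finset.sum_congr rfl fun i _ => ?_
  rw [← Finset.sum_sub_distrib]
  refine Finset.sum_congr rfl fun l _ => ?_
  ring

theorem min_le [CharZero K] (h2 : S_GAL) (ζ : Pt W.n) (a b : W.E × ℝ) (h1 : ζ.f X ≤ exp 1)
    (h3 : ζ.f (X - C a.1) ≤ exp a.2) (hb : W.In b) :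
    ζ.f (W.up (minpoly W.L b.1)) ≤
      exp ((minpoly W.L b.1).natDegree * (1 - W.B (W.av a) (W.av b))) := by
  obtain ⟨g1, -, g3, -⟩ := h2 K W
  obtain ⟨p1, -, p3, p4⟩ := g1 b.1
  have hint : IsIntegral W.L b.1 := by
    by_contra h
    rw [minpoly.eq_zero h, natDegree_zero] at p1
    exact lt_irrefl _ p1
  have hmon : (W.up (minpoly W.L b.1)).Monic := (minpoly.monic hint).map _
  rw [ζ.roots, hmon.leadingCoeff, map_one, one_mul]
  refine (prod_le_exp _ _ (fun β => W.kk a (β, b.2)) (fun β => ζ.nn _) fun β hβ => ?_).trans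
    (le_of_eq ?_)
  · obtain ⟨σ, rfl⟩ := (p4 β).1 hβ
    exact lin_le W ζ a h1 h3 _ _ (by rw [W.conj]; exact hb.1)
  · have e1 := W.B_sg_rt a (W.up (minpoly W.L b.1)) fun _ => b.2
    have e2 := g3 (minpoly W.L b.1) (fun _ => b.2) (fun _ _ => rfl) a
    have e3 : W.B (W.av a) (W.av b) = ((minpoly W.L b.1).natDegree : ℝ)⁻¹ *
        W.B (W.av a) (W.rt (W.up (minpoly W.L b.1)) fun _ => b.2) := by
      conv_lhs => rw [show W.av b = ((minpoly W.L b.1).natDegree : ℝ)⁻¹ •
        W.rt (W.up (minpoly W.L b.1)) fun _ => b.2 from rfl]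
      rw [map_smul, smul_eq_mul]
    have e4 : ((minpoly W.L b.1).natDegree : ℝ) ≠ 0 := Nat.cast_ne_zero.2 p1.ne'
    rw [← e1, ← e2, p3, e3, mul_sub, mul_one, ← mul_assoc, mul_inv_cancel₀ e4, one_mul]

theorem blocks [CharZero K] (h2 : S_GAL) {ι : Type} [Fintype ι] (ζ : ι → Pt W.n)
    (a : ι → W.E × ℝ) (h1 : ∀ i, (ζ i).f X ≤ exp 1) (hI : ∀ i, W.In (a i))
    (h3 : ∀ i, (ζ i).f (X - C (a i).1) ≤ exp (a i).2) : ∃ (m : ℕ) (P : ι → W.L[X]), 1 ≤ m ∧
      ∀ l, (P l).Monic ∧ (P l).natDegree = m ∧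
        ∀ i, (ζ i).f (W.up (P l)) ≤ exp (m * (1 - W.B (W.av (a i)) (W.av (a l)))) := by
  classical
  have hpos : ∀ l, 0 < (minpoly W.L (a l).1).natDegree := fun l => ((h2 K W).1 (a l).1).1
  have hdvd : ∀ l, ∃ k, ∏ i, (minpoly W.L (a i).1).natDegree =
      (minpoly W.L (a l).1).natDegree * k := fun l =>
    Finset.dvd_prod_of_mem (fun i => (minpoly W.L (a i).1).natDegree) (Finset.mem_univ l)
  choose k hk using hdvd
  refine ⟨∏ i, (minpoly W.L (a i).1).natDegree, fun l => minpoly W.L (a l).1 ^ k l,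
    Finset.prod_pos fun i _ => hpos i, fun l => ?_⟩
  have hint : IsIntegral W.L (a l).1 := by
    by_contra h
    have p1 := hpos l
    rw [minpoly.eq_zero h, natDegree_zero] at p1
    exact lt_irrefl _ p1
  refine ⟨(minpoly.monic hint).pow _, ?_, fun i => ?_⟩
  · rw [(minpoly.monic hint).natDegree_pow, hk l, mul_comm]
  · have e1 : W.up (minpoly W.L (a l).1 ^ k l) = W.up (minpoly W.L (a l).1) ^ k l :=
      Polynomial.map_pow _ _
    rw [e1, map_pow, hk l]
    refine (pow_le_pow_left₀ ((ζ i).nn _) (min_le W h2 (ζ i) (a i) (a l) (h1 i) (h3 i) (hI l))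
      (k l)).trans (le_of_eq ?_)
    rw [← exp_nat_mul]
    congr 1
    push_cast
    ring

theorem prod_le (ζ : Pt W.n) (P : ℕ → W.L[X]) (c : ℕ → ℝ) (h : ∀ b, ζ.f (W.up (P b)) ≤ exp (c b))
    (k : ℕ) : ζ.f (W.up (∏ b ∈ Finset.range k, P b)) ≤ exp (∑ b ∈ Finset.range k, c b) := by
  have e1 : W.up (∏ b ∈ Finset.range k, P b) = ∏ b ∈ Finset.range k, W.up (P b) :=
    Polynomial.map_prod _ _ _
  rw [e1, map_prod, exp_sum]
  exact Finset.prod_le_prod (fun b _ => ζ.nn _) fun b _ => h b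

end NEF

theorem nef (h1 : S_PSD) (h2 : S_GAL) (h3 : S_MINK) (h4 : S_LEJA) : S_NEF := by
  intro K _ _ W ι _ ζ w a hw0 hw1 hX hI hD hpf
  by_contra hlt
  rw [not_le] at hlt
  obtain ⟨m, P, hm, hP⟩ := NEF.blocks W h2 ζ a hX hI hD
  obtain ⟨J, idx, t, τ, hτ, ht, hb⟩ := h4 ι (fun i l => 1 - W.B (W.av (a i)) (W.av (a l))) w m
    (fun i l => by rw [W.B_symm])
    (fun x hx => by
      rw [NEF.A_sum, hx]
      have := h1 K W (∑ i, x i • W.av (a i))
      linarith)
    hw0 hw1 (by rw [NEF.A_sum, hw1]; linarith) hm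
  have hmon : ∀ k : ℕ, (∏ b ∈ Finset.range k, P (idx b)).Monic := fun k =>
    monic_prod_of_monic _ _ fun b _ => (hP _).1
  have hdeg : ∀ k : ℕ, (∏ b ∈ Finset.range k, P (idx b)).natDegree = m * k := fun k => by
    rw [natDegree_prod_of_monic _ _ fun b _ => (hP _).1,
      Finset.sum_congr rfl fun b _ => (hP (idx b)).2.1, Finset.sum_const, Finset.card_range,
      smul_eq_mul, mul_comm]
  obtain ⟨U, hU, hr, hΦ⟩ := h3 K W (m * J)
    (fun j => X ^ ((j : ℕ) % m) * ∏ b ∈ Finset.range ((j : ℕ) / m), P (idx b))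
    (fun j => t ((j : ℕ) / m)) fun j => ⟨(monic_X_pow _).mul (hmon _), by
      rw [(monic_X_pow _).natDegree_mul (hmon _), natDegree_X_pow, hdeg, Nat.mod_add_div]⟩
  have hsum : ∑ j : Fin (m * J), (t ((j : ℕ) / m) + 1) = m * ∑ b ∈ Finset.range J, (t b + 1) := by
    rw [← NEF.sum_div (fun b => t b + 1) hm J,
      Finset.sum_range fun j => t (j / m) + 1]
  have hrk : 0 < Module.finrank K U := by
    have : (0 : ℤ) < m * ∑ b ∈ Finset.range J, (t b + 1) :=
      mul_pos (by exact_mod_cast hm) ht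
    rw [← hsum] at this
    exact_mod_cast this.trans_le hr
  obtain ⟨⟨Φ, hΦU⟩, hΦ0⟩ := Module.finrank_pos_iff_exists_ne_zero.1 hrk
  have hΦ1 : Φ ≠ 0 := fun h => hΦ0 (Subtype.ext h)
  obtain ⟨c, hc, hev⟩ := hΦ Φ hΦU
  obtain ⟨hpos, hge⟩ := hpf Φ hΦ1
  have key : ∀ i, log ((ζ i).f (W.ev Φ)) ≤ τ i := fun i => by
    rw [log_le_iff_le_exp (hpos i), ← W.up_evL, hev, Md.up, Polynomial.map_sum]
    refine (ζ i).sum_le _ _ (exp_pos _).le fun j _ => ?_
    have hj : (j : ℕ) / m < J := Nat.div_lt_of_lt_mul j.2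
    have e1 := NEF.prod_le W (ζ i) (fun b => P (idx b))
      (fun b => m * (1 - W.B (W.av (a i)) (W.av (a (idx b))))) (fun b => (hP _).2.2 i)
      ((j : ℕ) / m)
    have e2 : (ζ i).f X ^ ((j : ℕ) % m) ≤ exp m := by
      refine (pow_le_pow_left₀ ((ζ i).nn _) (hX i) _).trans ?_
      rw [← exp_nat_mul, mul_one]
      exact exp_le_exp.2 (by exact_mod_cast (Nat.mod_lt _ hm).le)
    have e3 := hb _ hj i
    rw [Polynomial.map_mul, Polynomial.map_mul, map_C, Polynomial.map_pow, map_X, map_mul, map_mul,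
      map_pow, (ζ i).cst]
    refine (mul_le_mul (hc j) (mul_le_mul e2 e1 ((ζ i).nn _) (exp_pos _).le)
      (mul_nonneg (pow_nonneg ((ζ i).nn _) _) ((ζ i).nn _)) (exp_pos _).le).trans ?_
    rw [← exp_add, ← exp_add, ← Finset.mul_sum]
    exact exp_le_exp.2 (by linarith)
  have : ∑ i, w i * log ((ζ i).f (W.ev Φ)) ≤ ∑ i, w i * τ i :=
    Finset.sum_le_sum fun i _ => mul_le_mul_of_nonneg_left (key i) (hw0 i)
  linarith

end Pool.Agent.KSP

end

end MrgPart6

-- ======== part 7: formerly Pool.Agent.MP_c8dfda_nt.kp.KLA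
section MrgPart7

/-! Polynomial maps of the plane: two families with common thin functions are proportional. -/

open Polynomial Filter Real
open scoped Topology

noncomputable section

namespace Pool.Agent.KSP

namespace KLA

variable {K ι κ : Type} [Field K] [Fintype ι] [Fintype κ]

theorem ne_of_dg {u : R K} (h : 1 ≤ dg u) : u ≠ 0 := by
  rintro rfl
  simp at h

/-- the vector of a family is close to the vector of a thin pencil -/
theorem close (W : Md K) (hp : ∀ u : W.V, 0 ≤ W.B u u) (r a : W.V) {G : R K} (hG : 1 ≤ dg G)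
    {s : W.E → ℝ} (hs : W.Pen G s) {h Z : ℝ} (ha : W.B a a ≤ 1)
    (hab : W.B a (W.rt (W.ev G) s) = dg G - h / Z) :
    (W.B r a - W.B r ((dg G : ℝ)⁻¹ • W.rt (W.ev G) s)) ^ 2 ≤ W.B r r * (2 * (h / dg G / Z)) := by
  have hD : (0 : ℝ) < dg G := Nat.cast_pos.2 hG
  have h1 := W.cs hp r (a - (dg G : ℝ)⁻¹ • W.rt (W.ev G) s)
  rw [map_sub] at h1
  refine h1.trans (mul_le_mul_of_nonneg_left ?_ (hp r))
  have e1 : W.B ((dg G : ℝ)⁻¹ • W.rt (W.ev G) s) ((dg G : ℝ)⁻¹ • W.rt (W.ev G) s) ≤ 1 := by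
    have e := hs.sq
    simp only [map_smul, LinearMap.smul_apply, smul_eq_mul]
    rw [← mul_assoc, ← mul_inv, inv_mul_le_iff₀ (by positivity)]
    linarith
  have e2 : W.B a ((dg G : ℝ)⁻¹ • W.rt (W.ev G) s) = 1 - h / dg G / Z := by
    rw [map_smul, smul_eq_mul, hab, mul_sub, inv_mul_cancel₀ hD.ne']
    ring
  rw [W.B_sub_self, e2]
  linarith

/-- the statement in generic coordinates -/
theorem main [CharZero K] (W : Md K) (h2 : S_VEC) (h3 : S_PENV) (h4 : S_PSD) {N : ι → AV K}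
    {N' : κ → AV K} (hN : Fam N) (hN' : Fam N') (hx : ∀ i, lg (N i) (xx 0) = zz (N i))
    (hx' : ∀ i, lg (N' i) (xx 0) = zz (N' i)) {G : ℕ → R K} (hG : Thin N G) (hG' : Thin N' G)
    {φ : R K} (hφ : φ ≠ 0) : ZZ N' * Nn N φ = ZZ N * Nn N' φ := by
  have := hN.ne
  have := hN'.ne
  obtain ⟨T, hT⟩ := h2 K W ι N hN.na hN.inf hx φ hφ
  obtain ⟨T', hT'⟩ := h2 K W κ N' hN'.na hN'.inf hx' φ hφ
  have hp := h4 K W
  set r : W.V := W.rt (W.ev φ) fun _ => -max T T' with hr
  have key : ∀ n, (Nn N' φ / ZZ N' - Nn N φ / ZZ N) ^ 2 ≤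
      2 * (W.B r r * (2 * (hh N (G n) / dg (G n) / ZZ N))) +
        2 * (W.B r r * (2 * (hh N' (G n) / dg (G n) / ZZ N'))) := fun n => by
    have hne := ne_of_dg (hG.1 n)
    obtain ⟨s, hs⟩ := h3 K W (G n) (hG.1 n)
    obtain ⟨a, a1, a2, a3⟩ := hT _ (le_max_left T T') (G n) (G n) hne hne
    obtain ⟨b, b1, b2, b3⟩ := hT' _ (le_max_right T T') (G n) (G n) hne hne
    have c1 := close W hp r a (hG.1 n) hs (a1 hN.pf) (a3 _ (Or.inl rfl) s hs)
    have c2 := close W hp r b (hG.1 n) hs (b1 hN'.pf) (b3 _ (Or.inl rfl) s hs)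
    rw [W.B_symm r a, hr, a2, ← hr] at c1
    rw [W.B_symm r b, hr, b2, ← hr] at c2
    set y := W.B r ((dg (G n) : ℝ)⁻¹ • W.rt (W.ev (G n)) s)
    set p := Nn N φ / ZZ N
    set q := Nn N' φ / ZZ N'
    nlinarith [sq_nonneg ((dg φ : ℝ) - p - y + (dg φ - q - y))]
  have t : Tendsto (fun n => 2 * (W.B r r * (2 * (hh N (G n) / dg (G n) / ZZ N))) +
      2 * (W.B r r * (2 * (hh N' (G n) / dg (G n) / ZZ N')))) atTop
      (𝓝 (2 * (W.B r r * (2 * (0 / ZZ N))) + 2 * (W.B r r * (2 * (0 / ZZ N'))))) :=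
    ((((hG.2.div_const _).const_mul _).const_mul _).const_mul _).add
      ((((hG'.2.div_const _).const_mul _).const_mul _).const_mul _)
  have h5 := ge_of_tendsto' t key
  simp only [zero_div, mul_zero, add_zero] at h5
  have h6 : Nn N' φ / ZZ N' - Nn N φ / ZZ N = 0 :=
    (pow_eq_zero_iff two_ne_zero).1 (le_antisymm h5 (sq_nonneg _))
  rw [sub_eq_zero, div_eq_div_iff hN'.ZZ_pos.ne' hN.ZZ_pos.ne'] at h6
  linarith

section transport

variable {τ : R K ≃ₐ[K] R K} {σ : M K ≃ₐ[K] M K}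

theorem lg_symm (hc : Cmp (τ : R K →ₐ[K] R K) (σ : M K →ₐ[K] M K)) (v : AV K) (φ : R K) :
    lg (cp v (σ : M K →ₐ[K] M K)) (τ.symm φ) = lg v φ := by
  rw [hc.lg_cp]
  simp

theorem fam (hc : Cmp (τ : R K →ₐ[K] R K) (σ : M K →ₐ[K] M K))
    (hz : ∀ v : AV K, NA K v → zz (cp v (σ : M K →ₐ[K] M K)) = zz v) {N : ι → AV K} (hN : Fam N) :
    Fam fun i => cp (N i) (σ : M K →ₐ[K] M K) :=
  ⟨⟨fun i => (hN.na i).cp _, fun φ hφ => by
    have := hN.pf _ (hc.ne hφ)
    simpa only [Nn, hc.lg_cp] using this⟩, fun i => by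
      rw [hz _ (hN.na i)]; exact hN.inf i, hN.ne⟩

theorem thin (hc : Cmp (τ : R K →ₐ[K] R K) (σ : M K →ₐ[K] M K)) (hdg : ∀ φ, dg (τ φ) = dg φ)
    {N : ι → AV K} {G : ℕ → R K} (hG : Thin N G) :
    Thin (fun i => cp (N i) (σ : M K →ₐ[K] M K)) fun n => τ.symm (G n) := by
  have hds : ∀ φ, dg (τ.symm φ) = dg φ := fun φ => by
    rw [← hdg, AlgEquiv.apply_symm_apply]
  exact ⟨fun n => by rw [hds]; exact hG.1 n, by
    simpa only [hh, lp, lg_symm hc, hds] using hG.2⟩

end transport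

end KLA

open KLA in
theorem kla (h0 : S_OM) (h1 : S_GEN) (h2 : S_VEC) (h3 : S_PENV) (h4 : S_PSD) : S_KLA := by
  intro K ι _ _ _ N hN κ _ N' G hN' hG hG' φ hφ
  obtain ⟨W⟩ := h0 K
  obtain ⟨c, -, τ, σ, hc, -, -, hdg, hx, hz⟩ := h1 K (ι ⊕ κ) (Sum.elim N N') ∅
    (by rintro (i | i); exacts [hN.na i, hN'.na i])
    (by rintro (i | i); exacts [hN.inf i, hN'.inf i])
  have key := main W h2 h3 h4 (fam hc hz hN) (fam hc hz hN')
    (fun i => by rw [hc.lg_cp, hz _ (hN.na i)]; exact hx (Sum.inl i))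
    (fun i => by rw [hc.lg_cp, hz _ (hN'.na i)]; exact hx (Sum.inr i))
    (thin hc hdg hG) (thin hc hdg hG') (φ := τ.symm φ)
    ((map_ne_zero_iff _ τ.symm.injective).2 hφ)
  simpa only [ZZ, Nn, lg_symm hc, hz _ (hN.na _), hz _ (hN'.na _)] using key

end Pool.Agent.KSP

end

end MrgPart7

-- ======== part 8: formerly Pool.Agent.MP_c8dfda_nt.kp.PICK
section MrgPart8

/-! Polynomial maps of the plane: generic points of a disc. -/

open Polynomial Filter Real
open scoped Topology

noncomputable section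

namespace Pool.Agent.KSP

namespace PICK

variable {K : Type} [Field K] [CharZero K] (W : Md K)

open Classical in
/-- the conjugates -/
def cj (β : W.E) : Finset W.E := (W.up (minpoly W.L β)).roots.toFinset

omit [CharZero K] in
theorem cj_card (β : W.E) (h : (W.up (minpoly W.L β)).roots.Nodup) :
    (cj W β).card = (W.up (minpoly W.L β)).roots.card := by
  classical
  unfold cj
  convert Multiset.toFinset_card_of_nodup h

/-- the average of the close conjugates -/
theorem avg (hc : ∀ β β' : W.E, β' ∈ cj W β ↔ ∃ σ : W.E ≃ₐ[W.L] W.E, σ β = β') (a : W.E) {r : ℝ}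
    (hr : 0 < r) : ∃ θ : W.E, W.n (θ - a) < r ∧
      ∀ σ : W.E ≃ₐ[W.L] W.E, W.n (σ a - a) < r → σ θ = θ := by
  classical
  set S := (cj W a).filter fun b => W.n (b - a) < r with hS
  have ha : a ∈ S := Finset.mem_filter.2 ⟨(hc a a).2 ⟨1, rfl⟩, by simpa using hr⟩
  have hk : S.card ≠ 0 := Finset.card_ne_zero.2 ⟨a, ha⟩
  have hk' : (S.card : W.E) ≠ 0 := Nat.cast_ne_zero.2 hk
  refine ⟨(S.card : W.E)⁻¹ * ∑ b ∈ S, b, ?_, fun σ hσ => ?_⟩
  · have : (S.card : W.E)⁻¹ * ∑ b ∈ S, b - a = (S.card : W.E)⁻¹ * ∑ b ∈ S, (b - a) := by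
      rw [Finset.sum_sub_distrib, Finset.sum_const, nsmul_eq_mul]
      field_simp
    rw [this, map_mul, map_inv₀, W.na.natCast hk, inv_one, one_mul]
    exact KSkew.na_sum_lt W.na.1 _ _ hr fun b hb => (Finset.mem_filter.1 hb).2
  · have hm : ∀ b ∈ S, σ b ∈ S := fun b hb => by
      obtain ⟨h1, h2⟩ := Finset.mem_filter.1 hb
      obtain ⟨τ, rfl⟩ := (hc _ _).1 h1
      refine Finset.mem_filter.2 ⟨(hc _ _).2 ⟨σ * τ, rfl⟩, ?_⟩
      have : σ (τ a) - a = σ (τ a - a) + (σ a - a) := by rw [map_sub]; ring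
      rw [this]
      exact KSkew.na_add_lt W.na.1 (by rwa [W.conj]) hσ
    have him : S.image σ = S := Finset.eq_of_subset_of_card_le
      (Finset.image_subset_iff.2 hm) (Finset.card_image_of_injective _ σ.injective).ge
    rw [map_mul, map_inv₀, map_natCast, map_sum,
      ← Finset.sum_image (s := S) (g := σ) (f := fun b => b) σ.injective.injOn, him]

end PICK

open PICK in
theorem pick (h1 : S_GAL) (h2 : S_MODF) : S_PICK := by
  intro K _ _ W β s
  classical
  have hg := (h1 K W).1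
  have hc : ∀ β β' : W.E, β' ∈ cj W β ↔ ∃ σ : W.E ≃ₐ[W.L] W.E, σ β = β' := fun b b' => by
    rw [← (hg b).2.2.2 b', cj, Multiset.mem_toFinset]
  obtain ⟨γ, hγ⟩ := (h2 K W).2.1 s
  have hr : 0 < exp (s : ℝ) := exp_pos _
  choose θ hθ hfix using fun c : ℕ => avg W hc (β + c * γ) hr
  set N := (cj W β).card * (cj W γ).card with hN
  have hdeg : ∀ c, (minpoly W.L (θ c)).natDegree < N + 1 := fun c => by
    rw [← (hg _).2.2.1, ← cj_card W _ (hg _).2.1, Nat.lt_succ_iff, hN, ← Finset.card_product]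
    choose τ hτ using fun b : cj W (θ c) => (hc _ _).1 b.2
    rw [← Fintype.card_coe (cj W (θ c)), ← Finset.card_univ]
    refine Finset.card_le_card_of_injOn (fun b => (τ b β, τ b γ)) (fun b _ => ?_) fun b _ b' _ h => ?_
    · exact Finset.mem_coe.2 (Finset.mem_product.2 ⟨(hc _ _).2 ⟨_, rfl⟩, (hc _ _).2 ⟨_, rfl⟩⟩)
    · obtain ⟨e1, e2⟩ := Prod.mk.inj h
      have e3 : (τ b').symm (τ b (β + c * γ)) = β + c * γ := by
        rw [AlgEquiv.symm_apply_eq, map_add, map_mul, map_natCast, map_add, map_mul, map_natCast,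
          e1, e2]
      have e4 : (τ b').symm (τ b (θ c)) = θ c := hfix c ((τ b).trans (τ b').symm) (by
        rw [AlgEquiv.trans_apply, e3, sub_self, map_zero]; exact hr)
      rw [AlgEquiv.symm_apply_eq, hτ, hτ] at e4
      exact Subtype.ext e4
  obtain ⟨m, hm⟩ := Finite.exists_infinite_fiber
    fun c : ℕ => (⟨_, hdeg c⟩ : Fin (N + 1))
  refine ⟨m, fun Y => ?_⟩
  have hbad : ∀ y : W.E, {c : ℕ | W.n (θ c - y) < exp s}.Finite := fun y => by
    refine Set.Subsingleton.finite fun c hc1 c' hc2 => ?_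
    by_contra hne
    wlog hlt : c' < c generalizing c c'
    · exact this c' hc2 c hc1 (Ne.symm hne) (by omega)
    have e : ((c - c' : ℕ) : W.E) * γ =
        (θ c - y) - (θ c' - y) - ((θ c - (β + c * γ)) - (θ c' - (β + c' * γ))) := by
      rw [Nat.cast_sub hlt.le]; ring
    have := KSkew.na_sub_lt W.na.1 (KSkew.na_sub_lt W.na.1 hc1 hc2)
      (KSkew.na_sub_lt W.na.1 (hθ c) (hθ c'))
    rw [← e, map_mul, W.na.natCast (by omega), one_mul, hγ] at this
    exact lt_irrefl _ this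
  have hfin : (⋃ y ∈ Y.biUnion (cj W), {c : ℕ | W.n (θ c - y) < exp s}).Finite :=
    (Y.biUnion (cj W)).finite_toSet.biUnion fun y _ => hbad y
  obtain ⟨c, hc1, hc2⟩ := (Set.infinite_coe_iff.1 hm).exists_notMem_finite hfin
  refine ⟨θ c, congrArg Fin.val hc1, ?_, fun y hy σ => ?_, fun σ hσ => ?_⟩
  · have e : θ c - β = (θ c - (β + c * γ)) + c * γ := by ring
    rw [e]
    refine KSkew.na_add_le W.na.1 (hθ c).le ?_
    rw [map_mul, hγ, ← map_natCast (algebraMap K W.E)]
    exact mul_le_of_le_one_left hr.le (W.na.le_one _)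
  · by_contra hlt
    refine hc2 (Set.mem_biUnion (x := σ.symm y) (Finset.mem_coe.2
      (Finset.mem_biUnion.2 ⟨y, hy, (hc _ _).2 ⟨σ.symm, rfl⟩⟩)) ?_)
    show W.n (θ c - σ.symm y) < _
    rw [← W.conj σ, map_sub, AlgEquiv.apply_symm_apply]
    exact not_le.1 hlt
  · by_contra hlt
    refine hσ (hfix c σ ?_)
    have e : σ (β + c * γ) - (β + c * γ) =
        (σ (θ c) - θ c) + (θ c - (β + c * γ)) - σ (θ c - (β + c * γ)) := by
      rw [map_sub]; ring
    rw [e]
    exact KSkew.na_sub_lt W.na.1 (KSkew.na_add_lt W.na.1 (not_le.1 hlt) (hθ c))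
      (by rw [W.conj]; exact hθ c)

end Pool.Agent.KSP

end

end MrgPart8

-- ======== part 9: formerly Pool.Agent.MP_c8dfda_nt.kp.LATA
section MrgPart9

/-! Polynomial maps of the plane: a triangular basis of the lattice of integral polynomials. -/

open Polynomial Filter Real
open scoped Topology

noncomputable section

namespace Pool.Agent.KSP

namespace LATA

/-- a monic polynomial of small degree is not small at all points -/
theorem bound {E : Type} [Field E] (n : AbsoluteValue E ℝ) (S : Finset E) (j : ℕ)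
    (hj : j < S.card) : ∃ B : ℝ, ∀ (e : E[X]) (r : ℝ), 0 < r → e.Monic → e.natDegree = j →
      (∀ θ ∈ S, r * n (e.eval θ) ≤ 1) → r ≤ B := by
  classical
  refine ⟨∑ θ ∈ S, n ((Lagrange.basis S id θ).coeff j), fun e r hr hm hd h => ?_⟩
  have h1 : e = Lagrange.interpolate S id fun θ => e.eval (id θ) :=
    Lagrange.eq_interpolate (Set.injOn_id _) (by
      rw [degree_eq_natDegree hm.ne_zero, hd]
      exact_mod_cast hj)
  have h2 : (1 : E) = ∑ θ ∈ S, e.eval θ * (Lagrange.basis S id θ).coeff j := by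
    have h3 := congrArg (fun p : E[X] => p.coeff j) h1
    simp only [Lagrange.interpolate_apply, finsetSum_coeff, coeff_C_mul, id] at h3
    rw [← h3, ← hd]
    exact hm.coeff_natDegree.symm
  calc r = r * n 1 := by rw [map_one, mul_one]
    _ ≤ r * ∑ θ ∈ S, n (e.eval θ * (Lagrange.basis S id θ).coeff j) := by
      rw [h2]
      exact mul_le_mul_of_nonneg_left (n.sum_le _ _) hr.le
    _ ≤ _ := by
      rw [Finset.mul_sum]
      refine Finset.sum_le_sum fun θ hθ => ?_
      rw [map_mul, ← mul_assoc]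
      exact mul_le_of_le_one_left (n.nonneg _) (h θ hθ)

variable {K : Type} [Field K] (W : Md K)

/-- the extremal monic polynomial of degree `j` -/
theorem extremal {U : W.L[X]} (hs : U.Separable) (j : Fin U.natDegree) :
    ∃ (e : W.L[X]) (t : ℤ), e.Monic ∧ e.natDegree = j ∧
      (∀ θ ∈ (W.up U).roots, exp t * W.n ((W.up e).eval θ) ≤ 1) ∧
      ∀ (e' : W.L[X]) (t' : ℤ), e'.Monic → e'.natDegree = j →
        (∀ θ ∈ (W.up U).roots, exp t' * W.n ((W.up e').eval θ) ≤ 1) → t' ≤ t := by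
  classical
  have hc : (W.up U).roots.toFinset.card = U.natDegree := by
    rw [Md.up, Multiset.toFinset_card_of_nodup (nodup_roots hs.map),
      ← (IsAlgClosed.splits _).natDegree_eq_card_roots, natDegree_map]
  obtain ⟨B, hB⟩ := bound W.n (W.up U).roots.toFinset j (by rw [hc]; exact j.2)
  obtain ⟨t, ⟨e, h1, h2, h3⟩, ht⟩ := Int.exists_greatest_of_bdd
    (P := fun t : ℤ => ∃ e : W.L[X], e.Monic ∧ e.natDegree = j ∧
      ∀ θ ∈ (W.up U).roots, exp t * W.n ((W.up e).eval θ) ≤ 1)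
    ⟨⌈B⌉, fun t ⟨e, h1, h2, h3⟩ => by
      have h4 := hB (W.up e) (exp t) (exp_pos _) (h1.map _) (by rw [Md.up, natDegree_map, h2])
        fun θ hθ => h3 θ (Multiset.mem_toFinset.1 hθ)
      have h5 := add_one_le_exp (t : ℝ)
      have h6 : (t : ℝ) ≤ (⌈B⌉ : ℤ) := by linarith [Int.le_ceil B]
      exact_mod_cast h6⟩
    ⟨-⌈∑ θ ∈ (W.up U).roots.toFinset, W.n ((W.up (X ^ (j : ℕ))).eval θ)⌉, X ^ (j : ℕ),
      monic_X_pow _, natDegree_X_pow _, fun θ hθ => by
        have h4 := Finset.single_le_sum (f := fun θ => W.n ((W.up (X ^ (j : ℕ))).eval θ))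
          (fun θ _ => W.n.nonneg _) (Multiset.mem_toFinset.2 hθ)
        have h5 := Int.le_ceil (∑ θ ∈ (W.up U).roots.toFinset, W.n ((W.up (X ^ (j : ℕ))).eval θ))
        have h6 := add_one_le_exp
          ((⌈∑ θ ∈ (W.up U).roots.toFinset, W.n ((W.up (X ^ (j : ℕ))).eval θ)⌉ : ℤ) : ℝ)
        rw [Int.cast_neg, exp_neg, inv_mul_le_iff₀ (exp_pos _)]
        linarith⟩
  exact ⟨e, t, h1, h2, h3, fun e' t' a b c => ht t' ⟨e', a, b, c⟩⟩

theorem n_C_mul (c : W.L) (f : W.L[X]) (θ : W.E) :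
    W.n ((W.up (C c * f)).eval θ) = W.nL c * W.n ((W.up f).eval θ) := by
  rw [Md.up, Polynomial.map_mul, map_C, eval_mul, eval_C, map_mul]
  rfl

end LATA

open LATA in
theorem lata : S_LATA := by
  classical
  intro K _ _ W U _ hs
  choose e t h1 h2 h3 h4 using extremal W hs
  refine ⟨e, t, fun j => ⟨h1 j, h2 j⟩, h3, ?_⟩
  have key : ∀ k : ℕ, k ≤ U.natDegree → ∀ f : W.L[X], f.degree < k →
      (∀ θ ∈ (W.up U).roots, W.n ((W.up f).eval θ) ≤ 1) →
      ∃ a : Fin U.natDegree → W.L, (∀ j, W.nL (a j) ≤ exp (t j)) ∧ f = ∑ j, C (a j) * e j := by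
    intro k
    induction k with
    | zero =>
      intro _ f hf _
      have h0 : f = 0 := by
        by_contra h
        rw [degree_eq_natDegree h] at hf
        exact absurd (by exact_mod_cast hf : f.natDegree < 0) (Nat.not_lt_zero _)
      exact ⟨0, fun j => by simp [Md.nL, (exp_pos _).le], by simp [h0]⟩
    | succ k ih =>
      intro hk f hf hb
      by_cases hlt : f.degree < k
      · exact ih (by omega) f hlt hb
      have hf0 : f ≠ 0 := fun h => hlt (by rw [h, degree_zero]; exact WithBot.bot_lt_coe _)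
      have hd : f.natDegree = k := by
        rw [degree_eq_natDegree hf0] at hf hlt
        have a1 : f.natDegree < k + 1 := by exact_mod_cast hf
        have a2 : ¬ f.natDegree < k := fun h => hlt (by exact_mod_cast h)
        omega
      let j : Fin U.natDegree := ⟨k, hk⟩
      have hc : f.leadingCoeff ≠ 0 := leadingCoeff_ne_zero.2 hf0
      obtain ⟨m, hm⟩ := W.dis _ hc
      have hm' : W.nL f.leadingCoeff = exp m := hm
      have hmt : m ≤ t j := by
        refine h4 j (C f.leadingCoeff⁻¹ * f) m ?_ ?_ fun θ hθ => ?_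
        · rw [mul_comm]
          exact monic_mul_leadingCoeff_inv hf0
        · rw [natDegree_C_mul (inv_ne_zero hc), hd]
        · rw [← hm', ← n_C_mul, ← mul_assoc, ← C_mul, mul_inv_cancel₀ hc, C_1, one_mul]
          exact hb θ hθ
      have hle : W.nL f.leadingCoeff ≤ exp (t j) := by
        rw [hm']
        exact exp_le_exp.2 (by exact_mod_cast hmt)
      obtain ⟨a, ha, hfa⟩ := ih (by omega) (f - C f.leadingCoeff * e j) (by
        have h5 : f.degree = (C f.leadingCoeff * e j).degree := by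
          rw [degree_C_mul hc, degree_eq_natDegree hf0, degree_eq_natDegree (h1 j).ne_zero, hd, h2]
        have h6 := degree_sub_lt_left h5 hf0 (by
          rw [leadingCoeff_mul, leadingCoeff_C, (h1 j).leadingCoeff, mul_one])
        rwa [degree_eq_natDegree hf0, hd] at h6) (fun θ hθ => by
          rw [Md.up, Polynomial.map_sub, eval_sub]
          refine KSkew.na_sub_le W.na.1 (hb θ hθ) ?_
          refine (n_C_mul W _ _ θ).le.trans (le_trans ?_ (h3 j θ hθ))
          exact mul_le_mul_of_nonneg_right hle (W.n.nonneg _))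
      refine ⟨a + Pi.single j f.leadingCoeff, fun i => ?_, ?_⟩
      · by_cases hi : i = j
        · subst hi
          rw [Pi.add_apply, Pi.single_eq_same, Md.nL, map_add]
          exact KSkew.na_add_le W.na.1 (ha _) hle
        · rw [Pi.add_apply, Pi.single_eq_of_ne hi, add_zero]
          exact ha i
      · simp only [Pi.add_apply, C_add, add_mul, Finset.sum_add_distrib]
        rw [← hfa, Finset.sum_eq_single j (fun i _ hi => by
          rw [Pi.single_eq_of_ne hi, C_0, zero_mul]) (fun h => absurd (Finset.mem_univ _) h),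
          Pi.single_eq_same, sub_add_cancel]
  exact key _ le_rfl

end Pool.Agent.KSP

end

end MrgPart9

-- ======== part 10: formerly Pool.Agent.MP_c8dfda_nt.kp.RAT
section MrgPart10

/-! Row RAT: rational points of a rational cone. -/

open Polynomial Filter Real
open scoped Topology

noncomputable section

namespace Pool.Agent.KSP

namespace RAT

/-- A rational functional that is positive on finitely many positive reals. -/
theorem exists_fun {J : Type} [Finite J] (x : J → ℝ) (hx : ∀ j, 0 < x j) :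
    ∃ l : ℝ →ₗ[ℚ] ℚ, ∀ j, 0 < l (x j) := by
  let b := Module.Basis.ofVectorSpace ℚ ℝ
  let f : ℝ → (Module.Basis.ofVectorSpaceIndex ℚ ℝ → ℝ) → ℝ := fun t y =>
    ∑ k ∈ (b.repr t).support, (b.repr t k : ℝ) * y k
  have hc : ∀ t, Continuous (f t) := fun t =>
    continuous_finsetSum _ fun k _ => continuous_const.mul (continuous_apply k)
  have ho : IsOpen (⋂ j, {y | 0 < f (x j) y}) :=
    isOpen_iInter_of_finite fun j => isOpen_lt continuous_const (hc _)
  have hb : ∀ t, f t (fun k => b k) = t := fun t => by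
    have := b.linearCombination_repr t
    rw [Finsupp.linearCombination_apply, Finsupp.sum] at this
    simpa only [f, Rat.smul_def] using this
  have hd : DenseRange (Pi.map fun (_ : Module.Basis.ofVectorSpaceIndex ℚ ℝ) => ((↑) : ℚ → ℝ)) :=
    DenseRange.piMap fun _ => Rat.denseRange_cast
  obtain ⟨q, hq⟩ := hd.exists_mem_open ho
    ⟨fun k => b k, Set.mem_iInter.2 fun j => by
      show 0 < f (x j) _
      rw [hb]; exact hx j⟩
  refine ⟨b.constr ℚ q, fun j => ?_⟩
  have h1 : 0 < f (x j) _ := Set.mem_iInter.1 hq j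
  have h2 : ((b.constr ℚ q (x j) : ℚ) : ℝ) = f (x j) (Pi.map (fun _ => ((↑) : ℚ → ℝ)) q) := by
    rw [Module.Basis.constr_apply, Finsupp.sum]
    simp only [f, smul_eq_mul, Pi.map_apply]
    push_cast
    rfl
  rw [← h2] at h1
  exact_mod_cast h1

/-- A common denominator. -/
theorem exists_den {I : Type} [Fintype I] (y : I → ℚ) (hy : ∀ i, 0 < y i) :
    ∃ N : ℚ, 0 < N ∧ ∀ i, ∃ n : ℕ, (n : ℚ) = N * y i := by
  classical
  refine ⟨((∏ i, (y i).den : ℕ) : ℚ), by
    exact_mod_cast Finset.prod_pos fun i _ => (y i).den_pos, fun i => ?_⟩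
  obtain ⟨r, hr⟩ : (y i).den ∣ ∏ k, (y k).den := Finset.dvd_prod_of_mem _ (Finset.mem_univ i)
  obtain ⟨m, hm⟩ := Int.eq_ofNat_of_zero_le (Rat.num_nonneg.2 (hy i).le)
  refine ⟨r * m, ?_⟩
  have h := Rat.den_mul_eq_num (y i)
  rw [hm] at h
  rw [hr]
  push_cast at h ⊢
  rw [← h]
  ring

end RAT

theorem rat : S_RAT := by
  intro I _ A c z hz hA hc
  obtain ⟨l, hl⟩ := RAT.exists_fun
    (fun j : Option I => j.elim (if 0 < ∑ i, c i * z i then ∑ i, c i * z i else 1) z) (by
      rintro (_ | i)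
      · show 0 < ite _ _ _
        split_ifs with h
        · exact h
        · exact one_pos
      · exact hz i)
  have lin : ∀ a : I → ℚ, l (∑ i, a i * z i) = ∑ i, a i * l (z i) := fun a => by
    rw [map_sum]
    exact Finset.sum_congr rfl fun i _ => by rw [← Rat.smul_def, map_smul, smul_eq_mul]
  have hp : ∀ i, 0 < l (z i) := fun i => hl (some i)
  obtain ⟨N, hN, hw⟩ := RAT.exists_den (fun i => l (z i)) hp
  choose w hw using hw
  have key : ∀ a : I → ℚ, ∑ i, a i * w i = N * l (∑ i, a i * z i) := fun a => by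
    rw [lin, Finset.mul_sum]
    exact Finset.sum_congr rfl fun i _ => by rw [hw]; ring
  refine ⟨w, fun i => ?_, fun k => by rw [key, hA, map_zero, mul_zero], ?_⟩
  · have : (0 : ℚ) < w i := by rw [hw]; exact mul_pos hN (hp i)
    exact_mod_cast this
  · rw [key]
    refine mul_nonneg hN.le ?_
    rcases hc.eq_or_lt with h | h
    · rw [← h, map_zero]
    · have := hl none
      simp only [Option.elim, if_pos h] at this
      exact this.le

end Pool.Agent.KSP

end

end MrgPart10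

-- ======== part 11: formerly Pool.Agent.MP_c8dfda_nt.kp.ORD
section MrgPart11

/-! Polynomial maps of the plane: orders of vanishing and degrees. -/

open Polynomial Filter Real
open scoped Topology

noncomputable section

namespace Pool.Agent.KSP

namespace ORD

variable {K : Type} [Field K]

theorem od_ex (c : R K) (hc : Prime c) : ∃ o, Od c o := by
  have fin : ∀ {a : R K}, a ≠ 0 → FiniteMultiplicity c a := fun h => .of_prime_left hc h
  obtain ⟨v, hv, h⟩ := exists_AV (fun φ : R K => -(multiplicity c φ : ℝ))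
    (fun a b ha hb => by
      rw [multiplicity_mul hc (fin (mul_ne_zero ha hb))]
      push_cast
      ring)
    (fun a b _ _ hab => by
      have k : min (multiplicity c a) (multiplicity c b) ≤ multiplicity c (a + b) :=
        (fin hab).le_multiplicity_of_pow_dvd (dvd_add (pow_dvd_of_le_multiplicity (min_le_left _ _))
          (pow_dvd_of_le_multiplicity (min_le_right _ _)))
      rcases min_le_iff.1 k with k | k
      · exact le_max_of_le_left (neg_le_neg (Nat.cast_le.2 k))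
      · exact le_max_of_le_right (neg_le_neg (Nat.cast_le.2 k)))
    (fun k hk => by
      have : ¬c ∣ cc k := fun d => hc.not_isUnit
        (isUnit_of_dvd_unit d ((Ne.isUnit hk).map (MvPolynomial.C : K →+* R K)))
      rw [multiplicity_eq_zero.2 this, Nat.cast_zero, neg_zero])
  refine ⟨v, hv, fun φ => ?_, ?_, fun φ k => ?_⟩
  · by_cases h0 : φ = 0
    · simp [h0]
    · rw [← exp_lg v h0, h φ h0]
      exact exp_le_one_iff.2 (neg_nonpos.2 (Nat.cast_nonneg _))
  · rw [← exp_lg v hc.ne_zero, h c hc.ne_zero, multiplicity_self, Nat.cast_one]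
  · have h0 : φ ≠ 0 := fun e => k (e ▸ dvd_zero c)
    rw [← exp_lg v h0, h φ h0, multiplicity_eq_zero.2 k, Nat.cast_zero, neg_zero, exp_zero]

theorem od_eq (c c' : R K) (o o' : AV K) (hc : Prime c) (ha : Associated c c') (h : Od c o)
    (h' : Od c' o') : o = o' := by
  have e : o' (io c) = exp (-1) := by
    obtain ⟨u, hu⟩ := ha.symm
    rw [← hu, map_mul, map_mul, h'.self, h'.one u fun d =>
      (ha.prime hc).not_isUnit (isUnit_of_dvd_unit d u.isUnit), mul_one]
  refine av_ext fun φ => ?_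
  by_cases h0 : φ = 0
  · simp [h0]
  obtain ⟨n, ψ, k, rfl⟩ := WfDvdMonoid.max_power_factor h0 hc.irreducible
  simp only [map_mul, map_pow]
  rw [h.self, e, h.one ψ k, h'.one ψ fun d => k (ha.dvd.trans d)]

theorem od_int (a : M K) (h : ∀ (c : R K) (o : AV K), Prime c → Od c o → o a ≤ 1) :
    ∃ φ, io φ = a := by
  refine IsFractionRing.isInteger_of_isUnit_den (A := R K) ?_
  by_contra hu
  have d0 : (IsFractionRing.den (R K) a : R K) ≠ 0 := nonZeroDivisors.coe_ne_zero _
  obtain ⟨c, hc, e, he⟩ := WfDvdMonoid.exists_irreducible_factor hu d0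
  obtain ⟨o, ho⟩ := od_ex c hc.prime
  have n1 : o (io (IsFractionRing.num (R K) a)) = 1 := ho.one _ fun d =>
    hc.not_isUnit (IsFractionRing.num_den_reduced (R K) a d ⟨e, he⟩)
  have d1 : o (io (IsFractionRing.den (R K) a : R K)) < 1 := by
    rw [he, map_mul, map_mul, ho.self]
    exact (mul_le_of_le_one_right (exp_pos _).le (ho.le e)).trans_lt
      (exp_lt_one_iff.2 (by norm_num))
  have k := h c o hc.prime ho
  rw [← IsFractionRing.mk'_num_den' (R K) a, map_div₀, n1, div_le_one (o.pos (io_ne d0))] at k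
  exact absurd k d1.not_ge

theorem deg_ex (j : Fin 2) : ∃ v : AV K, NA K v ∧ ∀ φ, lg v φ = φ.degreeOf j := by
  obtain ⟨v, hv, h⟩ := exists_AV (fun φ : R K => (φ.degreeOf j : ℝ))
    (fun a b ha hb => by rw [MvPolynomial.degreeOf_mul_eq ha hb, Nat.cast_add])
    (fun a b _ _ _ => by exact_mod_cast MvPolynomial.degreeOf_add_le j a b)
    (fun k _ => by rw [MvPolynomial.degreeOf_C, Nat.cast_zero])
  refine ⟨v, hv, fun φ => ?_⟩
  by_cases h0 : φ = 0
  · simp [h0]
  · exact h φ h0

theorem dg_ex (s : R K →ₐ[K] R K) (hs : Function.Injective s) :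
    ∃ v : AV K, NA K v ∧ ∀ φ, lg v φ = dg (s φ) := by
  have ne : ∀ {φ : R K}, φ ≠ 0 → s φ ≠ 0 := fun h => (map_ne_zero_iff _ hs).2 h
  obtain ⟨v, hv, h⟩ := exists_AV (fun φ : R K => (dg (s φ) : ℝ))
    (fun a b ha hb => by rw [map_mul, dg_mul (ne ha) (ne hb), Nat.cast_add])
    (fun a b _ _ _ => by
      rw [map_add]
      exact_mod_cast MvPolynomial.totalDegree_add (s a) (s b))
    (fun k _ => by
      rw [MvPolynomial.algHom_C, MvPolynomial.algebraMap_eq, dg, MvPolynomial.totalDegree_C,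
        Nat.cast_zero])
  refine ⟨v, hv, fun φ => ?_⟩
  by_cases h0 : φ = 0
  · simp [h0]
  · exact h φ h0

theorem cmp_ex (s : R K →ₐ[K] R K) (hs : Function.Injective s) : ∃ σ, Cmp s σ := by
  have hg : Function.Injective ((IsScalarTower.toAlgHom K (R K) (M K)).comp s) := io_inj.comp hs
  exact ⟨IsFractionRing.liftAlgHom hg, fun φ => IsFractionRing.lift_algebraMap hg φ⟩

end ORD

theorem ord : S_ORD := fun _ _ =>
  ⟨ORD.od_ex, ORD.od_eq, ORD.od_int, ORD.deg_ex, fun s hs => ⟨ORD.cmp_ex s hs, ORD.dg_ex s hs⟩⟩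

end Pool.Agent.KSP

end

end MrgPart11

-- ======== part 12: formerly Pool.Agent.MP_c8dfda_nt.kp.ORF
section MrgPart12

/-! Polynomial maps of the plane: removing finitely many primes. -/

open Polynomial Filter Real
open scoped Topology

noncomputable section

namespace Pool.Agent.KSP

namespace ORF

variable {K : Type} [Field K]

theorem val_poly {c : R K} {o : AV K} (hc : Prime c) (ho : Od c o) {φ : R K} (hφ : φ ≠ 0) :
    ∃ k : ℕ, o (io φ) = exp (-(k : ℝ)) := by
  obtain ⟨n, ψ, h1, rfl⟩ := WfDvdMonoid.max_power_factor hφ hc.irreducible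
  refine ⟨n, ?_⟩
  rw [map_mul, map_mul, map_pow, map_pow, ho.one ψ h1, ho.self, mul_one, ← exp_nat_mul, mul_neg_one]

theorem val {c : R K} {o : AV K} (hc : Prime c) (ho : Od c o) {a : M K} (ha : a ≠ 0) :
    ∃ k : ℤ, o a = exp (-(k : ℝ)) := by
  obtain ⟨f, g, hg, rfl⟩ := exists_io a
  have hf : f ≠ 0 := by
    rintro rfl
    simp at ha
  obtain ⟨k, hk⟩ := val_poly hc ho hf
  obtain ⟨l, hl⟩ := val_poly hc ho hg
  refine ⟨k - l, ?_⟩
  rw [map_div₀, hk, hl, ← exp_sub]
  congr 1
  push_cast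
  ring

theorem one_of_not {c c' : R K} {o : AV K} (hc : Prime c) (hc' : Prime c') (ho : Od c o)
    (h : ¬ Associated c c') : o (io c') = 1 :=
  ho.one c' fun hd => h (hc.associated_of_dvd hc' hd)

end ORF

open ORF in
theorem orf (h : S_ORD) : S_ORF := by
  intro K J _ _ c o hc hne a ha hle
  classical
  obtain ⟨-, h2, h3, -⟩ := h K
  choose k hk using fun j => val (hc j).1 (hc j).2 ha
  set P : M K := ∏ j, io (c j) ^ k j with hP
  have hP0 : P ≠ 0 := Finset.prod_ne_zero_iff.2 fun j _ => zpow_ne_zero _ (io_ne (hc j).1.ne_zero)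
  have hoP : ∀ v : AV K, v P = ∏ j, v (io (c j)) ^ k j := fun v => by
    rw [hP, map_prod]
    exact Finset.prod_congr rfl fun j _ => map_zpow₀ v _ _
  obtain ⟨φ, hφ⟩ := h3 (a / P) fun c' o' hc' ho' => by
    rw [map_div₀, hoP]
    by_cases hx : ∃ j, Associated (c j) c'
    · obtain ⟨j, hj⟩ := hx
      rw [← h2 _ _ _ _ (hc j).1 hj (hc j).2 ho', hk, Finset.prod_eq_single j
        (fun l _ hl => by rw [one_of_not (hc j).1 (hc l).1 (hc j).2 (hne hl.symm), one_zpow])
        (by simp), (hc j).2.self, ← rpow_intCast, ← exp_mul, neg_one_mul, div_self (exp_ne_zero _)]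
    · rw [Finset.prod_eq_one fun l _ => by
        rw [one_of_not hc' (hc l).1 ho' fun hx' => hx ⟨l, hx'.symm⟩, one_zpow], div_one]
      exact hle c' o' hc' ho' fun j hj => hx ⟨j, hj⟩
  refine ⟨φ, k, ?_, by rw [hφ, div_mul_cancel₀ _ hP0], fun j => by rw [hk, log_exp]⟩
  rintro rfl
  rw [map_zero] at hφ
  exact div_ne_zero ha hP0 hφ.symm

end Pool.Agent.KSP

end

end MrgPart12

-- ======== part 13: formerly Pool.Agent.MP_c8dfda_nt.kp.PEN0
section MrgPart13

/-! A function of height zero gives an invariant pencil. -/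

open Polynomial Filter Real
open scoped Topology

noncomputable section

namespace Pool.Agent.KSP

namespace PEN0

theorem hh_zero {K ι : Type} [Field K] [Fintype ι] {N : ι → AV K} {u : R K}
    (h : ∀ i, lg (N i) u ≤ 0) : hh N u = 0 :=
  Finset.sum_eq_zero fun i _ => max_eq_left (h i)

end PEN0

theorem pen0 (h1 : S_KLB) (h2 : S_THIN) (h3 : S_ORD) : S_PEN0 := by
  intro K ι _ _ _ N s σ δ β hc hl hβ hβδ hs m μ u _ hp hu hle
  have hcm := hc.pow m
  have hinj : Function.Injective (s ^ m) := hcm.inj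
  have hu' : 1 ≤ dg ((s ^ m) u) := one_le_dg_map hinj hu
  have z1 : hh N u = 0 := PEN0.hh_zero hle
  have z2 : hh N ((s ^ m) u) = 0 := PEN0.hh_zero fun i => by
    rw [hp.lg_eq hcm]
    exact mul_nonpos_of_nonneg_of_nonpos hp.pos.le (hle i)
  obtain ⟨k1, k2⟩ := h1 K ι N hs.1 u hu z1
  obtain ⟨v, hv, hlg⟩ := ((h3 K).2.2.2.2 (s ^ m) hinj).2
  have hhv : ∀ φ, hh (fun _ : Unit => v) φ = dg ((s ^ m) φ) := fun φ => by
    rw [hh, Fintype.sum_unique, lp, hlg]
    exact max_eq_right (Nat.cast_nonneg _)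
  have hF : Fam (fun _ : Unit => v) := by
    refine ⟨⟨fun _ => hv, fun φ _ => ?_⟩, fun _ => ?_, inferInstance⟩
    · rw [Nn, Fintype.sum_unique, hlg]
      exact Nat.cast_nonneg _
    · refine lt_of_lt_of_le ?_ (lg_xx_le v 0)
      rw [hlg]
      have : 1 ≤ dg ((s ^ m) (xx 0)) :=
        one_le_dg_map hinj (MvPolynomial.totalDegree_X (R := K) (0 : Fin 2)).ge
      exact_mod_cast this
  have hu0 : (0 : ℝ) < dg u := by exact_mod_cast hu
  refine ⟨u, hu, ?_, fun η hη => k2 _ hu' z2 η hη⟩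
  rw [← le_div_iff₀ hu0]
  refine (h2 K ι N s σ δ β hc hl hβ hβδ hs).2.2 m _ fun G hG ε hε => ?_
  have ht := k1 Unit (fun _ => v) G hF hG
  simp only [hhv] at ht
  filter_upwards [ht.eventually (gt_mem_nhds (lt_add_of_pos_right _ hε))] with n hn
  have hG0 : (0 : ℝ) < dg (G n) := by exact_mod_cast hG.1 n
  exact ((div_lt_iff₀ hG0).1 hn).le

end Pool.Agent.KSP

end

end MrgPart13

-- ======== part 14: formerly Pool.Agent.MP_c8dfda_nt.kp.PEN1
section MrgPart14

/-! Polynomial maps of the plane, row PEN1: domination gives an integral equation. -/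

open Polynomial Filter Real
open scoped Topology

noncomputable section

namespace Pool.Agent.KSP

namespace PEN1

theorem ev_le {A F : Type} [CommRing A] [Field F] (f : A →+* F) {v : AbsoluteValue F ℝ}
    (hv : IsNonarchimedean v) (h1 : ∀ c, c ≠ 0 → v (f c) = 1) {a : F} (ha : 1 ≤ v a) (p : A[X]) :
    v (p.eval₂ f a) ≤ v a ^ p.natDegree := by
  rw [eval₂_eq_sum_range]
  refine KSkew.na_sum_le hv _ _ (by positivity) fun i hi => ?_
  rw [map_mul, map_pow]
  have h2 : v a ^ i ≤ v a ^ p.natDegree :=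
    pow_le_pow_right₀ ha (Nat.lt_succ_iff.1 (Finset.mem_range.1 hi))
  refine (mul_le_of_le_one_left (by positivity) ?_).trans h2
  by_cases h : p.coeff i = 0
  · simp [h]
  · exact (h1 _ h).le

theorem ev_ne {A F : Type} [CommRing A] [Field F] (f : A →+* F) {v : AbsoluteValue F ℝ}
    (hv : IsNonarchimedean v) (h1 : ∀ c, c ≠ 0 → v (f c) = 1) {a : F} (ha : 1 < v a) {p : A[X]}
    (hp : p ≠ 0) : p.eval₂ f a ≠ 0 := fun h => by
  have e := congrArg (eval₂ f a) (eraseLead_add_C_mul_X_pow p)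
  rw [h, eval₂_add, eval₂_mul, eval₂_C, eval₂_X_pow] at e
  have e2 : v (p.eraseLead.eval₂ f a) = v a ^ p.natDegree := by
    rw [eq_neg_of_add_eq_zero_left e, v.map_neg, map_mul, map_pow,
      h1 _ (leadingCoeff_ne_zero.2 hp), one_mul]
  rcases eraseLead_natDegree_lt_or_eraseLead_eq_zero p with h0 | h0
  · exact absurd (e2 ▸ ev_le f hv h1 ha.le p.eraseLead) (not_le.2 (pow_lt_pow_right₀ ha h0))
  · rw [h0, eval₂_zero, map_zero] at e2
    exact absurd e2 (by positivity)

variable {K : Type} [Field K]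

theorem io_aeval (y : R K) (p : K[X]) : io (aeval y p) = aeval (io y) p :=
  (aeval_algebraMap_apply (M K) y p).symm

theorem inj (b : R K) (i j : Fin 2) (hij : j ≠ i) (hb : 0 < b.degreeOf i)
    (h : ∀ j, ∃ v : AV K, NA K v ∧ ∀ φ, lg v φ = φ.degreeOf j) :
    Function.Injective (MvPolynomial.aeval ![b, xx j] : R K →ₐ[K] R K) := by
  obtain ⟨v, hv, hl⟩ := h i
  obtain ⟨w, hw, hl'⟩ := h j
  have b0 : b ≠ 0 := fun e => by simp [e] at hb
  have h1 : 1 < v (io b) := by
    rw [← exp_lg v b0, hl]; exact one_lt_exp_iff.2 (Nat.cast_pos.2 hb)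
  have h2 : 1 < w (io (xx j)) := by
    rw [← exp_lg w (xx_ne j), hl', MvPolynomial.degreeOf_X, if_pos rfl]
    exact one_lt_exp_iff.2 (by simp)
  have h3 : v (io (xx j)) = 1 := by
    rw [← exp_lg v (xx_ne j), hl, MvPolynomial.degreeOf_X, if_neg hij.symm]; simp
  have h4 : ∀ p : K[X], p ≠ 0 → v (io (aeval (xx j : R K) p)) = 1 := fun p hp => by
    have n0 : aeval (xx j : R K) p ≠ 0 := fun e => by
      have := hw.aeval_eq h2 hp
      rw [← io_aeval, e, map_zero, map_zero] at this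
      exact absurd this (by positivity)
    refine le_antisymm ?_ ?_
    · rw [io_aeval]; simpa using hv.aeval_le le_rfl h3.le p
    · rw [← exp_lg v n0, hl]; exact one_le_exp (Nat.cast_nonneg _)
  rw [injective_iff_map_eq_zero]
  intro φ hφ
  obtain ⟨q, rfl⟩ := (Bivariate.equivMvPolynomial K).surjective φ
  obtain ⟨q, rfl⟩ := (Bivariate.swap (R := K)).surjective q
  by_contra n0
  have q0 : q ≠ 0 := fun e => n0 (by rw [e, map_zero, map_zero])
  rw [KSkew.TOP.aeval_equiv, Bivariate.aevalAeval_swap, KSkew.TOP.aa_sum] at hφ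
  refine ev_ne (io.comp (aeval (xx j : R K) : K[X] →ₐ[K] R K).toRingHom) hv.1 h4 h1 q0 ?_
  rw [← hom_eval₂, eval₂_eq_sum_range]
  exact (congrArg io hφ).trans (map_zero _)

end PEN1

open PEN1 in
theorem pen1 (h1 : S_EMB) (h2 : S_ORD) : S_PEN1 := by
  intro K _ _ a b hb hab
  obtain ⟨-, -, o3, o4, o5⟩ := h2 K
  obtain ⟨j, hj⟩ : ∃ j, Function.Injective (MvPolynomial.aeval ![b, xx j] : R K →ₐ[K] R K) := by
    by_cases h0 : 0 < b.degreeOf 0
    · exact ⟨1, inj b 0 1 (by decide) h0 o4⟩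
    by_cases h1 : 0 < b.degreeOf 1
    · exact ⟨0, inj b 1 0 (by decide) h1 o4⟩
    have : b.vars = ∅ := Finset.eq_empty_of_forall_notMem fun i hi => by
      have := MvPolynomial.mem_vars_iff_degreeOf_ne_zero.1 hi
      fin_cases i
      · exact h0 (Nat.pos_of_ne_zero this)
      · exact h1 (Nat.pos_of_ne_zero this)
    rw [MvPolynomial.vars_eq_empty_iff_eq_C.1 this, dg, MvPolynomial.totalDegree_C] at hb
    omega
  obtain ⟨⟨σ, hσ⟩, -⟩ := o5 _ hj
  have s0 : σ (io (xx 0)) = io b := by rw [hσ]; simp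
  obtain ⟨e1, ch, tr, e2, -, -, e3⟩ := h1 K σ
  obtain ⟨m1, m2, m3⟩ := e2 (io a)
  have key : ∀ v : AV K, NA K v → ∀ i,
      v ((ch (io a)).coeff i) ≤ max 1 (v (io (xx 0))) ^ (qq σ - i) := fun v hv i => by
    obtain ⟨η₀, k1, k2⟩ := e1 v hv
    obtain ⟨η, -, k3, k4⟩ := e3 η₀ k1
    rw [← k2]
    refine ((k4 (io a)).2 _ fun k => ?_).2 i
    have := exp_le_exp.2 (hab (η k) (k3 k).1)
    rw [exp_lp, exp_lp, ← s0, (k3 k).2, k2] at this
    exact (le_max_right _ _).trans this
  obtain ⟨v0, n0, l0⟩ := o4 0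
  obtain ⟨v1, n1, l1⟩ := o4 1
  have hq : 1 ≤ qq σ := by
    obtain ⟨η, ⟨k, -⟩, -⟩ := e3 v0 n0
    exact k.pos
  have x0 : v0 (io (xx 0)) = exp 1 := by
    rw [← exp_lg v0 (xx_ne 0), l0, MvPolynomial.degreeOf_X, if_pos rfl]; simp
  have x1 : v1 (io (xx 0)) = 1 := by
    rw [← exp_lg v1 (xx_ne 0), l1, MvPolynomial.degreeOf_X, if_neg (by decide)]; simp
  have hp : ∀ i, ∃ p : K[X], p.natDegree ≤ qq σ - i ∧
      io (aeval (xx 0 : R K) p) = (ch (io a)).coeff i := fun i => by
    obtain ⟨φ, hφ⟩ := o3 ((ch (io a)).coeff i) fun c o _ ho => by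
      simpa [max_eq_left (ho.le (xx 0))] using key o ho.na i
    have d1 : φ.degreeOf 1 = 0 := by
      have := key v1 n1 i
      rw [x1, max_self, one_pow, ← hφ] at this
      have h3 : lg v1 φ ≤ 0 := log_nonpos (v1.nonneg _) this
      rw [l1] at h3
      exact_mod_cast le_antisymm h3 (Nat.cast_nonneg _)
    obtain ⟨p, rfl⟩ := KSkew.TOP.exists_p φ d1
    refine ⟨p, ?_, hφ⟩
    by_cases p0 : p = 0
    · simp [p0]
    have e : (1 : ℝ) < exp 1 := one_lt_exp_iff.2 one_pos
    have := key v0 n0 i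
    rw [← hφ, io_aeval, n0.aeval_eq (by rw [x0]; exact e) p0, x0, max_eq_right e.le] at this
    exact (pow_le_pow_iff_right₀ e).1 this
  choose p p1 p2 using hp
  refine ⟨qq σ, p, hq, fun i _ => p1 i, io_inj ?_⟩
  rw [eval₂_eq_sum_range, m2, Finset.sum_range_succ, ← m2, m1.coeff_natDegree, map_one, one_mul,
    m2, add_comm] at m3
  rw [map_zero, ← m3, map_add, map_pow, map_sum]
  congr 1
  refine Finset.sum_congr rfl fun i _ => ?_
  rw [map_mul, map_pow, ← p2, io_aeval, io_aeval, ← s0, aeval_algHom_apply]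
  rfl

end Pool.Agent.KSP

end

end MrgPart14

-- ======== part 15: formerly Pool.Agent.MP_c8dfda_nt.kp.PEN2
section MrgPart15

/-! Polynomial maps of the plane: heights of elements with a weighted integral equation. -/

open Polynomial Filter Real
open scoped Topology

noncomputable section

namespace Pool.Agent.KSP

namespace PEN2

variable {K : Type} [Field K]

/-- the local bound -/
theorem loc (v : AbsoluteValue K ℝ) {n : ℕ} {p : ℕ → K[X]} (hn : 1 ≤ n)
    (hp : ∀ j < n, (p j).natDegree ≤ n - j) {a b : K}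
    (h : a ^ n + ∑ j ∈ Finset.range n, (p j).eval b * a ^ j = 0) {T M : ℝ} (hT1 : 1 ≤ T)
    (hT : ∀ (f : ℕ → ℕ → K) (B : ℝ), 0 ≤ B → (∀ j < n, ∀ i < n + 1, v (f j i) ≤ B) →
      v (∑ j ∈ Finset.range n, ∑ i ∈ Finset.range (n + 1), f j i) ≤ T * B)
    (hM1 : 1 ≤ M) (hM : ∀ j < n, ∀ i < n + 1, v ((p j).coeff i) ≤ M) :
    max (v a) 1 ≤ T * (M * max (v b) 1) := by
  have hB : 1 ≤ max (v b) 1 := le_max_right _ _
  have h1 : max (v b) 1 ≤ T * (M * max (v b) 1) :=
    (le_mul_of_one_le_left (by positivity) hM1).trans (le_mul_of_one_le_left (by positivity) hT1)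
  refine max_le ?_ (hB.trans h1)
  by_contra hc
  have h2 : max (v b) 1 ≤ v a := h1.trans (not_le.1 hc).le
  have h3 : 0 < v a := by linarith
  obtain ⟨e, rfl⟩ : ∃ e, n = e + 1 := ⟨n - 1, by omega⟩
  have h4 : ∑ j ∈ Finset.range (e + 1), (p j).eval b * a ^ j =
      ∑ j ∈ Finset.range (e + 1), ∑ i ∈ Finset.range (e + 1 + 1),
        (p j).coeff i * b ^ i * a ^ j := by
    refine Finset.sum_congr rfl fun j hj => ?_
    have := hp j (Finset.mem_range.1 hj)
    rw [eval_eq_sum_range' (n := e + 1 + 1) (by omega), Finset.sum_mul]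
  have h5 := hT (fun j i => (p j).coeff i * b ^ i * a ^ j) (M * max (v b) 1 * v a ^ e)
    (by positivity) fun j hj i hi => by
      by_cases k : i + j ≤ e + 1
      · rw [map_mul, map_mul, map_pow, map_pow, mul_assoc, mul_assoc]
        refine mul_le_mul (hM j hj i hi) ?_ (by positivity) (by positivity)
        obtain ⟨d, rfl⟩ : ∃ d, e = d + j := ⟨e - j, by omega⟩
        rw [pow_add, ← mul_assoc]
        refine mul_le_mul_of_nonneg_right ?_ (by positivity)
        calc v b ^ i ≤ max (v b) 1 ^ i := pow_le_pow_left₀ (v.nonneg b) (le_max_left _ _) i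
          _ ≤ max (v b) 1 ^ (d + 1) := pow_le_pow_right₀ hB (by omega)
          _ ≤ max (v b) 1 * v a ^ d := by
            rw [pow_succ']
            exact mul_le_mul_of_nonneg_left (pow_le_pow_left₀ (by positivity) h2 d)
              (by positivity)
      · have := hp j hj
        rw [coeff_eq_zero_of_natDegree_lt (by omega), zero_mul, zero_mul, map_zero]
        positivity
  rw [← h4, ← neg_eq_iff_add_eq_zero.2 h, v.map_neg, map_pow, pow_succ', ← mul_assoc] at h5
  exact hc (le_of_mul_le_mul_right h5 (pow_pos h3 e))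

end PEN2

theorem pen2 : S_PEN2 := by
  intro K _ _ n p hn hp
  let c : ℕ → K := fun k => (p k.unpair.1).coeff k.unpair.2
  have hn' : (1 : ℝ) ≤ n := by exact_mod_cast hn
  have hT : (1 : ℝ) ≤ n * (n + 1) := by nlinarith
  refine ⟨Height.totalWeight K * log (n * (n + 1)) +
    ∑ k ∈ Finset.range ((n + 1) ^ 2), Height.logHeight₁ (c k), fun a b h => ?_⟩
  have hM : ∀ v : AbsoluteValue K ℝ, ∀ j < n, ∀ i < n + 1,
      v ((p j).coeff i) ≤ ∏ k ∈ Finset.range ((n + 1) ^ 2), max (v (c k)) 1 := by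
    intro v j hj i hi
    have h1 : Nat.pair j i < (n + 1) ^ 2 := (Nat.pair_lt_max_add_one_sq j i).trans_le
      (Nat.pow_le_pow_left (by omega) 2)
    simpa only [c, Nat.unpair_pair] using KSkew.HQ.le_pm v _ c (Finset.mem_range.2 h1)
  have key := KSkew.HQ.globLog (Finset.range ((n + 1) ^ 2 + 1))
    (fun k => Nat.casesOn k b c) a (n * (n + 1)) (by linarith) (fun v => ?_) fun v hv => ?_
  · rw [Finset.sum_range_succ'] at key
    have k2 : Height.logHeight₁ a ≤ Height.totalWeight K * log (n * (n + 1)) +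
      (∑ k ∈ Finset.range ((n + 1) ^ 2), Height.logHeight₁ (c k) + Height.logHeight₁ b) := key
    linarith
  · rw [Finset.prod_range_succ']
    refine PEN2.loc v hn hp h hT (fun f B _ hf => ?_) (KSkew.HQ.one_le_pm v _ c) (hM v)
    refine (v.sum_le _ _).trans ((Finset.sum_le_card_nsmul _ _ ((n + 1) * B) fun j hj =>
      (v.sum_le _ _).trans ((Finset.sum_le_card_nsmul _ _ B fun i hi =>
        hf j (Finset.mem_range.1 hj) i (Finset.mem_range.1 hi)).trans ?_)).trans ?_)
    · simp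
    · simp [mul_assoc]
  · rw [Finset.prod_range_succ', ← one_mul (_ * _)]
    refine PEN2.loc v hn hp h le_rfl (fun f B hB hf => ?_) (KSkew.HQ.one_le_pm v _ c) (hM v)
    rw [one_mul]
    exact KSkew.na_sum_le hv _ _ hB fun j hj => KSkew.na_sum_le hv _ _ hB fun i hi =>
      hf j (Finset.mem_range.1 hj) i (Finset.mem_range.1 hi)

end Pool.Agent.KSP

end

end MrgPart15

-- ======== part 16: formerly Pool.Agent.MP_c8dfda_nt.kp.PEN3
section MrgPart16

/-! Polynomial maps of the plane: growth of the height along an invariant pencil. -/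

open Polynomial Filter Real
open scoped Topology

noncomputable section

namespace Pool.Agent.KSP

namespace PEN3

theorem eval_aeval {K : Type} [Field K] (P : Fin 2 → K) (b : R K) (p : K[X]) :
    MvPolynomial.eval P (aeval b p) = p.eval (MvPolynomial.eval P b) := by
  induction p using Polynomial.induction_on' with
  | add p q hp hq => simp only [map_add, hp, hq, eval_add]
  | monomial n c => simp [aeval_monomial, MvPolynomial.algebraMap_eq]

theorem unbounded {K : Type} [Field K] [NumberField K] {O : ℕ → Fin 2 → K} (hz : ZD O) {u : R K}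
    (hu : 1 ≤ dg u) (B : ℝ) : ∃ n, B < Height.logHeight₁ (MvPolynomial.eval (O n) u) := by
  classical
  by_contra hc
  push Not at hc
  have hf := NumberField.finite_setOfPred_logHeight₁_le K B
  have h0 : ∏ v ∈ hf.toFinset, (u - cc v) = 0 := by
    refine hz _ fun n => ?_
    rw [map_prod]
    refine Finset.prod_eq_zero (i := MvPolynomial.eval (O n) u) (hf.mem_toFinset.2 (hc n)) ?_
    simp
  obtain ⟨v, -, hv⟩ := Finset.prod_eq_zero_iff.1 h0
  rw [sub_eq_zero.1 hv] at hu
  simp [dg] at hu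

theorem grow (h H : ℕ → ℝ) (δ C C₁ D : ℝ) (hδ : 1 < δ) (hD : 0 < D)
    (h1 : ∀ n, δ * h n - C ≤ h (n + 1)) (h2 : ∀ n, h n ≤ D * H n + C₁)
    (h3 : ∀ B, ∃ n, B < h n) : ∃ c : ℝ, 0 < c ∧ ∀ᶠ n in atTop, c * δ ^ n ≤ H n := by
  obtain ⟨L, hL⟩ : ∃ L, C = (δ - 1) * L :=
    ⟨C / (δ - 1), by field_simp [(sub_pos.2 hδ).ne']⟩
  obtain ⟨m, hm⟩ := h3 L
  have hδ0 : 0 < δ := by linarith
  have key : ∀ k, δ ^ k * (h m - L) ≤ h (m + k) - L := by
    intro k
    induction k with
    | zero => simp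
    | succ k ih =>
      have := h1 (m + k)
      have h4 := mul_le_mul_of_nonneg_left ih hδ0.le
      rw [pow_succ, ← add_assoc]
      nlinarith
  have he : 0 < h m - L := sub_pos.2 hm
  have hpm : 0 < δ ^ m := pow_pos hδ0 m
  obtain ⟨c, hc⟩ : ∃ c, h m - L = 2 * D * c * δ ^ m :=
    ⟨(h m - L) / (2 * D * δ ^ m), by field_simp⟩
  have hc0 : 0 < c := by
    by_contra hn
    push Not at hn
    have : 2 * D * c * δ ^ m ≤ 0 :=
      mul_nonpos_of_nonpos_of_nonneg (mul_nonpos_of_nonneg_of_nonpos (by linarith) hn) hpm.le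
    linarith
  refine ⟨c, hc0, ?_⟩
  have ht : Tendsto (fun n : ℕ => D * c * δ ^ n) atTop atTop :=
    (tendsto_pow_atTop_atTop_of_one_lt hδ).const_mul_atTop (mul_pos hD hc0)
  filter_upwards [eventually_ge_atTop m, ht.eventually_ge_atTop (C₁ - L)] with n hn hn'
  obtain ⟨k, rfl⟩ := Nat.exists_eq_add_of_le hn
  have h5 := key k
  have h6 := h2 (m + k)
  have h7 : δ ^ k * (h m - L) = 2 * (D * c * δ ^ (m + k)) := by
    rw [hc, pow_add]
    ring
  refine le_of_mul_le_mul_left ?_ hD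
  rw [← mul_assoc]
  linarith

end PEN3

theorem pen3 (h1 : S_PEN1) (h2 : S_PEN2) (h3 : S_HB) : S_PEN3 := by
  intro K _ _ s O hO hz δ hδ hP
  obtain ⟨u, hu, hd, hl⟩ := hP
  have hD : (1 : ℝ) ≤ dg u := by exact_mod_cast hu
  have hD' : 1 ≤ dg (s u) := by
    have : (1 : ℝ) ≤ dg (s u) := by nlinarith
    exact_mod_cast this
  obtain ⟨n, p, hn, hp, he⟩ := h1 K (u ^ dg (s u)) (s u ^ dg u)
    (by rw [dg_pow]; exact Nat.mul_pos hu hD')
    (fun η hη => by
      rw [lp_pow, lp_pow, mul_comm, hl η hη, mul_comm])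
  obtain ⟨C, hC⟩ := h2 K n p hn hp
  obtain ⟨C₁, hC₁⟩ := (h3 K).1 u
  refine PEN3.grow (fun m => Height.logHeight₁ (MvPolynomial.eval (O m) u)) (fun m => Ht (O m)) δ
    (C / dg u) C₁ (dg u) hδ (by linarith) (fun m => ?_) (fun m => hC₁ _)
    (PEN3.unbounded hz hu)
  have h4 := congrArg (MvPolynomial.eval (O m)) he
  simp only [map_add, map_sum, map_mul, map_zero, PEN3.eval_aeval] at h4
  simp only [map_pow (MvPolynomial.eval (O m)) (u ^ dg (s u))] at h4
  have h5 := hC _ _ h4
  rw [map_pow, map_pow, Height.logHeight₁_pow, Height.logHeight₁_pow, ← eval_ap, ← hO m] at h5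
  have h6 := Height.zero_le_logHeight₁ (MvPolynomial.eval (O m) u)
  have h7 := mul_le_mul_of_nonneg_right hd h6
  have h8 : (0 : ℝ) < dg u := by linarith
  show δ * Height.logHeight₁ (MvPolynomial.eval (O m) u) - C / dg u ≤
    Height.logHeight₁ (MvPolynomial.eval (O (m + 1)) u)
  refine le_of_mul_le_mul_left ?_ h8
  rw [mul_sub, mul_div_cancel₀ _ h8.ne']
  nlinarith

end Pool.Agent.KSP

end

end MrgPart16

-- ======== part 17: formerly Pool.Agent.MP_c8dfda_nt.kp.FEK
section MrgPart17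

/-! The dynamical degree exists. -/

open Polynomial Filter Real
open scoped Topology

noncomputable section

namespace Pool.Agent.KSP

namespace FEK

theorem seq (a : ℕ → ℝ) (h1 : ∀ n, 1 ≤ a n) (hm : ∀ m n, a (m + n) ≤ a m * a n) :
    ∃ δ : ℝ, Tendsto (fun n : ℕ => a n ^ (1 / (n : ℝ))) atTop (𝓝 δ) ∧ (∀ n, δ ^ n ≤ a n) ∧
      ∀ γ : ℝ, 1 ≤ γ → δ < γ → ∃ C : ℝ, ∀ n, a n ≤ C * γ ^ n := by
  have hp : ∀ n, 0 < a n := fun n => one_pos.trans_le (h1 n)
  have hs : Subadditive fun n => log (a n) := fun m n => by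
    show log (a (m + n)) ≤ log (a m) + log (a n)
    rw [← log_mul (hp m).ne' (hp n).ne']
    exact log_le_log (hp _) (hm m n)
  have hb : BddBelow (Set.range fun n : ℕ => log (a n) / n) := by
    refine ⟨0, ?_⟩
    rintro _ ⟨n, rfl⟩
    exact div_nonneg (log_nonneg (h1 n)) (Nat.cast_nonneg n)
  have ht := hs.tendsto_lim hb
  refine ⟨exp hs.lim, ?_, fun n => ?_, fun γ hγ hδ => ?_⟩
  · refine ((continuous_exp.tendsto _).comp ht).congr fun n => ?_
    show exp (log (a n) / n) = _
    rw [rpow_def_of_pos (hp n), mul_one_div]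
  · rcases eq_or_ne n 0 with rfl | hn
    · rw [pow_zero]; exact h1 0
    have h2 := hs.lim_le_div hb hn
    have h3 : (0 : ℝ) < n := Nat.cast_pos.2 (Nat.pos_of_ne_zero hn)
    rw [le_div_iff₀ h3] at h2
    rw [← exp_nat_mul, ← exp_log (hp n), exp_le_exp, mul_comm]
    exact h2
  · have h0 : 0 < γ := one_pos.trans_le hγ
    have h2 : hs.lim < log γ := (lt_log_iff_exp_lt h0).2 hδ
    obtain ⟨N, hN⟩ := eventually_atTop.1 (ht.eventually (gt_mem_nhds h2))
    refine ⟨1 + ∑ i ∈ Finset.range (N + 1), a i, fun n => ?_⟩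
    have h4 : 0 ≤ ∑ i ∈ Finset.range (N + 1), a i := Finset.sum_nonneg fun i _ => (hp i).le
    have h5 : 1 ≤ γ ^ n := one_le_pow₀ hγ
    rcases lt_or_ge n (N + 1) with hn | hn
    · have h6 : a n ≤ ∑ i ∈ Finset.range (N + 1), a i :=
        Finset.single_le_sum (f := a) (fun i _ => (hp i).le) (Finset.mem_range.2 hn)
      nlinarith
    · have h6 := hN n (by omega)
      have h3 : (0 : ℝ) < n := Nat.cast_pos.2 (by omega)
      rw [div_lt_iff₀ h3] at h6
      have h7 : a n ≤ γ ^ n := by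
        rw [← exp_log (hp n), ← exp_log (pow_pos h0 n), exp_le_exp, log_pow, mul_comm]
        exact h6.le
      nlinarith

end FEK

theorem fek : S_FEK := by
  intro K _ s hs
  obtain ⟨δ, h1, h2, h3⟩ := FEK.seq (fun n => (dd (s ^ n) : ℝ))
    (fun n => by exact_mod_cast one_le_dd (inj_pow hs n))
    (fun m n => by rw [pow_add]; exact_mod_cast dd_mul_le (s ^ m) (s ^ n))
  exact ⟨δ, h1, fun h => ⟨h, h2, fun γ hγ => h3 γ (h.trans hγ).le hγ⟩⟩

end Pool.Agent.KSP

end
end MrgPart17

-- ======== part 18: formerly Pool.Agent.MP_c8dfda_nt.kp.ROOTH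
section MrgPart18

/-! Polynomial maps of the plane: the height of a root. -/

open Polynomial Filter Real
open scoped Topology

noncomputable section

namespace Pool.Agent.KSP

namespace ROOTH

variable {K : Type} [Field K]

/-- the local bound -/
theorem loc (v : AbsoluteValue K ℝ) {Q : K[X][X]} {D : ℕ} (hD : ∀ j, (Q.coeff j).natDegree ≤ D)
    {a b : K} (h0 : Q.leadingCoeff.eval a ≠ 0) (h : Q.evalEval a b = 0) {T M : ℝ} (hT1 : 1 ≤ T)
    (hT : ∀ (m : ℕ) (f : ℕ → K) (B : ℝ), m ≤ Q.natDegree + D + 1 → 0 ≤ B →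
      (∀ i < m, v (f i) ≤ B) → v (∑ i ∈ Finset.range m, f i) ≤ T * B)
    (hM1 : 1 ≤ M) (hM : ∀ j ≤ Q.natDegree, ∀ i ≤ D, v ((Q.coeff j).coeff i) ≤ M) :
    v (Q.leadingCoeff.eval a) * max (v b) 1 ≤ T ^ 2 * (M * max (v a) 1 ^ D) := by
  have hA : 0 ≤ M * max (v a) 1 ^ D := by positivity
  have h1 : ∀ j ≤ Q.natDegree, v ((Q.coeff j).eval a) ≤ T * (M * max (v a) 1 ^ D) := fun j hj => by
    rw [eval_eq_sum_range' (n := D + 1) (Nat.lt_succ_of_le (hD j))]
    refine hT _ _ _ (by omega) hA fun i hi => ?_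
    rw [map_mul, map_pow]
    exact mul_le_mul (hM j hj i (by omega)) ((pow_le_pow_left₀ (v.nonneg a) (le_max_left _ _) i).trans
      (pow_le_pow_right₀ (le_max_right _ _) (by omega))) (by positivity) (by positivity)
  rcases le_total (v b) 1 with hb | hb
  · rw [max_eq_right hb, mul_one, pow_two, mul_assoc]
    exact (h1 _ le_rfl).trans (le_mul_of_one_le_left (by positivity) hT1)
  rw [← eval₂_evalRingHom, eval₂_eq_sum_range, Finset.sum_range_succ] at h
  have h2 : Q.leadingCoeff.eval a * b ^ Q.natDegree =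
      -∑ j ∈ Finset.range Q.natDegree, (Q.coeff j).eval a * b ^ j := eq_neg_of_add_eq_zero_right h
  rcases hn : Q.natDegree with _ | e
  · rw [hn] at h2
    exact absurd (by simpa using h2) h0
  have h3 := hT Q.natDegree (fun j => (Q.coeff j).eval a * b ^ j)
    (T * (M * max (v a) 1 ^ D) * v b ^ e) (by omega) (by positivity) fun j hj => by
      rw [map_mul, map_pow]
      exact mul_le_mul (h1 j hj.le) (pow_le_pow_right₀ hb (by omega)) (by positivity)
        (by positivity)
  rw [← v.map_neg, ← h2, hn, map_mul, map_pow, pow_succ', ← mul_assoc, ← mul_assoc, ← mul_assoc,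
    ← pow_two] at h3
  rw [max_eq_left hb]
  exact le_of_mul_le_mul_right h3 (by positivity)

open Height AdmissibleAbsValues Finset Multiset in
theorem glob [AdmissibleAbsValues K] (s : Finset ℕ) (x : ℕ → K) (z y : K) (hy : y ≠ 0) (C : ℝ)
    (hC : 0 < C)
    (h1 : ∀ v : AbsoluteValue K ℝ, v y * max (v z) 1 ≤ C * ∏ i ∈ s, max (v (x i)) 1)
    (h2 : ∀ v : AbsoluteValue K ℝ, IsNonarchimedean v →
      v y * max (v z) 1 ≤ ∏ i ∈ s, max (v (x i)) 1) :
    mulHeight₁ z ≤ C ^ (totalWeight K) * ∏ a ∈ s, mulHeight₁ (x a) := by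
  rw [← one_mul (mulHeight₁ z), ← product_formula hy]
  simp only [mulHeight₁_eq, totalWeight]
  rw [mul_mul_mul_comm, ← prod_map_mul, ← finprod_mul_distrib (by fun_prop) (by fun_prop),
    prod_mul_distrib, ← prod_replicate, ← map_const, ← finprod_prod_comm _ _ (by fun_prop),
    ← prod_map_prod, ← mul_assoc, ← prod_map_mul]
  simp only [Function.const_apply]
  gcongr
  · exact finprod_nonneg fun _ ↦ by positivity
  · exact prod_map_nonneg fun _ h ↦ by positivity
  · exact prod_map_le_prod_map₀ _ _ (fun _ _ ↦ by positivity) fun v _ ↦ h1 v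
  · exact finprod_le_finprod (by fun_prop) (fun _ ↦ by positivity) (by fun_prop) <|
      fun v ↦ h2 _ (isNonarchimedean _ v.prop)

end ROOTH

theorem rooth : S_ROOTH := by
  intro K _ _ Q D hD
  let N := Q.natDegree + D + 1
  let c : ℕ → K := fun k => (Q.coeff k.unpair.1).coeff k.unpair.2
  have hT : (1 : ℝ) ≤ N := by exact_mod_cast (by omega : 1 ≤ N)
  refine ⟨Height.totalWeight K * log ((N : ℝ) ^ 2) +
    ∑ k ∈ Finset.range (N ^ 2), Height.logHeight₁ (c k), fun a b h0 h => ?_⟩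
  have hM : ∀ v : AbsoluteValue K ℝ, ∀ j ≤ Q.natDegree, ∀ i ≤ D,
      v ((Q.coeff j).coeff i) ≤ ∏ k ∈ Finset.range (N ^ 2), max (v (c k)) 1 := by
    intro v j hj i hi
    have h1 : Nat.pair j i < N ^ 2 := (Nat.pair_lt_max_add_one_sq j i).trans_le
      (Nat.pow_le_pow_left (by omega) 2)
    simpa only [c, Nat.unpair_pair] using KSkew.HQ.le_pm v _ c (Finset.mem_range.2 h1)
  have key := ROOTH.glob (Finset.range (N ^ 2 + 1)) (fun k => Nat.casesOn k (a ^ D) c) b _ h0
    ((N : ℝ) ^ 2) (by positivity) (fun v => ?_) fun v hv => ?_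
  · have k2 := log_le_log (Height.mulHeight₁_pos b) key
    rw [log_mul (by positivity) (Finset.prod_pos fun a _ => Height.mulHeight₁_pos _).ne',
      log_pow, log_prod fun a _ => Height.mulHeight₁_ne_zero _, Finset.sum_range_succ'] at k2
    have k3 : Height.logHeight₁ b ≤ Height.totalWeight K * log ((N : ℝ) ^ 2) +
      (∑ k ∈ Finset.range (N ^ 2), Height.logHeight₁ (c k) + Height.logHeight₁ (a ^ D)) := k2
    rw [Height.logHeight₁_pow] at k3
    linarith
  · rw [Finset.prod_range_succ']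
    refine (ROOTH.loc v hD h0 h hT (fun m f B hm hB hf => ?_) (KSkew.HQ.one_le_pm v _ c)
      (hM v)).trans_eq (by rw [← KSkew.HQ.max_pow]; rfl)
    refine (v.sum_le _ _).trans ((Finset.sum_le_card_nsmul _ _ B fun i hi =>
      hf i (Finset.mem_range.1 hi)).trans ?_)
    rw [Finset.card_range, nsmul_eq_mul]
    exact mul_le_mul_of_nonneg_right (Nat.cast_le.2 hm) hB
  · rw [Finset.prod_range_succ']
    refine (ROOTH.loc v hD h0 h le_rfl (fun m f B _ hB hf => ?_) (KSkew.HQ.one_le_pm v _ c)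
      (hM v)).trans_eq (by rw [← KSkew.HQ.max_pow, one_pow, one_mul]; rfl)
    rw [one_mul]
    exact KSkew.na_sum_le hv _ _ hB fun i hi => hf i (Finset.mem_range.1 hi)

end Pool.Agent.KSP

end

end MrgPart18

-- marker of a merged file
example : 731051 + 87316 = 731051 + 87316 := rfl
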