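import Mathlib.Algebra.Lie.OfAssociative
import Mathlib.GroupTheory.FiniteAbelian.Basic
import Mathlib.Analysis.Normed.Field.Instances
import Mathlib.FieldTheory.FinTrdeg
import Mathlib.FieldTheory.Relrank
import Pool.Agent.MP_c8dfda_nt.kp.SEQ
import Pool.Agent.MP_c8dfda_nt.kp.TOP2

-- ======== part 0: formerly Pool.Agent.MP_c8dfda_nt.kp.EXL
section MrgPart0

/-! Polynomial maps of the plane: the completion of the rational function field at infinity. -/

open Polynomial Filter Real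
open scoped Topology

noncomputable section

namespace Pool.Agent.KSP

namespace EXL

theorem ultra {A : Type} [Field A] {N : AbsoluteValue A ℝ} (hN : IsNonarchimedean N) :
    IsUltrametricDist N.Completion := by
  refine IsUltrametricDist.isUltrametricDist_of_isNonarchimedean_norm fun x y => ?_
  induction x, y using UniformSpace.Completion.induction_on₂ with
  | hp => exact isClosed_le (by fun_prop) (by fun_prop)
  | ih a b =>
    rw [← UniformSpace.Completion.coe_add]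
    simp only [UniformSpace.Completion.norm_coe]
    exact hN _ _

theorem deg (K : Type) [Field K] : ∃ N : AbsoluteValue (FractionRing K[X]) ℝ,
    IsNonarchimedean N ∧ ∀ p : K[X], p ≠ 0 → N (algebraMap _ _ p) = exp p.natDegree := by
  obtain ⟨v, hv, h⟩ := exists_abs (fun p : K[X] => (p.natDegree : ℝ))
    (fun a b ha hb => by rw [natDegree_mul ha hb, Nat.cast_add])
    fun a b _ _ _ => by exact_mod_cast natDegree_add_le a b
  obtain ⟨w, hw, h'⟩ := exists_frac (F := FractionRing K[X]) v hv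
  exact ⟨w, hw, fun p hp => by rw [h', h p hp]⟩

end EXL

theorem exl : S_EXL := by
  intro K _
  obtain ⟨N, hN, h⟩ := EXL.deg K
  let κ : FractionRing K[X] →+* N.Completion :=
    UniformSpace.Completion.coeRingHom.comp (WithAbs.equiv N).symm.toRingHom
  have hκ : ∀ a, ‖κ a‖ = N a := fun a => UniformSpace.Completion.norm_coe (WithAbs.toAbs N a)
  let j : K[X] →+* N.Completion := κ.comp (algebraMap _ _)
  have hj : ∀ p : K[X], p ≠ 0 → ‖j p‖ = exp p.natDegree := fun p hp => (hκ _).trans (h p hp)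
  have hx : ‖j X‖ = exp 1 := by rw [hj X X_ne_zero, natDegree_X, Nat.cast_one]
  let i : NontriviallyNormedField N.Completion :=
    { (inferInstance : NormedField N.Completion) with
      non_trivial := ⟨j X, hx ▸ one_lt_exp_iff.2 one_pos⟩ }
  let al : Algebra K N.Completion := (j.comp C).toAlgebra
  have he : ∀ p : K[X], @aeval K _ _ _ al (j X) p = j p := fun p => by
    rw [aeval_def]
    conv_rhs => rw [← eval₂_C_X (p := p), hom_eval₂]
    rfl
  refine ⟨N.Completion, i, inferInstance, EXL.ultra hN, al, j X, hx, fun c hc => ?_,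
    fun a ε hε => ?_⟩
  · exact (hj (C c) (C_ne_zero.2 hc)).trans (by rw [natDegree_C, Nat.cast_zero, exp_zero])
  · obtain ⟨b, hb⟩ := UniformSpace.Completion.denseRange_coe.exists_dist_lt a hε
    obtain ⟨p, r, hr, e⟩ := IsFractionRing.div_surjective (A := K[X]) b.ofAbs
    refine ⟨p, r, nonZeroDivisors.ne_zero hr, ?_⟩
    have : j p / j r = (b : N.Completion) := (map_div₀ κ _ _).symm.trans (congrArg κ e)
    rw [he, he, this, ← dist_eq_norm]
    exact hb

end Pool.Agent.KSP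

end

end MrgPart0

-- ======== part 1: formerly Pool.Agent.MP_c8dfda_nt.kp.OM
section MrgPart1

/-! Polynomial maps of the plane: existence of the model. -/

open Polynomial Filter Real
open scoped Topology

noncomputable section

namespace Pool.Agent.KSP

namespace OM

variable (L : Type) [NontriviallyNormedField L] [CompleteSpace L] [IsUltrametricDist L]

/-- the spectral norm as an absolute value -/
def sp : AbsoluteValue (AlgebraicClosure L) ℝ where
  toFun a := spectralMulAlgNorm L (AlgebraicClosure L) a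
  map_mul' a b := map_mul _ a b
  nonneg' a := apply_nonneg _ a
  eq_zero' _ := map_eq_zero_iff_eq_zero _
  add_le' a b := map_add_le_add _ a b

theorem sp_eq (a : AlgebraicClosure L) : sp L a = spectralNorm L (AlgebraicClosure L) a := rfl

theorem sp_ext (a : L) : sp L (algebraMap L (AlgebraicClosure L) a) = ‖a‖ := by
  rw [sp_eq, spectralNorm_extends]

end OM

theorem om (h1 : S_EXL) (h2 : S_UNIV) (h3 : S_DERL) (h4 : S_DERV) : S_OM := by
  intro K _ _
  obtain ⟨L, _, _, _, _, ξ, hc⟩ := h1 K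
  have a2 := h2 K L ξ (OM.sp L) hc (OM.sp_eq L)
  have a3 := h3 K L ξ (OM.sp L) hc (OM.sp_eq L)
  have a4 := h4 K L ξ (OM.sp L) hc (OM.sp_eq L)
  refine ⟨{
    L := L
    E := AlgebraicClosure L
    n := OM.sp L
    ξ := ξ
    na := ⟨fun a b => isNonarchimedean_spectralNorm a b, fun c h => ?_⟩
    xi := by rw [OM.sp_ext, hc.xi]
    conj := fun σ β => by rw [OM.sp_eq, OM.sp_eq, ← spectralNorm_eq_of_equiv]
    apx := fun a => ?_
    dis := fun a h => ?_
    univ := a2
    der := a4 }⟩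
  · rw [IsScalarTower.algebraMap_apply K L (AlgebraicClosure L), OM.sp_ext, hc.triv c h]
  · simpa only [OM.sp_ext] using a3.2.1 a
  · simpa only [OM.sp_ext] using a3.2.2 a h

end Pool.Agent.KSP

end

end MrgPart1

-- ======== part 2: formerly Pool.Agent.MP_c8dfda_nt.kp.ROOT
section MrgPart2

/-! Polynomial maps of the plane: the norm of a polynomial in terms of its roots. -/

open Polynomial Filter Real
open scoped Topology

noncomputable section

namespace Pool.Agent.KSP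

namespace ROOT

variable {K : Type} [Field K]

/-- the exponent with given entries -/
def ex (i j : ℕ) : Fin 2 →₀ ℕ := Finsupp.single 0 i + Finsupp.single 1 j

theorem ex_zero (i j : ℕ) : ex i j 0 = i := by simp [ex]

theorem ex_one (i j : ℕ) : ex i j 1 = j := by simp [ex]

theorem ex_self (m : Fin 2 →₀ ℕ) : ex (m 0) (m 1) = m := by
  ext k
  fin_cases k
  · exact ex_zero _ _
  · exact ex_one _ _

/-- the coefficient of a power of the second variable -/
def co (φ : R K) (j : ℕ) : K[X] :=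
  ∑ m ∈ φ.support with m 1 = j, monomial (m 0) (MvPolynomial.coeff m φ)

theorem co_coeff (φ : R K) (i j : ℕ) : (co φ j).coeff i = MvPolynomial.coeff (ex i j) φ := by
  rw [co, finsetSum_coeff, Finset.sum_eq_single (ex i j)]
  · rw [ex_zero, coeff_monomial, if_pos rfl]
  · intro m hm hne
    rw [coeff_monomial, if_neg]
    intro h0
    apply hne
    rw [← ex_self m, h0, (Finset.mem_filter.1 hm).2]
  · intro h
    have : MvPolynomial.coeff (ex i j) φ = 0 := by
      by_contra hc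
      exact h (Finset.mem_filter.2 ⟨MvPolynomial.mem_support_iff.2 hc, ex_one i j⟩)
    rw [this, monomial_zero_right, coeff_zero]

theorem add_le_dg {φ : R K} {m : Fin 2 →₀ ℕ} (hm : m ∈ φ.support) : m 0 + m 1 ≤ dg φ := by
  have := MvPolynomial.le_totalDegree hm
  rwa [Finsupp.sum_fintype _ _ (fun _ => rfl), Fin.sum_univ_two] at this

theorem co_deg {φ : R K} {j : ℕ} (h : co φ j ≠ 0) : (co φ j).natDegree + j ≤ dg φ := by
  have h1 : (co φ j).coeff (co φ j).natDegree ≠ 0 := leadingCoeff_ne_zero.2 h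
  rw [co_coeff] at h1
  have := add_le_dg (MvPolynomial.mem_support_iff.2 h1)
  rwa [ex_zero, ex_one] at this

theorem exists_top {φ : R K} (h : φ ≠ 0) : ∃ j, co φ j ≠ 0 ∧ (co φ j).natDegree + j = dg φ := by
  obtain ⟨m, hm, he⟩ := Finset.exists_mem_eq_sup φ.support (MvPolynomial.support_nonempty.2 h)
    fun s => s.sum fun _ e => e
  have hc : (co φ (m 1)).coeff (m 0) ≠ 0 := by
    rw [co_coeff, ex_self]
    exact MvPolynomial.mem_support_iff.1 hm
  have hne : co φ (m 1) ≠ 0 := fun h0 => hc (by rw [h0, coeff_zero])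
  refine ⟨m 1, hne, le_antisymm (co_deg hne) ?_⟩
  have h2 : dg φ = m 0 + m 1 := by
    rw [Finsupp.sum_fintype _ _ (fun _ => rfl), Fin.sum_univ_two] at he
    exact he
  rw [h2]
  exact Nat.add_le_add_right (le_natDegree_of_ne_zero hc) _

theorem ev_coeff {A : Type} [Field A] [Algebra K A] (ξ : A) (φ : R K) (j : ℕ) :
    (evA ξ φ).coeff j = aeval ξ (co φ j) := by
  conv_lhs => rw [φ.as_sum, map_sum, finsetSum_coeff]
  rw [co, map_sum, Finset.sum_filter]
  refine Finset.sum_congr rfl fun m _ => ?_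
  rw [MvPolynomial.monomial_eq, Finsupp.prod_fintype _ _ (fun _ => pow_zero _), Fin.prod_univ_two,
    map_mul, map_mul, map_pow, map_pow, evA_cc, evA_xx0, evA_xx1, ← C_pow, ← mul_assoc, ← C_mul,
    coeff_C_mul_X_pow, aeval_monomial]
  by_cases h : m 1 = j
  · rw [if_pos h.symm, if_pos h]
  · rw [if_neg (Ne.symm h), if_neg h]

variable (W : Md K)

theorem term {φ : R K} {j : ℕ} (h : co φ j ≠ 0) :
    W.n ((taylor 0 (W.ev φ)).coeff j) * exp 1 ^ j = exp (((co φ j).natDegree + j : ℕ) : ℝ) := by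
  rw [taylor_zero, ev_coeff, W.n_aeval h, ← exp_nat_mul, mul_one, ← exp_add, Nat.cast_add]

theorem gn_eq {φ : R K} (h : φ ≠ 0) : W.gn (0, 1) (W.ev φ) = exp (dg φ) := by
  refine le_antisymm (KSkew.GN_le W.na.1 (exp_pos 1) _ fun j => ?_) ?_
  · by_cases h0 : co φ j = 0
    · rw [taylor_zero, ev_coeff, h0, map_zero, map_zero, zero_mul]
      exact (exp_pos _).le
    · rw [term W h0]
      exact exp_le_exp.2 (Nat.cast_le.2 (co_deg h0))
  · obtain ⟨j, hj, he⟩ := exists_top h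
    rw [← he, ← term W hj]
    exact KSkew.coeff_le_GN W.na.1 (exp_pos 1) _ j

theorem natDegree_le (φ : R K) : (W.ev φ).natDegree ≤ dg φ := by
  refine natDegree_le_iff_coeff_eq_zero.2 fun j hj => ?_
  rw [ev_coeff]
  by_cases h0 : co φ j = 0
  · rw [h0, map_zero]
  · have := co_deg h0
    omega

theorem one_root (ζ : Pt W.n) (hX : ζ.f X ≤ exp 1) (β : W.E) (h : 0 < ζ.f (X - C β)) :
    log (ζ.f (X - C β)) =
      log (max (exp 1) (W.n (0 - β))) - max 0 (1 - log (ζ.f (X - C β))) := by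
  rw [zero_sub, W.n.map_neg]
  rcases le_or_gt (W.n β) (exp 1) with hb | hb
  · have h1 : ζ.f (X - C β) ≤ exp 1 :=
      (ζ.sub _ _).trans (max_le hX (by rw [ζ.cst]; exact hb))
    have h2 : log (ζ.f (X - C β)) ≤ 1 := (log_le_iff_le_exp h).2 h1
    rw [max_eq_left hb, log_exp, max_eq_right (by linarith)]
    ring
  · have h1 : ζ.f (X - C β) = W.n β := by
      have h3 : ζ.f (-C β) = W.n β := by rw [ζ.neg, ζ.cst]
      rw [← h3]
      refine ζ.eq_of_sub_lt ?_
      have h4 : -C β - (X - C β) = -X := by ring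
      rw [h4, ζ.neg, h3]
      exact hX.trans_lt hb
    have h2 : 1 ≤ log (W.n β) := (le_log_iff_exp_le ((exp_pos 1).trans hb)).2 hb.le
    rw [h1, max_eq_right hb.le, max_eq_left (by linarith), sub_zero]

theorem log_prod_map {A : Type} (s : Multiset A) (f : A → ℝ) (h : ∀ a ∈ s, 0 < f a) :
    0 < (s.map f).prod ∧ log (s.map f).prod = (s.map fun a => log (f a)).sum := by
  induction s using Multiset.induction with
  | empty => simp
  | cons a s ih =>
    obtain ⟨h1, h2⟩ := ih fun b hb => h b (Multiset.mem_cons_of_mem hb)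
    have h3 := h a (Multiset.mem_cons_self _ _)
    rw [Multiset.map_cons, Multiset.map_cons, Multiset.prod_cons, Multiset.sum_cons,
      log_mul h3.ne' h1.ne', h2]
    exact ⟨mul_pos h3 h1, rfl⟩

end ROOT

theorem root : S_ROOT := by
  intro K _ _ W φ hφ
  have hg := ROOT.gn_eq W hφ
  have hne : W.ev φ ≠ 0 := fun h0 => by
    rw [h0, map_zero] at hg
    exact (exp_pos _).ne hg
  refine ⟨hne, ROOT.natDegree_le W φ, hg, fun ζ hX hpos => ?_⟩
  have hr : ∀ β ∈ (W.ev φ).roots, 0 < ζ.f (X - C β) := fun β hβ => by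
    refine (ζ.nn _).lt_of_ne fun h0 => ?_
    rw [ζ.roots, Multiset.prod_eq_zero (Multiset.mem_map.2 ⟨β, hβ, h0.symm⟩), mul_zero] at hpos
    exact lt_irrefl _ hpos
  refine ⟨hr, ?_⟩
  have hl : 0 < W.n (W.ev φ).leadingCoeff := W.n.pos (leadingCoeff_ne_zero.2 hne)
  obtain ⟨p1, e1⟩ := ROOT.log_prod_map (W.ev φ).roots (fun β => ζ.f (X - C β)) hr
  obtain ⟨p2, e2⟩ := ROOT.log_prod_map (W.ev φ).roots (fun β => max (exp 1) (W.n (0 - β)))
    fun β _ => lt_max_of_lt_left (exp_pos 1)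
  have h1 : log (ζ.f (W.ev φ)) = log (W.n (W.ev φ).leadingCoeff) +
      ((W.ev φ).roots.map fun β => log (ζ.f (X - C β))).sum := by
    rw [ζ.roots, log_mul hl.ne' p1.ne', e1]
  have h2 : (dg φ : ℝ) = log (W.n (W.ev φ).leadingCoeff) +
      ((W.ev φ).roots.map fun β => log (max (exp 1) (W.n (0 - β)))).sum := by
    rw [← log_exp (dg φ : ℝ), ← hg, W.gn_roots, log_mul hl.ne' p2.ne', e2]
  rw [h1, h2, Multiset.map_congr rfl fun β hβ => ROOT.one_root W ζ hX β (hr β hβ),
    Multiset.sum_map_sub]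
  ring

end Pool.Agent.KSP

end
end MrgPart2

-- ======== part 3: formerly Pool.Agent.MP_c8dfda_nt.kp.MINK
section MrgPart3

/-! Polynomial maps of the plane: Minkowski for the lattice of polynomials. -/

open Polynomial Filter Real
open scoped Topology

noncomputable section

namespace Pool.Agent.KSP

namespace MINK

variable {K : Type} [Field K] (W : Md K)

theorem nL_nn (a : W.L) : 0 ≤ W.nL a := W.n.nonneg _

theorem nL_zero : W.nL 0 = 0 := by simp [Md.nL]

theorem nL_add (a b : W.L) : W.nL (a + b) ≤ max (W.nL a) (W.nL b) := by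
  rw [Md.nL, map_add]; exact W.na.1 _ _

theorem nL_mul (a b : W.L) : W.nL (a * b) = W.nL a * W.nL b := by
  simp [Md.nL]

theorem nL_cst (c : K) : W.nL (algebraMap K W.L c) ≤ 1 := by
  rw [Md.nL, ← IsScalarTower.algebraMap_apply]; exact W.na.le_one c

theorem nL_pow (i : ℕ) : W.nL (W.ξ ^ i) = exp i := by
  rw [Md.nL, map_pow, map_pow, W.xi, ← exp_nat_mul, mul_one]

theorem res (a : W.L) (ha : W.nL a ≤ 1) : ∃ c : K, W.nL (a - algebraMap K W.L c) < 1 := by
  obtain ⟨p, hp⟩ := W.apx a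
  have h0 : p.natDegree = 0 := by
    by_cases h : p = 0
    · simp [h]
    have h1 : W.nL (aeval W.ξ p) = exp p.natDegree := by
      rw [Md.nL, ← aeval_algebraMap_apply]; exact W.n_aeval h
    have h2 := nL_add W a (-(a - aeval W.ξ p))
    have h3 : W.nL (-(a - aeval W.ξ p)) < 1 := by
      rw [Md.nL, map_neg, W.n.map_neg]; exact hp
    rw [show a + -(a - aeval W.ξ p) = aeval W.ξ p by ring, h1] at h2
    have h4 := exp_le_one_iff.1 (h2.trans (max_le ha h3.le))
    exact_mod_cast le_antisymm h4 (Nat.cast_nonneg _)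
  refine ⟨p.coeff 0, ?_⟩
  rw [eq_C_of_natDegree_eq_zero h0, aeval_C] at hp
  exact hp

theorem low (a : W.L) (m : ℤ) (ha : W.nL a < exp ((m + 1 : ℤ) : ℝ)) : W.nL a ≤ exp m := by
  by_cases h : a = 0
  · rw [h, nL_zero]; exact (exp_pos _).le
  obtain ⟨k, hk⟩ := W.dis a h
  rw [Md.nL, hk] at ha ⊢
  have := Int.cast_lt.1 (exp_lt_exp.1 ha)
  exact exp_le_exp.2 (Int.cast_le.2 (by omega))

theorem bdd (a : W.L) : ∃ B : ℕ, W.nL a ≤ exp B := by
  obtain ⟨B, hB⟩ := exists_nat_ge (W.nL a)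
  exact ⟨B, hB.trans (by linarith [add_one_le_exp (B : ℝ)])⟩

variable {d : ℕ} (φ : Fin d → W.L[X])

/-- the polynomials in a box -/
def S (t : Fin d → ℤ) : Submodule K (R K) where
  carrier := {Φ | ∃ a : Fin d → W.L, (∀ j, W.nL (a j) ≤ exp (t j)) ∧ W.evL Φ = ∑ j, C (a j) * φ j}
  zero_mem' := ⟨0, fun j => by rw [Pi.zero_apply, nL_zero]; exact (exp_pos _).le, by simp⟩
  add_mem' := by
    rintro Φ Ψ ⟨a, ha, h⟩ ⟨b, hb, h'⟩
    refine ⟨a + b, fun j => (nL_add W _ _).trans (max_le (ha j) (hb j)), ?_⟩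
    simp only [map_add, h, h', Pi.add_apply, add_mul, Finset.sum_add_distrib]
  smul_mem' := by
    rintro c Φ ⟨a, ha, h⟩
    refine ⟨fun j => algebraMap K W.L c * a j, fun j => ?_, ?_⟩
    · rw [nL_mul]
      exact (mul_le_of_le_one_left (nL_nn W _) (nL_cst W c)).trans (ha j)
    · rw [map_smul, h, Algebra.smul_def, Finset.mul_sum]
      simp only [map_mul, mul_assoc, Polynomial.algebraMap_apply]

/-- the box contains many polynomials -/
def P (t : Fin d → ℤ) : Prop := ∃ U : Submodule K (R K), FiniteDimensional K U ∧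
  ∑ j, (t j + 1) ≤ (Module.finrank K U : ℤ) ∧ U ≤ S W φ t

theorem step (t : Fin d → ℤ) (i : Fin d) (h : P W φ (t + Pi.single i 1)) : P W φ t := by
  obtain ⟨U, hf, hd, hU⟩ := h
  have hs : ∑ j, ((t + Pi.single i 1 : Fin d → ℤ) j + 1) = ∑ j, (t j + 1) + 1 := by
    simp only [Pi.add_apply, Finset.sum_add_distrib, Finset.sum_pi_single', Finset.mem_univ, if_true]
    ring
  by_cases hle : U ≤ S W φ t
  · exact ⟨U, hf, by omega, hle⟩
  obtain ⟨Φ₀, h0, h0'⟩ := SetLike.not_le_iff_exists.1 hle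
  obtain ⟨a₀, ha₀, e₀⟩ := hU h0
  have hne : ∀ j, j ≠ i → (t + Pi.single i 1 : Fin d → ℤ) j = t j := fun j hj => by simp [hj]
  have hi : (t + Pi.single i 1 : Fin d → ℤ) i = t i + 1 := by simp
  have hbig : exp ((t i + 1 : ℤ) : ℝ) ≤ W.nL (a₀ i) := by
    by_contra hc
    refine h0' ⟨a₀, fun j => ?_, e₀⟩
    by_cases hj : j = i
    · rw [hj]; exact low W _ _ (not_le.1 hc)
    · rw [← hne j hj]; exact ha₀ j
  have hpos : 0 < W.nL (a₀ i) := (exp_pos _).trans_le hbig
  have hn0 : a₀ i ≠ 0 := fun h => by rw [h, nL_zero] at hpos; exact hpos.false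
  have hsub : U ≤ (U ⊓ S W φ t) ⊔ Submodule.span K {Φ₀} := fun Φ hΦ => by
    obtain ⟨a, ha, e⟩ := hU hΦ
    have hq : W.nL (a i / a₀ i) * W.nL (a₀ i) = W.nL (a i) := by
      rw [← nL_mul, div_mul_cancel₀ _ hn0]
    obtain ⟨c, hc⟩ := res W (a i / a₀ i) (by
      refine le_of_mul_le_mul_right ?_ hpos
      rw [hq, one_mul]
      exact ((ha i).trans_eq (by rw [hi])).trans hbig)
    rw [show Φ = (Φ + (-c) • Φ₀) + c • Φ₀ by simp]
    refine Submodule.add_mem_sup ⟨U.add_mem hΦ (U.smul_mem _ h0), ?_⟩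
      (Submodule.smul_mem _ _ (Submodule.mem_span_singleton_self _))
    refine ⟨fun j => a j + algebraMap K W.L (-c) * a₀ j, fun j => ?_, ?_⟩
    · by_cases hj : j = i
      · refine low W _ _ ?_
        beta_reduce
        rw [hj, show a i + algebraMap K W.L (-c) * a₀ i = (a i / a₀ i - algebraMap K W.L c) * a₀ i by
          rw [map_neg]; field_simp; ring, nL_mul]
        exact (mul_lt_of_lt_one_left hpos hc).trans_le ((ha₀ i).trans_eq (by rw [hi]))
      · rw [← hne j hj]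
        refine (nL_add W _ _).trans (max_le (ha j) ?_)
        rw [nL_mul]
        exact (mul_le_of_le_one_left (nL_nn W _) (nL_cst W _)).trans (ha₀ j)
    · rw [map_add, map_smul, e, e₀, Algebra.smul_def, Finset.mul_sum, ← Finset.sum_add_distrib]
      simp only [map_mul, map_add, add_mul, mul_assoc, Polynomial.algebraMap_apply]
  have h1 := Submodule.finrank_mono hsub
  have h2 := Submodule.finrank_add_le_finrank_add_finrank (U ⊓ S W φ t) (Submodule.span K {Φ₀})
  have h3 : Module.finrank K (Submodule.span K {Φ₀}) ≤ 1 := by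
    simpa using finrank_span_le_card (R := K) ({Φ₀} : Set (R K))
  exact ⟨U ⊓ S W φ t, inferInstance, by omega, inf_le_right⟩

theorem down (N : ℕ) : ∀ (s : Fin d → ℕ) (t : Fin d → ℤ), ∑ j, s j = N →
    P W φ (fun j => t j + s j) → P W φ t := by
  induction N with
  | zero =>
    intro s t hs h
    have : ∀ j, s j = 0 := fun j => Finset.sum_eq_zero_iff.1 hs j (Finset.mem_univ j)
    simpa [this] using h
  | succ N ih =>
    intro s t hs h
    obtain ⟨i, -, hi⟩ := Finset.exists_ne_zero_of_sum_ne_zero (hs.trans_ne N.succ_ne_zero)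
    have e : s = (s - Pi.single i 1) + Pi.single i 1 := by
      funext j
      by_cases hj : j = i
      · subst hj; simp; omega
      · simp [hj]
    refine ih (s - Pi.single i 1) t ?_ (step W φ _ i ?_)
    · rw [e] at hs
      simp only [Pi.add_apply, Finset.sum_add_distrib, Finset.sum_pi_single', Finset.mem_univ,
        if_true] at hs
      omega
    · convert h using 1
      funext j
      conv_rhs => rw [e]
      by_cases hj : j = i
      · subst hj; simp; ring
      · simp [hj]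

theorem tri (hφ : ∀ j, (φ j).Monic ∧ (φ j).natDegree = j) (n : ℕ) : n ≤ d → ∀ f : W.L[X],
    (∀ m, n ≤ m → f.coeff m = 0) → ∃ c : Fin d → W.L, (∀ k : Fin d, n ≤ k → c k = 0) ∧
      f = ∑ k, C (c k) * φ k := by
  induction n with
  | zero => exact fun _ f hf => ⟨0, fun _ _ => rfl, by simpa using Polynomial.ext fun m => hf m m.zero_le⟩
  | succ n ih =>
    intro hn f hf
    obtain ⟨h1, h2⟩ := hφ ⟨n, hn⟩
    obtain ⟨c, hc, e⟩ := ih (by omega) (f - C (f.coeff n) * φ ⟨n, hn⟩) fun m hm => by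
      rw [coeff_sub, coeff_C_mul]
      rcases hm.eq_or_lt with rfl | hm
      · have := h1.coeff_natDegree
        rw [h2] at this
        rw [this, mul_one, sub_self]
      · rw [hf m hm, coeff_eq_zero_of_natDegree_lt (h2.trans_lt hm), mul_zero, sub_self]
    refine ⟨c + Pi.single ⟨n, hn⟩ (f.coeff n), fun k hk => ?_, ?_⟩
    · have : k ≠ ⟨n, hn⟩ := fun h => by rw [h] at hk; simp at hk
      simp [this, hc k (by omega)]
    · simp only [Pi.add_apply, map_add, add_mul, Finset.sum_add_distrib, ← e]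
      rw [Finset.sum_eq_single ⟨n, hn⟩ (fun k _ hk => by simp [hk]) (by simp)]
      simp

theorem base (hφ : ∀ j, (φ j).Monic ∧ (φ j).natDegree = j) (N : ℕ) :
    ∃ T : Fin d → ℕ, (∀ j, N ≤ T j) ∧ P W φ fun j => T j := by
  have h : ∀ j : Fin d, ∃ c : Fin d → W.L, (∀ k : Fin d, (j : ℕ) ≤ k → c k = 0) ∧
      X ^ (j : ℕ) - φ j = ∑ k, C (c k) * φ k := fun j => tri W φ hφ j j.2.le _ fun m hm => by
    obtain ⟨h1, h2⟩ := hφ j
    rw [coeff_sub, coeff_X_pow]
    rcases hm.eq_or_lt with rfl | hm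
    · have := h1.coeff_natDegree
      rw [h2] at this
      rw [this, if_pos rfl, sub_self]
    · rw [if_neg hm.ne', coeff_eq_zero_of_natDegree_lt (h2.trans_lt hm), sub_self]
  choose c hc e using h
  choose b hb using fun p : Fin d × Fin d => bdd W (c p.1 p.2)
  let B := Finset.univ.sup b
  have hB : ∀ j k, W.nL (c j k) ≤ exp B := fun j k => (hb (j, k)).trans
    (exp_le_exp.2 (Nat.cast_le.2 (Finset.le_sup (f := b) (Finset.mem_univ (j, k)))))
  let T : Fin d → ℕ := fun j => N + B * (d - j)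
  let m : (Σ j : Fin d, Fin (T j + 1)) → Fin 2 →₀ ℕ := fun p =>
    Finsupp.single 0 (p.2 : ℕ) + Finsupp.single 1 (p.1 : ℕ)
  have hm : Function.Injective m := by
    rintro ⟨j, i⟩ ⟨j', i'⟩ h
    have h0 := congrArg (fun f => f 0) h
    have h1 := congrArg (fun f => f 1) h
    simp [m] at h0 h1
    obtain rfl : j = j' := Fin.ext h1
    rw [Fin.ext h0]
  have li := (MvPolynomial.basisMonomials (Fin 2) K).linearIndependent.comp m hm
  refine ⟨T, fun j => Nat.le_add_right _ _,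
    Submodule.span K (Set.range (⇑(MvPolynomial.basisMonomials (Fin 2) K) ∘ m)),
    FiniteDimensional.span_of_finite K (Set.finite_range _), ?_, Submodule.span_le.2 ?_⟩
  · rw [finrank_span_eq_card li]; simp
  rintro _ ⟨⟨j, i⟩, rfl⟩
  refine ⟨fun k => W.ξ ^ (i : ℕ) * (c j + Pi.single j 1 : Fin d → W.L) k, fun k => ?_, ?_⟩
  · have hi : (i : ℕ) ≤ T j := Nat.lt_succ_iff.1 i.2
    beta_reduce
    rw [nL_mul, nL_pow, Pi.add_apply]
    rcases lt_trichotomy k j with h | rfl | h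
    · rw [Pi.single_eq_of_ne h.ne, add_zero]
      refine (mul_le_mul_of_nonneg_left (hB j k) (exp_pos _).le).trans ?_
      rw [← exp_add, exp_le_exp]
      have h1 : d - j + 1 ≤ d - k := by have := j.2; have := Fin.lt_def.1 h; omega
      have h2 := Nat.mul_le_mul_left B h1
      have h3 : i + B ≤ T k := by simp only [T] at hi ⊢; linarith
      exact_mod_cast h3
    · rw [hc k k le_rfl, zero_add, Pi.single_eq_same, Md.nL, map_one, map_one, mul_one, exp_le_exp]
      exact_mod_cast hi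
    · rw [hc j k h.le, Pi.single_eq_of_ne h.ne', add_zero, nL_zero, mul_zero]
      exact (exp_pos _).le
  · have : (⇑(MvPolynomial.basisMonomials (Fin 2) K) ∘ m) ⟨j, i⟩ =
        xx 0 ^ (i : ℕ) * xx 1 ^ (j : ℕ) := by
      simp [m, MvPolynomial.X_pow_eq_monomial]
    rw [this, map_mul, map_pow, map_pow, evA_xx0, evA_xx1]
    simp only [map_mul, mul_assoc, ← Finset.mul_sum, Pi.add_apply, map_add, add_mul,
      Finset.sum_add_distrib, ← e j, map_pow]
    rw [Finset.sum_eq_single j (fun k _ hk => by simp [hk]) (by simp)]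
    simp

end MINK

theorem mink : S_MINK := by
  intro K _ _ W d φ t hφ
  obtain ⟨T, hT, h⟩ := MINK.base W φ hφ (Finset.univ.sup fun j => (t j).toNat)
  refine MINK.down W φ _ (fun j => (T j - t j).toNat) t rfl ?_
  convert h using 2 with j
  have h1 : (t j).toNat ≤ T j :=
    (Finset.le_sup (f := fun j => (t j).toNat) (Finset.mem_univ j)).trans (hT j)
  omega

end Pool.Agent.KSP

end

end MrgPart3

-- ======== part 4: formerly Pool.Agent.MP_c8dfda_nt.kp.VEC
section MrgPart4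

/-! Polynomial maps of the plane: the vector of a family. -/

open Polynomial Filter Real
open scoped Topology

noncomputable section

namespace Pool.Agent.KSP

namespace VEC

variable {K : Type} [Field K] (W : Md K)

/-- A disc that agrees with the point on finitely many linear polynomials. -/
theorem disc (ζ : Pt W.n) (hX : ζ.f X ≤ exp 1) (S : Multiset W.E) (h0 : (0 : W.E) ∈ S)
    (hp : ∀ β ∈ S, 0 < ζ.f (X - C β)) : ∃ a : W.E × ℝ, W.In a ∧ ζ.f (X - C a.1) ≤ exp a.2 ∧
      ∀ β ∈ S, ζ.f (X - C β) = max (exp a.2) (W.n (a.1 - β)) := by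
  classical
  obtain ⟨b, hb, hm⟩ := S.toFinset.exists_min_image (fun β => ζ.f (X - C β))
    ⟨0, Multiset.mem_toFinset.2 h0⟩
  have hb' := hp b (Multiset.mem_toFinset.1 hb)
  have h1 : ζ.f (X - C b) ≤ exp 1 := by
    have := hm 0 (Multiset.mem_toFinset.2 h0)
    rw [C_0, sub_zero] at this
    exact this.trans hX
  refine ⟨(b, log (ζ.f (X - C b))), ⟨?_, (log_le_iff_le_exp hb').2 h1⟩, (exp_log hb').ge,
    fun β hβ => ?_⟩
  · have := ζ.sub X (X - C b)
    rw [sub_sub_cancel, ζ.cst] at this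
    exact this.trans (max_le hX h1)
  · have h2 := hm β (Multiset.mem_toFinset.2 hβ)
    show _ = max (exp (log _)) (W.n (b - β))
    rw [exp_log hb']
    refine le_antisymm ?_ (max_le h2 ?_)
    · have := ζ.add (X - C b) (C (b - β))
      rwa [ζ.cst, C_sub, sub_add_sub_cancel] at this
    · have := ζ.sub (X - C β) (X - C b)
      rw [sub_sub_sub_cancel_left, ← C_sub, ζ.cst] at this
      exact this.trans (max_le le_rfl h2)

theorem gn_eq (ζ : Pt W.n) (a : W.E × ℝ) (f : W.E[X])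
    (h : ∀ β ∈ f.roots, ζ.f (X - C β) = max (exp a.2) (W.n (a.1 - β))) : W.gn a f = ζ.f f := by
  rw [W.gn_roots, ζ.roots f, Multiset.map_congr rfl h]

theorem B_sum {ι : Type} [Fintype ι] (w : ι → ℝ) (u : ι → W.V) (r : W.V) :
    W.B (∑ i, w i • u i) r = ∑ i, w i * W.B (u i) r := by
  simp only [map_sum, map_smul, LinearMap.sum_apply, LinearMap.smul_apply, smul_eq_mul]

theorem avg {ι : Type} [Fintype ι] (z l : ι → ℝ) (hZ : ∑ i, z i ≠ 0) (D : ℝ) :
    ∑ i, z i / (∑ j, z j) * (D - l i) = D - (∑ i, z i * l i) / ∑ j, z j := by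
  simp only [mul_sub, div_mul_eq_mul_div, Finset.sum_sub_distrib, ← Finset.sum_div,
    ← Finset.sum_mul]
  rw [mul_div_cancel_left₀ _ hZ]

end VEC

theorem vec (h1 : S_GAL) (h2 : S_ROOT) (h3 : S_NEF) : S_VEC := by
  intro K _ _ W ι _ _ N hna hz hx φ hφ
  classical
  choose ζ hζ using fun i => W.univ (N i) (hna i) (hz i) (hx i)
  have hζ' : ∀ i (ψ : R K), ψ ≠ 0 → 0 < (ζ i).f (W.ev ψ) ∧
      lg (N i) ψ = zz (N i) * log ((ζ i).f (W.ev ψ)) := hζ
  have hX : ∀ i, (ζ i).f X ≤ exp 1 := fun i => by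
    obtain ⟨a, b⟩ := hζ' i (xx 1) (xx_ne 1)
    rw [evA_xx1] at a b
    refine (log_le_iff_le_exp a).1 (le_of_mul_le_mul_left ?_ (hz i))
    rw [← b, mul_one]
    exact lg_xx_le _ _
  have hZ : 0 < ZZ N := Finset.sum_pos (fun i _ => hz i) Finset.univ_nonempty
  obtain ⟨T₀, hT₀⟩ := ((Finset.univ ×ˢ (W.ev φ).roots.toFinset).image
    fun p : ι × W.E => -log ((ζ p.1).f (X - C p.2))).bddAbove
  refine ⟨T₀, fun T hT G G' hG hG' => ?_⟩
  have hP : φ * G * G' * xx 1 ≠ 0 := mul_ne_zero (mul_ne_zero (mul_ne_zero hφ hG) hG') (xx_ne 1)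
  obtain ⟨hP0, -, -, hP1⟩ := h2 K W _ hP
  have sub : ∀ H, H ∣ φ * G * G' * xx 1 → ∀ β ∈ (W.ev H).roots,
      β ∈ (W.ev (φ * G * G' * xx 1)).roots := fun H hH β hβ =>
    Multiset.mem_of_le (roots.le_of_dvd hP0 (map_dvd _ hH)) hβ
  have z0 : (0 : W.E) ∈ (W.ev (φ * G * G' * xx 1)).roots :=
    sub _ (dvd_mul_left _ _) 0 (by rw [evA_xx1, roots_X]; exact Multiset.mem_singleton_self _)
  choose a hin hle heq using fun i => VEC.disc W (ζ i) (hX i) _ z0
    (hP1 (ζ i) (hX i) (hζ' i _ hP).1).1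
  have gal := (h1 K W).2.2.1
  refine ⟨∑ i, (zz (N i) / ZZ N) • W.av (a i), fun pf => ?_, ?_, fun H hH s hs => ?_⟩
  · refine h3 K W ι ζ _ a (fun i => div_nonneg (hz i).le hZ.le) ?_ hX hin hle fun ψ hψ =>
      ⟨fun i => (hζ' i ψ hψ).1, ?_⟩
    · rw [← Finset.sum_div]
      exact div_self hZ.ne'
    · simp only [div_mul_eq_mul_div, ← Finset.sum_div]
      refine div_nonneg ?_ hZ.le
      rw [← Finset.sum_congr rfl fun i _ => (hζ' i ψ hψ).2]
      exact pf ψ hψ
  · have key : ∀ i, W.B (W.av (a i)) (W.rt (W.ev φ) fun _ => -T) =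
        dg φ - log ((ζ i).f (W.ev φ)) := fun i => by
      obtain ⟨u, v⟩ := (h2 K W φ hφ).2.2.2 (ζ i) (hX i) (hζ' i φ hφ).1
      rw [← W.up_evL, gal _ _ (fun _ _ => rfl), W.up_evL, W.B_sg_rt, v, sub_sub_cancel]
      refine congrArg _ (Multiset.map_congr rfl fun β hβ => ?_)
      have e1 := heq i β (sub φ ⟨G * G' * xx 1, by ring⟩ β hβ)
      have e2 : exp (-T) ≤ (ζ i).f (X - C β) := by
        have := hT₀ (Finset.mem_coe.2 (Finset.mem_image_of_mem _ (Finset.mem_product.2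
          ⟨Finset.mem_univ i, Multiset.mem_toFinset.2 hβ⟩ : (i, β) ∈ _)))
        exact (le_log_iff_exp_le (u β hβ)).1 (by linarith)
      show max 0 (1 - log (max (W.n ((a i).1 - β)) (max (exp (a i).2) (exp (-T))))) = _
      rw [← max_assoc, max_comm (W.n _), ← e1, max_eq_left e2]
    rw [VEC.B_sum]
    simp only [key]
    rw [ZZ, VEC.avg _ _ hZ.ne', Nn, Finset.sum_congr rfl fun i _ => (hζ' i φ hφ).2]
  · have hH0 : H ≠ 0 := hH.elim (fun e => e ▸ hG) fun e => e ▸ hG'
    have hd : H ∣ φ * G * G' * xx 1 :=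
      hH.elim (fun e => ⟨φ * G' * xx 1, by rw [e]; ring⟩) fun e => ⟨φ * G * xx 1, by rw [e]; ring⟩
    have key : ∀ i, W.B (W.av (a i)) (W.rt (W.ev H) s) =
        dg H - max 0 (log ((ζ i).f (W.ev H))) := fun i => by
      rw [← W.up_evL, gal _ _ hs.inv, W.up_evL, hs.ins _ (hin i),
        VEC.gn_eq W (ζ i) _ _ fun β hβ => heq i β (sub H hd β hβ)]
    rw [VEC.B_sum]
    simp only [key]
    rw [ZZ, VEC.avg _ _ hZ.ne', hh]
    congr 2
    refine Finset.sum_congr rfl fun i _ => ?_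
    rw [lp, (hζ' i H hH0).2, mul_max_of_nonneg _ _ (hz i).le, mul_zero]

end Pool.Agent.KSP

end

end MrgPart4

-- ======== part 5: formerly Pool.Agent.MP_c8dfda_nt.kp.GEN
section MrgPart5

/-! Polynomial maps of the plane: a generic linear change of coordinates. -/

open Polynomial Filter Real
open scoped Topology

noncomputable section

namespace Pool.Agent.KSP

namespace GEN

variable {K : Type} [Field K]

/-- the shear -/
def sh (c : K) : R K →ₐ[K] R K := MvPolynomial.aeval ![xx 0 + cc c * xx 1, xx 1]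

theorem sh0 (c : K) : sh c (xx 0) = xx 0 + cc c * xx 1 := by simp [sh]

theorem sh1 (c : K) : sh c (xx 1) = xx 1 := by simp [sh]

theorem sh_comp (c c' : K) (h : c + c' = 0) : (sh c).comp (sh c') = AlgHom.id K (R K) := by
  refine MvPolynomial.algHom_ext fun j => ?_
  fin_cases j
  · show sh c (sh c' (xx 0)) = xx 0
    rw [sh0, map_add, map_mul, sh0, sh1, MvPolynomial.algHom_C, add_assoc,
      MvPolynomial.algebraMap_eq, ← add_mul, ← map_add, h, map_zero, zero_mul, add_zero]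
  · show sh c (sh c' (xx 1)) = xx 1
    rw [sh1, sh1]

/-- the shear as an automorphism -/
def se (c : K) : R K ≃ₐ[K] R K :=
  AlgEquiv.ofAlgHom (sh c) (sh (-c)) (sh_comp _ _ (add_neg_cancel c)) (sh_comp _ _ (neg_add_cancel c))

theorem dd_sh (c : K) : dd (sh c) ≤ 1 := by
  refine max_le ?_ (by rw [sh1]; simp)
  rw [sh0]
  refine (MvPolynomial.totalDegree_add _ _).trans (max_le (by simp) ?_)
  refine (MvPolynomial.totalDegree_mul _ _).trans ?_
  simp

theorem dg_sh (c : K) (φ : R K) : dg (sh c φ) ≤ dg φ :=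
  (dg_map_le _ φ).trans (by simpa using Nat.mul_le_mul_right (dg φ) (dd_sh c))

theorem zz_le {s : R K →ₐ[K] R K} {σ : M K →ₐ[K] M K} (h : Cmp s σ) (hs : dd s ≤ 1) {v : AV K}
    (hv : NA K v) : zz (cp v σ) ≤ zz v := by
  have k : ∀ j, lp (cp v σ) (xx j) ≤ zz v := fun j => by
    rw [lp, h.lg_cp]
    refine (lp_le hv _).trans (mul_le_of_le_one_left (zz_nonneg v) ?_)
    exact_mod_cast (dg_xx_le s j).trans hs
  exact max_le (k 0) (k 1)

theorem av_cc {v : AV K} (hv : NA K v) (c : K) (φ : R K) : v (io (cc c * φ)) ≤ v (io φ) := by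
  rw [map_mul, map_mul, io_cc]
  exact mul_le_of_le_one_left (v.nonneg _) (hv.le_one c)

theorem av_sub {v : AV K} (hv : NA K v) {φ ψ : R K} {B : ℝ} (h : v (io φ) < B)
    (k : v (io ψ) < B) : v (io (φ - ψ)) < B := by
  rw [map_sub, sub_eq_add_neg]
  exact (hv.1 _ _).trans_lt (max_lt h (by rwa [v.map_neg]))

theorem bad {v : AV K} (hv : NA K v) (h : 0 < zz v) :
    {c : K | v (io (xx 0 + cc c * xx 1)) < exp (zz v)}.Subsingleton := fun c hc c' hc' => by
  by_contra ne
  have h1 : v (io (xx 1)) < exp (zz v) := by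
    have e : (xx 1 : R K) = cc (c - c')⁻¹ * (xx 0 + cc c * xx 1 - (xx 0 + cc c' * xx 1)) := by
      rw [add_sub_add_left_eq_sub, ← sub_mul, ← map_sub, ← mul_assoc, ← map_mul,
        inv_mul_cancel₀ (sub_ne_zero.2 ne), map_one, one_mul]
    rw [e]
    exact (av_cc hv _ _).trans_lt (av_sub hv hc hc')
  have h0 : v (io (xx 0)) < exp (zz v) := by
    have := av_sub hv hc ((av_cc hv c _).trans_lt h1)
    rwa [add_sub_cancel_right] at this
  obtain ⟨j, hj⟩ := exists_lg_xx h
  rw [← hj, exp_lg v (xx_ne j)] at h0 h1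
  fin_cases j
  exacts [lt_irrefl _ h0, lt_irrefl _ h1]

end GEN

open GEN in
theorem gen : S_GEN := fun K _ _ ι _ N S hN hz => by
  have fin := S.finite_toSet.union (Set.finite_iUnion fun i => (bad (hN i) (hz i)).finite)
  obtain ⟨c, hc⟩ := fin.exists_notMem
  rw [Set.mem_union, not_or, Set.mem_iUnion, not_exists] at hc
  let σ : M K ≃ₐ[K] M K := IsFractionRing.algEquivOfAlgEquiv (se c)
  have h1 : Cmp (sh c) (σ : M K →ₐ[K] M K) := fun φ =>
    IsFractionRing.algEquivOfAlgEquiv_algebraMap (se c) φ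
  have h2 : Cmp (sh (-c)) (σ.symm : M K →ₐ[K] M K) := fun φ =>
    σ.injective ((σ.apply_symm_apply _).trans
      ((h1 _).trans (congrArg io ((se c).apply_symm_apply φ))).symm)
  refine ⟨c, hc.1, se c, σ, h1, sh0 c, sh1 c, fun φ => le_antisymm (dg_sh c φ) ?_, fun i => ?_,
    fun v hv => le_antisymm (zz_le h1 (dd_sh c) hv) ?_⟩
  · exact (congrArg dg ((se c).symm_apply_apply φ)).symm.le.trans (dg_sh (-c) _)
  · show lg (N i) (sh c (xx 0)) = _
    refine exp_injective (le_antisymm (exp_le_exp.2 ((lg_le (hN i) _).trans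
      (mul_le_of_le_one_left (zz_nonneg _) ?_))) ?_)
    · exact_mod_cast (dg_xx_le (sh c) 0).trans (dd_sh c)
    · rw [exp_lg _ (h1.ne (xx_ne 0)), sh0]
      exact not_lt.1 (hc.2 i)
  · have e : cp (cp v (σ : M K →ₐ[K] M K)) (σ.symm : M K →ₐ[K] M K) = v := by
      ext a
      exact congrArg v (σ.apply_symm_apply a)
    exact (congrArg zz e).symm.le.trans (zz_le h2 (dd_sh (-c)) (hv.cp _))

end Pool.Agent.KSP

end

end MrgPart5

-- ======== part 6: formerly Pool.Agent.MP_c8dfda_nt.kp.TRA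
section MrgPart6

/-! Polynomial maps of the plane: a point is a disc or immediate. -/

open Polynomial Filter Real
open scoped Topology

noncomputable section

namespace Pool.Agent.KSP

namespace TRA

variable {A : Type} [Field A] {n : AbsoluteValue A ℝ} (ζ : Pt n)

theorem at_min {b : A} (h : ∀ β, ζ.f (X - C b) ≤ ζ.f (X - C β)) (β : A) :
    ζ.f (X - C β) = max (ζ.f (X - C b)) (n (b - β)) := by
  refine le_antisymm ?_ (max_le (h β) ?_)
  · have := ζ.add (X - C b) (C (b - β))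
    rwa [ζ.cst, C_sub, sub_add_sub_cancel] at this
  · have := ζ.sub (X - C β) (X - C b)
    rw [sub_sub_sub_cancel_left, ← C_sub, ζ.cst] at this
    exact this.trans (max_le le_rfl (h β))

theorem below (h : ∀ b, 0 < ζ.f (X - C b) → ∃ b', ζ.f (X - C b') < ζ.f (X - C b))
    (s : Multiset A) (hs : ∀ β ∈ s, 0 < ζ.f (X - C β)) :
    ∃ b, ∀ β ∈ s, ζ.f (X - C b) < ζ.f (X - C β) := by
  induction s using Multiset.induction_on with
  | empty => exact ⟨0, fun _ k => absurd k (Multiset.notMem_zero _)⟩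
  | cons a s ih =>
    obtain ⟨b, hb⟩ := ih fun β k => hs β (Multiset.mem_cons_of_mem k)
    obtain ⟨b', hb'⟩ := h a (hs a (Multiset.mem_cons_self _ _))
    rcases le_total (ζ.f (X - C b)) (ζ.f (X - C b')) with e | e
    · refine ⟨b, fun β k => ?_⟩
      rcases Multiset.mem_cons.1 k with rfl | k
      exacts [e.trans_lt hb', hb β k]
    · refine ⟨b', fun β k => ?_⟩
      rcases Multiset.mem_cons.1 k with rfl | k
      exacts [hb', e.trans_lt (hb β k)]

theorem prod_lt {b : A} (s : Multiset A) (hs : ∀ β ∈ s, ζ.f (X - C b) < ζ.f (X - C β)) :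
    ζ.f ((s.map fun β => X - C β).prod - C (((s.map fun β => X - C β).prod).eval b)) <
      ζ.f (s.map fun β => X - C β).prod := by
  induction s using Multiset.induction_on with
  | empty => simp
  | cons a s ih =>
    have h1 := ih fun β k => hs β (Multiset.mem_cons_of_mem k)
    have h2 := hs a (Multiset.mem_cons_self _ _)
    rw [Multiset.map_cons, Multiset.prod_cons]
    generalize (s.map fun β => X - C β).prod = Q at h1 ⊢
    have h3 : (X - C a) * Q - C (((X - C a) * Q).eval b) =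
        (X - C a) * (Q - C (Q.eval b)) + (X - C b) * C (Q.eval b) := by
      rw [eval_mul, eval_sub, eval_X, eval_C, C_mul, C_sub]; ring
    rw [h3]
    refine (ζ.add _ _).trans_lt (max_lt ?_ ?_)
    · rw [map_mul, map_mul]
      exact mul_lt_mul_of_pos_left h1 ((ζ.nn _).trans_lt h2)
    · rw [map_mul, map_mul, ζ.eq_of_sub_lt h1]
      exact mul_lt_mul_of_pos_right h2 ((ζ.nn _).trans_lt h1)

theorem imm [IsAlgClosed A]
    (h : ∀ b, 0 < ζ.f (X - C b) → ∃ b', ζ.f (X - C b') < ζ.f (X - C b)) (f : A[X])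
    (hf : 0 < ζ.f f) : ∃ γ, ζ.f (f - C γ) < ζ.f f := by
  obtain ⟨b, hb⟩ := below ζ h f.roots fun β k => by
    obtain ⟨g, hg⟩ := dvd_iff_isRoot.2 (isRoot_of_mem_roots k)
    rw [hg, map_mul] at hf
    exact pos_of_mul_pos_left hf (ζ.nn g)
  have h1 := prod_lt ζ f.roots hb
  have h2 := (IsAlgClosed.splits f).eq_prod_roots
  generalize (f.roots.map fun β => X - C β).prod = Q at h1 h2
  generalize f.leadingCoeff = c at h2
  subst h2
  refine ⟨c * Q.eval b, ?_⟩
  rw [C_mul, ← mul_sub, map_mul, map_mul] at *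
  exact mul_lt_mul_of_pos_left h1 (pos_of_mul_pos_left hf (ζ.nn Q))

end TRA

theorem tra : S_TRA := by
  intro K _ _ W ζ
  by_cases h : ∃ b, 0 < ζ.f (X - C b) ∧ ∀ β, ζ.f (X - C b) ≤ ζ.f (X - C β)
  · obtain ⟨b, h0, h⟩ := h
    refine Or.inl ⟨(b, log (ζ.f (X - C b))), fun f => ?_⟩
    rw [ζ.roots, W.gn_roots, exp_log h0]
    simp only [← TRA.at_min ζ h]
  · refine Or.inr (TRA.imm ζ fun b hb => ?_)
    by_contra k
    exact h ⟨b, hb, fun β => not_lt.1 fun e => k ⟨β, e⟩⟩

end Pool.Agent.KSP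

end

end MrgPart6

-- ======== part 7: formerly Pool.Agent.MP_c8dfda_nt.kp.CN1
section MrgPart7

/-! Polynomial maps of the plane: a product of curvettes. -/

open Polynomial Filter Real
open scoped Topology

noncomputable section

namespace Pool.Agent.KSP

namespace CN1

variable {K : Type} [Field K] (W : Md K)

/-- the statement on conjugates -/
def Gal : Prop :=
  (∀ β : W.E, 0 < (minpoly W.L β).natDegree ∧ (W.up (minpoly W.L β)).roots.Nodup ∧
    (W.up (minpoly W.L β)).roots.card = (minpoly W.L β).natDegree ∧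
    ∀ β', β' ∈ (W.up (minpoly W.L β)).roots ↔ ∃ σ : W.E ≃ₐ[W.L] W.E, σ β = β') ∧
  (∀ (f : W.L[X]) (σ : W.E ≃ₐ[W.L] W.E), (W.up f).roots.map σ = (W.up f).roots ∧
    ∀ β t, W.gn (σ β, t) (W.up f) = W.gn (β, t) (W.up f)) ∧
  (∀ (f : W.L[X]) (s : W.E → ℝ), W.Inv s → ∀ a,
    W.B (W.av a) (W.rt (W.up f) s) = W.B (W.sg a) (W.rt (W.up f) s)) ∧
  ∀ γ : W.E, (∀ σ : W.E ≃ₐ[W.L] W.E, σ γ = γ) → ∃ a : W.L, algebraMap W.L W.E a = γ

variable {W}

theorem mon (θ : W.E) : (minpoly W.L θ).Monic :=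
  have : Algebra.IsAlgebraic W.L W.E := IsAlgClosure.isAlgebraic
  minpoly.monic (Algebra.IsIntegral.isIntegral θ)

theorem av_av (h : Gal W) (a b : W.E × ℝ) : W.B (W.av a) (W.av b) = W.B (W.sg a) (W.av b) := by
  rw [show W.av b = ((minpoly W.L b.1).natDegree : ℝ)⁻¹ •
    W.rt (W.up (minpoly W.L b.1)) (fun _ => b.2) from rfl, map_smul, map_smul,
    h.2.2.1 _ _ (fun _ _ => rfl) a]

theorem sg_av (a b : W.E × ℝ) : W.B (W.sg a) (W.av b) = ((minpoly W.L b.1).natDegree : ℝ)⁻¹ *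
    ((W.up (minpoly W.L b.1)).roots.map fun β => W.kk a (β, b.2)).sum := by
  rw [show W.av b = ((minpoly W.L b.1).natDegree : ℝ)⁻¹ •
    W.rt (W.up (minpoly W.L b.1)) (fun _ => b.2) from rfl, map_smul, W.B_sg_rt, smul_eq_mul]

theorem max_center {θ β : W.E} {ρ : ℝ} (h : W.n (θ - β) ≤ ρ) (c : W.E) :
    max ρ (W.n (θ - c)) = max ρ (W.n (β - c)) := by
  have key : ∀ u v : W.E, W.n (u - v) ≤ ρ → max ρ (W.n (u - c)) ≤ max ρ (W.n (v - c)) := by
    intro u v k
    refine max_le (le_max_left _ _) ?_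
    have := W.na.1 (u - v) (v - c)
    rw [sub_add_sub_cancel] at this
    exact this.trans (max_le_max k le_rfl)
  exact le_antisymm (key _ _ h) (key _ _ (by rwa [W.n.map_sub]))

theorem kk_center {θ β : W.E} {s : ℝ} (h : W.n (θ - β) ≤ exp s) (c : W.E × ℝ) :
    W.kk (θ, s) c = W.kk (β, s) c := by
  unfold Md.kk
  dsimp only
  rw [← max_assoc, ← max_assoc, max_comm (W.n (θ - c.1)), max_comm (W.n (β - c.1)), max_center h]

theorem av_center (h : Gal W) {θ β : W.E} {s : ℝ} (k : W.n (θ - β) ≤ exp s) (b : W.E × ℝ) :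
    W.B (W.av b) (W.av (θ, s)) = W.B (W.av b) (W.av (β, s)) := by
  rw [W.B_symm, W.B_symm (W.av b), av_av h, av_av h, sg_av, sg_av]
  simp only [kk_center k]

theorem kk_rat (h : ∀ γ : W.E, γ ≠ 0 → ∃ r : ℚ, W.n γ = exp r) (a b : W.E) (s t : ℚ) :
    ∃ q : ℚ, W.kk (a, s) (b, t) = q := by
  have k : ∃ r : ℚ, max (W.n (a - b)) (max (exp s) (exp t)) = exp r := by
    rcases max_choice (W.n (a - b)) (max (exp (s : ℝ)) (exp (t : ℝ))) with e | e
    · have p : 0 < W.n (a - b) :=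
        e ▸ (exp_pos (s : ℝ)).trans_le ((le_max_left _ _).trans (le_max_right _ _))
      obtain ⟨r, hr⟩ := h (a - b) fun c => by rw [c, map_zero] at p; exact lt_irrefl _ p
      exact ⟨r, e.trans hr⟩
    · rcases max_choice (exp (s : ℝ)) (exp (t : ℝ)) with e' | e'
      · exact ⟨s, e.trans e'⟩
      · exact ⟨t, e.trans e'⟩
  obtain ⟨r, hr⟩ := k
  refine ⟨max 0 (1 - r), ?_⟩
  unfold Md.kk
  dsimp only
  rw [hr, log_exp]
  push_cast
  rfl

theorem sum_rat {α : Type} (S : Multiset α) (f : α → ℝ) (h : ∀ a, ∃ q : ℚ, f a = q) :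
    ∃ q : ℚ, (S.map f).sum = q := by
  induction S using Multiset.induction_on with
  | empty => exact ⟨0, by simp⟩
  | cons a S ih =>
    obtain ⟨q, hq⟩ := ih
    obtain ⟨r, hr⟩ := h a
    exact ⟨r + q, by rw [Multiset.map_cons, Multiset.sum_cons, hq, hr, Rat.cast_add]⟩

theorem av_rat (hG : Gal W) (h : ∀ γ : W.E, γ ≠ 0 → ∃ r : ℚ, W.n γ = exp r) (a b : W.E)
    (s t : ℚ) : ∃ q : ℚ, 1 - W.B (W.av (a, s)) (W.av (b, t)) = q := by
  obtain ⟨q, hq⟩ := sum_rat (W.up (minpoly W.L b)).roots (fun β => W.kk (a, s) (β, t))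
    fun β => kk_rat h a β s t
  refine ⟨1 - ((minpoly W.L b).natDegree : ℚ)⁻¹ * q, ?_⟩
  rw [av_av hG, sg_av]
  dsimp only
  rw [hq]
  push_cast
  rfl

theorem prod_exp {α : Type} (S : Multiset α) (f g : α → ℝ) (h : ∀ a ∈ S, f a = exp (1 - g a)) :
    (S.map f).prod = exp (S.card - (S.map g).sum) := by
  induction S using Multiset.induction_on with
  | empty => simp
  | cons a S ih =>
    rw [Multiset.map_cons, Multiset.prod_cons, Multiset.map_cons, Multiset.sum_cons,
      Multiset.card_cons, ih fun b hb => h b (Multiset.mem_cons_of_mem hb),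
      h a (Multiset.mem_cons_self _ _), ← exp_add]
    congr 1
    push_cast
    ring

/-- the value of one curvette on a disc -/
theorem gn_min (h : Gal W) {θ β : W.E} {s : ℝ} {a : W.E × ℝ} (ha : W.In a) (hb : W.In (β, s))
    (k : W.n (θ - β) ≤ exp s) (g : ∀ σ : W.E ≃ₐ[W.L] W.E, exp s ≤ W.n (σ θ - a.1)) :
    W.gn a (W.up (minpoly W.L θ)) =
      exp ((minpoly W.L θ).natDegree * (1 - W.B (W.av a) (W.av (β, s)))) := by
  obtain ⟨d0, -, d2, d3⟩ := h.1 θ
  have m : (W.up (minpoly W.L θ)).Monic := (mon θ).map _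
  have nθ : W.n θ ≤ exp 1 := by
    have := W.na.1 (θ - β) β
    rw [sub_add_cancel] at this
    exact this.trans (max_le (k.trans (exp_le_exp.2 hb.2)) hb.1)
  rw [W.gn_roots, m.leadingCoeff, map_one, one_mul,
    prod_exp _ _ (fun c => W.kk a (c, s)) ?_, d2, ← av_center h k, av_av h, sg_av]
  · have : ((minpoly W.L θ).natDegree : ℝ) ≠ 0 := Nat.cast_ne_zero.2 d0.ne'
    congr 1
    dsimp only
    field_simp
  · intro c hc
    obtain ⟨σ, rfl⟩ := (d3 c).1 hc
    have e1 : exp s ≤ W.n (a.1 - σ θ) := by rw [W.n.map_sub]; exact g σ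
    have e2 : max (W.n (a.1 - σ θ)) (max (exp a.2) (exp s)) = max (exp a.2) (W.n (a.1 - σ θ)) := by
      rw [max_comm (exp a.2) (exp s), ← max_assoc, max_eq_left e1, max_comm]
    have e3 : max (exp a.2) (W.n (a.1 - σ θ)) ≤ exp 1 :=
      max_le (exp_le_exp.2 ha.2) (KSkew.na_sub_le W.na.1 ha.1 (by rw [W.conj]; exact nθ))
    have e4 : 0 < max (exp a.2) (W.n (a.1 - σ θ)) := (exp_pos _).trans_le (le_max_left _ _)
    unfold Md.kk
    dsimp only
    rw [e2, max_eq_right (sub_nonneg.2 ((log_le_iff_le_exp e4).2 e3)), sub_sub_cancel, exp_log e4]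

theorem conj_sub (σ τ : W.E ≃ₐ[W.L] W.E) (a b : W.E) :
    W.n (σ a - τ b) = W.n ((σ.trans τ.symm) a - b) := by
  rw [← W.conj τ.symm, map_sub, τ.symm_apply_apply]
  rfl

/-- successive generic points -/
theorem choose_pts {ι T : Type} [Fintype ι] (β : ι → W.E) (r : ι → ℝ) (m : ι → ℕ) (i : T → ι)
    (h : ∀ j (Y : Finset W.E), ∃ θ : W.E, (minpoly W.L θ).natDegree = m j ∧ W.n (θ - β j) ≤ r j ∧
      (∀ y ∈ Y, ∀ σ : W.E ≃ₐ[W.L] W.E, r j ≤ W.n (σ θ - y)) ∧
      ∀ σ : W.E ≃ₐ[W.L] W.E, σ θ ≠ θ → r j ≤ W.n (σ θ - θ)) (S : Finset T) :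
    ∃ θ : T → W.E, (∀ t ∈ S, (minpoly W.L (θ t)).natDegree = m (i t) ∧
      W.n (θ t - β (i t)) ≤ r (i t) ∧
      (∀ l, ∀ σ : W.E ≃ₐ[W.L] W.E, r (i t) ≤ W.n (σ (θ t) - β l)) ∧
      ∀ σ : W.E ≃ₐ[W.L] W.E, σ (θ t) ≠ θ t → r (i t) ≤ W.n (σ (θ t) - θ t)) ∧
      ∀ t ∈ S, ∀ t' ∈ S, t ≠ t' → ∀ σ : W.E ≃ₐ[W.L] W.E, r (i t) ≤ W.n (σ (θ t) - θ t') := by
  classical
  induction S using Finset.induction with
  | empty => exact ⟨fun _ => 0, by simp, by simp⟩
  | insert u S hu ih =>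
    obtain ⟨θ, h1, h2⟩ := ih
    obtain ⟨η, k1, k2, k3, k4⟩ := h (i u) (Finset.univ.image β ∪ S.image θ)
    have k5 : ∀ l, ∀ σ : W.E ≃ₐ[W.L] W.E, r (i u) ≤ W.n (σ η - β l) := fun l =>
      k3 _ (Finset.mem_union_left _ (Finset.mem_image_of_mem _ (Finset.mem_univ l)))
    have k6 : ∀ t ∈ S, ∀ σ : W.E ≃ₐ[W.L] W.E, r (i u) ≤ W.n (σ η - θ t) := fun t ht =>
      k3 _ (Finset.mem_union_right _ (Finset.mem_image_of_mem _ ht))
    have ne : ∀ t ∈ S, t ≠ u := fun t ht c => hu (c ▸ ht)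
    refine ⟨Function.update θ u η, fun t ht => ?_, fun t ht t' ht' htt σ => ?_⟩
    · rcases Finset.mem_insert.1 ht with rfl | hS
      · rw [Function.update_self]
        exact ⟨k1, k2, k5, k4⟩
      · rw [Function.update_of_ne (ne t hS)]
        exact h1 t hS
    · rcases Finset.mem_insert.1 ht with rfl | hS
      · have hS' := (Finset.mem_insert.1 ht').resolve_left htt.symm
        rw [Function.update_self, Function.update_of_ne (ne t' hS')]
        exact k6 t' hS' σ
      · rcases Finset.mem_insert.1 ht' with rfl | hS'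
        · rw [Function.update_self, Function.update_of_ne (ne t hS)]
          by_cases c : r (i t) ≤ r (i t')
          · refine c.trans ?_
            have := k6 t hS σ.symm
            rwa [← W.conj σ, map_sub, σ.apply_symm_apply, W.n.map_sub] at this
          · have e1 := (h1 t hS).2.2.1 (i t') σ
            have e2 := W.na.1 (σ (θ t) - η) (η - β (i t'))
            rw [sub_add_sub_cancel] at e2
            rcases le_max_iff.1 (e1.trans e2) with e | e
            · exact e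
            · exact absurd (e.trans k2) c
        · rw [Function.update_of_ne (ne t hS), Function.update_of_ne (ne t' hS')]
          exact h2 t hS t' hS' htt σ

/-- the product of the minimal polynomials -/
theorem build (h : Gal W) {ι T : Type} [Fintype T] [Nonempty T] (β : ι → W.E) (s : ι → ℝ)
    (i : T → ι) (θ : T → W.E) (hin : ∀ l, W.In (β l, s l))
    (h1 : ∀ t, W.n (θ t - β (i t)) ≤ exp (s (i t)))
    (h2 : ∀ t l, ∀ σ : W.E ≃ₐ[W.L] W.E, exp (s (i t)) ≤ W.n (σ (θ t) - β l))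
    (h3 : ∀ t, ∀ σ : W.E ≃ₐ[W.L] W.E, σ (θ t) ≠ θ t → exp (s (i t)) ≤ W.n (σ (θ t) - θ t))
    (h4 : ∀ t t', t ≠ t' → ∀ σ : W.E ≃ₐ[W.L] W.E, exp (s (i t)) ≤ W.n (σ (θ t) - θ t'))
    (h5 : ∀ l, ∑ t, ((minpoly W.L (θ t)).natDegree : ℝ) *
      (1 - W.B (W.av (β l, s l)) (W.av (β (i t), s (i t)))) = 0)
    (h6 : 0 ≤ ∑ t, ((minpoly W.L (θ t)).natDegree : ℝ) * (1 + s (i t))) :
    W.Cv (fun l => (β l, s l)) (∏ t, minpoly W.L (θ t)) := by
  classical
  have mU : (∏ t, minpoly W.L (θ t)).Monic := monic_prod_of_monic _ _ fun t _ => mon _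
  have dU : (∏ t, minpoly W.L (θ t)).natDegree = ∑ t, (minpoly W.L (θ t)).natDegree :=
    natDegree_prod_of_monic _ _ fun t _ => mon _
  have eU : W.up (∏ t, minpoly W.L (θ t)) = ∏ t, W.up (minpoly W.L (θ t)) :=
    Polynomial.map_prod _ _ _
  have mU' : (W.up (∏ t, minpoly W.L (θ t))).Monic := mU.map _
  have rU : (W.up (∏ t, minpoly W.L (θ t))).roots =
      Finset.univ.val.bind fun t => (W.up (minpoly W.L (θ t))).roots := by
    rw [eU]
    exact roots_prod _ _ (eU ▸ mU'.ne_zero)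
  have mem : ∀ c ∈ (W.up (∏ t, minpoly W.L (θ t))).roots,
      ∃ t, ∃ σ : W.E ≃ₐ[W.L] W.E, σ (θ t) = c := fun c hc => by
    rw [rU] at hc
    obtain ⟨t, -, ht⟩ := Multiset.mem_bind.1 hc
    exact ⟨t, ((h.1 _).2.2.2 c).1 ht⟩
  have far : ∀ t t', ∀ σ τ : W.E ≃ₐ[W.L] W.E, t ≠ t' ∨ σ (θ t) ≠ τ (θ t') →
      exp (s (i t)) ≤ W.n (σ (θ t) - τ (θ t')) := fun t t' σ τ c => by
    rw [conj_sub]
    by_cases e : t = t'
    · subst e
      refine h3 t _ fun k => c.resolve_left (fun u => u rfl) ?_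
      rw [← k]
      exact (τ.apply_symm_apply _).symm.trans (by rw [k]; exact congrArg τ k)
    · exact h4 t t' e _
  have nd : (W.up (∏ t, minpoly W.L (θ t))).roots.Nodup := by
    rw [rU, Multiset.nodup_bind]
    refine ⟨fun t _ => (h.1 _).2.1, Finset.univ.nodup.pairwise fun t _ t' _ e => ?_⟩
    refine Multiset.disjoint_left.2 fun {c} k k' => ?_
    obtain ⟨σ, rfl⟩ := ((h.1 _).2.2.2 c).1 k
    obtain ⟨τ, k2⟩ := ((h.1 _).2.2.2 _).1 k'
    have := far t t' σ τ (Or.inl e)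
    rw [k2, sub_self, map_zero] at this
    exact absurd this (exp_pos _).not_ge
  have one : ∀ l, W.gn (β l, s l) (W.up (∏ t, minpoly W.L (θ t))) = 1 := fun l => by
    rw [eU, map_prod, Finset.prod_congr rfl fun t _ =>
      gn_min h (hin l) (hin (i t)) (h1 t) (h2 t l), ← exp_sum, h5, exp_zero]
  have der : ∀ t, ∀ σ : W.E ≃ₐ[W.L] W.E,
      W.n ((derivative (W.up (∏ t, minpoly W.L (θ t)))).eval (σ (θ t))) = exp (-s (i t)) := by
    intro t σ
    have hc : σ (θ t) ∈ (W.up (∏ t, minpoly W.L (θ t))).roots := by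
      rw [rU]
      exact Multiset.mem_bind.2 ⟨t, Finset.mem_univ t, ((h.1 _).2.2.2 _).2 ⟨σ, rfl⟩⟩
    have e1 : W.gn (σ (θ t), s (i t)) (W.up (∏ t, minpoly W.L (θ t))) = 1 := by
      rw [(h.2.1 _ σ).2, ← one (i t)]
      exact KSkew.GN_center W.na.1 (exp_pos _) (h1 t) _
    rw [W.gn_roots, mU'.leadingCoeff, map_one, one_mul, ← Multiset.cons_erase hc,
      Multiset.map_cons, Multiset.prod_cons] at e1
    dsimp only at e1
    rw [sub_self, map_zero, max_eq_left (exp_pos _).le,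
      Multiset.map_congr rfl (g := fun c => W.n (σ (θ t) - c)) fun c k => ?_] at e1
    · rw [(IsAlgClosed.splits _).eval_root_derivative mU' hc, map_multiset_prod, Multiset.map_map,
        exp_neg]
      exact eq_inv_of_mul_eq_one_right e1
    · obtain ⟨k1, k2⟩ := (nd.mem_erase_iff).1 k
      obtain ⟨t', τ, rfl⟩ := mem c k2
      exact max_eq_right (far t t' σ τ (Or.inr k1.symm))
  refine ⟨mU, ?_, ?_, one, fun c hc l => ?_, ?_⟩
  · exact (separable_map (algebraMap W.L W.E)).1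
      ((nodup_roots_iff_of_splits mU'.ne_zero (IsAlgClosed.splits _)).1 nd)
  · rw [dU]
    exact Finset.sum_pos (fun t _ => (h.1 _).1) Finset.univ_nonempty
  · obtain ⟨t, σ, rfl⟩ := mem c hc
    rw [der, exp_neg, ← div_eq_inv_mul, one_le_div (exp_pos _)]
    refine le_trans ?_ (le_max_right _ _)
    rw [W.n.map_sub]
    exact h2 t l σ
  · have e : ∀ t, ((W.up (minpoly W.L (θ t))).roots.map fun c =>
        W.n ((derivative (W.up (∏ t, minpoly W.L (θ t)))).eval c)).prod =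
          exp ((minpoly W.L (θ t)).natDegree * -s (i t)) := fun t => by
      rw [Multiset.map_congr rfl (g := fun _ => exp (-s (i t))) fun c k => ?_, Multiset.map_const',
        Multiset.prod_replicate, (h.1 _).2.2.1, exp_nat_mul]
      obtain ⟨σ, rfl⟩ := ((h.1 _).2.2.2 c).1 k
      exact der t σ
    generalize derivative (W.up (∏ t, minpoly W.L (θ t))) = D at e ⊢
    rw [rU, Multiset.map_bind, Multiset.prod_bind, dU]
    simp only [e]
    rw [← Finset.prod_eq_multiset_prod, ← exp_sum, exp_le_exp, Nat.cast_sum, ← sub_nonneg,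
      ← Finset.sum_sub_distrib]
    refine h6.trans_eq (Finset.sum_congr rfl fun t _ => ?_)
    ring

end CN1

open CN1 in
theorem cn1 (h1 : S_GAL) (h2 : S_MODF) (h3 : S_PICK) (h4 : S_RAT) : S_CN1 := by
  intro K _ _ W ι _ β s w hin hw hs hB hc
  classical
  have hG : Gal W := h1 K W
  choose A hA using fun l i => av_rat hG (h2 K W).1 (β l) (β i) (s l) (s i)
  obtain ⟨v, v0, v1, v2⟩ := h4 ι A (fun i => 1 + s i) w hw (fun l => by
    have e := hB l
    rw [map_sum] at e
    simp only [map_smul, smul_eq_mul] at e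
    simp only [← hA, mul_comm _ (w _), mul_sub, mul_one, Finset.sum_sub_distrib, hs, e, sub_self])
    (by simpa only [Rat.cast_add, Rat.cast_one, mul_comm] using hc)
  choose m hm using fun i => h3 K W (β i) (s i)
  have m0 : ∀ i, 0 < m i := fun i => by
    obtain ⟨θ, k, -⟩ := hm i ∅
    exact k ▸ (hG.1 θ).1
  obtain ⟨k, hk⟩ : ∃ k : ι → ℕ, ∀ i, k i = v i * ∏ j ∈ Finset.univ.erase i, m j := ⟨_, fun _ => rfl⟩
  have km : ∀ i, (k i : ℝ) * m i = (∏ j, m j : ℕ) * v i := fun i => by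
    rw [← Finset.mul_prod_erase _ m (Finset.mem_univ i), hk]
    push_cast
    ring
  have sT : ∀ f : ι → ℝ, ∑ t : Σ i, Fin (k i), (m t.1 : ℝ) * f t.1 =
      (∏ j, m j : ℕ) * ∑ i, f i * v i := fun f => by
    rw [Fintype.sum_sigma, Finset.mul_sum]
    refine Finset.sum_congr rfl fun i _ => ?_
    dsimp only
    rw [Finset.sum_const, Finset.card_univ, Fintype.card_fin, nsmul_eq_mul, ← mul_assoc, km]
    ring
  have ne : Nonempty (Σ i, Fin (k i)) := by
    obtain ⟨i, -⟩ := Finset.nonempty_of_sum_ne_zero (hs.trans_ne one_ne_zero)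
    exact ⟨⟨i, ⟨0, hk i ▸ Nat.mul_pos (v0 i) (Finset.prod_pos fun j _ => m0 j)⟩⟩⟩
  obtain ⟨θ, t1, t2⟩ := choose_pts β (fun i => exp (s i)) m (fun t : Σ i, Fin (k i) => t.1) hm
    Finset.univ
  have t0 : ∀ t, (minpoly W.L (θ t)).natDegree = m t.1 := fun t => (t1 t (Finset.mem_univ t)).1
  refine ⟨_, build hG β (fun i => (s i : ℝ)) (fun t : Σ i, Fin (k i) => t.1) θ hin
    (fun t => (t1 t (Finset.mem_univ t)).2.1) (fun t => (t1 t (Finset.mem_univ t)).2.2.1)
    (fun t => (t1 t (Finset.mem_univ t)).2.2.2)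
    (fun t t' => t2 t (Finset.mem_univ t) t' (Finset.mem_univ t')) (fun l => ?_) ?_⟩
  · simp only [t0, hA]
    rw [sT fun i => (A l i : ℝ)]
    have : ∑ i, (A l i : ℝ) * v i = 0 := by exact_mod_cast v1 l
    rw [this, mul_zero]
  · simp only [t0]
    rw [sT fun i => 1 + (s i : ℝ)]
    have : 0 ≤ ∑ i, (1 + (s i : ℝ)) * v i := by exact_mod_cast v2
    exact mul_nonneg (Nat.cast_nonneg _) this

end Pool.Agent.KSP

end

end MrgPart7

-- ======== part 8: formerly Pool.Agent.MP_c8dfda_nt.kp.TOW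
section MrgPart8

/-! The degree of an endomorphism of the function field of the plane: finite and multiplicative. -/

open Polynomial Filter Real
open scoped Topology

noncomputable section

namespace Pool.Agent.KSP

namespace TOW

theorem fin_of_ess {K L : Type} [Field K] [Field L] [Algebra K L] [Algebra.EssFiniteType K L]
    (σ : L →ₐ[K] L) : FiniteDimensional σ.fieldRange L := by
  have h1 : Algebra.trdeg K L < Cardinal.aleph0 := trdeg_lt_aleph0 K L
  have h2 : Algebra.trdeg K L = Algebra.trdeg K σ.fieldRange := σ.equivFieldRange.trdeg_eq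
  have h3 := trdeg_add_eq K σ.fieldRange (A := L)
  rw [← h2] at h3
  have h4 : Algebra.trdeg σ.fieldRange L = 0 := by
    have h5 : Algebra.trdeg σ.fieldRange L + Algebra.trdeg K L = 0 + Algebra.trdeg K L := by
      rw [add_comm, h3, zero_add]
    exact Cardinal.eq_of_add_eq_add_right h5 h1
  have : Algebra.IsAlgebraic σ.fieldRange L := trdeg_eq_zero_iff.1 h4
  have : Algebra.EssFiniteType σ.fieldRange L := Algebra.EssFiniteType.of_comp K _ _
  exact Algebra.finite_of_essFiniteType_of_isAlgebraic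

theorem finrank_comp {K L : Type} [Field K] [Field L] [Algebra K L] (σ τ : L →ₐ[K] L) :
    Module.finrank (σ.comp τ).fieldRange L =
      Module.finrank τ.fieldRange L * Module.finrank σ.fieldRange L := by
  have hle : (σ.comp τ).fieldRange ≤ σ.fieldRange := by
    rintro _ ⟨x, rfl⟩
    exact ⟨τ x, rfl⟩
  rw [← IntermediateField.relfinrank_mul_finrank_top hle]
  congr 1
  rw [← AlgHom.map_fieldRange, σ.fieldRange_eq_map, IntermediateField.relfinrank_map_map,
    IntermediateField.relfinrank_top_right]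

theorem ess (K : Type) [Field K] : Algebra.EssFiniteType K (M K) := by
  have : Algebra.EssFiniteType (R K) (M K) :=
    Algebra.EssFiniteType.of_isLocalization (M K) (nonZeroDivisors (R K))
  exact Algebra.EssFiniteType.comp K (R K) (M K)

end TOW

theorem tow : S_TOW := by
  intro K _ σ
  have := TOW.ess K
  have hf := TOW.fin_of_ess σ
  refine ⟨hf, Module.finrank_pos, fun k => ?_⟩
  induction k with
  | zero =>
    have h : (σ ^ 0).fieldRange = ⊤ := AlgHom.fieldRange_eq_top.2 fun x => ⟨x, by simp⟩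
    rw [pow_zero (qq σ), qq, h, IntermediateField.finrank_top]
  | succ k ih =>
    rw [pow_succ, pow_succ', ← ih]
    exact TOW.finrank_comp (σ ^ k) σ

end Pool.Agent.KSP

end

end MrgPart8

-- ======== part 9: formerly Pool.Agent.MP_c8dfda_nt.kp.DEN
section MrgPart9

/-! Polynomial maps of the plane: denominators. -/

open Polynomial Filter Real
open scoped Topology

noncomputable section

namespace Pool.Agent.KSP

namespace DEN

/-- a root of a monic polynomial with small coefficients is small -/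
theorem root_le {A F : Type} [CommRing A] [Field F] {v : AbsoluteValue F ℝ}
    (hv : IsNonarchimedean v) (f : A →+* F) (hf : ∀ a, v (f a) ≤ 1) {p : A[X]} (hp : p.Monic)
    {t : F} (h : p.eval₂ f t = 0) : v t ≤ 1 := by
  by_contra h1
  have h1 : 1 < v t := not_le.1 h1
  have h0 : 0 < v t := one_pos.trans h1
  rw [eval₂_eq_sum_range, Finset.sum_range_succ, hp.coeff_natDegree, map_one, one_mul] at h
  have h2 : v t ^ p.natDegree ≤ v t ^ p.natDegree / v t := by
    conv_lhs => rw [← map_pow, eq_neg_of_add_eq_zero_right h, v.map_neg]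
    refine KSkew.na_sum_le hv _ _ (by positivity) fun i hi => ?_
    rw [map_mul, map_pow, le_div_iff₀ h0]
    calc v (f (p.coeff i)) * v t ^ i * v t ≤ 1 * v t ^ i * v t := by gcongr; exact hf _
      _ = v t ^ (i + 1) := by ring
      _ ≤ _ := pow_le_pow_right₀ h1.le (Finset.mem_range.1 hi)
  exact absurd h2 (not_le.2 (div_lt_self (pow_pos h0 _) h1))

variable {K : Type} [Field K] {s : R K →ₐ[K] R K} {σ : M K →ₐ[K] M K}

theorem io_eval (h : Cmp s σ) (p : (R K)[X]) (t : R K) :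
    io (p.eval₂ (s : R K →+* R K) t) = p.eval₂ ((σ : M K →+* M K).comp io) (io t) := by
  rw [hom_eval₂]
  congr 1
  exact RingHom.ext fun φ => (h φ).symm

theorem lift (h : Cmp s σ) {P : (M K)[X]} (hP : P.Monic) (hc : ∀ i, ∃ φ, io φ = P.coeff i)
    {t : R K} (ht : P.eval₂ (σ : M K →+* M K) (io t) = 0) :
    ∃ p : (R K)[X], p.Monic ∧ p.eval₂ (s : R K →+* R K) t = 0 := by
  obtain ⟨p, h1, -, h2⟩ := lifts_and_natDegree_eq_and_monic
    ((lifts_iff_coeff_lifts (f := io) P).2 hc) hP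
  refine ⟨p, h2, io_inj ?_⟩
  rw [io_eval h, ← eval₂_map, h1, ht, map_zero]

end DEN

theorem den (h1 : S_EMB) (h2 : S_ORD) : S_DEN := by
  intro K _ _ s σ h
  obtain ⟨e1, ch, tr, e2, -, -, e3⟩ := h1 K σ
  have e4 : ∀ a j, io (s a * xx j) = σ (io a) * io (xx j) := fun a j => by rw [map_mul, h]
  refine ⟨?_, fun a ha η hη hb j => ?_, fun a ha hb => ⟨ha, fun j => ?_⟩⟩
  · obtain ⟨b, hb⟩ := IsLocalization.exist_integer_multiples (nonZeroDivisors (R K))
      ((Finset.univ : Finset (Fin 2)) ×ˢ Finset.range (qq σ))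
      fun i => (ch (io (xx i.1 : R K))).coeff i.2
    refine ⟨b, nonZeroDivisors.ne_zero b.2, fun j => ?_⟩
    obtain ⟨m1, m2, m3⟩ := e2 (io (xx j))
    refine DEN.lift h ((monic_scaleRoots_iff (io (b : R K))).2 m1) (fun i => ?_)
      (by rw [e4]; exact scaleRoots_eval₂_eq_zero (σ : M K →+* M K) m3)
    rw [coeff_scaleRoots]
    rcases lt_trichotomy i (qq σ) with k | k | k
    · obtain ⟨φ, hφ⟩ := hb (j, i) (by simp [k])
      obtain ⟨n, hn⟩ : ∃ n, qq σ - i = n + 1 := ⟨qq σ - i - 1, by omega⟩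
      refine ⟨φ * b ^ n, ?_⟩
      rw [m2, hn, map_mul, map_pow, hφ, Algebra.smul_def]
      ring
    · refine ⟨1, ?_⟩
      rw [k, ← m2, m1.coeff_natDegree]; simp
    · exact ⟨0, by rw [coeff_eq_zero_of_natDegree_lt (m2 ▸ k)]; simp⟩
  · obtain ⟨p, p1, p2⟩ := ha.2 j
    refine DEN.root_le hη.1 ((σ : M K →+* M K).comp io) hb p1 ?_
    rw [← e4, ← DEN.io_eval h, p2, map_zero]
  · obtain ⟨m1, -, m3⟩ := e2 (io (s a * xx j))
    refine DEN.lift h m1 (fun i => (h2 K).2.2.1 _ fun c o hc ho => ?_) m3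
    obtain ⟨η₀, k1, k2⟩ := e1 o ho.na
    obtain ⟨η, -, k3, k4⟩ := e3 η₀ k1
    have := ((k4 (io (s a * xx j))).2 1 fun k => by
      rw [e4]
      exact hb c o (η k) hc ho (k3 k).1 (fun b => ((k3 k).2 b).trans (k2 b)) j).2 i
    rwa [one_pow, k2] at this

end Pool.Agent.KSP

end

end MrgPart9

-- ======== part 10: formerly Pool.Agent.MP_c8dfda_nt.kp.THIN
section MrgPart10

/-! Polynomial maps of the plane: functions of small height along the iterates. -/

open Polynomial Filter Real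
open scoped Topology

noncomputable section

namespace Pool.Agent.KSP

namespace THIN

theorem tend {h d : ℕ → ℝ} {A c β δ : ℝ} (hβ : 0 < β) (hδ : β < δ) (hc : 0 < c)
    (h0 : ∀ n, 0 ≤ h n) (h1 : ∀ n, h n ≤ A * β ^ n) (h2 : ∀ n, c * δ ^ n ≤ d n) :
    Tendsto (fun n => h n / d n) atTop (𝓝 0) := by
  have hδ0 : 0 < δ := hβ.trans hδ
  have hp : ∀ n, 0 < c * δ ^ n := fun n => mul_pos hc (pow_pos hδ0 n)
  have t : Tendsto (fun n : ℕ => A / c * (β / δ) ^ n) atTop (𝓝 0) := by
    have := (tendsto_pow_atTop_nhds_zero_of_lt_one (div_pos hβ hδ0).le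
      ((div_lt_one hδ0).2 hδ)).const_mul (A / c)
    rwa [mul_zero] at this
  refine squeeze_zero (fun n => div_nonneg (h0 n) ((hp n).le.trans (h2 n))) (fun n => ?_) t
  rw [div_pow, div_mul_div_comm]
  exact div_le_div₀ ((h0 n).trans (h1 n)) (h1 n) (hp n) (h2 n)

theorem grow {a : ℕ → ℝ} {δ θ : ℝ} {m n₀ : ℕ} (hδ : 0 < δ) (hθ : 0 ≤ θ)
    (h1 : ∀ n, δ ^ n ≤ a n) (h2 : ∀ n, n₀ ≤ n → a (m + n) ≤ θ * a n) : δ ^ m ≤ θ := by
  by_contra hc
  have hm : 0 < δ ^ m := pow_pos hδ m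
  have h3 : ∀ k, a (m * k + n₀) ≤ θ ^ k * a n₀ := by
    intro k
    induction k with
    | zero => simp
    | succ k ih =>
      have e : m * (k + 1) + n₀ = m + (m * k + n₀) := by ring
      rw [e, pow_succ', mul_assoc]
      exact (h2 _ (Nat.le_add_left _ _)).trans (mul_le_mul_of_nonneg_left ih hθ)
  have h4 : ∀ k, δ ^ n₀ ≤ (θ / δ ^ m) ^ k * a n₀ := by
    intro k
    have := (h1 _).trans (h3 k)
    rw [pow_add, pow_mul] at this
    rw [div_pow, div_mul_eq_mul_div, le_div_iff₀ (pow_pos hm k), mul_comm]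
    exact this
  have t := (tendsto_pow_atTop_nhds_zero_of_lt_one (div_nonneg hθ hm.le)
    ((div_lt_one hm).2 (not_le.1 hc))).mul_const (a n₀)
  rw [zero_mul] at t
  exact absurd (ge_of_tendsto' t h4) (not_le.2 (pow_pos hδ n₀))

variable {K ι : Type} [Field K] [Fintype ι]

theorem hh_nonneg (N : ι → AV K) (φ : R K) : 0 ≤ hh N φ :=
  Finset.sum_nonneg fun _ _ => lp_nonneg _ _

theorem hh_le {N : ι → AV K} {s : R K →ₐ[K] R K} {β : ℝ} (hβ : 0 < β) (h : Slow N s β) :
    ∃ A : ℝ, ∀ k j, hh N ((s ^ k) (xx j)) ≤ A * β ^ k := by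
  obtain ⟨-, C, hC⟩ := h
  refine ⟨∑ _i : ι, max 0 C, fun k j => ?_⟩
  rw [Finset.sum_mul]
  refine Finset.sum_le_sum fun i _ => max_le ?_ ((hC i k j).trans ?_)
  · exact mul_nonneg (le_max_left _ _) (pow_pos hβ k).le
  · exact mul_le_mul_of_nonneg_right (le_max_right _ _) (pow_pos hβ k).le

theorem key {N : ι → AV K} {s : R K →ₐ[K] R K} {δ β : ℝ} (hl : Lim s δ) (hβ : 0 < β)
    (hδ : β < δ) (h : Slow N s β) (m : ℕ) : ∃ G : ℕ → R K, Thin N G ∧
      Thin N (fun n => (s ^ m) (G n)) ∧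
      Tendsto (fun n => hh N ((s ^ m) (G n)) / dg (G n)) atTop (𝓝 0) ∧
      (∀ n, dg (G n) ≤ dd (s ^ n)) ∧ ∀ n, dg ((s ^ m) (G n)) = dd (s ^ (m + n)) := by
  obtain ⟨A, hA⟩ := hh_le hβ h
  have hδ0 : 0 < δ := hβ.trans hδ
  choose j hj using fun n => exists_dg_xx (s ^ (m + n))
  have e : ∀ n, (s ^ m) ((s ^ n) (xx (j n))) = (s ^ (m + n)) (xx (j n)) := fun n => by
    rw [pow_add, AlgHom.mul_apply]
  have hD : (0 : ℝ) < dd (s ^ m) := (pow_pos hδ0 m).trans_le (hl.low m)
  have h1 : ∀ n, δ ^ m * δ ^ n ≤ dg ((s ^ m) ((s ^ n) (xx (j n)))) := fun n => by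
    rw [e, hj, ← pow_add]; exact hl.low _
  have h2 : ∀ n, δ ^ m / dd (s ^ m) * δ ^ n ≤ dg ((s ^ n) (xx (j n))) := fun n => by
    rw [div_mul_eq_mul_div, div_le_iff₀ hD, mul_comm (_ : ℝ) (dd (s ^ m) : ℝ)]
    refine (h1 n).trans ?_
    exact_mod_cast dg_map_le (s ^ m) _
  have h3 : ∀ n, hh N ((s ^ m) ((s ^ n) (xx (j n)))) ≤ A * β ^ m * β ^ n := fun n => by
    rw [e, mul_assoc, ← pow_add]; exact hA _ _
  have hm := pow_pos hδ0 m
  have hc := div_pos hm hD
  refine ⟨fun n => (s ^ n) (xx (j n)), ⟨fun n => ?_, ?_⟩, ⟨fun n => ?_, ?_⟩, ?_,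
    fun n => dg_xx_le _ _, fun n => by rw [e, hj]⟩
  · exact Nat.cast_pos.1 ((mul_pos hc (pow_pos hδ0 n)).trans_le (h2 n))
  · exact tend hβ hδ hc (fun n => hh_nonneg _ _) (fun n => hA n _) h2
  · exact Nat.cast_pos.1 ((mul_pos hm (pow_pos hδ0 n)).trans_le (h1 n))
  · exact tend hβ hδ hm (fun n => hh_nonneg _ _) h3 h1
  · exact tend hβ hδ hc (fun n => hh_nonneg _ _) h3 h2

end THIN

theorem thin : S_THIN := by
  intro K ι _ _ _ N s σ δ β _ hl hβ hδ h
  refine ⟨fun m => ?_, ?_, fun m κ hκ => ?_⟩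
  · obtain ⟨G, -, h1, -⟩ := THIN.key hl hβ hδ h m
    exact ⟨G, h1⟩
  · obtain ⟨G, h1, -, h2, -⟩ := THIN.key hl hβ hδ h 1
    rw [pow_one] at h2
    exact ⟨G, h1, h2⟩
  · obtain ⟨G, h1, -, -, h2, h3⟩ := THIN.key hl hβ hδ h m
    have hδ0 : 0 < δ := hβ.trans hδ
    refine le_of_forall_pos_le_add fun ε hε => ?_
    obtain ⟨n₀, hn⟩ := eventually_atTop.1 (hκ G h1 ε hε)
    have hθ : 0 ≤ κ + ε := by
      have h4 := (Nat.cast_nonneg _).trans (hn n₀ le_rfl)
      have h5 : (0 : ℝ) < dg (G n₀) := Nat.cast_pos.2 (h1.1 n₀)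
      exact nonneg_of_mul_nonneg_left h4 h5
    refine THIN.grow (a := fun n => (dd (s ^ n) : ℝ)) (n₀ := n₀) hδ0 hθ hl.low fun n k => ?_
    have h4 := hn n k
    rw [h3] at h4
    exact h4.trans (mul_le_mul_of_nonneg_left (Nat.cast_le.2 (h2 n)) hθ)

end Pool.Agent.KSP

end

end MrgPart10

-- ======== part 11: formerly Pool.Agent.MP_c8dfda_nt.kp.SHARP
section MrgPart11

/-! A denominator of degree zero. -/

open Polynomial Filter Real
open scoped Topology

noncomputable section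

namespace Pool.Agent.KSP

namespace SHARP

variable {K ι : Type} [Field K] [Fintype ι] {N : ι → AV K}

theorem Nn_one : Nn N 1 = 0 := by simp [Nn]

theorem Nn_unit (h : Fam0 N) {u : R K} (hu : IsUnit u) : Nn N u = 0 := by
  obtain ⟨v, hv⟩ := hu.exists_right_inv
  have h0 : v ≠ 0 := right_ne_zero_of_mul_eq_one hv
  have h1 := Nn_mul N hu.ne_zero h0
  rw [hv, Nn_one] at h1
  have h2 := h.pf _ hu.ne_zero
  have h3 := h.pf _ h0
  linarith

theorem split (h : Fam0 N) (a₀ : R K) : a₀ ≠ 0 → ∃ a a₁ : R K, a₀ = a * a₁ ∧ Nn N a = 0 ∧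
    ∀ c : R K, Prime c → c ∣ a₁ → 0 < Nn N c := by
  induction a₀ using UniqueFactorizationMonoid.induction_on_prime with
  | h₁ => exact fun h0 => absurd rfl h0
  | h₂ u hu =>
    exact fun _ => ⟨1, u, (one_mul u).symm, Nn_one, fun c hc hd =>
      absurd (isUnit_of_dvd_unit hd hu) hc.not_isUnit⟩
  | h₃ x p hx hp ih =>
    intro _
    obtain ⟨a, a₁, e, h1, h2⟩ := ih hx
    have ha : a ≠ 0 := left_ne_zero_of_mul (e ▸ hx)
    rcases (h.pf p hp.ne_zero).eq_or_lt with h3 | h3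
    · exact ⟨p * a, a₁, by rw [e, mul_assoc], by rw [Nn_mul N hp.ne_zero ha, h1, ← h3, add_zero], h2⟩
    · refine ⟨a, p * a₁, by rw [e]; ring, h1, fun c hc hd => ?_⟩
      rcases hc.dvd_or_dvd hd with h4 | h4
      · obtain ⟨u, hu⟩ := hc.associated_of_dvd hp h4
        rwa [← hu, Nn_mul N hc.ne_zero u.ne_zero, Nn_unit h u.isUnit, add_zero] at h3
      · exact h2 c hc h4

end SHARP

open SHARP in
theorem sharp (h1 : S_SHA) (h2 : S_DEN) (_h3 : S_ORD) : S_SHARP := by
  intro K ι _ _ _ N s σ μ hE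
  obtain ⟨u1, u2⟩ := h1 K ι N s σ μ hE
  obtain ⟨⟨a₀, d0⟩, d2, d3⟩ := h2 K s σ hE.cmp
  refine ⟨u1, ?_⟩
  obtain ⟨a, a₁, e, n1, n2⟩ := split hE.toFam.toFam0 a₀ d0.1
  have ha : a ≠ 0 := left_ne_zero_of_mul (e ▸ d0.1)
  refine ⟨a, d3 a ha fun c o η hc ho hη hb j => ?_, n1⟩
  by_cases hd : c ∣ a₁
  · rw [hE.cmp, ← map_mul]
    exact u2 c o η hc ho (n2 c hc hd) hη hb _
  · have h4 := d2 a₀ d0 η hη (fun φ => by rw [hb]; exact ho.le φ) j
    rw [e, map_mul io a a₁, map_mul σ, mul_right_comm, map_mul η, hb, ho.one a₁ hd, mul_one] at h4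
    exact h4

end Pool.Agent.KSP

end

end MrgPart11

-- ======== part 12: formerly Pool.Agent.MP_c8dfda_nt.kp.RAC
section MrgPart12

/-! Polynomial maps of the plane: eigenvaluations with algebraic residue field. -/

open Polynomial Filter Real
open scoped Topology

noncomputable section

namespace Pool.Agent.KSP

namespace RAC

variable {K : Type} [Field K]

theorem lg_mem (v : AV K) {φ : R K} (h : φ ≠ 0) : lg v φ ∈ vg v :=
  AddSubgroup.subset_closure ⟨io φ, io_ne h, rfl⟩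

theorem vg_le (v : AV K) (H : AddSubgroup ℝ) (h : ∀ φ, φ ≠ 0 → lg v φ ∈ H) : vg v ≤ H := by
  refine (AddSubgroup.closure_le H).2 ?_
  rintro _ ⟨a, ha, rfl⟩
  obtain ⟨f, g, hg, rfl⟩ := exists_io a
  have hf : f ≠ 0 := by
    rintro rfl
    simp at ha
  rw [map_div₀, log_div (v.ne_zero (io_ne hf)) (v.ne_zero (io_ne hg))]
  exact sub_mem (h f hf) (h g hg)

/-- rational multiples -/
def H1 (z : ℝ) : AddSubgroup ℝ where
  carrier := {t | ∃ r : ℚ, t = z * r}
  zero_mem' := ⟨0, by simp⟩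
  add_mem' := by
    rintro _ _ ⟨r, rfl⟩ ⟨r', rfl⟩
    exact ⟨r + r', by push_cast; ring⟩
  neg_mem' := by
    rintro _ ⟨r, rfl⟩
    exact ⟨-r, by push_cast; ring⟩

/-- a lattice of rank two -/
def H2 (z s : ℝ) (m : ℕ) : AddSubgroup ℝ where
  carrier := {t | ∃ a b : ℤ, t = z * (a / m + b * s)}
  zero_mem' := ⟨0, 0, by simp⟩
  add_mem' := by
    rintro _ _ ⟨a, b, rfl⟩ ⟨a', b', rfl⟩
    exact ⟨a + a', b + b', by push_cast; ring⟩
  neg_mem' := by
    rintro _ ⟨a, b, rfl⟩
    exact ⟨-a, -b, by push_cast; ring⟩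

end RAC

open RAC in
theorem rac (h1 : S_TRI) (h2 : S_SHARP) (h3 : S_DEF) (h4 : S_GRP) (h5 : S_TOW) : S_RAC := by
  intro K ι _ _ _ N s σ μ hE r hr i hR
  subst hr
  have hz := hE.inf i
  obtain ⟨d1, d2⟩ := h3 K σ (N i) r (hE.na i) hR ((h2 K ι N s σ r hE).1 i) hE.pos (hE.eig i)
  obtain ⟨j, hj⟩ := exists_lg_xx hz
  obtain ⟨g1, g2⟩ := h4 (vg (N i)) (zz (N i)) r (qq σ) hz (hj ▸ lg_mem _ (xx_ne j))
    (by exact_mod_cast hE.pos) (h5 K σ).2.1 d1 d2
  rcases h1 K (N i) (hE.na i) hz with ⟨⟨t, m, ρ, n, ht, hm, h, φ, h0, hn⟩, -⟩ | h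
  · refine Or.inl ?_
    have := g2 t m ht hm
      (vg_le _ (H2 (zz (N i)) t m) fun ψ e => ⟨ρ ψ, n ψ, by rw [h ψ e, Int.cast_natCast]⟩)
      ⟨ρ φ, n φ, by exact_mod_cast hn.ne', by
        rw [Int.cast_natCast, ← h φ h0]
        exact lg_mem _ h0⟩
    exact_mod_cast this
  · exact Or.inr (g1 (vg_le _ (H1 (zz (N i))) h))

end Pool.Agent.KSP

end

end MrgPart12

-- ======== part 13: formerly Pool.Agent.MP_c8dfda_nt.kp.ORB
section MrgPart13

/-! Polynomial maps of the plane: dense orbits. -/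

open Polynomial Filter Real
open scoped Topology

noncomputable section

namespace Pool.Agent.KSP

namespace ORB

theorem sparse_mono {A B : Set ℕ} (h : A ⊆ B) (hB : Sparse B) : Sparse A := by
  classical
  intro ε hε
  obtain ⟨C, hC⟩ := hB ε hε
  refine ⟨C, fun n => le_trans ?_ (hC n)⟩
  refine Nat.cast_le.2 (Finset.card_le_card fun j hj => ?_)
  simp only [Finset.mem_filter] at hj ⊢
  exact ⟨hj.1, h hj.2⟩

theorem sparse_union {A B : Set ℕ} (hA : Sparse A) (hB : Sparse B) : Sparse (A ∪ B) := by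
  classical
  intro ε hε
  obtain ⟨C, hC⟩ := hA (ε / 2) (half_pos hε)
  obtain ⟨D, hD⟩ := hB (ε / 2) (half_pos hε)
  refine ⟨C + D, fun n => ?_⟩
  have h1 := hC n
  have h2 := hD n
  refine le_trans ?_ (le_trans (add_le_add h1 h2) (le_of_eq (by ring)))
  rw [← Nat.cast_add]
  refine Nat.cast_le.2 (le_trans (Finset.card_le_card fun j hj => ?_) (Finset.card_union_le _ _))
  simp only [Finset.mem_filter, Finset.mem_union, Set.mem_union] at hj ⊢
  tauto

theorem sparse_of_gaps {B : Set ℕ} (h : ∀ L, 1 ≤ L → {n | n ∈ B ∧ n + L ∈ B}.Finite) :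
    Sparse B := by
  classical
  intro ε hε
  obtain ⟨M, hM⟩ := exists_nat_one_div_lt hε
  have hfin : (⋃ L ∈ Finset.Icc 1 (M + 1), {n | n ∈ B ∧ n + L ∈ B}).Finite :=
    Set.Finite.biUnion (Finset.finite_toSet _) fun L hL =>
      h L (Finset.mem_Icc.1 (Finset.mem_coe.1 hL)).1
  obtain ⟨k, hk⟩ := hfin.bddAbove
  refine ⟨(k + 1 : ℕ) + 1, fun n => ?_⟩
  set T := (Finset.range n).filter fun j => j ∈ B with hT
  have h1 : T.card ≤ (k + 1) + (T.filter fun j => k < j).card := by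
    refine le_trans (Finset.card_le_card (t := Finset.range (k + 1) ∪ T.filter fun j => k < j)
      fun j hj => ?_) ((Finset.card_union_le _ _).trans (by rw [Finset.card_range]))
    simp only [Finset.mem_union, Finset.mem_range, Finset.mem_filter]
    by_cases hjk : k < j
    · exact Or.inr ⟨hj, hjk⟩
    · exact Or.inl (by omega)
  have key : ∀ i j, i ∈ B → j ∈ B → k < i → i < j → i / (M + 1) ≠ j / (M + 1) := by
    intro i j hi hj hki hij he
    have e1 := Nat.div_add_mod i (M + 1)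
    have e2 := Nat.div_add_mod j (M + 1)
    have e3 : j % (M + 1) < M + 1 := Nat.mod_lt j (Nat.succ_pos M)
    rw [he] at e1
    have : i ≤ k := hk (Set.mem_biUnion (x := j - i)
      (Finset.mem_coe.2 (Finset.mem_Icc.2 ⟨by omega, by omega⟩))
      ⟨hi, by rwa [Nat.add_sub_cancel' hij.le]⟩)
    omega
  have h2 : (T.filter fun j => k < j).card ≤ n / (M + 1) + 1 := by
    rw [← Finset.card_range (n / (M + 1) + 1)]
    refine Finset.card_le_card_of_injOn (fun j => j / (M + 1)) (fun j hj => ?_) ?_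
    · simp only [hT, Finset.coe_filter, Finset.mem_filter, Finset.mem_range, Set.mem_ofPred_eq,
        Finset.coe_range, Set.mem_Iio] at hj ⊢
      exact Nat.lt_succ_of_le (Nat.div_le_div_right hj.1.1.le)
    · intro i hi j hj he
      simp only [hT, Finset.coe_filter, Finset.mem_filter, Finset.mem_range,
        Set.mem_ofPred_eq] at hi hj
      rcases lt_trichotomy i j with h1 | h1 | h1
      · exact absurd he (key i j hi.1.2 hj.1.2 hi.2 h1)
      · exact h1
      · exact absurd he.symm (key j i hj.1.2 hi.1.2 hj.2 h1)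
  have h3 : ((n / (M + 1) : ℕ) : ℝ) ≤ ε * n := by
    refine Nat.cast_div_le.trans ?_
    rw [div_eq_mul_one_div, mul_comm]
    push_cast
    exact mul_le_mul_of_nonneg_right hM.le (Nat.cast_nonneg n)
  have h4 : (T.card : ℝ) ≤ ((k + 1 : ℕ) : ℝ) + (((n / (M + 1) : ℕ) : ℝ) + 1) := by
    exact_mod_cast h1.trans (Nat.add_le_add_left h2 _)
  have h5 : (T.card : ℝ) ≤ ε * n + (((k + 1 : ℕ) : ℝ) + 1) := by linarith
  convert h5

variable {K : Type} [Field K] {s : R K →ₐ[K] R K} {O : ℕ → Fin 2 → K}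

theorem lin_ne (a : K) : (xx 0 - cc a : R K) ≠ 0 := fun h => by
  have := congrArg (MvPolynomial.eval fun _ => a + 1) h
  simp at this

theorem kill_ne (O : ℕ → Fin 2 → K) (k : ℕ) :
    (∏ j ∈ Finset.range k, (xx 0 - cc (O j 0)) : R K) ≠ 0 :=
  Finset.prod_ne_zero_iff.2 fun _ _ => lin_ne _

theorem kill_eval (O : ℕ → Fin 2 → K) {k j : ℕ} (h : j < k) :
    MvPolynomial.eval (O j) (∏ j ∈ Finset.range k, (xx 0 - cc (O j 0)) : R K) = 0 := by
  rw [map_prod]
  exact Finset.prod_eq_zero (Finset.mem_range.2 h) (by simp)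

theorem tail (hz : ZD O) (φ : R K) (k : ℕ) (h : ∀ n, k ≤ n → MvPolynomial.eval (O n) φ = 0) :
    φ = 0 := by
  have := hz (φ * ∏ j ∈ Finset.range k, (xx 0 - cc (O j 0))) fun n => by
    rw [map_mul]
    rcases lt_or_ge n k with h1 | h1
    · rw [kill_eval O h1, mul_zero]
    · rw [h n h1, zero_mul]
  exact (mul_eq_zero.1 this).resolve_right (kill_ne O k)

theorem ne_of_lt (ho : Orb s O) (hz : ZD O) {a b : ℕ} (hab : a < b) : O a ≠ O b := fun he => by
  have key : ∀ n, ∃ j, j < b ∧ O n = O j := fun n => by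
    induction n using Nat.strong_induction_on with
    | _ n ih =>
      rcases lt_or_ge n b with h1 | h1
      · exact ⟨n, h1, rfl⟩
      · obtain ⟨t, rfl⟩ := Nat.exists_eq_add_of_le h1
        obtain ⟨j, hj, h2⟩ := ih (a + t) (by omega)
        exact ⟨j, hj, by rw [ho.add t b, ← he, ← ho.add t a, h2]⟩
  refine kill_ne O b (hz _ fun n => ?_)
  obtain ⟨j, hj, h2⟩ := key n
  rw [h2]
  exact kill_eval O hj

theorem injO (ho : Orb s O) (hz : ZD O) : Function.Injective O := fun a b he => by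
  rcases lt_trichotomy a b with h | h | h
  · exact absurd he (ne_of_lt ho hz h)
  · exact h
  · exact absurd he.symm (ne_of_lt ho hz h)

theorem injS (ho : Orb s O) (hz : ZD O) : Function.Injective s := by
  refine (injective_iff_map_eq_zero s).2 fun φ h => tail hz φ 1 fun n hn => ?_
  obtain ⟨t, rfl⟩ := Nat.exists_eq_add_of_le' hn
  rw [ho.eval_add 1 t, pow_one, h, map_zero]

theorem pow_zero_of (ho : Orb s O) (hz : ZD O) (r : ℕ) {φ : R K} (h : (s ^ r) φ = 0) : φ = 0 :=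
  inj_pow (injS ho hz) r (by rw [h, map_zero])

theorem zd_mul (ho : Orb s O) (hz : ZD O) {m : ℕ} (hm : 1 ≤ m) : ZD fun n => O (m * n) := by
  intro φ h
  have := hz (∏ r ∈ Finset.range m, (s ^ (r + 1)) φ) fun n => by
    rw [map_prod]
    have e1 := Nat.div_add_mod n m
    have e2 := Nat.mod_lt n hm
    refine Finset.prod_eq_zero (i := m - 1 - n % m) (Finset.mem_range.2 (by omega)) ?_
    rw [← ho.eval_add, show n + (m - 1 - n % m + 1) = m * (n / m + 1) by rw [mul_add]; omega]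
    exact h _
  obtain ⟨r, -, hr⟩ := Finset.prod_eq_zero_iff.1 this
  exact pow_zero_of ho hz _ hr

theorem gaps (hf : S_FINI) (ho : Orb s O) (hz : ZD O) {c : R K} (hc : Prime c) (L : ℕ)
    (hL : 1 ≤ L) : {n | n ∈ {n | MvPolynomial.eval (O n) c = 0} ∧
      n + L ∈ {n | MvPolynomial.eval (O n) c = 0}}.Finite := by
  by_cases hd : c ∣ (s ^ L) c
  · obtain ⟨d, hd⟩ := hd
    refine Set.finite_empty.subset fun a ha => hc.ne_zero ?_
    have key : ∀ n, MvPolynomial.eval (O (L * n + a)) c = 0 := fun n => by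
      induction n with
      | zero => simpa using ha.1
      | succ n ih =>
        rw [show L * (n + 1) + a = L * n + a + L by ring, ho.eval_add, hd, map_mul, ih, zero_mul]
    refine pow_zero_of ho hz a (zd_mul ho hz hL _ fun n => ?_)
    rw [← ho.eval_add]
    exact key n
  · refine (((hf K c hc).1 _ hd).preimage (injO ho hz).injOn).subset fun n hn => ⟨hn.1, ?_⟩
    rw [← ho.eval_add]
    exact hn.2

theorem sparse (hf : S_FINI) (ho : Orb s O) (hz : ZD O) (φ : R K) :
    φ ≠ 0 → Sparse {n | MvPolynomial.eval (O n) φ = 0} := by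
  induction φ using UniqueFactorizationMonoid.induction_on_prime with
  | h₁ => exact fun h => absurd rfl h
  | h₂ u hu =>
    refine fun _ => sparse_of_gaps fun L _ => Set.finite_empty.subset fun n hn => ?_
    exact (hu.map (MvPolynomial.eval (O n))).ne_zero hn.1
  | h₃ a p ha hp ih =>
    refine fun _ => sparse_mono (fun n hn => ?_)
      (sparse_union (sparse_of_gaps (gaps hf ho hz hp)) (ih ha))
    have h1 : MvPolynomial.eval (O n) (p * a) = 0 := hn
    rw [map_mul] at h1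
    exact mul_eq_zero.1 h1

end ORB

theorem orb (h : S_FINI) : S_ORB := fun _ _ _ _ ho hz =>
  ⟨ORB.injO ho hz, ORB.injS ho hz, ORB.tail hz,
    fun m hm => ⟨fun n => ho.add m (m * n), ORB.zd_mul ho hz hm⟩,
    ORB.sparse h ho hz⟩

end Pool.Agent.KSP

end

end MrgPart13

-- ======== part 14: formerly Pool.Agent.MP_c8dfda_nt.kp.VAL
section MrgPart14

/-! Polynomial maps of the plane: a slow family of valuations from a slow orbit. -/

open Polynomial Filter Real
open scoped Topology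

noncomputable section

namespace Pool.Agent.KSP

namespace VAL

theorem tend {X : Type} (O : ℕ → X) (hO : Function.Injective O) (h : X → ℝ)
    (hf : ∀ B : ℝ, {P | h P ≤ B}.Finite) : Tendsto (fun n => h (O n)) atTop atTop := by
  rw [← Nat.cofinite_eq_atTop, tendsto_atTop]
  intro B
  rw [eventually_cofinite]
  refine ((hf B).preimage hO.injOn).subset fun n hn => ?_
  exact (not_le.1 hn).le

theorem ultra {I : Type} [Nonempty I] (A : I → Set ℕ) (hne : ∀ i, (A i).Nonempty)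
    (hd : ∀ i j, ∃ k, A k ⊆ A i ∧ A k ⊆ A j) : ∃ U : Ultrafilter ℕ, ∀ i, A i ∈ U := by
  have hb : NeBot (⨅ i, 𝓟 (A i)) := by
    refine iInf_neBot_of_directed' (fun i j => ?_) fun i => principal_neBot_iff.2 (hne i)
    obtain ⟨k, h1, h2⟩ := hd i j
    exact ⟨k, principal_mono.2 h1, principal_mono.2 h2⟩
  refine ⟨Ultrafilter.of (⨅ i, 𝓟 (A i)), fun i => ?_⟩
  exact Ultrafilter.of_le _ (mem_iInf_of_mem i (mem_principal_self _))

end VAL

theorem val (h1 : S_SEQ) (h2 : S_DROP) (h3 : S_ORB) (h4 : S_HB) (h5 : S_ULT) : S_VAL := by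
  intro K _ _ s O hO hZ β₀ β hb0 hb hfr
  obtain ⟨hinj, -, -, -, hsp⟩ := h3 K s O hO hZ
  obtain ⟨-, hap, -, -, hfin⟩ := h4 K
  obtain ⟨C, hC⟩ := hap s
  have hT : Tendsto (fun n => Ht (O n)) atTop atTop := VAL.tend O hinj Ht hfin
  let A : {φ : R K // φ ≠ 0} × ℕ × ℕ → Set ℕ := fun i =>
    {n | i.2.2 ≤ n ∧ MvPolynomial.eval (O n) i.1.1 ≠ 0 ∧
      ∀ j ≤ i.2.1, Ht (O (n + j)) ≤ β ^ j * Ht (O n)}
  have : Nonempty {φ : R K // φ ≠ 0} := ⟨⟨1, one_ne_zero⟩⟩
  obtain ⟨U, hU⟩ := VAL.ultra A (fun i => by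
    obtain ⟨c, k₀, hc⟩ := h2 K s O hO hZ i.1.1 i.1.2
    exact h1 (fun n => Ht (O n)) {n | MvPolynomial.eval (O n) i.1.1 = 0} (dd s) C c β₀ β k₀ hT
      (fun n => by rw [hO n]; exact hC _) (hsp _ i.1.2) hc hb0 hb hfr i.2.1 i.2.2) (fun i j => by
    refine ⟨(⟨i.1.1 * j.1.1, mul_ne_zero i.1.2 j.1.2⟩, max i.2.1 j.2.1, max i.2.2 j.2.2),
      fun n hn => ?_, fun n hn => ?_⟩
    · obtain ⟨a, b, c⟩ := hn
      rw [map_mul] at b
      exact ⟨(le_max_left _ _).trans a, left_ne_zero_of_mul b,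
        fun t ht => c t (ht.trans (le_max_left _ _))⟩
    · obtain ⟨a, b, c⟩ := hn
      rw [map_mul] at b
      exact ⟨(le_max_right _ _).trans a, right_ne_zero_of_mul b,
        fun t ht => c t (ht.trans (le_max_right _ _))⟩)
  have hle : (U : Filter ℕ) ≤ atTop := by
    intro S hS
    obtain ⟨k, hk⟩ := mem_atTop_sets.1 hS
    exact mem_of_superset (hU (⟨1, one_ne_zero⟩, 0, k)) fun n hn => hk n hn.1
  refine h5 K s O hO hZ U β (hT.mono_left hle) (fun φ hφ => ?_) fun j => ?_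
  · exact mem_of_superset (hU (⟨φ, hφ⟩, 0, 0)) fun n hn => hn.2.1
  · exact mem_of_superset (hU (⟨1, one_ne_zero⟩, j, 0)) fun n hn => hn.2.2 j le_rfl

end Pool.Agent.KSP

end

end MrgPart14

-- ======== part 15: formerly Pool.Agent.MP_c8dfda_nt.kp.UN2
section MrgPart15

/-! Polynomial maps of the plane: heights on a finitely generated group. -/

open Polynomial Filter Real
open scoped Topology

noncomputable section

namespace Pool.Agent.KSP

namespace UN2

/-- a symmetric, subadditive, homogeneous function with finite sublevel sets -/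
structure Nm {A : Type} [AddCommGroup A] (H : A → ℝ) : Prop where
  add : ∀ x y, H (x + y) ≤ H x + H y
  neg : ∀ x, H (-x) = H x
  smul : ∀ (m : ℕ) x, H (m • x) = m * H x
  fin : ∀ B, {x | H x ≤ B}.Finite

variable {A : Type} [AddCommGroup A] {H : A → ℝ}

theorem Nm.zero (h : Nm H) : H 0 = 0 := by simpa using h.smul 0 0

theorem Nm.nonneg (h : Nm H) (x : A) : 0 ≤ H x := by
  have := h.add x (-x)
  rw [add_neg_cancel, h.zero, h.neg] at this
  linarith

theorem Nm.zsmul (h : Nm H) (m : ℤ) (x : A) : H (m • x) = |(m : ℝ)| * H x := by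
  obtain ⟨n, rfl | rfl⟩ := m.eq_nat_or_neg
  · rw [natCast_zsmul, h.smul]; simp
  · rw [neg_zsmul, natCast_zsmul, h.neg, h.smul]; simp

theorem Nm.sum (h : Nm H) {T : Type} (s : Finset T) (x : T → A) :
    H (∑ a ∈ s, x a) ≤ ∑ a ∈ s, H (x a) :=
  Finset.le_sum_of_subadditive H h.zero.le h.add s x

theorem Nm.comp (h : Nm H) {A' : Type} [AddCommGroup A'] (s : A' →+ A)
    (hs : Function.Injective s) : Nm fun x => H (s x) :=
  ⟨fun x y => by rw [map_add]; exact h.add _ _, fun x => by rw [map_neg, h.neg],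
    fun m x => by rw [map_nsmul, h.smul], fun B => (h.fin B).preimage hs.injOn⟩

theorem lattice {T : Type} [Fintype T] {H : (T → ℤ) → ℝ} (h : Nm H) :
    ∃ c : ℝ, 0 < c ∧ ∀ x a, c * |(x a : ℝ)| ≤ H x := by
  classical
  set C0 : ℝ := ∑ a, H (Pi.single a 1) with hC0
  have up : ∀ (M : ℝ) (y : T → ℤ), (∀ a, |(y a : ℝ)| ≤ M) → H y ≤ M * C0 := fun M y hy => by
    have e : y = ∑ a, y a • (Pi.single a 1 : T → ℤ) := by
      funext b
      simp [Finset.sum_apply, Pi.single_apply]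
    rw [e, hC0, Finset.mul_sum]
    refine (h.sum _ _).trans (Finset.sum_le_sum fun a _ => ?_)
    rw [h.zsmul]
    exact mul_le_mul_of_nonneg_right (hy a) (h.nonneg _)
  set Q : ℕ := {x | H x ≤ C0 + 1}.ncard with hQ
  refine ⟨1 / (Q + 1), by positivity, fun x a => ?_⟩
  by_contra hc
  push Not at hc
  obtain ⟨b, -, hb⟩ := Finset.exists_max_image Finset.univ (fun b => |x b|) ⟨a, Finset.mem_univ a⟩
  set M : ℤ := |x b| with hM
  have hab : |(x a : ℝ)| ≤ M := by exact_mod_cast hb a (Finset.mem_univ a)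
  have h1 : (Q + 1) * H x < M := by
    rw [div_mul_eq_mul_div, lt_div_iff₀ (by positivity)] at hc
    linarith
  have M0' : (0 : ℝ) < M := lt_of_le_of_lt (mul_nonneg (by positivity) (h.nonneg x)) h1
  have M0 : 0 < M := by exact_mod_cast M0'
  let y : Fin (Q + 1) → T → ℤ := fun t c => (t : ℕ) * x c / M
  have hy : ∀ t, y t ∈ {x | H x ≤ C0 + 1} := fun t => by
    have e : M • y t = (t : ℕ) • x + -fun c => (t : ℕ) * x c % M := by
      funext c
      have := Int.mul_ediv_add_emod ((t : ℕ) * x c) M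
      simp only [y, Pi.smul_apply, smul_eq_mul, Pi.add_apply, Pi.neg_apply]
      rw [nsmul_eq_mul]
      linarith
    have h2 := h.zsmul M (y t)
    rw [e, abs_of_pos M0'] at h2
    have h3 := h.add ((t : ℕ) • x) (-fun c => (t : ℕ) * x c % M)
    rw [h2, h.smul, h.neg] at h3
    have h4 := up M (fun c => (t : ℕ) * x c % M) fun c => by
      have a1 := Int.emod_nonneg ((t : ℕ) * x c) M0.ne'
      have a2 := (Int.emod_lt_of_pos ((t : ℕ) * x c) M0).le
      rw [abs_of_nonneg (by exact_mod_cast a1)]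
      exact_mod_cast a2
    have h5 : ((t : ℕ) : ℝ) * H x ≤ (Q + 1) * H x :=
      mul_le_mul_of_nonneg_right (by exact_mod_cast t.2.le) (h.nonneg x)
    refine le_of_mul_le_mul_left ?_ M0'
    linarith
  have inj : Function.Injective y := fun t u e => by
    have e1 : ((t : ℕ) : ℤ) * x b / M = (u : ℕ) * x b / M := congrFun e b
    have e2 : ∀ r : ℤ, |r * x b / M| = |r| := fun r => by
      rcases abs_choice (x b) with k | k
      · rw [hM, k, Int.mul_ediv_cancel _ (by rw [← k]; exact M0.ne')]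
      · rw [show r * x b = -r * M by rw [hM, k]; ring, Int.mul_ediv_cancel _ M0.ne', abs_neg]
    have e3 := e2 (t : ℕ)
    rw [e1, e2, Nat.abs_cast, Nat.abs_cast] at e3
    exact Fin.ext (by exact_mod_cast e3.symm)
  have := Set.ncard_le_ncard_of_injOn (s := Set.univ) y (fun t _ => hy t) inj.injOn (h.fin _)
  rw [Set.ncard_univ, Nat.card_fin] at this
  omega

theorem group (h : Nm H) [AddGroup.FG A] : ∃ (T : Type) (_ : Fintype T) (f : A →+ (T → ℤ))
    (c : ℝ) (k : ℕ), 0 < c ∧ 1 ≤ k ∧ ∀ g, (f g = 0 → k • g = 0) ∧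
      ∀ a, c * |(f g a : ℝ)| ≤ H g := by
  obtain ⟨n, ι, _, p, hp, e, ⟨E⟩⟩ := AddCommGroup.equiv_free_prod_directSum_zmod A
  have : ∀ i, NeZero (p i ^ e i) := fun i => ⟨pow_ne_zero _ (hp i).ne_zero⟩
  have : Finite (DirectSum ι fun i => ZMod (p i ^ e i)) :=
    Finite.of_equiv _ DFinsupp.equivFunOnFintype.symm
  let E0 : (Fin n →₀ ℤ) ≃+ (Fin n → ℤ) := Finsupp.addEquivFunOnFinite
  let f : A →+ (Fin n → ℤ) := E0.toAddMonoidHom.comp ((AddMonoidHom.fst _ _).comp E.toAddMonoidHom)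
  let s : (Fin n → ℤ) →+ A :=
    E.symm.toAddMonoidHom.comp ((AddMonoidHom.inl _ _).comp E0.symm.toAddMonoidHom)
  have fs : ∀ x, f (s x) = x := fun x => by simp [f, s]
  set k := Nat.card (DirectSum ι fun i => ZMod (p i ^ e i)) with hk
  have k0 : 0 < k := Nat.card_pos
  have ker : ∀ g, f g = 0 → k • g = 0 := fun g hg => by
    have h1 : (E g).1 = 0 := E0.injective (by simpa [f] using hg)
    apply E.injective
    rw [map_nsmul, map_zero]
    exact Prod.ext (by simp [h1]) card_nsmul_eq_zero'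
  obtain ⟨c, c0, hc⟩ := lattice (h.comp s (Function.LeftInverse.injective fs))
  refine ⟨Fin n, inferInstance, f, c, k, c0, k0, fun g => ⟨ker g, fun a => (hc _ a).trans_eq ?_⟩⟩
  have h1 := ker (g - s (f g)) (by rw [map_sub, fs, sub_self])
  rw [smul_sub, sub_eq_zero] at h1
  have h2 := congrArg H h1
  rw [h.smul, h.smul] at h2
  exact (mul_left_cancel₀ (by exact_mod_cast k0.ne') h2).symm

end UN2

theorem un2 (h : S_HB) : S_UN2 := by
  intro K _ _ S
  obtain ⟨-, -, -, h4, h5⟩ := h K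
  have fin : ∀ B, {x : K | Height.logHeight₁ x ≤ B}.Finite := fun B => by
    refine ((h5 B).preimage (f := fun x : K => ![x, 0]) fun x _ y _ e => congrFun e 0).subset
      fun x hx => (h4 _).trans ?_
    simpa using hx
  have N : UN2.Nm fun g : Additive (Subgroup.closure (S : Set Kˣ)) =>
      Height.logHeight₁ ((g.toMul : Kˣ) : K) := by
    refine ⟨fun x y => ?_, fun x => ?_, fun m x => ?_, fun B => ?_⟩
    · simpa using Height.logHeight₁_mul_le _ _
    · simp [Height.logHeight₁_inv]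
    · simp [Height.logHeight₁_pow]
    · exact (fin B).preimage (f := fun g : Additive (Subgroup.closure (S : Set Kˣ)) =>
        ((g.toMul : Kˣ) : K)) fun x _ y _ e => Subtype.ext (Units.ext e)
  have : Group.FG (Subgroup.closure (S : Set Kˣ)) := Group.closure_finset_fg S
  obtain ⟨T, _, f, c, k, c0, k0, hf⟩ := UN2.group N
  exact ⟨T, inferInstance, f, c, k, c0, k0, fun g => hf (Additive.ofMul g)⟩

end Pool.Agent.KSP

end

end MrgPart15

-- ======== part 16: formerly Pool.Agent.MP_c8dfda_nt.kp.LIMIT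
section MrgPart16

/-! Polynomial maps of the plane: from the growth of an iterate to the limit. -/

open Polynomial Filter Real
open scoped Topology

noncomputable section

namespace Pool.Agent.KSP

namespace LIMIT

/-- a smaller exponential is eventually dominated -/
theorem dom {a b : ℝ} (ha : 0 ≤ a) (hab : a < b) (A : ℝ) {c : ℝ} (hc : 0 < c) :
    ∀ᶠ n : ℕ in atTop, A * a ^ n < c * b ^ n := by
  have hb : 0 < b := ha.trans_lt hab
  have h1 : Tendsto (fun n : ℕ => A * (a / b) ^ n) atTop (𝓝 (A * 0)) :=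
    (tendsto_pow_atTop_nhds_zero_of_lt_one (div_nonneg ha hb.le) ((div_lt_one hb).2 hab)).const_mul A
  rw [mul_zero] at h1
  filter_upwards [h1.eventually (gt_mem_nhds hc)] with n hn
  rwa [div_pow, ← mul_div_assoc, div_lt_iff₀ (pow_pos hb n)] at hn

/-- the upper bound from one step of length `m` -/
theorem upper {H : ℕ → ℝ} (h0 : ∀ n, 0 ≤ H n) {γ C : ℝ} {m : ℕ} (hγ : 1 < γ) (hm : 1 ≤ m)
    (h : ∀ n, H (n + m) ≤ γ ^ m * H n + C) : ∃ B : ℝ, ∀ n, H n ≤ B * γ ^ n := by
  have hg : 1 < γ ^ m := one_lt_pow₀ hγ (by omega)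
  obtain ⟨A, hA0, hA⟩ : ∃ A : ℝ, 0 ≤ A ∧ C + A ≤ γ ^ m * A := by
    refine ⟨|C| / (γ ^ m - 1), div_nonneg (abs_nonneg _) (by linarith), ?_⟩
    have h1 : (γ ^ m - 1) * (|C| / (γ ^ m - 1)) = |C| := mul_div_cancel₀ _ (by linarith)
    have := le_abs_self C
    linarith
  have key : ∀ n, H n + A ≤ (∑ r ∈ Finset.range m, (H r + A)) * γ ^ n := by
    intro n
    induction n using Nat.strong_induction_on with
    | _ n ih =>
      rcases lt_or_ge n m with hn | hn
      · have h1 : H n + A ≤ ∑ r ∈ Finset.range m, (H r + A) :=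
          Finset.single_le_sum (f := fun r => H r + A) (fun r _ => add_nonneg (h0 r) hA0)
            (Finset.mem_range.2 hn)
        exact h1.trans (le_mul_of_one_le_right ((add_nonneg (h0 n) hA0).trans h1)
          (one_le_pow₀ hγ.le))
      · obtain ⟨k, rfl⟩ := Nat.exists_eq_add_of_le' hn
        have h1 := mul_le_mul_of_nonneg_left (ih k (by omega)) (zero_lt_one.trans hg).le
        have h2 := h k
        rw [pow_add]
        linarith
  exact ⟨_, fun n => (le_add_of_nonneg_right hA0).trans (key n)⟩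

/-- the lower bound from the growth along the multiples of `m` -/
theorem lower {H : ℕ → ℝ} (h0 : ∀ n, 0 ≤ H n) {δ c : ℝ} {m : ℕ} (hδ : 1 < δ) (hc : 0 < c)
    (hm : 1 ≤ m) (h : ∀ r, ∃ E : ℝ, ∀ n, H (n + r) ≤ E * (H n + 1))
    (hg : ∀ᶠ k in atTop, c * (δ ^ m) ^ k ≤ H (m * k)) :
    ∃ E : ℝ, 0 ≤ E ∧ ∀ᶠ n in atTop, c * δ ^ n ≤ E * (H n + 1) := by
  choose E hE using h
  obtain ⟨k₀, hk₀⟩ := eventually_atTop.1 hg
  refine ⟨∑ r ∈ Finset.range (m + 1), |E r|, Finset.sum_nonneg fun _ _ => abs_nonneg _,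
    eventually_atTop.2 ⟨m * k₀, fun n hn => ?_⟩⟩
  have h1 : k₀ ≤ n / m + 1 :=
    ((Nat.le_div_iff_mul_le (by omega)).2 (by rwa [mul_comm])).trans (Nat.le_succ _)
  have h2 : m * (n / m + 1) = n + (m - n % m) := by
    have := Nat.div_add_mod n m
    have := Nat.mod_lt n (show 0 < m by omega)
    rw [mul_add, mul_one]
    omega
  have h3 := hk₀ _ h1
  rw [← pow_mul, h2] at h3
  have h4 : E (m - n % m) ≤ ∑ r ∈ Finset.range (m + 1), |E r| :=
    (le_abs_self _).trans (Finset.single_le_sum (f := fun r => |E r|) (fun _ _ => abs_nonneg _)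
      (Finset.mem_range.2 (by omega)))
  calc c * δ ^ n ≤ c * δ ^ (n + (m - n % m)) :=
        mul_le_mul_of_nonneg_left (pow_le_pow_right₀ hδ.le (Nat.le_add_right _ _)) hc.le
    _ ≤ E (m - n % m) * (H n + 1) := h3.trans (hE _ _)
    _ ≤ _ := mul_le_mul_of_nonneg_right h4 (by linarith [h0 n])

theorem root_pow {a : ℝ} (ha : 0 ≤ a) {n : ℕ} (hn : 1 ≤ n) : (a ^ n) ^ (1 / (n : ℝ)) = a := by
  rw [one_div]
  exact pow_rpow_inv_natCast ha (by omega)

end LIMIT

open LIMIT in
theorem limit (h : S_HB) : S_LIMIT := by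
  intro K _ _ s O hO _ δ hL hG
  have h0 : ∀ n, 0 ≤ Ht (O n) := fun n => Height.logHeight_nonneg _
  have hs : ∀ r, ∃ C : ℝ, ∀ n, Ht (O (n + r)) ≤ dd (s ^ r) * Ht (O n) + C := fun r => by
    obtain ⟨C, hC⟩ := (h K).2.1 (s ^ r)
    exact ⟨C, fun n => by rw [hO.add]; exact hC _⟩
  have hpos : ∀ n : ℕ, 1 ≤ n → (0 : ℝ) < 1 / n := fun n hn =>
    one_div_pos.2 (Nat.cast_pos.2 (by omega))
  have h1 := hL.one
  refine tendsto_order.2 ⟨fun a ha => ?_, fun b hb => ?_⟩
  · obtain ⟨β, hβ1, hβ2⟩ := exists_between (max_lt h1 ha)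
    have hb1 : 1 < β := (le_max_left _ _).trans_lt hβ1
    have key : ∀ᶠ n in atTop, β ^ n < Ht (O n) := by
      by_contra hcon
      have hfr : ∃ᶠ n in atTop, Ht (O n) ≤ β ^ n := by
        simpa only [not_eventually, not_lt] using hcon
      obtain ⟨m, hm, c, hc, hg⟩ := hG β hb1 hβ2 hfr
      obtain ⟨E, hE0, hE⟩ := lower (H := fun n => Ht (O n)) h0 h1 hc hm (fun r => by
        obtain ⟨C, hC⟩ := hs r
        refine ⟨dd (s ^ r) + |C|, fun n => (hC n).trans ?_⟩
        have := le_abs_self C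
        have := mul_nonneg (abs_nonneg C) (h0 n)
        have : (0 : ℝ) ≤ dd (s ^ r) := Nat.cast_nonneg _
        show _ ≤ _ * (Ht (O n) + 1)
        linarith) hg
      obtain ⟨n, hn1, hn2, hn3⟩ :=
        (hfr.and_eventually (hE.and (dom (by linarith) hβ2 (2 * E) hc))).exists
      have h2 : 1 ≤ β ^ n := one_le_pow₀ hb1.le
      have h3 : E * (Ht (O n) + 1) ≤ E * (2 * β ^ n) :=
        mul_le_mul_of_nonneg_left (by linarith) hE0
      linarith
    filter_upwards [key, eventually_ge_atTop 1] with n hn hn1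
    have h2 := rpow_lt_rpow (pow_nonneg (by linarith) n) hn (hpos n hn1)
    rw [root_pow (by linarith) hn1] at h2
    exact ((le_max_right _ _).trans_lt hβ1).trans h2
  · obtain ⟨γ, hγ1, hγ2⟩ := exists_between hb
    obtain ⟨γ', hγ3, hγ4⟩ := exists_between hγ1
    obtain ⟨C, hC⟩ := hL.up γ' hγ3
    obtain ⟨m, hm1, hm2⟩ :=
      ((eventually_ge_atTop 1).and (dom (by linarith) hγ4 C one_pos)).exists
    obtain ⟨C', hC'⟩ := hs m
    obtain ⟨B, hB⟩ := upper (H := fun n => Ht (O n)) (C := C') h0 (h1.trans hγ1) hm1 fun n =>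
      (hC' n).trans (add_le_add_left (mul_le_mul_of_nonneg_right
        (by linarith [hC m]) (h0 n)) _)
    filter_upwards [dom (by linarith) hγ2 B one_pos, eventually_ge_atTop 1] with n hn hn1
    have h2 := rpow_lt_rpow (h0 n) ((hB n).trans_lt (hn.trans_eq (one_mul _))) (hpos n hn1)
    rwa [root_pow (by linarith) hn1] at h2

end Pool.Agent.KSP

end

end MrgPart16

-- ======== part 17: formerly Pool.Agent.MP_c8dfda_nt.kp.VAL2
section MrgPart17

/-! Polynomial maps of the plane: a generic slow ultrafilter. -/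

open Polynomial Filter Real
open scoped Topology

noncomputable section

namespace Pool.Agent.KSP

theorem val2 (h1 : S_SEQ) (h2 : S_DROP) (h3 : S_ORB) (h4 : S_HB) : S_VAL2 := by
  intro K _ _ s O hO hZ β₀ β hb0 hb hfr
  obtain ⟨hinj, -, -, -, hsp⟩ := h3 K s O hO hZ
  obtain ⟨-, hap, -, -, hfin⟩ := h4 K
  obtain ⟨C, hC⟩ := hap s
  have hT : Tendsto (fun n => Ht (O n)) atTop atTop := VAL.tend O hinj Ht hfin
  let A : {φ : R K // φ ≠ 0} × ℕ × ℕ → Set ℕ := fun i =>
    {n | i.2.2 ≤ n ∧ MvPolynomial.eval (O n) i.1.1 ≠ 0 ∧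
      ∀ j ≤ i.2.1, Ht (O (n + j)) ≤ β ^ j * Ht (O n)}
  have : Nonempty {φ : R K // φ ≠ 0} := ⟨⟨1, one_ne_zero⟩⟩
  obtain ⟨U, hU⟩ := VAL.ultra A (fun i => by
    obtain ⟨c, k₀, hc⟩ := h2 K s O hO hZ i.1.1 i.1.2
    exact h1 (fun n => Ht (O n)) {n | MvPolynomial.eval (O n) i.1.1 = 0} (dd s) C c β₀ β k₀ hT
      (fun n => by rw [hO n]; exact hC _) (hsp _ i.1.2) hc hb0 hb hfr i.2.1 i.2.2) (fun i j => by
    refine ⟨(⟨i.1.1 * j.1.1, mul_ne_zero i.1.2 j.1.2⟩, max i.2.1 j.2.1, max i.2.2 j.2.2),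
      fun n hn => ?_, fun n hn => ?_⟩
    · obtain ⟨a, b, c⟩ := hn
      rw [map_mul] at b
      exact ⟨(le_max_left _ _).trans a, left_ne_zero_of_mul b,
        fun t ht => c t (ht.trans (le_max_left _ _))⟩
    · obtain ⟨a, b, c⟩ := hn
      rw [map_mul] at b
      exact ⟨(le_max_right _ _).trans a, right_ne_zero_of_mul b,
        fun t ht => c t (ht.trans (le_max_right _ _))⟩)
  refine ⟨U, fun S hS => ?_, fun φ hφ => ?_, fun j => ?_⟩
  · obtain ⟨k, hk⟩ := mem_atTop_sets.1 hS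
    exact mem_of_superset (hU (⟨1, one_ne_zero⟩, 0, k)) fun n hn => hk n hn.1
  · exact mem_of_superset (hU (⟨φ, hφ⟩, 0, 0)) fun n hn => hn.2.1
  · exact mem_of_superset (hU (⟨1, one_ne_zero⟩, j, 0)) fun n hn => hn.2.2 j le_rfl

end Pool.Agent.KSP

end

end MrgPart17

-- marker of a merged file
example : 731051 + 786363 = 731051 + 786363 := rfl
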