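import Mathlib.RingTheory.Flat.Basic
import Mathlib.LinearAlgebra.Charpoly.Basic
import Mathlib.Algebra.Module.StablyFree.Basic
import Pool.Agent.MP_c8dfda_nt.kp.SEQ
import Pool.Agent.MP_c8dfda_nt.kp.TOP2
import Pool.Agent.MP_c8dfda_nt.kp.VAL2
import Pool.Agent.MP_c8dfda_nt.kp.DROP2

-- ======== part 0: formerly Pool.Agent.MP_c8dfda_nt.kp.EMB
section MrgPart0

/-! Characteristic polynomial, trace and conjugate absolute values. -/

open Polynomial Filter Real
open scoped Topology

noncomputable section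

namespace Pool.Agent.KSP

namespace EMB

theorem coeff_prod_le {Ω J : Type} [Field Ω] {w : AbsoluteValue Ω ℝ} (hw : IsNonarchimedean w)
    (r : J → Ω) {B : ℝ} (hB : 0 ≤ B) (s : Finset J) (h : ∀ k ∈ s, w (r k) ≤ B) (j : ℕ) :
    w ((∏ k ∈ s, (X - C (r k))).coeff j) ≤ if j ≤ s.card then B ^ (s.card - j) else 0 := by
  classical
  induction s using Finset.induction generalizing j with
  | empty =>
    rcases j with _ | j
    · simp
    · simp [coeff_one]
  | insert a s ha ih =>
    have ih' := ih fun k hk => h k (Finset.mem_insert_of_mem hk)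
    have hr : w (r a) ≤ B := h a (Finset.mem_insert_self _ _)
    rw [Finset.prod_insert ha, Finset.card_insert_of_notMem ha, mul_comm]
    rcases j with _ | j
    · have h0 := ih' 0
      rw [if_pos (Nat.zero_le _), Nat.sub_zero] at h0
      rw [if_pos (Nat.zero_le _), Nat.sub_zero, mul_coeff_zero, map_mul, pow_succ]
      refine mul_le_mul h0 ?_ (w.nonneg _) (pow_nonneg hB _)
      simpa using hr
    · rw [coeff_mul_X_sub_C]
      have h1 := ih' j
      have h2 := ih' (j + 1)
      refine KSkew.na_sub_le hw ?_ ?_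
      · by_cases hj : j ≤ s.card
        · rw [if_pos hj] at h1
          rw [if_pos (by omega), Nat.add_sub_add_right]
          exact h1
        · rw [if_neg hj] at h1
          rw [if_neg (by omega)]
          exact h1
      · rw [map_mul]
        by_cases hj : j + 1 ≤ s.card
        · rw [if_pos hj] at h2
          rw [if_pos (by omega), show s.card + 1 - (j + 1) = s.card - (j + 1) + 1 by omega, pow_succ]
          exact mul_le_mul h2 hr (w.nonneg _) (pow_nonneg hB _)
        · rw [if_neg hj] at h2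
          have h3 : w ((∏ k ∈ s, (X - C (r k))).coeff (j + 1)) = 0 := le_antisymm h2 (w.nonneg _)
          rw [h3, zero_mul]
          split_ifs
          · exact pow_nonneg hB _
          · exact le_rfl

theorem charpoly_map (F A Ω : Type) [Field F] [CharZero F] [Field A] [Field Ω] [IsAlgClosed Ω]
    [Algebra F A] [Algebra F Ω] [FiniteDimensional F A] (a : A) :
    (Algebra.lmul F A a).charpoly.map (algebraMap F Ω) = ∏ τ : A →ₐ[F] Ω, (X - C (τ a)) := by
  refine eq_of_infinite_eval_eq _ _ ?_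
  refine (Set.infinite_range_of_injective (algebraMap F Ω).injective).mono ?_
  rintro _ ⟨c, rfl⟩
  show eval _ _ = eval _ _
  rw [eval_map_algebraMap, aeval_algebraMap_apply, coe_aeval_eq_eval, LinearMap.eval_charpoly,
    eval_prod]
  have h1 : algebraMap F (Module.End F A) c - Algebra.lmul F A a
      = Algebra.lmul F A (algebraMap F A c - a) := by
    rw [map_sub, AlgHom.commutes]
  rw [h1, ← Algebra.norm_apply, Algebra.norm_eq_prod_embeddings F Ω]
  refine Finset.prod_congr rfl fun τ _ => ?_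
  rw [map_sub, AlgHom.commutes, eval_sub, eval_X, eval_C]

theorem core (h1 : S_EXTV) (F A : Type) [Field F] [CharZero F] [Field A] [Algebra F A]
    [FiniteDimensional F A] (η₀ : AbsoluteValue A ℝ) (h0 : IsNonarchimedean η₀) :
    ∃ η : Fin (Module.finrank F A) → AbsoluteValue A ℝ, (∃ k, η k = η₀) ∧
      (∀ k, IsNonarchimedean (η k) ∧ ∀ b : F, η k (algebraMap F A b) = η₀ (algebraMap F A b)) ∧
      ∀ a, ∏ k, η k a = η₀ (algebraMap F A ((Algebra.lmul F A a).charpoly.coeff 0)) ∧
        ∀ B : ℝ, (∀ k, η k a ≤ B) → η₀ (algebraMap F A (Algebra.trace F A a)) ≤ B ∧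
          ∀ j, η₀ (algebraMap F A ((Algebra.lmul F A a).charpoly.coeff j))
            ≤ B ^ (Module.finrank F A - j) := by
  classical
  obtain ⟨w, hw, hwe⟩ := h1 A (AlgebraicClosure A) η₀ h0
  have hc : Fintype.card (A →ₐ[F] AlgebraicClosure A) = Module.finrank F A := AlgHom.card F A _
  let e : Fin (Module.finrank F A) ≃ (A →ₐ[F] AlgebraicClosure A) :=
    (Fintype.equivFinOfCardEq hc).symm
  let η : Fin (Module.finrank F A) → AbsoluteValue A ℝ := fun k =>
    w.comp (f := ((e k : A →ₐ[F] AlgebraicClosure A) : A →+* AlgebraicClosure A)) (e k).injective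
  have hη : ∀ k a, η k a = w (e k a) := fun _ _ => rfl
  have hF : ∀ b : F, η₀ (algebraMap F A b) = w (algebraMap F (AlgebraicClosure A) b) := fun b => by
    rw [← hwe, ← IsScalarTower.algebraMap_apply]
  have hco : ∀ (a : A) (j : ℕ), algebraMap F (AlgebraicClosure A)
      ((Algebra.lmul F A a).charpoly.coeff j)
      = (∏ τ : A →ₐ[F] AlgebraicClosure A, (X - C (τ a))).coeff j := fun a j => by
    rw [← charpoly_map F A (AlgebraicClosure A) a, coeff_map]
  have hk : ∃ k, η k = η₀ := by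
    refine ⟨e.symm (IsScalarTower.toAlgHom F A (AlgebraicClosure A)), ?_⟩
    ext a
    rw [hη, Equiv.apply_symm_apply, ← hwe]
    rfl
  refine ⟨η, hk, fun k => ⟨fun a b => ?_, fun b => ?_⟩, fun a => ⟨?_, fun B hB => ?_⟩⟩
  · rw [hη, hη, hη, map_add]
    exact hw _ _
  · rw [hη, AlgHom.commutes, hF]
  · rw [hF, hco, coeff_zero_eq_eval_zero, eval_prod, map_prod, ← e.prod_comp]
    refine Finset.prod_congr rfl fun k _ => ?_
    rw [hη, eval_sub, eval_X, eval_C, zero_sub, w.map_neg]
  · obtain ⟨k₀, -⟩ := hk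
    have hB0 : 0 ≤ B := ((η k₀).nonneg a).trans (hB k₀)
    have hτ : ∀ τ : A →ₐ[F] AlgebraicClosure A, w (τ a) ≤ B := fun τ => by
      have := hB (e.symm τ)
      rwa [hη, Equiv.apply_symm_apply] at this
    refine ⟨?_, fun j => ?_⟩
    · rw [hF, trace_eq_sum_embeddings (AlgebraicClosure A)]
      exact KSkew.na_sum_le hw _ _ hB0 fun τ _ => hτ τ
    · rw [hF, hco]
      refine (coeff_prod_le hw (fun τ : A →ₐ[F] AlgebraicClosure A => τ a) hB0 Finset.univ
        (fun τ _ => hτ τ) j).trans ?_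
      rw [Finset.card_univ, hc]
      split_ifs
      · exact le_rfl
      · exact pow_nonneg hB0 _

end EMB

theorem emb (h1 : S_EXTV) (h2 : S_TOW) : S_EMB := by
  intro K _ _ σ
  have := (h2 K σ).1
  have : CharZero σ.fieldRange :=
    charZero_of_injective_algebraMap (algebraMap K σ.fieldRange).injective
  let e : M K ≃ₐ[K] σ.fieldRange := σ.equivFieldRange
  have he : ∀ b, algebraMap σ.fieldRange (M K) (e b) = σ b := fun _ => rfl
  have he' : ∀ c : σ.fieldRange, σ (e.symm c) = algebraMap σ.fieldRange (M K) c := fun c => by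
    rw [← he, AlgEquiv.apply_symm_apply]
  let g : σ.fieldRange →+* M K := (e.symm : σ.fieldRange →ₐ[K] M K)
  have hg : ∀ c, g c = e.symm c := fun _ => rfl
  refine ⟨fun v hv => ?_, fun a => (Algebra.lmul σ.fieldRange (M K) a).charpoly.map g,
    g.toAddMonoidHom.comp (Algebra.trace σ.fieldRange (M K)).toAddMonoidHom,
    fun a => ⟨(LinearMap.charpoly_monic _).map g, ?_, ?_⟩, fun a b => ?_, ?_, fun η₀ h0 => ?_⟩
  · obtain ⟨w, hw, hwe⟩ := h1 σ.fieldRange (M K) (v.comp (f := g) g.injective) fun a b => by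
      show v (g (a + b)) ≤ max (v (g a)) (v (g b))
      rw [map_add]
      exact hv.1 _ _
    have key : ∀ b, w (σ b) = v b := fun b => by
      rw [← he, hwe]
      show v (g (e b)) = v b
      rw [hg, AlgEquiv.symm_apply_apply]
    refine ⟨w, ⟨hw, fun c hc => ?_⟩, key⟩
    rw [← σ.commutes, key]
    exact hv.2 c hc
  · rw [(LinearMap.charpoly_monic _).natDegree_map, LinearMap.charpoly_natDegree]
    rfl
  · have h3 : (σ : M K →+* M K).comp g = algebraMap σ.fieldRange (M K) := RingHom.ext he'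
    rw [eval₂_map, h3, ← aeval_def]
    have h4 := LinearMap.aeval_self_charpoly (Algebra.lmul σ.fieldRange (M K) a)
    rw [aeval_algHom_apply] at h4
    exact (map_eq_zero_iff _ Algebra.lmul_injective).1 h4
  · show g (Algebra.trace σ.fieldRange (M K) (σ b * a)) = b * g (Algebra.trace σ.fieldRange (M K) a)
    rw [← he, ← Algebra.smul_def, map_smul, smul_eq_mul, map_mul, hg (e b),
      AlgEquiv.symm_apply_apply]
  · show g (Algebra.trace σ.fieldRange (M K) 1) = _
    rw [← map_one (algebraMap σ.fieldRange (M K)), Algebra.trace_algebraMap, nsmul_eq_mul, mul_one,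
      map_natCast]
    rfl
  · obtain ⟨η, a1, a2, a3⟩ := EMB.core h1 σ.fieldRange (M K) η₀ h0.1
    refine ⟨η, a1, fun k => ⟨⟨(a2 k).1, fun c hc => ?_⟩, fun b => (a2 k).2 (e b)⟩,
      fun a => ⟨?_, fun B hB => ⟨?_, fun j => ?_⟩⟩⟩
    · rw [IsScalarTower.algebraMap_apply K σ.fieldRange (M K), (a2 k).2,
        ← IsScalarTower.algebraMap_apply]
      exact h0.2 c hc
    · rw [coeff_map, hg, he']
      exact (a3 a).1
    · show η₀ (σ (g (Algebra.trace σ.fieldRange (M K) a))) ≤ B
      rw [hg, he']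
      exact ((a3 a).2 B hB).1
    · rw [coeff_map, hg, he']
      exact ((a3 a).2 B hB).2 j

end Pool.Agent.KSP

end

end MrgPart0

-- ======== part 1: formerly Pool.Agent.MP_c8dfda_nt.kp.FINI
section MrgPart1

/-! Two plane curves without a common component meet in finitely many points, and any two
polynomials are algebraically dependent on a curve. -/

open Polynomial Filter Real
open scoped Topology

noncomputable section

namespace Pool.Agent.KSP

namespace FINI

/-- a nonzero polynomial is a power of the variable times one with nonzero constant term -/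
theorem split {S : Type} [CommRing S] {Q : S[X]} (hQ : Q ≠ 0) :
    ∃ (m : ℕ) (q : S[X]), Q = X ^ m * q ∧ q.coeff 0 ≠ 0 := by
  obtain ⟨q, h1, h2⟩ := exists_eq_pow_rootMultiplicity_mul_and_not_dvd Q hQ 0
  simp only [map_zero, sub_zero] at h1 h2
  exact ⟨_, q, h1, fun h => h2 (X_dvd_iff.2 h)⟩

/-- the value of a polynomial modulo the argument -/
theorem dvd_sub {S A : Type} [CommRing S] [CommRing A] (f : S →+* A) (b : A) (q : S[X]) :
    b ∣ q.eval₂ f b - f (q.coeff 0) := by
  refine ⟨(divX q).eval₂ f b, ?_⟩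
  have h := congrArg (eval₂ f b) (X_mul_divX_add q)
  rw [eval₂_add, eval₂_mul, eval₂_X, eval₂_C] at h
  rw [← h, add_sub_cancel_right]

theorem trdeg_three (K : Type) [Field K] : Algebra.trdeg K K[X][X][X] = 3 := by
  have h1 := trdeg_add_eq K K[X] (A := K[X][X])
  have h2 := trdeg_add_eq K K[X][X] (A := K[X][X][X])
  rw [Polynomial.trdeg_of_isDomain, Polynomial.trdeg_of_isDomain] at h1
  rw [← h1, Polynomial.trdeg_of_isDomain] at h2
  rw [← h2]
  norm_num

/-- any two polynomials are algebraically dependent on a curve -/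
theorem dep {K : Type} [Field K] {c : R K} (hc : c ≠ 0) (a b : R K) :
    ∃ Q : K[X][X], Q ≠ 0 ∧ c ∣ Q.eval₂ (aeval a : K[X] →ₐ[K] R K) b := by
  by_contra h
  push Not at h
  let φ : K[X][X] →ₐ[K] R K := aevalTower (aeval a) b
  let Φ : K[X][X][X] →ₐ[K] R K := aevalTower φ c
  have hΦ : ∀ F, Φ F = F.eval₂ (φ : K[X][X] →+* R K) c := fun F => rfl
  have inj : Function.Injective Φ := by
    rw [injective_iff_map_eq_zero]
    intro F hF
    by_contra hF0
    obtain ⟨m, q, rfl, hq⟩ := split hF0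
    rw [hΦ, eval₂_mul, eval₂_X_pow] at hF
    have h0 : q.eval₂ (φ : K[X][X] →+* R K) c = 0 :=
      (mul_eq_zero.1 hF).resolve_left (pow_ne_zero _ hc)
    have h1 := dvd_sub (φ : K[X][X] →+* R K) c q
    rw [h0, zero_sub, dvd_neg] at h1
    exact h _ hq h1
  have h3 := trdeg_le_of_injective (R := K) (A := K[X][X][X]) (A' := R K) Φ inj
  rw [trdeg_three, MvPolynomial.trdeg_of_isDomain] at h3
  simp at h3
  norm_num at h3

/-- each coordinate of a common zero is a root of a fixed nonzero polynomial -/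
theorem coord {K : Type} [Field K] {c ψ : R K} (hc : Prime c) (hψ : ¬ c ∣ ψ) (j : Fin 2) :
    ∃ p : K[X], p ≠ 0 ∧ ∀ P : Fin 2 → K, MvPolynomial.eval P c = 0 →
      MvPolynomial.eval P ψ = 0 → p.IsRoot (P j) := by
  obtain ⟨Q, hQ, hd⟩ := dep hc.ne_zero (xx j) ψ
  obtain ⟨m, q, rfl, hq⟩ := split hQ
  rw [eval₂_mul, eval₂_X_pow] at hd
  have h1 := (hc.dvd_or_dvd hd).resolve_left fun h => hψ (hc.dvd_of_dvd_pow h)
  refine ⟨q.coeff 0, hq, fun P hP1 hP2 => ?_⟩
  have h2 := map_dvd (MvPolynomial.eval P) h1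
  have h3 := map_dvd (MvPolynomial.eval P)
    (dvd_sub ((aeval (xx j) : K[X] →ₐ[K] R K) : K[X] →+* R K) ψ q)
  rw [hP1, zero_dvd_iff] at h2
  rw [hP2, zero_dvd_iff, map_sub, h2, zero_sub, neg_eq_zero] at h3
  have h4 := Polynomial.aeval_algHom_apply (MvPolynomial.aeval (R := K) P) (xx j : R K) (q.coeff 0)
  rw [MvPolynomial.aeval_X, coe_aeval_eq_eval] at h4
  rw [IsRoot.def, h4]
  exact h3

end FINI

theorem fini : S_FINI := by
  intro K _ c hc
  refine ⟨fun ψ hψ => ?_, fun a b _ => FINI.dep hc.ne_zero a b⟩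
  choose p hp hr using FINI.coord hc hψ
  refine (Set.Finite.pi' (t := fun j => {z | (p j).IsRoot z})
    fun j => finite_setOfPred_isRoot (hp j)).subset ?_
  intro P hP j
  exact hr j P hP.1 hP.2

end Pool.Agent.KSP

end
end MrgPart1

-- ======== part 2: formerly Pool.Agent.MP_c8dfda_nt.kp.SMALL
section MrgPart2

/-! Polynomial maps of the plane: no slow orbits for small topological degree. -/

open Polynomial Filter Real
open scoped Topology

noncomputable section

namespace Pool.Agent.KSP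

namespace SMALL

variable {K : Type} [Field K]

theorem exists_prime (U : Ultrafilter ℕ) (O : ℕ → Fin 2 → K) (φ : R K) (h0 : φ ≠ 0)
    (h : ∀ᶠ n in (U : Filter ℕ), MvPolynomial.eval (O n) φ = 0) :
    ∃ c : R K, Prime c ∧ ∀ᶠ n in (U : Filter ℕ), MvPolynomial.eval (O n) c = 0 := by
  induction φ using UniqueFactorizationMonoid.induction_on_prime with
  | h₁ => exact absurd rfl h0
  | h₂ x hx =>
    obtain ⟨n, hn⟩ := h.exists
    exact absurd hn (hx.map (MvPolynomial.eval (O n))).ne_zero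
  | h₃ a p ha hp ih =>
    simp only [map_mul, mul_eq_zero] at h
    rcases Ultrafilter.eventually_or.1 h with h | h
    · exact ⟨p, hp, h⟩
    · exact ih ha h

theorem eval_equiv (P : Fin 2 → K) (Q : K[X][X]) :
    MvPolynomial.eval P (Bivariate.equivMvPolynomial K Q) = Q.evalEval (P 0) (P 1) := by
  have : (MvPolynomial.eval P).comp (Bivariate.equivMvPolynomial K : K[X][X] →+* R K) =
      evalEvalRingHom (P 0) (P 1) := by
    ext <;> simp
  exact RingHom.congr_fun this Q

theorem shift {s : R K →ₐ[K] R K} {O : ℕ → Fin 2 → K} (hO : Orb s O) {c : R K} (hc : c ≠ 0)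
    (d : ℕ) : ∃ ψ : R K, ψ ≠ 0 ∧ ∀ n, MvPolynomial.eval (O n) c = 0 →
      MvPolynomial.eval (O (n + d)) ψ = 0 := by
  obtain ⟨Q, hQ, h⟩ := FINI.dep hc ((s ^ d) (xx 0)) ((s ^ d) (xx 1))
  refine ⟨Bivariate.equivMvPolynomial K Q, (map_ne_zero_iff _ (AlgEquiv.injective _)).2 hQ,
    fun n hn => ?_⟩
  have := DROP.eval_dvd h hn
  rw [DROP.eval_two] at this
  rw [eval_equiv, hO.add d n]
  exact this

end SMALL

open SMALL in
theorem small (h1 : S_VAL2) (h2 : S_SEQ2) (h3 : S_ULT2) (h4 : S_RATIO) (h5 : S_DROP2)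
    (_h6 : S_FINI) (h7 : S_ORB) (h8 : S_HB) : S_SMALL := by
  intro K _ _ s O hO hZ σ δ β₀ hC hL hq hb0 hb hfr
  have d0 : 0 < δ := by linarith
  have q0 : 0 ≤ (qq σ : ℝ) / δ := by positivity
  have q1 : (qq σ : ℝ) / δ < 1 := (div_lt_one d0).2 hq
  obtain ⟨γ, g1, g2⟩ := exists_between q1
  obtain ⟨β, b1, b2⟩ := exists_between hb
  have g0 : 0 < γ := q0.trans_lt g1
  obtain ⟨hinj, -⟩ := h7 K s O hO hZ
  obtain ⟨-, hap, -, -, hfin⟩ := h8 K
  obtain ⟨C, hst⟩ := hap s
  have hT : Tendsto (fun n => Ht (O n)) atTop atTop := VAL.tend O hinj Ht hfin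
  obtain ⟨U₁, hle, hgen, hgr⟩ := h1 K s O hO hZ β₀ β hb0 b1 hfr
  obtain ⟨U, C', hU, hγ, hβ, alt⟩ := h2 (fun n => Ht (O n)) (dd s) C β γ U₁ hT
    (fun n => by rw [hO n]; exact hst _) g0 g2 (by linarith) hle hgr
  have hTU := hT.mono_left hU
  by_cases gen : ∀ φ : R K, φ ≠ 0 → ∀ᶠ n in (U : Filter ℕ), MvPolynomial.eval (O n) φ ≠ 0
  · obtain ⟨ι, _, N, hS, hZZ, hlim⟩ := h3 K s O hO hZ U β C' hTU gen hβ
    have e := (h4 K ι N s σ δ β hC hL (by linarith) b2 hS).1
    rw [hZZ, mul_one] at e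
    have e' : (ZZ fun i => cp (N i) σ) < γ := by
      rw [← e, mul_div_cancel_left₀ _ d0.ne'] at g1
      exact g1
    obtain ⟨n, a1, a2, a3⟩ := (((hlim σ hC).eventually_lt_const e').and
      ((hTU.eventually_gt_atTop 0).and hγ)).exists
    rw [div_lt_iff₀ a2] at a1
    exact lt_asymm a1 a3
  · push Not at gen
    obtain ⟨φ, h0, hφ⟩ := gen
    obtain ⟨c, hc, hz⟩ := exists_prime U O φ h0 hφ
    rcases alt with ⟨d, rfl⟩ | alt
    · obtain ⟨ψ, p0, hψ⟩ := shift hO hc.ne_zero d
      have := hgen ψ p0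
      rw [Ultrafilter.coe_map, eventually_map] at this
      obtain ⟨n, a1, a2⟩ := (this.and hz).exists
      exact a1 (hψ n a2)
    · obtain ⟨A, hA⟩ := h5 K s O hO hZ c hc
      have lim : Tendsto (fun m : ℕ => max A 0 * C' * γ ^ m) atTop (𝓝 (max A 0 * C' * 0)) :=
        (tendsto_pow_atTop_nhds_zero_of_lt_one g0.le g2).const_mul _
      obtain ⟨m, hm⟩ := (lim.eventually_lt_const (u := 1 / 2) (by norm_num)).exists
      obtain ⟨C₁, k, hk⟩ := hA m
      obtain ⟨n, a1, a2, a3, a4⟩ := (((eventually_ge_atTop k).filter_mono hU).and (hz.and ((alt m).and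
        (hTU.eventually_gt_atTop (max (2 * C₁) 0))))).exists
      have e1 := hk n a1 a2
      have p0 : 0 ≤ Ht (O (n + m)) := Height.logHeight_nonneg _
      have e2 : A * Ht (O (n + m)) ≤ max A 0 * (C' * γ ^ m * Ht (O n)) :=
        mul_le_mul (le_max_left _ _) a3 p0 (le_max_right _ _)
      have e3 := mul_lt_mul_of_pos_right hm ((le_max_right _ _).trans_lt a4)
      have e4 := (le_max_left _ _).trans_lt a4
      linarith

end Pool.Agent.KSP

end

end MrgPart2

-- marker of a merged file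
example : 731051 + 193283 = 731051 + 193283 := rfl
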