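import Pool.Agent.MP_c8dfda_nt.kp.TOP2

/-! Polynomial maps of the plane: statements of the rows on constant Jacobian. -/

open Polynomial Filter Real
open scoped Topology

noncomputable section

namespace Pool.Agent.KSP

namespace Md

variable {K : Type} [Field K] (W : Md K)

open Classical in
/-- the number of roots in a closed disc -/
def kp (a : W.E × ℝ) (f : W.E[X]) : ℕ := (f.roots.filter fun θ => W.n (a.1 - θ) ≤ exp a.2).card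

/-- the vector of a family of discs -/
def vec {ι : Type} [Fintype ι] (N : ι → AV K) (β : ι → W.E) (s : ι → ℚ) : W.V :=
  ∑ i, (zz (N i) / ZZ N) • W.av (β i, s i)

/-- a family given by discs with self-intersection zero -/
structure Std {ι : Type} [Fintype ι] (N : ι → AV K) (β : ι → W.E) (s : ι → ℚ) : Prop where
  fam : Fam N
  ins : ∀ i, W.In (β i, s i)
  rel : ∀ i φ, φ ≠ 0 → lg (N i) φ = zz (N i) * log (W.gn (β i, s i) (W.ev φ))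
  one : ∀ l, W.B (W.av (β l, s l)) (W.vec N β s) = 1

end Md

section plane

variable {K : Type} [Field K] {ι : Type} [Fintype ι]

/-- an expanded thin sequence -/
def Exp (N : ι → AV K) (s : R K →ₐ[K] R K) : Prop := ∃ (G : ℕ → R K) (κ₀ : ℝ), 1 < κ₀ ∧ Thin N G ∧
  (Thin N fun n => s (G n)) ∧ ∀ n, κ₀ * dg (G n) ≤ dg (s (G n))

/-- the outer tangent direction at `v` -/
structure Dir (N : ι → AV K) (v : AV K) where
  /-- slopes -/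
  κ : R K → ℕ
  /-- norm of the area form -/
  α : ℝ
  /-- slope of the height -/
  c : ℝ
  /-- parameters -/
  e : ℕ → ℝ
  /-- the approximating absolute values -/
  w : ℕ → AV K
  /-- the parameter of a nearby absolute value -/
  ρ : AV K → ℝ
  /-- test functions -/
  T : Finset (R K)
  na : NA K v
  zpos : 0 < lg v (xx 0)
  cpos : 0 < c
  epos : ∀ n, 0 < e n
  elim : Tendsto e atTop (𝓝 0)
  wna : ∀ n, NA K (w n)
  lin : ∀ φ, φ ≠ 0 → ∀ᶠ n in atTop, lg (w n) φ = lg v φ + κ φ * e n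
  k0 : κ (xx 0) = 0
  k1 : ∃ φ, φ ≠ 0 ∧ 1 ≤ κ φ
  jc : ∀ a b, a ≠ 0 → b ≠ 0 → lg v a * κ b ≠ lg v b * κ a → jac a b ≠ 0 ∧
    lg v (jac a b) = lg v a + lg v b - α ∧ κ (jac a b) + 1 = κ a + κ b
  lim : ∀ H, Thin N H → ∀ᶠ n in atTop,
    Tendsto (fun j => lp (w n) (H j) / dg (H j)) atTop (𝓝 (c * e n))
  tne : ∀ ψ ∈ T, ψ ≠ 0
  near : ∀ φ, φ ≠ 0 → ∃ ε : ℝ, 0 < ε ∧ ∀ η : AV K, NA K η → (∀ ψ ∈ T, |lg η ψ - lg v ψ| ≤ ε) →
    ∀ H, Thin N H → ∀ γ : ℝ, 0 < γ → (∃ᶠ j in atTop, γ * dg (H j) ≤ lp η (H j)) →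
      γ * lg v (xx 0) ≤ c * ρ η ∧ lg v (xx 0) * lg η φ = lg η (xx 0) * lg v φ + κ φ * ρ η

end plane

/-- quantification over standard families -/
def AllT (P : ∀ (K ι : Type) [Field K] [Fintype ι] (W : Md K), (ι → AV K) → (ι → W.E) → (ι → ℚ) →
    Prop) : Prop :=
  ∀ (K ι : Type) [Field K] [CharZero K] [Fintype ι] (W : Md K) (N : ι → AV K) (β : ι → W.E)
    (s : ι → ℚ), W.Std N β s → P K ι W N β s

def S_STD : Prop := AllF fun K ι _ _ N => ∀ (W : Md K) (G : ℕ → R K),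
  (∀ i, lg (N i) (xx 0) = zz (N i)) → Thin N G → (∀ i, ¬ RA (N i)) →
  ∃ (β : ι → W.E) (s : ι → ℚ), W.Std N β s

/-- the limit of a thin sequence on a disc -/
def S_GAM : Prop := AllT fun K _ _ _ W N β s => ∀ H : ℕ → R K, Thin N H → ∀ b, W.In b →
  Tendsto (fun n => max 0 (log (W.gn b (W.ev (H n)))) / dg (H n)) atTop
    (𝓝 (1 - W.B (W.av b) (W.vec N β s)))

/-- this limit just outside a member of the family -/
def S_GLIN : Prop := AllT fun _ _ _ _ W N β s => ∀ i, (s i : ℝ) < 1 ∧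
  (∃ c ε : ℝ, 0 < c ∧ 0 < ε ∧ s i + ε ≤ 1 ∧ ∀ τ : ℝ, s i ≤ τ → τ ≤ s i + ε →
    1 - W.B (W.av (β i, τ)) (W.vec N β s) = c * (τ - s i)) ∧
  ∀ τ : ℝ, s i < τ → τ ≤ 1 → W.B (W.av (β i, τ)) (W.vec N β s) < 1

/-- thin annuli -/
def S_SL : Prop := AllW fun _ _ W =>
  (∀ (ζ : Pt W.n) (β : W.E) (τ : ℝ) (f : W.E[X]), ζ.f (X - C β) ≤ exp τ → ζ.f f ≤ W.gn (β, τ) f) ∧
  ∀ (β : W.E) (s : ℝ) (f : W.E[X]), f ≠ 0 → ∃ ε : ℝ, 0 < ε ∧ ∀ τ : ℝ, s < τ → τ ≤ s + ε →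
    W.kp (β, τ) f = W.kp (β, s) f ∧ (∀ θ ∈ f.roots, W.n (β - θ) ≠ exp τ) ∧
    log (W.gn (β, τ) f) = log (W.gn (β, s) f) + W.kp (β, s) f * (τ - s) ∧
    ∀ ζ : Pt W.n, ζ.f (X - C β) = exp τ → ζ.f f = W.gn (β, τ) f

/-- one polynomial locates a point near a disc -/
def S_LOC : Prop := AllW fun K _ W => ∀ (β : W.E) (s : ℝ), W.In (β, s) →
  ∃ φ₀ : R K, φ₀ ≠ 0 ∧ 1 ≤ W.kp (β, s) (W.ev φ₀) ∧ ∀ (ζ : Pt W.n) (ε : ℝ), 0 ≤ ε →
    ζ.f X ≤ exp 1 → ζ.f (W.ev φ₀) ≤ exp ε * W.gn (β, s) (W.ev φ₀) →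
    ∃ ζ' : Pt W.n, (∀ φ : R K, ζ'.f (W.ev φ) = ζ.f (W.ev φ)) ∧ ζ'.f (X - C β) ≤ exp (s + ε)

/-- one polynomial forces the first coordinate to be generic -/
def S_XZ : Prop := AllW fun K _ W => ∀ (β : W.E) (s : ℝ), W.In (β, s) → s < 1 →
  ∃ (ψ : R K) (d : ℕ), ψ ≠ 0 ∧ 1 ≤ d ∧ log (W.gn (β, s) (W.ev ψ)) < d ∧
    ∀ η : AV K, NA K η → 0 < zz η → lg η ψ < d * zz η → lg η (xx 0) = zz η

/-- the Jacobian on a sphere without roots -/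
def S_JK : Prop := AllW fun K _ W => ∀ (β : W.E) (t : ℚ) (a b : R K), W.ev a ≠ 0 → W.ev b ≠ 0 →
  (∀ θ ∈ (W.ev a).roots, W.n (β - θ) ≠ exp t) → (∀ θ ∈ (W.ev b).roots, W.n (β - θ) ≠ exp t) →
  log (W.gn (β, t) (W.ev a)) * W.kp (β, t) (W.ev b) ≠
    log (W.gn (β, t) (W.ev b)) * W.kp (β, t) (W.ev a) →
  jac a b ≠ 0 ∧ log (W.gn (β, t) (W.ev (jac a b))) =
    log (W.gn (β, t) (W.ev a)) + log (W.gn (β, t) (W.ev b)) - 1 - t

/-- absolute values near a disc -/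
def S_NEAR : Prop := AllW fun K _ W => ∀ (ι : Type) [Fintype ι] (N : ι → AV K) (v : AV K) (β : W.E)
  (s z c ε₀ : ℝ), 0 < z → W.In (β, s) → s < 1 → 0 < ε₀ →
  (∀ φ : R K, φ ≠ 0 → lg v φ = z * log (W.gn (β, s) (W.ev φ))) →
  (∀ τ : ℝ, s ≤ τ → τ ≤ s + ε₀ → ∀ H : ℕ → R K, Thin N H →
    Tendsto (fun n => max 0 (log (W.gn (β, τ) (W.ev (H n)))) / dg (H n)) atTop (𝓝 (c * (τ - s)))) →
  ∃ (T : Finset (R K)) (ρ : AV K → ℝ), (∀ ψ ∈ T, ψ ≠ 0) ∧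
    (∃ φ : R K, φ ≠ 0 ∧ 1 ≤ W.kp (β, s) (W.ev φ)) ∧
    ∀ φ : R K, φ ≠ 0 → ∃ ε : ℝ, 0 < ε ∧ ∀ η : AV K, NA K η → (∀ ψ ∈ T, |lg η ψ - lg v ψ| ≤ ε) →
      ∀ H : ℕ → R K, Thin N H → ∀ γ : ℝ, 0 < γ → (∃ᶠ j in atTop, γ * dg (H j) ≤ lp η (H j)) →
        γ * z ≤ c * ρ η ∧ z * lg η φ = lg η (xx 0) * lg v φ + W.kp (β, s) (W.ev φ) * ρ η

def S_DIR : Prop := AllT fun _ _ _ _ _ N _ _ => ∀ i, Nonempty (Dir N (N i))

/-- quantification over directions fixed by a map of constant Jacobian -/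
def AllD (P : ∀ (K ι : Type) [Field K] [Fintype ι] (N : ι → AV K) (v : AV K), Dir N v →
    (R K →ₐ[K] R K) → (M K →ₐ[K] M K) → Prop) : Prop :=
  ∀ (K ι : Type) [Field K] [CharZero K] [Fintype ι] (N : ι → AV K) (v : AV K) (D : Dir N v)
    (s : R K →ₐ[K] R K) (σ : M K →ₐ[K] M K), Cmp s σ → (∀ a, v (σ a) = v a) → dg (JJ s) = 0 →
    Exp N s → P K ι N v D s σ

/-- the transformation of the slopes -/
def S_TRF : Prop := AllD fun K _ _ _ _ v D s _ => 1 ≤ D.κ (s (xx 0)) ∧ ∃ m : ℝ, lg v (xx 0) < m ∧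
  ∀ φ : R K, φ ≠ 0 → lg v (xx 0) * D.κ (s φ) = D.κ (s (xx 0)) * lg v φ + m * D.κ φ

/-- continuity of the extensions -/
def S_CLOSE : Prop := ∀ (K : Type) [Field K] [CharZero K] (σ : M K →ₐ[K] M K) (v : AV K)
  (w : ℕ → AV K), NA K v → Uniq v σ →
  (∀ ψ : R K, ψ ≠ 0 → Tendsto (fun n => lg (w n) ψ) atTop (𝓝 (lg v ψ))) →
  ∀ ψ : R K, ψ ≠ 0 → ∀ ε : ℝ, 0 < ε → ∀ᶠ n in atTop, ∀ η : AV K, NA K η →
    (∀ b, η (σ b) = w n (σ b)) → |lg η ψ - lg v ψ| ≤ ε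

/-- the map is not finite -/
def S_JFIN : Prop := AllD fun _ _ _ _ _ v _ s σ => Uniq v σ → ∀ a, Den s a → 1 ≤ dg a

/-- the resultant -/
def S_RSL : Prop := AllW fun K _ W => ∀ c g : R K, Prime c → (W.ev c).natDegree = dg c → ¬ c ∣ g →
  1 ≤ ((W.ev c).roots.map fun θ => W.n ((W.ev g).eval θ)).prod

/-- the roots of a polynomial of degree zero -/
def S_RIN : Prop := AllT fun K _ _ _ W N β s => ∀ G : ℕ → R K, Thin N G → ∀ φ : R K, φ ≠ 0 →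
  Nn N φ = 0 → (W.ev φ).natDegree = dg φ ∧
    ∀ θ ∈ (W.ev φ).roots, ∃ (i : _) (σ : W.E ≃ₐ[W.L] W.E), W.n (σ (β i) - θ) ≤ exp (s i)

def S_RES : Prop := AllT fun K _ _ _ _ N _ _ => ∀ G : ℕ → R K, Thin N G → ∀ c g : R K, Prime c →
  Nn N c = 0 → ¬ c ∣ g → (∀ i, lg (N i) g ≤ lg (N i) c) → ∀ i, lg (N i) c ≤ 0

/-- constant Jacobian, generic coordinates -/
def S_JMAIN : Prop := AllE fun K _ _ _ N s _ μ => μ = 1 → (∀ i, lg (N i) (xx 0) = zz (N i)) →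
  (∀ i, ¬ RA (N i)) → dg (JJ s) = 0 → Exp N s → ∃ u : R K, 1 ≤ dg u ∧ ∀ i, lg (N i) u ≤ 0

/-- constant Jacobian -/
def S_JGEN : Prop := AllE fun K _ _ _ N s _ μ => μ = 1 →
  (∀ i, ¬ RA (N i)) → dg (JJ s) = 0 → Exp N s → ∃ u : R K, 1 ≤ dg u ∧ ∀ i, lg (N i) u ≤ 0

/-- the structure theorem -/
def S_STR3 : Prop := AllS fun _ _ _ _ _ s σ δ _ => ∃ m : ℕ, 1 ≤ m ∧ (Unt (s ^ m) ∨
  Penc (s ^ m) (δ ^ m) ∨ ∃ a b : ℕ, 1 ≤ a ∧ δ ^ m * a = b ∧ b.Coprime (qq σ))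

/-- the final statement -/
def S_FINAL3 : Prop :=
  ∀ (K : Type) [Field K] [NumberField K] (F : Fin 2 → MvPolynomial (Fin 2) K) (P : Fin 2 → K),
    (∀ G : MvPolynomial (Fin 2) K,
      (∀ n : ℕ, MvPolynomial.eval ((fun a i => MvPolynomial.eval a (F i))^[n] P) G = 0) → G = 0) →
    ∀ q : ℕ, q = Module.finrank (IntermediateField.adjoin K (Set.range fun i =>
      algebraMap (MvPolynomial (Fin 2) K) (FractionRing (MvPolynomial (Fin 2) K)) (F i)))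
        (FractionRing (MvPolynomial (Fin 2) K)) →
    ∃ δ : ℝ,
      Tendsto (fun n : ℕ =>
        ((max ((fun G i => MvPolynomial.bind₁ G (F i))^[n] MvPolynomial.X 0).totalDegree
          ((fun G i => MvPolynomial.bind₁ G (F i))^[n] MvPolynomial.X 1).totalDegree : ℕ) : ℝ)
            ^ (1 / (n : ℝ))) atTop (𝓝 δ) ∧
      (1 < δ →
        (δ < q → q < δ ^ 2 → ∀ m a b : ℕ, 1 ≤ m → 1 ≤ a → δ ^ m * a = b → ¬ b.Coprime q) →
        Tendsto (fun n : ℕ =>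
          Height.logHeight ![(fun a i => MvPolynomial.eval a (F i))^[n] P 0,
            (fun a i => MvPolynomial.eval a (F i))^[n] P 1, 1] ^ (1 / (n : ℝ))) atTop (𝓝 δ))

/-! Common lemmas. -/

namespace Md

variable {K : Type} [Field K] [CharZero K] (W : Md K)

omit [CharZero K] in
theorem av_conj (σ : W.E ≃ₐ[W.L] W.E) (β : W.E) (t : ℝ) : W.av (σ β, t) = W.av (β, t) := by
  simp only [av, minpoly.algEquiv_eq]

theorem B_av_av (h : S_GAL) (a b : W.E × ℝ) : W.B (W.av a) (W.av b) = W.B (W.sg a) (W.av b) := by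
  rw [show W.av b = ((minpoly W.L b.1).natDegree : ℝ)⁻¹ •
    W.rt (W.up (minpoly W.L b.1)) fun _ => b.2 from rfl, map_smul, map_smul,
    (h K W).2.2.1 _ _ fun _ _ => rfl]

omit [CharZero K] in
theorem B_sg_av (a b : W.E × ℝ) : W.B (W.sg a) (W.av b) = ((minpoly W.L b.1).natDegree : ℝ)⁻¹ *
    ((W.up (minpoly W.L b.1)).roots.map fun θ => W.kk a (θ, b.2)).sum := by
  rw [av, map_smul, B_sg_rt, smul_eq_mul]

variable {ι : Type} [Fintype ι] {N : ι → AV K} {β : ι → W.E} {s : ι → ℚ}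

omit [CharZero K] in
theorem B_vec (u : W.V) :
    W.B u (W.vec N β s) = ∑ i, zz (N i) / ZZ N * W.B u (W.av (β i, s i)) := by
  simp only [vec, map_sum, map_smul, smul_eq_mul]

theorem B_av_vec (h : S_GAL) (a : W.E × ℝ) :
    W.B (W.av a) (W.vec N β s) = W.B (W.sg a) (W.vec N β s) := by
  simp only [B_vec, W.B_av_av h]

omit [CharZero K] in
theorem Std.sum_one {W : Md K} {β : ι → W.E} (h : W.Std N β s) : ∑ i, zz (N i) / ZZ N = 1 := by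
  rw [← Finset.sum_div]; exact div_self h.fam.ZZ_pos.ne'

omit [CharZero K] in
theorem Std.sq {W : Md K} {β : ι → W.E} (h : W.Std N β s) :
    W.B (W.vec N β s) (W.vec N β s) = 1 := by
  rw [B_vec]
  simp only [W.B_symm (W.vec N β s), h.one, mul_one, h.sum_one]

theorem gn_conj (h : S_GAL) (σ : W.E ≃ₐ[W.L] W.E) (θ : W.E) (t : ℝ) (φ : R K) :
    W.gn (σ θ, t) (W.ev φ) = W.gn (θ, t) (W.ev φ) := by
  rw [← W.up_evL]; exact ((h K W).2.1 _ σ).2 θ t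

/-- the pairing of a disc with small discs around the roots -/
theorem B_av_rt (h : S_GAL) (h' : S_ROOT) {a : W.E × ℝ} (ha : W.In a) {t : ℝ} (ht : t ≤ a.2)
    {φ : R K} (hφ : φ ≠ 0) :
    W.B (W.av a) (W.rt (W.ev φ) fun _ => t) = dg φ - log (W.gn a (W.ev φ)) := by
  obtain ⟨h0, -, -, h1⟩ := h' K W φ hφ
  have hX : (W.dp a).f X ≤ exp 1 := by
    have := W.gn_X_sub_C a 0
    rw [C_0, sub_zero, sub_zero] at this
    rw [dp_f, this]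
    exact max_le (exp_le_exp.2 ha.2) ha.1
  have h2 := (h1 (W.dp a) hX ((W.gn a).pos h0)).2
  rw [← W.up_evL, (h K W).2.2.1 _ _ fun _ _ => rfl, W.up_evL, B_sg_rt]
  simp only [dp_f, gn_X_sub_C] at h2
  rw [h2, sub_sub_cancel]
  congr 1
  refine Multiset.map_congr rfl fun θ _ => ?_
  rw [kk, max_eq_left (exp_le_exp.2 ht), max_comm (exp a.2)]

end Md

end Pool.Agent.KSP

end
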