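import Pool.Agent.MP_c8dfda_nt.kp.VAL2
import Pool.Agent.MP_c8dfda_nt.kp.ROOTH
import Pool.Agent.MP_c8dfda_nt.kp.DROP2
import Pool.Agent.MP_c8dfda_nt.kp.RATIO
import Pool.Agent.MP_c8dfda_nt.kp.TOP2
import Pool.Agent.MP_c8dfda_nt.kp.SEQ
import Pool.Agent.MP_c8dfda_nt.kp.SMALL

/-! Polynomial maps of the plane: all rows together. -/

namespace Pool.Agent.KSP

theorem final : S_FINAL2 :=
  have aEXL : S_EXL := exl
  have aEXTV : S_EXTV := extv
  have aUNIV : S_UNIV := univ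
  have aDERL : S_DERL := derl
  have aDERV : S_DERV := derv aDERL
  have aOM : S_OM := om aEXL aUNIV aDERL aDERV
  have aMODF : S_MODF := modf
  have aPSD : S_PSD := psd
  have aGAL : S_GAL := gal
  have aROOT : S_ROOT := root
  have aPENV : S_PENV := penv aGAL aROOT
  have aMINK : S_MINK := mink
  have aLEJA : S_LEJA := leja
  have aNEF : S_NEF := nef aPSD aGAL aMINK aLEJA
  have aVEC : S_VEC := vec aGAL aROOT aNEF
  have aGEN : S_GEN := gen
  have aKLA : S_KLA := kla aOM aGEN aVEC aPENV aPSD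
  have aKLB : S_KLB := klb aOM aGEN aVEC aPENV aPSD
  have aKLC : S_KLC := klc
  have aKLD : S_KLD := kld aOM aGEN aVEC aPENV aPSD aROOT aKLC
  have aTRA : S_TRA := tra
  have aTRM : S_TRM := trm aMODF
  have aTRI : S_TRI := tri aOM aGEN aTRA aTRM
  have aJAC : S_JAC := jacv aMODF
  have aPICK : S_PICK := pick aGAL aMODF
  have aLATA : S_LATA := lata
  have aLATT : S_LATT := latt aGAL aLATA
  have aRAT : S_RAT := rat
  have aCN1 : S_CN1 := cn1 aGAL aMODF aPICK aRAT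
  have aCN2 : S_CN2 := cn2 aLATT aMINK
  have aCORE : S_CORE := core aOM aGEN aTRA aTRM aJAC aNEF aPENV aPSD aGAL aCN1 aCN2
  have aTOW : S_TOW := tow
  have aEMB : S_EMB := emb aEXTV aTOW
  have aORD : S_ORD := ord
  have aORF : S_ORF := orf aORD
  have aDEN : S_DEN := den aEMB aORD
  have aWAP : S_WAP := wap
  have aGX : S_GX := gx
  have aTHIN : S_THIN := thin
  have aPERM : S_PERM := perm aTHIN aKLA aWAP aEMB
  have aSHA : S_SHA := sha aEMB aORD aORF aDEN aKLA aWAP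
  have aSHARP : S_SHARP := sharp aSHA aDEN aORD
  have aRELA : S_RELA := rela aEXTV aTOW aORD
  have aRELB : S_RELB := relb aSHARP aRELA aGX aKLD
  have aRELC : S_RELC := relc aSHARP aRELA aGX
  have aRELD : S_RELD := reld aTHIN aRELB aRELC aTOW
  have aDEF : S_DEF := defect aEMB aTOW
  have aGRP : S_GRP := grp
  have aRAC : S_RAC := rac aTRI aSHARP aDEF aGRP aTOW
  have aTWO : S_TWO := two aEMB aORD aDEN
  have aUST : S_UST := ust
  have aONE : S_ONE := one aCORE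
  have aPEN0 : S_PEN0 := pen0 aKLB aTHIN aORD
  have aSTR : S_STR := str aPERM aRELD aTRI aSHARP aTWO aUST aRAC aONE aPEN0 aTOW
  have aHB : S_HB := hb
  have aFINI : S_FINI := fini
  have aORB : S_ORB := orb aFINI
  have aDROP : S_DROP := drop aFINI aORB aHB
  have aSEQ : S_SEQ := seq
  have aULT : S_ULT := ult aHB
  have aVAL : S_VAL := val aSEQ aDROP aORB aHB aULT
  have aUN1 : S_UN1 := un1
  have aUN2 : S_UN2 := un2 aHB
  have aUN4 : S_UN4 := un4
  have aUN3 : S_UN3 := un3 aUN1 aUN2 aUN4 aORB aHB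
  have aPEN1 : S_PEN1 := pen1 aEMB aORD
  have aPEN2 : S_PEN2 := pen2
  have aPEN3 : S_PEN3 := pen3 aPEN1 aPEN2 aHB
  have aFEK : S_FEK := fek
  have aLIMIT : S_LIMIT := limit aHB
  have aRATIO : S_RATIO := ratio aTHIN aKLA aWAP aEMB aRELD
  have aDROP2 : S_DROP2 := drop2 aFINI aORB aHB rooth dep
  have aSMALL : S_SMALL :=
    small (val2 aSEQ aDROP aORB aHB) seq2 (ult2 aHB) aRATIO aDROP2 aFINI aORB aHB
  top2 aORB aORD aFEK aLIMIT aVAL aSTR aUN3 aPEN3 aRATIO aSMALL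

end Pool.Agent.KSP
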